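import Pool.Agent.Work.MP_d018b2_nt.R.NFinal
import Pool.Agent.Work.MP_678620_nt.SPTwo

/-! The correlation with a single small prime on one side reduces to the local model. -/

set_option autoImplicit false
open Finset Filter

namespace Pool.Agent.Work.MP_d018b2_nt.R

open Pool.Agent.Work.MP_678620_nt

lemma MRB_mono {N : ℕ} {c : ℤ → ℂ} {h : ℤ} {H0 H0' H1 : ℝ} {Q Jm : ℕ} {ε : ℝ} (hH : H0 ≤ H0')
    (H : MRB N c h H0 H1 Q Jm ε) : MRB N c h H0' H1 Q Jm ε :=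
  fun P I V J H' θ h1 => H P I V J H' θ (hH.trans h1)

theorem one_point (A q0 : ℕ) (hq0 : 1 ≤ q0) {c0 : ℝ} (hc0 : 0 < c0) : ∃ k0 : ℕ,
    ∀ᶠ X : ℕ in atTop,
    ∀ N : ℕ, X ≤ N ^ 2 → N ≤ X ^ 2 → ∀ E : Finset ℕ, Eok X c0 E → ∀ k k' : ℕ, 1 ≤ k → k0 ≤ k' →
    (k : ℝ) ≤ A * Real.log (Real.log X) → (k' : ℝ) ≤ A * Real.log (Real.log X) →
    ∀ (h c : ℤ) (M0 : ℕ), h ≠ 0 → |(h : ℝ)| ≤ Real.log X ^ A → 1 ≤ M0 →
    (M0 : ℝ) ≤ Real.log X ^ A → ∀ F : ℤ → ℂ, (∀ n : ℤ, n ≤ (X : ℤ) ^ 3 → ‖F n‖ ≤ Real.log X ^ 3) →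
    (∀ p ∈ E, ∀ n : ℤ, F (p * n) = F n) → ∀ (β : ℕ → ℂ) (w : ℕ → ℝ), Dat (zz X) q0 β w →
    (∀ p ∈ E, ∀ n, β (p * n) = β n) →
    ‖∑ n ∈ Ioc (N : ℤ) (2 * N), (if wE E n = k ∧ n ≡ c [ZMOD M0] then F n else 0) *
        (if wE E (n + h) = k' then
          conv β (gam (zz X) q0 w) (n + h) - conv β (flat (zz X) q0 w) (n + h) else 0)‖
      ≤ N / Real.log X ^ (A + 1) := by
  obtain ⟨k0, B, H⟩ := sparse_core1 (A + 7) hc0
  refine ⟨k0, ?_⟩
  filter_upwards [H, mr_dif (A + 7) B q0 hq0 (half_pos hc0), conv_bound, SPTwo_log,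
    spc_pow_ev (half_lt_self hc0) 2] with X H1 H2 H3 hl H4 N hN1 hN2 E hE k k' hk hk' hkA hkA' h c M0 hh hhA hM hMA F hF hFp β w hd hβ
  have hs := SPTwo_small hE hl
  have l0 : 0 < Real.log X := by linarith only [hl]
  have ll : 0 ≤ Real.log (Real.log X) := Real.log_nonneg (by linarith only [hl])
  have pw : Real.log X ^ A ≤ Real.log X ^ (A + 7) := pow_le_pow_right₀ (by linarith only [hl]) (by omega)
  have kk : ∀ j : ℕ, (j : ℝ) ≤ A * Real.log (Real.log X) →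
      (j : ℝ) ≤ (A + 7 : ℕ) * Real.log (Real.log X) := fun j hj => by
    push_cast
    nlinarith only [ll, hj]
  obtain ⟨t, ht⟩ : ∃ t : ℂ, t = ((Real.log X ^ 3)⁻¹ : ℝ) := ⟨_, rfl⟩
  have tn : ‖t‖ = (Real.log X ^ 3)⁻¹ := by
    rw [ht, Complex.norm_real, Real.norm_of_nonneg (by positivity)]
  have sc : ∀ u : ℂ, ‖u‖ ≤ Real.log X ^ 3 → ‖t * u‖ ≤ 1 := fun u hu => by
    rw [norm_mul, tn, inv_mul_le_iff₀ (by positivity), mul_one]
    exact hu
  have hd' : Dat (zz X) q0 (fun b => if wE E b = k' then β b else 0) w :=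
    ⟨fun n => by
      split_ifs
      · exact hd.β_le n
      · simp, fun n hn => hd.β_supp n fun e => hn (by simp [e]), hd.w_nonneg, hd.w_le, hd.w_supp⟩
  have g1 : ∀ n, gam (zz X) q0 w n ≠ 0 → Rou (zz X) n := fun n hn => (gam_supp hd n hn).1
  have g2 : ∀ n, flat (zz X) q0 w n ≠ 0 → Rou (zz X) n := fun n hn => (flat_supp n hn).1
  have mr := (H2 N hN1 hN2 _ w hd' h hh (hhA.trans pw)).smul (t := t)
    (by simpa using sc 1 (by simpa using one_le_pow₀ (by linarith only [hl])))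
  have mr := MRB_mono (H0' := Real.exp (Real.log X ^ c0) / 2) (by
    have a := Real.one_le_rpow (by linarith only [hl] : 1 ≤ Real.log X) (half_pos hc0).le
    have b := Real.exp_le_exp.2 (show 1 + Real.log X ^ (c0 / 2) ≤ Real.log X ^ c0 by linarith only [H4, a])
    have d := mul_le_mul_of_nonneg_right (Real.add_one_le_exp 1)
      (Real.exp_pos (Real.log X ^ (c0 / 2))).le
    rw [Real.exp_add] at b
    linarith only [b, d]) mr
  have main := H1 N hN1 hN2 E hE k k' hk hk' (kk k hkA) (kk k' hkA') h c M0 hh (hhA.trans pw) hM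
    (hMA.trans pw) (fun n => t * F n)
    (fun n => t * (conv β (gam (zz X) q0 w) n - conv β (flat (zz X) q0 w) n))
    (fun n _ hn => sc _ (hF n hn)) (fun n _ hn => sc _ (H3 q0 β w hd n hn).2.2)
    (fun p hp n => by simp only [hFp p hp n])
    (fun p hp n => by
      simp only [conv_mul hd.β_supp g1 (hs p hp).1 (hs p hp).2 (hβ p hp) n,
        conv_mul hd.β_supp g2 (hs p hp).1 (hs p hp).2 (hβ p hp) n])
    (by
      convert mr using 2 with n
      rw [← conv_wE hd.β_supp g1 hs, ← conv_wE hd.β_supp g2 hs]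
      split_ifs <;> simp)
  have e : ∀ n : ℤ, (if wE E n = k ∧ n ≡ c [ZMOD M0] then t * F n else 0) *
      (if wE E (n + h) = k' then
        t * (conv β (gam (zz X) q0 w) (n + h) - conv β (flat (zz X) q0 w) (n + h)) else 0) =
      t * t * ((if wE E n = k ∧ n ≡ c [ZMOD M0] then F n else 0) * (if wE E (n + h) = k' then
        conv β (gam (zz X) q0 w) (n + h) - conv β (flat (zz X) q0 w) (n + h) else 0)) := fun n => by
    split_ifs <;> ring
  simp only [e] at main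
  rw [← mul_sum, norm_mul, norm_mul, tn, ← mul_inv, inv_mul_le_iff₀ (by positivity)] at main
  refine main.trans (le_of_eq ?_)
  field_simp
  ring

end Pool.Agent.Work.MP_d018b2_nt.R
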