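import Pool.Agent.Work.MP_678620_nt.SPDefs
import Pool.Agent.Lib.LargeSieve.Additive

-- merged part: Pool.Agent.Work.MP_d018b2_nt.R.SPDefs
section
/-! Sparse two-point correlations: definitions. -/

set_option autoImplicit false
open Finset Pool.Agent.Lib.LargeSieve

namespace Pool.Agent.Work.MP_d018b2_nt.R

open Pool.Agent.Work.MP_678620_nt

noncomputable section

/-- The data of the dilation argument. The coordinates in `E` are primes; the others are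
passive. -/
structure Sys (ι : Type) [Fintype ι] [DecidableEq ι] where
  m : ι → ℕ
  E : Finset ι
  DD : Finset (Finset ι)
  lab : ι → ℕ
  s : ℕ
  k : ℕ
  k' : ℕ
  T : ℕ
  Q : ℕ
  h : ℤ
  H0 : ℝ
  H1 : ℝ
  Λ : ℝ
  m_pos : ∀ i, 0 < m i
  cop : ∀ i j, i ≠ j → Nat.Coprime (m i) (m j)
  prime : ∀ p ∈ E, (m p).Prime
  lo : ∀ p ∈ E, H0 ≤ m p
  hi : ∀ p ∈ E, (m p : ℝ) ≤ H1
  DD_sub : ∀ d ∈ DD, d ⊆ E
  DD_card : ∀ d ∈ DD, d.card = s
  DD_lo : ∀ d ∈ DD, T ≤ ∏ i ∈ d, m i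
  DD_hi : ∀ d ∈ DD, ∏ i ∈ d, m i ≤ 2 * T
  lab_DD : ∀ (e : Finset ι), ∀ p ∈ E, ∀ p' ∈ E, p ∉ e → p' ∉ e → lab p = lab p' →
    insert p e ∈ DD → insert p' e ∈ DD
  lab_close : ∀ p ∈ E, ∀ p' ∈ E, lab p = lab p' → m p ≤ 2 * m p'
  h_ne : h ≠ 0
  T_pos : 1 ≤ T
  Q_ge : 2 ≤ Q
  k_ge : 1 ≤ k
  s_ge : 2 ≤ s
  k2_le : 2 * k ≤ s
  DD_hi' : ∀ d ∈ DD, 2 * ∏ i ∈ d, m i ≤ 3 * T
  k_le : k ≤ s
  k'_ge : 1 ≤ k'
  k'_le : k' ≤ s
  big : 100 ≤ Λ
  eL : Real.exp (∑ p ∈ E, (m p : ℝ)⁻¹) ≤ Λ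
  s_le : (s : ℝ) ≤ Λ
  lab_le : ((E.image lab).card : ℝ) ≤ Λ
  logT : 1 + Real.log (4 * T) ≤ Λ
  logH : 2 + Real.log H1 ≤ Λ
  h_le : |(h : ℝ)| ≤ Λ
  H0_ge : (((s + k).choose k : ℝ) * ((s + k').choose k' : ℝ) * Q * Λ) ^ 20 ≤ H0
  H01 : H0 ≤ H1

namespace Sys

variable {ι : Type} [Fintype ι] [DecidableEq ι] (S : Sys ι)

instance (i : ι) : NeZero (S.m i) := ⟨(S.m_pos i).ne'⟩

/-- The model group. -/
abbrev G : Type := ∀ i, ZMod (S.m i)

/-- The product of the moduli in `d`. -/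
def pr (d : Finset ι) : ℕ := ∏ i ∈ d, S.m i

/-- Reciprocal of a modulus. -/
def nu (i : ι) : ℝ := (S.m i : ℝ)⁻¹

/-- Reciprocal of `pr d`. -/
def iv (d : Finset ι) : ℝ := (S.pr d : ℝ)⁻¹

def L : ℝ := ∑ p ∈ S.E, S.nu p

/-- Elementary symmetric sums of the reciprocals. -/
def es (j : ℕ) : ℝ := esym S.E S.nu j

def D : ℕ := (S.s + S.k).choose S.k

def D' : ℕ := (S.s + S.k').choose S.k'

/-- Range of the jumps. -/
def R : ℕ := 2 * S.T * S.h.natAbs

/-- The zero set. -/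
def Zs (ξ : S.G) : Finset ι := S.E.filter fun p => ξ p = 0

/-- Set the coordinates in `d` to zero. -/
def rs (d : Finset ι) (ξ : S.G) : S.G := fun i => if i ∈ d then 0 else ξ i

/-- The points without zero coordinate in `E`. -/
def Gx : Finset S.G := univ.filter fun ξ => ∀ p ∈ S.E, ξ p ≠ 0

def good (Z : Finset ι) : Prop := ∀ p ∈ S.E, ∀ c : ZMod (S.m p),
  (S.DD.filter fun d => d ⊆ Z.erase p ∧ (S.pr d : ZMod (S.m p)) = c).card ≤ 2

instance (Z : Finset ι) : Decidable (S.good Z) := Classical.propDecidable _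

/-- The good vertices. -/
def Cg (ξ : S.G) : Prop := (S.Zs ξ).card = S.s + S.k' ∧ S.good (S.Zs ξ)

instance (ξ : S.G) : Decidable (S.Cg ξ) := Classical.propDecidable _

/-- Supported on the good vertices. -/
def Supp (f : S.G → ℂ) : Prop := ∀ ξ, f ξ ≠ 0 → S.Cg ξ

/-- Law of the zero set. -/
def Pz (z : Finset ι) : ℝ := (∏ p ∈ z, S.nu p) * ∏ p ∈ S.E \ z, (1 - S.nu p)

def piC (j : ℕ) : ℝ := ∑ z ∈ S.E.powersetCard j, S.Pz z

def vp : ℝ := ∏ p ∈ S.E, (1 - S.nu p)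

def nn (f : S.G → ℂ) : ℝ := ∑ ξ, ‖f ξ‖ ^ 2

def ip (g f : S.G → ℂ) : ℂ := ∑ ξ, (starRingEnd ℂ) (g ξ) * f ξ

/-- Average over the coordinates in `v`. -/
def av (v : Finset ι) (f : S.G → ℂ) (ξ : S.G) : ℂ :=
  (Fintype.card S.G : ℂ)⁻¹ * ∑ η : S.G, f (v.piecewise η ξ)

/-- Total influence. -/
def inf (f : S.G → ℂ) : ℝ := ∑ p ∈ S.E, S.nn fun ξ => f ξ - S.av {p} f ξ

def tn (M : ℝ) (f : S.G → ℂ) : ℝ := S.nn f + S.inf f / M

/-- Independent of the coordinates in `a`. -/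
def Indep {β : Type*} (a : Finset ι) (f : S.G → β) : Prop :=
  ∀ ξ η : S.G, (∀ i, i ∉ a → ξ i = η i) → f ξ = f η

/-- The jump attached to `d`. -/
def jp (d : Finset ι) : ℤ := (S.pr d : ℤ) * S.h

def Fd (d : Finset ι) (f : S.G → ℂ) (ξ : S.G) : ℂ := f (S.rs d ξ + (S.jp d : S.G))

def dev (Φ : S.G → ℂ) : ℝ :=
  S.vp⁻¹ * ∑ z ∈ S.E.powerset, S.Pz z * ∑ ξ ∈ S.Gx, ‖Φ (S.rs z ξ) - Φ ξ‖ ^ 2

def devB (Φ : S.G → ℂ) : ℝ := ∑ p ∈ S.E, S.nu p * S.nn fun ξ => Φ (S.rs {p} ξ) - Φ ξ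

def Err (f : S.G → ℂ) : ℝ := ∑ d ∈ S.DD, S.iv d * S.dev (S.Fd d f)

def AA (r : ℕ) : Finset (Finset ι) := S.E.powersetCard (S.s - r)

def VV (r : ℕ) (a : Finset ι) : Finset (Finset ι) :=
  ((S.E \ a).powersetCard r).filter fun v => a ∪ v ∈ S.DD

def Wa (r : ℕ) (a : Finset ι) (f : S.G → ℂ) (ξ : S.G) : ℂ :=
  ∑ v ∈ S.VV r a, (S.iv v : ℂ) * S.Fd (a ∪ v) f ξ

def Hk (a : Finset ι) : ℕ := S.T / (S.pr a * S.Q ^ 2)

/-- Farey fractions in `[0, 1)`. -/
def FF : Finset ℚ :=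
  ((Icc 1 S.Q ×ˢ range S.Q).filter fun x => x.2 < x.1).image fun x => (x.2 : ℚ) / x.1

def JJ (a : Finset ι) : Finset ℤ := Ioo (-(S.Hk a : ℤ)) (S.Hk a)

def kap (a : Finset ι) (j : ℤ) : ℂ :=
  ∑ θ ∈ S.FF, ee (θ * j) * (((((S.Hk a : ℝ) - |(j : ℝ)|) / (S.Hk a : ℝ) ^ 2 : ℝ)) : ℂ)

def Ka (a : Finset ι) (w : S.G → ℂ) (ξ : S.G) : ℂ :=
  ∑ j ∈ S.JJ a, S.kap a j * w (ξ + ((S.jp a * j : ℤ) : S.G))

/-- The part of the two-step form with `|d \ d'| = r`. -/
def TT (r : ℕ) (g f : S.G → ℂ) : ℂ :=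
  ∑ x : S.G, ∑ d ∈ S.DD, ∑ d' ∈ S.DD,
    if (S.Zs x).card = S.s + S.k ∧ d ⊆ S.Zs x ∧ d' ⊆ S.Zs x ∧ (d \ d').card = r then
      (starRingEnd ℂ) (g (x + (S.jp d : S.G))) * f (x + (S.jp d' : S.G)) else 0

/-- One term of the structured form. -/
def St (a v v' : Finset ι) (g f : S.G → ℂ) : ℂ :=
  ∑ j ∈ S.JJ a, S.kap a j * ∑ x : S.G,
    if a ∪ v ⊆ S.Zs x ∧ a ∪ v' ⊆ S.Zs (x + ((S.jp a * j : ℤ) : S.G)) then
      (starRingEnd ℂ) (g (x + (S.jp (a ∪ v) : S.G))) *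
        f (x + ((S.jp a * j : ℤ) : S.G) + (S.jp (a ∪ v') : S.G)) else 0

/-- The structured form. -/
def SS (r : ℕ) (g f : S.G → ℂ) : ℂ :=
  ∑ a ∈ S.AA r, ∑ v ∈ S.VV r a, ∑ v' ∈ S.VV r a, if Disjoint v v' then S.St a v v' g f else 0

/-- The overlapping terms left out of the structured form. -/
def OV (r : ℕ) (g f : S.G → ℂ) : ℂ :=
  ∑ a ∈ S.AA r, ∑ v ∈ S.VV r a, ∑ v' ∈ S.VV r a, if Disjoint v v' then 0 else S.St a v v' g f

/-- The decoupled model of `TT`. -/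
def MD (r : ℕ) (g f : S.G → ℂ) : ℂ :=
  ∑ z ∈ S.E.powersetCard (S.s + S.k), (S.Pz z : ℂ) * ∑ d ∈ S.DD, ∑ d' ∈ S.DD,
    if d ⊆ z ∧ d' ⊆ z ∧ (d \ d').card = r then S.ip (S.Fd d g) (S.Fd d' f) else 0

def MW (r : ℕ) (g f : S.G → ℂ) : ℂ :=
  ∑ a ∈ S.AA r, (S.iv a : ℂ) * S.ip (S.Wa r a g) (S.Wa r a f)

def MK (r : ℕ) (g f : S.G → ℂ) : ℂ :=
  ∑ a ∈ S.AA r, (S.iv a : ℂ) * S.ip (S.Wa r a g) (S.Ka a (S.Wa r a f))

def KT (r : ℕ) (ξ : S.G) (e : ℤ) : ℂ :=
  ∑ d ∈ S.DD, ∑ d' ∈ S.DD,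
    if e = S.jp d' - S.jp d ∧ (d \ d').card = r ∧ (S.Zs (ξ - (S.jp d : S.G))).card = S.s + S.k ∧
      d ⊆ S.Zs (ξ - (S.jp d : S.G)) ∧ d' ⊆ S.Zs (ξ - (S.jp d : S.G)) then 1 else 0

def KS (r : ℕ) (ξ : S.G) (e : ℤ) : ℂ :=
  ∑ a ∈ S.AA r, ∑ v ∈ S.VV r a, ∑ v' ∈ S.VV r a, ∑ j ∈ S.JJ a,
    if Disjoint v v' ∧ e = S.jp a * j + S.jp (a ∪ v') - S.jp (a ∪ v) ∧ a ∪ v ⊆ S.Zs ξ ∧
      a ∪ v' ⊆ S.Zs (ξ + (e : S.G)) then S.kap a j else 0

/-- The kernel of the operator `X`. -/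
def Kk (ξ : S.G) (e : ℤ) : ℂ :=
  if S.Cg ξ ∧ S.Cg (ξ + (e : S.G)) then
    ∑ r ∈ Icc S.k S.k, (S.KT r ξ e - (S.piC (S.k - r) : ℂ) * S.KS r ξ e) else 0

def Xop (K : S.G → ℤ → ℂ) (f : S.G → ℂ) (ξ : S.G) : ℂ :=
  ∑ e ∈ Icc (-(S.R : ℤ)) S.R, K ξ e * f (ξ + (e : S.G))

def Kpow (K : S.G → ℤ → ℂ) : ℕ → S.G → ℤ → ℂ
  | 0, _, j => if j = 0 then 1 else 0
  | n + 1, ξ, j => ∑ e ∈ Icc (-(S.R : ℤ)) S.R, K ξ e * Kpow K n (ξ + (e : S.G)) (j - e)

def Psi (K : S.G → ℤ → ℂ) (n : ℕ) (ξ : S.G) : ℝ :=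
  ∑ j ∈ Icc (-((n * S.R : ℕ) : ℤ)) (n * S.R : ℕ), ‖S.Kpow K n ξ j‖ ^ 2

/-! Fourier analysis -/

def fh (f : S.G → ℂ) (ψ : AddChar S.G ℂ) : ℂ := ∑ ξ, f ξ * (starRingEnd ℂ) (ψ ξ)

open Classical in
def supp (ψ : AddChar S.G ℂ) : Finset ι :=
  S.E.filter fun p => ∃ x : ZMod (S.m p), ψ (Pi.single p x) ≠ 1

def al (ψ : AddChar S.G ℂ) : ℝ := Complex.arg (ψ 1) / (2 * Real.pi)

open Classical in
def proj (A : AddChar S.G ℂ → Prop) (f : S.G → ℂ) (ξ : S.G) : ℂ :=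
  (Fintype.card S.G : ℂ)⁻¹ * ∑ ψ : AddChar S.G ℂ, if A ψ then S.fh f ψ * ψ ξ else 0

/-- `α` is on a minor arc at the scale of `c`. -/
def Minor (c : Finset ι) (α : ℝ) : Prop :=
  ∀ q : ℕ, 1 ≤ q → q ≤ S.Q → (S.Q : ℝ) * S.pr c / S.T < dZ (α * S.jp c * q)

def Pa (a : Finset ι) (f : S.G → ℂ) : S.G → ℂ := S.proj (fun ψ => S.Minor a (S.al ψ)) f

def N2 (r : ℕ) (f : S.G → ℂ) : ℝ := ∑ a ∈ S.AA r, S.iv a * S.nn (S.Pa a (S.Wa r a f))

/-- The dual function. -/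
def YY (r : ℕ) (u : Finset ι → S.G → ℂ) (y : S.G) : ℂ :=
  ∑ a ∈ S.AA r, ∑ v ∈ S.VV r a,
    if a ∪ v ⊆ S.Zs y then S.av v (u a) (y - (S.jp (a ∪ v) : S.G)) else 0

/-- The dual function with a frozen zero set. -/
def YZ (r : ℕ) (u : Finset ι → S.G → ℂ) (z : Finset ι) (ξ : S.G) : ℂ :=
  ∑ a ∈ S.AA r, ∑ v ∈ S.VV r a,
    if a ∪ v ⊆ z then S.av v (u a) (ξ - (S.jp (a ∪ v) : S.G)) else 0

def Qf (y : Finset ι → ℂ) : ℝ :=
  ∑ z ∈ S.E.powersetCard (S.s + S.k'), S.Pz z * ‖∑ d ∈ S.DD, if d ⊆ z then y d else 0‖ ^ 2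

def ny (y : Finset ι → ℂ) : ℝ := ∑ d ∈ S.DD, S.iv d * ‖y d‖ ^ 2

def nB (y : Finset ι → ℂ) : ℝ :=
  ∑ e ∈ S.E.powersetCard (S.s - 1), S.iv e *
    ‖∑ p ∈ S.E \ e, if insert p e ∈ S.DD then (S.nu p : ℂ) * y (insert p e) else 0‖ ^ 2

/-- The coefficients at one frequency: `w a` are the Fourier coefficients, `B` the support of the
character. -/
def yd (r : ℕ) (w : Finset ι → ℂ) (B : Finset ι) (α : ℝ) (d : Finset ι) : ℂ :=
  (∑ a ∈ d.powersetCard (S.s - r), if Disjoint (d \ a) B then w a else 0) * ee (-(α * S.jp d))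

/-! Boxes -/

/-- Indicator of a product set: free on at most `K1` primes, missing at most `K2` classes at the
other primes, and unrestricted at the passive coordinates outside `F`. -/
def IsBox (F : Finset ι) (K1 K2 : ℕ) (φ : S.G → ℂ) : Prop :=
  ∃ (A : ∀ i, Finset (ZMod (S.m i))) (U : Finset ι), U ⊆ S.E ∧ U.card ≤ K1 ∧
    (∀ i ∈ S.E, i ∉ U → (A i)ᶜ.card ≤ K2) ∧ (∀ i, i ∉ S.E → i ∉ F → A i = univ) ∧
    ∀ ξ, φ ξ = if ∀ i, ξ i ∈ A i then 1 else 0

/-- Combinations of boxes with total mass at most `B`. -/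
inductive Rep (F : Finset ι) (K1 K2 : ℕ) : ℝ → (S.G → ℂ) → Prop
  | box (c : ℂ) (φ : S.G → ℂ) : S.IsBox F K1 K2 φ → Rep F K1 K2 ‖c‖ fun ξ => c * φ ξ
  | zero : Rep F K1 K2 0 fun _ => 0
  | add {B B' : ℝ} {φ φ' : S.G → ℂ} : Rep F K1 K2 B φ → Rep F K1 K2 B' φ' →
      Rep F K1 K2 (B + B') fun ξ => φ ξ + φ' ξ
  | mono {B B' : ℝ} {φ : S.G → ℂ} : Rep F K1 K2 B φ → B ≤ B' → Rep F K1 K2 B' φ

/-- The operator with multiplier `2 ^ |supp ψ|`. -/
def Tn (f : S.G → ℂ) (ξ : S.G) : ℂ :=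
  ∑ z ∈ S.E.powerset, (-1) ^ z.card * 2 ^ (S.E \ z).card * S.av z f ξ

/-! The integer side -/

def Zi (y : ℤ) : Finset ι := S.Zs (y : S.G)

/-- Extension by zero of a function on the integers of `Ioc lo hi`. -/
def ext (lo hi : ℤ) (u : ℤ → ℂ) (ξ : S.G) : ℂ :=
  ∑ y ∈ Ioc lo hi, if (y : S.G) = ξ then u y else 0

/-- The test function. -/
def Gt (g : ℤ → ℂ) (y : ℤ) : ℂ := if S.Cg (y : S.G) then g y else 0

def GX (N : ℕ) (g : ℤ → ℂ) : S.G → ℂ :=
  S.ext ((S.T * N : ℕ) - S.R) ((2 * S.T * N : ℕ) + S.R) (S.Gt g)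

/-- Number of exceptional pairs of `d` and `n`. -/
def Ex (N : ℕ) : ℕ := ∑ d ∈ S.DD, ((Icc (1 : ℤ) (3 * N)).filter fun n =>
  (∃ p ∈ d, (S.m p : ℤ) ∣ n) ∨
    ((S.Zi (S.pr d * n)).card = S.s + S.k' ∧ ¬ S.good (S.Zi (S.pr d * n)))).card

def Ps (r : ℕ) (a : Finset ι) (g : S.G → ℂ) (x : S.G) : ℂ :=
  ∑ v ∈ S.VV r a, if v ⊆ S.Zs x then g (x + (S.jp (a ∪ v) : S.G)) else 0

/-- The constant of the core lemma. -/
def rho : ℝ := S.Λ ^ 10 * S.D * S.D' * (1 / √S.D' + 1 / √S.Q)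

/-- The correlation to be bounded. -/
def S0 (N : ℕ) (F0 g : ℤ → ℂ) : ℂ :=
  ∑ n ∈ Ioc (N : ℤ) (2 * N), (if (S.Zi n).card = S.k then F0 n else 0) *
    (if (S.Zi (n + S.h)).card = S.k' then g (n + S.h) else 0)

/-- The positive form. -/
def Pos (r : ℕ) (g : S.G → ℂ) : ℝ :=
  ∑ a ∈ S.AA r, ∑ θ ∈ S.FF, ∑ x : S.G, if a ⊆ S.Zs x then
    ‖((S.Hk a : ℂ))⁻¹ * ∑ i ∈ range (S.Hk a),
      S.Ps r a g (x + ((S.jp a * i : ℤ) : S.G)) * ee (θ * i)‖ ^ 2 else 0

end Sys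

end

end Pool.Agent.Work.MP_d018b2_nt.R
end

-- merged part: Pool.Agent.Work.MP_d018b2_nt.R.SPBasic
section
/-! Basic inequalities and facts about a system. -/

set_option autoImplicit false
open Finset Pool.Agent.Lib.LargeSieve

namespace Pool.Agent.Work.MP_d018b2_nt.R

open Pool.Agent.Work.MP_678620_nt

lemma cs_conj {α : Type*} (s : Finset α) (a b : α → ℂ) :
    ‖∑ i ∈ s, (starRingEnd ℂ) (a i) * b i‖ ≤ √(∑ i ∈ s, ‖a i‖ ^ 2) * √(∑ i ∈ s, ‖b i‖ ^ 2) := by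
  refine (norm_sum_le _ _).trans ?_
  simp only [norm_mul, RCLike.norm_conj]
  exact Real.sum_mul_le_sqrt_mul_sqrt s _ _

lemma cs_sqrt {α : Type*} (s : Finset α) {w A B : α → ℝ} (hw : ∀ i ∈ s, 0 ≤ w i)
    (hA : ∀ i ∈ s, 0 ≤ A i) (hB : ∀ i ∈ s, 0 ≤ B i) :
    ∑ i ∈ s, w i * (√(A i) * √(B i)) ≤ √(∑ i ∈ s, w i * A i) * √(∑ i ∈ s, w i * B i) := by
  have h := Real.sum_mul_le_sqrt_mul_sqrt s (fun i => √(w i * A i)) fun i => √(w i * B i)
  have e1 : ∑ i ∈ s, √(w i * A i) ^ 2 = ∑ i ∈ s, w i * A i :=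
    sum_congr rfl fun i hi => Real.sq_sqrt (mul_nonneg (hw i hi) (hA i hi))
  have e2 : ∑ i ∈ s, √(w i * B i) ^ 2 = ∑ i ∈ s, w i * B i :=
    sum_congr rfl fun i hi => Real.sq_sqrt (mul_nonneg (hw i hi) (hB i hi))
  rw [e1, e2] at h
  refine le_of_eq_of_le (sum_congr rfl fun i hi => ?_) h
  rw [Real.sqrt_mul (hw i hi), Real.sqrt_mul (hw i hi), mul_mul_mul_comm,
    Real.mul_self_sqrt (hw i hi)]

lemma norm_sq_wsum {α : Type*} (s : Finset α) {w : α → ℝ} (hw : ∀ i ∈ s, 0 ≤ w i) (z : α → ℂ) :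
    ‖∑ i ∈ s, (w i : ℂ) * z i‖ ^ 2 ≤ (∑ i ∈ s, w i) * ∑ i ∈ s, w i * ‖z i‖ ^ 2 := by
  have h1 : ‖∑ i ∈ s, (w i : ℂ) * z i‖ ≤ ∑ i ∈ s, √(w i) * (√(w i) * ‖z i‖) := by
    refine (norm_sum_le _ _).trans (le_of_eq (sum_congr rfl fun i hi => ?_))
    rw [norm_mul, Complex.norm_real, Real.norm_of_nonneg (hw i hi), ← mul_assoc,
      Real.mul_self_sqrt (hw i hi)]
  have h2 := sum_mul_sq_le_sq_mul_sq s (fun i => √(w i)) fun i => √(w i) * ‖z i‖
  have e1 : ∑ i ∈ s, √(w i) ^ 2 = ∑ i ∈ s, w i :=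
    sum_congr rfl fun i hi => Real.sq_sqrt (hw i hi)
  have e2 : ∑ i ∈ s, (√(w i) * ‖z i‖) ^ 2 = ∑ i ∈ s, w i * ‖z i‖ ^ 2 :=
    sum_congr rfl fun i hi => by rw [mul_pow, Real.sq_sqrt (hw i hi)]
  rw [e1, e2] at h2
  exact (pow_le_pow_left₀ (norm_nonneg _) h1 2).trans h2

lemma norm_sq_sum_le {α : Type*} (s : Finset α) (z : α → ℂ) :
    ‖∑ i ∈ s, z i‖ ^ 2 ≤ s.card * ∑ i ∈ s, ‖z i‖ ^ 2 := by
  simpa using norm_sq_wsum s (w := fun _ => 1) (fun _ _ => zero_le_one) z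

lemma norm_add_sq_le (x y : ℂ) : ‖x + y‖ ^ 2 ≤ 2 * ‖x‖ ^ 2 + 2 * ‖y‖ ^ 2 := by
  have h := pow_le_pow_left₀ (norm_nonneg _) (norm_add_le x y) 2
  nlinarith only [h, sq_nonneg (‖x‖ - ‖y‖)]

/-- Schur test. -/
lemma schur_test {α β : Type*} (s : Finset α) (t : Finset β) {K : α → β → ℝ} {u : α → ℝ}
    {v : β → ℝ} {x : α → ℝ} {y : β → ℝ} {A B : ℝ} (hK : ∀ i ∈ s, ∀ j ∈ t, 0 ≤ K i j)
    (hu : ∀ i ∈ s, 0 ≤ u i) (hv : ∀ j ∈ t, 0 ≤ v j) (hA0 : 0 ≤ A) (hB0 : 0 ≤ B)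
    (hA : ∀ i ∈ s, ∑ j ∈ t, K i j ≤ A * u i) (hB : ∀ j ∈ t, ∑ i ∈ s, K i j ≤ B * v j) :
    ∑ i ∈ s, ∑ j ∈ t, K i j * (x i * y j)
      ≤ √A * √B * (√(∑ i ∈ s, u i * x i ^ 2) * √(∑ j ∈ t, v j * y j ^ 2)) := by
  have h := cs_sqrt (s ×ˢ t) (w := fun q => K q.1 q.2) (A := fun q => x q.1 ^ 2)
    (B := fun q => y q.2 ^ 2) (fun q hq => hK _ (mem_product.1 hq).1 _ (mem_product.1 hq).2)
    (fun q _ => sq_nonneg _) fun q _ => sq_nonneg _
  have h1 : ∑ q ∈ s ×ˢ t, K q.1 q.2 * x q.1 ^ 2 ≤ A * ∑ i ∈ s, u i * x i ^ 2 := by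
    rw [sum_product, mul_sum]
    refine sum_le_sum fun i hi => ?_
    simp only
    rw [← sum_mul, ← mul_assoc]
    exact mul_le_mul_of_nonneg_right (hA i hi) (sq_nonneg _)
  have h2 : ∑ q ∈ s ×ˢ t, K q.1 q.2 * y q.2 ^ 2 ≤ B * ∑ j ∈ t, v j * y j ^ 2 := by
    rw [sum_product_right, mul_sum]
    refine sum_le_sum fun j hj => ?_
    simp only
    rw [← sum_mul, ← mul_assoc]
    exact mul_le_mul_of_nonneg_right (hB j hj) (sq_nonneg _)
  have h3 : ∑ i ∈ s, ∑ j ∈ t, K i j * (x i * y j)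
      ≤ ∑ q ∈ s ×ˢ t, K q.1 q.2 * (√(x q.1 ^ 2) * √(y q.2 ^ 2)) := by
    rw [sum_product]
    refine sum_le_sum fun i hi => sum_le_sum fun j hj => ?_
    refine mul_le_mul_of_nonneg_left ?_ (hK i hi j hj)
    rw [Real.sqrt_sq_eq_abs, Real.sqrt_sq_eq_abs, ← abs_mul]
    exact le_abs_self _
  refine h3.trans (h.trans ?_)
  rw [mul_mul_mul_comm, ← Real.sqrt_mul hA0, ← Real.sqrt_mul hB0]
  exact mul_le_mul (Real.sqrt_le_sqrt h1) (Real.sqrt_le_sqrt h2) (Real.sqrt_nonneg _)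
    (Real.sqrt_nonneg _)

lemma choose_le_choose_add {s r k : ℕ} (h : r ≤ k) : s.choose r ≤ (s + k).choose k := by
  rw [Nat.add_choose_eq]
  have hm : (r, k - r) ∈ HasAntidiagonal.antidiagonal k := by
    rw [HasAntidiagonal.mem_antidiagonal]; omega
  refine le_trans ?_ (single_le_sum (f := fun ij : ℕ × ℕ => s.choose ij.1 * k.choose ij.2)
    (fun _ _ => Nat.zero_le _) hm)
  exact Nat.le_mul_of_pos_right _ (Nat.choose_pos (Nat.sub_le _ _))

namespace Sys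

variable {ι : Type} [Fintype ι] [DecidableEq ι] (S : Sys ι)

lemma pr_pos (d : Finset ι) : 0 < S.pr d := by
  exact prod_pos fun i _ => S.m_pos i

lemma pr_union {a v : Finset ι} (h : Disjoint a v) : S.pr (a ∪ v) = S.pr a * S.pr v := by
  exact prod_union h

lemma pr_insert {p : ι} {e : Finset ι} (h : p ∉ e) : S.pr (insert p e) = S.m p * S.pr e := by
  exact prod_insert h

lemma jp_union {a v : Finset ι} (h : Disjoint a v) : S.jp (a ∪ v) = S.jp a * S.pr v := by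
  simp only [jp, S.pr_union h]
  push_cast
  ring

lemma nu_pos (i : ι) : 0 < S.nu i := by
  exact inv_pos.2 (Nat.cast_pos.2 (S.m_pos i))

lemma iv_pos (d : Finset ι) : 0 < S.iv d := by
  exact inv_pos.2 (Nat.cast_pos.2 (S.pr_pos d))

lemma iv_eq (d : Finset ι) : S.iv d = ∏ i ∈ d, S.nu i := by
  simp only [iv, pr, nu, Nat.cast_prod, prod_inv_distrib]

lemma iv_union {a v : Finset ι} (h : Disjoint a v) : S.iv (a ∪ v) = S.iv a * S.iv v := by
  rw [iv_eq, iv_eq, iv_eq, prod_union h]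

lemma iv_insert {p : ι} {e : Finset ι} (h : p ∉ e) : S.iv (insert p e) = S.nu p * S.iv e := by
  rw [iv_eq, iv_eq, prod_insert h]

lemma one_le_D : 1 ≤ S.D := by
  exact Nat.choose_pos (Nat.le_add_left _ _)

lemma one_le_D' : 1 ≤ S.D' := by
  exact Nat.choose_pos (Nat.le_add_left _ _)

lemma H0_ge' : ((S.D : ℝ) * S.D' * S.Q * S.Λ) ^ 20 ≤ S.H0 := S.H0_ge

/-- Any monomial of degree at most 20 in each variable is below `H0`. -/
lemma mono_le_H0 {a b c d : ℕ} (ha : a ≤ 20) (hb : b ≤ 20) (hc : c ≤ 20) (hd : d ≤ 20) :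
    (S.D : ℝ) ^ a * (S.D' : ℝ) ^ b * (S.Q : ℝ) ^ c * S.Λ ^ d ≤ S.H0 := by
  refine le_trans ?_ S.H0_ge'
  have h1 : (1 : ℝ) ≤ S.D := by exact_mod_cast S.one_le_D
  have h2 : (1 : ℝ) ≤ S.D' := by exact_mod_cast S.one_le_D'
  have h3 : (1 : ℝ) ≤ S.Q := by exact_mod_cast (le_trans one_le_two S.Q_ge)
  have h4 : (1 : ℝ) ≤ S.Λ := le_trans (by norm_num) S.big
  rw [mul_pow, mul_pow, mul_pow]
  have k1 := pow_le_pow_right₀ h1 ha
  have k2 := pow_le_pow_right₀ h2 hb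
  have k3 := pow_le_pow_right₀ h3 hc
  have k4 := pow_le_pow_right₀ h4 hd
  gcongr

lemma Λ_pow_le : S.Λ ^ 20 ≤ S.H0 := by
  simpa using S.mono_le_H0 (a := 0) (b := 0) (c := 0) (d := 20) (by norm_num) (by norm_num)
    (by norm_num) le_rfl

lemma H0_big : (10 : ℝ) ^ 40 ≤ S.H0 := by
  refine le_trans ?_ S.Λ_pow_le
  have := pow_le_pow_left₀ (by norm_num) S.big 20
  refine le_trans (by norm_num) this

lemma nu_le {p : ι} (hp : p ∈ S.E) : S.nu p ≤ S.H0⁻¹ := by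
  exact inv_anti₀ (lt_of_lt_of_le (by norm_num) S.H0_big) (S.lo p hp)

lemma L_nonneg : 0 ≤ S.L := by
  exact sum_nonneg fun i _ => (S.nu_pos i).le

lemma exp_L : Real.exp S.L ≤ S.Λ := S.eL

lemma L_le : S.L ≤ S.Λ := by
  linarith [S.exp_L, Real.add_one_le_exp S.L]

lemma k_le_Λ : (S.k : ℝ) ≤ S.Λ := by
  exact le_trans (by exact_mod_cast S.k_le) S.s_le

lemma k'_le_Λ : (S.k' : ℝ) ≤ S.Λ := by
  exact le_trans (by exact_mod_cast S.k'_le) S.s_le

lemma choose_le_D {r : ℕ} (h : r ≤ S.k) : S.s.choose r ≤ S.D := choose_le_choose_add h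

lemma choose_le_D' {r : ℕ} (h : r ≤ S.k') : S.s.choose r ≤ S.D' := choose_le_choose_add h

lemma SPBasic_nu_half {p : ι} (hp : p ∈ S.E) : S.nu p ≤ 1 / 2 := by
  refine (S.nu_le hp).trans ?_
  rw [one_div]
  exact inv_anti₀ (by norm_num) (le_trans (by norm_num) S.H0_big)

lemma vp_pos : 0 < S.vp := by
  exact prod_pos fun p hp => by linarith [S.SPBasic_nu_half hp]

lemma vp_le_one : S.vp ≤ 1 := by
  exact prod_le_one (fun p hp => by linarith only [S.SPBasic_nu_half hp])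
    fun p _ => by linarith [S.nu_pos p]

lemma vp_inv_le : S.vp⁻¹ ≤ S.Λ ^ 2 := by
  have h1 : S.vp⁻¹ ≤ Real.exp S.L ^ 2 := by
    rw [vp, ← prod_inv_distrib, L, Real.exp_sum, ← prod_pow]
    refine prod_le_prod (fun p hp => inv_nonneg.2 (by linarith only [S.SPBasic_nu_half hp]))
      fun p hp => ?_
    have a1 := S.SPBasic_nu_half hp
    have a2 := S.nu_pos p
    have a3 := Real.add_one_le_exp (S.nu p)
    have a4 : (S.nu p + 1) ^ 2 ≤ Real.exp (S.nu p) ^ 2 := pow_le_pow_left₀ (by linarith) a3 2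
    refine le_trans ?_ a4
    rw [inv_le_iff_one_le_mul₀ (by linarith)]
    nlinarith only [a2, a1, mul_nonneg a2.le (sub_nonneg.2 a1), mul_nonneg a2.le (mul_nonneg a2.le (sub_nonneg.2 a1))]
  exact h1.trans (pow_le_pow_left₀ (Real.exp_pos _).le S.exp_L 2)

lemma es_nonneg (j : ℕ) : 0 ≤ S.es j := by
  exact esym_nonneg (fun i _ => (S.nu_pos i).le) j

lemma es_eq (j : ℕ) : S.es j = ∑ v ∈ S.E.powersetCard j, S.iv v := by
  simp only [es, esym, iv_eq]

lemma sum_iv_le {B : Finset ι} (hB : B ⊆ S.E) (j : ℕ) :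
    ∑ v ∈ B.powersetCard j, S.iv v ≤ S.Λ := by
  have h := (esym_mono hB (fun i _ => (S.nu_pos i).le) j).trans
    (esym_le_exp (fun i _ => (S.nu_pos i).le) j)
  simp only [iv_eq]
  exact h.trans S.exp_L

lemma sum_iv_mem_le {B : Finset ι} (hB : B ⊆ S.E) (j : ℕ) (p : ι) :
    ∑ v ∈ (B.powersetCard j).filter (fun v => p ∈ v), S.iv v ≤ S.Λ / S.H0 := by
  have hH : 0 < S.H0 := lt_of_lt_of_le (by norm_num) S.H0_big
  have h1 : ∑ v ∈ (B.powersetCard j).filter (fun v => p ∈ v), S.iv v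
      ≤ ∑ v ∈ (B.powersetCard j).filter (fun v => p ∈ v), S.H0⁻¹ * S.iv (v.erase p) := by
    refine sum_le_sum fun v hv => ?_
    obtain ⟨h2, h3⟩ := mem_filter.1 hv
    have := S.iv_insert (notMem_erase p v)
    rw [insert_erase h3] at this
    rw [this]
    exact mul_le_mul_of_nonneg_right (S.nu_le (hB ((mem_powersetCard.1 h2).1 h3))) (S.iv_pos _).le
  refine h1.trans ?_
  rw [← mul_sum, div_eq_inv_mul]
  refine mul_le_mul_of_nonneg_left (le_trans ?_ (S.sum_iv_le hB (j - 1))) (inv_pos.2 hH).le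
  rw [← sum_image (s := (B.powersetCard j).filter fun v => p ∈ v) (g := fun v => v.erase p)
    (f := S.iv) fun v hv v' hv' e => by
      rw [← insert_erase (mem_filter.1 hv).2, ← insert_erase (mem_filter.1 hv').2]
      exact congrArg _ e]
  refine sum_le_sum_of_subset_of_nonneg (fun w hw => ?_) fun w _ _ => (S.iv_pos w).le
  obtain ⟨v, hv, rfl⟩ := mem_image.1 hw
  obtain ⟨h2, h3⟩ := mem_filter.1 hv
  obtain ⟨h4, h5⟩ := mem_powersetCard.1 h2
  exact mem_powersetCard.2 ⟨(erase_subset _ _).trans h4, by rw [card_erase_of_mem h3, h5]⟩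

lemma m_inj {p q : ι} (hp : p ∈ S.E) (h : S.m p = S.m q) : p = q := by
  by_contra hne
  have := S.cop p q hne
  rw [← h, Nat.coprime_self] at this
  exact (S.prime p hp).ne_one this

lemma m_dvd_pr {p : ι} (hp : p ∈ S.E) {d : Finset ι} : S.m p ∣ S.pr d ↔ p ∈ d := by
  refine ⟨fun h => ?_, fun h => dvd_prod_of_mem _ h⟩
  obtain ⟨i, hi, h2⟩ := (Prime.dvd_finsetProd_iff (S.prime p hp).prime _).1 h
  by_cases e : p = i
  · exact e ▸ hi
  · exact absurd ((S.cop p i e).eq_one_of_dvd h2) (S.prime p hp).ne_one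

lemma pr_inj {a b : Finset ι} (ha : a ⊆ S.E) (hb : b ⊆ S.E) (h : S.pr a = S.pr b) : a = b := by
  ext p
  constructor
  · intro hp
    rw [← S.m_dvd_pr (ha hp), ← h, S.m_dvd_pr (ha hp)]
    exact hp
  · intro hp
    rw [← S.m_dvd_pr (hb hp), h, S.m_dvd_pr (hb hp)]
    exact hp

lemma not_dvd_h {p : ι} (hp : p ∈ S.E) : ¬ (S.m p : ℤ) ∣ S.h := by
  intro h
  have h1 : (S.m p : ℤ) ≤ |S.h| := Int.le_of_dvd (abs_pos.2 S.h_ne) ((dvd_abs _ _).2 h)
  have h2 : (S.m p : ℝ) ≤ |(S.h : ℝ)| := by exact_mod_cast h1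
  have h3 := S.lo p hp
  have h4 := S.h_le
  have h5 := S.Λ_pow_le
  have h6 := S.big
  have h7 : S.Λ ^ 2 ≤ S.Λ ^ 20 := pow_le_pow_right₀ (by linarith) (by norm_num)
  nlinarith only [h3, h4, h5, h6, h7, h2]

lemma coprime_pr_h {v : Finset ι} (hv : v ⊆ S.E) : IsCoprime (S.pr v : ℤ) S.h := by
  rw [pr, Nat.cast_prod]
  refine IsCoprime.prod_left fun p hp => ?_
  exact ((Nat.prime_iff_prime_int.1 (S.prime p (hv hp))).irreducible.coprime_iff_not_dvd).2
    (S.not_dvd_h (hv hp))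

lemma coprime_pr {a v : Finset ι} (h : Disjoint a v) : Nat.Coprime (S.pr a) (S.pr v) := by
  refine Nat.Coprime.prod_left fun p hp => Nat.Coprime.prod_right fun q hq => S.cop p q ?_
  rintro rfl
  exact disjoint_left.1 h hp hq

lemma H0_pow_le_pr {v : Finset ι} (hv : v ⊆ S.E) : S.H0 ^ v.card ≤ S.pr v := by
  have hH : 0 < S.H0 := lt_of_lt_of_le (by norm_num) S.H0_big
  rw [pr, Nat.cast_prod, ← prod_const]
  exact prod_le_prod (fun _ _ => hH.le) fun p hp => S.lo p (hv hp)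

lemma pr_le_H1_pow {v : Finset ι} (hv : v ⊆ S.E) : (S.pr v : ℝ) ≤ S.H1 ^ v.card := by
  rw [pr, Nat.cast_prod, ← prod_const]
  exact prod_le_prod (fun _ _ => Nat.cast_nonneg _) fun p hp => S.hi p (hv hp)

lemma card_E_le : (S.E.card : ℝ) ≤ S.H1 := by
  have hH : 0 ≤ S.H1 := le_trans (le_trans (by norm_num) S.H0_big) S.H01
  have h : S.E.card ≤ (Icc 1 ⌊S.H1⌋₊).card :=
    card_le_card_of_injOn S.m
      (fun p hp => mem_coe.2 (mem_Icc.2 ⟨S.m_pos p, Nat.le_floor (S.hi p (mem_coe.1 hp))⟩))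
      fun p hp q _ e => S.m_inj (mem_coe.1 hp) e
  rw [Nat.card_Icc, Nat.add_sub_cancel] at h
  exact le_trans (by exact_mod_cast h) (Nat.floor_le hH)

lemma card_DD_sub {Z : Finset ι} {j : ℕ} (hZ : Z.card ≤ S.s + j) :
    (S.DD.filter fun d => d ⊆ Z).card ≤ (S.s + j).choose j := by
  have h : (S.DD.filter fun d => d ⊆ Z) ⊆ Z.powersetCard S.s := fun d hd =>
    mem_powersetCard.2 ⟨(mem_filter.1 hd).2, S.DD_card d (mem_filter.1 hd).1⟩
  refine (card_le_card h).trans ?_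
  rw [card_powersetCard, ← Nat.choose_symm_add]
  exact Nat.choose_le_choose _ hZ

lemma mem_VV {r : ℕ} {a v : Finset ι} :
    v ∈ S.VV r a ↔ v ⊆ S.E ∧ Disjoint a v ∧ v.card = r ∧ a ∪ v ∈ S.DD := by
  simp only [VV, mem_filter, mem_powersetCard, subset_sdiff]
  constructor
  · rintro ⟨⟨⟨h1, h2⟩, h3⟩, h4⟩
    exact ⟨h1, h2.symm, h3, h4⟩
  · rintro ⟨h1, h2, h3, h4⟩
    exact ⟨⟨⟨h1, h2.symm⟩, h3⟩, h4⟩

lemma mem_AA {r : ℕ} {a : Finset ι} : a ∈ S.AA r ↔ a ⊆ S.E ∧ a.card = S.s - r := by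
  exact mem_powersetCard

/-- Pairs of `a` and `v` are sets `d` with a chosen subset. -/
lemma sum_AV {β : Type*} [AddCommMonoid β] {r : ℕ} (hr : r ≤ S.s) (Φ : Finset ι → Finset ι → β) :
    ∑ a ∈ S.AA r, ∑ v ∈ S.VV r a, Φ a v
      = ∑ d ∈ S.DD, ∑ a ∈ d.powersetCard (S.s - r), Φ a (d \ a) := by
  rw [sum_sigma', sum_sigma']
  refine sum_bij' (fun x _ => ⟨x.1 ∪ x.2, x.1⟩) (fun x _ => ⟨x.2, x.1 \ x.2⟩) ?_ ?_ ?_ ?_ ?_
  · rintro ⟨a, v⟩ h
    obtain ⟨h1, h2⟩ := mem_sigma.1 h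
    exact mem_sigma.2 ⟨(S.mem_VV.1 h2).2.2.2,
      mem_powersetCard.2 ⟨subset_union_left, (S.mem_AA.1 h1).2⟩⟩
  · rintro ⟨d, a⟩ h
    obtain ⟨h1, h2⟩ := mem_sigma.1 h
    obtain ⟨h3, h4⟩ := mem_powersetCard.1 h2
    refine mem_sigma.2 ⟨S.mem_AA.2 ⟨h3.trans (S.DD_sub d h1), h4⟩,
      S.mem_VV.2 ⟨sdiff_subset.trans (S.DD_sub d h1), disjoint_sdiff, ?_, ?_⟩⟩
    · have h5 := S.DD_card d h1
      simp only at h3 h4 h5 ⊢
      rw [card_sdiff_of_subset h3]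
      omega
    · simp only at h1 h3 ⊢
      rwa [union_sdiff_of_subset h3]
  · rintro ⟨a, v⟩ h
    simp only [union_sdiff_cancel_left (S.mem_VV.1 (mem_sigma.1 h).2).2.1]
  · rintro ⟨d, a⟩ h
    simp only [union_sdiff_of_subset (mem_powersetCard.1 (mem_sigma.1 h).2).1]
  · rintro ⟨a, v⟩ h
    simp only [union_sdiff_cancel_left (S.mem_VV.1 (mem_sigma.1 h).2).2.1]

lemma sum_AV_le {r : ℕ} (hr : r ≤ S.k) {Φ : Finset ι → ℝ} (hΦ : ∀ d ∈ S.DD, 0 ≤ Φ d) :
    ∑ a ∈ S.AA r, ∑ v ∈ S.VV r a, Φ (a ∪ v) ≤ S.D * ∑ d ∈ S.DD, Φ d := by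
  have hr' : r ≤ S.s := hr.trans S.k_le
  rw [S.sum_AV hr' fun a v => Φ (a ∪ v), mul_sum]
  refine sum_le_sum fun d hd => ?_
  rw [sum_congr rfl (g := fun _ => Φ d) fun a ha => by
    rw [union_sdiff_of_subset (mem_powersetCard.1 ha).1], sum_const, card_powersetCard,
    S.DD_card d hd, Nat.choose_symm hr', nsmul_eq_mul]
  exact mul_le_mul_of_nonneg_right (by exact_mod_cast S.choose_le_D hr) (hΦ d hd)

lemma sum_iv_VV_le (r : ℕ) (a : Finset ι) : ∑ v ∈ S.VV r a, S.iv v ≤ S.Λ := by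
  exact (sum_le_sum_of_subset_of_nonneg (filter_subset _ _) fun v _ _ => (S.iv_pos v).le).trans
    (S.sum_iv_le sdiff_subset r)

lemma mem_Zs {ξ : S.G} {p : ι} : p ∈ S.Zs ξ ↔ p ∈ S.E ∧ ξ p = 0 := mem_filter

lemma Zs_sub (ξ : S.G) : S.Zs ξ ⊆ S.E := filter_subset _ _

lemma cast_apply (j : ℤ) (i : ι) : (j : S.G) i = (j : ZMod (S.m i)) := rfl

lemma jp_apply {d : Finset ι} {p : ι} (hp : p ∈ d) (j : ℤ) : ((S.jp d * j : ℤ) : S.G) p = 0 := by
  rw [cast_apply, ZMod.intCast_zmod_eq_zero_iff_dvd, jp]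
  exact ((Int.natCast_dvd_natCast.2 (dvd_prod_of_mem S.m hp)).mul_right _).mul_right _

lemma jp_apply' {d : Finset ι} {p : ι} (hp : p ∈ d) : (S.jp d : S.G) p = 0 := by
  simpa only [mul_one] using S.jp_apply hp 1

lemma sub_Zs_add {d : Finset ι} {c : S.G} (hc : ∀ p ∈ d, c p = 0) (ξ : S.G) :
    d ⊆ S.Zs (ξ + c) ↔ d ⊆ S.Zs ξ := by
  refine forall₂_congr fun p hp => ?_
  rw [mem_Zs, mem_Zs, Pi.add_apply, hc p hp, add_zero]

lemma mem_Zi {y : ℤ} {p : ι} : p ∈ S.Zi y ↔ p ∈ S.E ∧ (S.m p : ℤ) ∣ y := by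
  rw [Zi, mem_Zs, cast_apply, ZMod.intCast_zmod_eq_zero_iff_dvd]

lemma sub_Zi {y : ℤ} {d : Finset ι} (hd : d ⊆ S.E) : d ⊆ S.Zi y ↔ (S.pr d : ℤ) ∣ y := by
  constructor
  · intro h
    rw [pr, Nat.cast_prod]
    exact prod_dvd_of_coprime (fun p _ q _ e => Nat.isCoprime_iff_coprime.2 (S.cop p q e))
      fun p hp => (S.mem_Zi.1 (h hp)).2
  · intro h p hp
    exact S.mem_Zi.2 ⟨hd hp, (Int.natCast_dvd_natCast.2 (dvd_prod_of_mem S.m hp)).trans h⟩

lemma Zi_mul {d : Finset ι} (hd : d ⊆ S.E) (n : ℤ) : S.Zi (S.pr d * n) = d ∪ S.Zi n := by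
  ext p
  rw [mem_union, mem_Zi, mem_Zi]
  constructor
  · rintro ⟨h1, h2⟩
    rcases (Nat.prime_iff_prime_int.1 (S.prime p h1)).dvd_or_dvd h2 with k | k
    · exact Or.inl ((S.m_dvd_pr h1).1 (Int.natCast_dvd_natCast.1 k))
    · exact Or.inr ⟨h1, k⟩
  · rintro (k | k)
    · exact ⟨hd k, (Int.natCast_dvd_natCast.2 ((S.m_dvd_pr (hd k)).2 k)).mul_right _⟩
    · exact ⟨k.1, k.2.mul_left _⟩

lemma rs_eq (d : Finset ι) (ξ : S.G) : S.rs d ξ = d.piecewise 0 ξ := by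
  funext i
  simp only [rs, piecewise, Pi.zero_apply]

lemma nn_nonneg (f : S.G → ℂ) : 0 ≤ S.nn f := by
  exact sum_nonneg fun _ _ => sq_nonneg _

lemma inf_nonneg (f : S.G → ℂ) : 0 ≤ S.inf f := by
  exact sum_nonneg fun _ _ => S.nn_nonneg _

lemma nn_le_tn {M : ℝ} (hM : 0 < M) (f : S.G → ℂ) : S.nn f ≤ S.tn M f := by
  exact le_add_of_nonneg_right (div_nonneg (S.inf_nonneg f) hM.le)

lemma inf_le_tn {M : ℝ} (hM : 0 < M) (f : S.G → ℂ) : S.inf f ≤ M * S.tn M f := by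
  rw [tn, mul_add, mul_div_cancel₀ _ hM.ne']
  exact le_add_of_nonneg_left (mul_nonneg hM.le (S.nn_nonneg f))

lemma norm_ip_le (g f : S.G → ℂ) : ‖S.ip g f‖ ≤ √(S.nn g) * √(S.nn f) := by
  exact cs_conj univ g f

lemma ip_self (f : S.G → ℂ) : S.ip f f = (S.nn f : ℂ) := by
  simp only [ip, nn, Complex.ofReal_sum, Complex.conj_mul', Complex.ofReal_pow]

lemma sum_add_right {β : Type*} [AddCommMonoid β] (Φ : S.G → β) (c : S.G) :
    ∑ ξ, Φ (ξ + c) = ∑ ξ, Φ ξ := by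
  exact Equiv.sum_comp (Equiv.addRight c) Φ

lemma nn_tr (f : S.G → ℂ) (c : S.G) : S.nn (fun ξ => f (ξ + c)) = S.nn f := by
  exact S.sum_add_right (fun ξ => ‖f ξ‖ ^ 2) c

lemma cast_inj {i0 : ι} {y y' : ℤ} (h : |y - y'| < S.m i0) (he : (y : S.G) = y') : y = y' := by
  have h1 : (y : ZMod (S.m i0)) = y' := congrFun he i0
  have h2 := (ZMod.intCast_eq_intCast_iff_dvd_sub y' y _).1 h1.symm
  exact sub_eq_zero.1 (Int.eq_zero_of_abs_lt_dvd h2 h)

/-- Number of integers up to `Y` with a zero set of given size. -/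
lemma card_class_le (Y j : ℕ) :
    (((Icc (1 : ℤ) Y).filter fun y => (S.Zi y).card = j).card : ℝ) ≤ Y * S.es j := by
  have h1 : ((Icc (1 : ℤ) Y).filter fun y => (S.Zi y).card = j) ⊆
      (S.E.powersetCard j).biUnion fun Z => (Icc 1 (Y / S.pr Z)).image
        fun n : ℕ => ((S.pr Z * n : ℕ) : ℤ) := by
    intro y hy
    obtain ⟨h2, h3⟩ := mem_filter.1 hy
    obtain ⟨h4, h5⟩ := mem_Icc.1 h2
    have h6 : S.Zi y ⊆ S.E := S.Zs_sub _
    refine mem_biUnion.2 ⟨S.Zi y, mem_powersetCard.2 ⟨h6, h3⟩, ?_⟩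
    have h7 := (S.sub_Zi h6).1 (Subset.refl (S.Zi y))
    generalize S.Zi y = Z at h7
    obtain ⟨y, rfl⟩ := Int.eq_ofNat_of_zero_le (le_trans zero_le_one h4)
    obtain ⟨n, rfl⟩ := Int.natCast_dvd_natCast.1 h7
    refine mem_image.2 ⟨n, mem_Icc.2 ⟨?_, ?_⟩, rfl⟩
    · rcases Nat.eq_zero_or_pos n with rfl | hn
      · simp at h4
      · exact hn
    · rw [Nat.le_div_iff_mul_le (S.pr_pos Z), mul_comm]
      exact_mod_cast h5
  have h2 := (card_le_card h1).trans card_biUnion_le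
  refine le_trans (Nat.cast_le.2 h2) ?_
  rw [es_eq, mul_sum, Nat.cast_sum]
  refine sum_le_sum fun Z _ => ?_
  refine le_trans (Nat.cast_le.2 card_image_le) ?_
  rw [Nat.card_Icc, Nat.add_sub_cancel, iv, ← div_eq_mul_inv]
  exact Nat.cast_div_le

end Sys

end Pool.Agent.Work.MP_d018b2_nt.R
end

-- merged part: Pool.Agent.Work.MP_d018b2_nt.R.SPCoord
section
/-! Coordinates: resetting, the coupling and the law of the zero set. -/

set_option autoImplicit false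
open Finset Pool.Agent.Lib.LargeSieve

namespace Pool.Agent.Work.MP_d018b2_nt.R

open Pool.Agent.Work.MP_678620_nt

namespace Sys

variable {ι : Type} [Fintype ι] [DecidableEq ι] (S : Sys ι)

lemma coord_pw {β : Type*} [AddCommMonoid β] (d : Finset ι) (c : S.G)
    (B : ∀ i, Finset (ZMod (S.m i))) (Φ : S.G → β) :
    ∑ ξ ∈ Fintype.piFinset B, Φ (d.piecewise c ξ) = (∏ i ∈ d, (B i).card) •
      ∑ x ∈ Fintype.piFinset fun i => if i ∈ d then {c i} else B i, Φ x := by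
  rw [← sum_fiberwise_of_maps_to (g := fun ξ => d.piecewise c ξ)
    (t := Fintype.piFinset fun i => if i ∈ d then {c i} else B i), smul_sum]
  · refine sum_congr rfl fun x hx => ?_
    rw [Fintype.mem_piFinset] at hx
    rw [sum_congr rfl (g := fun _ => Φ x) fun ξ hξ => by rw [(mem_filter.1 hξ).2], sum_const]
    congr 1
    have : (Fintype.piFinset B).filter (fun ξ => d.piecewise c ξ = x) =
        Fintype.piFinset fun i => if i ∈ d then B i else {x i} := by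
      ext ξ
      simp only [mem_filter, Fintype.mem_piFinset]
      constructor
      · rintro ⟨h1, rfl⟩ i
        by_cases hi : i ∈ d
        · simp [hi, h1 i]
        · simp [hi]
      · intro h
        refine ⟨fun i => ?_, funext fun i => ?_⟩
        · have h1 := h i
          have h2 := hx i
          by_cases hi : i ∈ d
          · simpa [hi] using h1
          · simp only [hi, if_false, mem_singleton] at h1 h2
            rwa [h1]
        · have h1 := h i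
          have h2 := hx i
          by_cases hi : i ∈ d
          · simp only [hi, if_true, mem_singleton] at h2
            simp [hi, h2]
          · simp only [hi, if_false, mem_singleton] at h1
            simp [hi, h1]
    rw [this, Fintype.card_piFinset, ← prod_ite_mem_eq d]
    refine prod_congr rfl fun i _ => ?_
    split_ifs <;> simp
  · intro ξ hξ
    rw [Fintype.mem_piFinset] at hξ ⊢
    intro i
    by_cases hi : i ∈ d
    · simp [hi]
    · simp [hi, hξ i]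

lemma sum_piecewise {β : Type*} [AddCommMonoid β] (d : Finset ι) (c : S.G) (Φ : S.G → β) :
    ∑ ξ, Φ (d.piecewise c ξ) = S.pr d • ∑ ξ : S.G, if ∀ i ∈ d, ξ i = c i then Φ ξ else 0 := by
  have h := S.coord_pw d c (fun _ => univ) Φ
  rw [Fintype.piFinset_univ] at h
  rw [h, ← sum_filter]
  congr 1
  · simp [pr]
  · refine sum_congr ?_ fun _ _ => rfl
    ext ξ
    simp only [Fintype.mem_piFinset, mem_filter, mem_univ, true_and]
    refine forall_congr' fun i => ?_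
    by_cases hi : i ∈ d <;> simp [hi]

lemma sum_rs {β : Type*} [AddCommMonoid β] {d : Finset ι} (hd : d ⊆ S.E) (Φ : S.G → β) :
    ∑ ξ, Φ (S.rs d ξ) = S.pr d • ∑ ξ : S.G, if d ⊆ S.Zs ξ then Φ ξ else 0 := by
  simp only [rs_eq]
  rw [sum_piecewise]
  congr 1
  refine sum_congr rfl fun ξ _ => if_congr ?_ rfl rfl
  exact ⟨fun h i hi => S.mem_Zs.2 ⟨hd hi, h i hi⟩, fun h i hi => (S.mem_Zs.1 (h hi)).2⟩

lemma Zs_rs {z : Finset ι} (hz : z ⊆ S.E) {ξ : S.G} (hξ : ξ ∈ S.Gx) : S.Zs (S.rs z ξ) = z := by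
  ext p
  rw [mem_Zs]
  have h := (mem_filter.1 hξ).2
  by_cases hp : p ∈ z
  · simp [rs, hp, hz hp]
  · simp only [rs, hp, if_false, iff_false]
    exact fun h' => h p h'.1 h'.2

lemma coord_nu_le (i : ι) : S.nu i ≤ 1 :=
  inv_le_one_of_one_le₀ (by exact_mod_cast S.m_pos i)

/-- The law of the zero set on a subset of the coordinates. -/
noncomputable def coordP (A z : Finset ι) : ℝ := (∏ p ∈ z, S.nu p) * ∏ p ∈ A \ z, (1 - S.nu p)

lemma coordP_nonneg (A z : Finset ι) : 0 ≤ S.coordP A z :=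
  mul_nonneg (prod_nonneg fun p _ => (S.nu_pos p).le)
    (prod_nonneg fun p _ => sub_nonneg.2 (S.coord_nu_le p))

lemma sum_coordP (A : Finset ι) : ∑ z ∈ A.powerset, S.coordP A z = 1 := by
  simp only [coordP]
  rw [← prod_add]
  simp

lemma Pz_nonneg (z : Finset ι) : 0 ≤ S.Pz z := S.coordP_nonneg S.E z

lemma sum_Pz : ∑ z ∈ S.E.powerset, S.Pz z = 1 := S.sum_coordP S.E

lemma piC_nonneg (j : ℕ) : 0 ≤ S.piC j := sum_nonneg fun z _ => S.Pz_nonneg z

lemma piC_le_one (j : ℕ) : S.piC j ≤ 1 := by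
  rw [← S.sum_Pz]
  exact sum_le_sum_of_subset_of_nonneg (fun z hz => mem_powerset.2 (mem_powersetCard.1 hz).1)
    fun z _ _ => S.Pz_nonneg z

lemma coord_Gx {β : Type*} [AddCommMonoid β] {z : Finset ι} (hz : z ⊆ S.E) (Φ : S.G → β) :
    ∑ ξ ∈ S.Gx, Φ (S.rs z ξ) =
      (∏ p ∈ z, (S.m p - 1)) • ∑ x ∈ univ.filter fun x => S.Zs x = z, Φ x := by
  have e : S.Gx = Fintype.piFinset fun i => if i ∈ S.E then univ.erase 0 else univ := by
    ext ξ
    simp only [Gx, mem_filter, mem_univ, true_and, Fintype.mem_piFinset]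
    refine forall_congr' fun i => ?_
    by_cases hi : i ∈ S.E <;> simp [hi]
  simp only [rs_eq]
  rw [e, coord_pw]
  congr 1
  · refine prod_congr rfl fun p hp => ?_
    simp [hz hp]
  · refine sum_congr ?_ fun _ _ => rfl
    ext x
    simp only [Fintype.mem_piFinset, mem_filter, mem_univ, true_and, Finset.ext_iff, mem_Zs]
    refine forall_congr' fun i => ?_
    by_cases hi : i ∈ z
    · simp [hi, hz hi]
    · by_cases hi' : i ∈ S.E <;> simp [hi, hi']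

lemma coord_vp {z : Finset ι} (hz : z ⊆ S.E) :
    S.Pz z * ((∏ p ∈ z, (S.m p - 1) : ℕ) : ℝ) = S.vp := by
  rw [Pz, vp, ← prod_sdiff hz, mul_right_comm, mul_comm, Nat.cast_prod, ← prod_mul_distrib]
  congr 1
  refine prod_congr rfl fun p _ => ?_
  have h : (S.m p : ℝ) ≠ 0 := by exact_mod_cast (S.m_pos p).ne'
  rw [Nat.cast_sub (S.m_pos p), nu]
  field_simp
  simp

/-- The coupling. -/
lemma coupling {β : Type*} [AddCommGroup β] [Module ℝ β] (Φ : S.G → β) :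
    ∑ x, Φ x = S.vp⁻¹ • ∑ z ∈ S.E.powerset, S.Pz z • ∑ ξ ∈ S.Gx, Φ (S.rs z ξ) := by
  rw [← sum_fiberwise_of_maps_to (s := univ) (g := S.Zs) (t := S.E.powerset)
    (fun x _ => mem_powerset.2 (S.Zs_sub x)), smul_sum]
  refine sum_congr rfl fun z hz => ?_
  have hz' := mem_powerset.1 hz
  rw [S.coord_Gx hz', ← Nat.cast_smul_eq_nsmul ℝ, smul_smul, smul_smul, mul_assoc, S.coord_vp hz',
    inv_mul_cancel₀ S.vp_pos.ne', one_smul]

/-- The coupling on one class. -/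
lemma coupling_class {β : Type*} [AddCommGroup β] [Module ℝ β] (j : ℕ)
    (Φ : Finset ι → S.G → β) :
    ∑ x, (if (S.Zs x).card = j then Φ (S.Zs x) x else 0)
      = S.vp⁻¹ • ∑ z ∈ S.E.powersetCard j, S.Pz z • ∑ ξ ∈ S.Gx, Φ z (S.rs z ξ) := by
  rw [S.coupling, powersetCard_eq_filter, sum_filter]
  congr 1
  refine sum_congr rfl fun z hz => ?_
  rw [sum_congr rfl fun ξ hξ => by rw [S.Zs_rs (mem_powerset.1 hz) hξ]]
  split_ifs <;> simp

lemma coord_split {d : Finset ι} (hd : d ⊆ S.E) (f : Finset ι → ℝ) :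
    ∑ z ∈ S.E.powerset, S.Pz z * f z = ∑ t ∈ d.powerset, S.coordP d t *
      ∑ w ∈ (S.E \ d).powerset, S.coordP (S.E \ d) w * f (t ∪ w) := by
  simp only [mul_sum]
  rw [← sum_product']
  symm
  refine sum_nbij' (fun q => q.1 ∪ q.2) (fun z => (z ∩ d, z \ d)) ?_ ?_ ?_ ?_ ?_
  · intro q hq
    simp only [mem_product, mem_powerset] at hq ⊢
    exact union_subset (hq.1.trans hd) (hq.2.trans sdiff_subset)
  · intro z hz
    simp only [mem_product, mem_powerset] at hz ⊢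
    exact ⟨inter_subset_right, sdiff_subset_sdiff hz Subset.rfl⟩
  · intro q hq
    simp only [mem_product, mem_powerset] at hq
    refine Prod.ext ?_ ?_
    · ext p
      have h1 := @hq.1 p
      have h2 := @hq.2 p
      simp only [mem_inter, mem_union, mem_sdiff] at h2 ⊢
      tauto
    · ext p
      have h1 := @hq.1 p
      have h2 := @hq.2 p
      simp only [mem_union, mem_sdiff] at h2 ⊢
      tauto
  · intro z _
    ext p
    simp only [mem_inter, mem_union, mem_sdiff]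
    tauto
  · intro q hq
    simp only [mem_product, mem_powerset] at hq
    have h1 : Disjoint q.1 q.2 :=
      disjoint_sdiff.mono hq.1 hq.2
    have h2 : S.E \ (q.1 ∪ q.2) = (d \ q.1) ∪ ((S.E \ d) \ q.2) := by
      ext p
      have h1 := @hq.1 p
      have h2 := @hq.2 p
      have h3 := @hd p
      simp only [mem_union, mem_sdiff] at h2 ⊢
      tauto
    have h3 : Disjoint (d \ q.1) ((S.E \ d) \ q.2) :=
      disjoint_sdiff.mono sdiff_subset sdiff_subset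
    simp only [Pz, coordP]
    rw [h2, prod_union h1, prod_union h3]
    ring

lemma coord_sub {d : Finset ι} (hd : d ⊆ S.E) (Ψ : Finset ι → ℝ) :
    ∑ z ∈ S.E.powerset, S.Pz z * (if d ⊆ z then Ψ z else 0)
      = S.iv d * ∑ w ∈ (S.E \ d).powerset, S.coordP (S.E \ d) w * Ψ (d ∪ w) := by
  rw [S.coord_split hd, sum_eq_single_of_mem d (mem_powerset_self d)]
  · simp [coordP, iv_eq]
  · intro t ht hne
    rw [sum_eq_zero, mul_zero]
    intro w hw
    rw [if_neg, mul_zero]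
    intro h
    refine hne (Subset.antisymm (mem_powerset.1 ht) fun p hp => ?_)
    rcases mem_union.1 (h hp) with h' | h'
    · exact h'
    · exact ((mem_sdiff.1 (mem_powerset.1 hw h')).2 hp).elim

lemma Pz_cond {d : Finset ι} (hd : d ⊆ S.E) (Ψ : Finset ι → ℝ) (hΨ : ∀ z, Ψ (z ∪ d) = Ψ z) :
    ∑ z ∈ S.E.powerset, S.Pz z * (if d ⊆ z then Ψ z else 0)
      = S.iv d * ∑ z ∈ S.E.powerset, S.Pz z * Ψ z := by
  rw [S.coord_sub hd, S.coord_split hd]
  congr 1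
  symm
  rw [sum_congr rfl (g := fun t => S.coordP d t *
    ∑ w ∈ (S.E \ d).powerset, S.coordP (S.E \ d) w * Ψ (d ∪ w)), ← sum_mul, sum_coordP, one_mul]
  intro t ht
  congr 1
  refine sum_congr rfl fun w _ => ?_
  rw [← hΨ (t ∪ w), union_right_comm, union_eq_right.2 (mem_powerset.1 ht)]

lemma coord_prod_ge (U : Finset ι) : 1 - ∑ p ∈ U, S.nu p ≤ ∏ p ∈ U, (1 - S.nu p) := by
  induction U using Finset.induction_on with
  | empty => simp
  | insert p U hp ih =>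
    rw [sum_insert hp, prod_insert hp]
    have h1 := (S.nu_pos p).le
    have h2 := S.coord_nu_le p
    have h3 : 0 ≤ ∑ p ∈ U, S.nu p := sum_nonneg fun p _ => (S.nu_pos p).le
    nlinarith only [ih, h2, h1, h3]

lemma Pz_class {U : Finset ι} (hU : U ⊆ S.E) (j : ℕ) :
    |∑ z ∈ S.E.powersetCard (U.card + j), (if U ⊆ z then S.Pz z else 0) - S.iv U * S.piC j|
      ≤ S.iv U * (U.card / S.H0) := by
  let q : Finset ι → ℝ := fun t => ∑ w ∈ (S.E \ U).powerset,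
    S.coordP (S.E \ U) w * if (t ∪ w).card = j then 1 else 0
  have hq : ∀ t, 0 ≤ q t ∧ q t ≤ 1 := fun t =>
    ⟨sum_nonneg fun w _ => mul_nonneg (S.coordP_nonneg _ _) (by split_ifs <;> norm_num),
      (sum_le_sum fun w _ => mul_le_of_le_one_right (S.coordP_nonneg _ _)
        (by split_ifs <;> norm_num)).trans (S.sum_coordP _).le⟩
  have e1 : ∑ z ∈ S.E.powersetCard (U.card + j), (if U ⊆ z then S.Pz z else 0) =
      S.iv U * q ∅ := by
    have := S.coord_sub hU fun z => if z.card = U.card + j then 1 else 0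
    rw [powersetCard_eq_filter, sum_filter]
    refine Eq.trans (sum_congr rfl fun z _ => ?_) (this.trans ?_)
    · split_ifs <;> simp
    · congr 1
      refine sum_congr rfl fun w hw => ?_
      have : Disjoint U w := disjoint_sdiff.mono_right (mem_powerset.1 hw)
      simp [card_union_of_disjoint this]
  have e2 : S.piC j = ∑ t ∈ U.powerset, S.coordP U t * q t := by
    rw [← S.coord_split hU fun z => if z.card = j then 1 else 0, piC, powersetCard_eq_filter,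
      sum_filter]
    refine sum_congr rfl fun z _ => ?_
    split_ifs <;> simp
  rw [e1, ← mul_sub, abs_mul, abs_of_pos (S.iv_pos U)]
  refine mul_le_mul_of_nonneg_left ?_ (S.iv_pos U).le
  have e3 : q ∅ - S.piC j = ∑ t ∈ U.powerset.erase ∅, S.coordP U t * (q ∅ - q t) := by
    rw [sum_erase _ (by simp), e2]
    simp only [mul_sub]
    rw [sum_sub_distrib, ← sum_mul, sum_coordP, one_mul]
  have e4 : ∑ t ∈ U.powerset.erase ∅, S.coordP U t = 1 - ∏ p ∈ U, (1 - S.nu p) := by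
    have h := S.sum_coordP U
    rw [← add_sum_erase _ _ (empty_mem_powerset U)] at h
    have h' : S.coordP U ∅ = ∏ p ∈ U, (1 - S.nu p) := by simp [coordP]
    linarith
  rw [e3]
  calc _ ≤ ∑ t ∈ U.powerset.erase ∅, S.coordP U t := by
        refine (abs_sum_le_sum_abs _ _).trans (sum_le_sum fun t _ => ?_)
        rw [abs_mul, abs_of_nonneg (S.coordP_nonneg _ _)]
        refine mul_le_of_le_one_right (S.coordP_nonneg _ _) (abs_le.2 ⟨?_, ?_⟩)
        · linarith [(hq ∅).1, (hq t).2]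
        · linarith [(hq ∅).2, (hq t).1]
    _ ≤ ∑ p ∈ U, S.nu p := by rw [e4]; linarith [S.coord_prod_ge U]
    _ ≤ U.card • S.H0⁻¹ := sum_le_card_nsmul _ _ _ fun p hp => S.nu_le (hU hp)
    _ = _ := by rw [nsmul_eq_mul, div_eq_mul_inv]

lemma Pz_class_le {U : Finset ι} (hU : U ⊆ S.E) (n : ℕ) :
    ∑ z ∈ S.E.powersetCard n, (if U ⊆ z then S.Pz z else 0) ≤ S.iv U := by
  have h := S.Pz_cond hU (fun _ => 1) fun _ => rfl
  simp only [mul_one, sum_Pz, mul_ite, mul_zero] at h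
  rw [← h]
  refine sum_le_sum_of_subset_of_nonneg (fun z hz => mem_powerset.2 (mem_powersetCard.1 hz).1)
    fun z _ _ => ?_
  split_ifs
  · exact S.Pz_nonneg z
  · exact le_rfl

end Sys

end Pool.Agent.Work.MP_d018b2_nt.R
end

-- merged part: Pool.Agent.Work.MP_d018b2_nt.R.SPAv
section
/-! Averaging over coordinates. -/

set_option autoImplicit false
open Finset Pool.Agent.Lib.LargeSieve

namespace Pool.Agent.Work.MP_d018b2_nt.R

open Pool.Agent.Work.MP_678620_nt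

namespace Sys

variable {ι : Type} [Fintype ι] [DecidableEq ι] (S : Sys ι)

lemma avx_card_ne : (Fintype.card S.G : ℂ) ≠ 0 := Nat.cast_ne_zero.2 Fintype.card_ne_zero

lemma avx_sum_swap {β : Type*} [AddCommMonoid β] (v : Finset ι) (Φ : S.G → S.G → β) :
    ∑ η : S.G, ∑ ξ : S.G, Φ (v.piecewise ξ η) (v.piecewise η ξ) = ∑ η : S.G, ∑ ξ : S.G, Φ η ξ := by
  have hinv : Function.Involutive
      (fun x : S.G × S.G => ((v.piecewise x.2 x.1, v.piecewise x.1 x.2) : S.G × S.G)) := by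
    rintro ⟨η, ξ⟩
    refine Prod.ext ?_ ?_ <;> funext i <;> by_cases hi : i ∈ v <;> simp [Finset.piecewise, hi]
  have h := Equiv.sum_comp hinv.toPerm fun x : S.G × S.G => Φ x.1 x.2
  rw [← Fintype.sum_prod_type', ← Fintype.sum_prod_type', ← h]
  rfl

lemma avx_sum_upd {β : Type*} [AddCommMonoid β] (p : ι) (Φ : S.G → ZMod (S.m p) → β) :
    ∑ η : S.G, ∑ c : ZMod (S.m p), Φ (Function.update η p c) (η p)
      = ∑ η : S.G, ∑ c : ZMod (S.m p), Φ η c := by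
  have hinv : Function.Involutive (fun x : S.G × ZMod (S.m p) =>
      ((Function.update x.1 p x.2, x.1 p) : S.G × ZMod (S.m p))) := by
    rintro ⟨η, c⟩
    simp
  have h := Equiv.sum_comp hinv.toPerm fun x : S.G × ZMod (S.m p) => Φ x.1 x.2
  rw [← Fintype.sum_prod_type', ← Fintype.sum_prod_type', ← h]
  rfl

lemma avx_sum_nn_pw (v : Finset ι) (f : S.G → ℂ) :
    ∑ c : S.G, S.nn (fun ξ => f (v.piecewise c ξ)) = Fintype.card S.G * S.nn f := by
  have h := S.avx_sum_swap v (fun _ ξ => ‖f ξ‖ ^ 2)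
  unfold nn
  rw [h]
  simp

lemma avx_nn_sub (f g : S.G → ℂ) :
    S.nn (fun ξ => f ξ - g ξ) = S.nn f - 2 * (S.ip g f).re + S.nn g := by
  unfold nn ip
  rw [Complex.re_sum, mul_sum, ← sum_sub_distrib, ← sum_add_distrib]
  refine sum_congr rfl fun ξ _ => ?_
  simp only [Complex.sq_norm, Complex.normSq_apply, Complex.sub_re, Complex.sub_im,
    Complex.mul_re, Complex.conj_re, Complex.conj_im]
  ring

lemma indep_av (v : Finset ι) (f : S.G → ℂ) : S.Indep v (S.av v f) := by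
  intro ξ η h
  unfold av
  congr 1
  refine sum_congr rfl fun θ _ => ?_
  congr 1
  funext i
  by_cases hi : i ∈ v
  · simp [Finset.piecewise, hi]
  · simp [Finset.piecewise, hi, h i hi]

lemma av_of_indep {v : Finset ι} {f : S.G → ℂ} (h : S.Indep v f) : S.av v f = f := by
  funext ξ
  unfold av
  have h1 : ∀ η : S.G, f (v.piecewise η ξ) = f ξ := fun η =>
    h _ _ fun i hi => by simp [Finset.piecewise, hi]
  simp only [h1, sum_const, card_univ, nsmul_eq_mul]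
  rw [← mul_assoc, inv_mul_cancel₀ S.avx_card_ne, one_mul]

variable {S} in
lemma Indep.mono {β : Type*} {a b : Finset ι} {f : S.G → β} (h : S.Indep a f) (hb : b ⊆ a) :
    S.Indep b f := by
  intro ξ η H
  exact h ξ η fun i hi => H i fun hb' => hi (hb hb')

variable {S} in
lemma Indep.union {β : Type*} {a b : Finset ι} {f : S.G → β} (ha : S.Indep a f)
    (hb : S.Indep b f) : S.Indep (a ∪ b) f := by
  intro ξ η H
  have h1 : f ξ = f (a.piecewise η ξ) := ha _ _ fun i hi => by simp [Finset.piecewise, hi]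
  rw [h1]
  refine hb _ _ fun i hi => ?_
  by_cases hia : i ∈ a
  · simp [Finset.piecewise, hia]
  · simp only [Finset.piecewise, hia, if_false]
    exact H i (by simp [hia, hi])

variable {S} in
lemma Indep.tr {β : Type*} {a : Finset ι} {f : S.G → β} (h : S.Indep a f) (c : S.G) :
    S.Indep a fun ξ => f (ξ + c) := by
  intro ξ η H
  refine h _ _ fun i hi => ?_
  simp [H i hi]

variable {S} in
lemma Indep.av {a : Finset ι} {f : S.G → ℂ} (h : S.Indep a f) (v : Finset ι) :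
    S.Indep a (S.av v f) := by
  intro ξ η H
  unfold Sys.av
  congr 1
  refine sum_congr rfl fun θ _ => h _ _ fun i hi => ?_
  by_cases hv : i ∈ v
  · simp [Finset.piecewise, hv]
  · simp [Finset.piecewise, hv, H i hi]

variable {S} in
lemma Indep.rs {β : Type*} {a : Finset ι} {f : S.G → β} (h : S.Indep a f) (ξ : S.G) :
    f (S.rs a ξ) = f ξ := by
  refine h _ _ fun i hi => ?_
  simp [Sys.rs, hi]

lemma av_sub (v : Finset ι) (f g : S.G → ℂ) :
    S.av v (fun ξ => f ξ - g ξ) = fun ξ => S.av v f ξ - S.av v g ξ := by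
  funext ξ
  simp only [av, sum_sub_distrib, mul_sub]

lemma av_sum {α : Type*} (v : Finset ι) (s : Finset α) (c : α → ℂ) (f : α → S.G → ℂ) :
    S.av v (fun ξ => ∑ i ∈ s, c i * f i ξ) = fun ξ => ∑ i ∈ s, c i * S.av v (f i) ξ := by
  funext ξ
  simp only [av, mul_sum]
  rw [sum_comm]
  refine sum_congr rfl fun i _ => sum_congr rfl fun η _ => by ring

lemma av_tr (v : Finset ι) (f : S.G → ℂ) (c : S.G) :
    S.av v (fun ξ => f (ξ + c)) = fun ξ => S.av v f (ξ + c) := by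
  funext ξ
  unfold av
  congr 1
  rw [← S.sum_add_right (fun η => f (v.piecewise η (ξ + c))) c]
  refine sum_congr rfl fun η _ => congrArg f ?_
  funext i
  by_cases hi : i ∈ v <;> simp [Finset.piecewise, hi]

lemma av_av (v w : Finset ι) (f : S.G → ℂ) : S.av v (S.av w f) = S.av (v ∪ w) f := by
  funext ξ
  have h1 := S.avx_sum_swap w (fun η _ => f ((v ∪ w).piecewise η ξ))
  have h2 : ∀ η θ : S.G, (v ∪ w).piecewise (w.piecewise θ η) ξ
      = w.piecewise θ (v.piecewise η ξ) := by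
    intro η θ
    funext i
    by_cases hi : i ∈ v <;> by_cases hw : i ∈ w <;> simp [Finset.piecewise, hi, hw]
  simp only [h2, sum_const, card_univ, nsmul_eq_mul] at h1
  simp only [av]
  congr 1
  rw [← mul_sum, h1, ← mul_sum, ← mul_assoc, inv_mul_cancel₀ S.avx_card_ne, one_mul]

lemma av_piecewise {v w : Finset ι} (h : Disjoint v w) (f : S.G → ℂ) (c : S.G) :
    S.av v (fun ξ => f (w.piecewise c ξ)) = fun ξ => S.av v f (w.piecewise c ξ) := by
  funext ξ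
  unfold av
  congr 1
  refine sum_congr rfl fun η _ => congrArg f ?_
  funext i
  by_cases hi : i ∈ v
  · have hw : i ∉ w := Finset.disjoint_left.1 h hi
    simp [Finset.piecewise, hi, hw]
  · by_cases hw : i ∈ w <;> simp [Finset.piecewise, hi, hw]

lemma av_single (p : ι) (f : S.G → ℂ) (ξ : S.G) :
    S.av {p} f ξ = (S.m p : ℂ)⁻¹ * ∑ c : ZMod (S.m p), f (Function.update ξ p c) := by
  have h1 := S.avx_sum_upd p (fun _ c => f (Function.update ξ p c))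
  simp only [sum_const, card_univ, nsmul_eq_mul, ZMod.card] at h1
  have h2 : ∀ η : S.G, ({p} : Finset ι).piecewise η ξ = Function.update ξ p (η p) := fun η =>
    Finset.piecewise_singleton η ξ p
  have hm : (S.m p : ℂ) ≠ 0 := Nat.cast_ne_zero.2 (S.m_pos p).ne'
  simp only [av, h2]
  rw [← mul_sum] at h1
  have hc := S.avx_card_ne
  field_simp
  rw [← h1, mul_comm]

lemma ip_av (v : Finset ι) (g f : S.G → ℂ) : S.ip (S.av v g) f = S.ip g (S.av v f) := by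
  have h1 := S.avx_sum_swap v (fun η ξ => (starRingEnd ℂ) (g ξ) * f (v.piecewise η ξ))
  have h2 : ∀ η ξ : S.G, v.piecewise (v.piecewise ξ η) (v.piecewise η ξ) = ξ := by
    intro η ξ
    funext i
    by_cases hi : i ∈ v <;> simp [Finset.piecewise, hi]
  simp only [h2] at h1
  simp only [ip, av, map_mul, map_sum, map_inv₀, map_natCast]
  calc ∑ ξ : S.G, ((Fintype.card S.G : ℂ)⁻¹ *
          ∑ η : S.G, (starRingEnd ℂ) (g (v.piecewise η ξ))) * f ξ
      = (Fintype.card S.G : ℂ)⁻¹ *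
          ∑ η : S.G, ∑ ξ : S.G, (starRingEnd ℂ) (g (v.piecewise η ξ)) * f ξ := by
        rw [sum_comm, mul_sum]
        refine sum_congr rfl fun ξ _ => ?_
        rw [mul_assoc, sum_mul]
    _ = _ := by
        rw [h1, sum_comm, mul_sum]
        refine sum_congr rfl fun ξ _ => ?_
        rw [← mul_sum]
        ring

lemma avx_ip_av_self (v : Finset ι) (f : S.G → ℂ) :
    S.ip (S.av v f) f = (S.nn (S.av v f) : ℂ) := by
  rw [← S.ip_self, ← S.ip_av v (S.av v f) f, S.av_of_indep (S.indep_av v f)]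

lemma nn_av_le (v : Finset ι) (f : S.G → ℂ) : S.nn (S.av v f) ≤ S.nn f := by
  have hc : (0 : ℝ) < Fintype.card S.G := Nat.cast_pos.2 Fintype.card_pos
  have h1 := S.avx_sum_nn_pw v f
  have h2 : ∀ ξ, ‖S.av v f ξ‖ ^ 2
      ≤ (Fintype.card S.G : ℝ)⁻¹ * ∑ η : S.G, ‖f (v.piecewise η ξ)‖ ^ 2 := by
    intro ξ
    have h3 := norm_sq_sum_le univ fun η : S.G => f (v.piecewise η ξ)
    rw [card_univ] at h3
    unfold av
    rw [norm_mul, norm_inv, Complex.norm_natCast, mul_pow]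
    calc _ ≤ (Fintype.card S.G : ℝ)⁻¹ ^ 2 *
          (Fintype.card S.G * ∑ η : S.G, ‖f (v.piecewise η ξ)‖ ^ 2) := by gcongr
      _ = _ := by field_simp
  calc S.nn (S.av v f)
      ≤ ∑ ξ, (Fintype.card S.G : ℝ)⁻¹ * ∑ η : S.G, ‖f (v.piecewise η ξ)‖ ^ 2 :=
        sum_le_sum fun ξ _ => h2 ξ
    _ = S.nn f := by
        rw [← mul_sum, sum_comm]
        unfold nn at h1 ⊢
        rw [h1]
        field_simp

lemma nn_sub_av (v : Finset ι) (f : S.G → ℂ) :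
    S.nn (fun ξ => f ξ - S.av v f ξ) = S.nn f - S.nn (S.av v f) := by
  rw [S.avx_nn_sub, S.avx_ip_av_self]
  simp only [Complex.ofReal_re]
  ring

lemma sum_update (p : ι) (f : S.G → ℂ) :
    ∑ c : ZMod (S.m p), S.nn (fun ξ => f (Function.update ξ p c) - S.av {p} f ξ)
      = S.m p * S.nn fun ξ => f ξ - S.av {p} f ξ := by
  have h1 := S.avx_sum_upd p (fun ξ _ => ‖f ξ - S.av {p} f ξ‖ ^ 2)
  have h2 : ∀ (ξ : S.G) (c : ZMod (S.m p)),
      S.av {p} f (Function.update ξ p c) = S.av {p} f ξ := by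
    intro ξ c
    refine S.indep_av {p} f _ _ fun i hi => ?_
    rw [Function.update_of_ne (by simpa using hi)]
  simp only [h2, sum_const, card_univ, nsmul_eq_mul, ZMod.card] at h1
  unfold nn
  rw [sum_comm, h1, mul_sum]

lemma sum_nn_piecewise (v : Finset ι) (f : S.G → ℂ) :
    ∑ c : S.G, S.nn (fun ξ => f (v.piecewise c ξ)) = Fintype.card S.G * S.nn f := by
  exact S.avx_sum_nn_pw v f

lemma sum_nn_piecewise_sub (v : Finset ι) (f : S.G → ℂ) :
    ∑ c : S.G, S.nn (fun ξ => f (v.piecewise c ξ) - f ξ)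
      = Fintype.card S.G * (2 * (S.nn f - S.nn (S.av v f))) := by
  simp only [S.avx_nn_sub]
  have h1 : ∑ c : S.G, S.ip f (fun ξ => f (v.piecewise c ξ))
      = Fintype.card S.G * (S.nn (S.av v f) : ℂ) := by
    rw [← S.avx_ip_av_self, S.ip_av]
    simp only [ip, av]
    rw [sum_comm, mul_sum]
    refine sum_congr rfl fun ξ _ => ?_
    rw [← mul_sum]
    have hc := S.avx_card_ne
    field_simp
  have h2 := congrArg Complex.re h1
  rw [Complex.re_sum] at h2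
  simp only [Complex.mul_re, Complex.natCast_re, Complex.ofReal_re, Complex.natCast_im,
    Complex.ofReal_im, mul_zero, sub_zero] at h2
  rw [sum_add_distrib, sum_sub_distrib, S.avx_sum_nn_pw, ← mul_sum, h2]
  simp only [sum_const, card_univ, nsmul_eq_mul]
  ring

/-- Efron-Stein. -/
lemma efron_stein (v : Finset ι) (f : S.G → ℂ) :
    S.nn f - S.nn (S.av v f) ≤ ∑ p ∈ v, S.nn fun ξ => f ξ - S.av {p} f ξ := by
  induction v using Finset.induction_on with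
  | empty =>
    have h : S.av ∅ f = f := S.av_of_indep fun ξ η H => by
      rw [show ξ = η from funext fun i => H i (by simp)]
    simp [h]
  | insert p v hp ih =>
    rw [sum_insert hp]
    have h1 := S.nn_sub_av {p} (S.av v f)
    have h2 := S.nn_av_le v fun ξ => f ξ - S.av {p} f ξ
    rw [S.av_sub, S.av_av, union_comm] at h2
    rw [S.av_av] at h1
    rw [insert_eq]
    linarith

lemma nn_wsum {α : Type*} (s : Finset α) {w : α → ℝ} (hw : ∀ i ∈ s, 0 ≤ w i) (f : α → S.G → ℂ) :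
    S.nn (fun ξ => ∑ i ∈ s, (w i : ℂ) * f i ξ) ≤ (∑ i ∈ s, w i) * ∑ i ∈ s, w i * S.nn (f i) := by
  unfold nn
  calc _ ≤ ∑ ξ : S.G, (∑ i ∈ s, w i) * ∑ i ∈ s, w i * ‖f i ξ‖ ^ 2 :=
        sum_le_sum fun ξ _ => norm_sq_wsum s hw fun i => f i ξ
    _ = _ := by
        rw [← mul_sum, sum_comm]
        simp only [mul_sum]

lemma inf_wsum {α : Type*} (s : Finset α) {w : α → ℝ} (hw : ∀ i ∈ s, 0 ≤ w i) (f : α → S.G → ℂ) :
    S.inf (fun ξ => ∑ i ∈ s, (w i : ℂ) * f i ξ)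
      ≤ (∑ i ∈ s, w i) * ∑ i ∈ s, w i * S.inf (f i) := by
  unfold inf
  have h1 : ∀ p : ι, (S.nn fun ξ => ∑ i ∈ s, (w i : ℂ) * f i ξ -
        S.av {p} (fun ξ => ∑ i ∈ s, (w i : ℂ) * f i ξ) ξ)
      ≤ (∑ i ∈ s, w i) * ∑ i ∈ s, w i * S.nn fun ξ => f i ξ - S.av {p} (f i) ξ := by
    intro p
    have h2 := S.nn_wsum s hw fun i ξ => f i ξ - S.av {p} (f i) ξ
    rw [S.av_sum]
    refine le_of_eq_of_le ?_ h2
    simp only [mul_sub, sum_sub_distrib]
  refine (sum_le_sum fun p _ => h1 p).trans (le_of_eq ?_)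
  rw [← mul_sum, sum_comm]
  simp only [mul_sum]

end Sys

end Pool.Agent.Work.MP_d018b2_nt.R
end

-- merged part: Pool.Agent.Work.MP_d018b2_nt.R.SPFour
section
/-! Fourier analysis on the model group. -/

set_option autoImplicit false
open Finset Pool.Agent.Lib.LargeSieve

namespace Pool.Agent.Work.MP_d018b2_nt.R

open Pool.Agent.Work.MP_678620_nt

namespace Sys

variable {ι : Type} [Fintype ι] [DecidableEq ι] (S : Sys ι)

lemma four_orth1 (a b : S.G) : ∑ ψ : AddChar S.G ℂ, ψ a * (starRingEnd ℂ) (ψ b)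
    = if a = b then (Fintype.card S.G : ℂ) else 0 := by
  have h := AddChar.sum_apply_eq_ite (a - b)
  simp only [sub_eq_zero] at h
  rw [← h]
  refine sum_congr rfl fun ψ _ => ?_
  rw [sub_eq_add_neg, AddChar.map_add_eq_mul, AddChar.map_neg_eq_conj]

open Classical in
lemma four_orth2 (ψ φ : AddChar S.G ℂ) : ∑ ξ, ψ ξ * (starRingEnd ℂ) (φ ξ)
    = if ψ = φ then (Fintype.card S.G : ℂ) else 0 := by
  have h := AddChar.sum_eq_ite (ψ - φ)
  simp only [sub_eq_zero] at h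
  rw [← h]
  refine sum_congr rfl fun ξ _ => ?_
  rw [AddChar.sub_apply, AddChar.map_neg_eq_conj]

lemma four_card_ne : (Fintype.card S.G : ℂ) ≠ 0 := Nat.cast_ne_zero.2 Fintype.card_ne_zero

lemma four_card_pos : (0 : ℝ) < Fintype.card S.G := Nat.cast_pos.2 Fintype.card_pos

lemma four_ip_self (f : S.G → ℂ) : S.ip f f = (S.nn f : ℂ) := by
  simp only [ip, nn]
  push_cast
  exact sum_congr rfl fun ξ _ => Complex.conj_mul' _

lemma parseval_ip (g f : S.G → ℂ) : (Fintype.card S.G : ℂ) * S.ip g f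
    = ∑ ψ : AddChar S.G ℂ, (starRingEnd ℂ) (S.fh g ψ) * S.fh f ψ := by
  have e : ∀ ψ : AddChar S.G ℂ, (starRingEnd ℂ) (S.fh g ψ) * S.fh f ψ
      = ∑ ξ, ∑ η, (starRingEnd ℂ) (g ξ) * f η * (ψ ξ * (starRingEnd ℂ) (ψ η)) := by
    intro ψ
    simp only [fh, map_sum, map_mul, Complex.conj_conj]
    rw [sum_mul_sum]
    exact sum_congr rfl fun ξ _ => sum_congr rfl fun η _ => by ring
  simp only [e]
  rw [sum_comm, ip, mul_sum]
  refine sum_congr rfl fun ξ _ => ?_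
  rw [sum_comm]
  simp only [← mul_sum, four_orth1, mul_ite, mul_zero, sum_ite_eq, mem_univ, if_true]
  ring

lemma parseval (f : S.G → ℂ) :
    (Fintype.card S.G : ℝ) * S.nn f = ∑ ψ : AddChar S.G ℂ, ‖S.fh f ψ‖ ^ 2 := by
  have h := S.parseval_ip f f
  simp only [four_ip_self, Complex.conj_mul'] at h
  exact_mod_cast h

lemma fh_sum {α : Type*} (s : Finset α) (c : α → ℂ) (f : α → S.G → ℂ) (ψ : AddChar S.G ℂ) :
    S.fh (fun ξ => ∑ i ∈ s, c i * f i ξ) ψ = ∑ i ∈ s, c i * S.fh (f i) ψ := by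
  simp only [fh, sum_mul, mul_sum, mul_assoc]
  exact sum_comm

lemma fh_sub (f g : S.G → ℂ) (ψ : AddChar S.G ℂ) :
    S.fh (fun ξ => f ξ - g ξ) ψ = S.fh f ψ - S.fh g ψ := by
  simp only [fh, sub_mul, sum_sub_distrib]

lemma fh_tr (f : S.G → ℂ) (c : S.G) (ψ : AddChar S.G ℂ) :
    S.fh (fun ξ => f (ξ + c)) ψ = ψ c * S.fh f ψ := by
  simp only [fh, mul_sum]
  refine Fintype.sum_equiv (Equiv.addRight c) _ _ fun ξ => ?_
  have h : ψ c * (starRingEnd ℂ) (ψ c) = 1 := by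
    rw [← AddChar.map_neg_eq_conj, ← AddChar.map_add_eq_mul, add_neg_cancel,
      AddChar.map_zero_eq_one]
  simp only [Equiv.coe_addRight, AddChar.map_add_eq_mul, map_mul]
  linear_combination (-(f (ξ + c) * (starRingEnd ℂ) (ψ ξ))) * h

lemma al_spec (ψ : AddChar S.G ℂ) (j : ℤ) : ψ (j : S.G) = ee (S.al ψ * j) := by
  have h1 : ψ 1 = Complex.exp (Complex.arg (ψ 1) * Complex.I) := by
    have h := Complex.norm_mul_exp_arg_mul_I (ψ 1)
    rw [AddChar.norm_apply] at h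
    simpa using h.symm
  have h2 : (j : S.G) = j • (1 : S.G) := by simp
  rw [h2, AddChar.map_zsmul_eq_zpow, h1, ← Complex.exp_int_mul, ee, al]
  congr 1
  have : (Real.pi : ℂ) ≠ 0 := by exact_mod_cast Real.pi_ne_zero
  push_cast
  field_simp

lemma supp_sub (ψ : AddChar S.G ℂ) : S.supp ψ ⊆ S.E := by
  classical
  exact filter_subset _ _

lemma fh_av {v : Finset ι} (hv : v ⊆ S.E) (f : S.G → ℂ) (ψ : AddChar S.G ℂ) :
    S.fh (S.av v f) ψ = if Disjoint v (S.supp ψ) then S.fh f ψ else 0 := by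
  classical
  let P : S.G →+ S.G := AddMonoidHom.mk' (fun η => v.piecewise η 0) fun a b => by
    funext i
    by_cases h : i ∈ v <;> simp [piecewise, h]
  have hP : ∀ η i, P η i = if i ∈ v then η i else 0 := fun η i => by
    by_cases h : i ∈ v <;> simp [P, piecewise, h]
  have e : S.av v f = fun ξ => ∑ η, (Fintype.card S.G : ℂ)⁻¹ * f (ξ + P η) := by
    funext ξ
    rw [av, ← mul_sum]
    congr 1
    refine (Fintype.sum_equiv (Equiv.addRight ξ) _ _ fun η => ?_).symm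
    congr 1
    funext i
    by_cases h : i ∈ v <;> simp [hP, piecewise, h, add_comm]
  have h := AddChar.sum_eq_ite (ψ.compAddMonoidHom P)
  simp only [AddChar.compAddMonoidHom_apply] at h
  have hiff : ψ.compAddMonoidHom P = 0 ↔ Disjoint v (S.supp ψ) := by
    constructor
    · intro h0
      rw [disjoint_left]
      intro p hp hs
      obtain ⟨-, x, hx⟩ := mem_filter.1 hs
      have h1 : ψ (P (Pi.single p x)) = 1 := by
        rw [← AddChar.compAddMonoidHom_apply, h0, AddChar.zero_apply]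
      have h2 : P (Pi.single p x) = Pi.single p x := by
        funext i
        rw [hP]
        split_ifs with hi
        · rfl
        · rw [Pi.single_eq_of_ne]
          rintro rfl
          exact hi hp
      exact hx (h2 ▸ h1)
    · intro hd
      ext η
      rw [AddChar.compAddMonoidHom_apply, AddChar.zero_apply, ← univ_sum_single (P η)]
      refine sum_induction _ (fun x : S.G => ψ x = 1) (fun a b ha hb => ?_)
        (AddChar.map_zero_eq_one ψ) fun i _ => ?_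
      · rw [AddChar.map_add_eq_mul, ha, hb, one_mul]
      · rw [hP]
        split_ifs with hi
        · by_contra hne
          exact disjoint_left.1 hd hi (mem_filter.2 ⟨hv hi, _, hne⟩)
        · rw [Pi.single_zero, AddChar.map_zero_eq_one]
  rw [e, S.fh_sum univ (fun _ => (Fintype.card S.G : ℂ)⁻¹) fun η ξ => f (ξ + P η)]
  simp only [fh_tr]
  rw [← mul_sum, ← sum_mul, h]
  simp only [hiff]
  split_ifs
  · rw [← mul_assoc, inv_mul_cancel₀ S.four_card_ne, one_mul]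
  · simp

open Classical in
lemma fh_proj (A : AddChar S.G ℂ → Prop) (f : S.G → ℂ) (ψ : AddChar S.G ℂ) :
    S.fh (S.proj A f) ψ = if A ψ then S.fh f ψ else 0 := by
  have e : S.proj A f = fun ξ => ∑ φ : AddChar S.G ℂ,
      ((Fintype.card S.G : ℂ)⁻¹ * if A φ then S.fh f φ else 0) * φ ξ := by
    funext ξ
    rw [proj, mul_sum]
    refine sum_congr rfl fun φ _ => ?_
    split_ifs <;> simp [mul_assoc]
  rw [e, S.fh_sum univ _ fun (φ : AddChar S.G ℂ) ξ => φ ξ]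
  have e2 : ∀ φ : AddChar S.G ℂ, S.fh (fun ξ => φ ξ) ψ
      = if φ = ψ then (Fintype.card S.G : ℂ) else 0 := fun φ => S.four_orth2 φ ψ
  simp only [e2, mul_ite, mul_zero, sum_ite_eq', mem_univ, if_true]
  split_ifs
  · have := S.four_card_ne
    field_simp
  · simp

lemma inf_eq (f : S.G → ℂ) : (Fintype.card S.G : ℝ) * S.inf f
    = ∑ ψ : AddChar S.G ℂ, (S.supp ψ).card * ‖S.fh f ψ‖ ^ 2 := by
  have e : ∀ p ∈ S.E, (Fintype.card S.G : ℝ) * S.nn (fun ξ => f ξ - S.av {p} f ξ)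
      = ∑ ψ : AddChar S.G ℂ, if p ∈ S.supp ψ then ‖S.fh f ψ‖ ^ 2 else 0 := by
    intro p hp
    rw [parseval]
    refine sum_congr rfl fun ψ _ => ?_
    rw [fh_sub, S.fh_av (singleton_subset_iff.2 hp)]
    by_cases h : p ∈ S.supp ψ <;> simp [h]
  rw [inf, mul_sum, sum_congr rfl e, sum_comm]
  refine sum_congr rfl fun ψ _ => ?_
  rw [sum_ite_mem, inter_eq_right.2 (S.supp_sub ψ), sum_const, nsmul_eq_mul]

lemma inf_proj_le (A : AddChar S.G ℂ → Prop) (f : S.G → ℂ) : S.inf (S.proj A f) ≤ S.inf f := by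
  refine le_of_mul_le_mul_left ?_ S.four_card_pos
  rw [inf_eq, inf_eq]
  refine sum_le_sum fun ψ _ => ?_
  rw [fh_proj]
  split_ifs
  · exact le_rfl
  · rw [norm_zero, zero_pow two_ne_zero, mul_zero]
    positivity

lemma ip_proj (A : AddChar S.G ℂ → Prop) (f : S.G → ℂ) :
    S.ip (S.proj A f) f = (S.nn (S.proj A f) : ℂ) := by
  refine mul_left_cancel₀ S.four_card_ne ?_
  rw [← four_ip_self, parseval_ip, parseval_ip]
  refine sum_congr rfl fun ψ _ => ?_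
  rw [fh_proj]
  split_ifs <;> simp

lemma four_ext {f g : S.G → ℂ} (h : ∀ ψ, S.fh f ψ = S.fh g ψ) : f = g := by
  have h1 := S.parseval fun ξ => f ξ - g ξ
  simp only [fh_sub, h, sub_self, norm_zero, zero_pow two_ne_zero, sum_const_zero] at h1
  have h2 := (mul_eq_zero.1 h1).resolve_left S.four_card_pos.ne'
  rw [nn, sum_eq_zero_iff_of_nonneg fun _ _ => by positivity] at h2
  funext ξ
  have h3 := h2 ξ (mem_univ _)
  rwa [sq_eq_zero_iff, norm_eq_zero, sub_eq_zero] at h3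

lemma indep_proj (A : AddChar S.G ℂ → Prop) {a : Finset ι} (ha : a ⊆ S.E) {f : S.G → ℂ}
    (hf : S.Indep a f) : S.Indep a (S.proj A f) := by
  have e : S.av a (S.proj A f) = S.proj A f := by
    refine S.four_ext fun ψ => ?_
    have h := S.fh_av ha f ψ
    rw [S.av_of_indep hf] at h
    rw [S.fh_av ha, fh_proj]
    split_ifs with h1 h2 h2
    · rfl
    · rfl
    · rw [h, if_neg h1]
    · rfl
  rw [← e]
  exact S.indep_av a _

lemma fh_Tn (f : S.G → ℂ) (ψ : AddChar S.G ℂ) :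
    S.fh (S.Tn f) ψ = 2 ^ (S.supp ψ).card * S.fh f ψ := by
  have e : S.Tn f = fun ξ => ∑ z ∈ S.E.powerset,
      ((-1) ^ z.card * 2 ^ (S.E \ z).card : ℂ) * S.av z f ξ := rfl
  have e2 : ∀ z ∈ S.E.powerset, ((-1) ^ z.card * 2 ^ (S.E \ z).card : ℂ) * S.fh (S.av z f) ψ
      = ((∏ p ∈ z, if p ∈ S.supp ψ then (0 : ℂ) else -1) * ∏ _p ∈ S.E \ z, (2 : ℂ))
        * S.fh f ψ := by
    intro z hz
    rw [S.fh_av (mem_powerset.1 hz), prod_const]
    split_ifs with h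
    · rw [prod_congr rfl fun p hp => if_neg (disjoint_left.1 h hp), prod_const]
    · obtain ⟨p, hp, hp'⟩ := not_disjoint_iff.1 h
      rw [prod_eq_zero (f := fun p => if p ∈ S.supp ψ then (0 : ℂ) else -1) hp (if_pos hp')]
      simp
  rw [e, S.fh_sum, sum_congr rfl e2, ← sum_mul, ← prod_add]
  congr 1
  have e3 : ∀ p ∈ S.E, ((if p ∈ S.supp ψ then (0 : ℂ) else -1) + 2)
      = if p ∈ S.supp ψ then 2 else 1 := fun p _ => by split_ifs <;> norm_num
  rw [prod_congr rfl e3, prod_ite_mem, inter_eq_right.2 (S.supp_sub ψ), prod_const]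

theorem inf_le_Tn (M : ℕ) (f : S.G → ℂ) :
    S.inf f ≤ M * S.nn f + S.nn (S.Tn f) / 4 ^ M := by
  refine le_of_mul_le_mul_left ?_ S.four_card_pos
  rw [inf_eq, mul_add, mul_left_comm, ← mul_div_assoc, parseval, parseval, mul_sum, sum_div,
    ← sum_add_distrib]
  refine sum_le_sum fun ψ _ => ?_
  rw [fh_Tn, norm_mul, norm_pow, Complex.norm_ofNat, mul_pow, ← pow_mul, mul_comm _ 2, pow_mul]
  have key : ∀ n : ℕ, (n : ℝ) ≤ M + (2 ^ 2) ^ n / 4 ^ M := by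
    intro n
    rcases le_or_gt n M with h | h
    · have : (n : ℝ) ≤ M := by exact_mod_cast h
      have : (0 : ℝ) ≤ (2 ^ 2) ^ n / 4 ^ M := by positivity
      linarith
    · obtain ⟨t, rfl⟩ := Nat.exists_eq_add_of_le h.le
      have h1 : (t : ℝ) ≤ 4 ^ t := by exact_mod_cast (Nat.lt_pow_self (by norm_num)).le
      have h2 : ((2 : ℝ) ^ 2) ^ (M + t) / 4 ^ M = 4 ^ t := by
        rw [pow_add]
        norm_num
      rw [h2]
      push_cast
      linarith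
  have h := mul_le_mul_of_nonneg_right (key (S.supp ψ).card) (sq_nonneg ‖S.fh f ψ‖)
  refine h.trans (le_of_eq ?_)
  ring

end Sys

end Pool.Agent.Work.MP_d018b2_nt.R
end

-- merged part: Pool.Agent.Work.MP_d018b2_nt.R.SPQ
section
/-! The quadratic form at one frequency. -/

set_option autoImplicit false
open Finset Pool.Agent.Lib.LargeSieve

namespace Pool.Agent.Work.MP_d018b2_nt.R

open Pool.Agent.Work.MP_678620_nt

namespace Sys

variable {ι : Type} [Fintype ι] [DecidableEq ι] (S : Sys ι)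

/-- Mass of the class above `U`. -/
noncomputable def qP (U : Finset ι) : ℝ :=
  ∑ z ∈ S.E.powersetCard (S.s + S.k'), if U ⊆ z then S.Pz z else 0

/-- The kernel `iv (c \ b)` on the shell `|c \ b| = r`. -/
noncomputable def qG (r : ℕ) (b c : Finset ι) : ℝ := if (c \ b).card = r then S.iv (c \ b) else 0

noncomputable def qB (y : Finset ι → ℂ) (e : Finset ι) : ℂ :=
  ∑ p ∈ S.E \ e, if insert p e ∈ S.DD then (S.nu p : ℂ) * y (insert p e) else 0

noncomputable def qBF (F : Finset (Finset ι)) (y : Finset ι → ℂ) (e : Finset ι) : ℂ :=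
  ∑ p ∈ S.E \ e, if insert p e ∈ F then (S.nu p : ℂ) * y (insert p e) else 0

noncomputable def qS (y : Finset ι → ℂ) (r : ℕ) (b : Finset ι) : ℝ :=
  ‖∑ e ∈ S.E.powersetCard (S.s - 1), (S.qG r b e : ℂ) * S.qB y e‖

noncomputable def qN (y : Finset ι → ℂ) (r : ℕ) (b : Finset ι) : ℝ :=
  ∑ d ∈ S.DD, S.qG r b d * ‖y d‖

noncomputable def qM (y : Finset ι → ℂ) (r : ℕ) (b : Finset ι) : ℝ :=
  ∑ e ∈ S.E.powersetCard (S.s - 1), S.qG r b e * ‖S.qB y e‖

lemma qG_nonneg (r : ℕ) (b c : Finset ι) : 0 ≤ S.qG r b c := by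
  unfold qG
  split_ifs
  · exact (S.iv_pos _).le
  · exact le_rfl

lemma q_Λ_pos : 0 < S.Λ := by
  have := S.big
  linarith

lemma q_H0_pos : 0 < S.H0 := lt_of_lt_of_le (by positivity) S.H0_big

lemma q_s_pos : 1 ≤ S.s := S.k'_ge.trans S.k'_le

lemma q_DD_sub : S.DD ⊆ S.E.powersetCard S.s := fun d hd =>
  mem_powersetCard.2 ⟨S.DD_sub d hd, S.DD_card d hd⟩

/-- Row bound on a shell. -/
lemma q_row (b : Finset ι) (n r : ℕ) {F : Finset (Finset ι)} (hF : F ⊆ S.E.powersetCard n) :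
    ∑ c ∈ F, S.qG r b c ≤ (b.card.choose (n - r) : ℝ) * S.Λ := by
  have h1 : ∑ c ∈ F, S.qG r b c = ∑ c ∈ F.filter (fun c => (c \ b).card = r), S.iv (c \ b) := by
    rw [sum_filter]
    rfl
  have hinj : Set.InjOn (fun c : Finset ι => (c ∩ b, c \ b))
      (F.filter (fun c => (c \ b).card = r) : Finset (Finset ι)) := by
    intro c _ c' _ h
    simp only [Prod.mk.injEq] at h
    rw [← sdiff_union_inter c b, ← sdiff_union_inter c' b, h.1, h.2]
  have h2 : ∑ c ∈ F.filter (fun c => (c \ b).card = r), S.iv (c \ b)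
      = ∑ x ∈ (F.filter (fun c => (c \ b).card = r)).image (fun c => (c ∩ b, c \ b)),
        S.iv x.2 := by
    rw [sum_image hinj]
  have h3 : (F.filter (fun c => (c \ b).card = r)).image (fun c => (c ∩ b, c \ b))
      ⊆ b.powersetCard (n - r) ×ˢ S.E.powersetCard r := by
    intro x hx
    obtain ⟨c, hc, rfl⟩ := mem_image.1 hx
    obtain ⟨hc1, hc2⟩ := mem_filter.1 hc
    obtain ⟨hc3, hc4⟩ := mem_powersetCard.1 (hF hc1)
    refine mem_product.2 ⟨mem_powersetCard.2 ⟨inter_subset_right, ?_⟩,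
      mem_powersetCard.2 ⟨sdiff_subset.trans hc3, hc2⟩⟩
    have := card_sdiff_add_card_inter c b
    simp only
    omega
  rw [h1, h2]
  calc _ ≤ ∑ x ∈ b.powersetCard (n - r) ×ˢ S.E.powersetCard r, S.iv x.2 :=
        sum_le_sum_of_subset_of_nonneg h3 fun x _ _ => (S.iv_pos _).le
    _ = (b.card.choose (n - r) : ℝ) * ∑ v ∈ S.E.powersetCard r, S.iv v := by
        rw [sum_product]
        simp [card_powersetCard]
    _ ≤ _ := mul_le_mul_of_nonneg_left (S.sum_iv_le (Subset.refl _) r) (by positivity)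

lemma q_iv_sym (b c : Finset ι) : S.iv b * S.iv (c \ b) = S.iv c * S.iv (b \ c) := by
  rw [← S.iv_union disjoint_sdiff, ← S.iv_union disjoint_sdiff, union_sdiff_self_eq_union,
    union_sdiff_self_eq_union, union_comm]

lemma q_sym {b c : Finset ι} {r r' : ℕ} (h : b.card + r = c.card + r') :
    S.iv b * S.qG r b c = S.iv c * S.qG r' c b := by
  have h1 := card_sdiff_add_card_inter c b
  have h2 := card_sdiff_add_card_inter b c
  rw [inter_comm] at h2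
  unfold qG
  by_cases hh : (c \ b).card = r
  · rw [if_pos hh, if_pos (by omega), q_iv_sym]
  · rw [if_neg hh, if_neg (by omega), mul_zero, mul_zero]

lemma q_choose {r : ℕ} (hr : r ≤ S.k') : (S.s.choose (S.s - r) : ℝ) ≤ S.D' := by
  rw [Nat.choose_symm (hr.trans S.k'_le)]
  exact_mod_cast S.choose_le_D' hr

/-- Schur test between two families of sets. -/
lemma q_schur {F F' : Finset (Finset ι)} {n n' r r' : ℕ} (hF : F ⊆ S.E.powersetCard n)
    (hF' : F' ⊆ S.E.powersetCard n') (h : n + r = n' + r') {A : ℝ}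
    (hA : (n.choose (n' - r) : ℝ) ≤ A) (hB : (n'.choose (n - r') : ℝ) ≤ A) (x y : Finset ι → ℂ) :
    ∑ b ∈ F, S.iv b * ‖x b‖ * ∑ e ∈ F', S.qG r b e * ‖y e‖
      ≤ A * S.Λ * (√(∑ b ∈ F, S.iv b * ‖x b‖ ^ 2) * √(∑ e ∈ F', S.iv e * ‖y e‖ ^ 2)) := by
  have hA0 : (0 : ℝ) ≤ A * S.Λ := mul_nonneg ((Nat.cast_nonneg _).trans hA) S.q_Λ_pos.le
  have h1 := schur_test F F'
    (K := fun b e => S.iv b * S.qG r b e) (u := S.iv) (v := S.iv)
    (x := fun b => ‖x b‖) (y := fun e => ‖y e‖)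
    (fun b _ d _ => mul_nonneg (S.iv_pos _).le (S.qG_nonneg _ _ _))
    (fun b _ => (S.iv_pos _).le) (fun b _ => (S.iv_pos _).le) hA0 hA0 (by
      intro b hb
      rw [← mul_sum, mul_comm]
      refine mul_le_mul_of_nonneg_right ?_ (S.iv_pos _).le
      refine (S.q_row b n' r hF').trans ?_
      rw [(mem_powersetCard.1 (hF hb)).2]
      exact mul_le_mul_of_nonneg_right hA S.q_Λ_pos.le) (by
      intro e he
      have hec := (mem_powersetCard.1 (hF' he)).2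
      have e1 : ∑ b ∈ F, S.iv b * S.qG r b e = ∑ b ∈ F, S.iv e * S.qG r' e b := by
        refine sum_congr rfl fun b hb => S.q_sym ?_
        rw [(mem_powersetCard.1 (hF hb)).2, hec, h]
      rw [e1, ← mul_sum, mul_comm]
      refine mul_le_mul_of_nonneg_right ?_ (S.iv_pos _).le
      refine (S.q_row e n r' hF).trans ?_
      rw [hec]
      exact mul_le_mul_of_nonneg_right hB S.q_Λ_pos.le)
  rw [Real.mul_self_sqrt hA0] at h1
  refine le_trans (le_of_eq ?_) h1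
  refine sum_congr rfl fun b _ => ?_
  rw [mul_sum]
  exact sum_congr rfl fun d _ => by ring

lemma q_KB (y : Finset ι → ℂ) {r : ℕ} (hr : r ≤ S.k') :
    ∑ b ∈ S.DD, S.iv b * ‖y b‖ * S.qN y r b ≤ S.D' * S.Λ * S.ny y := by
  have hA : (0 : ℝ) ≤ S.D' * S.Λ := mul_nonneg (by positivity) S.q_Λ_pos.le
  have hrow : ∀ b ∈ S.DD, ∑ d ∈ S.DD, S.iv b * S.qG r b d ≤ S.D' * S.Λ * S.iv b := by
    intro b hb
    rw [← mul_sum, mul_comm]
    refine mul_le_mul_of_nonneg_right ?_ (S.iv_pos _).le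
    refine (S.q_row b S.s r S.q_DD_sub).trans ?_
    rw [S.DD_card b hb]
    exact mul_le_mul_of_nonneg_right (S.q_choose hr) S.q_Λ_pos.le
  have h := schur_test S.DD S.DD (K := fun b d => S.iv b * S.qG r b d) (u := S.iv) (v := S.iv)
    (x := fun b => ‖y b‖) (y := fun d => ‖y d‖)
    (fun b _ d _ => mul_nonneg (S.iv_pos _).le (S.qG_nonneg _ _ _))
    (fun b _ => (S.iv_pos _).le) (fun b _ => (S.iv_pos _).le) hA hA hrow (by
      intro d hd
      refine le_trans (le_of_eq ?_) (hrow d hd)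
      refine sum_congr rfl fun b hb => S.q_sym ?_
      rw [S.DD_card b hb, S.DD_card d hd])
  have hny : 0 ≤ S.ny y := sum_nonneg fun d _ => mul_nonneg (S.iv_pos _).le (by positivity)
  rw [Real.mul_self_sqrt hA] at h
  have e : √(S.ny y) * √(S.ny y) = S.ny y := Real.mul_self_sqrt hny
  unfold ny at e
  rw [e] at h
  refine le_trans (le_of_eq ?_) h
  refine sum_congr rfl fun b _ => ?_
  unfold qN
  rw [mul_sum]
  exact sum_congr rfl fun d _ => by ring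

lemma q_MB (y : Finset ι → ℂ) {r : ℕ} (hr1 : 1 ≤ r) (hr : r ≤ S.k') :
    ∑ b ∈ S.DD, S.iv b * ‖y b‖ * S.qM y (r - 1) b
      ≤ S.D' * S.Λ * (√(S.ny y) * √(S.nB y)) := by
  have hA : (0 : ℝ) ≤ S.D' * S.Λ := mul_nonneg (by positivity) S.q_Λ_pos.le
  have hs := S.q_s_pos
  have hrs := hr.trans S.k'_le
  have h := schur_test S.DD (S.E.powersetCard (S.s - 1))
    (K := fun b e => S.iv b * S.qG (r - 1) b e) (u := S.iv) (v := S.iv)
    (x := fun b => ‖y b‖) (y := fun e => ‖S.qB y e‖)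
    (fun b _ d _ => mul_nonneg (S.iv_pos _).le (S.qG_nonneg _ _ _))
    (fun b _ => (S.iv_pos _).le) (fun b _ => (S.iv_pos _).le) hA hA (by
      intro b hb
      rw [← mul_sum, mul_comm]
      refine mul_le_mul_of_nonneg_right ?_ (S.iv_pos _).le
      refine (S.q_row b (S.s - 1) (r - 1) (Subset.refl _)).trans ?_
      rw [S.DD_card b hb, show S.s - 1 - (r - 1) = S.s - r by omega]
      exact mul_le_mul_of_nonneg_right (S.q_choose hr) S.q_Λ_pos.le) (by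
      intro e he
      have hec := (mem_powersetCard.1 he).2
      have e1 : ∑ b ∈ S.DD, S.iv b * S.qG (r - 1) b e = ∑ b ∈ S.DD, S.iv e * S.qG r e b := by
        refine sum_congr rfl fun b hb => S.q_sym ?_
        rw [S.DD_card b hb, hec]
        omega
      rw [e1, ← mul_sum, mul_comm]
      refine mul_le_mul_of_nonneg_right ?_ (S.iv_pos _).le
      refine (S.q_row e S.s r S.q_DD_sub).trans ?_
      refine mul_le_mul_of_nonneg_right (le_trans ?_ (S.q_choose hr)) S.q_Λ_pos.le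
      rw [hec]
      exact_mod_cast Nat.choose_le_choose _ (Nat.sub_le _ _))
  rw [Real.mul_self_sqrt hA] at h
  refine le_trans (le_of_eq ?_) h
  refine sum_congr rfl fun b _ => ?_
  unfold qM
  rw [mul_sum]
  exact sum_congr rfl fun d _ => by ring

/-- Pairs of `d` and `p ∈ d` are pairs of `e` and `p ∉ e`. -/
lemma q_reidx {DD : Finset (Finset ι)} {n : ℕ} (hD : DD ⊆ S.E.powersetCard n)
    (F : Finset ι → ι → ℂ) :
    ∑ d ∈ DD, ∑ p ∈ d, F (d.erase p) p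
      = ∑ e ∈ S.E.powersetCard (n - 1), ∑ p ∈ S.E \ e,
        if insert p e ∈ DD then F e p else 0 := by
  have hl : ∑ d ∈ DD, ∑ p ∈ d, F (d.erase p) p
      = ∑ p ∈ S.E, ∑ d ∈ DD.filter (fun d => p ∈ d), F (d.erase p) p := by
    refine sum_comm' fun d p => ?_
    simp only [mem_filter]
    constructor
    · rintro ⟨h1, h2⟩
      exact ⟨⟨h1, h2⟩, (mem_powersetCard.1 (hD h1)).1 h2⟩
    · rintro ⟨⟨h1, h2⟩, _⟩
      exact ⟨h1, h2⟩
  have hr : (∑ e ∈ S.E.powersetCard (n - 1), ∑ p ∈ S.E \ e,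
        if insert p e ∈ DD then F e p else 0)
      = ∑ p ∈ S.E, ∑ e ∈ (S.E.powersetCard (n - 1)).filter
          (fun e => p ∉ e ∧ insert p e ∈ DD), F e p := by
    simp_rw [← sum_filter]
    refine sum_comm' fun e p => ?_
    simp only [mem_filter, mem_sdiff]
    tauto
  rw [hl, hr]
  refine sum_congr rfl fun p _ => ?_
  refine sum_nbij' (fun d => d.erase p) (fun e => insert p e) ?_ ?_ ?_ ?_ ?_
  · intro d hd
    obtain ⟨h1, h2⟩ := mem_filter.1 hd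
    refine mem_filter.2 ⟨mem_powersetCard.2 ⟨(erase_subset _ _).trans (mem_powersetCard.1 (hD h1)).1, ?_⟩,
      notMem_erase _ _, ?_⟩
    · rw [card_erase_of_mem h2, (mem_powersetCard.1 (hD h1)).2]
    · rwa [insert_erase h2]
  · intro e he
    obtain ⟨_, _, h3⟩ := mem_filter.1 he
    exact mem_filter.2 ⟨h3, mem_insert_self _ _⟩
  · intro d hd
    exact insert_erase (mem_filter.1 hd).2
  · intro e he
    exact erase_insert (mem_filter.1 he).2.1
  · intro d _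
    rfl

lemma q_one (r : ℕ) (hr : 1 ≤ r) (b d : Finset ι) :
    ∑ p ∈ d, S.qG (r - 1) b (d.erase p) * S.nu p
      = r * S.qG r b d + S.qG (r - 1) b d * ∑ p ∈ d ∩ b, S.nu p := by
  have h1 : ∑ p ∈ d \ b, S.qG (r - 1) b (d.erase p) * S.nu p = r * S.qG r b d := by
    have : ∀ p ∈ d \ b, S.qG (r - 1) b (d.erase p) * S.nu p = S.qG r b d := by
      intro p hp
      have e1 : d.erase p \ b = (d \ b).erase p := erase_sdiff_comm _ _ _
      have e2 := card_erase_of_mem hp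
      have e3 : 0 < (d \ b).card := card_pos.2 ⟨p, hp⟩
      unfold qG
      rw [e1]
      by_cases hh : (d \ b).card = r
      · rw [if_pos hh, if_pos (by omega), mul_comm, ← S.iv_insert (notMem_erase _ _),
          insert_erase hp]
      · rw [if_neg hh, if_neg (by omega), zero_mul]
    rw [sum_congr rfl this, sum_const, nsmul_eq_mul]
    unfold qG
    split_ifs with hh
    · rw [hh]
    · simp
  have h2 : ∑ p ∈ d ∩ b, S.qG (r - 1) b (d.erase p) * S.nu p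
      = S.qG (r - 1) b d * ∑ p ∈ d ∩ b, S.nu p := by
    rw [mul_sum]
    refine sum_congr rfl fun p hp => ?_
    have e1 : d.erase p \ b = d \ b := by
      rw [erase_sdiff_comm, erase_eq_of_notMem]
      exact fun h => (mem_sdiff.1 h).2 (mem_inter.1 hp).2
    unfold qG
    rw [e1]
  rw [← h1, ← h2, ← sum_union (disjoint_sdiff_inter d b), sdiff_union_inter]

lemma q_shellF {DD : Finset (Finset ι)} {n : ℕ} (hD : DD ⊆ S.E.powersetCard n)
    (y : Finset ι → ℂ) {r : ℕ} (hr : 1 ≤ r) (b : Finset ι) :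
    ‖∑ d ∈ DD, (S.qG r b d : ℂ) * y d‖
      ≤ ‖∑ e ∈ S.E.powersetCard (n - 1), (S.qG (r - 1) b e : ℂ) * S.qBF DD y e‖
        + n / S.H0 * ∑ d ∈ DD, S.qG (r - 1) b d * ‖y d‖ := by
  have h := S.q_reidx hD fun e p => (S.qG (r - 1) b e : ℂ) * ((S.nu p : ℂ) * y (insert p e))
  have hl : ∑ d ∈ DD, ∑ p ∈ d,
        (S.qG (r - 1) b (d.erase p) : ℂ) * ((S.nu p : ℂ) * y (insert p (d.erase p)))
      = r * ∑ d ∈ DD, (S.qG r b d : ℂ) * y d
        + ∑ d ∈ DD, ((S.qG (r - 1) b d * ∑ p ∈ d ∩ b, S.nu p : ℝ) : ℂ) * y d := by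
    rw [mul_sum, ← sum_add_distrib]
    refine sum_congr rfl fun d _ => ?_
    have e1 : ∑ p ∈ d,
        (S.qG (r - 1) b (d.erase p) : ℂ) * ((S.nu p : ℂ) * y (insert p (d.erase p)))
        = ((∑ p ∈ d, S.qG (r - 1) b (d.erase p) * S.nu p : ℝ) : ℂ) * y d := by
      push_cast
      rw [sum_mul]
      refine sum_congr rfl fun p hp => ?_
      rw [insert_erase hp]
      ring
    rw [e1, S.q_one r hr]
    push_cast
    ring
  have hrr : (∑ e ∈ S.E.powersetCard (n - 1), ∑ p ∈ S.E \ e,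
        if insert p e ∈ DD then (S.qG (r - 1) b e : ℂ) * ((S.nu p : ℂ) * y (insert p e)) else 0)
      = ∑ e ∈ S.E.powersetCard (n - 1), (S.qG (r - 1) b e : ℂ) * S.qBF DD y e := by
    refine sum_congr rfl fun e _ => ?_
    unfold qBF
    rw [mul_sum]
    refine sum_congr rfl fun p _ => ?_
    split_ifs <;> simp
  rw [hl, hrr] at h
  have n2 : ‖∑ d ∈ DD, ((S.qG (r - 1) b d * ∑ p ∈ d ∩ b, S.nu p : ℝ) : ℂ) * y d‖
      ≤ n / S.H0 * ∑ d ∈ DD, S.qG (r - 1) b d * ‖y d‖ := by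
    refine (norm_sum_le _ _).trans ?_
    rw [mul_sum]
    refine sum_le_sum fun d hd => ?_
    have h0 : 0 ≤ ∑ p ∈ d ∩ b, S.nu p := sum_nonneg fun p _ => (S.nu_pos p).le
    have h1 : ∑ p ∈ d ∩ b, S.nu p ≤ n / S.H0 := by
      calc _ ≤ ∑ p ∈ d, S.nu p :=
            sum_le_sum_of_subset_of_nonneg inter_subset_left fun p _ _ => (S.nu_pos p).le
        _ ≤ ∑ _p ∈ d, S.H0⁻¹ := sum_le_sum fun p hp => S.nu_le ((mem_powersetCard.1 (hD hd)).1 hp)
        _ = n / S.H0 := by rw [sum_const, (mem_powersetCard.1 (hD hd)).2, nsmul_eq_mul, div_eq_mul_inv]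
    have hG := S.qG_nonneg (r - 1) b d
    rw [norm_mul, Complex.norm_real, Real.norm_of_nonneg (mul_nonneg hG h0)]
    calc _ = (∑ p ∈ d ∩ b, S.nu p) * (S.qG (r - 1) b d * ‖y d‖) := by ring
      _ ≤ _ := mul_le_mul_of_nonneg_right h1 (mul_nonneg hG (norm_nonneg _))
  have e : (r : ℂ) * ∑ d ∈ DD, (S.qG r b d : ℂ) * y d
      = ∑ e ∈ S.E.powersetCard (n - 1), (S.qG (r - 1) b e : ℂ) * S.qBF DD y e
        - ∑ d ∈ DD, ((S.qG (r - 1) b d * ∑ p ∈ d ∩ b, S.nu p : ℝ) : ℂ) * y d := by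
    rw [← h]
    ring
  have n3 := norm_sub_le (∑ e ∈ S.E.powersetCard (n - 1), (S.qG (r - 1) b e : ℂ) * S.qBF DD y e)
    (∑ d ∈ DD, ((S.qG (r - 1) b d * ∑ p ∈ d ∩ b, S.nu p : ℝ) : ℂ) * y d)
  rw [← e, norm_mul, Complex.norm_natCast] at n3
  have hr' : (1 : ℝ) ≤ r := by exact_mod_cast hr
  have := norm_nonneg (∑ d ∈ DD, (S.qG r b d : ℂ) * y d)
  nlinarith only [n2, n3, hr', this]

lemma q_shell (y : Finset ι → ℂ) {r : ℕ} (hr : 1 ≤ r) (b : Finset ι) :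
    ‖∑ d ∈ S.DD, (S.qG r b d : ℂ) * y d‖
      ≤ S.qS y (r - 1) b + S.s / S.H0 * S.qN y (r - 1) b :=
  S.q_shellF S.q_DD_sub y hr b

lemma norm_qG_le (F : Finset (Finset ι)) (y : Finset ι → ℂ) (r : ℕ) (b : Finset ι) :
    ‖∑ e ∈ F, (S.qG r b e : ℂ) * y e‖ ≤ ∑ e ∈ F, S.qG r b e * ‖y e‖ := by
  refine (norm_sum_le _ _).trans (le_of_eq ?_)
  refine sum_congr rfl fun e _ => ?_
  rw [norm_mul, Complex.norm_real, Real.norm_of_nonneg (S.qG_nonneg _ _ _)]

lemma qS_le (y : Finset ι → ℂ) (r : ℕ) (b : Finset ι) : S.qS y r b ≤ S.qM y r b :=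
  S.norm_qG_le _ _ _ _

lemma qP_nonneg (U : Finset ι) : 0 ≤ S.qP U :=
  sum_nonneg fun z _ => by
    split_ifs
    · exact S.Pz_nonneg z
    · exact le_rfl

lemma qP_zero {U : Finset ι} (h : S.s + S.k' < U.card) : S.qP U = 0 := by
  refine sum_eq_zero fun z hz => if_neg fun hU => ?_
  have := card_le_card hU
  rw [(mem_powersetCard.1 hz).2] at this
  omega

lemma qP_shell {b d : Finset ι} (hb : b ∈ S.DD) (hd : d ∈ S.DD) {r : ℕ} (hr : r ≤ S.k') :
    |(if (d \ b).card = r then S.qP (d ∪ b) else 0) - S.iv b * S.piC (S.k' - r) * S.qG r b d|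
      ≤ S.iv b * (2 * S.s / S.H0) * S.qG r b d := by
  unfold qG
  by_cases hh : (d \ b).card = r
  · rw [if_pos hh, if_pos hh]
    have hU : d ∪ b ⊆ S.E := union_subset (S.DD_sub d hd) (S.DD_sub b hb)
    have hc : (d ∪ b).card = S.s + r := by
      rw [← card_sdiff_add_card, hh, S.DD_card b hb, add_comm]
    have h := S.Pz_class hU (S.k' - r)
    have e0 : (d ∪ b).card + (S.k' - r) = S.s + S.k' := by omega
    rw [e0] at h
    have e1 : S.iv (d ∪ b) = S.iv b * S.iv (d \ b) := by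
      rw [← S.iv_union disjoint_sdiff, union_sdiff_self_eq_union, union_comm]
    have e2 : ((d ∪ b).card : ℝ) / S.H0 ≤ 2 * S.s / S.H0 := by
      refine div_le_div_of_nonneg_right ?_ S.q_H0_pos.le
      have : (d ∪ b).card ≤ 2 * S.s := by
        have := S.k'_le
        omega
      exact_mod_cast this
    have e3 : S.iv b * S.piC (S.k' - r) * S.iv (d \ b) = S.iv (d ∪ b) * S.piC (S.k' - r) := by
      rw [e1]
      ring
    rw [e3]
    refine h.trans ?_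
    calc _ ≤ S.iv (d ∪ b) * (2 * S.s / S.H0) := mul_le_mul_of_nonneg_left e2 (S.iv_pos _).le
      _ = _ := by rw [e1]; ring
  · simp [hh]

lemma qP_split {b d : Finset ι} (hb : b ∈ S.DD) (hd : d ∈ S.DD) :
    S.qP (d ∪ b) = (if d = b then S.qP b else 0)
      + ∑ r ∈ Icc 1 S.k', if (d \ b).card = r then S.qP (d ∪ b) else 0 := by
  rw [sum_ite_eq]
  by_cases h : d = b
  · subst h
    simp
  · rw [if_neg h, zero_add]
    have h0 : (d \ b).card ≠ 0 := by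
      intro h0
      rw [card_eq_zero, sdiff_eq_empty_iff_subset] at h0
      exact h (eq_of_subset_of_card_le h0 (by rw [S.DD_card d hd, S.DD_card b hb]))
    split_ifs with h1
    · rfl
    · refine S.qP_zero ?_
      rw [← card_sdiff_add_card, S.DD_card b hb]
      rw [mem_Icc] at h1
      omega

lemma q_inner (y : Finset ι → ℂ) {b : Finset ι} (hb : b ∈ S.DD) :
    ‖∑ d ∈ S.DD, (S.qP (d ∪ b) : ℂ) * y d‖ ≤ S.iv b * ‖y b‖ + ∑ r ∈ Icc 1 S.k',
      S.iv b * (S.qS y (r - 1) b + S.s / S.H0 * S.qN y (r - 1) b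
        + 2 * S.s / S.H0 * S.qN y r b) := by
  have e : ∑ d ∈ S.DD, (S.qP (d ∪ b) : ℂ) * y d = (S.qP b : ℂ) * y b + ∑ r ∈ Icc 1 S.k',
      ∑ d ∈ S.DD, ((if (d \ b).card = r then S.qP (d ∪ b) else 0 : ℝ) : ℂ) * y d := by
    rw [sum_comm]
    have : (S.qP b : ℂ) * y b = ∑ d ∈ S.DD, if d = b then (S.qP b : ℂ) * y d else 0 := by
      rw [sum_ite_eq', if_pos hb]
    rw [this, ← sum_add_distrib]
    refine sum_congr rfl fun d hd => ?_
    rw [← sum_mul, ← Complex.ofReal_sum]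
    conv_lhs => rw [S.qP_split hb hd]
    push_cast
    split_ifs <;> simp [add_mul]
  rw [e]
  refine (norm_add_le _ _).trans (add_le_add ?_ ((norm_sum_le _ _).trans (sum_le_sum ?_)))
  · rw [norm_mul, Complex.norm_real, Real.norm_of_nonneg (S.qP_nonneg _)]
    exact mul_le_mul_of_nonneg_right (S.Pz_class_le (S.DD_sub b hb) _) (norm_nonneg _)
  · intro r hr
    obtain ⟨hr1, hr2⟩ := mem_Icc.1 hr
    have e2 : ∑ d ∈ S.DD, ((if (d \ b).card = r then S.qP (d ∪ b) else 0 : ℝ) : ℂ) * y d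
        = ((S.iv b * S.piC (S.k' - r) : ℝ) : ℂ) * ∑ d ∈ S.DD, (S.qG r b d : ℂ) * y d
          + ∑ d ∈ S.DD, (((if (d \ b).card = r then S.qP (d ∪ b) else 0)
            - S.iv b * S.piC (S.k' - r) * S.qG r b d : ℝ) : ℂ) * y d := by
      rw [mul_sum, ← sum_add_distrib]
      refine sum_congr rfl fun d _ => ?_
      push_cast
      ring
    have hiv := (S.iv_pos b).le
    have n1 : ‖((S.iv b * S.piC (S.k' - r) : ℝ) : ℂ) * ∑ d ∈ S.DD, (S.qG r b d : ℂ) * y d‖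
        ≤ S.iv b * (S.qS y (r - 1) b + S.s / S.H0 * S.qN y (r - 1) b) := by
      rw [norm_mul, Complex.norm_real, Real.norm_of_nonneg (mul_nonneg hiv (S.piC_nonneg _))]
      refine mul_le_mul ?_ (S.q_shell y hr1 b) (norm_nonneg _) hiv
      exact mul_le_of_le_one_right hiv (S.piC_le_one _)
    have n2 : ‖∑ d ∈ S.DD, (((if (d \ b).card = r then S.qP (d ∪ b) else 0)
            - S.iv b * S.piC (S.k' - r) * S.qG r b d : ℝ) : ℂ) * y d‖
        ≤ S.iv b * (2 * S.s / S.H0 * S.qN y r b) := by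
      refine (norm_sum_le _ _).trans ?_
      unfold qN
      rw [mul_sum, mul_sum]
      refine sum_le_sum fun d hd => ?_
      rw [norm_mul, Complex.norm_real, Real.norm_eq_abs]
      calc _ ≤ S.iv b * (2 * S.s / S.H0) * S.qG r b d * ‖y d‖ :=
            mul_le_mul_of_nonneg_right (S.qP_shell hb hd hr2) (norm_nonneg _)
        _ = _ := by ring
    rw [e2]
    refine (norm_add_le _ _).trans ?_
    rw [mul_add _ (_ + _)]
    exact add_le_add n1 n2

lemma q_expand (y : Finset ι → ℂ) :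
    (S.Qf y : ℂ) = ∑ b ∈ S.DD, (starRingEnd ℂ) (y b) * ∑ d ∈ S.DD, (S.qP (d ∪ b) : ℂ) * y d := by
  unfold Qf qP
  push_cast
  simp_rw [sum_mul, mul_sum]
  rw [sum_congr rfl fun b _ => sum_comm, sum_comm]
  refine sum_congr rfl fun z _ => ?_
  rw [← Complex.conj_mul', map_sum, sum_mul_sum, mul_sum]
  refine sum_congr rfl fun b _ => ?_
  rw [mul_sum]
  refine sum_congr rfl fun d _ => ?_
  by_cases h1 : b ⊆ z <;> by_cases h2 : d ⊆ z <;> simp [h1, h2, union_subset_iff]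
  ring

theorem Qf_le' (y : Finset ι → ℂ) :
    S.Qf y ≤ 2 * S.ny y
      + ∑ r ∈ Icc 1 S.k', ∑ b ∈ S.DD, S.iv b * ‖y b‖ * S.qS y (r - 1) b := by
  have hny : 0 ≤ S.ny y := sum_nonneg fun d _ => mul_nonneg (S.iv_pos _).le (by positivity)
  have hΛ := S.q_Λ_pos
  have hH := S.q_H0_pos
  have hD : (0 : ℝ) ≤ S.D' := by positivity
  have h1 : S.Qf y ≤ ∑ b ∈ S.DD, ‖y b‖ * ‖∑ d ∈ S.DD, (S.qP (d ∪ b) : ℂ) * y d‖ := by
    calc S.Qf y ≤ ‖(S.Qf y : ℂ)‖ := by
          rw [Complex.norm_real]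
          exact le_abs_self _
      _ ≤ _ := by
          rw [S.q_expand]
          refine (norm_sum_le _ _).trans (le_of_eq ?_)
          exact sum_congr rfl fun b _ => by rw [norm_mul, Complex.norm_conj]
  have h2 : ∑ b ∈ S.DD, ‖y b‖ * ‖∑ d ∈ S.DD, (S.qP (d ∪ b) : ℂ) * y d‖
      ≤ S.ny y + ∑ r ∈ Icc 1 S.k', (∑ b ∈ S.DD, S.iv b * ‖y b‖ * S.qS y (r - 1) b
        + S.s / S.H0 * ∑ b ∈ S.DD, S.iv b * ‖y b‖ * S.qN y (r - 1) b
        + 2 * S.s / S.H0 * ∑ b ∈ S.DD, S.iv b * ‖y b‖ * S.qN y r b) := by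
    simp_rw [mul_sum, ← sum_add_distrib]
    rw [sum_comm]
    unfold ny
    rw [← sum_add_distrib]
    refine sum_le_sum fun b hb => ?_
    refine (mul_le_mul_of_nonneg_left (S.q_inner y hb) (norm_nonneg _)).trans (le_of_eq ?_)
    rw [mul_add, mul_sum]
    congr 1
    · ring
    · exact sum_congr rfl fun r _ => by ring
  have h3 : ∑ r ∈ Icc 1 S.k', (∑ b ∈ S.DD, S.iv b * ‖y b‖ * S.qS y (r - 1) b
        + S.s / S.H0 * ∑ b ∈ S.DD, S.iv b * ‖y b‖ * S.qN y (r - 1) b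
        + 2 * S.s / S.H0 * ∑ b ∈ S.DD, S.iv b * ‖y b‖ * S.qN y r b)
      ≤ ∑ r ∈ Icc 1 S.k', (∑ b ∈ S.DD, S.iv b * ‖y b‖ * S.qS y (r - 1) b
        + 3 * S.s / S.H0 * (S.D' * S.Λ * S.ny y)) := by
    refine sum_le_sum fun r hr => ?_
    obtain ⟨hr1, hr2⟩ := mem_Icc.1 hr
    have a2 := mul_le_mul_of_nonneg_left (S.q_KB y (r := r - 1) (by omega))
      (show (0 : ℝ) ≤ S.s / S.H0 by positivity)
    have a3 := mul_le_mul_of_nonneg_left (S.q_KB y hr2)
      (show (0 : ℝ) ≤ 2 * S.s / S.H0 by positivity)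
    have : 3 * S.s / S.H0 * (S.D' * S.Λ * S.ny y) = S.s / S.H0 * (S.D' * S.Λ * S.ny y)
      + 2 * S.s / S.H0 * (S.D' * S.Λ * S.ny y) := by ring
    linarith only [a2, a3, this]
  rw [sum_add_distrib (f := fun r => ∑ b ∈ S.DD, S.iv b * ‖y b‖ * S.qS y (r - 1) b)
    (g := fun _ => 3 * S.s / S.H0 * (S.D' * S.Λ * S.ny y)), sum_const, Nat.card_Icc,
    add_tsub_cancel_right, nsmul_eq_mul] at h3
  have hk := S.k'_le_Λ
  have hs := S.s_le
  have h5 : (S.k' : ℝ) * (3 * S.s / S.H0 * (S.D' * S.Λ * S.ny y)) ≤ S.ny y := by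
    have hm := S.mono_le_H0 (a := 0) (b := 1) (c := 0) (d := 4) (by norm_num) (by norm_num)
      (by norm_num) (by norm_num)
    have h3Λ : (3 : ℝ) ≤ S.Λ := by
      have := S.big
      linarith only [this]
    have : (S.k' : ℝ) * (3 * S.s) * (S.D' * S.Λ) ≤ S.H0 := by
      calc _ ≤ S.Λ * (S.Λ * S.Λ) * (S.D' * S.Λ) := by gcongr
        _ = _ := by ring
        _ ≤ _ := hm
    calc _ = ((S.k' : ℝ) * (3 * S.s) * (S.D' * S.Λ) / S.H0) * S.ny y := by ring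
      _ ≤ 1 * S.ny y := mul_le_mul_of_nonneg_right ((div_le_one hH).2 this) hny
      _ = _ := one_mul _
  linarith only [h1, h2, h3, h5]

theorem Qf_le (y : Finset ι → ℂ) :
    S.Qf y ≤ 2 * S.ny y + S.Λ ^ 2 * S.D' * (√(S.ny y) * √(S.nB y)) := by
  refine (S.Qf_le' y).trans (add_le_add le_rfl ?_)
  have hΛ := S.q_Λ_pos
  have h3 : ∑ r ∈ Icc 1 S.k', ∑ b ∈ S.DD, S.iv b * ‖y b‖ * S.qS y (r - 1) b
      ≤ ∑ _r ∈ Icc 1 S.k', S.D' * S.Λ * (√(S.ny y) * √(S.nB y)) := by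
    refine sum_le_sum fun r hr => ?_
    obtain ⟨hr1, hr2⟩ := mem_Icc.1 hr
    refine le_trans (sum_le_sum fun b _ => ?_) (S.q_MB y hr1 hr2)
    exact mul_le_mul_of_nonneg_left (S.qS_le y _ b)
      (mul_nonneg (S.iv_pos b).le (norm_nonneg _))
  rw [sum_const, Nat.card_Icc, add_tsub_cancel_right, nsmul_eq_mul] at h3
  refine h3.trans ?_
  calc _ ≤ S.Λ * (S.D' * S.Λ * (√(S.ny y) * √(S.nB y))) :=
        mul_le_mul_of_nonneg_right S.k'_le_Λ (by positivity)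
    _ = _ := by ring

end Sys

end Pool.Agent.Work.MP_d018b2_nt.R
end

-- merged part: Pool.Agent.Work.MP_d018b2_nt.R.SPBox
section
/-! Boxes and their combinations. -/

set_option autoImplicit false
open Finset Pool.Agent.Lib.LargeSieve

namespace Pool.Agent.Work.MP_d018b2_nt.R

open Pool.Agent.Work.MP_678620_nt

namespace Sys

variable {ι : Type} [Fintype ι] [DecidableEq ι] (S : Sys ι)

variable {S} in
lemma SPBox_isBox_mul {F : Finset ι} {K1 K2 K1' K2' : ℕ} {φ φ' : S.G → ℂ}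
    (h : S.IsBox F K1 K2 φ) (h' : S.IsBox F K1' K2' φ') :
    S.IsBox F (K1 + K1') (K2 + K2') fun ξ => φ ξ * φ' ξ := by
  obtain ⟨A, U, hU, hc, hA, hP, he⟩ := h
  obtain ⟨A', U', hU', hc', hA', hP', he'⟩ := h'
  refine ⟨fun i => A i ∩ A' i, U ∪ U', union_subset hU hU',
    (card_union_le _ _).trans (add_le_add hc hc'), fun i hi hu => ?_, fun i hi hf => ?_,
    fun ξ => ?_⟩
  · rw [compl_inter]
    rw [mem_union, not_or] at hu
    exact (card_union_le _ _).trans (add_le_add (hA i hi hu.1) (hA' i hi hu.2))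
  · simp [hP i hi hf, hP' i hi hf]
  · simp only [he, he', mem_inter, forall_and]
    by_cases h1 : ∀ i, ξ i ∈ A i <;> by_cases h2 : ∀ i, ξ i ∈ A' i <;> simp [h1, h2]

variable {S} in
lemma SPBox_isBox_tr {F : Finset ι} {K1 K2 : ℕ} {φ : S.G → ℂ} (h : S.IsBox F K1 K2 φ) (c : S.G) :
    S.IsBox F K1 K2 fun ξ => φ (ξ + c) := by
  obtain ⟨A, U, hU, hc, hA, hP, he⟩ := h
  refine ⟨fun i => univ.filter fun x => x + c i ∈ A i, U, hU, hc, fun i hi hu => ?_,
    fun i hi hf => ?_, fun ξ => ?_⟩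
  · refine le_trans (card_le_card_of_injOn (fun x => x + c i) (fun x hx => ?_)
      fun x _ y _ e => add_right_cancel e) (hA i hi hu)
    simpa using hx
  · simp [hP i hi hf]
  · simp [he]

variable {S} in
lemma SPBox_rep_one {F : Finset ι} {K1 K2 : ℕ} {φ : S.G → ℂ} (h : S.IsBox F K1 K2 φ) :
    S.Rep F K1 K2 1 φ := by
  have := Rep.box (S := S) 1 φ h
  simpa using this

lemma SPBox_mink {f g : S.G → ℂ} {B B' C : ℝ} (hB : 0 ≤ B) (hB' : 0 ≤ B') (hC : 0 ≤ C)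
    (a : S.nn f ≤ B ^ 2 * C) (b : S.nn g ≤ B' ^ 2 * C) :
    S.nn (fun ξ => f ξ + g ξ) ≤ (B + B') ^ 2 * C := by
  have h1 : S.nn (fun ξ => f ξ + g ξ) ≤ S.nn f + 2 * ∑ ξ, ‖f ξ‖ * ‖g ξ‖ + S.nn g := by
    simp only [nn, mul_sum, ← sum_add_distrib]
    refine sum_le_sum fun ξ _ => ?_
    have := pow_le_pow_left₀ (norm_nonneg _) (norm_add_le (f ξ) (g ξ)) 2
    nlinarith only [this]
  have h2 : ∑ ξ, ‖f ξ‖ * ‖g ξ‖ ≤ √(S.nn f) * √(S.nn g) :=
    Real.sum_mul_le_sqrt_mul_sqrt _ _ _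
  have h3 : √(S.nn f) ≤ B * √C := by
    refine (Real.sqrt_le_sqrt a).trans (le_of_eq ?_)
    rw [Real.sqrt_mul (sq_nonneg _), Real.sqrt_sq hB]
  have h4 : √(S.nn g) ≤ B' * √C := by
    refine (Real.sqrt_le_sqrt b).trans (le_of_eq ?_)
    rw [Real.sqrt_mul (sq_nonneg _), Real.sqrt_sq hB']
  have h5 : √(S.nn f) * √(S.nn g) ≤ B * √C * (B' * √C) :=
    mul_le_mul h3 h4 (Real.sqrt_nonneg _) (by positivity)
  have h6 : B * √C * (B' * √C) = B * B' * C := by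
    calc B * √C * (B' * √C) = B * B' * (√C * √C) := by ring
      _ = _ := by rw [Real.mul_self_sqrt hC]
  nlinarith only [a, b, h1, h2, h5, h6]

lemma SPBox_card : (Fintype.card S.G : ℝ) = ∏ i, (S.m i : ℝ) := by
  rw [Fintype.card_pi]
  push_cast
  exact prod_congr rfl fun i _ => by rw [ZMod.card]

lemma SPBox_sum_prod (g : ∀ i, ZMod (S.m i) → ℝ) :
    ∑ η : S.G, ∏ i, g i (η i) = ∏ i, ∑ x, g i x := by
  rw [prod_univ_sum, Fintype.piFinset_univ]

lemma SPBox_Tn_prod (a : ∀ i, ZMod (S.m i) → ℝ) (ξ : S.G) :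
    S.Tn (fun ξ => ((∏ i, a i (ξ i) : ℝ) : ℂ)) ξ =
      ((∏ i, if i ∈ S.E then 2 * a i (ξ i) - S.nu i * ∑ x, a i x else a i (ξ i) : ℝ) : ℂ) := by
  have h1 : ∀ z : Finset ι, S.av z (fun ξ => ((∏ i, a i (ξ i) : ℝ) : ℂ)) ξ =
      ((∏ i, if i ∈ z then S.nu i * ∑ x, a i x else a i (ξ i) : ℝ) : ℂ) := by
    intro z
    have e1 : ∀ η : S.G, ∏ i, a i (z.piecewise η ξ i)
        = ∏ i, (fun i (x : ZMod (S.m i)) => if i ∈ z then a i x else a i (ξ i)) i (η i) := by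
      intro η
      refine prod_congr rfl fun i _ => ?_
      by_cases hi : i ∈ z <;> simp [hi]
    have e2 : (Fintype.card S.G : ℂ) = ((Fintype.card S.G : ℝ) : ℂ) := by norm_cast
    rw [av, e2, ← Complex.ofReal_inv, ← Complex.ofReal_sum, ← Complex.ofReal_mul]
    congr 1
    simp only [e1]
    rw [S.SPBox_sum_prod fun i x => if i ∈ z then a i x else a i (ξ i), S.SPBox_card,
      ← prod_inv_distrib, ← prod_mul_distrib]
    refine prod_congr rfl fun i _ => ?_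
    by_cases hi : i ∈ z
    · simp [hi, nu]
    · have : (S.m i : ℝ) ≠ 0 := Nat.cast_ne_zero.2 (S.m_pos i).ne'
      simp only [hi, if_false, sum_const, card_univ, ZMod.card, nsmul_eq_mul]
      field_simp
  simp only [Tn, h1]
  have h2 : ∀ z ∈ S.E.powerset, (-1 : ℂ) ^ z.card * 2 ^ (S.E \ z).card *
      ((∏ i, if i ∈ z then S.nu i * ∑ x, a i x else a i (ξ i) : ℝ) : ℂ) =
      ((((∏ i ∈ z, -(S.nu i * ∑ x, a i x)) * ∏ i ∈ S.E \ z, 2 * a i (ξ i)) *
        ∏ i ∈ S.Eᶜ, a i (ξ i) : ℝ) : ℂ) := by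
    intro z hz
    have hz' := mem_powerset.1 hz
    have e1 : (∏ i, if i ∈ z then S.nu i * ∑ x, a i x else a i (ξ i)) =
        ((∏ i ∈ z, S.nu i * ∑ x, a i x) * ∏ i ∈ S.E \ z, a i (ξ i)) * ∏ i ∈ S.Eᶜ, a i (ξ i) := by
      rw [← prod_mul_prod_compl S.E, ← prod_sdiff hz', mul_comm (∏ i ∈ S.E \ z, _)]
      congr 1
      · congr 1
        · exact prod_congr rfl fun i hi => if_pos hi
        · exact prod_congr rfl fun i hi => if_neg (mem_sdiff.1 hi).2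
      · exact prod_congr rfl fun i hi => if_neg fun h => (mem_compl.1 hi) (hz' h)
    rw [e1, prod_neg, prod_mul_distrib (s := S.E \ z), prod_const]
    push_cast
    ring
  rw [sum_congr rfl h2, ← Complex.ofReal_sum, ← sum_mul, ← prod_add]
  congr 1
  rw [← prod_mul_prod_compl S.E]
  congr 1
  · exact prod_congr rfl fun i hi => by rw [if_pos hi]; ring
  · exact prod_congr rfl fun i hi => (if_neg (mem_compl.1 hi)).symm

variable {S} in
lemma SPBox_nn_box {F : Finset ι} {K1 K2 : ℕ} {φ : S.G → ℂ} (h : S.IsBox F K1 K2 φ) :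
    S.nn (S.Tn φ) ≤ 4 ^ K1 * Real.exp (4 * K2 * S.L) * Fintype.card S.G := by
  obtain ⟨A, U, hU, hc, hA, -, he⟩ := h
  set a : ∀ i, ZMod (S.m i) → ℝ := fun i x => if x ∈ A i then 1 else 0 with ha
  have e : φ = fun ξ => ((∏ i, a i (ξ i) : ℝ) : ℂ) := by
    funext ξ
    rw [he, ha, Fintype.prod_boole]
    split_ifs <;> simp
  have hs : ∀ i, ∑ x, a i x = (A i).card := fun i => by simp [ha]
  have e2 : S.nn (S.Tn φ) = ∏ i, ∑ x : ZMod (S.m i),
      (if i ∈ S.E then 2 * a i x - S.nu i * (A i).card else a i x) ^ 2 := by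
    rw [← S.SPBox_sum_prod, nn, e]
    refine sum_congr rfl fun ξ _ => ?_
    rw [S.SPBox_Tn_prod, Complex.norm_real, Real.norm_eq_abs, sq_abs, ← prod_pow]
    simp only [hs]
  have hsq : ∀ i x, a i x ^ 2 = a i x := fun i x => by
    simp only [ha]
    split_ifs <;> simp
  have key : ∀ i, ∑ x : ZMod (S.m i),
      (if i ∈ S.E then 2 * a i x - S.nu i * (A i).card else a i x) ^ 2 ≤
      ((if i ∈ U then 4 else 1) * (if i ∈ S.E then Real.exp (4 * K2 * S.nu i) else 1)) *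
        S.m i := by
    intro i
    have hm : (0 : ℝ) < S.m i := Nat.cast_pos.2 (S.m_pos i)
    have hle : ((A i).card : ℝ) + ((A i)ᶜ.card : ℝ) = S.m i := by
      have := card_add_card_compl (A i)
      rw [ZMod.card] at this
      exact_mod_cast this
    have hn0 : (0 : ℝ) ≤ (A i).card := Nat.cast_nonneg _
    have hn1 : (0 : ℝ) ≤ (A i)ᶜ.card := Nat.cast_nonneg _
    by_cases hi : i ∈ S.E
    · simp only [hi, if_true]
      set μ : ℝ := S.nu i * (A i).card with hμ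
      have hmu : ((A i).card : ℝ) = μ * S.m i := by
        rw [hμ, nu]
        field_simp
      have e3 : ∑ x : ZMod (S.m i), (2 * a i x - μ) ^ 2 = (4 * μ - 3 * μ ^ 2) * S.m i := by
        have : ∀ x, (2 * a i x - μ) ^ 2 = (4 - 4 * μ) * a i x + μ ^ 2 := fun x => by
          have := hsq i x
          nlinarith only [this]
        simp only [this, sum_add_distrib, ← mul_sum, hs, sum_const, card_univ, ZMod.card,
          nsmul_eq_mul]
        rw [hmu]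
        ring
      rw [e3]
      refine mul_le_mul_of_nonneg_right ?_ hm.le
      have hx0 : 0 ≤ 4 * K2 * S.nu i := by have := S.nu_pos i; positivity
      have hx := Real.add_one_le_exp (4 * K2 * S.nu i)
      by_cases hu : i ∈ U
      · rw [if_pos hu]
        nlinarith only [hx0, hx, sq_nonneg (μ - 1)]
      · rw [if_neg hu, one_mul]
        have h1 : ((A i)ᶜ.card : ℝ) ≤ K2 := by exact_mod_cast hA i hi hu
        have h2 : 1 - μ ≤ K2 * S.nu i := by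
          have : 1 - μ = ((A i)ᶜ.card : ℝ) * S.nu i := by
            rw [hμ, nu]
            field_simp
            linarith only [hle]
          rw [this]
          exact mul_le_mul_of_nonneg_right h1 (S.nu_pos i).le
        nlinarith only [hx0, hx, h2, sq_nonneg (μ - 1)]
    · have hu : i ∉ U := fun h => hi (hU h)
      simp only [hi, hu, if_false, hsq, hs, one_mul]
      linarith
  rw [e2]
  refine (prod_le_prod (fun i _ => sum_nonneg fun x _ => sq_nonneg _) fun i _ => key i).trans ?_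
  rw [prod_mul_distrib, prod_mul_distrib, ← S.SPBox_card, Fintype.prod_ite_mem,
    Fintype.prod_ite_mem, prod_const, ← Real.exp_sum, ← mul_sum]
  refine mul_le_mul_of_nonneg_right (mul_le_mul_of_nonneg_right
    (pow_le_pow_right₀ (by norm_num) hc) (Real.exp_pos _).le) (Nat.cast_nonneg _)

variable {S} in
lemma Rep.nonneg {F : Finset ι} {K1 K2 : ℕ} {B : ℝ} {φ : S.G → ℂ} (h : S.Rep F K1 K2 B φ) :
    0 ≤ B := by
  induction h with
  | box c φ _ => exact norm_nonneg _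
  | zero => exact le_rfl
  | add _ _ a b => exact add_nonneg a b
  | mono _ h a => exact a.trans h

variable {S} in
lemma Rep.weaken {F F' : Finset ι} {K1 K2 K1' K2' : ℕ} {B : ℝ} {φ : S.G → ℂ}
    (h : S.Rep F K1 K2 B φ) (hF : F ⊆ F') (h1 : K1 ≤ K1') (h2 : K2 ≤ K2') :
    S.Rep F' K1' K2' B φ := by
  induction h with
  | box c φ hb =>
    obtain ⟨A, U, hU, hc, hA, hP, he⟩ := hb
    exact Rep.box c φ ⟨A, U, hU, hc.trans h1, fun i hi hu => (hA i hi hu).trans h2,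
      fun i hi hf => hP i hi fun hh => hf (hF hh), he⟩
  | zero => exact Rep.zero
  | add _ _ a b => exact Rep.add a b
  | mono _ h a => exact Rep.mono a h

variable {S} in
lemma Rep.congr {F : Finset ι} {K1 K2 : ℕ} {B : ℝ} {φ φ' : S.G → ℂ} (h : S.Rep F K1 K2 B φ)
    (he : ∀ ξ, φ ξ = φ' ξ) : S.Rep F K1 K2 B φ' := by
  have : φ = φ' := funext he
  exact this ▸ h

variable {S} in
lemma Rep.smul {F : Finset ι} {K1 K2 : ℕ} {B : ℝ} {φ : S.G → ℂ} (h : S.Rep F K1 K2 B φ) (c : ℂ) :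
    S.Rep F K1 K2 (‖c‖ * B) fun ξ => c * φ ξ := by
  induction h with
  | box c' φ hb =>
    have := Rep.box (S := S) (c * c') φ hb
    rw [norm_mul] at this
    exact this.congr fun ξ => mul_assoc _ _ _
  | zero =>
    rw [mul_zero]
    exact Rep.zero.congr fun ξ => (mul_zero _).symm
  | add _ _ a b =>
    rw [mul_add]
    exact (Rep.add a b).congr fun ξ => (mul_add _ _ _).symm
  | mono _ h a => exact Rep.mono a (mul_le_mul_of_nonneg_left h (norm_nonneg _))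

variable {S} in
lemma Rep.conj {F : Finset ι} {K1 K2 : ℕ} {B : ℝ} {φ : S.G → ℂ} (h : S.Rep F K1 K2 B φ) :
    S.Rep F K1 K2 B fun ξ => (starRingEnd ℂ) (φ ξ) := by
  induction h with
  | box c φ hb =>
    have := Rep.box (S := S) ((starRingEnd ℂ) c) φ hb
    rw [RCLike.norm_conj] at this
    refine this.congr fun ξ => ?_
    obtain ⟨A, U, -, -, -, -, he⟩ := hb
    rw [map_mul, he]
    split_ifs <;> simp
  | zero => exact Rep.zero.congr fun ξ => (map_zero _).symm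
  | add _ _ a b => exact (Rep.add a b).congr fun ξ => (map_add _ _ _).symm
  | mono _ h a => exact Rep.mono a h

variable {S} in
lemma Rep.mul {F : Finset ι} {K1 K2 K1' K2' : ℕ} {B B' : ℝ} {φ φ' : S.G → ℂ}
    (h : S.Rep F K1 K2 B φ) (h' : S.Rep F K1' K2' B' φ') :
    S.Rep F (K1 + K1') (K2 + K2') (B * B') fun ξ => φ ξ * φ' ξ := by
  induction h with
  | box c φ hb =>
    induction h' with
    | box c' φ' hb' =>
      have := Rep.box (S := S) (c * c') _ (SPBox_isBox_mul hb hb')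
      rw [norm_mul] at this
      exact this.congr fun ξ => by ring
    | zero =>
      rw [mul_zero]
      exact Rep.zero.congr fun ξ => (mul_zero _).symm
    | add _ _ a b =>
      rw [mul_add]
      exact (Rep.add a b).congr fun ξ => (mul_add _ _ _).symm
    | mono _ h a => exact Rep.mono a (mul_le_mul_of_nonneg_left h (norm_nonneg _))
  | zero =>
    rw [zero_mul]
    exact Rep.zero.congr fun ξ => (zero_mul _).symm
  | add _ _ a b =>
    rw [add_mul]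
    exact (Rep.add a b).congr fun ξ => (add_mul _ _ _).symm
  | mono _ h a => exact Rep.mono a (mul_le_mul_of_nonneg_right h h'.nonneg)

variable {S} in
lemma Rep.tr {F : Finset ι} {K1 K2 : ℕ} {B : ℝ} {φ : S.G → ℂ} (h : S.Rep F K1 K2 B φ) (c : S.G) :
    S.Rep F K1 K2 B fun ξ => φ (ξ + c) := by
  induction h with
  | box c' φ hb => exact Rep.box c' _ (SPBox_isBox_tr hb c)
  | zero => exact Rep.zero
  | add _ _ a b => exact Rep.add a b
  | mono _ h a => exact Rep.mono a h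

lemma Rep.sum {α : Type*} (s : Finset α) {F : Finset ι} {K1 K2 : ℕ} {B : α → ℝ}
    {φ : α → S.G → ℂ} (h : ∀ i ∈ s, S.Rep F K1 K2 (B i) (φ i)) :
    S.Rep F K1 K2 (∑ i ∈ s, B i) fun ξ => ∑ i ∈ s, φ i ξ := by
  classical
  induction s using Finset.induction_on with
  | empty => simpa using Rep.zero
  | insert a s ha ih =>
    rw [sum_insert ha]
    exact (Rep.add (h a (mem_insert_self _ _))
      (ih fun i hi => h i (mem_insert_of_mem hi))).congr fun ξ => by rw [sum_insert ha]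

lemma rep_const (F : Finset ι) (c : ℂ) : S.Rep F 0 0 ‖c‖ fun _ => c := by
  have hb : S.IsBox F 0 0 fun _ => 1 :=
    ⟨fun _ => univ, ∅, empty_subset _, le_rfl, fun i _ _ => by simp, fun _ _ _ => rfl,
      fun ξ => by simp⟩
  exact (Rep.box c _ hb).congr fun _ => mul_one _

lemma rep_sub {d : Finset ι} (hd : d ⊆ S.E) :
    S.Rep ∅ d.card 0 1 fun ξ => if d ⊆ S.Zs ξ then 1 else 0 := by
  refine SPBox_rep_one ⟨fun i => if i ∈ d then {0} else univ, d, hd, le_rfl, fun i _ hi => by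
    simp [hi], fun i hi _ => if_neg fun h => hi (hd h), fun ξ => ?_⟩
  refine if_congr ⟨fun h i => ?_, fun h i hi => ?_⟩ rfl rfl
  · beta_reduce
    split_ifs with hi
    · exact mem_singleton.2 (S.mem_Zs.1 (h hi)).2
    · exact mem_univ _
  · have := h i
    beta_reduce at this
    rw [if_pos hi] at this
    exact S.mem_Zs.2 ⟨hd hi, mem_singleton.1 this⟩

lemma rep_Zs {Z : Finset ι} (hZ : Z ⊆ S.E) :
    S.Rep ∅ Z.card 1 1 fun ξ => if S.Zs ξ = Z then 1 else 0 := by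
  refine SPBox_rep_one ⟨fun i => if i ∈ Z then {0} else if i ∈ S.E then {0}ᶜ else univ, Z, hZ,
    le_rfl, fun i hE hi => by simp [hi, hE], fun i hi _ => by
      beta_reduce
      rw [if_neg fun h => hi (hZ h), if_neg hi], fun ξ => ?_⟩
  refine if_congr ⟨fun h i => ?_, fun h => ?_⟩ rfl rfl
  · beta_reduce
    split_ifs with hi hE
    · exact mem_singleton.2 (S.mem_Zs.1 (h ▸ hi)).2
    · rw [mem_compl, mem_singleton]
      exact fun h0 => hi (h ▸ S.mem_Zs.2 ⟨hE, h0⟩)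
    · exact mem_univ _
  · ext i
    have := h i
    beta_reduce at this
    constructor
    · intro hi
      by_contra hz
      rw [if_neg hz, if_pos (S.mem_Zs.1 hi).1, mem_compl, mem_singleton] at this
      exact this (S.mem_Zs.1 hi).2
    · intro hi
      rw [if_pos hi] at this
      exact S.mem_Zs.2 ⟨hZ hi, mem_singleton.1 this⟩

/-- Any condition on a zero set of size `j`. -/
lemma rep_class (j : ℕ) (P : Finset ι → Prop) [DecidablePred P] :
    S.Rep ∅ j 1 (S.H1 ^ j) fun ξ => if (S.Zs ξ).card = j ∧ P (S.Zs ξ) then 1 else 0 := by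
  have h := Rep.sum S ((S.E.powersetCard j).filter P) (F := ∅) (K1 := j) (K2 := 1)
    (B := fun _ => 1) (φ := fun Z ξ => if S.Zs ξ = Z then 1 else 0) fun Z hZ => by
      have h2 := mem_powersetCard.1 (mem_filter.1 hZ).1
      exact h2.2 ▸ S.rep_Zs h2.1
  refine (Rep.mono h ?_).congr fun ξ => ?_
  · rw [sum_const, nsmul_eq_mul, mul_one]
    have h1 : ((S.E.powersetCard j).filter P).card ≤ S.E.card ^ j :=
      (card_filter_le _ _).trans (by rw [card_powersetCard]; exact Nat.choose_le_pow _ _)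
    calc (((S.E.powersetCard j).filter P).card : ℝ) ≤ (S.E.card : ℝ) ^ j := by exact_mod_cast h1
      _ ≤ _ := pow_le_pow_left₀ (Nat.cast_nonneg _) S.card_E_le j
  · rw [sum_ite_eq]
    refine if_congr ?_ rfl rfl
    rw [mem_filter, mem_powersetCard]
    exact ⟨fun h => ⟨h.1.2, h.2⟩, fun h => ⟨⟨S.Zs_sub ξ, h.1⟩, h.2⟩⟩

lemma rep_passive {i0 : ι} (hi0 : i0 ∉ S.E) (c : ZMod (S.m i0)) :
    S.Rep {i0} 0 0 1 fun ξ => if ξ i0 = c then 1 else 0 := by
  refine SPBox_rep_one ⟨Function.update (fun _ => univ) i0 {c}, ∅, empty_subset _, le_rfl,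
    fun i hE _ => ?_, fun i _ hi => ?_, fun ξ => ?_⟩
  · have : i ≠ i0 := fun h => hi0 (h ▸ hE)
    simp [Function.update_of_ne this]
  · exact Function.update_of_ne (fun h => hi (mem_singleton.2 h)) _ _
  · refine if_congr ⟨fun h i => ?_, fun h => ?_⟩ rfl rfl
    · by_cases e : i = i0
      · subst e
        simpa using h
      · simp [Function.update_of_ne e]
    · simpa using h i0

theorem nn_Tn_le {F : Finset ι} {K1 K2 : ℕ} {B : ℝ} {φ : S.G → ℂ} (h : S.Rep F K1 K2 B φ) :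
    S.nn (S.Tn φ) ≤ B ^ 2 * (4 ^ K1 * Real.exp (4 * K2 * S.L) * Fintype.card S.G) := by
  set C : ℝ := 4 ^ K1 * Real.exp (4 * K2 * S.L) * Fintype.card S.G with hC
  have hC0 : 0 ≤ C := by positivity
  induction h with
  | box c φ hb =>
    have e : S.Tn (fun ξ => c * φ ξ) = fun ξ => c * S.Tn φ ξ := by
      funext ξ
      simp only [Tn, av, mul_sum]
      exact sum_congr rfl fun z _ => sum_congr rfl fun η _ => by ring
    have e2 : S.nn (fun ξ => c * S.Tn φ ξ) = ‖c‖ ^ 2 * S.nn (S.Tn φ) := by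
      simp only [nn, mul_sum, norm_mul, mul_pow]
    rw [e, e2]
    exact mul_le_mul_of_nonneg_left (SPBox_nn_box hb) (sq_nonneg _)
  | zero => simp [nn, Tn, av]
  | @add B B' φ φ' h1 h2 a b =>
    have e : S.Tn (fun ξ => φ ξ + φ' ξ) = fun ξ => S.Tn φ ξ + S.Tn φ' ξ := by
      funext ξ
      simp only [Tn, av, ← sum_add_distrib, ← mul_add]
    rw [e]
    exact S.SPBox_mink h1.nonneg h2.nonneg hC0 a b
  | mono h1 h a =>
    exact a.trans (mul_le_mul_of_nonneg_right (pow_le_pow_left₀ h1.nonneg h 2) hC0)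

end Sys

end Pool.Agent.Work.MP_d018b2_nt.R
end

-- merged part: Pool.Agent.Work.MP_d018b2_nt.R.SPBad
section
/-! Exceptional pairs. -/

set_option autoImplicit false
open Finset Pool.Agent.Lib.LargeSieve

namespace Pool.Agent.Work.MP_d018b2_nt.R

open Pool.Agent.Work.MP_678620_nt

lemma SPBad_inj {α β : Type*} [DecidableEq β] {s : Finset α} {t : Finset β} {g : α → β}
    (hg : Set.InjOn g s) (hm : ∀ a ∈ s, g a ∈ t) {F : β → ℝ} (hF : ∀ b ∈ t, 0 ≤ F b) :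
    ∑ a ∈ s, F (g a) ≤ ∑ b ∈ t, F b := by
  rw [← sum_image hg]
  exact sum_le_sum_of_subset_of_nonneg (image_subset_iff.2 hm) fun b hb _ => hF b hb

lemma SPBad_union {β : Type*} [DecidableEq β] (A B : Finset β) {F : β → ℝ} (hF : ∀ b, 0 ≤ F b) :
    ∑ b ∈ A ∪ B, F b ≤ ∑ b ∈ A, F b + ∑ b ∈ B, F b := by
  rw [← sum_union_inter]
  exact le_add_of_nonneg_right (sum_nonneg fun b _ => hF b)

lemma SPBad_biU {α β : Type*} [DecidableEq β] (s : Finset α) (t : α → Finset β) {F : β → ℝ}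
    (hF : ∀ b, 0 ≤ F b) : ∑ b ∈ s.biUnion t, F b ≤ ∑ a ∈ s, ∑ b ∈ t a, F b := by
  classical
  induction s using Finset.induction_on with
  | empty => simp
  | insert a s ha ih =>
    rw [biUnion_insert, sum_insert ha]
    exact (SPBad_union _ _ hF).trans (by linarith)

lemma SPBad_mult (Y m : ℕ) (hm : 0 < m) :
    (((Icc (1 : ℤ) Y).filter fun n => (m : ℤ) ∣ n).card : ℝ) ≤ Y * (m : ℝ)⁻¹ := by
  have h : ((Icc (1 : ℤ) Y).filter fun n => (m : ℤ) ∣ n).card ≤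
      ((Ioc 0 Y).filter fun n => m ∣ n).card := by
    refine card_le_card_of_injOn Int.toNat (fun n hn => ?_) fun n hn n' hn' e => ?_
    · obtain ⟨h1, h2⟩ := mem_filter.1 (mem_coe.1 hn)
      rw [mem_Icc] at h1
      refine mem_coe.2 (mem_filter.2 ⟨mem_Ioc.2 ⟨by omega, by omega⟩, ?_⟩)
      rw [← Int.natCast_dvd_natCast, Int.toNat_of_nonneg (by omega)]
      exact h2
    · have h1 := mem_Icc.1 (mem_filter.1 (mem_coe.1 hn)).1
      have h2 := mem_Icc.1 (mem_filter.1 (mem_coe.1 hn')).1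
      omega
  rw [Nat.Ioc_filter_dvd_card_eq_div] at h
  rw [← div_eq_mul_inv]
  exact (Nat.cast_le.2 h).trans Nat.cast_div_le

lemma SPBad_three {α : Type*} [DecidableEq α] {d1 d2 d3 : Finset α} (h12 : d1 ≠ d2)
    (hc : d1.card = d2.card) : ∃ q, q ∈ d1 ∧ q ∉ d2 ∧ (q ∈ d3 ∨ q ∉ d3) := by
  have : ¬ d1 ⊆ d2 := fun h => h12 (eq_of_subset_of_card_le h hc.ge)
  obtain ⟨q, h1, h2⟩ := not_subset.1 this
  exact ⟨q, h1, h2, em _⟩

namespace Sys

variable {ι : Type} [Fintype ι] [DecidableEq ι] (S : Sys ι)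

/-- The subsets of `Z` with `s` or `s - 1` elements. -/
def badW (Z : Finset ι) : Finset (Finset ι) := Z.powersetCard S.s ∪ Z.powersetCard (S.s - 1)

/-- The primes dividing a small nonzero difference. -/
def badP (a b : Finset ι) : Finset ι := S.E.filter fun p => S.pr a ≠ S.pr b ∧ S.pr a ≤ 2 * S.T ∧
  S.pr b ≤ 2 * S.T ∧ (S.pr a : ZMod (S.m p)) = S.pr b

/-- A residue class of primes. -/
def badC (p : ι) (a b : Finset ι) : Finset ι :=
  S.E.filter fun q => p ∉ a ∧ (S.m q : ZMod (S.m p)) * S.pr a = S.pr b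

/-- The primes completing `Z` to a bad set. -/
def badQ (Z : Finset ι) : Finset ι := (S.badW Z ×ˢ S.badW Z ×ˢ S.badW Z).biUnion fun x =>
  (S.badP x.1 x.2.1).biUnion fun p => S.badC p x.1 x.2.2 ∪ S.badC p x.2.2 x.1

lemma bad_H0 : 0 < S.H0 := lt_of_lt_of_le (by norm_num) S.H0_big

lemma bad_Λ : 0 < S.Λ := lt_of_lt_of_le (by norm_num) S.big

lemma card_badW {Z : Finset ι} (hZ : Z.card = S.s + S.k' - 1) : (S.badW Z).card ≤ S.D' := by
  have h1 := S.k_ge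
  have h2 := S.k_le
  refine (card_union_le _ _).trans (le_of_eq ?_)
  obtain ⟨t, ht⟩ : ∃ t, S.s = t + 1 := ⟨S.s - 1, by omega⟩
  rw [card_powersetCard, card_powersetCard, hZ, D', ← Nat.choose_symm_add, ht]
  have e : t + 1 + S.k' = t + S.k' + 1 := by ring
  rw [e, Nat.add_sub_cancel, Nat.add_sub_cancel, Nat.choose_succ_succ', add_comm]

lemma card_badP (a b : Finset ι) : ((S.badP a b).card : ℝ) ≤ S.Λ := by
  rcases (S.badP a b).eq_empty_or_nonempty with h | ⟨p0, h0⟩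
  · rw [h]; simpa using S.bad_Λ.le
  obtain ⟨-, h1, h2, h3, -⟩ := mem_filter.1 h0
  have hE : S.badP a b ⊆ S.E := filter_subset _ _
  have h4 : S.badP a b ⊆ S.Zi ((S.pr a : ℤ) - S.pr b) := fun p hp => by
    obtain ⟨h5, -, -, -, h6⟩ := mem_filter.1 hp
    refine S.mem_Zi.2 ⟨h5, (ZMod.intCast_zmod_eq_zero_iff_dvd _ _).1 ?_⟩
    push_cast
    exact sub_eq_zero.2 h6
  have h1' : (S.pr a : ℤ) ≠ S.pr b := by exact_mod_cast h1
  have h5 := Int.le_of_dvd (abs_pos.2 (sub_ne_zero.2 h1'))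
    ((dvd_abs _ _).2 ((S.sub_Zi hE).1 h4))
  have h6 : (S.pr (S.badP a b) : ℤ) ≤ 4 * S.T := h5.trans (abs_le.2 ⟨by omega, by omega⟩)
  have h7 : (S.pr (S.badP a b) : ℝ) ≤ 4 * S.T := by exact_mod_cast h6
  have h8 : Real.exp 1 ≤ S.H0 := by linarith only [Real.exp_one_lt_d9, S.H0_big]
  have h9 : Real.exp (S.badP a b).card ≤ 4 * S.T := by
    rw [← Real.exp_one_pow]
    exact (pow_le_pow_left₀ (Real.exp_pos 1).le h8 _).trans ((S.H0_pow_le_pr hE).trans h7)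
  have h10 := (Real.le_log_iff_exp_le ((Real.exp_pos _).trans_le h9)).2 h9
  linarith [S.logT]

lemma sum_badC {p : ι} (hp : p ∈ S.E) (a b : Finset ι) :
    ∑ q ∈ S.badC p a b, S.nu q ≤ S.Λ / S.H0 := by
  have hH := S.bad_H0
  have hP := S.m_pos p
  haveI := Fact.mk (S.prime p hp)
  have h1 : (1 : ℝ) ≤ S.H1 := by linarith [S.H0_big, S.H01]
  set F : ℕ → ℝ := fun j => (if j = 0 then 1 else 1 / (j : ℝ)) / S.H0 with hF
  have a1 : ∑ q ∈ S.badC p a b, S.nu q ≤ ∑ q ∈ S.badC p a b, F (S.m q / S.m p) := by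
    refine sum_le_sum fun q hq => ?_
    have hq' := (mem_filter.1 hq).1
    simp only [hF]
    split_ifs with h
    · rw [one_div]; exact S.nu_le hq'
    · have h2 : (0 : ℝ) < (S.m q / S.m p : ℕ) := by exact_mod_cast Nat.pos_of_ne_zero h
      have h3 : ((S.m q / S.m p : ℕ) : ℝ) * S.m p ≤ S.m q := by
        exact_mod_cast Nat.div_mul_le_self _ _
      rw [div_div, one_div, nu]
      refine inv_anti₀ (by positivity) (le_trans ?_ h3)
      gcongr
      exact S.lo p hp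
  have a2 : ∑ q ∈ S.badC p a b, F (S.m q / S.m p) ≤ ∑ j ∈ insert 0 (Icc 1 ⌊S.H1⌋₊), F j := by
    refine SPBad_inj (g := fun q => S.m q / S.m p) (fun q hq q' hq' e => ?_) (fun q hq => ?_)
      fun j _ => ?_
    · obtain ⟨h2, h3, h4⟩ := mem_filter.1 (mem_coe.1 hq)
      obtain ⟨-, -, h5⟩ := mem_filter.1 (mem_coe.1 hq')
      have h6 : (S.pr a : ZMod (S.m p)) ≠ 0 := fun h =>
        h3 ((S.m_dvd_pr hp).1 ((ZMod.natCast_eq_zero_iff _ _).1 h))
      have h7 := (ZMod.natCast_eq_natCast_iff' _ _ _).1 (mul_right_cancel₀ h6 (h4.trans h5.symm))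
      refine S.m_inj h2 ?_
      rw [← Nat.div_add_mod (S.m q) (S.m p), ← Nat.div_add_mod (S.m q') (S.m p), h7]
      exact congrArg (fun x => S.m p * x + S.m q' % S.m p) e
    · have h2 : S.m q ≤ ⌊S.H1⌋₊ := Nat.le_floor (S.hi q (mem_filter.1 hq).1)
      have h3 := Nat.div_le_self (S.m q) (S.m p)
      rw [mem_insert, mem_Icc]
      generalize S.m q / S.m p = x at h3 ⊢
      omega
    · simp only [hF]
      split_ifs <;> positivity
  have a3 : ∑ j ∈ insert 0 (Icc 1 ⌊S.H1⌋₊), F j = (1 + HH ⌊S.H1⌋₊) / S.H0 := by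
    rw [sum_insert (by simp), add_div, HH, sum_div]
    refine congrArg₂ _ (by simp [hF]) (sum_congr rfl fun j hj => ?_)
    have := (mem_Icc.1 hj).1
    simp only [hF]
    rw [if_neg (by omega)]
  have a4 : Real.log ⌊S.H1⌋₊ ≤ Real.log S.H1 :=
    Real.log_le_log (by exact_mod_cast Nat.floor_pos.2 h1) (Nat.floor_le (by linarith only [h1]))
  refine a1.trans (a2.trans (a3.le.trans ?_))
  gcongr
  linarith only [a4, HH_le ⌊S.H1⌋₊, S.logH]

lemma sum_badQ {Z : Finset ι} (hZ : Z.card = S.s + S.k' - 1) :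
    ∑ q ∈ S.badQ Z, S.nu q ≤ 2 * (S.D' : ℝ) ^ 3 * S.Λ ^ 2 / S.H0 := by
  have hH := S.bad_H0
  have hΛ := S.bad_Λ
  have hν : ∀ q, 0 ≤ S.nu q := fun q => (S.nu_pos q).le
  have a1 : ∀ x : Finset ι × Finset ι × Finset ι, ∑ q ∈ (S.badP x.1 x.2.1).biUnion
      (fun p => S.badC p x.1 x.2.2 ∪ S.badC p x.2.2 x.1), S.nu q ≤ S.Λ * (2 * (S.Λ / S.H0)) := by
    intro x
    refine (SPBad_biU _ _ hν).trans ((sum_le_card_nsmul _ _ (2 * (S.Λ / S.H0)) ?_).trans ?_)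
    · intro p hp
      have hp' := (mem_filter.1 hp).1
      linarith only [SPBad_union (S.badC p x.1 x.2.2) (S.badC p x.2.2 x.1) hν,
        S.sum_badC hp' x.1 x.2.2, S.sum_badC hp' x.2.2 x.1]
    · rw [nsmul_eq_mul]
      gcongr
      exact S.card_badP _ _
  refine (SPBad_biU _ _ hν).trans ((sum_le_card_nsmul _ _ _ fun x _ => a1 x).trans ?_)
  have a2 : ((S.badW Z).card : ℝ) ≤ S.D' := by exact_mod_cast S.card_badW hZ
  rw [nsmul_eq_mul, card_product, card_product]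
  push_cast
  calc ((S.badW Z).card : ℝ) * ((S.badW Z).card * (S.badW Z).card) * (S.Λ * (2 * (S.Λ / S.H0)))
      ≤ (S.D' : ℝ) * (S.D' * S.D') * (S.Λ * (2 * (S.Λ / S.H0))) := by gcongr
    _ = _ := by ring

lemma mem_badW {Z d : Finset ι} (q : ι) (hd : d ∈ S.DD) (h : d ⊆ Z) :
    d.erase q ∈ S.badW (Z.erase q) := by
  have h1 := erase_subset_erase q h
  by_cases hq : q ∈ d
  · exact mem_union_right _ (mem_powersetCard.2 ⟨h1, by rw [card_erase_of_mem hq, S.DD_card d hd]⟩)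
  · exact mem_union_left _ (mem_powersetCard.2 ⟨h1, by rw [erase_eq_of_notMem hq, S.DD_card d hd]⟩)

lemma bad_pr {d : Finset ι} {q : ι} (hq : q ∈ d) : S.pr d = S.m q * S.pr (d.erase q) := by
  rw [← S.pr_insert (notMem_erase q d), insert_erase hq]

lemma exists_badQ {Z : Finset ι} (h : ¬ S.good Z) : ∃ q ∈ Z, q ∈ S.badQ (Z.erase q) := by
  unfold good at h
  push Not at h
  obtain ⟨p, hp, c, hc⟩ := h
  obtain ⟨d1, m1, d2, m2, d3, m3, n12, n13, n23⟩ := two_lt_card.1 hc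
  obtain ⟨a1, b1, c1⟩ := mem_filter.1 m1
  obtain ⟨a2, b2, c2⟩ := mem_filter.1 m2
  obtain ⟨a3, b3, c3⟩ := mem_filter.1 m3
  have np : ∀ d, d ⊆ Z.erase p → p ∉ d := fun d hd h => notMem_erase p Z (hd h)
  have sz : ∀ d, d ⊆ Z.erase p → d ⊆ Z := fun d hd => hd.trans (erase_subset _ _)
  obtain ⟨q, q1, q2, q3 | q3⟩ := SPBad_three (d3 := d3) n12
    ((S.DD_card d1 a1).trans (S.DD_card d2 a2).symm)
  · have hq := S.DD_sub d1 a1 q1
    have e1 := S.bad_pr q1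
    have e3 := S.bad_pr q3
    have hm := S.m_pos q
    haveI := Fact.mk (S.prime p hp)
    have hqp : (S.m q : ZMod (S.m p)) ≠ 0 := fun h => by
      have h1 := (ZMod.natCast_eq_zero_iff _ _).1 h
      exact np d1 b1 ((S.m_dvd_pr hp).1 (e1 ▸ h1.mul_right _))
    refine ⟨q, sz d1 b1 q1, mem_biUnion.2 ⟨(d1.erase q, d3.erase q, d2.erase q),
      mem_product.2 ⟨S.mem_badW q a1 (sz _ b1), mem_product.2
        ⟨S.mem_badW q a3 (sz _ b3), S.mem_badW q a2 (sz _ b2)⟩⟩,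
      mem_biUnion.2 ⟨p, mem_filter.2 ⟨hp, fun h => ?_, ?_, ?_, ?_⟩, mem_union_left _
        (mem_filter.2 ⟨hq, fun h => np d1 b1 (mem_of_mem_erase h), ?_⟩)⟩⟩⟩
    · exact n13 (S.pr_inj (S.DD_sub _ a1) (S.DD_sub _ a3) (by rw [e1, e3]; exact congrArg _ h))
    · exact (Nat.le_mul_of_pos_left _ hm).trans (e1 ▸ S.DD_hi d1 a1)
    · exact (Nat.le_mul_of_pos_left _ hm).trans (e3 ▸ S.DD_hi d3 a3)
    · refine mul_left_cancel₀ hqp ?_
      rw [← Nat.cast_mul, ← Nat.cast_mul, ← e1, ← e3, c1, c3]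
    · rw [← Nat.cast_mul, ← e1, erase_eq_of_notMem q2, c1, c2]
  · have hq := S.DD_sub d1 a1 q1
    have e1 := S.bad_pr q1
    refine ⟨q, sz d1 b1 q1, mem_biUnion.2 ⟨(d2.erase q, d3.erase q, d1.erase q),
      mem_product.2 ⟨S.mem_badW q a2 (sz _ b2), mem_product.2
        ⟨S.mem_badW q a3 (sz _ b3), S.mem_badW q a1 (sz _ b1)⟩⟩,
      mem_biUnion.2 ⟨p, mem_filter.2 ⟨hp, ?_⟩, mem_union_right _
        (mem_filter.2 ⟨hq, fun h => np d1 b1 (mem_of_mem_erase h), ?_⟩)⟩⟩⟩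
    · simp only [erase_eq_of_notMem q2, erase_eq_of_notMem q3]
      exact ⟨fun h => n23 (S.pr_inj (S.DD_sub _ a2) (S.DD_sub _ a3) h), S.DD_hi d2 a2,
        S.DD_hi d3 a3, c2.trans c3.symm⟩
    · rw [← Nat.cast_mul, ← e1, erase_eq_of_notMem q2, c1, c2]

/-- The weight of a completion. -/
noncomputable def badF (q : ι) (Z : Finset ι) : ℝ := if q ∈ S.badQ Z then S.nu q * S.iv Z else 0

lemma badF_nonneg (q : ι) (Z : Finset ι) : 0 ≤ S.badF q Z := by
  unfold badF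
  split_ifs
  · exact (mul_pos (S.nu_pos q) (S.iv_pos Z)).le
  · exact le_rfl

lemma bad_step1 {Z : Finset ι} (h1 : Z ⊆ S.E) (h2 : ¬ S.good Z) :
    S.iv Z ≤ ∑ q ∈ S.E, if q ∈ Z then S.badF q (Z.erase q) else 0 := by
  obtain ⟨q, h3, h4⟩ := S.exists_badQ h2
  have h5 : S.iv Z = S.badF q (Z.erase q) := by
    rw [badF, if_pos h4, ← S.iv_insert (notMem_erase q Z), insert_erase h3]
  rw [← sum_filter, h5]
  exact single_le_sum (f := fun q => S.badF q (Z.erase q)) (fun q _ => S.badF_nonneg _ _)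
    (mem_filter.2 ⟨h1 h3, h3⟩)

lemma bad_step2 {B : Finset (Finset ι)} {n : ℕ} (hB : B ⊆ S.E.powersetCard n) (q : ι) :
    (∑ Z ∈ B, if q ∈ Z then S.badF q (Z.erase q) else 0) ≤
      ∑ Z ∈ S.E.powersetCard (n - 1), S.badF q Z := by
  rw [← sum_filter]
  refine SPBad_inj (g := fun Z : Finset ι => Z.erase q) (F := S.badF q)
    (fun Z hZ Z' hZ' e => ?_) (fun Z hZ => ?_) fun Z _ => S.badF_nonneg q Z
  · rw [← insert_erase (mem_filter.1 (mem_coe.1 hZ)).2,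
      ← insert_erase (mem_filter.1 (mem_coe.1 hZ')).2]
    exact congrArg _ e
  · obtain ⟨h1, h2⟩ := mem_filter.1 hZ
    obtain ⟨h3, h4⟩ := mem_powersetCard.1 (hB h1)
    exact mem_powersetCard.2 ⟨(erase_subset _ _).trans h3, by rw [card_erase_of_mem h2, h4]⟩

lemma bad_step3 {Z : Finset ι} (hZ : Z.card = S.s + S.k' - 1) :
    ∑ q ∈ S.E, S.badF q Z ≤ 2 * (S.D' : ℝ) ^ 3 * S.Λ ^ 2 / S.H0 * S.iv Z := by
  unfold badF
  rw [← sum_filter, ← sum_mul]
  refine mul_le_mul_of_nonneg_right (le_trans ?_ (S.sum_badQ hZ)) (S.iv_pos Z).le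
  exact sum_le_sum_of_subset_of_nonneg (fun q hq => (mem_filter.1 hq).2)
    fun q _ _ => (S.nu_pos q).le

theorem bad_mass :
    ∑ Z ∈ (S.E.powersetCard (S.s + S.k')).filter (fun Z => ¬ S.good Z), S.iv Z
      ≤ 2 * (S.D' : ℝ) ^ 3 * S.Λ ^ 2 / S.H0 * S.es (S.s + S.k' - 1) := by
  refine (sum_le_sum fun Z hZ =>
    S.bad_step1 (mem_powersetCard.1 (mem_filter.1 hZ).1).1 (mem_filter.1 hZ).2).trans ?_
  rw [sum_comm]
  refine (sum_le_sum fun q _ => S.bad_step2 (filter_subset _ _) q).trans ?_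
  rw [sum_comm, S.es_eq, mul_sum]
  exact sum_le_sum fun Z hZ => S.bad_step3 (mem_powersetCard.1 hZ).2

lemma bad_first (Y : ℕ) {d : Finset ι} (hd : d ∈ S.DD) :
    (((Icc (1 : ℤ) Y).filter fun n => ∃ p ∈ d, (S.m p : ℤ) ∣ n).card : ℝ) ≤ S.Λ * (Y / S.H0) := by
  have hH := S.bad_H0
  have h1 : ((Icc (1 : ℤ) Y).filter fun n => ∃ p ∈ d, (S.m p : ℤ) ∣ n) ⊆
      d.biUnion fun p => (Icc (1 : ℤ) Y).filter fun n => (S.m p : ℤ) ∣ n := fun n hn => by
    obtain ⟨h2, p, h3, h4⟩ := mem_filter.1 hn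
    exact mem_biUnion.2 ⟨p, h3, mem_filter.2 ⟨h2, h4⟩⟩
  have h2 := (card_le_card h1).trans card_biUnion_le
  refine (Nat.cast_le.2 h2).trans ?_
  push_cast
  refine (sum_le_card_nsmul _ _ (Y / S.H0) fun p hp => ?_).trans ?_
  · refine (SPBad_mult Y _ (S.m_pos p)).trans ?_
    rw [div_eq_mul_inv]
    exact mul_le_mul_of_nonneg_left (S.nu_le (S.DD_sub d hd hp)) (by positivity)
  · rw [nsmul_eq_mul, S.DD_card d hd]
    gcongr
    exact S.s_le

lemma bad_count (Y : ℕ) : (((Icc (1 : ℤ) Y).filter fun y =>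
    (S.Zi y).card = S.s + S.k' ∧ ¬ S.good (S.Zi y)).card : ℝ) ≤
      Y * (2 * (S.D' : ℝ) ^ 3 * S.Λ ^ 2 / S.H0 * S.es (S.s + S.k' - 1)) := by
  have h1 : ((Icc (1 : ℤ) Y).filter fun y => (S.Zi y).card = S.s + S.k' ∧ ¬ S.good (S.Zi y)) ⊆
      ((S.E.powersetCard (S.s + S.k')).filter (fun Z => ¬ S.good Z)).biUnion
        fun Z => (Icc (1 : ℤ) Y).filter fun n => (S.pr Z : ℤ) ∣ n := fun y hy => by
    obtain ⟨h2, h3, h4⟩ := mem_filter.1 hy
    exact mem_biUnion.2 ⟨S.Zi y, mem_filter.2 ⟨mem_powersetCard.2 ⟨S.Zs_sub _, h3⟩, h4⟩,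
      mem_filter.2 ⟨h2, (S.sub_Zi (S.Zs_sub _)).1 Subset.rfl⟩⟩
  have h2 := (card_le_card h1).trans card_biUnion_le
  refine (Nat.cast_le.2 h2).trans ?_
  push_cast
  refine (sum_le_sum fun Z _ => SPBad_mult Y _ (S.pr_pos Z)).trans ?_
  rw [← mul_sum]
  exact mul_le_mul_of_nonneg_left S.bad_mass (by positivity)

theorem Ex_le (N : ℕ) : (S.Ex N : ℝ) ≤ 3 * S.Λ * N * S.DD.card / S.H0
    + 12 * (S.D' : ℝ) ^ 4 * S.Λ ^ 2 / S.H0 * (S.T * N) * S.es (S.s + S.k' - 1) := by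
  set B := (Icc (1 : ℤ) (6 * S.T * N : ℕ)).filter fun y =>
    (S.Zi y).card = S.s + S.k' ∧ ¬ S.good (S.Zi y) with hB
  have h1 : ∀ d ∈ S.DD, ((Icc (1 : ℤ) (3 * N)).filter fun n => (∃ p ∈ d, (S.m p : ℤ) ∣ n) ∨
      ((S.Zi (S.pr d * n)).card = S.s + S.k' ∧ ¬ S.good (S.Zi (S.pr d * n)))).card ≤
      ((Icc (1 : ℤ) (3 * N : ℕ)).filter fun n => ∃ p ∈ d, (S.m p : ℤ) ∣ n).card +
        (B.filter fun y => d ⊆ S.Zi y).card := by
    intro d hd
    rw [filter_or]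
    refine (card_union_le _ _).trans (add_le_add (by push_cast; exact le_rfl) ?_)
    have h0 : (0 : ℤ) < S.pr d := by exact_mod_cast S.pr_pos d
    have h2 : (S.pr d : ℤ) ≤ 2 * S.T := by exact_mod_cast S.DD_hi d hd
    refine card_le_card_of_injOn (fun n => (S.pr d : ℤ) * n) (fun n hn => ?_)
      fun n _ n' _ e => mul_left_cancel₀ h0.ne' e
    obtain ⟨h3, h4⟩ := mem_filter.1 (mem_coe.1 hn)
    rw [mem_Icc] at h3
    refine mem_coe.2 (mem_filter.2 ⟨mem_filter.2 ⟨mem_Icc.2 ⟨by nlinarith only [h0, h3], ?_⟩, h4⟩,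
      (S.sub_Zi (S.DD_sub d hd)).2 (dvd_mul_right _ _)⟩)
    push_cast
    nlinarith only [h3, h2]
  have h2 : ∑ d ∈ S.DD, (B.filter fun y => d ⊆ S.Zi y).card ≤ B.card * S.D' := by
    rw [sum_congr rfl fun d _ => card_filter _ B, sum_comm]
    refine sum_le_card_nsmul _ _ S.D' fun y hy => ?_
    rw [← card_filter]
    exact S.card_DD_sub (mem_filter.1 hy).2.1.le
  have h3 : S.Ex N ≤ ∑ d ∈ S.DD,
      ((Icc (1 : ℤ) (3 * N : ℕ)).filter fun n => ∃ p ∈ d, (S.m p : ℤ) ∣ n).card +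
        B.card * S.D' := by
    refine (sum_le_sum h1).trans ?_
    rw [sum_add_distrib]
    omega
  have h4 := sum_le_card_nsmul _ _ _ fun d hd => S.bad_first (3 * N) hd
  have h5 := mul_le_mul_of_nonneg_right (S.bad_count (6 * S.T * N)) (Nat.cast_nonneg S.D')
  rw [← hB] at h5
  refine (Nat.cast_le.2 h3).trans ?_
  rw [Nat.cast_add, Nat.cast_sum, Nat.cast_mul B.card]
  refine add_le_add (h4.trans (le_of_eq ?_)) (h5.trans (le_of_eq ?_))
  · rw [nsmul_eq_mul]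
    push_cast
    ring
  · push_cast
    ring

end Sys

end Pool.Agent.Work.MP_d018b2_nt.R
end

-- merged part: Pool.Agent.Work.MP_d018b2_nt.R.SPTrans
section
/-! Counting integers in boxes. -/

set_option autoImplicit false
open Finset Pool.Agent.Lib.LargeSieve

namespace Pool.Agent.Work.MP_d018b2_nt.R

open Pool.Agent.Work.MP_678620_nt

lemma SPTrans_prog (a : ℤ) (Y : ℕ) {M : ℕ} (hM : 0 < M) (z : ℤ) :
    |(((Ioc a (a + Y)).filter fun y : ℤ => y ≡ z [ZMOD M]).card : ℝ) - Y / M| ≤ 1 := by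
  have hM' : (0 : ℤ) < M := by exact_mod_cast hM
  have h := Int.Ioc_filter_modEq_card a (a + Y) hM' z
  have hMq : (0 : ℚ) < M := by exact_mod_cast hM
  set u : ℚ := ((a : ℚ) - z) / ((M : ℤ) : ℚ) with hu
  have e : (((a + Y : ℤ) : ℚ) - z) / ((M : ℤ) : ℚ) = u + Y / M := by
    rw [hu]; push_cast; ring
  rw [e] at h
  have hY : (0 : ℚ) ≤ Y / M := by positivity
  have hle : ⌊u⌋ ≤ ⌊u + Y / M⌋ := Int.floor_le_floor (by linarith only [hY])
  rw [max_eq_left (by linarith only [hle])] at h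
  have h1 := Int.floor_le u
  have h2 := Int.lt_floor_add_one u
  have h3 := Int.floor_le (u + Y / M)
  have h4 := Int.lt_floor_add_one (u + Y / M)
  have h5 : ((((Ioc a (a + Y)).filter fun y : ℤ => y ≡ z [ZMOD M]).card : ℤ) : ℚ) =
      (⌊u + Y / M⌋ : ℚ) - ⌊u⌋ := by
    rw [h]; push_cast; ring
  have h6 : |((((Ioc a (a + Y)).filter fun y : ℤ => y ≡ z [ZMOD M]).card : ℕ) : ℚ) - Y / M| ≤ 1 := by
    rw [Int.cast_natCast] at h5
    rw [h5, abs_le]
    constructor <;> linarith only [h1, h4, h2, h3]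
  have h7 := (Rat.cast_le (K := ℝ)).2 h6
  simpa using h7

lemma SPTrans_crt {M m : ℕ} [NeZero m] (h : Nat.Coprime M m) (z : ℤ) (c : ZMod m) :
    ∃ z' : ℤ, ∀ y : ℤ, (y ≡ z [ZMOD M] ∧ (y : ZMod m) = c) ↔ y ≡ z' [ZMOD ((M * m : ℕ) : ℤ)] := by
  have hc : IsCoprime (M : ℤ) (m : ℤ) := Nat.isCoprime_iff_coprime.2 h
  obtain ⟨u, v, huv⟩ := hc
  refine ⟨z * (v * m) + (c.val : ℤ) * (u * M), fun y => ?_⟩
  have e1 : z * (v * m) + (c.val : ℤ) * (u * M) ≡ z [ZMOD M] := by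
    refine Int.ModEq.symm (Int.modEq_iff_dvd.2 ⟨(c.val : ℤ) * u - z * u, ?_⟩)
    linear_combination z * huv
  have e2 : z * (v * m) + (c.val : ℤ) * (u * M) ≡ c.val [ZMOD m] := by
    refine Int.ModEq.symm (Int.modEq_iff_dvd.2 ⟨z * v - (c.val : ℤ) * v, ?_⟩)
    linear_combination (c.val : ℤ) * huv
  have e3 : (y : ZMod m) = c ↔ y ≡ c.val [ZMOD m] := by
    rw [← ZMod.intCast_eq_intCast_iff]
    simp
  rw [e3, Nat.cast_mul, ← Int.modEq_and_modEq_iff_modEq_mul (by simpa using h)]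
  constructor
  · rintro ⟨h1, h2⟩
    exact ⟨h1.trans e1.symm, h2.trans e2.symm⟩
  · rintro ⟨h1, h2⟩
    exact ⟨h1.trans e1, h2.trans e2⟩

lemma SPTrans_count {ι : Type*} [DecidableEq ι] (m : ι → ℕ) [∀ i, NeZero (m i)]
    (B : ∀ i, Finset (ZMod (m i))) (a : ℤ) (Y : ℕ) (V : Finset ι) :
    (∀ i ∈ V, ∀ j ∈ V, i ≠ j → Nat.Coprime (m i) (m j)) →
    ∀ (M : ℕ), 0 < M → (∀ i ∈ V, Nat.Coprime M (m i)) → ∀ z : ℤ,
    |(((Ioc a (a + Y)).filter fun y : ℤ => y ≡ z [ZMOD M] ∧ ∀ i ∈ V, (y : ZMod (m i)) ∈ B i).card : ℝ)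
        - Y / M * ∏ i ∈ V, ((B i).card : ℝ) / m i| ≤ ∏ i ∈ V, ((B i).card : ℝ) := by
  induction V using Finset.induction_on with
  | empty =>
    intro _ M hM _ z
    simpa using SPTrans_prog a Y hM z
  | insert j V hj ih =>
    intro cop M hM hc z
    have hmj : 0 < m j := Nat.pos_of_ne_zero (NeZero.ne _)
    have hmj' : (0 : ℝ) < m j := by exact_mod_cast hmj
    have hM' : (0 : ℝ) < M := by exact_mod_cast hM
    have e : ((Ioc a (a + Y)).filter fun y : ℤ =>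
          y ≡ z [ZMOD M] ∧ ∀ i ∈ insert j V, (y : ZMod (m i)) ∈ B i).card
        = ∑ c ∈ B j, ((Ioc a (a + Y)).filter fun y : ℤ =>
          (y ≡ z [ZMOD M] ∧ (y : ZMod (m j)) = c) ∧ ∀ i ∈ V, (y : ZMod (m i)) ∈ B i).card := by
      rw [card_eq_sum_card_fiberwise (f := fun y : ℤ => (y : ZMod (m j))) (t := B j)]
      · refine sum_congr rfl fun c hc => ?_
        congr 1
        ext y
        simp only [mem_filter, forall_mem_insert]
        constructor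
        · rintro ⟨⟨h1, h2, -, h4⟩, h5⟩
          exact ⟨h1, ⟨h2, h5⟩, h4⟩
        · rintro ⟨h1, ⟨h2, h5⟩, h4⟩
          exact ⟨⟨h1, h2, h5 ▸ hc, h4⟩, h5⟩
      · intro y hy
        exact (mem_filter.1 hy).2.2 j (mem_insert_self _ _)
    rw [e, prod_insert hj, prod_insert hj]
    push_cast
    have e2 : (Y : ℝ) / M * (((B j).card : ℝ) / m j * ∏ i ∈ V, ((B i).card : ℝ) / m i)
        = ∑ _c ∈ B j, (Y : ℝ) / ((M * m j : ℕ) : ℝ) * ∏ i ∈ V, ((B i).card : ℝ) / m i := by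
      rw [sum_const, nsmul_eq_mul]
      push_cast
      field_simp
    rw [e2, ← sum_sub_distrib]
    refine (abs_sum_le_sum_abs _ _).trans ?_
    rw [← nsmul_eq_mul, ← sum_const]
    refine sum_le_sum fun c _ => ?_
    obtain ⟨z', hz'⟩ := SPTrans_crt (hc j (mem_insert_self _ _)) z c
    simp only [hz']
    refine ih (fun i hi k hk => cop i (mem_insert_of_mem hi) k (mem_insert_of_mem hk)) (M * m j)
      (Nat.mul_pos hM hmj) (fun i hi => ?_) z'
    exact Nat.Coprime.mul_left (hc i (mem_insert_of_mem hi))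
      (cop j (mem_insert_self _ _) i (mem_insert_of_mem hi) (fun h => hj (h ▸ hi)))

lemma SPTrans_count' {ι : Type*} [DecidableEq ι] (m : ι → ℕ) [∀ i, NeZero (m i)]
    (A : ∀ i, Finset (ZMod (m i))) (a : ℤ) (Y : ℕ) {U T : Finset ι} (hd : Disjoint U T)
    (cop : ∀ i ∈ U ∪ T, ∀ j ∈ U ∪ T, i ≠ j → Nat.Coprime (m i) (m j)) :
    |(((Ioc a (a + Y)).filter fun y : ℤ => (∀ i ∈ U, (y : ZMod (m i)) ∈ A i) ∧
          ∀ i ∈ T, (y : ZMod (m i)) ∉ A i).card : ℝ)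
        - Y * (∏ i ∈ U, ((A i).card : ℝ) / m i) * ∏ i ∈ T, ((A i)ᶜ.card : ℝ) / m i|
      ≤ (∏ i ∈ U, (m i : ℝ)) * ∏ i ∈ T, ((A i)ᶜ.card : ℝ) := by
  have h := SPTrans_count m (fun i => if i ∈ U then A i else (A i)ᶜ) a Y (U ∪ T) cop 1 one_pos
    (fun i _ => Nat.coprime_one_left _) 0
  have hT : ∀ i ∈ T, i ∉ U := fun i hi hU => disjoint_left.1 hd hU hi
  rw [prod_union hd, prod_union hd] at h
  have e1 : ∀ f : ∀ i, Finset (ZMod (m i)) → ℝ,
      ∏ i ∈ U, f i (if i ∈ U then A i else (A i)ᶜ) = ∏ i ∈ U, f i (A i) :=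
    fun f => prod_congr rfl fun i hi => by rw [if_pos hi]
  have e2 : ∀ f : ∀ i, Finset (ZMod (m i)) → ℝ,
      ∏ i ∈ T, f i (if i ∈ U then A i else (A i)ᶜ) = ∏ i ∈ T, f i (A i)ᶜ :=
    fun f => prod_congr rfl fun i hi => by rw [if_neg (hT i hi)]
  rw [e1 (fun i s => (s.card : ℝ) / m i), e1 (fun i s => (s.card : ℝ)),
    e2 (fun i s => (s.card : ℝ) / m i), e2 (fun i s => (s.card : ℝ))] at h
  have e3 : ((Ioc a (a + Y)).filter fun y : ℤ => y ≡ 0 [ZMOD ((1 : ℕ) : ℤ)] ∧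
        ∀ i ∈ U ∪ T, (y : ZMod (m i)) ∈ (if i ∈ U then A i else (A i)ᶜ))
      = (Ioc a (a + Y)).filter fun y : ℤ => (∀ i ∈ U, (y : ZMod (m i)) ∈ A i) ∧
          ∀ i ∈ T, (y : ZMod (m i)) ∉ A i := by
    refine filter_congr fun y _ => ?_
    constructor
    · rintro ⟨-, h2⟩
      refine ⟨fun i hi => ?_, fun i hi => ?_⟩
      · have := h2 i (mem_union_left _ hi)
        rwa [if_pos hi] at this
      · have := h2 i (mem_union_right _ hi)
        rwa [if_neg (hT i hi), mem_compl] at this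
    · rintro ⟨h1, h2⟩
      refine ⟨by simp [Int.modEq_one], fun i hi => ?_⟩
      by_cases hU : i ∈ U
      · rw [if_pos hU]; exact h1 i hU
      · rw [if_neg hU, mem_compl]
        exact h2 i ((mem_union.1 hi).resolve_left hU)
  rw [e3] at h
  simp only [Nat.cast_one, div_one] at h
  rw [mul_assoc]
  refine h.trans (mul_le_mul_of_nonneg_right ?_ (prod_nonneg fun i _ => by positivity))
  refine prod_le_prod (fun i _ => by positivity) fun i _ => ?_
  have := card_le_univ (A i)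
  rw [ZMod.card] at this
  exact_mod_cast this

lemma SPTrans_esym {ι : Type*} [DecidableEq ι] {W : Finset ι} {r : ι → ℝ} (hr : ∀ i ∈ W, 0 ≤ r i)
    (J : ℕ) : ∑ T ∈ W.powerset.filter (fun T => T.card ≤ J), ∏ i ∈ T, r i + esym W r (J + 1)
      ≤ (1 + ∑ i ∈ W, r i) ^ (J + 1) := by
  have h := sum_powerset_le_card W (fun i => -r i) J
  have e1 : ∀ T : Finset ι, (-1 : ℝ) ^ T.card * ∏ i ∈ T, -r i = ∏ i ∈ T, r i := by
    intro T
    rw [prod_neg, ← mul_assoc, ← mul_pow]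
    simp
  have e2 : ∀ j, (-1 : ℝ) ^ j * esym W (fun i => -r i) j = esym W r j := by
    intro j
    unfold esym
    rw [mul_sum]
    refine sum_congr rfl fun T hT => ?_
    rw [← (mem_powersetCard.1 hT).2, e1]
  simp only [e1, e2] at h
  rw [h, ← sum_range_succ (fun j => esym W r j), add_comm (1 : ℝ), add_pow]
  refine sum_le_sum fun j hj => ?_
  have hR : 0 ≤ ∑ i ∈ W, r i := sum_nonneg hr
  have h1 := esym_le_pow hr j
  have h2 : (1 : ℝ) ≤ j.factorial := by exact_mod_cast Nat.factorial_pos j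
  have h3 : (1 : ℝ) ≤ (J + 1).choose j := by
    exact_mod_cast Nat.choose_pos (Nat.lt_succ_iff.1 (mem_range.1 hj))
  have h4 : 0 ≤ (∑ i ∈ W, r i) ^ j := by positivity
  have h5 : (∑ i ∈ W, r i) ^ j / j.factorial ≤ (∑ i ∈ W, r i) ^ j := div_le_self h4 h2
  rw [one_pow, mul_one]
  nlinarith only [h1, h5, h3, h4]

lemma SPTrans_fin {x1 x2 x3 x4 x5 Y α β e1 e2 s q t : ℝ} (b1 : |x1 - x2| ≤ x3)
    (b2 : x3 ≤ Y * α * e1 + β * e2) (b3 : |x2 - x4| ≤ β * s) (b4 : |x4 - x5| ≤ Y * α * e1)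
    (b5 : Y * α * e1 ≤ Y * α * q) (b6 : β * (s + e2) ≤ β * t) :
    |x1 - x5| ≤ 2 * Y * α * q + β * t := by
  have c1 := abs_le.1 b1
  have c3 := abs_le.1 b3
  have c4 := abs_le.1 b4
  rw [mul_add] at b6
  rw [abs_le]
  constructor <;> linarith only [b2, b5, b6, c1, c3, c4, c1.1, c1.2, c3.1, c3.2, c4.1, c4.2]

lemma SPTrans_fin2 {Y α β x x' r r' β' : ℝ} (hY : 0 ≤ Y) (J : ℕ) (p1 : 0 ≤ x) (p2 : 0 ≤ r)
    (s1 : x ≤ x') (s2 : r ≤ r') (s3 : α ≤ 1) (s4 : β ≤ β') (s5 : 0 ≤ β') :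
    2 * Y * α * (x ^ (J + 1) / (J + 1).factorial) + β * (1 + r) ^ (J + 1)
      ≤ 2 * Y * (x' ^ (J + 1) / (J + 1).factorial) + β' * (1 + r') ^ (J + 1) := by
  refine add_le_add ?_ ?_
  · refine mul_le_mul ?_ ?_ (by positivity) (by positivity)
    · exact mul_le_of_le_one_right (by positivity) s3
    · gcongr
  · gcongr

/-- Fundamental lemma for product sets with pairwise coprime moduli. -/
theorem box_count {ι : Type*} [DecidableEq ι] (I : Finset ι) (m : ι → ℕ) [∀ i, NeZero (m i)]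
    (cop : ∀ i ∈ I, ∀ j ∈ I, i ≠ j → Nat.Coprime (m i) (m j)) (A : ∀ i, Finset (ZMod (m i)))
    {U : Finset ι} (hU : U ⊆ I) (J : ℕ) (a : ℤ) (Y : ℕ) :
    |(((Ioc a (a + Y)).filter fun y : ℤ => ∀ i ∈ I, (y : ZMod (m i)) ∈ A i).card : ℝ)
        - Y * ∏ i ∈ I, ((A i).card : ℝ) / m i|
      ≤ 2 * Y * (∏ i ∈ U, ((A i).card : ℝ) / m i) *
          ((∑ i ∈ I \ U, ((A i)ᶜ.card : ℝ) / m i) ^ (J + 1) / (J + 1).factorial)
        + (∏ i ∈ U, (m i : ℝ)) * (1 + ∑ i ∈ I \ U, ((A i)ᶜ.card : ℝ)) ^ (J + 1) := by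
  classical
  set W := I \ U with hW
  set ν : ι → ℝ := fun i => ((A i)ᶜ.card : ℝ) / m i with hν
  set r : ι → ℝ := fun i => ((A i)ᶜ.card : ℝ) with hr
  set α : ℝ := ∏ i ∈ U, ((A i).card : ℝ) / m i with hα
  set β : ℝ := ∏ i ∈ U, (m i : ℝ) with hβ
  set X := (Ioc a (a + Y)).filter fun y : ℤ => ∀ i ∈ U, (y : ZMod (m i)) ∈ A i with hX
  set Z : ℤ → Finset ι := fun y => W.filter fun i => (y : ZMod (m i)) ∉ A i with hZ
  set N : Finset ι → ℝ := fun T => ((X.filter fun y => T ⊆ Z y).card : ℝ) with hN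
  have hm : ∀ i, (0 : ℝ) < m i := fun i => by
    exact_mod_cast Nat.pos_of_ne_zero (NeZero.ne (m i))
  have hα0 : 0 ≤ α := prod_nonneg fun i _ => by positivity
  have hβ0 : 0 ≤ β := prod_nonneg fun i _ => by positivity
  have hν0 : ∀ i ∈ W, 0 ≤ ν i := fun i _ => by positivity
  have hr0 : ∀ i ∈ W, 0 ≤ r i := fun i _ => by positivity
  have hcard : ∀ i, ((A i).card : ℝ) + (A i)ᶜ.card = m i := fun i => by
    have := card_add_card_compl (A i)
    rw [ZMod.card] at this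
    exact_mod_cast this
  have hν1 : ∀ i ∈ W, ν i ≤ 1 := fun i _ => by
    have := hcard i
    have h0 : (0 : ℝ) ≤ (A i).card := by positivity
    exact (div_le_one (hm i)).2 (by linarith only [this])
  have hNT : ∀ T, T ⊆ W → |N T - Y * α * ∏ i ∈ T, ν i| ≤ β * ∏ i ∈ T, r i := by
    intro T hT
    have hd : Disjoint U T := disjoint_left.2 fun i hi hi' => (mem_sdiff.1 (hT hi')).2 hi
    have hsub : U ∪ T ⊆ I := union_subset hU (hT.trans sdiff_subset)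
    have h := SPTrans_count' m A a Y hd (fun i hi j hj => cop i (hsub hi) j (hsub hj))
    have e : (X.filter fun y => T ⊆ Z y) = (Ioc a (a + Y)).filter fun y : ℤ =>
        (∀ i ∈ U, (y : ZMod (m i)) ∈ A i) ∧ ∀ i ∈ T, (y : ZMod (m i)) ∉ A i := by
      rw [hX, filter_filter]
      refine filter_congr fun y _ => and_congr_right fun _ => ?_
      exact ⟨fun h i hi => (mem_filter.1 (h hi)).2, fun h i hi => mem_filter.2 ⟨hT hi, h i hi⟩⟩
    simp only [hN]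
    rw [e]
    exact h
  have hZW : ∀ y, Z y ⊆ W := fun y => filter_subset _ _
  have e1 : (((Ioc a (a + Y)).filter fun y : ℤ => ∀ i ∈ I, (y : ZMod (m i)) ∈ A i).card : ℝ)
      = ∑ y ∈ X, if Z y = ∅ then (1 : ℝ) else 0 := by
    rw [sum_boole, hX, filter_filter]
    congr 2
    refine filter_congr fun y _ => ?_
    simp only [hZ, filter_eq_empty_iff, not_not]
    constructor
    · intro h
      exact ⟨fun i hi => h i (hU hi), fun i hi => h i (mem_sdiff.1 hi).1⟩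
    · rintro ⟨h1, h2⟩ i hi
      by_cases hiU : i ∈ U
      · exact h1 i hiU
      · exact h2 (mem_sdiff.2 ⟨hi, hiU⟩)
  have e2 : ∑ y ∈ X, ∑ T ∈ (Z y).powerset.filter (fun T => T.card ≤ J), (-1 : ℝ) ^ T.card
      = ∑ T ∈ W.powerset.filter (fun T => T.card ≤ J), (-1 : ℝ) ^ T.card * N T := by
    rw [sum_comm' (t' := W.powerset.filter (fun T => T.card ≤ J))
      (s' := fun T => X.filter fun y => T ⊆ Z y)]
    · refine sum_congr rfl fun T _ => ?_
      rw [sum_const, nsmul_eq_mul, mul_comm]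
    · intro y T
      simp only [mem_filter, mem_powerset]
      constructor
      · rintro ⟨h1, h2, h3⟩
        exact ⟨⟨h1, h2⟩, h2.trans (hZW y), h3⟩
      · rintro ⟨⟨h1, h2⟩, -, h3⟩
        exact ⟨h1, h2, h3⟩
  have e3 : ∑ y ∈ X, (((Z y).powersetCard (J + 1)).card : ℝ)
      = ∑ T ∈ W.powersetCard (J + 1), N T := by
    have : ∀ y, (((Z y).powersetCard (J + 1)).card : ℝ) = ∑ _T ∈ (Z y).powersetCard (J + 1), (1 : ℝ) :=
      fun y => by simp only [sum_const, nsmul_eq_mul, mul_one]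
    simp only [this]
    rw [sum_comm' (t' := W.powersetCard (J + 1)) (s' := fun T => X.filter fun y => T ⊆ Z y)]
    · refine sum_congr rfl fun T _ => ?_
      rw [sum_const, nsmul_eq_mul, mul_one]
    · intro y T
      simp only [mem_filter, mem_powersetCard]
      constructor
      · rintro ⟨h1, h2, h3⟩
        exact ⟨⟨h1, h2⟩, h2.trans (hZW y), h3⟩
      · rintro ⟨⟨h1, h2⟩, -, h3⟩
        exact ⟨h1, h2, h3⟩
  have e4 : ∏ i ∈ I, ((A i).card : ℝ) / m i = α * ∏ i ∈ W, (1 - ν i) := by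
    rw [← prod_sdiff hU, mul_comm]
    congr 1
    refine prod_congr rfl fun i _ => ?_
    have := hcard i
    have := hm i
    simp only [hν]
    field_simp
    linarith
  have b1 : |(∑ y ∈ X, if Z y = ∅ then (1 : ℝ) else 0)
      - ∑ T ∈ W.powerset.filter (fun T => T.card ≤ J), (-1 : ℝ) ^ T.card * N T|
      ≤ ∑ T ∈ W.powersetCard (J + 1), N T := by
    rw [← e2, ← e3, ← sum_sub_distrib]
    exact (abs_sum_le_sum_abs _ _).trans (sum_le_sum fun y _ => bonf_set (Z y) J)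
  have b2 : ∑ T ∈ W.powersetCard (J + 1), N T ≤ Y * α * esym W ν (J + 1) + β * esym W r (J + 1) := by
    unfold esym
    rw [mul_sum, mul_sum, ← sum_add_distrib]
    refine sum_le_sum fun T hT => ?_
    have := (abs_le.1 (hNT T (mem_powersetCard.1 hT).1)).2
    linarith
  have b3 : |∑ T ∈ W.powerset.filter (fun T => T.card ≤ J), (-1 : ℝ) ^ T.card * N T
      - Y * α * ∑ j ∈ range (J + 1), (-1 : ℝ) ^ j * esym W ν j|
      ≤ β * ∑ T ∈ W.powerset.filter (fun T => T.card ≤ J), ∏ i ∈ T, r i := by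
    rw [← sum_powerset_le_card, mul_sum, mul_sum, ← sum_sub_distrib]
    refine (abs_sum_le_sum_abs _ _).trans (sum_le_sum fun T hT => ?_)
    have h := hNT T (mem_powerset.1 (mem_filter.1 hT).1)
    have e : (-1 : ℝ) ^ T.card * N T - Y * α * ((-1) ^ T.card * ∏ i ∈ T, ν i)
        = (-1) ^ T.card * (N T - Y * α * ∏ i ∈ T, ν i) := by ring
    rw [e, abs_mul, abs_neg_one_pow, one_mul]
    exact h
  have hYα : 0 ≤ (Y : ℝ) * α := mul_nonneg (Nat.cast_nonneg _) hα0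
  have b4 : |Y * α * ∑ j ∈ range (J + 1), (-1 : ℝ) ^ j * esym W ν j - Y * (α * ∏ i ∈ W, (1 - ν i))|
      ≤ Y * α * esym W ν (J + 1) := by
    rw [← mul_assoc, ← mul_sub, abs_mul, abs_of_nonneg hYα, abs_sub_comm]
    exact mul_le_mul_of_nonneg_left (bonf_prod W hν0 hν1 J) hYα
  have b5 := mul_le_mul_of_nonneg_left (esym_le_pow hν0 (J + 1)) hYα
  have b6 := mul_le_mul_of_nonneg_left (SPTrans_esym hr0 J) hβ0
  rw [e1, e4]
  exact SPTrans_fin b1 b2 b3 b4 b5 b6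

namespace Sys

variable {ι : Type} [Fintype ι] [DecidableEq ι] (S : Sys ι)

theorem rep_transfer {K1 K2 : ℕ} {B : ℝ} {φ : S.G → ℂ} (h : S.Rep ∅ K1 K2 B φ) (J : ℕ) (a : ℤ)
    (Y : ℕ) :
    ‖∑ y ∈ Ioc a (a + Y), φ (y : S.G) - (Y : ℂ) * ((Fintype.card S.G : ℂ)⁻¹ * ∑ ξ, φ ξ)‖
      ≤ B * (2 * Y * ((K2 * S.L) ^ (J + 1) / (J + 1).factorial)
        + S.H1 ^ K1 * (1 + K2 * S.H1) ^ (J + 1)) := by
  have hH1 : 1 ≤ S.H1 := by
    have := S.H0_big
    have := S.H01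
    have h3 : (1 : ℝ) ≤ 10 ^ 40 := by norm_num
    linarith
  have hL := S.L_nonneg
  have hC : 0 ≤ 2 * Y * ((K2 * S.L) ^ (J + 1) / (J + 1).factorial)
        + S.H1 ^ K1 * (1 + K2 * S.H1) ^ (J + 1) := by positivity
  induction h with
  | box c φ hφ =>
    obtain ⟨A, U, hUE, hUc, hA, hA', hφ⟩ := hφ
    have hb := box_count univ S.m (fun i _ j _ hij => S.cop i j hij) A (subset_univ U) J a Y
    have hm : ∀ i, (0 : ℝ) < S.m i := fun i => by exact_mod_cast S.m_pos i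
    have e1 : ∑ y ∈ Ioc a (a + Y), φ (y : S.G) = ((((Ioc a (a + Y)).filter fun y : ℤ =>
        ∀ i ∈ (univ : Finset ι), (y : ZMod (S.m i)) ∈ A i).card : ℝ) : ℂ) := by
      simp only [hφ]
      rw [sum_boole]
      simp only [mem_univ, forall_const, Complex.ofReal_natCast]
      rfl
    have e2 : (Fintype.card S.G : ℂ)⁻¹ * ∑ ξ, φ ξ = ((∏ i, ((A i).card : ℝ) / S.m i : ℝ) : ℂ) := by
      simp only [hφ]
      rw [sum_boole]
      have : (univ.filter fun ξ : S.G => ∀ i, ξ i ∈ A i) = Fintype.piFinset A := by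
        ext ξ; simp
      rw [this, Fintype.card_piFinset, Fintype.card_pi]
      simp only [ZMod.card]
      push_cast
      rw [prod_div_distrib, div_eq_inv_mul]
    rw [← mul_sum, ← mul_sum, mul_left_comm ((Fintype.card S.G : ℂ)⁻¹), mul_left_comm (Y : ℂ),
      ← mul_sub, norm_mul, e1, e2]
    refine mul_le_mul_of_nonneg_left ?_ (norm_nonneg c)
    rw [← Complex.ofReal_natCast Y, ← Complex.ofReal_mul, ← Complex.ofReal_sub, Complex.norm_real,
      Real.norm_eq_abs]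
    refine le_trans (le_of_eq_of_le (by congr) hb) ?_
    have hz : ∀ i, i ∉ S.E → ((A i)ᶜ.card : ℝ) = 0 := fun i hi => by
      rw [hA' i hi (notMem_empty i)]; simp
    have hsum : ∀ w : ι → ℝ, (∀ i, 0 ≤ w i) →
        ∑ i ∈ univ \ U, ((A i)ᶜ.card : ℝ) * w i ≤ K2 * ∑ i ∈ S.E, w i := by
      intro w hw
      rw [mul_sum, ← sum_subset (s₁ := S.E \ U) (sdiff_subset_sdiff (subset_univ _) le_rfl)]
      · refine le_trans (sum_le_sum fun i hi => ?_)
          (sum_le_sum_of_subset_of_nonneg (sdiff_subset (t := U)) fun i _ _ => by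
            have := hw i; positivity)
        have : ((A i)ᶜ.card : ℝ) ≤ K2 := by
          exact_mod_cast hA i (mem_sdiff.1 hi).1 (mem_sdiff.1 hi).2
        exact mul_le_mul_of_nonneg_right this (hw i)
      · intro i hi hi'
        rw [hz i fun h => hi' (mem_sdiff.2 ⟨h, (mem_sdiff.1 hi).2⟩), zero_mul]
    have s1 : ∑ i ∈ univ \ U, ((A i)ᶜ.card : ℝ) / S.m i ≤ K2 * S.L :=
      hsum S.nu fun i => (S.nu_pos i).le
    have s2 : ∑ i ∈ univ \ U, ((A i)ᶜ.card : ℝ) ≤ K2 * S.H1 := by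
      have := hsum (fun _ => 1) fun _ => zero_le_one
      simp only [mul_one, sum_const, nsmul_eq_mul] at this
      exact this.trans (mul_le_mul_of_nonneg_left S.card_E_le (by positivity))
    have s3 : ∏ i ∈ U, ((A i).card : ℝ) / S.m i ≤ 1 := by
      refine prod_le_one (fun i _ => by positivity) fun i _ => (div_le_one (hm i)).2 ?_
      have := card_le_univ (A i)
      rw [ZMod.card] at this
      exact_mod_cast this
    have s4 : ∏ i ∈ U, (S.m i : ℝ) ≤ S.H1 ^ K1 := by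
      have := S.pr_le_H1_pow hUE
      unfold pr at this
      push_cast at this
      exact this.trans (pow_le_pow_right₀ hH1 hUc)
    have p1 : 0 ≤ ∑ i ∈ univ \ U, ((A i)ᶜ.card : ℝ) / S.m i :=
      sum_nonneg fun i _ => div_nonneg (Nat.cast_nonneg _) (Nat.cast_nonneg _)
    have p2 : 0 ≤ ∑ i ∈ univ \ U, ((A i)ᶜ.card : ℝ) := sum_nonneg fun i _ => Nat.cast_nonneg _
    exact SPTrans_fin2 (Nat.cast_nonneg Y) J p1 p2 s1 s2 s3 s4 (pow_nonneg (by linarith only [hH1]) _)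
  | zero => simp
  | add h1 h2 ih1 ih2 =>
    rw [sum_add_distrib, sum_add_distrib, mul_add, mul_add, add_sub_add_comm, add_mul]
    exact (norm_add_le _ _).trans (add_le_add ih1 ih2)
  | mono h1 hB ih => exact ih.trans (mul_le_mul_of_nonneg_right hB hC)

end Sys

end Pool.Agent.Work.MP_d018b2_nt.R
end

-- merged part: Pool.Agent.Work.MP_d018b2_nt.R.SPIter
section
/-! Iterating the core lemma. -/

set_option autoImplicit false
open Finset Pool.Agent.Lib.LargeSieve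

namespace Pool.Agent.Work.MP_d018b2_nt.R

open Pool.Agent.Work.MP_678620_nt

lemma iter_sum_inj {α β : Type*} [Fintype β] [DecidableEq β] (s : Finset α) (φ : α → β)
    (hφ : ∀ a ∈ s, ∀ b ∈ s, φ a = φ b → a = b) (z : α → ℂ) :
    ∑ c, ‖∑ j ∈ s, z j * (if φ j = c then 1 else 0)‖ ^ 2 = ∑ j ∈ s, ‖z j‖ ^ 2 := by
  have h1 : ∀ c, ‖∑ j ∈ s, z j * (if φ j = c then 1 else 0)‖ ^ 2
      = ∑ j ∈ s, if φ j = c then ‖z j‖ ^ 2 else 0 := by
    intro c
    by_cases h : ∃ j0 ∈ s, φ j0 = c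
    · obtain ⟨j0, hj0, hc⟩ := h
      have hne : ∀ b ∈ s, b ≠ j0 → ¬ φ b = c := fun b hb hne hbc =>
        hne (hφ b hb j0 hj0 (hbc.trans hc.symm))
      rw [sum_eq_single_of_mem j0 hj0 (fun b hb hb' => by rw [if_neg (hne b hb hb'), mul_zero]),
        sum_eq_single_of_mem j0 hj0 (fun b hb hb' => by rw [if_neg (hne b hb hb')]),
        if_pos hc, if_pos hc, mul_one]
    · have hne : ∀ b ∈ s, ¬ φ b = c := fun b hb hbc => h ⟨b, hb, hbc⟩
      rw [sum_eq_zero (fun b hb => by rw [if_neg (hne b hb), mul_zero]),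
        sum_eq_zero (fun b hb => by rw [if_neg (hne b hb)])]
      simp
  rw [sum_congr rfl fun c _ => h1 c, sum_comm]
  refine sum_congr rfl fun j _ => ?_
  simp

lemma iter_step {x y v ρ t t' : ℝ} (hρ : 0 ≤ ρ) (hx : 0 ≤ x) (hy : 0 ≤ y) (hv : 0 < v)
    (ht : t ≤ 2 * (x + v)) (ht' : t' ≤ 2 * (y + v)) (h : y ≤ ρ * (√t' * √t)) :
    y + v ≤ (2 * ρ + 1) ^ 2 * (x + v) := by
  have ha : 0 < √(x + v) := Real.sqrt_pos.2 (by linarith)
  have hb : 0 < √(y + v) := Real.sqrt_pos.2 (by linarith)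
  have ha2 : √(x + v) ^ 2 = x + v := Real.sq_sqrt (by linarith)
  have hb2 : √(y + v) ^ 2 = y + v := Real.sq_sqrt (by linarith)
  have h2 : √2 * √2 = 2 := Real.mul_self_sqrt (by norm_num)
  have e1 : √t ≤ √2 * √(x + v) := by
    rw [← Real.sqrt_mul (by norm_num)]; exact Real.sqrt_le_sqrt ht
  have e2 : √t' ≤ √2 * √(y + v) := by
    rw [← Real.sqrt_mul (by norm_num)]; exact Real.sqrt_le_sqrt ht'
  have e3 : √t' * √t ≤ 2 * (√(y + v) * √(x + v)) := by
    calc √t' * √t ≤ (√2 * √(y + v)) * (√2 * √(x + v)) :=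
          mul_le_mul e2 e1 (Real.sqrt_nonneg _) (by positivity)
      _ = (√2 * √2) * (√(y + v) * √(x + v)) := by ring
      _ = _ := by rw [h2]
  have e4 : v ≤ √(y + v) * √(x + v) := by
    have h3 : √v * √v = v := Real.mul_self_sqrt hv.le
    rw [← h3]
    refine mul_le_mul (Real.sqrt_le_sqrt ?_) (Real.sqrt_le_sqrt ?_) (Real.sqrt_nonneg _) ?_
    · rw [h3]; linarith
    · rw [h3]; linarith
    · exact Real.sqrt_nonneg _
  have e5 : √(y + v) * √(y + v) ≤ √(y + v) * ((2 * ρ + 1) * √(x + v)) := by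
    have := mul_le_mul_of_nonneg_left e3 hρ
    nlinarith only [h, hb2, e4, this]
  have e6 : √(y + v) ≤ (2 * ρ + 1) * √(x + v) := le_of_mul_le_mul_left e5 hb
  calc y + v = √(y + v) ^ 2 := hb2.symm
    _ ≤ ((2 * ρ + 1) * √(x + v)) ^ 2 := pow_le_pow_left₀ hb.le e6 2
    _ = _ := by rw [mul_pow, ha2]

namespace Sys

variable {ι : Type} [Fintype ι] [DecidableEq ι] (S : Sys ι)

lemma Kpow_eq_zero (K : S.G → ℤ → ℂ) (n : ℕ) (ξ : S.G) {j : ℤ} (hj : ((n * S.R : ℕ) : ℤ) < |j|) :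
    S.Kpow K n ξ j = 0 := by
  induction n generalizing ξ j with
  | zero =>
    have : j ≠ 0 := by
      rintro rfl
      simp at hj
    simp [Kpow, this]
  | succ n ih =>
    rw [Kpow]
    refine sum_eq_zero fun e he => ?_
    rw [ih, mul_zero]
    rw [mem_Icc] at he
    push_cast at hj ⊢
    rcases abs_cases j with h | h <;> rcases abs_cases (j - e) with h' | h' <;> nlinarith only [he, hj, h, h']

lemma iterate_Xop (K : S.G → ℤ → ℂ) (n : ℕ) (f : S.G → ℂ) (ξ : S.G) :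
    (S.Xop K)^[n] f ξ = ∑ j ∈ Icc (-((n * S.R : ℕ) : ℤ)) (n * S.R : ℕ),
      S.Kpow K n ξ j * f (ξ + (j : S.G)) := by
  induction n generalizing ξ with
  | zero => simp [Kpow]
  | succ n ih =>
    rw [Function.iterate_succ_apply', Xop]
    simp only [Kpow, sum_mul]
    rw [sum_comm]
    refine sum_congr rfl fun e he => ?_
    rw [ih, mul_sum]
    rw [mem_Icc] at he
    symm
    refine sum_bij_ne_zero (fun j _ _ => j - e) ?_ ?_ ?_ ?_
    · intro j _ hne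
      by_contra hcon
      apply hne
      rw [S.Kpow_eq_zero K n _ (j := j - e), mul_zero, zero_mul]
      rw [mem_Icc, ← abs_le] at hcon
      exact not_le.1 hcon
    · intro a _ _ b _ _ h
      linarith
    · intro j hj hne
      refine ⟨j + e, ?_, ?_, by ring⟩
      · rw [mem_Icc] at hj ⊢
        push_cast at hj ⊢
        constructor <;> nlinarith only [he, hj]
      · rw [add_sub_cancel_right, Int.cast_add, add_comm (j : S.G), ← add_assoc, mul_assoc]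
        exact hne
    · intro j _ _
      rw [Int.cast_sub, add_assoc, add_sub_cancel, mul_assoc]

lemma card_Icc_R (r : ℕ) : ((Icc (-(r : ℤ)) r).card : ℝ) = 2 * r + 1 := by
  have h : (Icc (-(r : ℤ)) r).card = 2 * r + 1 := by
    rw [Int.card_Icc]; omega
  rw [h]; push_cast; ring

lemma rep_Xop {F : Finset ι} {K : S.G → ℤ → ℂ} {K1 K2 K1' K2' : ℕ} {B B' : ℝ}
    (hK : ∀ e, S.Rep ∅ K1 K2 B fun ξ => K ξ e) {φ : ℤ → S.G → ℂ}
    (hφ : ∀ e, S.Rep F K1' K2' B' (φ e)) :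
    S.Rep F (K1 + K1') (K2 + K2') ((2 * S.R + 1) * B * B') fun ξ =>
      ∑ e ∈ Icc (-(S.R : ℤ)) S.R, K ξ e * φ e (ξ + (e : S.G)) := by
  have h := Rep.sum S (Icc (-(S.R : ℤ)) S.R) (B := fun _ => B * B')
    (φ := fun e ξ => K ξ e * φ e (ξ + (e : S.G))) (F := F) (K1 := K1 + K1') (K2 := K2 + K2')
    (fun e _ => ((hK e).weaken (empty_subset F) le_rfl le_rfl).mul ((hφ e).tr (e : S.G)))
  rw [sum_const, nsmul_eq_mul, card_Icc_R, ← mul_assoc] at h
  exact h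

lemma rep_Kpow {K : S.G → ℤ → ℂ} {K1 K2 : ℕ} {B : ℝ} (hK : ∀ e, S.Rep ∅ K1 K2 B fun ξ => K ξ e)
    (n : ℕ) (j : ℤ) :
    S.Rep ∅ (n * K1) (n * K2) (((2 * S.R + 1) * B) ^ n) fun ξ => S.Kpow K n ξ j := by
  induction n generalizing j with
  | zero =>
    have h := S.rep_const ∅ (if j = 0 then (1 : ℂ) else 0)
    have h' := Rep.mono h (B' := 1) (by split_ifs <;> simp)
    simpa [Kpow] using h'
  | succ n ih =>
    have h := S.rep_Xop hK (φ := fun e ξ => S.Kpow K n ξ (j - e)) (fun e => ih (j - e))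
    rw [pow_succ']
    exact h.weaken subset_rfl (by rw [Nat.succ_mul]; omega) (by rw [Nat.succ_mul]; omega)

lemma card_fiber (i0 : ι) (c : ZMod (S.m i0)) :
    (S.m i0 : ℝ) * ∑ ξ : S.G, (if ξ i0 = c then (1 : ℝ) else 0) = Fintype.card S.G := by
  have h := S.sum_piecewise {i0} (Pi.single i0 c) (fun _ => (1 : ℝ))
  simp only [sum_const, card_univ, nsmul_eq_mul, mul_one, pr, prod_singleton, mem_singleton,
    forall_eq, Pi.single_eq_same] at h
  exact h.symm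

theorem iter {K : S.G → ℤ → ℂ} {C : S.G → Prop} [DecidablePred C] {K1 K2 : ℕ} {B ρ : ℝ}
    (hB : 1 ≤ B) (hρ : 0 ≤ ρ) (hK : ∀ e, S.Rep ∅ K1 K2 B fun ξ => K ξ e)
    (hC : S.Rep ∅ K1 K2 B fun ξ => if C ξ then 1 else 0)
    (hs : ∀ ξ e, K ξ e ≠ 0 → C ξ ∧ C (ξ + (e : S.G))) {M : ℕ} (hM : 1 ≤ M)
    (hcore : ∀ g f : S.G → ℂ, (∀ ξ, g ξ ≠ 0 → C ξ) → (∀ ξ, f ξ ≠ 0 → C ξ) →
      ‖S.ip g (S.Xop K f)‖ ≤ ρ * (√(S.tn M g) * √(S.tn M f)))
    {i0 : ι} (hi0 : i0 ∉ S.E) {n : ℕ} (hn : 1 ≤ n) (hW : 2 * (n * S.R) < S.m i0)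
    (hMM : S.m i0 * (((2 * S.R + 1) * B) ^ (n + 1)) ^ 2 *
      (4 ^ ((n + 1) * K1) * Real.exp (4 * ((n + 1) * K2 : ℕ) * S.L)) ≤ 4 ^ M) :
    ∑ ξ, S.Psi K n ξ ≤ 2 * (2 * ρ + 1) ^ (2 * n) * Fintype.card S.G := by
  have hW0 : (0 : ℝ) < S.m i0 := by exact_mod_cast S.m_pos i0
  have hN0 : (0 : ℝ) < Fintype.card S.G := by exact_mod_cast Fintype.card_pos
  have hM1 : (1 : ℝ) ≤ M := by exact_mod_cast hM
  have hR0 : (0 : ℝ) ≤ S.R := Nat.cast_nonneg _
  have hX1 : (1 : ℝ) ≤ (2 * S.R + 1) * B := by nlinarith only [hB]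
  set v : ℝ := Fintype.card S.G / S.m i0 with hv
  have hv0 : 0 < v := div_pos hN0 hW0
  have key : ∀ c : ZMod (S.m i0),
      S.nn ((S.Xop K)^[n] fun ξ => if ξ i0 = c then 1 else 0) ≤ (2 * ρ + 1) ^ (2 * n) * (2 * v) := by
    intro c
    set u0 : S.G → ℂ := fun ξ => (if C ξ then 1 else 0) * (if ξ i0 = c then 1 else 0) with hu0
    have hsupp : ∀ i ξ, (S.Xop K)^[i] u0 ξ ≠ 0 → C ξ := by
      intro i ξ h
      cases i with
      | zero =>
        by_contra hc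
        apply h
        simp [hu0, hc]
      | succ i =>
        rw [Function.iterate_succ_apply', Xop] at h
        obtain ⟨e, -, he⟩ := exists_ne_zero_of_sum_ne_zero h
        exact (hs ξ e (left_ne_zero_of_mul he)).1
    have hrep : ∀ i, S.Rep {i0} ((i + 1) * K1) ((i + 1) * K2) (((2 * S.R + 1) * B) ^ (i + 1))
        ((S.Xop K)^[i] u0) := by
      intro i
      induction i with
      | zero =>
        have h := (hC.weaken (empty_subset {i0}) le_rfl le_rfl).mul (S.rep_passive hi0 c)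
        have h' := Rep.mono h (B' := ((2 * S.R + 1) * B) ^ (0 + 1)) (by rw [pow_one]; nlinarith only [hB])
        exact h'.weaken subset_rfl (by omega) (by omega)
      | succ i ih =>
        have h := S.rep_Xop hK (φ := fun _ => (S.Xop K)^[i] u0) (fun _ => ih)
        rw [pow_succ', Function.iterate_succ_apply']
        exact h.weaken subset_rfl (by rw [Nat.succ_mul (i + 1)]; omega)
          (by rw [Nat.succ_mul (i + 1)]; omega)
    have htn : ∀ i ≤ n, S.tn M ((S.Xop K)^[i] u0) ≤ 2 * (S.nn ((S.Xop K)^[i] u0) + v) := by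
      intro i hi
      have h := (hrep i).weaken (K1' := (n + 1) * K1) (K2' := (n + 1) * K2) subset_rfl
        (Nat.mul_le_mul_right _ (by omega)) (Nat.mul_le_mul_right _ (by omega))
      have h' := Rep.mono h (B' := ((2 * S.R + 1) * B) ^ (n + 1))
        (pow_le_pow_right₀ hX1 (by omega))
      have h1 := S.nn_Tn_le h'
      have h2 := S.inf_le_Tn M ((S.Xop K)^[i] u0)
      have h4 : (0 : ℝ) < 4 ^ M := by positivity
      have h3 : S.nn (S.Tn ((S.Xop K)^[i] u0)) / 4 ^ M ≤ v := by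
        rw [hv, div_le_div_iff₀ h4 hW0]
        have h5 := mul_le_mul_of_nonneg_right hMM hN0.le
        have h6 := mul_le_mul_of_nonneg_right h1 hW0.le
        nlinarith only [h5, h6]
      have h7 := S.nn_nonneg ((S.Xop K)^[i] u0)
      have h8 : S.inf ((S.Xop K)^[i] u0) / M ≤ S.nn ((S.Xop K)^[i] u0) + v := by
        rw [div_le_iff₀ (by linarith only [hM1])]
        nlinarith only [h2, h3, hM1, hv0]
      rw [tn]
      linarith only [hv0, h8]
    have hb : ∀ i ≤ n, S.nn ((S.Xop K)^[i] u0) + v ≤ (2 * ρ + 1) ^ (2 * i) * (2 * v) := by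
      intro i
      induction i with
      | zero =>
        intro _
        have h1 : S.nn u0 ≤ ∑ ξ : S.G, (if ξ i0 = c then (1 : ℝ) else 0) := by
          refine sum_le_sum fun ξ _ => ?_
          simp only [hu0]
          split_ifs <;> simp
        have h2 : ∑ ξ : S.G, (if ξ i0 = c then (1 : ℝ) else 0) = v := by
          rw [hv, eq_div_iff hW0.ne', mul_comm]
          exact S.card_fiber i0 c
        simp only [Function.iterate_zero, id, mul_zero, pow_zero, one_mul]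
        linarith only [h1, h2]
      | succ i ih =>
        intro hi
        have h1 := hcore ((S.Xop K)^[i + 1] u0) ((S.Xop K)^[i] u0) (hsupp _) (hsupp _)
        rw [← Function.iterate_succ_apply' (S.Xop K) i u0, S.ip_self, Complex.norm_real,
          Real.norm_of_nonneg (S.nn_nonneg _)] at h1
        have h2 := iter_step hρ (S.nn_nonneg _) (S.nn_nonneg _) hv0 (htn i (by omega))
          (htn (i + 1) hi) h1
        have h3 := mul_le_mul_of_nonneg_left (ih (by omega)) (sq_nonneg (2 * ρ + 1))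
        calc _ ≤ _ := h2
          _ ≤ _ := h3
          _ = _ := by ring
    have he : S.Xop K (fun ξ => if ξ i0 = c then 1 else 0) = S.Xop K u0 := by
      funext ξ
      refine sum_congr rfl fun e _ => ?_
      by_cases h : K ξ e = 0
      · rw [h, zero_mul, zero_mul]
      · simp only [hu0, if_pos (hs ξ e h).2, one_mul]
    obtain ⟨n', rfl⟩ : ∃ n', n = n' + 1 := ⟨n - 1, by omega⟩
    have h := hb (n' + 1) le_rfl
    rw [Function.iterate_succ_apply] at h ⊢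
    rw [he]
    linarith only [hv0, h]
  have hPsi : ∀ ξ, S.Psi K n ξ = ∑ c : ZMod (S.m i0),
      ‖(S.Xop K)^[n] (fun ξ => if ξ i0 = c then 1 else 0) ξ‖ ^ 2 := by
    intro ξ
    simp only [iterate_Xop]
    rw [Psi]
    refine (iter_sum_inj _ (fun j : ℤ => (ξ + (j : S.G)) i0) ?_ _).symm
    intro a ha b hb hab
    rw [mem_Icc] at ha hb
    have h1 : (a : ZMod (S.m i0)) = (b : ZMod (S.m i0)) := add_left_cancel (a := ξ i0) hab
    rw [ZMod.intCast_eq_intCast_iff_dvd_sub] at h1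
    have h2 : (2 * ((n * S.R : ℕ) : ℤ)) < (S.m i0 : ℤ) := by exact_mod_cast hW
    have h3 := Int.eq_zero_of_abs_lt_dvd h1 (by rw [abs_lt]; constructor <;> linarith only [ha, hb, h2])
    linarith only [h3]
  rw [sum_congr rfl fun ξ _ => hPsi ξ, sum_comm]
  calc _ ≤ ∑ _c : ZMod (S.m i0), (2 * ρ + 1) ^ (2 * n) * (2 * v) := sum_le_sum fun c _ => key c
    _ = _ := by
      rw [sum_const, card_univ, ZMod.card, nsmul_eq_mul, hv]
      field_simp

theorem Psi_transfer {K : S.G → ℤ → ℂ} {K1 K2 : ℕ} {B : ℝ}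
    (hK : ∀ e, S.Rep ∅ K1 K2 B fun ξ => K ξ e) (n J : ℕ) (a : ℤ) (Y : ℕ) :
    ∑ y ∈ Ioc a (a + Y), S.Psi K n (y : S.G)
      ≤ Y * ((Fintype.card S.G : ℝ)⁻¹ * ∑ ξ, S.Psi K n ξ)
        + (2 * (n * S.R) + 1) * (((2 * S.R + 1) * B) ^ n) ^ 2 *
          (2 * Y * (((2 * (n * K2) : ℕ) * S.L) ^ (J + 1) / (J + 1).factorial)
            + S.H1 ^ (2 * (n * K1)) * (1 + (2 * (n * K2) : ℕ) * S.H1) ^ (J + 1)) := by
  have key : ∀ j : ℤ, ∑ y ∈ Ioc a (a + Y), ‖S.Kpow K n (y : S.G) j‖ ^ 2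
      ≤ Y * ((Fintype.card S.G : ℝ)⁻¹ * ∑ ξ, ‖S.Kpow K n ξ j‖ ^ 2)
        + (((2 * S.R + 1) * B) ^ n) ^ 2 *
          (2 * Y * (((2 * (n * K2) : ℕ) * S.L) ^ (J + 1) / (J + 1).factorial)
            + S.H1 ^ (2 * (n * K1)) * (1 + (2 * (n * K2) : ℕ) * S.H1) ^ (J + 1)) := by
    intro j
    have h := (S.rep_Kpow hK n j).conj.mul (S.rep_Kpow hK n j)
    have h' := (h.weaken (K1' := 2 * (n * K1)) (K2' := 2 * (n * K2)) subset_rfl (by omega)
      (by omega)).congr (φ' := fun ξ => ((‖S.Kpow K n ξ j‖ ^ 2 : ℝ) : ℂ))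
      (fun ξ => by rw [Complex.conj_mul']; push_cast; rfl)
    have h1 := S.rep_transfer h' J a Y
    rw [← sq] at h1
    have h2 : (∑ y ∈ Ioc a (a + Y), ((‖S.Kpow K n (y : S.G) j‖ ^ 2 : ℝ) : ℂ)
        - (Y : ℂ) * ((Fintype.card S.G : ℂ)⁻¹ * ∑ ξ, ((‖S.Kpow K n ξ j‖ ^ 2 : ℝ) : ℂ)))
        = ((∑ y ∈ Ioc a (a + Y), ‖S.Kpow K n (y : S.G) j‖ ^ 2
          - Y * ((Fintype.card S.G : ℝ)⁻¹ * ∑ ξ, ‖S.Kpow K n ξ j‖ ^ 2) : ℝ) : ℂ) := by
      push_cast; rfl
    rw [h2, Complex.norm_real, Real.norm_eq_abs] at h1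
    have h3 := (abs_le.1 h1).2
    linarith only [h3]
  simp only [Psi]
  rw [sum_comm, sum_comm (s := univ)]
  refine (sum_le_sum fun j _ => key j).trans (le_of_eq ?_)
  rw [sum_add_distrib, sum_const, nsmul_eq_mul, card_Icc_R, ← mul_sum, ← mul_sum]
  push_cast
  ring

end Sys

end Pool.Agent.Work.MP_d018b2_nt.R
end

-- merged part: Pool.Agent.Work.MP_d018b2_nt.R.SPWin
section
/-! Windows. -/

set_option autoImplicit false
open Finset Pool.Agent.Lib.LargeSieve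

namespace Pool.Agent.Work.MP_d018b2_nt.R

open Pool.Agent.Work.MP_678620_nt

namespace Sys

variable {ι : Type} [Fintype ι] [DecidableEq ι] (S : Sys ι)

lemma ext_cast {i0 : ι} {lo hi : ℤ} (u : ℤ → ℂ) {y : ℤ} (h1 : |y - lo| < S.m i0)
    (h2 : |y - hi| < S.m i0) : S.ext lo hi u (y : S.G) = if y ∈ Ioc lo hi then u y else 0 := by
  rw [ext, ← Finset.sum_ite_eq' (Ioc lo hi) y u]
  refine sum_congr rfl fun y' hy' => if_congr ⟨fun e => S.cast_inj (i0 := i0) ?_ e, ?_⟩ rfl rfl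
  · rw [mem_Ioc] at hy'
    rw [abs_lt] at h1 h2 ⊢
    omega
  · rintro rfl
    rfl

lemma ext_ne_zero {lo hi : ℤ} {u : ℤ → ℂ} {ξ : S.G} (h : S.ext lo hi u ξ ≠ 0) :
    ∃ y ∈ Ioc lo hi, (y : S.G) = ξ ∧ u y ≠ 0 := by
  obtain ⟨y, hy, h1⟩ := exists_ne_zero_of_sum_ne_zero h
  by_cases e : (y : S.G) = ξ
  · exact ⟨y, hy, e, by rwa [if_pos e] at h1⟩
  · exact (h1 (if_neg e)).elim

lemma Win_inj {i0 : ι} {lo hi : ℤ} (hW : hi - lo < S.m i0) :
    Set.InjOn (fun y : ℤ => (y : S.G)) (Ioc lo hi : Finset ℤ) := fun y hy y' hy' e => by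
  refine S.cast_inj (i0 := i0) ?_ e
  rw [mem_coe, mem_Ioc] at hy hy'
  rw [abs_lt]
  omega

lemma Win_ext {i0 : ι} {lo hi : ℤ} (hW : hi - lo < S.m i0) (u : ℤ → ℂ) {y : ℤ}
    (hy : y ∈ Ioc lo hi) : S.ext lo hi u (y : S.G) = u y := by
  have h := mem_Ioc.1 hy
  rw [S.ext_cast (i0 := i0) u (by rw [abs_lt]; omega) (by rw [abs_lt]; omega), if_pos hy]

/-- A sum over the group of a function carried by the image of an interval. -/
lemma sum_eq_sum_int {β : Type*} [AddCommMonoid β] {i0 : ι} {lo hi : ℤ} (hW : hi - lo < S.m i0)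
    (Φ : S.G → β) (h : ∀ ξ, Φ ξ ≠ 0 → ∃ y ∈ Ioc lo hi, (y : S.G) = ξ) :
    ∑ ξ, Φ ξ = ∑ y ∈ Ioc lo hi, Φ (y : S.G) := by
  rw [← sum_image (S.Win_inj hW)]
  refine (sum_subset (subset_univ _) fun ξ _ hξ => by_contra fun h' => hξ ?_).symm
  exact mem_image.2 (h ξ h')

lemma sum_int_le {i0 : ι} {lo hi : ℤ} (hW : hi - lo < S.m i0) {Φ : S.G → ℝ} (h : ∀ ξ, 0 ≤ Φ ξ) :
    ∑ y ∈ Ioc lo hi, Φ (y : S.G) ≤ ∑ ξ, Φ ξ := by
  rw [← sum_image (S.Win_inj hW)]
  exact sum_le_sum_of_subset_of_nonneg (subset_univ _) fun ξ _ _ => h ξ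

lemma nn_ext {i0 : ι} {lo hi : ℤ} (hW : hi - lo < S.m i0) (u : ℤ → ℂ) :
    S.nn (S.ext lo hi u) = ∑ y ∈ Ioc lo hi, ‖u y‖ ^ 2 := by
  rw [nn, S.sum_eq_sum_int (lo := lo) (hi := hi) hW]
  · exact sum_congr rfl fun y hy => by rw [S.Win_ext hW u hy]
  · intro ξ hξ
    obtain ⟨y, h1, h2, -⟩ := S.ext_ne_zero (lo := lo) (hi := hi) (u := u) (ξ := ξ) fun e => hξ (by
      rw [e, norm_zero, zero_pow two_ne_zero])
    exact ⟨y, h1, h2⟩

lemma Win_herm {K : S.G → ℤ → ℂ}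
    (herm : ∀ (ξ : S.G) (e : ℤ), K (ξ + (e : S.G)) (-e) = (starRingEnd ℂ) (K ξ e))
    (g f : S.G → ℂ) : S.ip (S.Xop K g) f = S.ip g (S.Xop K f) := by
  simp only [ip, Xop, map_sum, map_mul, sum_mul, mul_sum]
  rw [sum_comm, sum_comm (s := univ)]
  refine sum_nbij' (fun e => -e) (fun e => -e) ?_ ?_ (fun e _ => neg_neg e) (fun e _ => neg_neg e)
    fun e _ => ?_
  · intro e he
    rw [mem_Icc] at he ⊢
    omega
  · intro e he
    rw [mem_Icc] at he ⊢
    omega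
  · rw [← S.sum_add_right (fun ξ => (starRingEnd ℂ) (g ξ) * (K ξ (-e) * f (ξ + ((-e : ℤ) : S.G))))
      (e : S.G)]
    refine sum_congr rfl fun ξ _ => ?_
    rw [herm, Int.cast_neg, add_neg_cancel_right]
    ring

omit [Fintype ι] [DecidableEq ι] in
lemma Win_conv {a : ℕ → ℝ} (h0 : ∀ i, 0 ≤ a i) (h : ∀ i, a (i + 1) ^ 2 ≤ a i * a (i + 2)) (k : ℕ) :
    a 1 ^ (k + 1) ≤ a 0 ^ k * a (k + 1) := by
  have h1 : ∀ i, a 1 * a i ≤ a 0 * a (i + 1) := fun i => by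
    induction i with
    | zero => rw [mul_comm]
    | succ i ih =>
      rcases (h0 (i + 1)).eq_or_lt with e | e
      · rw [← e, mul_zero]
        exact mul_nonneg (h0 _) (h0 _)
      · refine le_of_mul_le_mul_right ?_ e
        have h2 := mul_le_mul_of_nonneg_left (h i) (h0 1)
        have h3 := mul_le_mul_of_nonneg_right ih (h0 (i + 2))
        nlinarith only [h2, h3]
  induction k with
  | zero => simp
  | succ k ih =>
    calc a 1 ^ (k + 1 + 1) = a 1 * a 1 ^ (k + 1) := by ring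
      _ ≤ a 1 * (a 0 ^ k * a (k + 1)) := mul_le_mul_of_nonneg_left ih (h0 1)
      _ = a 0 ^ k * (a 1 * a (k + 1)) := by ring
      _ ≤ a 0 ^ k * (a 0 * a (k + 1 + 1)) :=
        mul_le_mul_of_nonneg_left (h1 _) (pow_nonneg (h0 0) k)
      _ = _ := by ring

/-- Log-convexity of the norms of the iterates of a Hermitian operator. -/
lemma nn_Xop_pow_le {K : S.G → ℤ → ℂ}
    (herm : ∀ (ξ : S.G) (e : ℤ), K (ξ + (e : S.G)) (-e) = (starRingEnd ℂ) (K ξ e)) {n : ℕ} (hn : 1 ≤ n)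
    (u : S.G → ℂ) : S.nn (S.Xop K u) ^ n ≤ S.nn u ^ (n - 1) * S.nn ((S.Xop K)^[n] u) := by
  obtain ⟨k, rfl⟩ : ∃ k, n = k + 1 := ⟨n - 1, by omega⟩
  refine Win_conv (a := fun i => S.nn ((S.Xop K)^[i] u)) (fun i => S.nn_nonneg _) (fun i => ?_) k
  simp only [Function.iterate_succ_apply']
  generalize (S.Xop K)^[i] u = x
  have h1 := S.norm_ip_le x (S.Xop K (S.Xop K x))
  rw [← S.Win_herm herm, S.ip_self, Complex.norm_real, Real.norm_of_nonneg (S.nn_nonneg _),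
    ← Real.sqrt_mul (S.nn_nonneg _)] at h1
  exact (pow_le_pow_left₀ (S.nn_nonneg _) h1 2).trans_eq
    (Real.sq_sqrt (mul_nonneg (S.nn_nonneg _) (S.nn_nonneg _)))

omit [Fintype ι] [DecidableEq ι] in
lemma Win_real {a A b θ Θ : ℝ} {n : ℕ} (hn : 1 ≤ n) (hA : 0 ≤ A) (hb : 0 ≤ b) (hθ : 0 ≤ θ)
    (hΘ : 0 < Θ) (ha : a ≤ A) (h : b ^ n ≤ A ^ (n - 1) * (A * θ)) :
    √a * √b ≤ Θ * A + A / Θ ^ (2 * n - 1) * θ := by
  obtain ⟨k, rfl⟩ : ∃ k, n = k + 1 := ⟨n - 1, by omega⟩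
  refine (mul_le_mul_of_nonneg_right (Real.sqrt_le_sqrt ha) (Real.sqrt_nonneg b)).trans ?_
  obtain ⟨p, p0, rfl⟩ : ∃ p, 0 ≤ p ∧ A = p ^ 2 := ⟨√A, Real.sqrt_nonneg _, (Real.sq_sqrt hA).symm⟩
  obtain ⟨q, q0, rfl⟩ : ∃ q, 0 ≤ q ∧ b = q ^ 2 := ⟨√b, Real.sqrt_nonneg _, (Real.sq_sqrt hb).symm⟩
  rw [Real.sqrt_sq p0, Real.sqrt_sq q0, show 2 * (k + 1) - 1 = 2 * k + 1 by omega]
  rw [Nat.add_sub_cancel] at h
  have h1 : 0 ≤ p ^ 2 / Θ ^ (2 * k + 1) * θ := by positivity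
  have h2 : 0 ≤ Θ * p ^ 2 := by positivity
  rcases le_total q (Θ * p) with h3 | h3
  · nlinarith only [h1, h3, p0, mul_le_mul_of_nonneg_left h3 p0]
  rcases p0.eq_or_lt with rfl | p1
  · rw [zero_mul]
    linarith only [h1]
  have h4 : p * q ≤ p ^ 2 / Θ ^ (2 * k + 1) * θ := by
    rw [div_mul_eq_mul_div, le_div_iff₀ (pow_pos hΘ _)]
    refine le_of_mul_le_mul_right ?_ (pow_pos p1 (2 * k + 1))
    calc p * q * Θ ^ (2 * k + 1) * p ^ (2 * k + 1) = p * q * (Θ * p) ^ (2 * k + 1) := by ring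
      _ ≤ p * q * q ^ (2 * k + 1) :=
        mul_le_mul_of_nonneg_left (pow_le_pow_left₀ (by positivity) h3 _) (by positivity)
      _ = p * (q ^ 2) ^ (k + 1) := by ring
      _ ≤ p * ((p ^ 2) ^ k * (p ^ 2 * θ)) := mul_le_mul_of_nonneg_left h p0
      _ = _ := by ring
  linarith only [h2, h4]

omit [Fintype ι] [DecidableEq ι] in
lemma Win_cnt (s I : Finset ℤ) (a : ℤ) (N : ℕ) {Φ : ℤ → ℝ} (h : ∀ y, 0 ≤ Φ y) :
    ∑ t ∈ s, ∑ y ∈ I, (if y ∈ Ioc (t + a) (t + a + N) then Φ y else 0) ≤ N * ∑ y ∈ I, Φ y := by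
  rw [sum_comm, mul_sum]
  refine sum_le_sum fun y _ => ?_
  rw [← sum_filter, sum_const, nsmul_eq_mul]
  refine mul_le_mul_of_nonneg_right (Nat.cast_le.2 ?_) (h y)
  refine (card_le_card (t := Ico (y - a - N) (y - a)) fun t ht => ?_).trans (by simp)
  have := mem_Ioc.1 (mem_filter.1 ht).2
  rw [mem_Ico]
  omega

lemma Win_Psi (K : S.G → ℤ → ℂ) (n : ℕ) (ξ : S.G) : 0 ≤ S.Psi K n ξ :=
  sum_nonneg fun _ _ => sq_nonneg _

lemma Win_iter (K : S.G → ℤ → ℂ) (n : ℕ) {i0 : ι} {a b : ℤ} (hab : a ≤ b)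
    (hW : b - a + 2 * (n * S.R : ℕ) + 1 < S.m i0) {f : S.G → ℂ}
    (hf : ∀ ξ, f ξ ≠ 0 → ∃ y ∈ Ioc a b, (y : S.G) = ξ) :
    S.nn ((S.Xop K)^[n] f) ≤
      S.nn f * ∑ y ∈ Ioc (a - (n * S.R : ℕ)) (b + (n * S.R : ℕ)), S.Psi K n (y : S.G) := by
  rw [nn, S.sum_eq_sum_int (i0 := i0) (lo := a - (n * S.R : ℕ)) (hi := b + (n * S.R : ℕ))
    (by omega), mul_sum]
  · refine sum_le_sum fun y _ => ?_
    generalize (y : S.G) = ξ
    have h1 := cs_conj (Icc (-((n * S.R : ℕ) : ℤ)) (n * S.R : ℕ))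
      (fun j => (starRingEnd ℂ) (S.Kpow K n ξ j)) fun j => f (ξ + (j : S.G))
    simp only [starRingEnd_self_apply, Complex.norm_conj] at h1
    rw [← S.iterate_Xop, ← Real.sqrt_mul (sum_nonneg fun _ _ => sq_nonneg _)] at h1
    refine (pow_le_pow_left₀ (norm_nonneg _) h1 2).trans ?_
    rw [Real.sq_sqrt (mul_nonneg (sum_nonneg fun _ _ => sq_nonneg _)
      (sum_nonneg fun _ _ => sq_nonneg _)), mul_comm]
    refine mul_le_mul_of_nonneg_right ?_ (S.Win_Psi K n ξ)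
    have h2 := S.sum_int_le (i0 := i0) (lo := -((n * S.R : ℕ) : ℤ) - 1) (hi := (n * S.R : ℕ))
      (by omega) (Φ := fun η => ‖f (η + ξ)‖ ^ 2) fun _ => sq_nonneg _
    rw [S.sum_add_right (fun η => ‖f η‖ ^ 2) ξ] at h2
    refine le_trans (le_of_eq (sum_congr ?_ fun j _ => by rw [add_comm])) h2
    ext j
    rw [mem_Icc, mem_Ioc]
    omega
  · intro ξ hξ
    have h1 : (S.Xop K)^[n] f ξ ≠ 0 := fun e => hξ (by rw [e, norm_zero, zero_pow two_ne_zero])
    rw [S.iterate_Xop] at h1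
    obtain ⟨j, hj, h2⟩ := exists_ne_zero_of_sum_ne_zero h1
    obtain ⟨y, hy, e⟩ := hf _ (right_ne_zero_of_mul h2)
    rw [mem_Icc] at hj
    rw [mem_Ioc] at hy
    exact ⟨y - j, mem_Ioc.2 ⟨by omega, by omega⟩, by rw [Int.cast_sub, e, add_sub_cancel_right]⟩

lemma Win_ip {i0 : ι} {lo hi : ℤ} (hW : hi - lo < S.m i0) (u : ℤ → ℂ) (f : S.G → ℂ) :
    S.ip (S.ext lo hi u) f = ∑ y ∈ Ioc lo hi, (starRingEnd ℂ) (u y) * f (y : S.G) := by
  rw [ip, S.sum_eq_sum_int (lo := lo) (hi := hi) hW]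
  · exact sum_congr rfl fun y hy => by rw [S.Win_ext hW u hy]
  · intro ξ hξ
    obtain ⟨y, h1, h2, -⟩ := S.ext_ne_zero (lo := lo) (hi := hi) (u := u) (ξ := ξ) fun e => hξ (by
      rw [e, map_zero, zero_mul])
    exact ⟨y, h1, h2⟩

/-- Cutting a function to a window. -/
noncomputable def Win_cut (u : ℤ → ℂ) (a : ℤ) (N : ℕ) (y : ℤ) : ℂ :=
  if y ∈ Ioc a (a + N) then u y else 0

omit [Fintype ι] [DecidableEq ι] in
lemma Win_cut_sq (u : ℤ → ℂ) (a : ℤ) (N : ℕ) (y : ℤ) :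
    ‖Win_cut u a N y‖ ^ 2 = if y ∈ Ioc a (a + N) then ‖u y‖ ^ 2 else 0 := by
  unfold Win_cut
  split_ifs
  · rfl
  · rw [norm_zero, zero_pow two_ne_zero]

lemma Win_split (K : S.G → ℤ → ℂ) {N : ℕ} (hN : S.R ≤ N) {i0 : ι} {lo hi : ℤ}
    (hW : hi - lo + N < S.m i0) (u : ℤ → ℂ) :
    N * S.ip (S.ext lo hi u) (S.Xop K (S.ext lo hi u)) = ∑ t ∈ Ico (lo - N) hi,
      S.ip (S.ext lo hi (Win_cut u t N)) (S.Xop K (S.ext lo hi (Win_cut u (t + -N) (3 * N)))) := by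
  have hW' : hi - lo < S.m i0 := by omega
  simp only [S.Win_ip hW']
  rw [sum_comm, mul_sum]
  refine sum_congr rfl fun y hy => ?_
  have hy' := mem_Ioc.1 hy
  have h1 : ∀ t ∈ Ico (lo - N) hi, (starRingEnd ℂ) (Win_cut u t N y) *
      S.Xop K (S.ext lo hi (Win_cut u (t + -N) (3 * N))) (y : S.G) =
      if t ∈ Ico (y - N) y then (starRingEnd ℂ) (u y) * S.Xop K (S.ext lo hi u) (y : S.G)
        else 0 := fun t _ => by
    by_cases ht : t ∈ Ico (y - N) y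
    · have ht' := mem_Ico.1 ht
      rw [if_pos ht, Win_cut, if_pos (mem_Ioc.2 ⟨by omega, by omega⟩)]
      congr 1
      refine sum_congr rfl fun e he => ?_
      have he' := mem_Icc.1 he
      have a1 : |y + e - lo| < S.m i0 := by rw [abs_lt]; omega
      have a2 : |y + e - hi| < S.m i0 := by rw [abs_lt]; omega
      rw [← Int.cast_add, S.ext_cast _ a1 a2, S.ext_cast _ a1 a2, Win_cut,
        if_pos (c := y + e ∈ Ioc (t + -N) (t + -N + (3 * N : ℕ)))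
          (mem_Ioc.2 ⟨by omega, by omega⟩)]
    · rw [if_neg ht, Win_cut, if_neg, map_zero, zero_mul]
      rw [mem_Ico] at ht
      rw [mem_Ioc]
      omega
  rw [sum_congr rfl h1, sum_ite_mem, inter_eq_right.2 (Ico_subset_Ico (by omega) (by omega)),
    sum_const, nsmul_eq_mul]
  simp

theorem win {K : S.G → ℤ → ℂ}
    (herm : ∀ (ξ : S.G) (e : ℤ), K (ξ + (e : S.G)) (-e) = (starRingEnd ℂ) (K ξ e)) {n : ℕ} (hn : 1 ≤ n)
    {i0 : ι} {lo hi : ℤ} (hW : hi - lo + 20 * (n * S.R : ℕ) < S.m i0) {u : ℤ → ℂ}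
    (hu : ∀ y, ‖u y‖ ≤ 1) {Θ : ℝ} (hΘ : 0 < Θ) :
    ‖S.ip (S.ext lo hi u) (S.Xop K (S.ext lo hi u))‖
      ≤ 3 * Θ * S.nn (S.ext lo hi u) + 15 * (n * S.R) / Θ ^ (2 * n - 1) *
        ∑ y ∈ Ioc (lo - 4 * (n * S.R : ℕ)) (hi + 4 * (n * S.R : ℕ)), S.Psi K n (y : S.G) := by
  have hR : 1 ≤ S.R := Nat.mul_pos (Nat.mul_pos two_pos S.T_pos) (Int.natAbs_pos.2 S.h_ne)
  have hN : S.R ≤ n * S.R := Nat.le_mul_of_pos_left _ hn
  have hP := S.Win_Psi K n
  have hs : 0 ≤ ∑ y ∈ Ioc (lo - 4 * (n * S.R : ℕ)) (hi + 4 * (n * S.R : ℕ)), S.Psi K n (y : S.G) :=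
    sum_nonneg fun _ _ => hP _
  rcases le_or_gt hi lo with hlo | hlo
  · have h0 : S.ext lo hi u = fun _ => 0 := funext fun ξ => by
      rw [ext, Ioc_eq_empty hlo.not_gt, sum_empty]
    have h1 := S.nn_nonneg (S.ext lo hi u)
    have h2 : S.ip (S.ext lo hi u) (S.Xop K (S.ext lo hi u)) = 0 := by
      rw [h0]
      simp [ip]
    rw [h2, norm_zero]
    positivity
  have hI := fun (a b : ℤ) => S.Win_iter K n (i0 := i0) (a := a) (b := b)
  rw [← Nat.cast_mul]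
  generalize n * S.R = N at hW hN hs hI ⊢
  have hW' : hi - lo < S.m i0 := by omega
  have N0 : (0 : ℝ) < N := Nat.cast_pos.2 (by omega)
  have hc : 0 ≤ 3 * (N : ℝ) / Θ ^ (2 * n - 1) := by positivity
  have key : ∀ t ∈ Ico (lo - N) hi, ‖S.ip (S.ext lo hi (Win_cut u t N))
      (S.Xop K (S.ext lo hi (Win_cut u (t + -N) (3 * N))))‖ ≤
      Θ * (∑ y ∈ Ioc lo hi, if y ∈ Ioc (t + -N) (t + -N + (3 * N : ℕ)) then ‖u y‖ ^ 2 else 0) +
      3 * N / Θ ^ (2 * n - 1) * ∑ y ∈ Ioc (lo - 4 * N) (hi + 4 * N),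
        if y ∈ Ioc (t + -(2 * N)) (t + -(2 * N) + (5 * N : ℕ)) then S.Psi K n (y : S.G) else 0 := by
    intro t ht
    have ht' := mem_Ico.1 ht
    have e1 : S.nn (S.ext lo hi (Win_cut u (t + -N) (3 * N))) = ∑ y ∈ Ioc lo hi,
        if y ∈ Ioc (t + -N) (t + -N + (3 * N : ℕ)) then ‖u y‖ ^ 2 else 0 := by
      simp only [S.nn_ext hW', Win_cut_sq]
    have e2 : Ioc (t + -(2 * N : ℤ)) (t + -(2 * N) + (5 * N : ℕ)) =
        Ioc (t + -N - N) (t + -N + (3 * N : ℕ) + N) := by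
      congr 1 <;> omega
    rw [sum_ite_mem (Ioc (lo - 4 * (N : ℤ)) (hi + 4 * N)),
      inter_eq_right.2 (Ioc_subset_Ioc (by omega) (by omega)), e2, ← e1]
    have h1 := hI (t + -N) (t + -N + (3 * N : ℕ)) (by omega) (by omega)
      (f := S.ext lo hi (Win_cut u (t + -N) (3 * N))) fun ξ hξ => by
        obtain ⟨y, -, h2, h3⟩ := S.ext_ne_zero hξ
        exact ⟨y, by_contra fun h => h3 (if_neg h), h2⟩
    have h2 := (S.nn_Xop_pow_le herm hn _).trans
      (mul_le_mul_of_nonneg_left h1 (pow_nonneg (S.nn_nonneg _) _))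
    have h3 : S.nn (S.ext lo hi (Win_cut u t N)) ≤
        S.nn (S.ext lo hi (Win_cut u (t + -N) (3 * N))) := by
      simp only [S.nn_ext hW', Win_cut_sq]
      refine sum_le_sum fun y _ => ?_
      by_cases hy : y ∈ Ioc t (t + N)
      · have := mem_Ioc.1 hy
        rw [if_pos hy, if_pos (mem_Ioc.2 ⟨by omega, by omega⟩)]
      · rw [if_neg hy]
        positivity
    have h4 : S.nn (S.ext lo hi (Win_cut u (t + -N) (3 * N))) ≤ 3 * N := by
      rw [e1, sum_ite_mem]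
      refine (sum_le_card_nsmul _ _ 1 fun y _ => pow_le_one₀ (norm_nonneg _) (hu y)).trans ?_
      have h5 := card_le_card (inter_subset_right (s₁ := Ioc lo hi)
        (s₂ := Ioc (t + -N) (t + -N + (3 * N : ℕ))))
      rw [Int.card_Ioc, add_sub_cancel_left, Int.toNat_natCast] at h5
      rw [nsmul_eq_mul, mul_one]
      exact_mod_cast h5
    have h6 := sum_nonneg (s := Ioc (t + -N - N) (t + -N + (3 * N : ℕ) + N))
      fun (y : ℤ) _ => hP (y : S.G)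
    refine (S.norm_ip_le _ _).trans ((Win_real hn (S.nn_nonneg _) (S.nn_nonneg _) h6 hΘ h3
      h2).trans (add_le_add_right (mul_le_mul_of_nonneg_right
        (div_le_div_of_nonneg_right h4 (pow_pos hΘ _).le) h6) _))
  have h1 := congrArg norm (S.Win_split K hN (i0 := i0) (lo := lo) (hi := hi) (by omega) u)
  rw [norm_mul, Complex.norm_natCast] at h1
  have h2 := h1.le.trans ((norm_sum_le _ _).trans (sum_le_sum key))
  rw [sum_add_distrib, ← mul_sum, ← mul_sum] at h2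
  have h3 := mul_le_mul_of_nonneg_left (Win_cnt (Ico (lo - N) hi) (Ioc lo hi) (-N) (3 * N)
    (Φ := fun y => ‖u y‖ ^ 2) fun _ => sq_nonneg _) hΘ.le
  have h4 := mul_le_mul_of_nonneg_left (Win_cnt (Ico (lo - N) hi)
    (Ioc (lo - 4 * N) (hi + 4 * N)) (-(2 * N)) (5 * N)
    (Φ := fun y => S.Psi K n (y : S.G)) fun _ => hP _) hc
  refine le_of_mul_le_mul_left ((h2.trans (add_le_add h3 h4)).trans_eq ?_) N0
  rw [S.nn_ext hW']
  push_cast
  ring

end Sys

end Pool.Agent.Work.MP_d018b2_nt.R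
end

-- merged part: Pool.Agent.Work.MP_d018b2_nt.R.SPInt1
section
/-! The dilation identity. -/

set_option autoImplicit false
open Finset Pool.Agent.Lib.LargeSieve

namespace Pool.Agent.Work.MP_d018b2_nt.R

open Pool.Agent.Work.MP_678620_nt

lemma norm_sum_le_card {α : Type*} (s : Finset α) {f : α → ℂ} (h : ∀ n ∈ s, ‖f n‖ ≤ 1) :
    ‖∑ n ∈ s, f n‖ ≤ s.card := by
  calc ‖∑ n ∈ s, f n‖ ≤ ∑ n ∈ s, ‖f n‖ := norm_sum_le _ _
    _ ≤ ∑ _n ∈ s, (1 : ℝ) := sum_le_sum h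
    _ = s.card := by simp

namespace Sys

variable {ι : Type} [Fintype ι] [DecidableEq ι] (S : Sys ι)

lemma supp_GX (N : ℕ) (g : ℤ → ℂ) : S.Supp (S.GX N g) := by
  intro ξ hξ
  obtain ⟨y, _, hy, hu⟩ := S.ext_ne_zero hξ
  subst hy
  by_contra hc
  exact hu (by simp [Gt, hc])

lemma norm_Gt_le {g : ℤ → ℂ} (hg : ∀ y, ‖g y‖ ≤ 1) (y : ℤ) : ‖S.Gt g y‖ ≤ 1 := by
  unfold Gt
  split_ifs
  · exact hg y
  · simp

lemma R_le_TN {N : ℕ} (hN : 2 * S.h.natAbs ≤ N) : S.R ≤ S.T * N := by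
  unfold R
  calc 2 * S.T * S.h.natAbs = S.T * (2 * S.h.natAbs) := by ring
    _ ≤ S.T * N := Nat.mul_le_mul_left _ hN

lemma nn_GX_le {N : ℕ} (hN : 2 * S.h.natAbs ≤ N) {i0 : ι} (hW : 10 * (S.T * N) < S.m i0)
    {g : ℤ → ℂ} (hg : ∀ y, ‖g y‖ ≤ 1) : S.nn (S.GX N g) ≤ 3 * (S.T * N) * S.es (S.s + S.k') := by
  have hR := S.R_le_TN hN
  have h2 : 2 * S.T * N = 2 * (S.T * N) := by ring
  unfold GX
  rw [S.nn_ext (i0 := i0) (by rw [h2]; omega)]
  have hc := S.card_class_le (3 * (S.T * N)) (S.s + S.k')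
  refine le_trans ?_ (hc.trans (le_of_eq (by push_cast; ring)))
  calc ∑ y ∈ Ioc (((S.T * N : ℕ) : ℤ) - S.R) (((2 * S.T * N : ℕ) : ℤ) + S.R), ‖S.Gt g y‖ ^ 2
      ≤ ∑ y ∈ Ioc (((S.T * N : ℕ) : ℤ) - S.R) (((2 * S.T * N : ℕ) : ℤ) + S.R),
          (if (S.Zi y).card = S.s + S.k' then (1 : ℝ) else 0) := by
        refine sum_le_sum fun y _ => ?_
        split_ifs with hy
        · exact pow_le_one₀ (norm_nonneg _) (S.norm_Gt_le hg y)
        · have : ¬ S.Cg (y : S.G) := fun hc => hy hc.1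
          simp [Gt, this]
    _ ≤ ∑ y ∈ Icc (1 : ℤ) ((3 * (S.T * N) : ℕ) : ℤ),
          (if (S.Zi y).card = S.s + S.k' then (1 : ℝ) else 0) := by
        refine sum_le_sum_of_subset_of_nonneg ?_ fun y _ _ => by positivity
        intro y hy
        rw [mem_Ioc, h2] at hy
        rw [mem_Icc]
        omega
    _ = _ := by rw [sum_boole]

lemma abs_jp_le {d : Finset ι} (hd : d ∈ S.DD) : |S.jp d| ≤ S.R := by
  unfold jp R
  rw [abs_mul, abs_of_nonneg (by positivity : (0 : ℤ) ≤ (S.pr d : ℤ)), ← Int.natCast_natAbs]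
  have : S.pr d ≤ 2 * S.T := S.DD_hi d hd
  exact_mod_cast Nat.mul_le_mul_right _ this

lemma card_Zi_mul {d : Finset ι} (hd : d ∈ S.DD) {n : ℤ} (hn : ¬ ∃ p ∈ d, (S.m p : ℤ) ∣ n) :
    (S.Zi (S.pr d * n)).card = S.s + (S.Zi n).card := by
  rw [S.Zi_mul (S.DD_sub d hd), card_union_of_disjoint, S.DD_card d hd]
  rw [disjoint_left]
  intro p hp hp'
  exact hn ⟨p, hp, (S.mem_Zi.1 hp').2⟩

end Sys

end Pool.Agent.Work.MP_d018b2_nt.R
end
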