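import Pool.Agent.Work.MP_d018b2_nt.R.SPIII
import Pool.Agent.Work.MP_d018b2_nt.R.SPInt1

-- merged part: Pool.Agent.Work.MP_d018b2_nt.R.NInt
section
-- merged part: Pool.Agent.Work.MP_d018b2_nt.R.SPI2
section
/-! The decoupled form as a sum of squares. -/

set_option autoImplicit false
open Finset Pool.Agent.Lib.LargeSieve

namespace Pool.Agent.Work.MP_d018b2_nt.R

open Pool.Agent.Work.MP_678620_nt

namespace Sys

variable {ι : Type} [Fintype ι] [DecidableEq ι] (S : Sys ι)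

lemma I2_Λ_pos : 0 < S.Λ := by linarith [S.big]

lemma I2_H0_pos : 0 < S.H0 := lt_of_lt_of_le (by positivity) S.H0_big

lemma I2_sum {r : ℕ} (hr : r ≤ S.k) {g : S.G → ℂ} (hg : S.Supp g) :
    ∑ a ∈ S.AA r, ∑ v ∈ S.VV r a, S.iv (a ∪ v) * √(S.nn (S.Fd (a ∪ v) g)) ^ 2
      ≤ S.D * S.D' * S.nn g := by
  have h1 := S.sum_AV_le hr (Φ := fun d => S.iv d * S.nn (S.Fd d g))
    fun d _ => mul_nonneg (S.iv_pos d).le (S.nn_nonneg _)
  have h2 := mul_le_mul_of_nonneg_left (S.sum_nn_Fd hg) (Nat.cast_nonneg (α := ℝ) S.D)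
  simp only [Real.sq_sqrt (S.nn_nonneg _)]
  linarith only [h1, h2]

/-- Schur test over triples. -/
lemma I2_triple {r : ℕ} (hr : r ≤ S.k) {g f : S.G → ℂ} (hg : S.Supp g) (hf : S.Supp f)
    (K : Finset ι → Finset ι → Finset ι → ℝ) {c : ℝ} (hc : 0 ≤ c) (hK : ∀ a v v', 0 ≤ K a v v')
    (h1 : ∀ a, ∀ v ∈ S.VV r a, ∑ v' ∈ S.VV r a, K a v v' ≤ c * S.iv (a ∪ v))
    (h2 : ∀ a, ∀ v' ∈ S.VV r a, ∑ v ∈ S.VV r a, K a v v' ≤ c * S.iv (a ∪ v')) :
    ∑ a ∈ S.AA r, ∑ v ∈ S.VV r a, ∑ v' ∈ S.VV r a,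
      K a v v' * (√(S.nn (S.Fd (a ∪ v) g)) * √(S.nn (S.Fd (a ∪ v') f)))
      ≤ c * S.D * S.D' * (√(S.nn g) * √(S.nn f)) := by
  set A : Finset ι → ℝ := fun a =>
    ∑ v ∈ S.VV r a, S.iv (a ∪ v) * √(S.nn (S.Fd (a ∪ v) g)) ^ 2 with hA
  set B : Finset ι → ℝ := fun a =>
    ∑ v ∈ S.VV r a, S.iv (a ∪ v) * √(S.nn (S.Fd (a ∪ v) f)) ^ 2 with hB
  have hA0 : ∀ a, 0 ≤ A a := fun a =>
    sum_nonneg fun v _ => mul_nonneg (S.iv_pos _).le (sq_nonneg _)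
  have hB0 : ∀ a, 0 ≤ B a := fun a =>
    sum_nonneg fun v _ => mul_nonneg (S.iv_pos _).le (sq_nonneg _)
  have hDD : (0 : ℝ) ≤ S.D * S.D' := by positivity
  calc _ ≤ ∑ a ∈ S.AA r, c * (√(A a) * √(B a)) := by
        refine sum_le_sum fun a _ => ?_
        have := schur_test (S.VV r a) (S.VV r a) (K := K a) (u := fun v => S.iv (a ∪ v))
          (v := fun v => S.iv (a ∪ v)) (x := fun v => √(S.nn (S.Fd (a ∪ v) g)))
          (y := fun v => √(S.nn (S.Fd (a ∪ v) f))) (fun v _ v' _ => hK a v v')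
          (fun v _ => (S.iv_pos _).le) (fun v _ => (S.iv_pos _).le) hc hc (h1 a) (h2 a)
        rwa [Real.mul_self_sqrt hc] at this
    _ = c * ∑ a ∈ S.AA r, 1 * (√(A a) * √(B a)) := by
        rw [mul_sum]
        exact sum_congr rfl fun a _ => by ring
    _ ≤ c * (√(∑ a ∈ S.AA r, 1 * A a) * √(∑ a ∈ S.AA r, 1 * B a)) :=
        mul_le_mul_of_nonneg_left (cs_sqrt _ (fun _ _ => zero_le_one) (fun a _ => hA0 a)
          fun a _ => hB0 a) hc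
    _ ≤ c * (√(S.D * S.D' * S.nn g) * √(S.D * S.D' * S.nn f)) := by
        simp only [one_mul]
        refine mul_le_mul_of_nonneg_left (mul_le_mul (Real.sqrt_le_sqrt (S.I2_sum hr hg))
          (Real.sqrt_le_sqrt (S.I2_sum hr hf)) (Real.sqrt_nonneg _) (Real.sqrt_nonneg _)) hc
    _ = _ := by
        rw [Real.sqrt_mul hDD, Real.sqrt_mul hDD]
        have := Real.mul_self_sqrt hDD
        linear_combination c * (√(S.nn g) * √(S.nn f)) * this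

lemma I2_meet {r : ℕ} (hr : r ≤ S.k) (a : Finset ι) {v : Finset ι} (hv : v.card = r) :
    ∑ v' ∈ S.VV r a, (if Disjoint v v' then 0 else S.iv v') ≤ S.Λ ^ 2 / S.H0 := by
  have hΛ := S.I2_Λ_pos
  have hH := S.I2_H0_pos
  calc _ ≤ ∑ v' ∈ S.E.powersetCard r, ∑ p ∈ v, (if p ∈ v' then S.iv v' else 0) := by
        refine (sum_le_sum fun v' _ => ?_).trans (sum_le_sum_of_subset_of_nonneg
          (fun v' hv' => ?_) fun v' _ _ => sum_nonneg fun p _ => ?_)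
        · have hnn : ∀ p ∈ v, 0 ≤ if p ∈ v' then S.iv v' else 0 := fun p _ => by
            split_ifs
            · exact (S.iv_pos _).le
            · exact le_rfl
          split_ifs with h
          · exact sum_nonneg hnn
          · obtain ⟨p, hp, hp'⟩ := not_disjoint_iff.1 h
            refine le_trans ?_ (single_le_sum hnn hp)
            rw [if_pos hp']
        · obtain ⟨h1, -, h3, -⟩ := S.mem_VV.1 hv'
          exact mem_powersetCard.2 ⟨h1, h3⟩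
        · split_ifs
          · exact (S.iv_pos _).le
          · exact le_rfl
    _ = ∑ p ∈ v, ∑ v' ∈ (S.E.powersetCard r).filter (fun v' => p ∈ v'), S.iv v' := by
        rw [sum_comm]
        exact sum_congr rfl fun p _ => (sum_filter _ _).symm
    _ ≤ ∑ p ∈ v, S.Λ / S.H0 := sum_le_sum fun p _ => S.sum_iv_mem_le (Subset.refl _) r p
    _ ≤ _ := by
        rw [sum_const, nsmul_eq_mul, hv, sq, mul_div_assoc]
        refine mul_le_mul_of_nonneg_right (le_trans ?_ S.k_le_Λ) (by positivity)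
        exact_mod_cast hr

/-- Pairs with a difference of size `r` are triples. -/
lemma I2_pairs {r : ℕ} (hr : r ≤ S.s) (Φ : Finset ι → Finset ι → ℂ) :
    ∑ d ∈ S.DD, ∑ d' ∈ S.DD, (if (d \ d').card = r then Φ d d' else 0)
      = ∑ a ∈ S.AA r, ∑ v ∈ S.VV r a, ∑ v' ∈ S.VV r a,
        if Disjoint v v' then Φ (a ∪ v) (a ∪ v') else 0 := by
  rw [S.sum_AV hr fun a v => ∑ v' ∈ S.VV r a, if Disjoint v v' then Φ (a ∪ v) (a ∪ v') else 0]
  refine sum_congr rfl fun d hd => ?_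
  have hdc := S.DD_card d hd
  rw [sum_sigma', ← sum_filter, ← sum_filter]
  refine sum_bij' (fun d' _ => ⟨d ∩ d', d' \ d⟩) (fun p _ => p.1 ∪ p.2) ?_ ?_ ?_ ?_ ?_
  · intro d' hd'
    obtain ⟨hd1, hd2⟩ := mem_filter.1 hd'
    have hc' := S.DD_card d' hd1
    have e1 := card_sdiff_add_card_inter d d'
    have e2 := card_sdiff_add_card_inter d' d
    rw [inter_comm d' d] at e2
    have e3 : d ∩ d' ∪ d' \ d = d' := by
      ext x
      simp only [mem_union, mem_inter, mem_sdiff]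
      tauto
    refine mem_filter.2 ⟨mem_sigma.2 ⟨mem_powersetCard.2 ⟨inter_subset_left, by simp only; omega⟩,
      S.mem_VV.2 ⟨sdiff_subset.trans (S.DD_sub d' hd1), ?_, by simp only; omega, ?_⟩⟩, ?_⟩
    · exact disjoint_left.2 fun x hx hx' => (mem_sdiff.1 hx').2 (mem_inter.1 hx).1
    · simp only [e3]
      exact hd1
    · exact disjoint_left.2 fun x hx hx' => (mem_sdiff.1 hx').2 (mem_sdiff.1 hx).1
  · rintro ⟨a, v⟩ hp
    obtain ⟨hp1, hp2⟩ := mem_filter.1 hp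
    obtain ⟨ha, hv⟩ := mem_sigma.1 hp1
    obtain ⟨ha1, ha2⟩ := mem_powersetCard.1 ha
    obtain ⟨-, -, -, hv4⟩ := S.mem_VV.1 hv
    simp only at ha1 ha2 hv4 hp2 ⊢
    refine mem_filter.2 ⟨hv4, ?_⟩
    have e : d \ (a ∪ v) = d \ a := by
      clear * - ι d a v hp2
      ext x
      simp only [mem_union, mem_sdiff]
      have := fun h => disjoint_left.1 hp2 (mem_sdiff.2 (h : x ∈ d ∧ x ∉ a))
      tauto
    rw [e, card_sdiff_of_subset ha1]
    omega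
  · intro d' _
    ext x
    simp only [mem_union, mem_inter, mem_sdiff]
    tauto
  · rintro ⟨a, v⟩ hp
    obtain ⟨hp1, hp2⟩ := mem_filter.1 hp
    obtain ⟨ha, hv⟩ := mem_sigma.1 hp1
    obtain ⟨ha1, -⟩ := mem_powersetCard.1 ha
    obtain ⟨-, hv2, -, -⟩ := S.mem_VV.1 hv
    simp only at ha1 hv2 hp2 ⊢
    have e1 : d ∩ (a ∪ v) = a := by
      clear * - ι d a v hp2 ha1
      ext x
      simp only [mem_union, mem_inter]
      have := fun h => disjoint_left.1 hp2 (mem_sdiff.2 (h : x ∈ d ∧ x ∉ a))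
      have := @ha1 x
      tauto
    have e2 : (a ∪ v) \ d = v := by
      clear * - ι a v d hp2 ha1 hv2
      ext x
      simp only [mem_union, mem_sdiff]
      have := fun h => disjoint_left.1 hp2 (mem_sdiff.2 (h : x ∈ d ∧ x ∉ a))
      have := @ha1 x
      have := fun h : x ∈ a => disjoint_left.1 hv2 h
      tauto
    rw [e1, e2]
  · intro d' _
    have e1 : d ∩ d' ∪ d \ (d ∩ d') = d := union_sdiff_of_subset inter_subset_left
    have e3 : d ∩ d' ∪ d' \ d = d' := by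
      ext x
      simp only [mem_union, mem_inter, mem_sdiff]
      tauto
    simp only [e1, e3]

lemma I2_MD {r : ℕ} (hr : r ≤ S.s) (g f : S.G → ℂ) :
    S.MD r g f = ∑ a ∈ S.AA r, ∑ v ∈ S.VV r a, ∑ v' ∈ S.VV r a,
      if Disjoint v v' then ((∑ z ∈ S.E.powersetCard (S.s + S.k),
        (if a ∪ v ∪ (a ∪ v') ⊆ z then S.Pz z else 0) : ℝ) : ℂ) *
        S.ip (S.Fd (a ∪ v) g) (S.Fd (a ∪ v') f) else 0 := by
  rw [← S.I2_pairs hr fun d d' => ((∑ z ∈ S.E.powersetCard (S.s + S.k),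
    (if d ∪ d' ⊆ z then S.Pz z else 0) : ℝ) : ℂ) * S.ip (S.Fd d g) (S.Fd d' f)]
  unfold MD
  simp only [mul_sum]
  rw [sum_comm]
  refine sum_congr rfl fun d _ => ?_
  rw [sum_comm]
  refine sum_congr rfl fun d' _ => ?_
  by_cases h : (d \ d').card = r
  · rw [if_pos h, Complex.ofReal_sum, sum_mul]
    refine sum_congr rfl fun z _ => ?_
    by_cases h1 : d ∪ d' ⊆ z
    · rw [if_pos h1, if_pos ⟨subset_union_left.trans h1, subset_union_right.trans h1, h⟩]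
    · rw [if_neg h1, if_neg fun h2 => h1 (union_subset h2.1 h2.2.1)]
      simp
  · rw [if_neg h]
    refine sum_eq_zero fun z _ => ?_
    rw [if_neg fun h2 => h h2.2.2, mul_zero]

lemma I2_MW (r : ℕ) (g f : S.G → ℂ) :
    S.MW r g f = ∑ a ∈ S.AA r, ∑ v ∈ S.VV r a, ∑ v' ∈ S.VV r a,
      ((S.iv a * S.iv v * S.iv v' : ℝ) : ℂ) * S.ip (S.Fd (a ∪ v) g) (S.Fd (a ∪ v') f) := by
  unfold MW
  refine sum_congr rfl fun a _ => ?_
  have e : S.ip (S.Wa r a g) (S.Wa r a f) = ∑ ξ, ∑ v ∈ S.VV r a, ∑ v' ∈ S.VV r a,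
      ((S.iv v * S.iv v' : ℝ) : ℂ) *
        ((starRingEnd ℂ) (S.Fd (a ∪ v) g ξ) * S.Fd (a ∪ v') f ξ) := by
    refine sum_congr rfl fun ξ _ => ?_
    unfold Wa
    rw [map_sum, sum_mul_sum]
    refine sum_congr rfl fun v _ => sum_congr rfl fun v' _ => ?_
    rw [map_mul, Complex.conj_ofReal]
    push_cast
    ring
  rw [e, sum_comm, mul_sum]
  refine sum_congr rfl fun v _ => ?_
  rw [sum_comm, mul_sum]
  refine sum_congr rfl fun v' _ => ?_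
  rw [← mul_sum]
  unfold ip
  push_cast
  ring

lemma I2_coef {r : ℕ} (hr : r ≤ S.k) {a v v' : Finset ι} (hv : v ∈ S.VV r a)
    (hv' : v' ∈ S.VV r a) (h : Disjoint v v') :
    |∑ z ∈ S.E.powersetCard (S.s + S.k), (if a ∪ v ∪ (a ∪ v') ⊆ z then S.Pz z else 0)
      - S.piC (S.k - r) * (S.iv a * S.iv v * S.iv v')|
      ≤ 2 * S.Λ / S.H0 * (S.iv a * S.iv v * S.iv v') := by
  obtain ⟨-, h2, -, h4⟩ := S.mem_VV.1 hv
  obtain ⟨h1', h2', h3', -⟩ := S.mem_VV.1 hv'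
  have e : a ∪ v ∪ (a ∪ v') = a ∪ v ∪ v' := by
    clear * - ι a v v'
    ext x
    simp only [mem_union]
    tauto
  have hd : Disjoint (a ∪ v) v' := disjoint_union_left.2 ⟨h2', h⟩
  have hc : (a ∪ v ∪ v').card = S.s + r := by
    rw [card_union_of_disjoint hd, S.DD_card _ h4, h3']
  have hU := S.Pz_class (U := a ∪ v ∪ v') (union_subset (S.DD_sub _ h4) h1') (S.k - r)
  rw [hc, S.iv_union hd, S.iv_union h2, show S.s + r + (S.k - r) = S.s + S.k by omega] at hU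
  rw [e, mul_comm (S.piC _), mul_comm (2 * S.Λ / S.H0)]
  refine hU.trans (mul_le_mul_of_nonneg_left (div_le_div_of_nonneg_right ?_ S.I2_H0_pos.le) ?_)
  · have h5 : (r : ℝ) ≤ S.k := by exact_mod_cast hr
    push_cast
    linarith only [h5, S.s_le, S.k_le_Λ]
  · exact (mul_pos (mul_pos (S.iv_pos _) (S.iv_pos _)) (S.iv_pos _)).le

/-- Overlapping pairs are negligible. -/
lemma overlap_le {r : ℕ} (hr : r ≤ S.k) {g f : S.G → ℂ} (hg : S.Supp g) (hf : S.Supp f) :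
    ∑ a ∈ S.AA r, ∑ v ∈ S.VV r a, ∑ v' ∈ S.VV r a, (if Disjoint v v' then 0 else
      S.iv a * S.iv v * S.iv v' * (√(S.nn (S.Fd (a ∪ v) g)) * √(S.nn (S.Fd (a ∪ v') f))))
      ≤ S.Λ ^ 2 / S.H0 * S.D * S.D' * (√(S.nn g) * √(S.nn f)) := by
  have hΛ := S.I2_Λ_pos
  have hH := S.I2_H0_pos
  have key := S.I2_triple hr hg hf
    (fun a v v' => if Disjoint v v' then 0 else S.iv a * S.iv v * S.iv v')
    (c := S.Λ ^ 2 / S.H0) (by positivity) (fun a v v' => ?_) (fun a v hv => ?_) (fun a v hv => ?_)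
  · simpa only [ite_mul, zero_mul] using key
  · split_ifs
    · exact le_rfl
    · exact (mul_pos (mul_pos (S.iv_pos _) (S.iv_pos _)) (S.iv_pos _)).le
  · obtain ⟨-, h2, h3, -⟩ := S.mem_VV.1 hv
    rw [S.iv_union h2, mul_comm (S.Λ ^ 2 / S.H0)]
    refine le_trans (le_of_eq ?_) (mul_le_mul_of_nonneg_left (S.I2_meet hr a h3)
      (mul_pos (S.iv_pos a) (S.iv_pos v)).le)
    rw [mul_sum]
    refine sum_congr rfl fun v' _ => ?_
    split_ifs <;> ring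
  · obtain ⟨-, h2, h3, -⟩ := S.mem_VV.1 hv
    rw [S.iv_union h2, mul_comm (S.Λ ^ 2 / S.H0)]
    refine le_trans (le_of_eq ?_) (mul_le_mul_of_nonneg_left (S.I2_meet hr a h3)
      (mul_pos (S.iv_pos a) (S.iv_pos v)).le)
    rw [mul_sum]
    refine sum_congr rfl fun v' _ => ?_
    by_cases h : Disjoint v v'
    · rw [if_pos h, if_pos h.symm, mul_zero]
    · rw [if_neg h, if_neg fun h' => h h'.symm]
      ring

theorem MD_sub_MW {r : ℕ} (hr : r ≤ S.k) {g f : S.G → ℂ} (hg : S.Supp g) (hf : S.Supp f) :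
    ‖S.MD r g f - (S.piC (S.k - r) : ℂ) * S.MW r g f‖
      ≤ 3 * S.Λ ^ 2 / S.H0 * S.D * S.D' * (√(S.nn g) * √(S.nn f)) := by
  have hΛ := S.I2_Λ_pos
  have hH := S.I2_H0_pos
  have hiv : ∀ a v v' : Finset ι, 0 ≤ S.iv a * S.iv v * S.iv v' := fun a v v' =>
    (mul_pos (mul_pos (S.iv_pos _) (S.iv_pos _)) (S.iv_pos _)).le
  have h1 := S.overlap_le hr hg hf
  have h2 := S.I2_triple hr hg hf
    (fun a v v' => 2 * S.Λ / S.H0 * (S.iv a * S.iv v * S.iv v'))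
    (c := 2 * S.Λ ^ 2 / S.H0) (by positivity)
    (fun a v v' => mul_nonneg (by positivity) (hiv a v v')) (fun a v hv => ?_) (fun a v hv => ?_)
  · rw [S.I2_MD (hr.trans S.k_le), S.I2_MW]
    simp only [mul_sum, ← sum_sub_distrib]
    refine le_trans ?_ ((add_le_add h1 h2).trans (le_of_eq (by ring)))
    simp only [← sum_add_distrib]
    refine (norm_sum_le _ _).trans (sum_le_sum fun a _ => ?_)
    refine (norm_sum_le _ _).trans (sum_le_sum fun v hv => ?_)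
    refine (norm_sum_le _ _).trans (sum_le_sum fun v' hv' => ?_)
    have hip := S.norm_ip_le (S.Fd (a ∪ v) g) (S.Fd (a ∪ v') f)
    by_cases h : Disjoint v v'
    · rw [if_pos h, if_pos h, zero_add, ← mul_assoc, ← sub_mul, ← Complex.ofReal_mul,
        ← Complex.ofReal_sub, norm_mul, Complex.norm_real, Real.norm_eq_abs]
      exact mul_le_mul (S.I2_coef hr hv hv' h) hip (norm_nonneg _)
        (mul_nonneg (by positivity) (hiv a v v'))
    · rw [if_neg h, if_neg h, zero_sub, norm_neg, ← mul_assoc, ← Complex.ofReal_mul, norm_mul,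
        Complex.norm_real, Real.norm_eq_abs, abs_of_nonneg
          (mul_nonneg (S.piC_nonneg _) (hiv a v v'))]
      refine le_trans (mul_le_mul (mul_le_of_le_one_left (hiv a v v') (S.piC_le_one _)) hip
        (norm_nonneg _) (hiv a v v')) (le_add_of_nonneg_right ?_)
      exact mul_nonneg (mul_nonneg (by positivity) (hiv a v v')) (by positivity)
  · obtain ⟨-, h2, -, -⟩ := S.mem_VV.1 hv
    rw [S.iv_union h2, ← mul_sum, ← mul_sum]
    have := mul_le_mul_of_nonneg_left (S.sum_iv_VV_le r a)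
      (mul_nonneg (by positivity : 0 ≤ 2 * S.Λ / S.H0) (mul_pos (S.iv_pos a) (S.iv_pos v)).le)
    refine le_trans (le_of_eq (by ring)) (this.trans (le_of_eq (by ring)))
  · obtain ⟨-, h2, -, -⟩ := S.mem_VV.1 hv
    rw [S.iv_union h2, ← mul_sum, ← sum_mul, ← mul_sum]
    have := mul_le_mul_of_nonneg_left (S.sum_iv_VV_le r a)
      (mul_nonneg (by positivity : 0 ≤ 2 * S.Λ / S.H0) (mul_pos (S.iv_pos a) (S.iv_pos v)).le)
    refine le_trans (le_of_eq (by ring)) (this.trans (le_of_eq (by ring)))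

end Sys

end Pool.Agent.Work.MP_d018b2_nt.R
end

-- merged part: Pool.Agent.Work.MP_d018b2_nt.R.SPII
section
/-! The structured form against its model. -/

set_option autoImplicit false
open Finset Pool.Agent.Lib.LargeSieve

namespace Pool.Agent.Work.MP_d018b2_nt.R

open Pool.Agent.Work.MP_678620_nt

namespace Sys

variable {ι : Type} [Fintype ι] [DecidableEq ι] (S : Sys ι)

/-- Variance in one coordinate. -/
noncomputable def IIvar (p : ι) (f : S.G → ℂ) : ℝ := S.nn fun ξ => f ξ - S.av {p} f ξ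

/-- One term of the model, without the weights. -/
noncomputable def IIMt (a : Finset ι) (G F : S.G → ℂ) : ℂ :=
  ∑ j ∈ S.JJ a, S.kap a j * S.ip G fun ξ => F (ξ + ((S.jp a * j : ℤ) : S.G))

lemma II_MK (r : ℕ) (g f : S.G → ℂ) :
    S.MK r g f = ∑ a ∈ S.AA r, ∑ v ∈ S.VV r a, ∑ v' ∈ S.VV r a,
      ((S.iv a * S.iv v * S.iv v' : ℝ) : ℂ) *
        S.IIMt a (S.Fd (a ∪ v) g) (S.Fd (a ∪ v') f) := by
  refine sum_congr rfl fun a _ => ?_
  simp only [ip, Ka, Wa, IIMt, map_sum, map_mul, Complex.conj_ofReal, mul_sum, sum_mul]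
  rw [sum_comm]
  refine Eq.trans (sum_congr rfl fun j _ => sum_comm) ?_
  rw [sum_comm]
  refine Eq.trans (sum_congr rfl fun v' _ =>
    Eq.trans (sum_congr rfl fun j _ => sum_comm) sum_comm) ?_
  rw [sum_comm]
  refine sum_congr rfl fun v _ => sum_congr rfl fun v' _ => sum_congr rfl fun j _ =>
    sum_congr rfl fun ξ _ => ?_
  push_cast
  ring

lemma II_St {r : ℕ} {a v v' : Finset ι} (ha : a ∈ S.AA r) (hv : v ∈ S.VV r a)
    (hv' : v' ∈ S.VV r a) (hd : Disjoint v v') (g f : S.G → ℂ) :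
    S.St a v v' g f = ((S.iv a * S.iv v * S.iv v' : ℝ) : ℂ) * ∑ j ∈ S.JJ a, S.kap a j *
      S.ip (fun ξ => S.Fd (a ∪ v) g (v'.piecewise (-((S.jp a * j : ℤ) : S.G)) ξ))
        fun ξ => S.Fd (a ∪ v') f
          (v.piecewise ((S.jp a * j : ℤ) : S.G) (ξ + ((S.jp a * j : ℤ) : S.G))) := by
  obtain ⟨hvE, hav, -, -⟩ := S.mem_VV.1 hv
  obtain ⟨hvE', hav', -, -⟩ := S.mem_VV.1 hv'
  have haE := (S.mem_AA.1 ha).1
  rw [St, mul_sum]
  refine sum_congr rfl fun j _ => ?_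
  rw [mul_left_comm]
  congr 1
  have hc : ∀ p ∈ a, ((S.jp a * j : ℤ) : S.G) p = 0 := fun p hp => S.jp_apply hp j
  generalize ((S.jp a * j : ℤ) : S.G) = c at hc ⊢
  have n1 : ∀ i ∈ a, i ∉ v := fun i hi => disjoint_left.1 hav hi
  have n2 : ∀ i ∈ a, i ∉ v' := fun i hi => disjoint_left.1 hav' hi
  have n3 : ∀ i ∈ v, i ∉ v' := fun i hi => disjoint_left.1 hd hi
  have key := S.sum_piecewise (a ∪ v ∪ v') (v'.piecewise (-c) 0) fun x =>
    (starRingEnd ℂ) (g (x + (S.jp (a ∪ v) : S.G))) * f (x + c + (S.jp (a ∪ v') : S.G))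
  have e1 : ∀ ξ : S.G, S.rs (a ∪ v) (v'.piecewise (-c) ξ) =
      (a ∪ v ∪ v').piecewise (v'.piecewise (-c) 0) ξ := by
    intro ξ
    funext i
    by_cases h1 : i ∈ a
    · simp [rs, piecewise, h1, n2 i h1]
    · by_cases h2 : i ∈ v
      · simp [rs, piecewise, h2, n3 i h2]
      · by_cases h3 : i ∈ v' <;> simp [rs, piecewise, h1, h2, h3]
  have e2 : ∀ ξ : S.G, S.rs (a ∪ v') (v.piecewise c (ξ + c)) =
      (a ∪ v ∪ v').piecewise (v'.piecewise (-c) 0) ξ + c := by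
    intro ξ
    funext i
    by_cases h1 : i ∈ a
    · simp [rs, piecewise, h1, n2 i h1, hc i h1]
    · by_cases h2 : i ∈ v
      · simp [rs, piecewise, h1, h2, n3 i h2]
      · by_cases h3 : i ∈ v' <;> simp [rs, piecewise, h1, h2, h3]
  have e3 : ∀ x : S.G, (a ∪ v ⊆ S.Zs x ∧ a ∪ v' ⊆ S.Zs (x + c)) ↔
      ∀ i ∈ a ∪ v ∪ v', x i = v'.piecewise (-c) 0 i := by
    intro x
    constructor
    · rintro ⟨h1, h2⟩ i hi
      by_cases h3 : i ∈ v'
      · have := (S.mem_Zs.1 (h2 (mem_union_right _ h3))).2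
        rw [piecewise_eq_of_mem _ _ _ h3]
        exact eq_neg_of_add_eq_zero_left this
      · rw [piecewise_eq_of_notMem _ _ _ h3]
        exact (S.mem_Zs.1 (h1 ((mem_union.1 hi).resolve_right h3))).2
    · intro h
      constructor
      · intro i hi
        have h3 : i ∉ v' := (mem_union.1 hi).elim (n2 i) (n3 i)
        have := h i (mem_union_left _ hi)
        rw [piecewise_eq_of_notMem _ _ _ h3] at this
        exact S.mem_Zs.2 ⟨union_subset haE hvE hi, this⟩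
      · intro i hi
        refine S.mem_Zs.2 ⟨union_subset haE hvE' hi, ?_⟩
        rcases mem_union.1 hi with h1 | h1
        · have := h i (mem_union_left _ (mem_union_left _ h1))
          rw [piecewise_eq_of_notMem _ _ _ (n2 i h1)] at this
          rw [Pi.add_apply, this, hc i h1]
          simp
        · have := h i (mem_union_right _ h1)
          rw [piecewise_eq_of_mem _ _ _ h1] at this
          rw [Pi.add_apply, this]
          simp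
  have e4 : S.iv a * S.iv v * S.iv v' = S.iv (a ∪ v ∪ v') := by
    rw [S.iv_union (disjoint_union_left.2 ⟨hav', hd⟩), S.iv_union hav]
  simp only [ip, Fd, e1, e2, e3]
  rw [key, e4, nsmul_eq_mul, ← mul_assoc, iv]
  have hp : (S.pr (a ∪ v ∪ v') : ℂ) ≠ 0 := by exact_mod_cast (S.pr_pos _).ne'
  push_cast
  rw [inv_mul_cancel₀ hp, one_mul]

lemma II_indep {β : Type*} (v : Finset ι) (Ψ : (S.G → S.G) → β) :
    S.Indep vᶜ fun c : S.G => Ψ fun ξ => v.piecewise c ξ := by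
  intro c c' h
  have : (fun ξ : S.G => v.piecewise c ξ) = fun ξ => v.piecewise c' ξ := by
    funext ξ i
    by_cases hi : i ∈ v
    · rw [piecewise_eq_of_mem _ _ _ hi, piecewise_eq_of_mem _ _ _ hi]
      exact h i (by simpa using hi)
    · rw [piecewise_eq_of_notMem _ _ _ hi, piecewise_eq_of_notMem _ _ _ hi]
  simp only [this]

lemma II_card : (0 : ℝ) < Fintype.card S.G := by exact_mod_cast Fintype.card_pos

lemma II_jav1 {r : ℕ} (hr : 1 ≤ r) {a v : Finset ι} (hv : v ∈ S.VV r a) {t : ℤ}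
    (ht : IsCoprime (S.pr v : ℤ) t) (F : S.G → ℂ) :
    ∑ j ∈ S.JJ a, ‖S.kap a j‖ * S.nn (fun ξ => F (v.piecewise ((t * j : ℤ) : S.G) ξ) - F ξ)
      ≤ 16 * (S.Q : ℝ) ^ 4 * ∑ p ∈ v, S.IIvar p F := by
  refine (S.jav hr hv ht (Φ := fun c => S.nn fun ξ => F (v.piecewise c ξ) - F ξ)
    (fun c => S.nn_nonneg _)
    (S.II_indep v fun φ => S.nn fun ξ => F (φ ξ) - F ξ)).trans ?_
  rw [S.sum_nn_piecewise_sub, inv_mul_cancel_left₀ S.II_card.ne']
  have h1 : S.nn F - S.nn (S.av v F) ≤ ∑ p ∈ v, S.IIvar p F := S.efron_stein v F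
  have h2 : (0 : ℝ) ≤ (S.Q : ℝ) ^ 4 := by positivity
  nlinarith only [h1, h2]

lemma II_jav2 {r : ℕ} (hr : 1 ≤ r) {a v : Finset ι} (hv : v ∈ S.VV r a) {t : ℤ}
    (ht : IsCoprime (S.pr v : ℤ) t) (F : S.G → ℂ) :
    ∑ j ∈ S.JJ a, ‖S.kap a j‖ * S.nn (fun ξ => F (v.piecewise ((t * j : ℤ) : S.G) ξ))
      ≤ 16 * (S.Q : ℝ) ^ 4 * S.nn F := by
  refine (S.jav hr hv ht (Φ := fun c => S.nn fun ξ => F (v.piecewise c ξ))
    (fun c => S.nn_nonneg _) (S.II_indep v fun φ => S.nn fun ξ => F (φ ξ))).trans ?_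
  rw [S.sum_nn_piecewise, inv_mul_cancel_left₀ S.II_card.ne']
  have h1 := S.nn_nonneg F
  have h2 : (0 : ℝ) ≤ (S.Q : ℝ) ^ 4 := by positivity
  nlinarith only [h1, h2]

lemma II_jav3 (a : Finset ι) (F : S.G → ℂ) :
    ∑ j ∈ S.JJ a, ‖S.kap a j‖ * S.nn F ≤ 16 * (S.Q : ℝ) ^ 4 * S.nn F := by
  rw [← sum_mul]
  refine mul_le_mul_of_nonneg_right ((S.sum_norm_kap_le a).trans ?_) (S.nn_nonneg F)
  have h1 : (2 : ℝ) ≤ S.Q := by exact_mod_cast S.Q_ge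
  have h2 : (1 : ℝ) ≤ (S.Q : ℝ) ^ 2 := by nlinarith only [h1]
  nlinarith

lemma II_ip_sub (G G' F F' : S.G → ℂ) :
    ‖S.ip G' F' - S.ip G F‖ ≤ √(S.nn fun ξ => G' ξ - G ξ) * √(S.nn F') +
      √(S.nn G) * √(S.nn fun ξ => F' ξ - F ξ) := by
  have e : S.ip G' F' - S.ip G F =
      S.ip (fun ξ => G' ξ - G ξ) F' + S.ip G fun ξ => F' ξ - F ξ := by
    simp only [ip, ← sum_sub_distrib, ← sum_add_distrib, map_sub]
    exact sum_congr rfl fun ξ _ => by ring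
  rw [e]
  exact (norm_add_le _ _).trans (add_le_add (S.norm_ip_le _ _) (S.norm_ip_le _ _))

lemma II_term {r : ℕ} (hr : 1 ≤ r) {a v v' : Finset ι} (ha : a ∈ S.AA r) (hv : v ∈ S.VV r a)
    (hv' : v' ∈ S.VV r a) (hd : Disjoint v v') (g f : S.G → ℂ) :
    ‖S.St a v v' g f - ((S.iv a * S.iv v * S.iv v' : ℝ) : ℂ) *
        S.IIMt a (S.Fd (a ∪ v) g) (S.Fd (a ∪ v') f)‖ ≤
      S.iv a * S.iv v * S.iv v' *
          (√(16 * (S.Q : ℝ) ^ 4 * ∑ p ∈ v', S.IIvar p (S.Fd (a ∪ v) g)) *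
            √(16 * (S.Q : ℝ) ^ 4 * S.nn (S.Fd (a ∪ v') f))) +
        S.iv a * S.iv v * S.iv v' *
          (√(16 * (S.Q : ℝ) ^ 4 * S.nn (S.Fd (a ∪ v) g)) *
            √(16 * (S.Q : ℝ) ^ 4 * ∑ p ∈ v, S.IIvar p (S.Fd (a ∪ v') f))) := by
  have hw : 0 ≤ S.iv a * S.iv v * S.iv v' :=
    (mul_pos (mul_pos (S.iv_pos a) (S.iv_pos v)) (S.iv_pos v')).le
  rw [S.II_St ha hv hv' hd, ← mul_sub, norm_mul, Complex.norm_real, Real.norm_of_nonneg hw,
    ← mul_add, IIMt, ← sum_sub_distrib]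
  refine mul_le_mul_of_nonneg_left ?_ hw
  generalize S.Fd (a ∪ v) g = G
  generalize S.Fd (a ∪ v') f = F
  have h1 : ∀ j ∈ S.JJ a, ‖S.kap a j *
      (S.ip (fun ξ => G (v'.piecewise (-((S.jp a * j : ℤ) : S.G)) ξ))
        fun ξ => F (v.piecewise ((S.jp a * j : ℤ) : S.G) (ξ + ((S.jp a * j : ℤ) : S.G)))) -
      S.kap a j * S.ip G fun ξ => F (ξ + ((S.jp a * j : ℤ) : S.G))‖ ≤
      ‖S.kap a j‖ * (√(S.nn fun ξ => G (v'.piecewise ((-S.jp a * j : ℤ) : S.G) ξ) - G ξ) *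
        √(S.nn fun ξ => F (v.piecewise ((S.jp a * j : ℤ) : S.G) ξ))) +
      ‖S.kap a j‖ * (√(S.nn G) *
        √(S.nn fun ξ => F (v.piecewise ((S.jp a * j : ℤ) : S.G) ξ) - F ξ)) := by
    intro j _
    rw [← mul_sub, norm_mul, ← mul_add]
    refine mul_le_mul_of_nonneg_left ((S.II_ip_sub _ _ _ _).trans (le_of_eq ?_)) (norm_nonneg _)
    have e : ((-S.jp a * j : ℤ) : S.G) = -((S.jp a * j : ℤ) : S.G) := by
      rw [neg_mul, Int.cast_neg]
    rw [e, ← S.nn_tr (fun ξ => F (v.piecewise ((S.jp a * j : ℤ) : S.G) ξ))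
        ((S.jp a * j : ℤ) : S.G),
      ← S.nn_tr (fun ξ => F (v.piecewise ((S.jp a * j : ℤ) : S.G) ξ) - F ξ)
        ((S.jp a * j : ℤ) : S.G)]
  refine (norm_sum_le _ _).trans ((sum_le_sum h1).trans ?_)
  rw [sum_add_distrib]
  refine add_le_add ?_ ?_
  · refine (cs_sqrt _ (fun j _ => norm_nonneg _) (fun j _ => S.nn_nonneg _)
      fun j _ => S.nn_nonneg _).trans ?_
    exact mul_le_mul (Real.sqrt_le_sqrt (S.II_jav1 hr hv' (S.coprime_jp hv').neg_right G))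
      (Real.sqrt_le_sqrt (S.II_jav2 hr hv (S.coprime_jp hv) F)) (Real.sqrt_nonneg _)
      (Real.sqrt_nonneg _)
  · refine (cs_sqrt _ (fun j _ => norm_nonneg _) (fun j _ => S.nn_nonneg _)
      fun j _ => S.nn_nonneg _).trans ?_
    exact mul_le_mul (Real.sqrt_le_sqrt (S.II_jav3 a G))
      (Real.sqrt_le_sqrt (S.II_jav1 hr hv (S.coprime_jp hv) F)) (Real.sqrt_nonneg _)
      (Real.sqrt_nonneg _)

lemma II_Mt_le (a : Finset ι) (G F : S.G → ℂ) :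
    ‖S.IIMt a G F‖ ≤ 2 * (S.Q : ℝ) ^ 2 * (√(S.nn G) * √(S.nn F)) := by
  refine (norm_sum_le _ _).trans (le_trans (sum_le_sum (g := fun j =>
    ‖S.kap a j‖ * (√(S.nn G) * √(S.nn F))) fun j _ => ?_) ?_)
  · rw [norm_mul]
    refine mul_le_mul_of_nonneg_left ((S.norm_ip_le _ _).trans (le_of_eq ?_)) (norm_nonneg _)
    rw [S.nn_tr]
  · rw [← sum_mul]
    exact mul_le_mul_of_nonneg_right (S.sum_norm_kap_le a) (by positivity)

lemma II_cs3 (r : ℕ) {A B : Finset ι → Finset ι → Finset ι → ℝ} (hA : ∀ a v v', 0 ≤ A a v v')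
    (hB : ∀ a v v', 0 ≤ B a v v') :
    ∑ a ∈ S.AA r, ∑ v ∈ S.VV r a, ∑ v' ∈ S.VV r a,
        S.iv a * S.iv v * S.iv v' * (√(A a v v') * √(B a v v')) ≤
      √(∑ a ∈ S.AA r, ∑ v ∈ S.VV r a, ∑ v' ∈ S.VV r a, S.iv a * S.iv v * S.iv v' * A a v v') *
      √(∑ a ∈ S.AA r, ∑ v ∈ S.VV r a, ∑ v' ∈ S.VV r a,
        S.iv a * S.iv v * S.iv v' * B a v v') := by
  simp only [sum_sigma']
  exact cs_sqrt _ (fun x _ => (mul_pos (mul_pos (S.iv_pos _) (S.iv_pos _)) (S.iv_pos _)).le)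
    (fun x _ => hA _ _ _) fun x _ => hB _ _ _

lemma II_var_nonneg (p : ι) (f : S.G → ℂ) : 0 ≤ S.IIvar p f := S.nn_nonneg _

lemma II_inner (r : ℕ) (a : Finset ι) (G : S.G → ℂ) :
    ∑ v' ∈ S.VV r a, S.iv v' * ∑ p ∈ v', S.IIvar p G ≤ S.Λ / S.H0 * S.inf G := by
  have e : ∀ v' ∈ S.VV r a, S.iv v' * ∑ p ∈ v', S.IIvar p G =
      ∑ p ∈ S.E, (if p ∈ v' then S.iv v' else 0) * S.IIvar p G := by
    intro v' hv'
    simp only [ite_mul, zero_mul]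
    rw [sum_ite_mem, inter_eq_right.2 (S.mem_VV.1 hv').1, mul_sum]
  rw [sum_congr rfl e, sum_comm, inf, mul_sum]
  refine sum_le_sum fun p _ => ?_
  rw [← sum_mul]
  refine mul_le_mul_of_nonneg_right ?_ (S.II_var_nonneg p G)
  rw [← sum_filter]
  refine le_trans (sum_le_sum_of_subset_of_nonneg ?_ fun v _ _ => (S.iv_pos v).le)
    (S.sum_iv_mem_le (sdiff_subset (s := S.E) (t := a)) r p)
  exact filter_subset_filter _ (filter_subset _ _)

lemma II_sum1 {r : ℕ} (hr : r ≤ S.k) {g : S.G → ℂ} (hg : S.Supp g) {K : ℝ} (hK : 0 ≤ K) :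
    ∑ a ∈ S.AA r, ∑ v ∈ S.VV r a, ∑ v' ∈ S.VV r a, S.iv a * S.iv v * S.iv v' *
      (K * ∑ p ∈ v', S.IIvar p (S.Fd (a ∪ v) g)) ≤
      K * S.Λ * S.D * S.D' * (S.inf g / S.H0) := by
  have hΛ : 0 ≤ S.Λ / S.H0 := div_nonneg (by linarith [S.big]) (by linarith [S.H0_big])
  have h1 : ∀ a ∈ S.AA r, ∀ v ∈ S.VV r a, ∑ v' ∈ S.VV r a, S.iv a * S.iv v * S.iv v' *
      (K * ∑ p ∈ v', S.IIvar p (S.Fd (a ∪ v) g)) ≤
      K * (S.Λ / S.H0) * (S.iv (a ∪ v) * S.inf (S.Fd (a ∪ v) g)) := by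
    intro a _ v hv
    have h2 := mul_le_mul_of_nonneg_left (S.II_inner r a (S.Fd (a ∪ v) g))
      (mul_nonneg hK (S.iv_pos (a ∪ v)).le)
    rw [mul_sum] at h2
    refine le_trans (le_of_eq (sum_congr rfl fun v' _ => ?_)) (h2.trans (le_of_eq (by ring)))
    rw [S.iv_union (S.mem_VV.1 hv).2.1]
    ring
  refine (sum_le_sum fun a ha => sum_le_sum (h1 a ha)).trans ?_
  simp only [← mul_sum]
  have h3 := S.sum_AV_le hr (Φ := fun d => S.iv d * S.inf (S.Fd d g))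
    fun d _ => mul_nonneg (S.iv_pos d).le (S.inf_nonneg _)
  have h4 := mul_le_mul_of_nonneg_left (S.sum_inf_Fd hg) (Nat.cast_nonneg S.D)
  refine (mul_le_mul_of_nonneg_left (h3.trans h4) (mul_nonneg hK hΛ)).trans (le_of_eq ?_)
  ring

lemma II_sum2 {r : ℕ} (hr : r ≤ S.k) {g : S.G → ℂ} (hg : S.Supp g) {K : ℝ} (hK : 0 ≤ K) :
    ∑ a ∈ S.AA r, ∑ v ∈ S.VV r a, ∑ v' ∈ S.VV r a, S.iv a * S.iv v * S.iv v' *
      (K * S.nn (S.Fd (a ∪ v) g)) ≤ K * S.Λ * S.D * S.D' * S.nn g := by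
  have hΛ : 0 ≤ S.Λ := by linarith [S.big]
  have h1 : ∀ a ∈ S.AA r, ∀ v ∈ S.VV r a, ∑ v' ∈ S.VV r a, S.iv a * S.iv v * S.iv v' *
      (K * S.nn (S.Fd (a ∪ v) g)) ≤
      K * S.Λ * (S.iv (a ∪ v) * S.nn (S.Fd (a ∪ v) g)) := by
    intro a _ v hv
    have h2 := mul_le_mul_of_nonneg_left (S.sum_iv_VV_le r a)
      (mul_nonneg hK (mul_nonneg (S.iv_pos (a ∪ v)).le (S.nn_nonneg (S.Fd (a ∪ v) g))))
    rw [mul_sum] at h2
    refine le_trans (le_of_eq (sum_congr rfl fun v' _ => ?_)) (h2.trans (le_of_eq (by ring)))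
    rw [S.iv_union (S.mem_VV.1 hv).2.1]
    ring
  refine (sum_le_sum fun a ha => sum_le_sum (h1 a ha)).trans ?_
  simp only [← mul_sum]
  have h3 := S.sum_AV_le hr (Φ := fun d => S.iv d * S.nn (S.Fd d g))
    fun d _ => mul_nonneg (S.iv_pos d).le (S.nn_nonneg _)
  have h4 := mul_le_mul_of_nonneg_left (S.sum_nn_Fd hg) (Nat.cast_nonneg S.D)
  refine (mul_le_mul_of_nonneg_left (h3.trans h4) (mul_nonneg hK hΛ)).trans (le_of_eq ?_)
  ring

lemma II_swap (r : ℕ) (A : Finset ι → Finset ι → Finset ι → ℝ) :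
    ∑ a ∈ S.AA r, ∑ v ∈ S.VV r a, ∑ v' ∈ S.VV r a, S.iv a * S.iv v * S.iv v' * A a v' v =
      ∑ a ∈ S.AA r, ∑ v ∈ S.VV r a, ∑ v' ∈ S.VV r a, S.iv a * S.iv v * S.iv v' * A a v v' := by
  refine sum_congr rfl fun a _ => ?_
  rw [sum_comm]
  exact sum_congr rfl fun v _ => sum_congr rfl fun v' _ => by ring

lemma II_sqrt {C x y X Y : ℝ} (hC : 0 ≤ C) (hX : X ≤ C * x) (hY : Y ≤ C * y) :
    √X * √Y ≤ C * (√x * √y) := by
  refine (mul_le_mul (Real.sqrt_le_sqrt hX) (Real.sqrt_le_sqrt hY) (Real.sqrt_nonneg _)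
    (Real.sqrt_nonneg _)).trans (le_of_eq ?_)
  rw [Real.sqrt_mul hC, Real.sqrt_mul hC, mul_mul_mul_comm, Real.mul_self_sqrt hC]

theorem SS_sub_MK {r : ℕ} (hr2 : 1 ≤ r) (hr : r ≤ S.k) {g f : S.G → ℂ} (hg : S.Supp g)
    (hf : S.Supp f) :
    ‖S.SS r g f - S.MK r g f‖ ≤ 16 * (S.Q : ℝ) ^ 4 * S.Λ * S.D * S.D' *
        (√(S.inf g / S.H0) * √(S.nn f) + √(S.nn g) * √(S.inf f / S.H0))
      + 2 * (S.Q : ℝ) ^ 2 * (S.Λ ^ 2 / S.H0 * S.D * S.D' * (√(S.nn g) * √(S.nn f))) := by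
  have hK : (0 : ℝ) ≤ 16 * (S.Q : ℝ) ^ 4 := by positivity
  have hΛ : 0 ≤ S.Λ := by linarith [S.big]
  have hC : 0 ≤ 16 * (S.Q : ℝ) ^ 4 * S.Λ * S.D * S.D' := by positivity
  have hvar : ∀ (v : Finset ι) (F : S.G → ℂ), 0 ≤ 16 * (S.Q : ℝ) ^ 4 * ∑ p ∈ v, S.IIvar p F :=
    fun v F => mul_nonneg hK (sum_nonneg fun p _ => S.II_var_nonneg p F)
  have hnn : ∀ F : S.G → ℂ, 0 ≤ 16 * (S.Q : ℝ) ^ 4 * S.nn F :=
    fun F => mul_nonneg hK (S.nn_nonneg F)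
  have h1 : ∀ a ∈ S.AA r, ∀ v ∈ S.VV r a, ∀ v' ∈ S.VV r a,
      ‖(if Disjoint v v' then S.St a v v' g f else 0) - ((S.iv a * S.iv v * S.iv v' : ℝ) : ℂ) *
        S.IIMt a (S.Fd (a ∪ v) g) (S.Fd (a ∪ v') f)‖ ≤
      S.iv a * S.iv v * S.iv v' *
          (√(16 * (S.Q : ℝ) ^ 4 * ∑ p ∈ v', S.IIvar p (S.Fd (a ∪ v) g)) *
            √(16 * (S.Q : ℝ) ^ 4 * S.nn (S.Fd (a ∪ v') f))) +
        S.iv a * S.iv v * S.iv v' *
          (√(16 * (S.Q : ℝ) ^ 4 * S.nn (S.Fd (a ∪ v) g)) *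
            √(16 * (S.Q : ℝ) ^ 4 * ∑ p ∈ v, S.IIvar p (S.Fd (a ∪ v') f))) +
        2 * (S.Q : ℝ) ^ 2 * (if Disjoint v v' then 0 else S.iv a * S.iv v * S.iv v' *
          (√(S.nn (S.Fd (a ∪ v) g)) * √(S.nn (S.Fd (a ∪ v') f)))) := by
    clear * - ι S r g f hr2
    intro a ha v hv v' hv'
    have hw : 0 ≤ S.iv a * S.iv v * S.iv v' :=
      (mul_pos (mul_pos (S.iv_pos a) (S.iv_pos v)) (S.iv_pos v')).le
    by_cases hd : Disjoint v v'
    · rw [if_pos hd, if_pos hd, mul_zero, add_zero]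
      exact S.II_term hr2 ha hv hv' hd g f
    · rw [if_neg hd, if_neg hd, zero_sub, norm_neg, norm_mul, Complex.norm_real,
        Real.norm_of_nonneg hw]
      refine le_trans ?_ (le_add_of_nonneg_left (by positivity))
      rw [mul_left_comm]
      exact mul_le_mul_of_nonneg_left (S.II_Mt_le _ _ _) hw
  rw [S.II_MK, SS]
  simp only [← sum_sub_distrib]
  refine (norm_sum_le _ _).trans ((sum_le_sum fun a ha => (norm_sum_le _ _).trans
    (sum_le_sum fun v hv => (norm_sum_le _ _).trans (sum_le_sum (h1 a ha v hv)))).trans ?_)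
  simp only [sum_add_distrib]
  rw [mul_add]
  refine add_le_add (add_le_add ?_ ?_) ?_
  · refine (S.II_cs3 r (fun a v v' => hvar _ _) fun a v v' => hnn _).trans
      (II_sqrt hC (S.II_sum1 hr hg hK) ?_)
    rw [S.II_swap r fun a v _ => 16 * (S.Q : ℝ) ^ 4 * S.nn (S.Fd (a ∪ v) f)]
    exact S.II_sum2 hr hf hK
  · refine (S.II_cs3 r (fun a v v' => hnn _) fun a v v' => hvar _ _).trans
      (II_sqrt hC (S.II_sum2 hr hg hK) ?_)
    rw [S.II_swap r fun a v v' => 16 * (S.Q : ℝ) ^ 4 * ∑ p ∈ v', S.IIvar p (S.Fd (a ∪ v) f)]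
    exact S.II_sum1 hr hf hK
  · simp only [← mul_sum]
    exact mul_le_mul_of_nonneg_left (S.overlap_le hr hg hf) (by positivity)

end Sys

end Pool.Agent.Work.MP_d018b2_nt.R
end

-- merged part: Pool.Agent.Work.MP_d018b2_nt.R.SPCore
section
/-! The core lemma. -/

set_option autoImplicit false
open Finset Pool.Agent.Lib.LargeSieve

namespace Pool.Agent.Work.MP_d018b2_nt.R

open Pool.Agent.Work.MP_678620_nt

namespace Sys

variable {ι : Type} [Fintype ι] [DecidableEq ι] (S : Sys ι)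

lemma core_sq {M : ℝ} (hM : 1 ≤ M) (hMΛ : M ≤ S.Λ) {f : S.G → ℂ} (hf : S.Supp f) :
    √(S.nn f) ≤ √(S.tn M f) ∧ √(S.Err f) ≤ 4 * S.Λ ^ 2 * √(S.tn M f) ∧
      √(S.inf f / S.H0) ≤ ((S.Q : ℝ) ^ 5 * S.Λ ^ 2)⁻¹ * √(S.tn M f) := by
  have hM0 : 0 < M := by linarith
  have hΛ := S.big
  have hH : 0 < S.H0 := lt_of_lt_of_le (by norm_num) S.H0_big
  have hQ : (2 : ℝ) ≤ S.Q := by exact_mod_cast S.Q_ge
  have ht : 0 ≤ S.tn M f := (S.nn_nonneg f).trans (S.nn_le_tn hM0 f)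
  have hi : S.inf f ≤ S.Λ * S.tn M f :=
    (S.inf_le_tn hM0 f).trans (mul_le_mul_of_nonneg_right hMΛ ht)
  refine ⟨Real.sqrt_le_sqrt (S.nn_le_tn hM0 f), ?_, ?_⟩
  · refine Real.sqrt_le_iff.2 ⟨by positivity, ?_⟩
    rw [mul_pow, Real.sq_sqrt ht]
    calc _ ≤ 16 * S.Λ ^ 3 * S.inf f := S.Err_le hf
      _ ≤ 16 * S.Λ ^ 3 * (S.Λ * S.tn M f) := mul_le_mul_of_nonneg_left hi (by positivity)
      _ = _ := by ring
  · refine Real.sqrt_le_iff.2 ⟨by positivity, ?_⟩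
    rw [mul_pow, Real.sq_sqrt ht, div_le_iff₀ hH]
    have h1 := S.mono_le_H0 (a := 0) (b := 0) (c := 10) (d := 5) (by norm_num) (by norm_num)
      (by norm_num) (by norm_num)
    calc _ ≤ S.Λ * S.tn M f := hi
      _ = ((S.Q : ℝ) ^ 5 * S.Λ ^ 2)⁻¹ ^ 2 * S.tn M f *
          ((S.D : ℝ) ^ 0 * (S.D' : ℝ) ^ 0 * (S.Q : ℝ) ^ 10 * S.Λ ^ 5) := by
          field_simp
      _ ≤ _ := mul_le_mul_of_nonneg_left h1 (by positivity)

lemma core_num {Λ Q H a b c : ℝ} (hΛ : 100 ≤ Λ) (hQ : 2 ≤ Q) (hH : Q ^ 3 * Λ ^ 3 ≤ H)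
    (ha : 0 ≤ a) (hb : 1 / Q ≤ b) (hc : c ≤ a) :
    16 * Λ ^ 3 * a + 3 * Λ ^ 2 / H + (20 / Q * Λ + Λ ^ 8 * (c + b)) +
      (32 * Q ^ 4 * Λ * (Q ^ 5 * Λ ^ 2)⁻¹ + 2 * Q ^ 2 * (Λ ^ 2 / H)) ≤ 2 * Λ ^ 8 * (a + b) := by
  have hΛ0 : 0 < Λ := by linarith
  have hQ0 : 0 < Q := by linarith
  have hb0 : 0 ≤ b := le_trans (by positivity) hb
  have h1 : Q ^ 2 * (Λ ^ 2 / H) ≤ b := by
    clear * - Q Λ H b hΛ hQ hH hΛ0 hb
    refine le_trans ?_ hb
    calc Q ^ 2 * (Λ ^ 2 / H) ≤ Q ^ 2 * (Λ ^ 2 / (Q ^ 3 * Λ ^ 3)) := by gcongr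
      _ = 1 / Q * (1 / Λ) := by field_simp
      _ ≤ 1 / Q := mul_le_of_le_one_right (by positivity) (by rw [div_le_one hΛ0]; linarith)
  have hH0 : 0 < H := lt_of_lt_of_le (by positivity) hH
  have h2 : Λ ^ 2 / H ≤ b :=
    le_trans (le_mul_of_one_le_left (by positivity) (one_le_pow₀ (by linarith))) h1
  have h3 : 20 / Q * Λ ≤ 20 * Λ * b := by
    calc 20 / Q * Λ = 20 * Λ * (1 / Q) := by ring
      _ ≤ _ := by gcongr
  have h4 : 32 * Q ^ 4 * Λ * (Q ^ 5 * Λ ^ 2)⁻¹ ≤ b := by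
    refine le_trans ?_ hb
    calc _ = 1 / Q * (32 / Λ) := by field_simp
      _ ≤ 1 / Q := mul_le_of_le_one_right (by positivity) (by rw [div_le_one hΛ0]; linarith)
  have h5 : 100 * Λ ≤ Λ ^ 3 := by nlinarith
  have h6 : 100 * Λ ^ 3 ≤ Λ ^ 8 := by
    clear * - Λ hΛ
    have : (100 : ℝ) ≤ Λ ^ 5 := le_trans hΛ (le_self_pow₀ (by linarith) (by norm_num))
    calc 100 * Λ ^ 3 ≤ Λ ^ 5 * Λ ^ 3 := by gcongr
      _ = _ := by ring
  have h7 : 16 * Λ ^ 3 * a ≤ Λ ^ 8 * a := mul_le_mul_of_nonneg_right (by linarith only [hΛ, h5, h6]) ha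
  have h8 : (20 * Λ + 6) * b ≤ Λ ^ 8 * b := mul_le_mul_of_nonneg_right (by linarith only [hΛ, h5, h6]) hb0
  have h9 : Λ ^ 8 * c ≤ Λ ^ 8 * a := mul_le_mul_of_nonneg_left hc (by positivity)
  have h10 : 3 * Λ ^ 2 / H = 3 * (Λ ^ 2 / H) := by ring
  have h11 : 2 * Q ^ 2 * (Λ ^ 2 / H) = 2 * (Q ^ 2 * (Λ ^ 2 / H)) := by ring
  rw [h10, h11]
  linarith only [h1, h2, h3, h4, h7, h8, h9]

lemma core_term {M : ℝ} (hM : 1 ≤ M) (hMΛ : M ≤ S.Λ) {g f : S.G → ℂ} (hg : S.Supp g)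
    (hf : S.Supp f) {r : ℕ} (hr2 : 1 ≤ r) (hr : r ≤ S.k) :
    ‖S.TT r g f - (S.piC (S.k - r) : ℂ) * S.SS r g f‖ ≤
      2 * S.Λ ^ 8 * (1 / √S.D' + 1 / √S.Q) * (S.D * S.D' * (√(S.tn M g) * √(S.tn M f))) := by
  have hM0 : 0 < M := by linarith
  have hΛ := S.big
  have hH : 0 < S.H0 := lt_of_lt_of_le (by norm_num) S.H0_big
  have hQ : (2 : ℝ) ≤ S.Q := by exact_mod_cast S.Q_ge
  have hD : (1 : ℝ) ≤ S.D := by exact_mod_cast S.one_le_D
  have hD' : (1 : ℝ) ≤ S.D' := by exact_mod_cast S.one_le_D'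
  have htg : 0 ≤ S.tn M g := (S.nn_nonneg g).trans (S.nn_le_tn hM0 g)
  have htf : 0 ≤ S.tn M f := (S.nn_nonneg f).trans (S.nn_le_tn hM0 f)
  obtain ⟨g1, g2, g3⟩ := S.core_sq hM hMΛ hg
  obtain ⟨f1, f2, f3⟩ := S.core_sq hM hMΛ hf
  have t1 := S.TT_sub_MD r hg hf
  have t2 := S.MD_sub_MW hr hg hf
  have t3 := S.MW_sub_MK hr2 hr hg hf
  have t4 := S.SS_sub_MK hr2 hr hg hf
  have n1 := S.N2_le hr2 hr hM hMΛ hg
  have n2 := S.N2_le hr2 hr hM hMΛ hf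
  have hp0 := S.piC_nonneg (S.k - r)
  have hp1 := S.piC_le_one (S.k - r)
  have hsD : 0 < √(S.D' : ℝ) := Real.sqrt_pos.2 (by clear * - ι S hD'; linarith)
  have hsQ : 0 < √(S.Q : ℝ) := Real.sqrt_pos.2 (by clear * - ι S hQ; linarith)
  have hnum := core_num (Λ := S.Λ) (Q := S.Q) (H := S.H0) (a := 1 / √S.D') (b := 1 / √S.Q)
    (c := 1 / S.D') hΛ hQ
    (by simpa using S.mono_le_H0 (a := 0) (b := 0) (c := 3) (d := 3) (by norm_num) (by norm_num)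
          (by norm_num) (by norm_num))
    (by positivity)
    (one_div_le_one_div_of_le hsQ (Real.sqrt_le_iff.2 ⟨by linarith only [hQ], by nlinarith only [hQ]⟩))
    (one_div_le_one_div_of_le hsD (Real.sqrt_le_iff.2 ⟨by linarith only [hD'], by nlinarith only [hD']⟩))
  have hnn : √(S.nn g) * √(S.nn f) ≤ √(S.tn M g) * √(S.tn M f) := by gcongr
  have hN : √(S.N2 r g) * √(S.N2 r f) ≤ S.Λ ^ 8 * S.D * S.D' * (1 / S.D' + 1 / √S.Q) *
      (√(S.tn M g) * √(S.tn M f)) := by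
    have hc : 0 ≤ S.Λ ^ 8 * S.D * S.D' * (1 / S.D' + 1 / √S.Q) := by positivity
    calc _ ≤ √(S.Λ ^ 8 * S.D * S.D' * (1 / S.D' + 1 / √S.Q) * S.tn M g) *
          √(S.Λ ^ 8 * S.D * S.D' * (1 / S.D' + 1 / √S.Q) * S.tn M f) := by gcongr
      _ = _ := by
          rw [Real.sqrt_mul hc, Real.sqrt_mul hc, mul_mul_mul_comm, Real.mul_self_sqrt hc]
  set A := √(S.tn M g) with hA
  set B := √(S.tn M f) with hB
  have hA0 : 0 ≤ A := Real.sqrt_nonneg _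
  have hB0 : 0 ≤ B := Real.sqrt_nonneg _
  have u1 : ‖S.TT r g f - S.MD r g f‖ ≤ 16 * S.Λ ^ 3 * (1 / √S.D') * (S.D * S.D' * (A * B)) := by
    calc _ ≤ _ := t1
      _ ≤ 2 * S.D * S.Λ * √S.D' * (4 * S.Λ ^ 2 * A * B + A * (4 * S.Λ ^ 2 * B)) := by gcongr
      _ = 16 * S.Λ ^ 3 * (1 / √S.D') * (S.D * (√S.D' * √S.D') * (A * B)) := by
          field_simp; ring
      _ = _ := by rw [Real.mul_self_sqrt (by linarith only [hD'])]
  have u2 : ‖S.MD r g f - (S.piC (S.k - r) : ℂ) * S.MW r g f‖ ≤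
      3 * S.Λ ^ 2 / S.H0 * (S.D * S.D' * (A * B)) := by
    calc _ ≤ _ := t2
      _ ≤ 3 * S.Λ ^ 2 / S.H0 * S.D * S.D' * (A * B) := by gcongr
      _ = _ := by ring
  have u3 : ‖S.MW r g f - S.MK r g f‖ ≤
      (20 / S.Q * S.Λ + S.Λ ^ 8 * (1 / S.D' + 1 / √S.Q)) * (S.D * S.D' * (A * B)) := by
    calc _ ≤ _ := t3
      _ ≤ 20 / S.Q * (S.Λ * S.D * S.D') * (A * B) +
          S.Λ ^ 8 * S.D * S.D' * (1 / S.D' + 1 / √S.Q) * (A * B) := by gcongr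
      _ = _ := by ring
  have u4 : ‖S.SS r g f - S.MK r g f‖ ≤
      (32 * (S.Q : ℝ) ^ 4 * S.Λ * ((S.Q : ℝ) ^ 5 * S.Λ ^ 2)⁻¹ +
        2 * (S.Q : ℝ) ^ 2 * (S.Λ ^ 2 / S.H0)) * (S.D * S.D' * (A * B)) := by
    calc _ ≤ _ := t4
      _ ≤ 16 * (S.Q : ℝ) ^ 4 * S.Λ * S.D * S.D' * (((S.Q : ℝ) ^ 5 * S.Λ ^ 2)⁻¹ * A * B +
            A * (((S.Q : ℝ) ^ 5 * S.Λ ^ 2)⁻¹ * B)) +
          2 * (S.Q : ℝ) ^ 2 * (S.Λ ^ 2 / S.H0 * S.D * S.D' * (A * B)) := by gcongr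
      _ = _ := by ring
  have e : S.TT r g f - (S.piC (S.k - r) : ℂ) * S.SS r g f =
      (S.TT r g f - S.MD r g f) + (S.MD r g f - (S.piC (S.k - r) : ℂ) * S.MW r g f) +
        (S.piC (S.k - r) : ℂ) * (S.MW r g f - S.MK r g f) -
        (S.piC (S.k - r) : ℂ) * (S.SS r g f - S.MK r g f) := by ring
  have hp : ∀ z : ℂ, ‖(S.piC (S.k - r) : ℂ) * z‖ ≤ ‖z‖ := fun z => by
    rw [norm_mul, Complex.norm_real, Real.norm_of_nonneg hp0]
    exact mul_le_of_le_one_left (norm_nonneg z) hp1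
  rw [e]
  refine le_trans ?_ (mul_le_mul_of_nonneg_right hnum (by positivity))
  refine (norm_sub_le _ _).trans ?_
  have := norm_add₃_le (a := S.TT r g f - S.MD r g f)
    (b := S.MD r g f - (S.piC (S.k - r) : ℂ) * S.MW r g f)
    (c := (S.piC (S.k - r) : ℂ) * (S.MW r g f - S.MK r g f))
  have h3 := hp (S.MW r g f - S.MK r g f)
  have h4 := hp (S.SS r g f - S.MK r g f)
  rw [add_mul, add_mul, add_mul]
  linarith only [u1, u2, u3, u4, this, h3, h4]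

theorem core {M : ℝ} (hM : 1 ≤ M) (hMΛ : M ≤ S.Λ) {g f : S.G → ℂ} (hg : S.Supp g)
    (hf : S.Supp f) :
    ‖S.ip g (S.Xop S.Kk f)‖ ≤ S.rho * (√(S.tn M g) * √(S.tn M f)) := by
  have hΛ := S.big
  rw [S.form_X hg hf]
  refine (norm_sum_le _ _).trans ((Finset.sum_le_card_nsmul _ _ _ fun r hr =>
    S.core_term hM hMΛ hg hf (S.k_ge.trans (mem_Icc.1 hr).1) (mem_Icc.1 hr).2).trans ?_)
  have hk : ((Icc S.k S.k).card : ℝ) ≤ S.Λ := by
    refine le_trans ?_ S.k_le_Λ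
    rw [Nat.card_Icc]
    exact_mod_cast (by have := S.k_ge; omega : S.k + 1 - S.k ≤ S.k)
  rw [nsmul_eq_mul]
  unfold rho
  calc _ ≤ S.Λ * (S.Λ * S.Λ ^ 8 * (1 / √S.D' + 1 / √S.Q) *
        (S.D * S.D' * (√(S.tn M g) * √(S.tn M f)))) := by clear * - ι S M g f hk hΛ; gcongr; linarith
    _ = _ := by ring

end Sys

end Pool.Agent.Work.MP_d018b2_nt.R
end

-- merged part: Pool.Agent.Work.MP_d018b2_nt.R.SPSysA
section
/-! The bound for one system: symmetric sums and the operator bound. -/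

set_option autoImplicit false
open Finset Pool.Agent.Lib.LargeSieve

namespace Pool.Agent.Work.MP_d018b2_nt.R

open Pool.Agent.Work.MP_678620_nt

namespace Sys

variable {ι : Type} [Fintype ι] [DecidableEq ι] (S : Sys ι)

lemma es_add_le (i j : ℕ) : ((i + j).choose j : ℝ) * S.es (i + j) ≤ S.es i * S.es j := by
  have h1 : ((i + j).choose j : ℝ) * S.es (i + j) =
      ∑ x ∈ (S.E.powersetCard (i + j)).sigma fun Z => Z.powersetCard j,
        S.iv (x.1 \ x.2) * S.iv x.2 := by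
    rw [es_eq, mul_sum, sum_sigma]
    refine sum_congr rfl fun Z hZ => ?_
    rw [sum_congr rfl (g := fun _ => S.iv Z) fun T hT => by
      rw [← S.iv_union sdiff_disjoint, sdiff_union_of_subset (mem_powersetCard.1 hT).1],
      sum_const, card_powersetCard, (mem_powersetCard.1 hZ).2, nsmul_eq_mul]
  have h2 : Set.InjOn (fun x : (_ : Finset ι) × Finset ι => (x.1 \ x.2, x.2))
      ((S.E.powersetCard (i + j)).sigma fun Z => Z.powersetCard j : Finset _) := by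
    rintro ⟨Z, T⟩ hx ⟨Z', T'⟩ hy e
    obtain ⟨e1, rfl⟩ := Prod.mk.inj e
    have a := sdiff_union_of_subset (mem_powersetCard.1 (mem_sigma.1 hx).2).1
    have b := sdiff_union_of_subset (mem_powersetCard.1 (mem_sigma.1 hy).2).1
    simp only at a b e1
    rw [← a, ← b, e1]
  rw [h1, es_eq, es_eq, sum_mul_sum, ← sum_product',
    ← sum_image (f := fun x : Finset ι × Finset ι => S.iv x.1 * S.iv x.2) h2]
  refine sum_le_sum_of_subset_of_nonneg (fun x hx => ?_) fun x _ _ =>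
    (mul_pos (S.iv_pos _) (S.iv_pos _)).le
  obtain ⟨⟨Z, T⟩, hy, rfl⟩ := mem_image.1 hx
  obtain ⟨hZ, hT⟩ := mem_sigma.1 hy
  obtain ⟨a1, a2⟩ := mem_powersetCard.1 hZ
  obtain ⟨b1, b2⟩ := mem_powersetCard.1 hT
  simp only at a1 a2 b1 b2
  refine mem_product.2 ⟨mem_powersetCard.2 ⟨sdiff_subset.trans a1, ?_⟩,
    mem_powersetCard.2 ⟨b1.trans a1, b2⟩⟩
  rw [card_sdiff_of_subset b1, a2, b2, Nat.add_sub_cancel]

lemma SPSysA_rho : 1 ≤ S.rho := by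
  have hΛ := S.big
  have hD : (1 : ℝ) ≤ S.D := by exact_mod_cast S.one_le_D
  have hD' : (1 : ℝ) ≤ S.D' := by exact_mod_cast S.one_le_D'
  have h1 : (1 : ℝ) ≤ S.Λ ^ 10 := one_le_pow₀ (by linarith)
  have h2 : (1 : ℝ) ≤ S.D' * (1 / √S.D' + 1 / √S.Q) := by
    have h3 : (1 : ℝ) ≤ S.D' * (1 / √S.D') := by
      rw [mul_one_div, Real.div_sqrt]
      exact Real.one_le_sqrt.2 hD'
    have h4 : 0 ≤ (S.D' : ℝ) * (1 / √S.Q) := by positivity
    rw [mul_add]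
    linarith only [h3, h4]
  rw [rho, mul_assoc]
  exact one_le_mul_of_one_le_of_one_le (one_le_mul_of_one_le_of_one_le h1 hD) h2

theorem ip_GX_le {N n M J : ℕ} {i0 : ι} (hi0 : i0 ∉ S.E) (hn : 1 ≤ n)
    (hN : 40 * (n * S.h.natAbs) ≤ N) (hW : 10 * (S.T * N) < S.m i0) (hM : 1 ≤ M)
    (hMΛ : (M : ℝ) ≤ S.Λ)
    (hMM : S.m i0 * (((2 * S.R + 1) * S.H1 ^ (10 * S.s)) ^ (n + 1)) ^ 2 *
      (4 ^ ((n + 1) * (8 * S.s)) * Real.exp (4 * ((n + 1) * 3 : ℕ) * S.L)) ≤ 4 ^ M)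
    (hJ1 : (2 * (n * S.R) + 1) * (((2 * S.R + 1) * S.H1 ^ (10 * S.s)) ^ n) ^ 2 *
      (2 * (((2 * (n * 3) : ℕ) * S.L) ^ (J + 1) / (J + 1).factorial)) ≤ 1)
    (hJ2 : (2 * (n * S.R) + 1) * (((2 * S.R + 1) * S.H1 ^ (10 * S.s)) ^ n) ^ 2 *
      (S.H1 ^ (2 * (n * (8 * S.s))) * (1 + (2 * (n * 3) : ℕ) * S.H1) ^ (J + 1)) ≤ N)
    (hn2 : 120 * (n * S.R) * Real.exp (-(2 * n)) ≤ S.es (S.s + S.k'))
    {g : ℤ → ℂ} (hg1 : ∀ y, ‖g y‖ ≤ 1) :
    ‖S.ip (S.GX N g) (S.Xop S.Kk (S.GX N g))‖ ≤ 90 * S.rho * (S.T * N) * S.es (S.s + S.k') := by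
  have hρ := S.SPSysA_rho
  have hR : 20 * (n * S.R) ≤ S.T * N := by
    clear * - ι S n N hN
    have := Nat.mul_le_mul_left S.T hN
    rw [R]
    nlinarith only [this]
  have hR1 : S.R ≤ n * S.R := Nat.le_mul_of_pos_left _ hn
  have hNT : N ≤ S.T * N := Nat.le_mul_of_pos_left _ S.T_pos
  have h2 : 2 * S.T * N = 2 * (S.T * N) := by ring
  have hnn := S.nn_GX_le (N := N)
    (by have := Nat.le_mul_of_pos_left S.h.natAbs hn; omega) hW hg1
  set Θ : ℝ := Real.exp 1 * (2 * S.rho + 1) with hΘ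
  have hΘ0 : 0 < Θ := by positivity
  have hw := S.win S.Kk_herm hn (i0 := i0) (lo := (S.T * N : ℕ) - S.R)
    (hi := (2 * S.T * N : ℕ) + S.R) (by rw [h2]; omega) (S.norm_Gt_le hg1) hΘ0
  have hit := S.iter (C := S.Cg) (one_le_pow₀ S.repK_one_le) (by clear * - ι S hρ hM hMM hMΛ hi0 hn; linarith : 0 ≤ S.rho) S.rep_Kk
    ((S.rep_Cg.weaken subset_rfl (by omega) (by norm_num)).mono (S.repK_pow_le (by omega)))
    (fun _ _ h => S.Kk_supp h) hM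
    (fun _ _ hg hf => S.core (by exact_mod_cast hM) hMΛ hg hf) hi0 hn (by omega) hMM
  have htr := S.Psi_transfer S.rep_Kk n J ((S.T * N : ℕ) - S.R - 4 * (n * S.R : ℕ))
    (S.T * N + 2 * S.R + 8 * (n * S.R))
  rw [show ((S.T * N : ℕ) : ℤ) - S.R - 4 * (n * S.R : ℕ) +
      (S.T * N + 2 * S.R + 8 * (n * S.R) : ℕ) =
      (2 * S.T * N : ℕ) + S.R + 4 * (n * S.R : ℕ) by rw [h2]; omega] at htr
  have hY : ((S.T * N + 2 * S.R + 8 * (n * S.R) : ℕ) : ℝ) ≤ 3 / 2 * (S.T * N) := by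
    clear * - ι S N n M i0 hR hR1
    have : ((2 * (S.T * N + 2 * S.R + 8 * (n * S.R)) : ℕ) : ℝ) ≤ (3 * (S.T * N) : ℕ) :=
      Nat.cast_le.2 (by omega)
    push_cast at this ⊢
    linarith only [this]
  have hY0 : (0 : ℝ) ≤ ((S.T * N + 2 * S.R + 8 * (n * S.R) : ℕ) : ℝ) := Nat.cast_nonneg _
  generalize ((S.T * N + 2 * S.R + 8 * (n * S.R) : ℕ) : ℝ) = Y at htr hY hY0
  have hNT' : (N : ℝ) ≤ S.T * N := by exact_mod_cast hNT
  have hTN : (0 : ℝ) ≤ S.T * N := by positivity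
  have hP : 1 ≤ (2 * S.rho + 1) ^ (2 * n) := one_le_pow₀ (by clear * - ι S hρ n; linarith)
  have hG : (0 : ℝ) < Fintype.card S.G := by exact_mod_cast Fintype.card_pos
  have h3 : (Fintype.card S.G : ℝ)⁻¹ * ∑ ξ, S.Psi S.Kk n ξ ≤ 2 * (2 * S.rho + 1) ^ (2 * n) := by
    clear * - ι S n hG hit
    rw [inv_mul_le_iff₀ hG]
    linarith
  have h4 := htr.trans (show _ ≤ 11 / 2 * (S.T * N) * (2 * S.rho + 1) ^ (2 * n) by
    clear * - Y ι S n h3 hY0 J hJ1 N hP hTN hY hJ2 hNT'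
    have a1 := mul_le_mul_of_nonneg_left h3 hY0
    have a2 := mul_le_mul_of_nonneg_left hJ1 hY0
    have a3 := mul_le_mul_of_nonneg_left hP hTN
    have a4 := mul_le_mul_of_nonneg_right hY (zero_le_one.trans hP)
    linarith only [hJ2, hY, hNT', a1, a2, a3, a4])
  have h5 : (2 * S.rho + 1) ^ (2 * n) = Θ ^ (2 * n - 1) * (Θ * Real.exp (-(2 * n))) := by
    rw [← mul_assoc, ← pow_succ, show 2 * n - 1 + 1 = 2 * n by omega, hΘ, mul_pow,
      ← Real.exp_nat_mul, mul_right_comm, ← Real.exp_add]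
    simp
  have h6 : 15 * (n * S.R) / Θ ^ (2 * n - 1) *
      (11 / 2 * (S.T * N) * (2 * S.rho + 1) ^ (2 * n)) =
      11 / 16 * (Θ * (S.T * N)) * (120 * (n * S.R) * Real.exp (-(2 * n))) := by
    clear * - n ι S Θ N h5 hΘ0 hn
    rw [h5]
    field_simp
    ring
  have h7 := mul_le_mul_of_nonneg_left h4
    (show (0 : ℝ) ≤ 15 * (n * S.R) / Θ ^ (2 * n - 1) by positivity)
  have h8 := mul_le_mul_of_nonneg_left hn2 (show 0 ≤ 11 / 16 * (Θ * (S.T * N)) by positivity)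
  have h9 := mul_le_mul_of_nonneg_left hnn hΘ0.le
  have h10 : Θ ≤ 9 * S.rho := by
    clear * - Θ ι S hΘ hρ
    have := Real.exp_one_lt_d9
    rw [hΘ]
    nlinarith only [hρ, this]
  have h11 := mul_le_mul_of_nonneg_right h10 (mul_nonneg hTN (S.es_nonneg (S.s + S.k')))
  have h12 := mul_nonneg (by clear * - ι S hρ hTN; linarith : 0 ≤ S.rho) (mul_nonneg hTN (S.es_nonneg (S.s + S.k')))
  rw [h6] at h7
  unfold GX at h9 ⊢
  clear * - ι S N g Θ n hw h7 h8 h9 h11 h12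
  linarith only [hw, h7, h8, h9, h11, h12]

end Sys

end Pool.Agent.Work.MP_d018b2_nt.R
end

-- merged part: Pool.Agent.Work.MP_d018b2_nt.R.NInt
section
/-! The two-step form on the integers, as a sum of squares over the cofactors. -/

set_option autoImplicit false
open Finset Pool.Agent.Lib.LargeSieve

namespace Pool.Agent.Work.MP_d018b2_nt.R

open Pool.Agent.Work.MP_678620_nt Int4

lemma card_le_real (s : Finset ℤ) {x y : ℝ} (hxy : x ≤ y) (h : ∀ n ∈ s, x < n ∧ (n : ℝ) ≤ y) :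
    (s.card : ℝ) ≤ y - x + 1 := by
  have hsub : s ⊆ Ioc ⌊x⌋ ⌊y⌋ := fun n hn =>
    mem_Ioc.2 ⟨Int.floor_lt.2 (h n hn).1, Int.le_floor.2 (h n hn).2⟩
  have h1 := card_le_card hsub
  rw [Int.card_Ioc] at h1
  have h2 : ⌊x⌋ ≤ ⌊y⌋ := Int.floor_mono hxy
  have h3 : (s.card : ℤ) ≤ ⌊y⌋ - ⌊x⌋ := by omega
  have h4 : (s.card : ℝ) ≤ (⌊y⌋ : ℝ) - ⌊x⌋ := by exact_mod_cast h3
  linarith [Int.floor_le y, Int.lt_floor_add_one x]

lemma win_lo {α β β' T N h η n : ℝ} (hT : 0 < T) (hα : 0 < α) (hβ : 0 < β) (hβ' : 0 < β')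
    (hη : 0 ≤ η) (hη1 : η ≤ 1 / 4) (hh : 0 ≤ h) (hN : 4 * h ≤ N) (h1 : α * β ≤ (1 + η) * T)
    (h2 : α * β' ≤ (1 + η) * T) (hx : T * (N - 4 * h) < α * β * β' * n) :
    α / T * (N - 4 * h - 2 * η * N) < n := by
  have hn : 0 < n := by
    by_contra hc
    have : α * β * β' * n ≤ 0 := mul_nonpos_of_nonneg_of_nonpos (by positivity) (not_lt.1 hc)
    have : 0 ≤ T * (N - 4 * h) := mul_nonneg hT.le (by linarith)
    linarith
  have a1 : α * β * (α * β') ≤ (1 + η) * T * ((1 + η) * T) :=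
    mul_le_mul h1 h2 (by positivity) (by positivity)
  have a2 : α * (T * (N - 4 * h)) < α * (α * β * β' * n) := mul_lt_mul_of_pos_left hx hα
  have a3 : α * β * (α * β') * n ≤ (1 + η) * T * ((1 + η) * T) * n :=
    mul_le_mul_of_nonneg_right a1 hn.le
  have a4 : T * (α * (N - 4 * h)) < T * ((1 + η) ^ 2 * (T * n)) := by clear * - T α N h η n β β' a2 a3; nlinarith only [a2, a3]
  have a5 := lt_of_mul_lt_mul_left a4 hT.le
  have a6 : (1 + η) ^ 2 * (1 - 2 * η) ≤ 1 := by clear * - η hη; nlinarith [mul_nonneg hη (sq_nonneg η), sq_nonneg η]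
  have a7 : (1 - 2 * η) * (α * (N - 4 * h)) < (1 - 2 * η) * ((1 + η) ^ 2 * (T * n)) :=
    mul_lt_mul_of_pos_left a5 (by linarith)
  have a8 : (1 + η) ^ 2 * (1 - 2 * η) * (T * n) ≤ 1 * (T * n) :=
    mul_le_mul_of_nonneg_right a6 (by positivity)
  rw [div_mul_eq_mul_div, div_lt_iff₀ hT]
  have a9 : 0 ≤ α * (η * h) := by positivity
  clear * - α N h η n T a7 a8 a9
  nlinarith only [a7, a8, a9]

lemma win_hi {α β β' T M n : ℝ} (hT : 0 < T) (hα : 0 < α) (hn : 0 ≤ n) (h1 : T ≤ α * β)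
    (h2 : T ≤ α * β') (hx : α * β * β' * n ≤ T * M) : n ≤ α / T * M := by
  have a1 : T * T ≤ α * β * (α * β') := mul_le_mul h1 h2 hT.le (hT.le.trans h1)
  have a2 : α * (α * β * β' * n) ≤ α * (T * M) := mul_le_mul_of_nonneg_left hx hα.le
  have a3 : T * T * n ≤ α * β * (α * β') * n := mul_le_mul_of_nonneg_right a1 hn
  rw [div_mul_eq_mul_div, le_div_iff₀ hT]
  refine le_of_mul_le_mul_left ?_ hT
  nlinarith only [a2, a3]

lemma win_mid {α T N η n : ℝ} (hT : 0 < T) (hη : 0 ≤ η) (hη1 : η ≤ 1 / 4) (hn : 0 ≤ n)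
    (hx : 2 * (α * N) < (1 + η) ^ 2 * (T * n)) : α / T * (2 * N - 4 * η * N) < n := by
  have a6 : (1 + η) ^ 2 * (1 - 2 * η) ≤ 1 := by nlinarith only [hη, mul_nonneg hη (sq_nonneg η), sq_nonneg η]
  have a7 : (1 - 2 * η) * (2 * (α * N)) < (1 - 2 * η) * ((1 + η) ^ 2 * (T * n)) :=
    mul_lt_mul_of_pos_left hx (by linarith)
  have a8 : (1 + η) ^ 2 * (1 - 2 * η) * (T * n) ≤ 1 * (T * n) :=
    mul_le_mul_of_nonneg_right a6 (by positivity)
  rw [div_mul_eq_mul_div, div_lt_iff₀ hT]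
  nlinarith only [a7, a8]

lemma norm_conj_mul_sub {a b c d : ℂ} (hb : ‖b‖ ≤ 1) (hc : ‖c‖ ≤ 1) :
    ‖(starRingEnd ℂ) a * b - (starRingEnd ℂ) c * d‖ ≤ ‖a - c‖ + ‖b - d‖ := by
  have e : (starRingEnd ℂ) a * b - (starRingEnd ℂ) c * d
      = (starRingEnd ℂ) (a - c) * b + (starRingEnd ℂ) c * (b - d) := by
    rw [map_sub]; ring
  rw [e]
  refine (norm_add_le _ _).trans (add_le_add ?_ ?_)
  · rw [norm_mul, Complex.norm_conj]
    exact mul_le_of_le_one_right (norm_nonneg _) hb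
  · rw [norm_mul, Complex.norm_conj]
    exact mul_le_of_le_one_left (norm_nonneg _) hc

namespace Sys

variable {ι : Type} [Fintype ι] [DecidableEq ι] (S : Sys ι)

/-- The function restricted to its class. -/
noncomputable def g1 (g : ℤ → ℂ) (n : ℤ) : ℂ := if (S.Zi n).card = S.k' then g n else 0

/-- The range of the cofactors. -/
noncomputable def Ia (T N : ℕ) (a : Finset ι) : Finset ℤ :=
  Iv T (S.pr a * N : ℕ) (2 * (S.pr a * N : ℕ))

/-- The cofactors free of the primes of `E`. -/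
noncomputable def Ib (T N : ℕ) (a : Finset ι) : Finset ℤ :=
  (S.Ia T N a).filter fun n => S.Zi n = ∅

def VF (DD : Finset (Finset ι)) (a : Finset ι) : Finset (Finset ι) :=
  ((S.E \ a).powersetCard S.k).filter fun v => a ∪ v ∈ DD

noncomputable def PP (T N : ℕ) (DD : Finset (Finset ι)) (u : ℤ → ℂ) (a : Finset ι) : ℝ :=
  ∑ n ∈ S.Ib T N a, ‖∑ v ∈ S.VF DD a, u (S.pr v * n + S.h)‖

lemma norm_g1_le {g : ℤ → ℂ} (hg1 : ∀ y, ‖g y‖ ≤ 1) (n : ℤ) : ‖S.g1 g n‖ ≤ 1 := by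
  unfold g1
  split_ifs
  · exact hg1 n
  · simp

lemma Phi_int {N : ℕ} (hN : 10 * S.h.natAbs ≤ N) {i0 : ι} (hW : 10 * (S.T * N) < S.m i0)
    (g : ℤ → ℂ) {d d' : Finset ι} (hd : d ∈ S.DD) (hd' : d' ∈ S.DD) :
    (∑ x : S.G, if (S.Zs x).card = S.s + S.k ∧ d ⊆ S.Zs x ∧ d' ⊆ S.Zs x then
        (starRingEnd ℂ) (S.GX N g (x + (S.jp d : S.G))) * S.GX N g (x + (S.jp d' : S.G)) else 0)
      = ∑ n ∈ Iv (S.pr (d ∪ d')) ((S.T * N : ℕ) - 2 * S.R) (2 * (S.T * N : ℕ) + 2 * S.R),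
        if (S.Zi (S.pr (d ∪ d') * n)).card = S.s + S.k then
          (starRingEnd ℂ) (GI S N g (S.pr (d ∪ d') * n + S.jp d))
            * GI S N g (S.pr (d ∪ d') * n + S.jp d') else 0 := by
  have h5 := five_R_le S hN
  have h2 := two_TN S N
  have hW' : 10 * ((S.T * N : ℕ) : ℤ) < S.m i0 := by exact_mod_cast hW
  have hR0 : (0 : ℤ) ≤ S.R := by positivity
  have j1 := abs_le.1 (jp_DD_le S hd)
  have j2 := abs_le.1 (jp_DD_le S hd')
  have hU : d ∪ d' ⊆ S.E := union_subset (S.DD_sub d hd) (S.DD_sub d' hd')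
  rw [S.sum_eq_sum_int (i0 := i0) (lo := (S.T * N : ℕ) - 2 * S.R)
    (hi := 2 * (S.T * N : ℕ) + 2 * S.R) (by omega), ← sum_dvd_eq (S.pr_pos _) _ _ fun y =>
      if (S.Zi y).card = S.s + S.k then
        (starRingEnd ℂ) (GI S N g (y + S.jp d)) * GI S N g (y + S.jp d') else 0]
  · refine sum_congr rfl fun y hy => ?_
    rw [mem_Ioc] at hy
    have e1 : S.GX N g ((y : S.G) + (S.jp d : S.G)) = GI S N g (y + S.jp d) := by
      clear * - ι S N g y d i0 hW d' h5 j1 hy h2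
      rw [← Int.cast_add]
      exact S.ext_cast (i0 := i0) _ (by rw [abs_lt]; constructor <;> omega)
        (by rw [abs_lt]; constructor <;> omega)
    have e2 : S.GX N g ((y : S.G) + (S.jp d' : S.G)) = GI S N g (y + S.jp d') := by
      clear * - ι S N g y d' i0 hW d h5 j2 hy h2
      rw [← Int.cast_add]
      exact S.ext_cast (i0 := i0) _ (by rw [abs_lt]; constructor <;> omega)
        (by rw [abs_lt]; constructor <;> omega)
    rw [e1, e2, ← ite_and]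
    refine if_congr ?_ rfl rfl
    rw [← S.sub_Zi hU, union_subset_iff]
    exact and_comm
  · intro ξ hξ
    have h9 : S.GX N g (ξ + (S.jp d : S.G)) ≠ 0 := by
      intro h0
      apply hξ
      rw [h0]
      simp
    obtain ⟨y, hy, he, -⟩ := S.ext_ne_zero h9
    rw [mem_Ioc] at hy
    refine ⟨y - S.jp d, mem_Ioc.2 ⟨by omega, by omega⟩, ?_⟩
    rw [Int.cast_sub, he]
    abel

/-- One term of the two-step form on the integers. -/
noncomputable def tt (N : ℕ) (g : ℤ → ℂ) (a v v' : Finset ι) (n : ℤ) : ℂ :=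
  if (S.Zi (S.pr (a ∪ v ∪ v') * n)).card = S.s + S.k then
    (starRingEnd ℂ) (GI S N g (S.pr (a ∪ v) * (S.pr v' * n + S.h)))
      * GI S N g (S.pr (a ∪ v') * (S.pr v * n + S.h)) else 0

lemma pr_three {a v v' : Finset ι} (h1 : Disjoint a v) (h2 : Disjoint a v') (h3 : Disjoint v v') :
    S.pr (a ∪ v ∪ v') = S.pr a * S.pr v * S.pr v' := by
  rw [S.pr_union (disjoint_union_left.2 ⟨h2, h3⟩), S.pr_union h1]

lemma TT_int {N : ℕ} (hN : 10 * S.h.natAbs ≤ N) {i0 : ι} (hW : 10 * (S.T * N) < S.m i0)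
    (g : ℤ → ℂ) :
    S.TT S.k (S.GX N g) (S.GX N g) = ∑ a ∈ S.AA S.k, ∑ v ∈ S.VV S.k a, ∑ v' ∈ S.VV S.k a,
      if Disjoint v v' then ∑ n ∈ Iv (S.pr (a ∪ v ∪ v')) ((S.T * N : ℕ) - 2 * S.R)
        (2 * (S.T * N : ℕ) + 2 * S.R), S.tt N g a v v' n else 0 := by
  have h1 : S.TT S.k (S.GX N g) (S.GX N g) = ∑ d ∈ S.DD, ∑ d' ∈ S.DD,
      if (d \ d').card = S.k then ∑ x : S.G,
        if (S.Zs x).card = S.s + S.k ∧ d ⊆ S.Zs x ∧ d' ⊆ S.Zs x then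
          (starRingEnd ℂ) (S.GX N g (x + (S.jp d : S.G))) * S.GX N g (x + (S.jp d' : S.G))
        else 0 else 0 := by
    unfold TT
    rw [sum_comm]
    refine sum_congr rfl fun d _ => ?_
    rw [sum_comm]
    refine sum_congr rfl fun d' _ => ?_
    by_cases h : (d \ d').card = S.k <;> simp [h]
  rw [h1, S.I2_pairs S.k_le]
  refine sum_congr rfl fun a _ => sum_congr rfl fun v hv => sum_congr rfl fun v' hv' => ?_
  refine if_ctx_congr Iff.rfl (fun hd => ?_) fun _ => rfl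
  obtain ⟨-, b1, -, b2⟩ := S.mem_VV.1 hv
  obtain ⟨-, c1, -, c2⟩ := S.mem_VV.1 hv'
  have e : a ∪ v ∪ (a ∪ v') = a ∪ v ∪ v' := by
    clear * - ι a v v'
    ext x; simp only [mem_union]; tauto
  rw [S.Phi_int hN hW g b2 c2, e]
  refine sum_congr rfl fun n _ => ?_
  have e1 : (S.pr (a ∪ v ∪ v') : ℤ) * n + S.jp (a ∪ v) = S.pr (a ∪ v) * (S.pr v' * n + S.h) := by
    rw [S.pr_three b1 c1 hd, jp, S.pr_union b1]; push_cast; ring
  have e2 : (S.pr (a ∪ v ∪ v') : ℤ) * n + S.jp (a ∪ v') = S.pr (a ∪ v') * (S.pr v * n + S.h) := by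
    rw [S.pr_three b1 c1 hd, jp, S.pr_union c1]; push_cast; ring
  rw [e1, e2]
  rfl

lemma norm_tt_le (N : ℕ) {g : ℤ → ℂ} (hg1 : ∀ y, ‖g y‖ ≤ 1) (a v v' : Finset ι) (n : ℤ) :
    ‖S.tt N g a v v' n‖ ≤ 1 := by
  unfold tt
  split_ifs
  · rw [norm_mul, Complex.norm_conj]
    exact mul_le_one₀ (norm_GI_le S N hg1 _) (norm_nonneg _) (norm_GI_le S N hg1 _)
  · simp

lemma count_dvd (Y : ℕ) {U : Finset ι} (hU : U ⊆ S.E) :
    (((Icc (1 : ℤ) Y).filter fun n => ∃ p ∈ U, (S.m p : ℤ) ∣ n).card : ℝ)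
      ≤ U.card * (Y / S.H0) := by
  have h1 : ((Icc (1 : ℤ) Y).filter fun n => ∃ p ∈ U, (S.m p : ℤ) ∣ n) ⊆
      U.biUnion fun p => (Icc (1 : ℤ) Y).filter fun n => (S.m p : ℤ) ∣ n := fun n hn => by
    obtain ⟨h2, p, hp, h3⟩ := mem_filter.1 hn
    exact mem_biUnion.2 ⟨p, hp, mem_filter.2 ⟨h2, h3⟩⟩
  refine le_trans (Nat.cast_le.2 ((card_le_card h1).trans card_biUnion_le)) ?_
  rw [Nat.cast_sum, ← nsmul_eq_mul]
  refine sum_le_card_nsmul _ _ _ fun p hp => (SPBad_mult Y _ (S.m_pos p)).trans ?_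
  rw [div_eq_mul_inv]
  exact mul_le_mul_of_nonneg_left (S.nu_le (hU hp)) (Nat.cast_nonneg _)

lemma mem_Ia {T N : ℕ} (hT : 0 < T) {a : Finset ι} {n : ℤ} :
    n ∈ S.Ia T N a ↔ (S.pr a : ℝ) * N < T * n ∧ (T : ℝ) * n ≤ 2 * (S.pr a * N) := by
  rw [Ia, mem_Iv hT]
  constructor
  · rintro ⟨h1, h2⟩
    exact ⟨by exact_mod_cast h1, by exact_mod_cast h2⟩
  · rintro ⟨h1, h2⟩
    exact ⟨by exact_mod_cast h1, by exact_mod_cast h2⟩

/-- Comparison on the core of the window. -/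
lemma tt_core {N : ℕ} (hN : 10 * S.h.natAbs ≤ N) {η : ℝ} (hη0 : 0 ≤ η)
    (hη : ∀ d ∈ S.DD, (S.pr d : ℝ) ≤ (1 + η) * S.T) {g : ℤ → ℂ} (hg1 : ∀ y, ‖g y‖ ≤ 1)
    (hg : ∀ d ∈ S.DD, ∀ n : ℤ, g (S.pr d * n) = g n) {a v v' : Finset ι} (ha : a ∈ S.AA S.k)
    (hv : v ∈ S.VV S.k a) (hv' : v' ∈ S.VV S.k a) (hd : Disjoint v v') {n : ℤ}
    (hn : n ∈ S.Ia S.T N a) (hn' : (1 + η) ^ 2 * ((S.T : ℝ) * n) ≤ 2 * (S.pr a * N)) :
    n ∈ Iv (S.pr (a ∪ v ∪ v')) ((S.T * N : ℕ) - 2 * S.R) (2 * (S.T * N : ℕ) + 2 * S.R) ∧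
    ‖S.tt N g a v v' n - if S.Zi n = ∅ then
        (starRingEnd ℂ) (S.g1 g (S.pr v' * n + S.h)) * S.g1 g (S.pr v * n + S.h) else 0‖
      ≤ (if ∃ p ∈ a ∪ v ∪ v', (S.m p : ℤ) ∣ n then 1 else 0)
        + (if S.Zi n = ∅ ∧ S.pr v' * n + S.h ∈ Bx S N (a ∪ v) then 1 else 0)
        + (if S.Zi n = ∅ ∧ S.pr v * n + S.h ∈ Bx S N (a ∪ v') then 1 else 0) := by
  obtain ⟨b0, b1, b3, b2⟩ := S.mem_VV.1 hv
  obtain ⟨c0, c1, c3, c2⟩ := S.mem_VV.1 hv'
  obtain ⟨a0, a1⟩ := S.mem_AA.1 ha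
  have hU : a ∪ v ∪ v' ⊆ S.E := union_subset (union_subset a0 b0) c0
  have hUc : (a ∪ v ∪ v').card = S.s + S.k := by
    rw [card_union_of_disjoint (disjoint_union_left.2 ⟨c1, hd⟩), S.DD_card _ b2, c3]
  have hT : (0 : ℝ) < S.T := by exact_mod_cast S.T_pos
  have hα : (0 : ℝ) < S.pr a := by exact_mod_cast S.pr_pos a
  obtain ⟨n1, n2⟩ := (S.mem_Ia S.T_pos).1 hn
  have hN0 : (0 : ℝ) ≤ N := Nat.cast_nonneg _
  have n0 : (0 : ℝ) < n := by
    have : (0 : ℝ) < S.T * n := lt_of_le_of_lt (by positivity) n1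
    exact pos_of_mul_pos_left (by rwa [mul_comm] at this) hT.le |> fun h => h
  have l1 : (S.T : ℝ) ≤ S.pr a * S.pr v := by exact_mod_cast (S.Jav_T hv).1
  have l2 : (S.T : ℝ) ≤ S.pr a * S.pr v' := by exact_mod_cast (S.Jav_T hv').1
  have u1 : (S.pr a : ℝ) * S.pr v ≤ (1 + η) * S.T := by
    have := hη _ b2
    rwa [S.pr_union b1, Nat.cast_mul] at this
  have u2 : (S.pr a : ℝ) * S.pr v' ≤ (1 + η) * S.T := by
    have := hη _ c2
    rwa [S.pr_union c1, Nat.cast_mul] at this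
  have x1 : (S.T : ℝ) * N < S.pr a * S.pr v * S.pr v' * n := by
    clear * - ι S n a v v' l1 l2 hT hα n0 N n1
    have e1 : (S.T : ℝ) * S.T * n ≤ S.pr a * S.pr v * (S.pr a * S.pr v') * n :=
      mul_le_mul_of_nonneg_right (mul_le_mul l1 l2 hT.le (by positivity)) n0.le
    have e2 := mul_lt_mul_of_pos_left n1 hT
    refine lt_of_mul_lt_mul_left ?_ hα.le
    nlinarith only [e1, e2]
  have x2 : (S.pr a : ℝ) * S.pr v * S.pr v' * n ≤ 2 * (S.T * N) := by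
    clear * - ι S a v v' n η u1 u2 hα hη0 hT n0 N hn'
    have e1 : (S.pr a : ℝ) * S.pr v * (S.pr a * S.pr v') * n
        ≤ (1 + η) * S.T * ((1 + η) * S.T) * n :=
      mul_le_mul_of_nonneg_right (mul_le_mul u1 u2 (by positivity) (by positivity)) n0.le
    have e2 := mul_le_mul_of_nonneg_left hn' hT.le
    refine le_of_mul_le_mul_left ?_ hα
    nlinarith only [e1, e2]
  have y1 : ((S.T * N : ℕ) : ℤ) < S.pr (a ∪ v ∪ v') * n := by
    rw [S.pr_three b1 c1 hd]; exact_mod_cast x1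
  have y2 : (S.pr (a ∪ v ∪ v') : ℤ) * n ≤ 2 * (S.T * N : ℕ) := by
    rw [S.pr_three b1 c1 hd]; exact_mod_cast x2
  have hR0 : (0 : ℤ) ≤ S.R := by positivity
  refine ⟨(mem_Iv (S.pr_pos _)).2 ⟨by omega, by omega⟩, ?_⟩
  by_cases hZ : S.Zi n = ∅
  · have key : ∀ {w w' : Finset ι}, w ∈ S.VV S.k a → (S.pr (a ∪ w) : ℤ) * (S.pr w' * n + S.h)
        = S.pr (a ∪ v ∪ v') * n + S.jp (a ∪ w) →
        ‖GI S N g (S.pr (a ∪ w) * (S.pr w' * n + S.h)) - S.g1 g (S.pr w' * n + S.h)‖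
          ≤ if S.Zi n = ∅ ∧ S.pr w' * n + S.h ∈ Bx S N (a ∪ w) then 1 else 0 := by
      clear * - ι S a n v v' N hN y1 y2 g hZ hg1 hg
      intro w w' hw e
      have d2 := (S.mem_VV.1 hw).2.2.2
      have j1 := abs_le.1 (jp_DD_le S d2)
      have h2 := two_TN S N
      have h5 := five_R_le S hN
      have hm : (S.pr (a ∪ w) : ℤ) * (S.pr w' * n + S.h)
          ∈ Ioc (((S.T * N : ℕ) : ℤ) - S.R) (((2 * S.T * N : ℕ) : ℤ) + S.R) :=
        mem_Ioc.2 ⟨by omega, by omega⟩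
      simp only [hZ, true_and]
      unfold GI
      rw [if_pos hm]
      refine delta_le' S hg1 d2 (hg _ d2 _) ?_
      have e3 := mem_Ioc.1 hm
      generalize S.pr w' * n + S.h = u at e3
      have e4 : S.T ≤ S.pr (a ∪ w) := S.DD_lo _ d2
      have e5 : (S.T : ℤ) ≤ S.pr (a ∪ w) := by exact_mod_cast e4
      have e6 : (1 : ℤ) ≤ S.T := by exact_mod_cast S.T_pos
      have e7 : 0 < u := by
        by_contra hu
        have : (S.pr (a ∪ w) : ℤ) * u ≤ 0 :=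
          mul_nonpos_of_nonneg_of_nonpos (by positivity) (not_lt.1 hu)
        omega
      have e8 : (S.T : ℤ) * u ≤ S.T * (3 * N) := by
        have e9 : (S.T : ℤ) * u ≤ S.pr (a ∪ w) * u := mul_le_mul_of_nonneg_right e5 e7.le
        have e10 : (S.T : ℤ) * (3 * N) = 3 * ((S.T * N : ℕ) : ℤ) := by
          push_cast
          ring
        omega
      exact mem_Icc.2 ⟨e7, le_of_mul_le_mul_left e8 (by omega)⟩
    have k1 := key (w' := v') hv (by rw [S.pr_three b1 c1 hd, jp, S.pr_union b1]; push_cast; ring)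
    have k2 := key (w' := v) hv' (by rw [S.pr_three b1 c1 hd, jp, S.pr_union c1]; push_cast; ring)
    unfold tt
    rw [if_pos hZ, if_pos (by rw [S.Zi_mul hU, hZ, union_empty, hUc])]
    refine (norm_conj_mul_sub (norm_GI_le S N hg1 _) (S.norm_g1_le hg1 _)).trans ?_
    have : (0 : ℝ) ≤ if ∃ p ∈ a ∪ v ∪ v', (S.m p : ℤ) ∣ n then 1 else 0 := by clear * - ι a v v' S n; positivity
    linarith only [k1, k2, this]
  · simp only [hZ, false_and, if_false, sub_zero, add_zero]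
    split_ifs with h
    · exact S.norm_tt_le N hg1 _ _ _ _
    · unfold tt
      rw [if_neg, norm_zero]
      intro hc
      obtain ⟨p, hp⟩ := nonempty_iff_ne_empty.2 hZ
      rw [S.Zi_mul hU, ← hUc] at hc
      have := eq_of_subset_of_card_le subset_union_left hc.le
      exact h ⟨p, this ▸ mem_union_right _ hp, (S.mem_Zi.1 hp).2⟩

lemma card_Ia_le {T N : ℕ} (hT : 0 < T) (a : Finset ι) :
    ((S.Ia T N a).card : ℝ) ≤ S.pr a / T * N + 1 := by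
  refine (card_Iv_le hT (by omega)).trans (le_of_eq ?_)
  push_cast
  ring

lemma pair_le {N : ℕ} (hN : 10 * S.h.natAbs ≤ N) {η : ℝ} (hη0 : 0 ≤ η) (hη1 : η ≤ 1 / 4)
    (hη : ∀ d ∈ S.DD, (S.pr d : ℝ) ≤ (1 + η) * S.T) (hηN : 8 * S.Λ + 3 * S.H1 ^ S.k ≤ 2 * η * N)
    {g : ℤ → ℂ} (hg1 : ∀ y, ‖g y‖ ≤ 1)
    (hg : ∀ d ∈ S.DD, ∀ n : ℤ, g (S.pr d * n) = g n) {a v v' : Finset ι} (ha : a ∈ S.AA S.k)
    (hv : v ∈ S.VV S.k a) (hv' : v' ∈ S.VV S.k a) (hd : Disjoint v v') :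
    ‖∑ n ∈ Iv (S.pr (a ∪ v ∪ v')) ((S.T * N : ℕ) - 2 * S.R) (2 * (S.T * N : ℕ) + 2 * S.R),
        S.tt N g a v v' n - ∑ n ∈ S.Ib S.T N a,
        (starRingEnd ℂ) (S.g1 g (S.pr v' * n + S.h)) * S.g1 g (S.pr v * n + S.h)‖
      ≤ S.pr a / S.T * (16 * η * N + 4 * S.Λ * N / S.H0)
        + ((S.Ib S.T N a).filter fun n => S.pr v' * n + S.h ∈ Bx S N (a ∪ v)).card
        + ((S.Ib S.T N a).filter fun n => S.pr v * n + S.h ∈ Bx S N (a ∪ v')).card := by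
  classical
  obtain ⟨b0, b1, b3, b2⟩ := S.mem_VV.1 hv
  obtain ⟨c0, c1, c3, c2⟩ := S.mem_VV.1 hv'
  obtain ⟨a0, a1⟩ := S.mem_AA.1 ha
  have hU : a ∪ v ∪ v' ⊆ S.E := union_subset (union_subset a0 b0) c0
  have hUc : (a ∪ v ∪ v').card = S.s + S.k := by
    rw [card_union_of_disjoint (disjoint_union_left.2 ⟨c1, hd⟩), S.DD_card _ b2, c3]
  have hT : (0 : ℝ) < S.T := by exact_mod_cast S.T_pos
  have hα : (0 : ℝ) < S.pr a := by exact_mod_cast S.pr_pos a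
  have hβ : (0 : ℝ) < S.pr v := by exact_mod_cast S.pr_pos v
  have hβ' : (0 : ℝ) < S.pr v' := by exact_mod_cast S.pr_pos v'
  have hH := S.bad_H0
  have hΛ := S.bad_Λ
  have hN0 : (0 : ℝ) ≤ N := Nat.cast_nonneg _
  have l1 : (S.T : ℝ) ≤ S.pr a * S.pr v := by exact_mod_cast (S.Jav_T hv).1
  have l2 : (S.T : ℝ) ≤ S.pr a * S.pr v' := by exact_mod_cast (S.Jav_T hv').1
  have u1 : (S.pr a : ℝ) * S.pr v ≤ (1 + η) * S.T := by
    have := hη _ b2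
    rwa [S.pr_union b1, Nat.cast_mul] at this
  have u2 : (S.pr a : ℝ) * S.pr v' ≤ (1 + η) * S.T := by
    have := hη _ c2
    rwa [S.pr_union c1, Nat.cast_mul] at this
  set τ : ℝ := S.pr a / S.T with hτ
  have τ0 : 0 < τ := by positivity
  have τ1 : 1 ≤ τ * S.H1 ^ S.k := by
    have := S.pr_le_H1_pow b0
    rw [b3] at this
    refine le_trans ?_ (mul_le_mul_of_nonneg_left this τ0.le)
    rw [hτ, div_mul_eq_mul_div, le_div_iff₀ hT]
    linarith only [l1]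
  set I := Iv (S.pr (a ∪ v ∪ v')) ((S.T * N : ℕ) - 2 * S.R) (2 * (S.T * N : ℕ) + 2 * S.R) with hI
  set C := (S.Ia S.T N a).filter fun n : ℤ => (1 + η) ^ 2 * ((S.T : ℝ) * n) ≤ 2 * (S.pr a * N)
    with hC
  set b : ℤ → ℂ := fun n => if S.Zi n = ∅ then
    (starRingEnd ℂ) (S.g1 g (S.pr v' * n + S.h)) * S.g1 g (S.pr v * n + S.h) else 0 with hb
  have hb1 : ∀ n, ‖b n‖ ≤ 1 := fun n => by
    simp only [hb]
    split_ifs
    · rw [norm_mul, Complex.norm_conj]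
      exact mul_le_one₀ (S.norm_g1_le hg1 _) (norm_nonneg _) (S.norm_g1_le hg1 _)
    · simp
  have core := fun n (hn : n ∈ C) =>
    S.tt_core hN hη0 hη hg1 hg ha hv hv' hd (mem_filter.1 hn).1 (mem_filter.1 hn).2
  have CI : C ⊆ I := fun n hn => (core n hn).1
  have CA : C ⊆ S.Ia S.T N a := filter_subset _ _
  set h : ℝ := |(S.h : ℝ)| with hh
  have h0 : 0 ≤ h := abs_nonneg _
  have hhN : 10 * h ≤ N := by
    have : ((10 * S.h.natAbs : ℕ) : ℝ) ≤ N := by exact_mod_cast hN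
    rwa [Nat.cast_mul, Nat.cast_natAbs, Int.cast_abs] at this
  have hR : (S.R : ℝ) = 2 * S.T * h := by
    have := congrArg (Int.cast : ℤ → ℝ) (R_cast S)
    push_cast at this
    exact this
  have mid : ∀ n : ℤ, (0 : ℝ) ≤ n → (S.pr a : ℝ) * N < S.T * n → n ∉ C →
      τ * (2 * N - 4 * η * N) < n := by
    clear * - ι S a N C η hT hη0 hη1
    intro n n0 n1 n2
    refine win_mid hT hη0 hη1 n0 ?_
    by_contra hc
    refine n2 (mem_filter.2 ⟨(S.mem_Ia S.T_pos).2 ⟨n1, le_trans ?_ (not_lt.1 hc)⟩, not_lt.1 hc⟩)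
    exact le_mul_of_one_le_left (by positivity) (one_le_pow₀ (by linarith))
  have c1' : ((I \ C).card : ℝ) ≤ τ * (6 * η * N + 8 * h) + 2 := by
    clear * - I τ N h η ι S a v v' b1 c1 hd hI hT hα hβ hβ' hη0 hη1 h0 hhN u1 u2 hR τ0 l1 l2 C mid
      hτ
    have hI' : ∀ n ∈ I, τ * (N - 4 * h - 2 * η * N) < n ∧ (0 : ℝ) ≤ n ∧
        (n : ℝ) ≤ τ * (2 * N + 4 * h) := by
      intro n hn
      rw [hI, mem_Iv (S.pr_pos _), S.pr_three b1 c1 hd] at hn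
      have x1 : (S.T : ℝ) * N - 2 * S.R < S.pr a * S.pr v * S.pr v' * n := by exact_mod_cast hn.1
      have x2 : (S.pr a : ℝ) * S.pr v * S.pr v' * n ≤ 2 * (S.T * N) + 2 * S.R := by
        exact_mod_cast hn.2
      rw [hR] at x1 x2
      have z1 := win_lo (n := n) hT hα hβ hβ' hη0 hη1 h0 (by linarith only [hhN] : 4 * h ≤ N) u1 u2
        (by linarith)
      have z0 : (0 : ℝ) ≤ n := by
        refine le_trans (mul_nonneg τ0.le ?_) z1.le
        nlinarith only [hhN, hη1]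
      exact ⟨z1, z0, win_hi hT hα z0 l1 l2 (by linarith only [x2])⟩
    rw [← card_filter_add_card_filter_not (s := I \ C) fun n : ℤ => (n : ℝ) ≤ τ * N, Nat.cast_add]
    have p1 := card_le_real ((I \ C).filter fun n : ℤ => (n : ℝ) ≤ τ * N)
      (x := τ * (N - 4 * h - 2 * η * N)) (y := τ * N)
      (mul_le_mul_of_nonneg_left (by nlinarith only [h0, hη0]) τ0.le) fun n hn =>
        ⟨(hI' n (mem_sdiff.1 (mem_filter.1 hn).1).1).1, (mem_filter.1 hn).2⟩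
    have p2 := card_le_real ((I \ C).filter fun n : ℤ => ¬ (n : ℝ) ≤ τ * N)
      (x := τ * (2 * N - 4 * η * N)) (y := τ * (2 * N + 4 * h))
      (mul_le_mul_of_nonneg_left (by nlinarith only [h0, hη0]) τ0.le) fun n hn => by
        obtain ⟨q1, q2⟩ := mem_filter.1 hn
        obtain ⟨q3, q4⟩ := mem_sdiff.1 q1
        refine ⟨mid n (hI' n q3).2.1 ?_ q4, (hI' n q3).2.2⟩
        rw [not_le, hτ, div_mul_eq_mul_div, div_lt_iff₀ hT] at q2
        linarith only [q2]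
    linarith only [p1, p2]
  have c2' : ((S.Ia S.T N a \ C).card : ℝ) ≤ τ * (4 * η * N) + 1 := by
    clear * - ι S N a C τ η hη0 τ0 hT hα mid hτ
    refine (card_le_real _ (x := τ * (2 * N - 4 * η * N)) (y := τ * (2 * N))
      (mul_le_mul_of_nonneg_left (by nlinarith only [hη0]) τ0.le) fun n hn => ?_).trans (le_of_eq (by ring))
    obtain ⟨q3, q4⟩ := mem_sdiff.1 hn
    obtain ⟨n1, n2⟩ := (S.mem_Ia S.T_pos).1 q3
    have n0 : (0 : ℝ) ≤ n := by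
      by_contra hc
      have := mul_nonpos_of_nonneg_of_nonpos hT.le (not_le.1 hc).le
      have : 0 ≤ (S.pr a : ℝ) * N := by positivity
      linarith
    refine ⟨mid n n0 n1 q4, ?_⟩
    rw [hτ, div_mul_eq_mul_div, le_div_iff₀ hT]
    linarith
  have c3' : ((C.filter fun n => ∃ p ∈ a ∪ v ∪ v', (S.m p : ℤ) ∣ n).card : ℝ)
      ≤ τ * (4 * S.Λ * N / S.H0) := by
    clear * - ι a v v' S C τ N CA hT hα hτ hU hUc hH hΛ
    have q1 : (C.filter fun n => ∃ p ∈ a ∪ v ∪ v', (S.m p : ℤ) ∣ n) ⊆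
        (Icc (1 : ℤ) (⌊τ * (2 * N)⌋₊ : ℕ)).filter fun n => ∃ p ∈ a ∪ v ∪ v', (S.m p : ℤ) ∣ n := by
      refine filter_subset_filter _ fun n hn => ?_
      obtain ⟨n1, n2⟩ := (S.mem_Ia S.T_pos).1 (CA hn)
      have n0 : (0 : ℝ) < n := by
        by_contra hc
        have := mul_nonpos_of_nonneg_of_nonpos hT.le (not_lt.1 hc)
        have : 0 ≤ (S.pr a : ℝ) * N := by positivity
        linarith
      have n3 : 0 < n := by exact_mod_cast n0
      refine mem_Icc.2 ⟨n3, ?_⟩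
      rw [Int.natCast_floor_eq_floor (by positivity), Int.le_floor, hτ, div_mul_eq_mul_div,
        le_div_iff₀ hT]
      linarith only [n2]
    refine (Nat.cast_le.2 (card_le_card q1)).trans ((S.count_dvd _ hU).trans ?_)
    have q2 : ((a ∪ v ∪ v').card : ℝ) ≤ 2 * S.Λ := by
      rw [hUc]; push_cast; linarith only [S.s_le, S.k_le_Λ]
    have q3 : (⌊τ * (2 * N)⌋₊ : ℝ) ≤ τ * (2 * N) := Nat.floor_le (by positivity)
    calc _ ≤ 2 * S.Λ * (τ * (2 * N) / S.H0) := by gcongr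
      _ = _ := by ring
  have c4' : ‖∑ n ∈ C, S.tt N g a v v' n - ∑ n ∈ C, b n‖ ≤ τ * (4 * S.Λ * N / S.H0)
      + ((S.Ib S.T N a).filter fun n => S.pr v' * n + S.h ∈ Bx S N (a ∪ v)).card
      + ((S.Ib S.T N a).filter fun n => S.pr v * n + S.h ∈ Bx S N (a ∪ v')).card := by
    rw [← sum_sub_distrib]
    refine (norm_sum_le _ _).trans ((sum_le_sum fun n hn => (core n hn).2).trans ?_)
    rw [sum_add_distrib, sum_add_distrib, sum_boole, sum_boole, sum_boole]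
    refine add_le_add (add_le_add c3' ?_) ?_ <;>
      exact Nat.cast_le.2 (card_le_card fun n hn => mem_filter.2
        ⟨mem_filter.2 ⟨CA (mem_filter.1 hn).1, (mem_filter.1 hn).2.1⟩, (mem_filter.1 hn).2.2⟩)
  have e : ∑ n ∈ S.Ib S.T N a,
      (starRingEnd ℂ) (S.g1 g (S.pr v' * n + S.h)) * S.g1 g (S.pr v * n + S.h)
      = ∑ n ∈ S.Ia S.T N a, b n := sum_filter _ _
  rw [e, ← sum_sdiff CI, ← sum_sdiff CA]
  have d1 := norm_sum_le_card (I \ C) fun n _ => S.norm_tt_le N hg1 a v v' n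
  have d2 := norm_sum_le_card (S.Ia S.T N a \ C) fun n _ => hb1 n
  have e2 : ∀ x y z w : ℂ, x + y - (z + w) = x - z + (y - w) := fun x y z w => by ring
  rw [e2]
  refine (norm_add_le _ _).trans ((add_le_add (norm_sub_le _ _) c4').trans ?_)
  have f1 : τ * (8 * h) + 3 ≤ τ * (2 * η * N) := by
    clear * - τ ι S η N hηN τ0 h a τ1
    have := mul_le_mul_of_nonneg_left hηN τ0.le
    have := mul_le_mul_of_nonneg_left S.h_le τ0.le
    nlinarith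
  have f2 : 0 ≤ τ * (η * N) := by clear * - τ η N ι S a hα hT hη0; positivity
  clear * - I C ι S N g a v v' b τ η h c1' c2' d1 d2 f1
  nlinarith only [c1', c2', d1, d2, f1]

end Sys

end Pool.Agent.Work.MP_d018b2_nt.R
end
end

-- merged part: Pool.Agent.Work.MP_d018b2_nt.R.NComb
section
-- merged part: Pool.Agent.Work.MP_d018b2_nt.R.NInt2
section
/-! The bound for one system. -/

set_option autoImplicit false
open Finset Pool.Agent.Lib.LargeSieve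

namespace Pool.Agent.Work.MP_d018b2_nt.R

open Pool.Agent.Work.MP_678620_nt Int4

lemma choose_add_le {s k : ℕ} (h : 2 * k ≤ s) : (s + k).choose k ≤ 2 ^ k * s.choose k := by
  refine Nat.le_of_mul_le_mul_left ?_ (Nat.factorial_pos k)
  rw [← Nat.descFactorial_eq_factorial_mul_choose, mul_left_comm,
    ← Nat.descFactorial_eq_factorial_mul_choose, Nat.descFactorial_eq_prod_range,
    Nat.descFactorial_eq_prod_range]
  calc ∏ i ∈ range k, (s + k - i) ≤ ∏ i ∈ range k, 2 * (s - i) :=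
        prod_le_prod' fun i hi => by have := mem_range.1 hi; omega
    _ = _ := by rw [prod_mul_distrib, prod_const, card_range]

namespace Sys

variable {ι : Type} [Fintype ι] [DecidableEq ι] (S : Sys ι)

lemma es_le_Λ (j : ℕ) : S.es j ≤ S.Λ :=
  (esym_le_exp (fun i _ => (S.nu_pos i).le) j).trans S.exp_L

lemma two_pow_es (j : ℕ) : 2 ^ j * S.es j ≤ S.Λ ^ 2 := by
  have h1 : 2 ^ j * S.es j = esym S.E (fun i => 2 * S.nu i) j := by
    unfold es esym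
    rw [mul_sum]
    refine sum_congr rfl fun v hv => ?_
    rw [prod_mul_distrib, prod_const, (mem_powersetCard.1 hv).2]
  rw [h1]
  refine (esym_le_exp (fun i _ => (mul_pos two_pos (S.nu_pos i)).le) j).trans ?_
  rw [← mul_sum, show (2 : ℝ) * ∑ i ∈ S.E, S.nu i = (2 : ℕ) * S.L by push_cast; rfl,
    Real.exp_nat_mul]
  exact pow_le_pow_left₀ (Real.exp_pos _).le S.exp_L 2

lemma D_es_le : (S.D : ℝ) * S.es S.s ≤ S.Λ ^ 2 * S.es (S.s - S.k) := by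
  have h1 := S.es_add_le (S.s - S.k) S.k
  rw [Nat.sub_add_cancel S.k_le] at h1
  have h2 : (S.D : ℝ) ≤ 2 ^ S.k * S.s.choose S.k := by exact_mod_cast choose_add_le S.k2_le
  have h3 := S.es_nonneg S.s
  have h4 := S.es_nonneg (S.s - S.k)
  calc (S.D : ℝ) * S.es S.s ≤ 2 ^ S.k * S.s.choose S.k * S.es S.s := by gcongr
    _ = 2 ^ S.k * (S.s.choose S.k * S.es S.s) := by ring
    _ ≤ 2 ^ S.k * (S.es (S.s - S.k) * S.es S.k) := by gcongr
    _ = 2 ^ S.k * S.es S.k * S.es (S.s - S.k) := by ring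
    _ ≤ _ := mul_le_mul_of_nonneg_right (S.two_pow_es _) h4

lemma tau_le {η : ℝ} (hηH : 2 ≤ η * S.H0) {a v : Finset ι} (hv : v ∈ S.VV S.k a) :
    (S.pr a : ℝ) / S.T ≤ η ∧ 1 ≤ (S.pr a : ℝ) / S.T * S.H1 ^ S.k := by
  obtain ⟨b0, -, b3, -⟩ := S.mem_VV.1 hv
  have hT : (0 : ℝ) < S.T := by exact_mod_cast S.T_pos
  have hα : (0 : ℝ) < S.pr a := by exact_mod_cast S.pr_pos a
  have l1 : (S.T : ℝ) ≤ S.pr a * S.pr v := by exact_mod_cast (S.Jav_T hv).1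
  have l2 : (S.pr a : ℝ) * S.pr v ≤ 2 * S.T := by exact_mod_cast (S.Jav_T hv).2
  have hH := S.H0_big
  constructor
  · have h1 : S.H0 ≤ S.pr v := le_trans (le_self_pow₀ (by linarith only [hH])
      (by have := S.k_ge; omega)) (S.H0_pow_le_pr b0)
    have h2 := mul_le_mul_of_nonneg_left h1 hα.le
    have h3 := mul_le_mul_of_nonneg_right hηH hT.le
    rw [div_le_iff₀ hT]
    refine le_of_mul_le_mul_left ?_ (show 0 < S.H0 by linarith only [hH])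
    nlinarith only [l2, h2, h3]
  · have := S.pr_le_H1_pow b0
    rw [b3] at this
    refine le_trans ?_ (mul_le_mul_of_nonneg_left this (by positivity))
    rw [div_mul_eq_mul_div, le_div_iff₀ hT]
    linarith

lemma card_VV_eta {η : ℝ} (hη0 : 0 ≤ η) (hη : ∀ d ∈ S.DD, (S.pr d : ℝ) ≤ (1 + η) * S.T)
    (hηH : 2 ≤ η * S.H0) (a : Finset ι) :
    ((S.VV S.k a).card : ℝ) * (S.pr a / S.T) ≤ 3 * η := by
  rcases (S.VV S.k a).eq_empty_or_nonempty with h0 | ⟨v0, hv0⟩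
  · rw [h0]; simp; positivity
  have hT : (0 : ℝ) < S.T := by exact_mod_cast S.T_pos
  have hα : (0 : ℝ) < S.pr a := by exact_mod_cast S.pr_pos a
  have h1 := (S.tau_le hηH hv0).1
  have h2 : ((S.VV S.k a).image fun v => (S.pr v : ℤ)).card = (S.VV S.k a).card :=
    card_image_of_injOn fun v hv w hw e =>
      S.pr_inj (S.mem_VV.1 hv).1 (S.mem_VV.1 hw).1 (by exact_mod_cast e)
  have h3 := card_le_real ((S.VV S.k a).image fun v => (S.pr v : ℤ)) (x := S.T / S.pr a - 1)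
    (y := (1 + η) * (S.T / S.pr a)) (by
      have : 0 ≤ η * (S.T / S.pr a) := by positivity
      linarith only [this]) fun n hn => by
      obtain ⟨v, hv, rfl⟩ := mem_image.1 hn
      obtain ⟨-, b1, -, b2⟩ := S.mem_VV.1 hv
      have l1 : (S.T : ℝ) ≤ S.pr a * S.pr v := by exact_mod_cast (S.Jav_T hv).1
      have u1 := hη _ b2
      rw [S.pr_union b1, Nat.cast_mul] at u1
      push_cast
      constructor
      · have : (S.T : ℝ) / S.pr a ≤ S.pr v := by rw [div_le_iff₀ hα]; linarith only [l1]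
        linarith only [this]
      · rw [← mul_div_assoc, le_div_iff₀ hα]; linarith
  rw [h2] at h3
  have h4 := mul_le_mul_of_nonneg_right h3 (show 0 ≤ (S.pr a : ℝ) / S.T by positivity)
  have h5 : ((1 + η) * (S.T / S.pr a) - (S.T / S.pr a - 1) + 1) * ((S.pr a : ℝ) / S.T)
      = η + 2 * (S.pr a / S.T) := by field_simp; ring
  linarith only [h1, h4, h5]

lemma count_inj (T N : ℕ) (a : Finset ι) {V : Finset (Finset ι)} (hV : ∀ v ∈ V, v ⊆ S.E)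
    (B : Finset ℤ) :
    ∑ v ∈ V, (((S.Ib T N a).filter fun n => S.pr v * n + S.h ∈ B).card : ℝ) ≤ B.card := by
  rw [← Nat.cast_sum, Nat.cast_le, ← card_sigma]
  refine card_le_card_of_injOn (fun x => S.pr x.1 * x.2 + S.h)
    (fun x hx => (mem_filter.1 (mem_sigma.1 hx).2).2) ?_
  rintro ⟨v, n⟩ hx ⟨w, m⟩ hy e
  obtain ⟨x1, x2⟩ := mem_sigma.1 hx
  obtain ⟨y1, y2⟩ := mem_sigma.1 hy
  have x3 : S.Zi n = ∅ := (mem_filter.1 (mem_filter.1 x2).1).2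
  have y3 : S.Zi m = ∅ := (mem_filter.1 (mem_filter.1 y2).1).2
  have e1 : (S.pr v : ℤ) * n = S.pr w * m := add_right_cancel e
  have e2 := congrArg S.Zi e1
  rw [S.Zi_mul (hV v x1), S.Zi_mul (hV w y1), x3, y3, union_empty, union_empty] at e2
  subst e2
  have h0 : (S.pr v : ℤ) ≠ 0 := by exact_mod_cast (S.pr_pos v).ne'
  rw [mul_left_cancel₀ h0 e1]

lemma card_Ia_le' {N : ℕ} {η : ℝ} (hηH : 2 ≤ η * S.H0) (hH : S.H1 ^ S.k ≤ N) {a v : Finset ι}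
    (hv : v ∈ S.VV S.k a) : ((S.Ia S.T N a).card : ℝ) ≤ 2 * (S.pr a / S.T * N) := by
  have h1 := S.card_Ia_le (N := N) S.T_pos a
  have h2 := (S.tau_le hηH hv).2
  have h3 := mul_le_mul_of_nonneg_left hH (show 0 ≤ (S.pr a : ℝ) / S.T by positivity)
  linarith only [h1, h2, h3]

lemma BB_le {N : ℕ} (hN : 10 * S.h.natAbs ≤ N) {i0 : ι} (hW : 10 * (S.T * N) < S.m i0)
    {η : ℝ} (hη0 : 0 ≤ η) (hη1 : η ≤ 1 / 4)
    (hη : ∀ d ∈ S.DD, (S.pr d : ℝ) ≤ (1 + η) * S.T) (hηN : 8 * S.Λ + 3 * S.H1 ^ S.k ≤ 2 * η * N)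
    (hηH : 2 ≤ η * S.H0) {g : ℤ → ℂ} (hg1 : ∀ y, ‖g y‖ ≤ 1)
    (hg : ∀ d ∈ S.DD, ∀ n : ℤ, g (S.pr d * n) = g n) :
    ∑ a ∈ S.AA S.k, ∑ n ∈ S.Ib S.T N a, ‖∑ v ∈ S.VV S.k a, S.g1 g (S.pr v * n + S.h)‖ ^ 2
      ≤ ‖S.TT S.k (S.GX N g) (S.GX N g)‖
        + (48 * η ^ 2 * N + 12 * S.Λ * N / S.H0) * ∑ a ∈ S.AA S.k, ((S.VV S.k a).card : ℝ)
        + 2 * (S.D * S.Ex N) := by
  have hH := S.bad_H0
  have hΛ := S.bad_Λ
  have hT : (0 : ℝ) < S.T := by exact_mod_cast S.T_pos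
  have hN0 : (0 : ℝ) ≤ N := Nat.cast_nonneg _
  have hH1 : S.H1 ^ S.k ≤ N := by
    clear * - ι S hH N η hηN hΛ hη1
    have : 0 ≤ S.H1 ^ S.k := pow_nonneg (hH.le.trans S.H01) _
    nlinarith only [hηN, hΛ, hη1]
  set b : Finset ι → Finset ι → Finset ι → ℂ := fun a v v' => ∑ n ∈ S.Ib S.T N a,
    (starRingEnd ℂ) (S.g1 g (S.pr v' * n + S.h)) * S.g1 g (S.pr v * n + S.h) with hb
  set t : Finset ι → Finset ι → Finset ι → ℂ := fun a v v' =>
    if Disjoint v v' then ∑ n ∈ Iv (S.pr (a ∪ v ∪ v')) ((S.T * N : ℕ) - 2 * S.R)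
      (2 * (S.T * N : ℕ) + 2 * S.R), S.tt N g a v v' n else 0 with ht
  have e1 : ((∑ a ∈ S.AA S.k, ∑ n ∈ S.Ib S.T N a,
      ‖∑ v ∈ S.VV S.k a, S.g1 g (S.pr v * n + S.h)‖ ^ 2 : ℝ) : ℂ)
      = ∑ a ∈ S.AA S.k, ∑ v ∈ S.VV S.k a, ∑ v' ∈ S.VV S.k a, b a v v' := by
    push_cast
    refine sum_congr rfl fun a _ => ?_
    simp only [hb]
    rw [sum_congr rfl fun v _ => sum_comm, sum_comm]
    refine sum_congr rfl fun n _ => ?_
    rw [← Complex.conj_mul', map_sum, sum_mul_sum, sum_comm]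
  have hEx : ∑ a ∈ S.AA S.k, ∑ v ∈ S.VV S.k a, ((Bx S N (a ∪ v)).card : ℝ) ≤ S.D * S.Ex N := by
    rw [Int4.Ex_eq]
    push_cast
    exact S.sum_AV_le le_rfl (Φ := fun d => ((Bx S N d).card : ℝ)) fun _ _ => Nat.cast_nonneg _
  have e2 : ∀ a ∈ S.AA S.k, ∑ v ∈ S.VV S.k a, ∑ v' ∈ S.VV S.k a, ‖b a v v' - t a v v'‖
      ≤ (48 * η ^ 2 * N + 12 * S.Λ * N / S.H0) * (S.VV S.k a).card
        + 2 * ∑ v ∈ S.VV S.k a, ((Bx S N (a ∪ v)).card : ℝ) := by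
    intro a ha
    have hα : (0 : ℝ) < S.pr a := by exact_mod_cast S.pr_pos a
    have hV : ∀ v ∈ S.VV S.k a, v ⊆ S.E := fun v hv => (S.mem_VV.1 hv).1
    have p1 : ∀ v ∈ S.VV S.k a, ∀ v' ∈ S.VV S.k a, ‖b a v v' - t a v v'‖
        ≤ S.pr a / S.T * (16 * η * N + 4 * S.Λ * N / S.H0)
          + (if ¬ Disjoint v v' then 2 * ((S.pr a : ℝ) / S.T * N) else 0)
          + ((S.Ib S.T N a).filter fun n => S.pr v' * n + S.h ∈ Bx S N (a ∪ v)).card
          + ((S.Ib S.T N a).filter fun n => S.pr v * n + S.h ∈ Bx S N (a ∪ v')).card := by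
      intro v hv v' hv'
      simp only [ht]
      by_cases hd : Disjoint v v'
      · rw [if_pos hd, if_neg (not_not.2 hd), add_zero, norm_sub_rev]
        exact S.pair_le hN hη0 hη1 hη hηN hg1 hg ha hv hv' hd
      · rw [if_neg hd, if_pos hd, sub_zero]
        have q1 : ‖b a v v'‖ ≤ (S.Ib S.T N a).card := norm_sum_le_card _ fun n _ => by
          rw [norm_mul, Complex.norm_conj]
          exact mul_le_one₀ (S.norm_g1_le hg1 _) (norm_nonneg _) (S.norm_g1_le hg1 _)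
        have q2 : ((S.Ib S.T N a).card : ℝ) ≤ (S.Ia S.T N a).card :=
          Nat.cast_le.2 (card_filter_le _ _)
        have q3 := S.card_Ia_le' hηH hH1 hv
        have q4 : 0 ≤ S.pr a / S.T * (16 * η * N + 4 * S.Λ * N / S.H0) := by positivity
        have q5 := Nat.cast_nonneg (α := ℝ)
          ((S.Ib S.T N a).filter fun n => S.pr v' * n + S.h ∈ Bx S N (a ∪ v)).card
        have q6 := Nat.cast_nonneg (α := ℝ)
          ((S.Ib S.T N a).filter fun n => S.pr v * n + S.h ∈ Bx S N (a ∪ v')).card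
        linarith only [q1, q2, q3, q4]
    refine (sum_le_sum fun v hv => sum_le_sum fun v' hv' => p1 v hv v' hv').trans ?_
    simp only [sum_add_distrib]
    have p2 := sum_le_sum fun v (_ : v ∈ S.VV S.k a) => S.count_inj S.T N a hV (Bx S N (a ∪ v))
    have p3 : ∑ v ∈ S.VV S.k a, ∑ v' ∈ S.VV S.k a,
        (((S.Ib S.T N a).filter fun n => S.pr v * n + S.h ∈ Bx S N (a ∪ v')).card : ℝ)
        ≤ ∑ v ∈ S.VV S.k a, ((Bx S N (a ∪ v)).card : ℝ) := by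
      rw [sum_comm]
      exact p2
    have p4 : ∑ v ∈ S.VV S.k a, ∑ v' ∈ S.VV S.k a,
        (if ¬ Disjoint v v' then 2 * ((S.pr a : ℝ) / S.T * N) else 0)
        ≤ (S.VV S.k a).card * (8 * S.Λ * N / S.H0) := by
      clear * - ι S a N hT hα hΛ hH
      rw [← nsmul_eq_mul]
      refine sum_le_card_nsmul _ _ _ fun v hv => ?_
      rw [← sum_filter, sum_const, nsmul_eq_mul]
      have q1 := S.pos_card_overlap S.k_ge le_rfl hv
      have q2 : (S.pr a : ℝ) * (S.Q : ℝ) ^ 2 * S.Hk a ≤ S.T := by exact_mod_cast S.Hk_mul_le a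
      have q3 : (S.pr a : ℝ) * (S.Q : ℝ) ^ 2 * S.Hk a / S.T ≤ 1 := (div_le_one hT).2 q2
      calc _ ≤ S.Λ * (4 * (S.Q : ℝ) ^ 2 * S.Hk a / S.H0) * (2 * ((S.pr a : ℝ) / S.T * N)) := by
            gcongr
        _ = (S.pr a : ℝ) * (S.Q : ℝ) ^ 2 * S.Hk a / S.T * (8 * S.Λ * N / S.H0) := by ring
        _ ≤ _ := mul_le_of_le_one_left (by positivity) q3
    have p5 : ∑ _v ∈ S.VV S.k a, ∑ _v' ∈ S.VV S.k a,
        (S.pr a : ℝ) / S.T * (16 * η * N + 4 * S.Λ * N / S.H0)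
        ≤ (S.VV S.k a).card * (48 * η ^ 2 * N + 4 * S.Λ * N / S.H0) := by
      clear * - ι S a η N hη0 hη hηH hΛ hH hη1
      rw [sum_const, sum_const, nsmul_eq_mul, nsmul_eq_mul]
      refine mul_le_mul_of_nonneg_left ?_ (Nat.cast_nonneg _)
      rw [← mul_assoc]
      refine (mul_le_mul_of_nonneg_right (S.card_VV_eta hη0 hη hηH a) (by positivity)).trans ?_
      have q1 : 3 * η * (4 * S.Λ * N / S.H0) ≤ 1 * (4 * S.Λ * N / S.H0) :=
        mul_le_mul_of_nonneg_right (by linarith only [hη1]) (by positivity)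
      nlinarith only [q1]
    have : (S.VV S.k a).card * (8 * S.Λ * N / S.H0)
        + (S.VV S.k a).card * (48 * η ^ 2 * N + 4 * S.Λ * N / S.H0)
        = (48 * η ^ 2 * N + 12 * S.Λ * N / S.H0) * (S.VV S.k a).card := by ring
    clear * - ι S a η N p2 p3 p4 p5 this
    linarith only [p2, p3, p4, p5, this]
  have e3 : ‖∑ a ∈ S.AA S.k, ∑ v ∈ S.VV S.k a, ∑ v' ∈ S.VV S.k a, b a v v'
      - S.TT S.k (S.GX N g) (S.GX N g)‖
      ≤ ∑ a ∈ S.AA S.k, ∑ v ∈ S.VV S.k a, ∑ v' ∈ S.VV S.k a, ‖b a v v' - t a v v'‖ := by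
    rw [S.TT_int hN hW g, ← sum_sub_distrib]
    refine (norm_sum_le _ _).trans (sum_le_sum fun a _ => ?_)
    rw [← sum_sub_distrib]
    refine (norm_sum_le _ _).trans (sum_le_sum fun v _ => ?_)
    rw [← sum_sub_distrib]
    exact norm_sum_le _ _
  have e4 := e3.trans (sum_le_sum e2)
  rw [sum_add_distrib, ← mul_sum, ← mul_sum, ← e1] at e4
  have e5 := norm_sub_norm_le _ _ |>.trans e4
  rw [Complex.norm_real] at e5
  have e6 := Real.le_norm_self (∑ a ∈ S.AA S.k, ∑ n ∈ S.Ib S.T N a,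
      ‖∑ v ∈ S.VV S.k a, S.g1 g (S.pr v * n + S.h)‖ ^ 2)
  linarith only [hEx, e5, e6]

lemma TT_le {g : S.G → ℂ} (hg : S.Supp g) :
    ‖S.TT S.k g g‖ ≤ ‖S.ip g (S.Xop S.Kk g)‖ + S.Pos S.k g
      + 8 * (S.Q : ℝ) ^ 4 * S.Λ / S.H0 * S.D * S.D' * S.nn g := by
  have e2 : S.TT S.k g g = S.ip g (S.Xop S.Kk g) +
      (S.piC (S.k - S.k) : ℂ) * (S.Pos S.k g - S.OV S.k g g) := by
    rw [S.form_X hg hg, Icc_self, sum_singleton, ← S.SS_add_OV]
    ring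
  have h0 : 0 ≤ S.Pos S.k g := sum_nonneg fun _ _ => sum_nonneg fun _ _ => sum_nonneg fun _ _ => by
    split_ifs <;> positivity
  rw [e2, add_assoc]
  refine (norm_add_le _ _).trans (add_le_add le_rfl ?_)
  rw [norm_mul, Complex.norm_real, Real.norm_of_nonneg (S.piC_nonneg _)]
  refine (mul_le_of_le_one_left (norm_nonneg _) (S.piC_le_one _)).trans
    ((norm_sub_le _ _).trans ?_)
  rw [Complex.norm_real, Real.norm_of_nonneg h0]
  exact add_le_add le_rfl (S.OV_le S.k_ge le_rfl hg)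

lemma Ex_le' (N : ℕ) :
    (S.Ex N : ℝ) ≤ 18 * (S.D' : ℝ) ^ 4 * S.Λ ^ 3 * S.H0⁻¹ * (S.T * N * S.es S.s) := by
  have hΛ := S.big
  have hΛ0 : 0 ≤ S.Λ := by linarith
  have hΛ1 : 1 ≤ S.Λ := by linarith
  have hN0 : (0 : ℝ) ≤ N := Nat.cast_nonneg _
  have hT : (0 : ℝ) < S.T := by exact_mod_cast S.T_pos
  have hD' : (1 : ℝ) ≤ S.D' := by exact_mod_cast S.one_le_D'
  have hw : 0 ≤ S.H0⁻¹ := (inv_pos.2 S.bad_H0).le
  have he := S.es_nonneg S.s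
  have ha'' : S.es (S.s + S.k' - 1) ≤ S.Λ * S.es S.s := by
    have e : S.s + S.k' - 1 = S.s + (S.k' - 1) := by have := S.k'_ge; omega
    rw [e]
    refine le_trans (le_mul_of_one_le_left (S.es_nonneg _) ?_)
      ((S.es_add_le S.s (S.k' - 1)).trans ?_)
    · exact_mod_cast Nat.choose_pos (Nat.le_add_left _ _)
    · rw [mul_comm]
      exact mul_le_mul_of_nonneg_right (S.es_le_Λ _) he
  have hhi : (S.DD.card : ℝ) ≤ 2 * S.T * S.es S.s := by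
    have h1 : ∑ d ∈ S.DD, S.iv d ≤ S.es S.s := by
      rw [S.es_eq]
      exact sum_le_sum_of_subset_of_nonneg S.q_DD_sub fun d _ _ => (S.iv_pos d).le
    have h2 : S.DD.card • (2 * S.T : ℝ)⁻¹ ≤ ∑ d ∈ S.DD, S.iv d := by
      refine card_nsmul_le_sum _ _ _ fun d hd => ?_
      exact inv_anti₀ (by exact_mod_cast S.pr_pos d) (by exact_mod_cast S.DD_hi d hd)
    rw [nsmul_eq_mul, ← div_eq_mul_inv, div_le_iff₀ (by linarith)] at h2
    have h3 := mul_le_mul_of_nonneg_right h1 (show (0 : ℝ) ≤ 2 * S.T by linarith)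
    linarith
  have hu0 : 0 ≤ (S.T : ℝ) * N * S.es S.s := by positivity
  have h1 := S.Ex_le N
  rw [div_eq_mul_inv, div_eq_mul_inv] at h1
  have h2 := mul_le_mul_of_nonneg_left hhi
    (mul_nonneg (mul_nonneg (mul_nonneg (show (0 : ℝ) ≤ 3 by norm_num) hΛ0) hN0) hw)
  have h3 := mul_le_mul_of_nonneg_left ha'' (mul_nonneg (mul_nonneg (mul_nonneg
    (mul_nonneg (show (0 : ℝ) ≤ 12 by norm_num) (pow_nonneg (by linarith only [hD'] : (0 : ℝ) ≤ S.D') 4))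
      (pow_nonneg hΛ0 2)) hw) (mul_nonneg hT.le hN0))
  have h4 : S.Λ ≤ (S.D' : ℝ) ^ 4 * S.Λ ^ 3 :=
    (le_self_pow₀ hΛ1 (by norm_num)).trans
      (le_mul_of_one_le_left (pow_nonneg hΛ0 3) (one_le_pow₀ hD'))
  have h5 := mul_le_mul_of_nonneg_right h4 (mul_nonneg hw hu0)
  clear * - ι S N h1 h2 h3 h5
  linarith only [h1, h2, h3, h5]

/-- The saving for one system. -/
noncomputable def Xi (ε : ℝ) (N : ℕ) : ℝ :=
  S.Λ ^ 14 * (1 / S.D' + 1 / √S.D' + 1 / √S.Q) + S.Λ ^ 4 * (S.Q : ℝ) ^ 2 * ε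
    + S.Λ ^ 4 * (S.Q : ℝ) ^ 6 / N

lemma Xi_num {ε : ℝ} (hε : 0 ≤ ε) {N : ℕ} (hN : 0 < N) :
    2 * (90 * S.Λ ^ 13 * (1 / √S.D' + 1 / √S.Q)
      + (S.Q : ℝ) ^ 2 * (3 * S.Λ ^ 2 * ε + S.H0⁻¹ + 400 * S.Λ * (S.Q : ℝ) ^ 4 / N)
      + (12 * (S.Q : ℝ) ^ 4 + 2) * (18 * (S.D' : ℝ) ^ 4 * S.Λ ^ 5 * S.H0⁻¹)
      + 24 * (S.Q : ℝ) ^ 4 * S.Λ ^ 4 * S.H0⁻¹ + 24 * S.Λ ^ 2 * S.H0⁻¹) ≤ 4 * S.Xi ε N := by
  have hΛ := S.big
  have hΛ1 : 1 ≤ S.Λ := by linarith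
  have hN0 : (0 : ℝ) < N := by exact_mod_cast hN
  have hQ : (2 : ℝ) ≤ S.Q := by exact_mod_cast S.Q_ge
  have hD' : (1 : ℝ) ≤ S.D' := by exact_mod_cast S.one_le_D'
  have hH := S.bad_H0
  have hm := S.mono_le_H0 (a := 0) (b := 4) (c := 5) (d := 7) (by norm_num) (by norm_num)
    (by norm_num) (by norm_num)
  unfold Xi
  generalize S.Λ = Λ at *
  generalize (S.Q : ℝ) = Q at *
  generalize (S.D' : ℝ) = D at *
  generalize S.H0 = H at *
  have hsq : √Q ≤ Q := by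
    rw [Real.sqrt_le_left (by linarith)]
    nlinarith only [hQ]
  have hsq0 : 0 < √Q := Real.sqrt_pos.2 (by linarith)
  have a1 : 1000 * (Q ^ 4 * D ^ 4 * Λ ^ 5) * H⁻¹ ≤ 1 / √Q := by
    clear * - Q D Λ H hH hsq0 hΛ ι S hQ hD' hsq hm
    rw [← div_eq_mul_inv, div_le_div_iff₀ hH hsq0, one_mul]
    have b1 : (1000 : ℝ) ≤ Λ ^ 2 := by nlinarith only [hΛ]
    calc _ ≤ Λ ^ 2 * (Q ^ 4 * D ^ 4 * Λ ^ 5) * Q := by gcongr
      _ = _ := by ring
      _ ≤ H := hm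
  have q4 : 1 ≤ Q ^ 4 := one_le_pow₀ (by linarith only [hQ])
  have d4 : 1 ≤ D ^ 4 := one_le_pow₀ hD'
  have hw : 0 ≤ H⁻¹ := (inv_pos.2 hH).le
  have a2 : Q ^ 2 ≤ Q ^ 4 * D ^ 4 * Λ ^ 5 := by
    calc Q ^ 2 ≤ Q ^ 4 * 1 * 1 := by
          rw [mul_one, mul_one]; exact pow_le_pow_right₀ (by linarith) (by norm_num)
      _ ≤ _ := by gcongr; exact one_le_pow₀ hΛ1
  have a3 : D ^ 4 * Λ ^ 5 ≤ Q ^ 4 * D ^ 4 * Λ ^ 5 := by
    rw [mul_assoc]; exact le_mul_of_one_le_left (by positivity) q4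
  have a4 : Q ^ 4 * Λ ^ 4 ≤ Q ^ 4 * D ^ 4 * Λ ^ 5 := by
    calc Q ^ 4 * Λ ^ 4 = Q ^ 4 * 1 * Λ ^ 4 := by ring
      _ ≤ _ := by gcongr; norm_num
  have a5 : Λ ^ 2 ≤ Q ^ 4 * D ^ 4 * Λ ^ 5 := by
    clear * - Λ Q D q4 d4 hQ hΛ1 hΛ hD'
    calc Λ ^ 2 = 1 * 1 * Λ ^ 2 := by ring
      _ ≤ _ := by gcongr; norm_num
  have a6 := mul_le_mul_of_nonneg_right (show 2 * Q ^ 2 + 432 * (Q ^ 4 * D ^ 4 * Λ ^ 5)
    + 72 * (D ^ 4 * Λ ^ 5) + 48 * (Q ^ 4 * Λ ^ 4) + 48 * Λ ^ 2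
      ≤ 1000 * (Q ^ 4 * D ^ 4 * Λ ^ 5) by clear * - Q D Λ a2 a3 a4 a5 hw; nlinarith only [a2, a3, a4, a5]) hw
  have c13 : 1 ≤ Λ ^ 13 := one_le_pow₀ hΛ1
  have c14 : 100 * Λ ^ 13 ≤ Λ ^ 14 := by
    rw [pow_succ' Λ 13]; gcongr
  have hx : 0 ≤ 1 / D := by positivity
  have hy : 0 ≤ 1 / √D := by positivity
  have hz : 0 ≤ 1 / √Q := by positivity
  have b1 : (180 * Λ ^ 13) * (1 / √D) ≤ (4 * Λ ^ 14) * (1 / √D) :=
    mul_le_mul_of_nonneg_right (by linarith only [c13, c14]) hy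
  have b2 : (180 * Λ ^ 13 + 1) * (1 / √Q) ≤ (4 * Λ ^ 14) * (1 / √Q) :=
    mul_le_mul_of_nonneg_right (by linarith only [c13, c14]) hz
  have b3 : 0 ≤ Λ ^ 14 * (1 / D) := by positivity
  have c2 : 100 * Λ ≤ Λ ^ 2 := by rw [sq]; gcongr
  have c4 : 100 * Λ ^ 2 ≤ Λ ^ 4 := by clear * - Λ hΛ c2; nlinarith only [hΛ, c2]
  have b4 : (6 * Λ ^ 2) * (Q ^ 2 * ε) ≤ (4 * Λ ^ 4) * (Q ^ 2 * ε) :=
    mul_le_mul_of_nonneg_right (by linarith only [hΛ, c2, c4]) (by positivity)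
  have b5 : (800 * Λ) * (Q ^ 6 / N) ≤ (4 * Λ ^ 4) * (Q ^ 6 / N) :=
    mul_le_mul_of_nonneg_right (by linarith only [hΛ, c2, c4]) (by positivity)
  have e1 : Q ^ 2 * (400 * Λ * Q ^ 4 / N) = 400 * Λ * (Q ^ 6 / N) := by ring
  have e2 : Λ ^ 4 * Q ^ 6 / N = Λ ^ 4 * (Q ^ 6 / N) := by ring
  rw [mul_add (Q ^ 2), e1, e2]
  clear * - Λ D Q ε H N a1 a6 b1 b2 b3 b4 b5
  nlinarith only [a1, a6, b1, b2, b3, b4, b5]

theorem main1 {N : ℕ} {i0 : ι} (hN : 10 * S.h.natAbs ≤ N) (hW : 10 * (S.T * N) < S.m i0)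
    {η ε : ℝ} (hη0 : 0 ≤ η) (hη1 : η ≤ 1 / 4)
    (hη : ∀ d ∈ S.DD, (S.pr d : ℝ) ≤ (1 + η) * S.T) (hηN : 8 * S.Λ + 3 * S.H1 ^ S.k ≤ 2 * η * N)
    (hηH : 2 ≤ η * S.H0) (hε : 0 ≤ ε) {g : ℤ → ℂ} (hg1 : ∀ y, ‖g y‖ ≤ 1)
    (hg : ∀ d ∈ S.DD, ∀ n : ℤ, g (S.pr d * n) = g n) {Jm : ℕ} (hJ : S.T ≤ Jm)
    (hMR : MRB N (fun n => if (S.Zi n).card = S.k' then g n else 0) S.h (S.H0 / 2) S.H1 S.Q Jm ε)
    (hX : ‖S.ip (S.GX N g) (S.Xop S.Kk (S.GX N g))‖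
      ≤ 90 * S.rho * (S.T * N) * S.es (S.s + S.k')) :
    ∑ a ∈ S.AA S.k, S.iv a * S.PP S.T N S.DD (S.g1 g) a ^ 2
      ≤ (N : ℝ) ^ 2 * (S.es (S.s - S.k) * (4 * S.Xi ε N)
        + 192 * η ^ 2 * ∑ a ∈ S.AA S.k, S.iv a * ∑ v ∈ S.VF S.DD a, S.iv v) := by
  have hΛ := S.big
  have hΛ0 : 0 ≤ S.Λ := by linarith only [hΛ]
  have hH := S.bad_H0
  have hh : 1 ≤ S.h.natAbs := Int.natAbs_pos.2 S.h_ne
  have hN0 : (0 : ℝ) < N := by exact_mod_cast (show 0 < N by omega)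
  have hT : (0 : ℝ) < S.T := by exact_mod_cast S.T_pos
  have hH1 : S.H1 ^ S.k ≤ N := by
    clear * - ι S hH N η hηN hΛ hN0 hη1
    have : 0 ≤ S.H1 ^ S.k := pow_nonneg (hH.le.trans S.H01) _
    nlinarith only [hηN, hΛ, hN0, hη1]
  have h1 : ∑ a ∈ S.AA S.k, S.iv a * S.PP S.T N S.DD (S.g1 g) a ^ 2 ≤ 2 * N / S.T *
      ∑ a ∈ S.AA S.k, ∑ n ∈ S.Ib S.T N a, ‖∑ v ∈ S.VV S.k a, S.g1 g (S.pr v * n + S.h)‖ ^ 2 := by
    clear * - ι S N g η hηH hH1 hN0 hT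
    rw [mul_sum]
    refine sum_le_sum fun a _ => ?_
    have hα : (0 : ℝ) < S.pr a := by exact_mod_cast S.pr_pos a
    change S.iv a * (∑ n ∈ S.Ib S.T N a, ‖∑ v ∈ S.VV S.k a, S.g1 g (S.pr v * n + S.h)‖) ^ 2 ≤ _
    rcases (S.VV S.k a).eq_empty_or_nonempty with h0 | ⟨v0, hv0⟩
    · simp [h0]
    have q1 := sq_sum_le_card_mul_sum_sq (s := S.Ib S.T N a)
      (f := fun n => ‖∑ v ∈ S.VV S.k a, S.g1 g (S.pr v * n + S.h)‖)
    have q2 : ((S.Ib S.T N a).card : ℝ) ≤ 2 * (S.pr a / S.T * N) :=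
      (Nat.cast_le.2 (card_filter_le _ _)).trans (S.card_Ia_le' hηH hH1 hv0)
    have q3 := mul_le_mul_of_nonneg_right q2 (sum_nonneg (s := S.Ib S.T N a) fun n _ =>
      sq_nonneg ‖∑ v ∈ S.VV S.k a, S.g1 g (S.pr v * n + S.h)‖)
    refine (mul_le_mul_of_nonneg_left (q1.trans q3) (S.iv_pos a).le).trans (le_of_eq ?_)
    rw [iv]
    field_simp
  have h2 := S.BB_le hN hW hη0 hη1 hη hηN hηH hg1 hg
  have h3 := S.TT_le (S.supp_GX N g)
  have h4 := S.Pos_GX_le S.k_ge le_rfl hN hW hg1 hg hε hJ hMR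
  have h5 := S.nn_GX_le (N := N) (by omega) hW hg1
  have h6 := S.Ex_le' N
  set M := ∑ a ∈ S.AA S.k, S.iv a * ∑ v ∈ S.VF S.DD a, S.iv v with hM
  set e := S.es (S.s - S.k) with he
  have e0 : 0 ≤ e := S.es_nonneg _
  have h7 : ∑ a ∈ S.AA S.k, ((S.VV S.k a).card : ℝ) ≤ 2 * S.T * M := by
    rw [hM, mul_sum]
    refine sum_le_sum fun a _ => ?_
    rw [mul_sum, mul_sum, ← mul_one ((S.VV S.k a).card : ℝ), ← nsmul_eq_mul]
    refine card_nsmul_le_sum _ _ _ fun v hv => ?_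
    have l2 : (S.pr a : ℝ) * S.pr v ≤ 2 * S.T := by exact_mod_cast (S.Jav_T hv).2
    have hα : (0 : ℝ) < S.pr a := by exact_mod_cast S.pr_pos a
    have hβ : (0 : ℝ) < S.pr v := by exact_mod_cast S.pr_pos v
    rw [iv, iv, ← mul_inv, ← div_eq_mul_inv, le_div_iff₀ (by positivity), one_mul]
    exact l2
  have h8 : M ≤ e * S.Λ := by
    rw [hM, he, S.es_eq, sum_mul]
    exact sum_le_sum fun a _ => mul_le_mul_of_nonneg_left (S.sum_iv_VV_le _ a) (S.iv_pos a).le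
  have h9 := S.D_es_le
  rw [← he] at h9
  have hD : (0 : ℝ) ≤ S.D := Nat.cast_nonneg _
  have hD' : (0 : ℝ) ≤ S.D' := Nat.cast_nonneg _
  have h10 : (S.D : ℝ) * (S.D' * S.es (S.s + S.k')) ≤ S.Λ ^ 3 * e := by
    have q1 : (S.D' : ℝ) * S.es (S.s + S.k') ≤ S.es S.s * S.Λ :=
      (S.es_add_le S.s S.k').trans (mul_le_mul_of_nonneg_left (S.es_le_Λ _) (S.es_nonneg _))
    calc _ ≤ (S.D : ℝ) * (S.es S.s * S.Λ) := mul_le_mul_of_nonneg_left q1 hD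
      _ = S.D * S.es S.s * S.Λ := by ring
      _ ≤ S.Λ ^ 2 * e * S.Λ := mul_le_mul_of_nonneg_right h9 hΛ0
      _ = _ := by ring
  have hw : 0 ≤ S.H0⁻¹ := (inv_pos.2 hH).le
  have hρ : 0 ≤ 1 / √(S.D' : ℝ) + 1 / √(S.Q : ℝ) := by positivity
  have k1 : ‖S.ip (S.GX N g) (S.Xop S.Kk (S.GX N g))‖
      ≤ S.T * N * e * (90 * S.Λ ^ 13 * (1 / √S.D' + 1 / √S.Q)) := by
    clear * - ι S N g e hX h10 hΛ hT hN0
    refine hX.trans ?_
    calc _ = 90 * S.Λ ^ 10 * (1 / √S.D' + 1 / √S.Q) * (S.T * N) *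
          (S.D * (S.D' * S.es (S.s + S.k'))) := by rw [rho]; ring
      _ ≤ 90 * S.Λ ^ 10 * (1 / √S.D' + 1 / √S.Q) * (S.T * N) * (S.Λ ^ 3 * e) := by gcongr
      _ = _ := by ring
  have k2 : (S.D : ℝ) * S.Ex N ≤ S.T * N * e * (18 * (S.D' : ℝ) ^ 4 * S.Λ ^ 5 * S.H0⁻¹) := by
    clear * - ι S N e h6 hD h9 hΛ hH hT hN0
    calc _ ≤ (S.D : ℝ) * (18 * (S.D' : ℝ) ^ 4 * S.Λ ^ 3 * S.H0⁻¹ * (S.T * N * S.es S.s)) :=
          mul_le_mul_of_nonneg_left h6 hD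
      _ = 18 * (S.D' : ℝ) ^ 4 * S.Λ ^ 3 * S.H0⁻¹ * (S.T * N) * (S.D * S.es S.s) := by ring
      _ ≤ 18 * (S.D' : ℝ) ^ 4 * S.Λ ^ 3 * S.H0⁻¹ * (S.T * N) * (S.Λ ^ 2 * e) := by gcongr
      _ = _ := by ring
  have k3 : 8 * (S.Q : ℝ) ^ 4 * S.Λ / S.H0 * S.D * S.D' * S.nn (S.GX N g)
      ≤ S.T * N * e * (24 * (S.Q : ℝ) ^ 4 * S.Λ ^ 4 * S.H0⁻¹) := by
    clear * - ι S N g e h5 hΛ hH h10 hT hN0
    calc _ ≤ 8 * (S.Q : ℝ) ^ 4 * S.Λ / S.H0 * S.D * S.D' *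
          (3 * (S.T * N) * S.es (S.s + S.k')) := by gcongr
      _ = 24 * (S.Q : ℝ) ^ 4 * S.Λ * S.H0⁻¹ * (S.T * N) *
          (S.D * (S.D' * S.es (S.s + S.k'))) := by ring
      _ ≤ 24 * (S.Q : ℝ) ^ 4 * S.Λ * S.H0⁻¹ * (S.T * N) * (S.Λ ^ 3 * e) := by gcongr
      _ = _ := by ring
  have k4 : (48 * η ^ 2 * N + 12 * S.Λ * N / S.H0) * ∑ a ∈ S.AA S.k, ((S.VV S.k a).card : ℝ)
      ≤ S.T * N * (96 * η ^ 2 * M) + S.T * N * e * (24 * S.Λ ^ 2 * S.H0⁻¹) := by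
    clear * - η N ι S M e h7 hN0 hΛ hH h8 hT
    calc _ ≤ (48 * η ^ 2 * N + 12 * S.Λ * N / S.H0) * (2 * S.T * M) := by gcongr
      _ = S.T * N * (96 * η ^ 2 * M) + 24 * S.Λ * N * S.T * S.H0⁻¹ * M := by ring
      _ ≤ S.T * N * (96 * η ^ 2 * M) + 24 * S.Λ * N * S.T * S.H0⁻¹ * (e * S.Λ) := by gcongr
      _ = _ := by ring
  have k5 : (S.Q : ℝ) ^ 2 * S.T * e *
        (3 * S.Λ ^ 2 * ε * N + N / S.H0 + 400 * S.Λ * (S.Q : ℝ) ^ 4) = S.T * N * e *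
      ((S.Q : ℝ) ^ 2 * (3 * S.Λ ^ 2 * ε + S.H0⁻¹ + 400 * S.Λ * (S.Q : ℝ) ^ 4 / N)) := by
    clear * - ι S e ε N hH hN0 hΛ hε hT
    field_simp
  have k6 := mul_le_mul_of_nonneg_left k2 (show 0 ≤ 12 * (S.Q : ℝ) ^ 4 by positivity)
  have k7 := mul_le_mul_of_nonneg_left (S.Xi_num hε (show 0 < N by omega))
    (show 0 ≤ (S.T : ℝ) * N * e by positivity)
  refine h1.trans ?_
  rw [div_mul_eq_mul_div, div_le_iff₀ hT]
  have k8 : 2 * ∑ a ∈ S.AA S.k, ∑ n ∈ S.Ib S.T N a,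
      ‖∑ v ∈ S.VV S.k a, S.g1 g (S.pr v * n + S.h)‖ ^ 2
      ≤ S.T * N * e * (4 * S.Xi ε N) + S.T * N * (192 * η ^ 2 * M) := by
    clear * - ι S N g e ε η M h2 h3 k5 h4 k1 k2 k3 k4 k6 k7
    rw [k5] at h4
    nlinarith only [h2, h3, h4, k1, k2, k3, k4, k6, k7]
  nlinarith only [k8, hN0, mul_le_mul_of_nonneg_left k8 hN0.le]

end Sys

end Pool.Agent.Work.MP_d018b2_nt.R
end

-- merged part: Pool.Agent.Work.MP_d018b2_nt.R.NComb
section
/-! Summation over all classes. -/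

set_option autoImplicit false
open Finset Pool.Agent.Lib.LargeSieve

namespace Pool.Agent.Work.MP_d018b2_nt.R

open Pool.Agent.Work.MP_678620_nt Int4

namespace Sys

variable {ι : Type} [Fintype ι] [DecidableEq ι] (S : Sys ι)

lemma comb_split (N : ℕ) (F u : ℤ → ℂ) :
    ∑ n ∈ Ioc (N : ℤ) (2 * N), (if (S.Zi n).card = S.k then F n else 0) * u (n + S.h)
      = ∑ v ∈ S.E.powersetCard S.k, ∑ n ∈ Iv (S.pr v) N (2 * N),
        if S.Zi (S.pr v * n) = v then F (S.pr v * n) * u (S.pr v * n + S.h) else 0 := by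
  rw [sum_congr rfl fun v _ => (sum_dvd_eq (S.pr_pos v) N (2 * N) fun y =>
    if S.Zi y = v then F y * u (y + S.h) else 0).symm, sum_comm]
  refine sum_congr rfl fun n _ => ?_
  have h1 : ∀ v ∈ S.E.powersetCard S.k, (if (S.pr v : ℤ) ∣ n then
      if S.Zi n = v then F n * u (n + S.h) else 0 else 0)
      = if S.Zi n = v then F n * u (n + S.h) else 0 := by
    intro v hv
    by_cases h : S.Zi n = v
    · rw [if_pos ((S.sub_Zi (mem_powersetCard.1 hv).1).1 h.ge)]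
    · simp [h]
  rw [sum_congr rfl h1, sum_ite_eq]
  have h2 : S.Zi n ∈ S.E.powersetCard S.k ↔ (S.Zi n).card = S.k := by
    rw [mem_powersetCard]
    exact and_iff_right (S.Zs_sub _)
  simp only [h2, ite_mul, zero_mul]

lemma comb_one {T N : ℕ} (hT : 0 < T) {η : ℝ} (hη0 : 0 ≤ η) {a v : Finset ι} (hv : v ⊆ S.E)
    (hk : v.card = S.k) (h1 : T ≤ S.pr a * S.pr v) (h2 : (S.pr a : ℝ) * S.pr v ≤ (1 + η) * T)
    {w : ℤ → ℂ} (hw : ∀ n, ‖w n‖ ≤ 1) :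
    ‖∑ n ∈ Iv (S.pr v) N (2 * N), (if S.Zi (S.pr v * n) = v then w n else 0)
      - ∑ n ∈ S.Ib T N a, w n‖ ≤ (3 * η * N + 2 * S.Λ * N / S.H0) * S.iv v + 2 := by
  classical
  have hT' : (0 : ℝ) < T := by exact_mod_cast hT
  have hα : (0 : ℝ) < S.pr a := by exact_mod_cast S.pr_pos a
  have hβ : (0 : ℝ) < S.pr v := by exact_mod_cast S.pr_pos v
  have h1' : (T : ℝ) ≤ S.pr a * S.pr v := by exact_mod_cast h1
  have hN0 : (0 : ℝ) ≤ N := Nat.cast_nonneg _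
  have hH := S.bad_H0
  have hΛ := S.bad_Λ
  set J := Iv (S.pr v) N (2 * N) with hJ
  have mJ : ∀ n : ℤ, n ∈ J ↔ (N : ℝ) < S.pr v * n ∧ (S.pr v : ℝ) * n ≤ 2 * N := fun n => by
    clear * - J n N ι S v hJ
    rw [hJ, mem_Iv (S.pr_pos v)]
    exact ⟨fun h => ⟨by exact_mod_cast h.1, by exact_mod_cast h.2⟩,
      fun h => ⟨by exact_mod_cast h.1, by exact_mod_cast h.2⟩⟩
  set b : ℤ → ℂ := fun n => if S.Zi n = ∅ then w n else 0 with hb
  have hb1 : ∀ n, ‖b n‖ ≤ 1 := fun n => by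
    simp only [hb]
    split_ifs
    · exact hw n
    · simp
  have pos : ∀ {c y : ℝ} {n : ℤ}, 0 < c → 0 ≤ y → y < c * n → (0 : ℝ) < n := by
    intro c y n hc hy h
    by_contra hn
    have := mul_nonpos_of_nonneg_of_nonpos hc.le (not_lt.1 hn)
    linarith only [hy, h, this]
  have a1 : ‖∑ n ∈ J, (if S.Zi (S.pr v * n) = v then w n else 0) - ∑ n ∈ J, b n‖
      ≤ 2 * S.Λ * N / S.H0 * S.iv v := by
    clear * - J ι S v w b N hb hv hw mJ pos hβ hN0 hk hH hΛ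
    rw [← sum_sub_distrib]
    refine (norm_sum_le _ _).trans ((sum_le_sum
      (g := fun n => if ∃ p ∈ v, (S.m p : ℤ) ∣ n then (1 : ℝ) else 0) fun n _ => ?_).trans ?_)
    · simp only [hb]
      rw [S.Zi_mul hv]
      by_cases hZ : S.Zi n = ∅
      · rw [if_pos hZ, if_pos (by rw [hZ, union_empty]), sub_self, norm_zero]
        positivity
      · rw [if_neg hZ, sub_zero]
        by_cases h : v ∪ S.Zi n = v
        · obtain ⟨p, hp⟩ := nonempty_iff_ne_empty.2 hZ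
          rw [if_pos h, if_pos ⟨p, h ▸ mem_union_right _ hp, (S.mem_Zi.1 hp).2⟩]
          exact hw n
        · rw [if_neg h, norm_zero]
          positivity
    · rw [sum_boole]
      have q1 : (J.filter fun n => ∃ p ∈ v, (S.m p : ℤ) ∣ n) ⊆
          (Icc (1 : ℤ) (⌊2 * N * S.iv v⌋₊ : ℕ)).filter fun n => ∃ p ∈ v, (S.m p : ℤ) ∣ n := by
        refine filter_subset_filter _ fun n hn => ?_
        obtain ⟨n1, n2⟩ := (mJ n).1 hn
        have n3 : 0 < n := by exact_mod_cast pos hβ hN0 n1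
        refine mem_Icc.2 ⟨n3, ?_⟩
        rw [Int.natCast_floor_eq_floor (by have := S.iv_pos v; positivity), Int.le_floor, iv,
          ← div_eq_mul_inv, le_div_iff₀ hβ]
        linarith
      refine (Nat.cast_le.2 (card_le_card q1)).trans ((S.count_dvd _ hv).trans ?_)
      have q2 : (v.card : ℝ) ≤ S.Λ := hk ▸ S.k_le_Λ
      have q3 : (⌊2 * N * S.iv v⌋₊ : ℝ) ≤ 2 * N * S.iv v :=
        Nat.floor_le (by have := S.iv_pos v; positivity)
      calc _ ≤ S.Λ * (2 * N * S.iv v / S.H0) := by gcongr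
        _ = _ := by ring
  have a2 : ((J \ S.Ia T N a).card : ℝ) ≤ η * N * S.iv v + 1 := by
    clear * - J ι S T N a η v hη0 hβ mJ pos hN0 h1' h2 hα hT
    refine (card_le_real _ (x := N / S.pr v) (y := (1 + η) * N / S.pr v)
      (div_le_div_of_nonneg_right (by nlinarith only [hη0]) hβ.le) fun n hn => ?_).trans
      (le_of_eq (by rw [iv]; ring))
    obtain ⟨q1, q2⟩ := mem_sdiff.1 hn
    obtain ⟨n1, n2⟩ := (mJ n).1 q1
    have n0 := pos hβ hN0 n1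
    rw [S.mem_Ia hT, not_and_or, not_lt, not_le] at q2
    rw [div_lt_iff₀ hβ, le_div_iff₀ hβ]
    refine ⟨by linarith, le_of_mul_le_mul_left ?_ hα⟩
    have e1 := mul_le_mul_of_nonneg_right h1' n0.le
    have e2 := mul_le_mul_of_nonneg_right h2 n0.le
    have e3 := mul_le_mul_of_nonneg_left n2 hα.le
    rcases q2 with q | q
    · have e4 := mul_le_mul_of_nonneg_left q (show 0 ≤ 1 + η by linarith)
      nlinarith only [e2, e4]
    · nlinarith only [e1, e3, q]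
  have a3 : ((S.Ia T N a \ J).card : ℝ) ≤ 2 * η * N * S.iv v + 1 := by
    clear * - ι S T N a J η v hη0 hβ hT pos hT' hα h1' h2 mJ
    refine (card_le_real _ (x := 2 * N / S.pr v) (y := (1 + η) * (2 * N) / S.pr v)
      (div_le_div_of_nonneg_right (by nlinarith only [hη0]) hβ.le) fun n hn => ?_).trans
      (le_of_eq (by rw [iv]; ring))
    obtain ⟨q1, q2⟩ := mem_sdiff.1 hn
    obtain ⟨n1, n2⟩ := (S.mem_Ia hT).1 q1
    have n0 := pos hT' (by positivity) n1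
    rw [mJ, not_and_or, not_lt, not_le] at q2
    rw [div_lt_iff₀ hβ, le_div_iff₀ hβ]
    have e1 := mul_le_mul_of_nonneg_right h1' n0.le
    have e2 := mul_le_mul_of_nonneg_right h2 n0.le
    have e4 := mul_le_mul_of_nonneg_left n2 (show 0 ≤ 1 + η by linarith)
    refine ⟨?_, le_of_mul_le_mul_left (by nlinarith only [e2, e4]) hα⟩
    rcases q2 with q | q
    · have e3 := mul_le_mul_of_nonneg_left q hα.le
      nlinarith only [n1, e1, e3]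
    · linarith
  have a4 : ‖∑ n ∈ J, b n - ∑ n ∈ S.Ia T N a, b n‖ ≤ 3 * η * N * S.iv v + 2 := by
    rw [← sum_sdiff_sub_sum_sdiff]
    refine (norm_sub_le _ _).trans ?_
    have b1 := norm_sum_le_card (J \ S.Ia T N a) (f := b) fun n _ => hb1 n
    have b2 := norm_sum_le_card (S.Ia T N a \ J) (f := b) fun n _ => hb1 n
    linarith only [a2, a3, b1, b2]
  rw [show ∑ n ∈ S.Ib T N a, w n = ∑ n ∈ S.Ia T N a, b n from sum_filter _ _]
  have := norm_sub_le_norm_sub_add_norm_sub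
    (∑ n ∈ J, (if S.Zi (S.pr v * n) = v then w n else 0)) (∑ n ∈ J, b n) (∑ n ∈ S.Ia T N a, b n)
  linarith only [a1, a4, this]

lemma sum_meet_le {a : Finset ι} (ha : (a.card : ℝ) ≤ S.Λ) (j : ℕ) :
    ∑ v ∈ (S.E.powersetCard j).filter (fun v => ¬ Disjoint v a), S.iv v ≤ S.Λ ^ 2 / S.H0 := by
  have hΛ := S.bad_Λ
  have hH := S.bad_H0
  calc _ ≤ ∑ v ∈ S.E.powersetCard j, ∑ p ∈ a, (if p ∈ v then S.iv v else 0) := by
        rw [sum_filter]
        refine sum_le_sum fun v _ => ?_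
        have h0 : ∀ p ∈ a, 0 ≤ if p ∈ v then S.iv v else 0 := fun p _ => by
          split_ifs
          · exact (S.iv_pos v).le
          · exact le_rfl
        split_ifs with h
        · exact sum_nonneg h0
        · obtain ⟨p, h1, h2⟩ := not_disjoint_iff.1 h
          refine le_trans (le_of_eq ?_) (single_le_sum h0 h2)
          rw [if_pos h1]
    _ ≤ ∑ _p ∈ a, S.Λ / S.H0 := by
        rw [sum_comm]
        refine sum_le_sum fun p _ => ?_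
        rw [← sum_filter]
        exact S.sum_iv_mem_le (Subset.refl _) j p
    _ ≤ _ := by
        rw [sum_const, nsmul_eq_mul, sq, mul_div_assoc]
        exact mul_le_mul_of_nonneg_right ha (by positivity)

lemma sum_classes {β κ : Type*} [AddCommMonoid β] [DecidableEq κ] {C : Finset κ}
    {cl : Finset ι → κ} (hC : ∀ d ∈ S.E.powersetCard S.s, cl d ∈ C) {a : Finset ι}
    (ha : a ∈ S.AA S.k) (Φ : κ → Finset ι → β) :
    ∑ v ∈ (S.E \ a).powersetCard S.k, Φ (cl (a ∪ v)) v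
      = ∑ c ∈ C, ∑ v ∈ S.VF ((S.E.powersetCard S.s).filter fun d => cl d = c) a, Φ c v := by
  obtain ⟨a0, a1⟩ := S.mem_AA.1 ha
  have hm : ∀ v ∈ (S.E \ a).powersetCard S.k, a ∪ v ∈ S.E.powersetCard S.s := fun v hv => by
    obtain ⟨b0, b1⟩ := mem_powersetCard.1 hv
    obtain ⟨b2, b3⟩ := subset_sdiff.1 b0
    refine mem_powersetCard.2 ⟨union_subset a0 b2, ?_⟩
    rw [card_union_of_disjoint b3.symm, a1, b1, Nat.sub_add_cancel S.k_le]
  rw [← sum_fiberwise_of_maps_to (g := fun v => cl (a ∪ v)) fun v hv => hC _ (hm v hv)]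
  refine sum_congr rfl fun c _ => ?_
  refine sum_congr (filter_congr fun v hv => ?_) fun v hv => ?_
  · rw [mem_filter, and_iff_right (hm v hv)]
  · rw [(mem_filter.1 (mem_filter.1 hv).2).2]

theorem comb {κ : Type*} [DecidableEq κ] {C : Finset κ} {cl : Finset ι → κ} (T : κ → ℕ)
    (hC : ∀ d ∈ S.E.powersetCard S.s, cl d ∈ C) {η : ℝ} (hη0 : 0 ≤ η)
    (hT : ∀ d ∈ S.E.powersetCard S.s, 0 < T (cl d) ∧ T (cl d) ≤ S.pr d ∧
      (S.pr d : ℝ) ≤ (1 + η) * T (cl d))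
    {F u : ℤ → ℂ} (hF1 : ∀ n, ‖F n‖ ≤ 1) (hu1 : ∀ n, ‖u n‖ ≤ 1) {a : Finset ι}
    (ha : a ∈ S.AA S.k) {φ : κ → ℤ → ℂ} (hφ1 : ∀ c n, ‖φ c n‖ ≤ 1)
    (hF : ∀ v ∈ (S.E \ a).powersetCard S.k, ∀ n, F (S.pr v * n) = φ (cl (a ∪ v)) n) (N : ℕ) :
    ‖∑ n ∈ Ioc (N : ℤ) (2 * N), (if (S.Zi n).card = S.k then F n else 0) * u (n + S.h)‖
      ≤ ∑ c ∈ C, S.PP (T c) N ((S.E.powersetCard S.s).filter fun d => cl d = c) u a
        + (3 * S.Λ ^ 2 * N / S.H0 + 3 * η * N * S.es S.k + 3 * S.H1 ^ S.k) := by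
  obtain ⟨a0, a1⟩ := S.mem_AA.1 ha
  have hΛ := S.bad_Λ
  have hH := S.bad_H0
  have hN0 : (0 : ℝ) ≤ N := Nat.cast_nonneg _
  have hw : ∀ (v : Finset ι) (n : ℤ), ‖F (S.pr v * n) * u (S.pr v * n + S.h)‖ ≤ 1 := fun v n => by
    rw [norm_mul]
    exact mul_le_one₀ (hF1 _) (norm_nonneg _) (hu1 _)
  have hP : ((S.E.powersetCard S.k).card : ℝ) ≤ S.H1 ^ S.k := by
    rw [card_powersetCard]
    calc ((S.E.card.choose S.k : ℕ) : ℝ) ≤ (S.E.card : ℝ) ^ S.k := by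
          exact_mod_cast Nat.choose_le_pow _ _
      _ ≤ _ := pow_le_pow_left₀ (Nat.cast_nonneg _) S.card_E_le _
  have hsub : (S.E \ a).powersetCard S.k ⊆ S.E.powersetCard S.k := powersetCard_mono sdiff_subset
  have e0 : (S.E.powersetCard S.k).filter (fun v => Disjoint v a) = (S.E \ a).powersetCard S.k := by
    ext v
    simp only [mem_filter, mem_powersetCard, subset_sdiff]
    tauto
  rw [S.comb_split, ← sum_filter_add_sum_filter_not _ fun v => Disjoint v a, e0]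
  have b1 : ‖∑ v ∈ (S.E.powersetCard S.k).filter (fun v => ¬ Disjoint v a),
      ∑ n ∈ Iv (S.pr v) N (2 * N),
        if S.Zi (S.pr v * n) = v then F (S.pr v * n) * u (S.pr v * n + S.h) else 0‖
      ≤ S.Λ ^ 2 * N / S.H0 + S.H1 ^ S.k := by
    clear * - ι a S N F u hw a1 hN0 hP
    refine (norm_sum_le _ _).trans ((sum_le_sum (g := fun v => N * S.iv v + 1) fun v _ => ?_).trans
      ?_)
    · refine (norm_sum_le_card _ fun n _ => ?_).trans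
        ((card_Iv_le (S.pr_pos v) (by omega)).trans (le_of_eq ?_))
      · split_ifs
        · exact hw v n
        · simp
      · rw [iv]; push_cast; ring
    · rw [sum_add_distrib, ← mul_sum, sum_const, nsmul_eq_mul, mul_one]
      have q1 := mul_le_mul_of_nonneg_left (S.sum_meet_le (a := a) (by
        rw [a1]; exact le_trans (by exact_mod_cast Nat.sub_le _ _) S.s_le) S.k) hN0
      have q2 := (Nat.cast_le.2 (card_filter_le (S.E.powersetCard S.k)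
        fun v => ¬ Disjoint v a)).trans hP
      have : (N : ℝ) * (S.Λ ^ 2 / S.H0) = S.Λ ^ 2 * N / S.H0 := by ring
      linarith only [q1, q2, this]
  have b2 : ‖∑ v ∈ (S.E \ a).powersetCard S.k, (∑ n ∈ Iv (S.pr v) N (2 * N),
      if S.Zi (S.pr v * n) = v then F (S.pr v * n) * u (S.pr v * n + S.h) else 0)
      - ∑ v ∈ (S.E \ a).powersetCard S.k, ∑ n ∈ S.Ib (T (cl (a ∪ v))) N a,
        φ (cl (a ∪ v)) n * u (S.pr v * n + S.h)‖
      ≤ 2 * S.Λ ^ 2 * N / S.H0 + 3 * η * N * S.es S.k + 2 * S.H1 ^ S.k := by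
    clear * - ι S a N F u T cl φ η hT a0 a1 hF hη0 hw hsub hP hΛ hH b1
    rw [← sum_sub_distrib]
    refine (norm_sum_le _ _).trans ((sum_le_sum
      (g := fun v => (3 * η * N + 2 * S.Λ * N / S.H0) * S.iv v + 2) fun v hv => ?_).trans ?_)
    · obtain ⟨b0, b1⟩ := mem_powersetCard.1 hv
      obtain ⟨b2, b3⟩ := subset_sdiff.1 b0
      obtain ⟨c0, c1, c2⟩ := hT (a ∪ v) (mem_powersetCard.2 ⟨union_subset a0 b2, by
        rw [card_union_of_disjoint b3.symm, a1, b1, Nat.sub_add_cancel S.k_le]⟩)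
      rw [S.pr_union b3.symm] at c1 c2
      rw [Nat.cast_mul] at c2
      rw [← sum_congr rfl fun n _ => congrArg (· * u (S.pr v * n + S.h)) (hF v hv n)]
      exact S.comb_one c0 hη0 b2 b1 c1 c2 (hw v)
    · rw [sum_add_distrib, ← mul_sum, sum_const, nsmul_eq_mul]
      have q1 : ∑ v ∈ (S.E \ a).powersetCard S.k, S.iv v ≤ S.es S.k := by
        rw [S.es_eq]
        exact sum_le_sum_of_subset_of_nonneg hsub fun v _ _ => (S.iv_pos v).le
      have q2 := (Nat.cast_le.2 (card_le_card hsub)).trans hP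
      have q3 := mul_le_mul_of_nonneg_left q1
        (show 0 ≤ 3 * η * N + 2 * S.Λ * N / S.H0 by positivity)
      have q4 := mul_le_mul_of_nonneg_left (S.es_le_Λ S.k)
        (show 0 ≤ 2 * S.Λ * N / S.H0 by positivity)
      have : 2 * S.Λ * N / S.H0 * S.Λ = 2 * S.Λ ^ 2 * N / S.H0 := by ring
      nlinarith only [q2, q3, q4, this]
  have b3 : ‖∑ v ∈ (S.E \ a).powersetCard S.k, ∑ n ∈ S.Ib (T (cl (a ∪ v))) N a,
        φ (cl (a ∪ v)) n * u (S.pr v * n + S.h)‖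
      ≤ ∑ c ∈ C, S.PP (T c) N ((S.E.powersetCard S.s).filter fun d => cl d = c) u a := by
    rw [S.sum_classes hC ha fun c v => ∑ n ∈ S.Ib (T c) N a, φ c n * u (S.pr v * n + S.h)]
    refine (norm_sum_le _ _).trans (sum_le_sum fun c _ => ?_)
    rw [sum_comm]
    refine (norm_sum_le _ _).trans (sum_le_sum fun n _ => ?_)
    rw [← mul_sum, norm_mul]
    exact mul_le_of_le_one_left (norm_nonneg _) (hφ1 c n)
  refine (norm_add_le _ _).trans ?_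
  have b4 := norm_le_norm_add_norm_sub' (∑ v ∈ (S.E \ a).powersetCard S.k,
    (∑ n ∈ Iv (S.pr v) N (2 * N),
      if S.Zi (S.pr v * n) = v then F (S.pr v * n) * u (S.pr v * n + S.h) else 0))
    (∑ v ∈ (S.E \ a).powersetCard S.k, ∑ n ∈ S.Ib (T (cl (a ∪ v))) N a,
        φ (cl (a ∪ v)) n * u (S.pr v * n + S.h))
  have : 3 * S.Λ ^ 2 * N / S.H0 = S.Λ ^ 2 * N / S.H0 + 2 * S.Λ ^ 2 * N / S.H0 := by ring
  clear * - ι S a N F u κ C T cl η φ b1 b2 b3 b4 this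
  linarith only [b1, b2, b3, b4, this]

theorem comb2 {κ : Type*} [DecidableEq κ] {C : Finset κ} {cl : Finset ι → κ} (T : κ → ℕ)
    (hC : ∀ d ∈ S.E.powersetCard S.s, cl d ∈ C) (hsE : S.s ≤ S.E.card) {η X : ℝ} (hX : 0 ≤ X)
    (hη0 : 0 ≤ η) (u : ℤ → ℂ) (N : ℕ) {x y : ℝ}
    (h1 : ∀ a ∈ S.AA S.k,
      x ≤ ∑ c ∈ C, S.PP (T c) N ((S.E.powersetCard S.s).filter fun d => cl d = c) u a + y)
    (h2 : ∀ c ∈ C, ∑ a ∈ S.AA S.k,
      S.iv a * S.PP (T c) N ((S.E.powersetCard S.s).filter fun d => cl d = c) u a ^ 2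
      ≤ (N : ℝ) ^ 2 * (S.es (S.s - S.k) * (4 * X) + 192 * η ^ 2 * ∑ a ∈ S.AA S.k, S.iv a *
        ∑ v ∈ S.VF ((S.E.powersetCard S.s).filter fun d => cl d = c) a, S.iv v)) :
    x ≤ 2 * N * C.card * √X + 14 * N * η * √(C.card * S.es S.k) + y := by
  set e := S.es (S.s - S.k) with he
  have e1 : e = ∑ a ∈ S.AA S.k, S.iv a := S.es_eq _
  have e0 : 0 < e := e1 ▸ sum_pos (fun a _ => S.iv_pos a)
    (powersetCard_nonempty.2 ((Nat.sub_le _ _).trans hsE))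
  have k0 := S.es_nonneg S.k
  set P : κ → Finset ι → ℝ := fun c a =>
    S.PP (T c) N ((S.E.powersetCard S.s).filter fun d => cl d = c) u a with hP
  have a1 : e * x ≤ ∑ z ∈ C ×ˢ S.AA S.k, S.iv z.2 * P z.1 z.2 + e * y := by
    rw [e1, sum_mul, sum_mul, sum_product_right, ← sum_add_distrib]
    refine sum_le_sum fun a ha => ?_
    simp only
    rw [← mul_sum, ← mul_add]
    exact mul_le_mul_of_nonneg_left (h1 a ha) (S.iv_pos a).le
  have a2 := cs_sqrt (C ×ˢ S.AA S.k) (w := fun z => S.iv z.2) (A := fun _ => 1)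
    (B := fun z => P z.1 z.2 ^ 2) (fun z _ => (S.iv_pos _).le) (fun _ _ => zero_le_one)
    fun _ _ => sq_nonneg _
  have a3 : ∑ z ∈ C ×ˢ S.AA S.k, S.iv z.2 * P z.1 z.2
      ≤ ∑ z ∈ C ×ˢ S.AA S.k, S.iv z.2 * (√1 * √(P z.1 z.2 ^ 2)) := by
    refine sum_le_sum fun z _ => mul_le_mul_of_nonneg_left ?_ (S.iv_pos _).le
    rw [Real.sqrt_one, one_mul, Real.sqrt_sq_eq_abs]
    exact le_abs_self _
  have a4 : ∑ z ∈ C ×ˢ S.AA S.k, S.iv z.2 * 1 ≤ C.card * e := by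
    rw [sum_product, e1]
    simp
  have a5 : ∑ z ∈ C ×ˢ S.AA S.k, S.iv z.2 * P z.1 z.2 ^ 2
      ≤ (N : ℝ) ^ 2 * (C.card * (e * (4 * X)) + 192 * η ^ 2 * (e * S.es S.k)) := by
    rw [sum_product]
    refine (sum_le_sum h2).trans ?_
    rw [← mul_sum, sum_add_distrib, sum_const, nsmul_eq_mul, ← mul_sum, sum_comm]
    refine mul_le_mul_of_nonneg_left (add_le_add le_rfl
      (mul_le_mul_of_nonneg_left ?_ (by positivity))) (sq_nonneg _)
    rw [e1, sum_mul]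
    refine sum_le_sum fun a ha => ?_
    rw [← mul_sum, ← S.sum_classes hC ha fun _ v => S.iv v, S.es_eq]
    exact mul_le_mul_of_nonneg_left (sum_le_sum_of_subset_of_nonneg
      (powersetCard_mono sdiff_subset) fun v _ _ => (S.iv_pos v).le) (S.iv_pos a).le
  have a6 := sqrt_mul_sqrt_le a4 a5 (by clear * - κ C e e0 N S X a4 a5 hX η; positivity)
    (C := e * (2 * N * C.card * √X + 14 * N * η * √(C.card * S.es S.k))) (by positivity) (by
      clear * - X hX κ C ι S k0 N η hη0 e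
      have b1 : √X ^ 2 = X := Real.sq_sqrt hX
      have b2 : √(C.card * S.es S.k) ^ 2 = C.card * S.es S.k := Real.sq_sqrt (by positivity)
      have b3 : 0 ≤ (2 * N * C.card * √X) * (14 * N * η * √(C.card * S.es S.k)) := by positivity
      have b4 : 0 ≤ (N : ℝ) ^ 2 * η ^ 2 * (C.card * S.es S.k) := by positivity
      rw [mul_pow]
      refine le_trans (le_of_eq (by ring)) (mul_le_mul_of_nonneg_left (b := (N : ℝ) ^ 2 *
        (4 * (C.card : ℝ) ^ 2 * X + 192 * η ^ 2 * (C.card * S.es S.k))) ?_ (sq_nonneg e))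
      rw [add_sq, mul_pow _ √X, mul_pow _ √(C.card * S.es S.k), b1, b2]
      nlinarith only [b3, b4])
  refine le_of_mul_le_mul_left ?_ e0
  rw [mul_add]
  linarith only [a1, a2, a3, a6]

end Sys

end Pool.Agent.Work.MP_d018b2_nt.R
end
end
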