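import Pool.Agent.Work.MP_678620_nt.SPCons
import Pool.Agent.Work.MP_d018b2_nt.R.NComb
import Pool.Agent.Work.MP_678620_nt.SPFinalB

-- merged part: Pool.Agent.Work.MP_d018b2_nt.R.NCons
section
/-! The classes of dilation sets. -/

set_option autoImplicit false
open Finset

namespace Pool.Agent.Work.MP_d018b2_nt.R

open Pool.Agent.Work.MP_678620_nt

theorem exists_cl {ι : Type*} [DecidableEq ι] (m : ι → ℕ) (E : Finset ι) {H1 η : ℝ}
    (hE : ∀ p ∈ E, 2 ≤ m p ∧ (m p : ℝ) ≤ H1) {s M0 : ℕ} (hs : 1 ≤ s) (hsE : s ≤ E.card)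
    (hM0 : 1 ≤ M0) (hη0 : 0 < η) (hη1 : η ≤ 1) :
    ∃ (cl : Finset ι → ℕ × ℕ) (lab : ι → ℕ) (T : ℕ × ℕ → ℕ),
      (∀ d ∈ E.powersetCard s, T (cl d) ≤ ∏ i ∈ d, m i ∧
        ((∏ i ∈ d, m i : ℕ) : ℝ) ≤ (1 + η) * T (cl d) ∧ ∏ i ∈ d, m i ≡ (cl d).2 [MOD M0]) ∧
      (∀ (e : Finset ι), ∀ p p', p ∉ e → p' ∉ e → lab p = lab p' →
        cl (insert p e) = cl (insert p' e)) ∧
      (∀ p ∈ E, ∀ p' ∈ E, lab p = lab p' → m p ≤ 2 * m p') ∧
      ((E.image lab).card : ℝ) ≤ M0 * (4 * s * Real.log H1 / η + 1) ∧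
      (((E.powersetCard s).image cl).card : ℝ) ≤ M0 * (4 * s ^ 2 * Real.log H1 / η + 1) := by
  classical
  have hs' : (1 : ℝ) ≤ s := by exact_mod_cast hs
  have hκ : 0 < η / (2 * s) := by positivity
  have hκ1 : η / (2 * s) ≤ 1 := by
    rw [div_le_one (by positivity)]
    linarith
  have hpow := SPCons_pow hs hη0 hη1
  choose lv hlv using SPCons_lev hκ hκ1 (H1 := H1)
  have hl : ∀ p ∈ E, (1 + η / (2 * s)) ^ lv (m p) ≤ m p ∧
      (m p : ℝ) ≤ (1 + η / (2 * s)) ^ (lv (m p) + 1) ∧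
      (lv (m p) : ℝ) ≤ 4 * s * Real.log H1 / η := fun p hp => by
    obtain ⟨h1, h2, h3⟩ := hlv (m p) (by have := (hE p hp).1; omega) (hE p hp).2
    refine ⟨h1, h2, h3.trans_eq ?_⟩
    field_simp
    ring
  generalize η / (2 * s) = κ at hκ hκ1 hpow hl
  clear hlv
  have hB : 0 ≤ 4 * s * Real.log H1 / η := by
    obtain ⟨p, hp⟩ : E.Nonempty := card_pos.1 (by omega)
    exact (Nat.cast_nonneg _).trans (hl p hp).2.2
  have e2 : 4 * (s : ℝ) ^ 2 * Real.log H1 / η = s * (4 * s * Real.log H1 / η) := by ring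
  rw [e2]
  generalize 4 * s * Real.log H1 / η = B at hB hl
  let cl : Finset ι → ℕ × ℕ := fun d => (∑ i ∈ d, lv (m i), (∏ i ∈ d, m i) % M0)
  have hT : ∀ c : ℕ × ℕ, ∃ t : ℕ, ∀ d ∈ E.powersetCard s, cl d = c →
      t ≤ ∏ i ∈ d, m i ∧ ((∏ i ∈ d, m i : ℕ) : ℝ) ≤ (1 + η) * t := fun c => by
    rcases ((E.powersetCard s).filter fun d => cl d = c).eq_empty_or_nonempty with h0 | hne
    · exact ⟨0, fun d hd e => absurd (mem_filter.2 ⟨hd, e⟩) (h0 ▸ notMem_empty d)⟩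
    obtain ⟨d₀, hd₀, hmin⟩ := exists_min_image _ (fun d => ∏ i ∈ d, m i) hne
    refine ⟨∏ i ∈ d₀, m i, fun d h1 h2 => ⟨hmin d (mem_filter.2 ⟨h1, h2⟩), ?_⟩⟩
    obtain ⟨h3, h4⟩ := mem_powersetCard.1 h1
    obtain ⟨h5, h6⟩ := mem_filter.1 hd₀
    have h7 : ∑ i ∈ d, lv (m i) = ∑ i ∈ d₀, lv (m i) := congrArg Prod.fst (h2.trans h6.symm)
    have h8 : (1 + κ) ^ ∑ i ∈ d₀, lv (m i) ≤ ((∏ i ∈ d₀, m i : ℕ) : ℝ) := by
      rw [← prod_pow_eq_pow_sum, Nat.cast_prod]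
      exact prod_le_prod (fun i _ => by positivity)
        fun i hi => (hl i ((mem_powersetCard.1 h5).1 hi)).1
    calc ((∏ i ∈ d, m i : ℕ) : ℝ) ≤ ∏ i ∈ d, (1 + κ) ^ (lv (m i) + 1) := by
          rw [Nat.cast_prod]
          exact prod_le_prod (fun i _ => by positivity) fun i hi => (hl i (h3 hi)).2.1
      _ = (1 + κ) ^ s * (1 + κ) ^ ∑ i ∈ d₀, lv (m i) := by
          rw [prod_pow_eq_pow_sum, sum_add_distrib, h7, ← card_eq_sum_ones, h4, pow_add,
            mul_comm]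
      _ ≤ _ := by gcongr
  choose T hT using hT
  refine ⟨cl, fun p => M0 * lv (m p) + m p % M0, T, fun d hd =>
    ⟨(hT _ d hd rfl).1, (hT _ d hd rfl).2, (Nat.mod_modEq _ _).symm⟩,
    fun e p p' hpe hpe' h => ?_, fun p hp p' hp' h => ?_, ?_, ?_⟩
  · obtain ⟨h5, h6⟩ := SPCons_lab hM0 h
    simp only [cl, sum_insert hpe, sum_insert hpe', prod_insert hpe, prod_insert hpe', h5]
    rw [Nat.mul_mod, h6, ← Nat.mul_mod]
  · have h1 := (hl p hp).2.1
    have h2 := (hl p' hp').1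
    rw [(SPCons_lab hM0 h).1, pow_succ] at h1
    have h3 : (m p : ℝ) ≤ 2 * m p' := by
      have : 0 < (1 + κ) ^ lv (m p') := by positivity
      nlinarith
    exact_mod_cast h3
  · have h1 : E.image (fun p => M0 * lv (m p) + m p % M0) ⊆ range (M0 * (⌊B⌋₊ + 1)) := by
      intro x hx
      obtain ⟨p, hp, rfl⟩ := mem_image.1 hx
      have h2 : lv (m p) ≤ ⌊B⌋₊ := Nat.le_floor (hl p hp).2.2
      have h3 := Nat.mod_lt (m p) hM0
      have h4 := Nat.mul_le_mul_left M0 h2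
      rw [mem_range, Nat.mul_add_one]
      omega
    have h2 := card_le_card h1
    rw [card_range] at h2
    calc ((E.image fun p => M0 * lv (m p) + m p % M0).card : ℝ)
        ≤ ((M0 * (⌊B⌋₊ + 1) : ℕ) : ℝ) := by exact_mod_cast h2
      _ ≤ _ := by
        push_cast
        gcongr
        exact Nat.floor_le hB
  · have h1 : (E.powersetCard s).image cl ⊆ range (⌊s * B⌋₊ + 1) ×ˢ range M0 := by
      intro x hx
      obtain ⟨d, hd, rfl⟩ := mem_image.1 hx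
      obtain ⟨h3, h4⟩ := mem_powersetCard.1 hd
      refine mem_product.2 ⟨mem_range.2 (Nat.lt_add_one_of_le (Nat.le_floor ?_)),
        mem_range.2 (Nat.mod_lt _ hM0)⟩
      simp only [cl, Nat.cast_sum]
      refine (sum_le_card_nsmul _ _ B fun i hi => (hl i (h3 hi)).2.2).trans_eq ?_
      rw [h4, nsmul_eq_mul]
    have h2 := card_le_card h1
    rw [card_product, card_range, card_range] at h2
    calc (((E.powersetCard s).image cl).card : ℝ)
        ≤ (((⌊s * B⌋₊ + 1) * M0 : ℕ) : ℝ) := by exact_mod_cast h2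
      _ ≤ _ := by
        push_cast
        rw [mul_comm]
        gcongr
        exact Nat.floor_le (by positivity)

end Pool.Agent.Work.MP_d018b2_nt.R
end

-- merged part: Pool.Agent.Work.MP_d018b2_nt.R.NFinal
section
/-! The correlation estimate with a single small prime on one side. -/

set_option autoImplicit false
open Finset Filter

namespace Pool.Agent.Work.MP_d018b2_nt.R

open Pool.Agent.Work.MP_678620_nt

lemma NF_fin {l N x C e y1 y2 : ℝ} {A : ℕ} (hl : 100 ≤ l) (hN : 0 ≤ N) (he0 : 0 ≤ e)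
    (hx : x ≤ N / l ^ (3 * A + 10)) (hC : C ≤ l ^ A * l ^ (3 * A + 10 + 2)) (he : e ≤ l)
    (h1 : y1 ≤ 1 / l ^ (3 * A + 10 + 1) * N) (h2 : y2 ≤ 1 / l ^ (3 * A + 10 + 1) * N) :
    x + 14 * N * (1 / l ^ (3 * A + 10 + 1)) * √(C * e)
      + (y1 + 3 * (1 / l ^ (3 * A + 10 + 1)) * N * e + y2) ≤ N / l ^ A := by
  have l0 : 0 < l := by linarith only [hl]
  have l1 : 1 ≤ l := by linarith only [hl]
  have a1 : √(C * e) ≤ l ^ (2 * A + 7) := by
    refine Real.sqrt_le_iff.2 ⟨by positivity, ?_⟩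
    calc C * e ≤ l ^ A * l ^ (3 * A + 10 + 2) * l := by gcongr
      _ = l ^ (4 * A + 13) := by ring
      _ ≤ l ^ (4 * A + 14) := pow_le_pow_right₀ l1 (by omega)
      _ = _ := by ring
  have a2 : 14 * N * (1 / l ^ (3 * A + 10 + 1)) * √(C * e) ≤ 14 * (N / l ^ (A + 1)) := by
    clear * - N l A C e a1 hN hl l1
    calc _ ≤ 14 * N * (1 / l ^ (3 * A + 10 + 1)) * l ^ (2 * A + 7) := by gcongr
      _ = 14 * (N / l ^ (A + 4)) := by field_simp; ring
      _ ≤ _ := by gcongr; omega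
  have a3 : N / l ^ (3 * A + 10) ≤ N / l ^ (A + 1) :=
    div_le_div_of_nonneg_left hN (by positivity) (pow_le_pow_right₀ l1 (by omega))
  have a4 : 1 / l ^ (3 * A + 10 + 1) * N ≤ N / l ^ (A + 1) := by
    rw [one_div_mul_eq_div]; gcongr; omega
  have a5 : 3 * (1 / l ^ (3 * A + 10 + 1)) * N * e ≤ 3 * (N / l ^ (3 * A + 10)) := by
    calc _ ≤ 3 * (1 / l ^ (3 * A + 10 + 1)) * N * l := by gcongr
      _ = _ := by field_simp; ring
  have a6 : 0 ≤ N / l ^ (A + 1) := by positivity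
  calc _ ≤ 20 * (N / l ^ (A + 1)) := by linarith only [hx, h1, h2, a2, a3, a4, a5]
    _ ≤ l * (N / l ^ (A + 1)) := by clear * - N l A hl hN; gcongr; linarith
    _ = _ := by field_simp; ring

theorem sparse_core1 (A : ℕ) {c0 : ℝ} (hc0 : 0 < c0) : ∃ k0 B : ℕ, ∀ᶠ X : ℕ in atTop,
    ∀ N : ℕ, X ≤ N ^ 2 → N ≤ X ^ 2 → ∀ E : Finset ℕ, Eok X c0 E → ∀ k k' : ℕ, 1 ≤ k → k0 ≤ k' →
    (k : ℝ) ≤ A * Real.log (Real.log X) → (k' : ℝ) ≤ A * Real.log (Real.log X) →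
    ∀ (h c : ℤ) (M0 : ℕ), h ≠ 0 → |(h : ℝ)| ≤ Real.log X ^ A → 1 ≤ M0 →
    (M0 : ℝ) ≤ Real.log X ^ A → ∀ f g : ℤ → ℂ,
    (∀ n : ℤ, 1 ≤ n → n ≤ (X : ℤ) ^ 3 → ‖f n‖ ≤ 1) → (∀ n : ℤ, 1 ≤ n → n ≤ (X : ℤ) ^ 3 → ‖g n‖ ≤ 1) →
    (∀ p ∈ E, ∀ n : ℤ, f (p * n) = f n) → (∀ p ∈ E, ∀ n : ℤ, g (p * n) = g n) →
    MRB N (fun n => if wE E n = k' then g n else 0) h (Real.exp (Real.log X ^ c0) / 2)
      (Real.exp (Real.log X ^ (1 / 4 : ℝ))) ⌊Real.log X ^ B⌋₊ ⌊Real.exp √(Real.log X)⌋₊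
      (1 / Real.log X ^ (4 * B)) →
    ‖∑ n ∈ Ioc (N : ℤ) (2 * N), (if wE E n = k ∧ n ≡ c [ZMOD M0] then f n else 0) *
        (if wE E (n + h) = k' then g (n + h) else 0)‖ ≤ N / Real.log X ^ A := by
  classical
  obtain ⟨A0, rfl⟩ : ∃ A0, A0 = A := ⟨_, rfl⟩
  obtain ⟨A, hA⟩ : ∃ A, A = 3 * A0 + 10 := ⟨_, rfl⟩
  obtain ⟨B, hB⟩ : ∃ B, B = 68 * A + 130 := ⟨_, rfl⟩
  obtain ⟨k0, hk0⟩ : ∃ k0, k0 = 10 * B + 1 := ⟨_, rfl⟩
  refine ⟨k0, B, ?_⟩
  filter_upwards [SPF_ev (10000 * (B + 1) + k0.factorial + Real.exp 72) hc0,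
    eventually_ge_atTop 20] with X ⟨t, ht, hl, hc⟩ hX N hN1 hN2 E hE k k' hk hk' hkA0 hkA0' h c
    M0 hh hhA0 hM0 hM0A0 f g hf1 hg1 hf hg hMR
  have X0 : (0 : ℝ) < X := by exact_mod_cast (by omega : 0 < X)
  obtain ⟨s, n, J, M, W, Q, t4, l4, s3, s1, s2, n1, n2, J1, J2, M1, M2, M3, ⟨w, hW⟩, W1, W3, eN,
    hQ, Q0, Q1, Q2, lN, n0, n3, N0, H1, H2, ks, Dge, hH, g1, L1, L2, L3, L4, L5, L6, u1, u2⟩ :=
    SPF_par (H0 := Real.exp (Real.log X ^ c0)) hB hk0 ht hl (Real.exp_log X0)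
      (Real.exp_le_exp.2 (le_trans (by
        clear * - X B k0 hN1 hN2 hc
        gcongr
        linarith only [Real.exp_pos 72, Nat.cast_nonneg (α := ℝ) k0.factorial]) hc)) hN1 hN2
  obtain t72 : Real.exp 72 ≤ t := by
    clear * - t B k0 ht
    linarith [Nat.cast_nonneg (α := ℝ) k0.factorial, Nat.cast_nonneg (α := ℝ) B]
  have t6 : t ^ 6 ≤ Real.log X := hl ▸ pow_le_pow_right₀ (by clear * - t t4 X hl; linarith) (by norm_num)
  clear ht hc
  have t0 : 0 < t := by clear * - t t4; linarith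
  obtain e4 : Real.log X ^ (1 / 4 : ℝ) = t ^ 5 := by
    rw [hl, ← Real.rpow_natCast, ← Real.rpow_mul t0.le, ← Real.rpow_natCast]; norm_num
  obtain e2 : √(Real.log X) = t ^ 10 := by
    rw [hl, show t ^ 20 = (t ^ 10) ^ 2 by ring, Real.sqrt_sq (by positivity)]
  have hEhi := hE.hi
  have hElo := hE.lo
  have hEp := hE.prime
  have hEb := hE.big
  rw [e4] at hMR hEhi
  rw [e2, ← hQ] at hMR
  clear hE e4 e2 hl hQ
  generalize Real.exp (Real.log X ^ c0) = H0 at *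
  generalize Real.log X = l at *
  generalize hJm : ⌊Real.exp (t ^ 10)⌋₊ = Jm at *
  have l1 : 1 ≤ l := by clear * - l l4; linarith
  have lA0 : 1 ≤ l ^ A := one_le_pow₀ l1
  have ll0 : 0 ≤ Real.log l := Real.log_nonneg l1
  have AA0 : 2 * (A0 : ℝ) ≤ A := by exact_mod_cast (by omega : 2 * A0 ≤ A)
  obtain hk2 : ((2 * k : ℕ) : ℝ) ≤ A * Real.log l := by
    push_cast
    nlinarith only [hkA0, AA0, ll0]
  have hkA : (k : ℝ) ≤ A * Real.log l := le_trans (by exact_mod_cast (by omega : k ≤ 2 * k)) hk2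
  obtain hkA' : (k' : ℝ) ≤ A * Real.log l := by
    nlinarith only [Nat.cast_nonneg (α := ℝ) A0, hkA0', AA0, ll0]
  have lAA : l ^ A0 ≤ l ^ A := pow_le_pow_right₀ l1 (by omega)
  have hhA := hhA0.trans lAA
  have hM0A := hM0A0.trans lAA
  have s4 : (1 : ℝ) ≤ s := by exact_mod_cast s3
  have t5 : 1 ≤ t ^ 5 := one_le_pow₀ (by clear * - t t4; linarith)
  obtain hEs : 2 * s ≤ E.card := by
    clear * - E H0 s H2 s4 hElo hEb
    have h1 : ∑ p ∈ E, (p : ℝ)⁻¹ ≤ E.card • H0⁻¹ :=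
      sum_le_card_nsmul _ _ _ fun p hp => inv_anti₀ (by linarith) (hElo p hp)
    have h2 := hEb.trans h1
    rw [nsmul_eq_mul, ← div_eq_mul_inv, le_div_iff₀ (by linarith only [H2, s4])] at h2
    exact_mod_cast (by linarith only [H2, h2] : (2 * s : ℝ) ≤ E.card)
  have hL := SPF_L (E := E) t5 fun p hp => ⟨hEp p hp, hEhi p hp⟩
  have hWc : ∀ p ∈ E, Nat.Coprime W p := fun p hp => by
    clear * - W p w hW hEp hp H0 hElo s H2 s4
    rw [hW]
    refine Nat.Coprime.pow_left _ ((Nat.coprime_primes Nat.prime_two (hEp p hp)).2 fun e => ?_)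
    have := hElo p hp
    rw [← e] at this; push_cast at this; linarith only [H2, s4, this]
  have Jm0 : 1 ≤ Jm := hJm ▸ Nat.le_floor (by simpa using by positivity)
  have JN : 1 ≤ Jm * N := Nat.mul_pos Jm0 (by omega)
  have hWE : W ∉ E := fun hp => by
    have := hWc W hp
    rw [Nat.coprime_self] at this
    omega
  let ι := {x : ℕ // x ∈ insert W E}
  let E' : Finset ι := E.subtype _
  have mE : ∀ {i : ι}, i ∈ E' ↔ i.1 ∈ E := mem_subtype
  obtain cE : E'.card = E.card := by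
    rw [card_subtype, filter_true_of_mem fun x hx => mem_insert_of_mem hx]
  have sE : ∑ p ∈ E', ((p.1 : ℕ) : ℝ)⁻¹ = ∑ p ∈ E, (p : ℝ)⁻¹ :=
    sum_subtype_of_mem (fun p : ℕ => (p : ℝ)⁻¹) fun x hx => mem_insert_of_mem hx
  have η0 : 0 < 1 / l ^ (A + 1) := by positivity
  have η1 : 1 / l ^ (A + 1) ≤ 1 := (div_le_one (by positivity)).2 (one_le_pow₀ l1)
  have η2 : 1 / l ^ (A + 1) ≤ 1 / 4 :=
    one_div_le_one_div_of_le (by norm_num) (le_trans (by clear * - l l4 l1; linarith) (le_self_pow₀ l1 (by omega)))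
  obtain ⟨cc, lab, T, hDD, hlab, hcl, hlc, hγ⟩ := exists_cl (fun i : ι => i.1) E'
    (H1 := Real.exp (t ^ 5)) (fun p hp => ⟨(hEp _ (mE.1 hp)).two_le, hEhi _ (mE.1 hp)⟩) s3
    (by omega) hM0 η0 η1
  rw [Real.log_exp] at hlc hγ
  obtain g2 : (M0 : ℝ) * (4 * (s : ℝ) ^ 2 * t ^ 5 / (1 / l ^ (A + 1)) + 1) ≤ l ^ (2 * A + 2) := by
    clear * - M0 s t l A hM0A g1 s3 t4 l4
    rw [show 2 * A + 2 = A + (A + 2) by ring, pow_add l A (A + 2)]
    gcongr
  obtain g3 : (M0 : ℝ) * (4 * (s : ℝ) * t ^ 5 / (1 / l ^ (A + 1)) + 1) ≤ l ^ (2 * A + 4) := by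
    clear * - M0 s t l A s4 t4 l4 hM0 g2 l1 A0 B k0 X N E k k' n M W Q w Jm
    refine le_trans ?_ (g2.trans (pow_le_pow_right₀ l1 (by omega)))
    gcongr
    exact le_self_pow₀ s4 (by norm_num)
  have M00 : (1 : ℝ) ≤ M0 := by exact_mod_cast hM0
  have g0 : 0 < (M0 : ℝ) * (4 * (s : ℝ) ^ 2 * t ^ 5 / (1 / l ^ (A + 1)) + 1) := by positivity
  obtain T1 : ∀ z ∈ (E'.powersetCard s).image cc, (T z : ℝ) ≤ Real.exp (s * t ^ 5) := by
    clear * - ι cc s E' T t W E l A M0 hDD hEhi mE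
    intro z hz
    obtain ⟨d1, hd1, rfl⟩ := mem_image.1 hz
    obtain ⟨a1, a2⟩ := mem_powersetCard.1 hd1
    calc (T (cc d1) : ℝ) ≤ ∏ i ∈ d1, ((i.1 : ℕ) : ℝ) := by exact_mod_cast (hDD d1 hd1).1
      _ ≤ ∏ _i ∈ d1, Real.exp (t ^ 5) :=
          prod_le_prod (fun _ _ => by positivity) fun i hi => hEhi _ (mE.1 (a1 hi))
      _ = _ := by rw [prod_const, a2, ← Real.exp_nat_mul]
  obtain T0 : ∀ z ∈ (E'.powersetCard s).image cc, 1 ≤ T z := by
    clear * - ι cc s E' T W E l A M0 hDD hEp mE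
    intro z hz
    obtain ⟨d1, hd1, rfl⟩ := mem_image.1 hz
    obtain ⟨a1, -⟩ := mem_powersetCard.1 hd1
    have a4 := (hDD d1 hd1).2.1
    have : 0 < ∏ i ∈ d1, i.1 := prod_pos fun i hi => (hEp _ (mE.1 (a1 hi))).pos
    rcases Nat.eq_zero_or_pos (T (cc d1)) with h0 | h0
    · have : (0 : ℝ) < ((∏ i ∈ d1, i.1 : ℕ) : ℝ) := by exact_mod_cast this
      simp only [h0, Nat.cast_zero, mul_zero] at a4
      linarith only [this, a4]
    · exact h0
  have TJ : ∀ z ∈ (E'.powersetCard s).image cc, T z ≤ Jm := fun z hz =>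
    hJm ▸ Nat.le_floor ((T1 z hz).trans (Real.exp_le_exp.2 u1))
  have hi3 : ∀ z, ∀ d ∈ (E'.powersetCard s).filter (fun d => cc d = z),
      2 * ∏ i ∈ d, i.1 ≤ 3 * T z := fun z d hd => by
    clear * - ι s E' d cc z W E T hd l A M0 hDD η0 η2
    obtain ⟨b1, rfl⟩ := mem_filter.1 hd
    have a1 := (hDD d b1).2.1
    have a2 : (1 + 1 / l ^ (A + 1)) * T (cc d) ≤ 3 / 2 * T (cc d) := by clear * - T cc d l A η0 η2; gcongr; linarith only [η0, η2]
    exact_mod_cast (by linarith only [a1, a2] : 2 * ((∏ i ∈ d, i.1 : ℕ) : ℝ) ≤ 3 * T (cc d))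
  let mk : ∀ z ∈ (E'.powersetCard s).image cc, Sys ι := fun z hz =>
    { m := fun i => i.1
      E := E'
      DD := (E'.powersetCard s).filter fun d => cc d = z
      lab := lab
      s := s
      k := k
      k' := k'
      T := T z
      Q := Q
      h := h
      H0 := H0
      H1 := Real.exp (t ^ 5)
      Λ := l ^ (2 * A + 4)
      m_pos := fun i => by
        rcases mem_insert.1 i.2 with e | e
        · rw [e]; omega
        · exact (hEp _ e).pos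
      cop := fun i j hij => by
        have hne' : i.1 ≠ j.1 := fun e => hij (Subtype.ext e)
        rcases mem_insert.1 i.2 with e | e <;> rcases mem_insert.1 j.2 with e' | e'
        · exact absurd (e.trans e'.symm) hne'
        · rw [e]; exact hWc _ e'
        · rw [e']; exact (hWc _ e).symm
        · exact (Nat.coprime_primes (hEp _ e) (hEp _ e')).2 hne'
      prime := fun p hp => hEp _ (mE.1 hp)
      lo := fun p hp => hElo _ (mE.1 hp)
      hi := fun p hp => hEhi _ (mE.1 hp)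
      DD_sub := fun d hd => (mem_powersetCard.1 (mem_filter.1 hd).1).1
      DD_card := fun d hd => (mem_powersetCard.1 (mem_filter.1 hd).1).2
      DD_lo := fun d hd => (mem_filter.1 hd).2 ▸ (hDD d (mem_filter.1 hd).1).1
      DD_hi := fun d hd => by have := hi3 z d hd; omega
      DD_hi' := hi3 z
      lab_DD := fun e p _ p' hp' hpe hpe' hl hd => by
        obtain ⟨b1, b2⟩ := mem_filter.1 hd
        obtain ⟨b3, b4⟩ := mem_powersetCard.1 b1
        refine mem_filter.2 ⟨mem_powersetCard.2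
          ⟨insert_subset hp' ((subset_insert _ _).trans b3), ?_⟩,
          (hlab e p p' hpe hpe' hl).symm.trans b2⟩
        rw [← b4, card_insert_of_notMem hpe, card_insert_of_notMem hpe']
      lab_close := hcl
      h_ne := hh
      T_pos := T0 z hz
      Q_ge := Q0
      k_ge := hk
      s_ge := by exact_mod_cast (by nlinarith only [s1, t4] : (2 : ℝ) ≤ s)
      k2_le := ks _ hk2
      k_le := ks k hkA
      k'_ge := by omega
      k'_le := ks k' hkA'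
      big := L3
      eL := by rw [sE]; exact (Real.exp_le_exp.2 hL).trans L2
      s_le := L4
      lab_le := hlc.trans g3
      logT := by
        clear * - T z T0 hz s t l A η0 η2 T1 L5
        have a0 : (1 : ℝ) ≤ T z := by exact_mod_cast T0 z hz
        have a1 : Real.log (T z) ≤ s * t ^ 5 :=
          (Real.log_le_iff_le_exp (by linarith only [η0, η2, a0])).2 (T1 z hz)
        obtain a2 : Real.log 4 ≤ 3 := by
          linarith [Real.log_le_sub_one_of_pos (x := 4) (by norm_num)]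
        rw [Real.log_mul (by norm_num) (by linarith only [η0, η2, a0])]
        linarith only [L5, a1, a2]
      logH := by rw [Real.log_exp]; exact L6
      h_le := hhA.trans (pow_le_pow_right₀ l1 (by omega))
      H0_ge := hH k k' hkA hkA'
      H01 := by
        obtain ⟨p, hp⟩ : E.Nonempty := card_pos.1 (by omega)
        exact (hElo p hp).trans (hEhi p hp) }
  obtain ⟨z0, hz0⟩ : ((E'.powersetCard s).image cc).Nonempty :=
    (powersetCard_nonempty.2 (by omega)).image _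
  let S : Sys ι := mk z0 hz0
  let i0 : ι := ⟨W, mem_insert_self _ _⟩
  have hi0 : i0 ∉ S.E := fun h => hWE (mE.1 h)
  have hSL : S.L = ∑ p ∈ E, (p : ℝ)⁻¹ := sE
  have hZ : ∀ y : ℤ, (S.Zi y).card = wE E y := fun y => by
    refine card_bij (fun i _ => i.1) (fun i hi => ?_) (fun i _ j _ e => Subtype.ext e)
      fun p hp => ?_
    · obtain ⟨a1, a2⟩ := mem_filter.1 hi
      exact mem_filter.2 ⟨mE.1 a1, (ZMod.intCast_zmod_eq_zero_iff_dvd y i.1).1 a2⟩
    · obtain ⟨a1, a2⟩ := mem_filter.1 hp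
      exact ⟨⟨p, mem_insert_of_mem a1⟩, mem_filter.2
        ⟨mE.2 a1, (ZMod.intCast_zmod_eq_zero_iff_dvd y p).2 a2⟩, rfl⟩
  have hh' : (h.natAbs : ℝ) ≤ l ^ A := by rwa [Nat.cast_natAbs, Int.cast_abs]
  obtain hN40 : 40 * (n * h.natAbs) ≤ N := by
    clear * - n h l A hh' n0 N n3
    have a1 : (40 * (n * h.natAbs) : ℝ) ≤ 40 * (n * l ^ A) := by gcongr
    exact_mod_cast a1.trans n3
  have hN10 : 10 * h.natAbs ≤ n * h.natAbs := Nat.mul_le_mul_right _ n0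
  obtain q5 : Real.exp (-(2 * (s * t ^ 5))) ≤ S.es (S.s + S.k') := by
    clear * - s t k' ι W E S ks hkA' t4 E' hEp mE hEhi A0 A B k0 X N k h M0 n M Q w Jm hEs cE
    refine le_trans ?_ (SPF_esym (I := E') (ν := S.nu) (b := (Real.exp (t ^ 5))⁻¹) (by positivity)
      (fun i hi => inv_anti₀ (by exact_mod_cast (hEp _ (mE.1 hi)).pos) (hEhi _ (mE.1 hi)))
      (j := s + k') (by have := ks k' hkA'; omega))
    rw [← Real.exp_neg, ← Real.exp_nat_mul]
    refine Real.exp_le_exp.2 ?_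
    have a1 : (k' : ℝ) ≤ s := by exact_mod_cast ks k' hkA'
    have a2 : (k' : ℝ) * t ^ 5 ≤ s * t ^ 5 := by gcongr
    push_cast
    clear * - s t k' a2
    linarith
  let cl : (ℤ → ℂ) → ℤ → ℂ := fun φ y => if ‖φ y‖ ≤ 1 then φ y else 0
  have cl1 : ∀ φ y, ‖cl φ y‖ ≤ 1 := fun φ y => by
    simp only [cl]; split_ifs with a
    · exact a
    · simp
  have cl2 : ∀ φ : ℤ → ℂ, (∀ p ∈ E, ∀ n : ℤ, φ (p * n) = φ n) → ∀ d ⊆ S.E, ∀ y : ℤ,
      cl φ (S.pr d * y) = cl φ y := fun φ hφ d hd y => by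
    simp only [cl, Sys.pr]
    rw [SPF_inv hφ S.m d fun i hi => mE.1 (hd hi)]
  obtain NX : 20 * (N : ℤ) ≤ (X : ℤ) ^ 3 := by
    have : 20 * N ≤ X ^ 3 := by rw [pow_succ']; exact Nat.mul_le_mul hX hN2
    exact_mod_cast this
  have hh2 : 100 * |h| + 100 ≤ (N : ℤ) := by rw [← Int.natCast_natAbs]; omega
  have e : S.h = h := rfl
  have N0' : (0 : ℝ) ≤ N := Nat.cast_nonneg _
  have hΛH : (l ^ (2 * A + 4)) ^ 20 ≤ H0 := S.Λ_pow_le
  obtain y1 : 3 * (l ^ (2 * A + 4)) ^ 2 * N / H0 ≤ 1 / l ^ (A + 1) * N := by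
    clear * - l A N H0 l4 N0 η0 η2 hΛH l1 A0 hA B hB k0 hk0 X t E k k' hk hk' h M0 hh s n M W Q t4
      s3 s1 w hW Q0 hEhi hEp hElo ks L2 L3 L4 L5 L6 hH Jm W1 hk2 hkA hkA' hhA hEs hL hWc JN mE cE
      sE cc lab T hDD hlab hcl hlc g3 T1 T0 hi3 z0 hz0 N0'
    calc _ ≤ l * (l ^ (2 * A + 4)) ^ 2 * N / (l ^ (2 * A + 4)) ^ 20 := by clear * - l A N H0 l4 N0 η0 η2 hΛH N0' l1; gcongr; linarith only [l4, η0, η2]
      _ = 1 / l ^ (36 * A + 71) * N := by field_simp; ring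
      _ ≤ _ := mul_le_mul_of_nonneg_right
        (one_div_le_one_div_of_le (by positivity) (pow_le_pow_right₀ l1 (by omega))) N0'
  obtain y2 : 3 * Real.exp (t ^ 5) ^ k ≤ 1 / l ^ (A + 1) * N := by
    clear * - t k s ks hkA t4 u1 l A lA0 η0 η2 u2 l1 A0 hA B hB k0 hk0 X N E k' hk hk' h M0 hh n M
      W Q s3 s1 w hW Q0 hEhi hEp H0 hElo L2 L3 L4 L5 L6 hH Jm W1 hk2 hkA' hhA hEs hL hWc JN mE cE
      sE cc lab T hDD hlab hcl hlc g3 T1 T0 hi3 z0 hz0 l4 eN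
    obtain a1 : Real.exp (t ^ 5) ^ k ≤ Real.exp (t ^ 10) := by
      clear * - t k s ks hkA t4 u1
      rw [← Real.exp_nat_mul]
      refine Real.exp_le_exp.2 (le_trans ?_ u1)
      gcongr
      exact ks k hkA
    have a2 : l ^ A ≤ Real.exp (t ^ 10 / 2) :=
      le_trans (by clear * - l A lA0 η0 η2 u2; linarith only [lA0, η0, η2]) (u2.trans (Real.exp_le_exp.2 (by clear * - s t u1 u2; linarith)))
    obtain a3 : l ^ (A + 1) ≤ Real.exp (t ^ 10) := by
      clear * - l A t a2 l1 A0 hA B k0 N E k k' s W Q w Jm l4 η0 η2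
      rw [pow_succ, ← add_halves (t ^ 10), Real.exp_add]
      exact mul_le_mul a2 ((le_self_pow₀ l1 (by omega)).trans a2) (by linarith only [l4, η0, η2]) (by positivity)
    have a4 : 100 ≤ t ^ 10 := le_trans (by clear * - t l A t4 η0 η2; linarith) (le_self_pow₀ (by clear * - t l A t4 η0 η2; linarith) (by norm_num))
    have a5 : (3 : ℝ) ≤ Real.exp (t ^ 10) := by clear * - t l A η0 η2 a4; linarith only [η0, η2, a4, Real.add_one_le_exp (t ^ 10)]
    rw [one_div_mul_eq_div, le_div_iff₀ (by positivity)]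
    refine le_trans ?_ eN
    calc _ ≤ Real.exp (t ^ 10) * Real.exp (t ^ 10) * Real.exp (t ^ 10) := by clear * - t k l A a5 a1 a3 l4 a4; gcongr
      _ ≤ _ := by
        rw [← Real.exp_add, ← Real.exp_add]
        refine Real.exp_le_exp.2 ?_
        rw [show t ^ 20 = t ^ 10 * t ^ 10 by ring]
        nlinarith only [a4]
  obtain y3 : 8 * l ^ (2 * A + 4) ≤ 1 / l ^ (A + 1) * N := by
    clear * - l A N l4 B η0 η2 l1 A0 hA hB k0 hk0 X t E k k' hk hk' h M0 hh s n M W Q t4 s3 s1 w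
      hW Q0 hEhi hEp H0 hElo ks L2 L3 L4 L5 L6 hH Jm W1 hk2 hkA hkA' hhA hEs hL hWc JN mE cE sE cc
      lab T hDD hlab hcl hlc g3 T1 T0 hi3 z0 hz0 lN
    rw [one_div_mul_eq_div, le_div_iff₀ (by positivity)]
    refine le_trans ?_ lN
    calc _ ≤ l * l ^ (2 * A + 4) * l ^ (A + 1) := by clear * - l A l4 η0 η2 l1; gcongr; linarith only [l4, η0, η2]
      _ = l ^ (3 * A + 6) := by ring
      _ ≤ _ := pow_le_pow_right₀ l1 (by omega)
  obtain y4 : 2 ≤ 1 / l ^ (A + 1) * H0 := by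
    clear * - l A H0 l4 η0 η2 l1 A0 hA B hB k0 hk0 X t N E k k' hk hk' h M0 hh s n M W Q t4 s3 s1
      w hW Q0 hEhi hEp hElo ks L2 L3 L4 L5 L6 hH Jm W1 hk2 hkA hkA' hhA hEs hL hWc JN mE cE sE cc
      lab T hDD hlab hcl hlc g3 T1 T0 hi3 z0 hz0 hΛH
    rw [one_div_mul_eq_div, le_div_iff₀ (by positivity)]
    refine le_trans ?_ hΛH
    calc _ ≤ l * l ^ (A + 1) := by clear * - l A l4 η0 η2 l1; gcongr; linarith only [l4, η0, η2]
      _ = l ^ (A + 2) := by ring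
      _ ≤ l ^ ((2 * A + 4) * 20) := pow_le_pow_right₀ l1 (by omega)
      _ = _ := by rw [pow_mul]
  obtain key : ∀ z ∈ (E'.powersetCard s).image cc, ∑ a ∈ S.AA S.k, S.iv a *
      S.PP (T z) N ((S.E.powersetCard S.s).filter fun d => cc d = z) (S.g1 (cl g)) a ^ 2
      ≤ (N : ℝ) ^ 2 * (S.es (S.s - S.k) * (4 * S.Xi (1 / l ^ (4 * B)) N)
        + 192 * (1 / l ^ (A + 1)) ^ 2 * ∑ a ∈ S.AA S.k, S.iv a *
          ∑ v ∈ S.VF ((S.E.powersetCard S.s).filter fun d => cc d = z) a, S.iv v) := by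
    intro z hz
    have hW' : 10 * ((mk z hz).T * N) < (mk z hz).m i0 :=
      lt_of_le_of_lt (Nat.mul_le_mul_left _ (Nat.mul_le_mul_right _ (TJ z hz))) W1
    obtain hR : ((mk z hz).R : ℝ) ≤ Real.exp (3 * (s * t ^ 5) / 2) := by
      clear * - T z s t T1 hz ι W E mk h l A u2 hh' hh
      have := T1 z hz
      calc ((mk z hz).R : ℝ) = T z * (2 * h.natAbs) := by simp only [Sys.R, mk]; push_cast; ring
        _ ≤ Real.exp (s * t ^ 5) * Real.exp (s * t ^ 5 / 2) := by clear * - T z s t h this l A u2 hh' hh; gcongr; linarith only [u2, hh']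
        _ = _ := by rw [← Real.exp_add]; congr 1; ring
    obtain ⟨q1, q2, q3, q4⟩ := SPF_num (L := S.L) t4 s1 s2 n1 n2 J1 J2 M1 hR
      (by clear * - ι W E S hSL hEb L1 W3 eN hL; rw [hSL]; positivity) (hSL ▸ hL.trans L1) W3 eN
    exact (mk z hz).main1 (N := N) (i0 := i0) (by change 10 * h.natAbs ≤ N; omega) hW' η0.le η2
      (fun d hd => (mem_filter.1 hd).2 ▸ (hDD d (mem_filter.1 hd).1).2.1)
      (by clear * - ι W E mk z hz l A N t k y2 y3 y4; change 8 * l ^ (2 * A + 4) + 3 * Real.exp (t ^ 5) ^ k ≤ _; linarith only [y2, y3]) y4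
      (by positivity) (cl1 g) (fun d hd => cl2 g hg d ((mk z hz).DD_sub d hd)) (TJ z hz)
      (MRB_congr (by change 1 ≤ H0 / 2; linarith only [H2, s4, η0, η2]) hh2 (fun y y1 y2 => by
        change (if (S.Zi y).card = k' then cl g y else 0) = _
        simp only [hZ, cl, if_pos (hg1 y y1 (y2.trans NX))]) hMR)
      ((mk z hz).ip_GX_le hi0 (by omega) hN40 hW' M2 M3 q1 q2 q3 (q4.trans q5) (cl1 g))
  have fin := S.comb2 T (fun d hd => mem_image_of_mem cc hd) (by change s ≤ E'.card; omega)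
    (by clear * - ι W E S l B N l4 A Q0 N0 cl g g1 η0; unfold Sys.Xi; have := S.bad_Λ; positivity) η0.le (S.g1 (cl g)) N
    (fun a ha => S.comb T (fun d hd => mem_image_of_mem cc hd) η0.le
      (fun d hd => ⟨T0 _ (mem_image_of_mem cc hd), (hDD d hd).1, (hDD d hd).2.1⟩)
      (F := fun y => if y ≡ c [ZMOD M0] then cl f y else 0)
      (fun y => by split_ifs; exacts [cl1 f y, by simp]) (S.norm_g1_le (cl1 g)) ha
      (φ := fun z y => if z.2 * y ≡ S.pr a * c [ZMOD M0] then cl f y else 0)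
      (fun z y => by split_ifs; exacts [cl1 f y, by simp]) (fun v hv y => by
        clear * - ι a W E S M0 v y c cl f cc ha hv l A T hDD s E' mE A0 hA B hB k0 hk0 X t N k k'
          hk hk' h hh hM0 n M Q t4 s3 s1 w hW Q0 hEhi hEp H0 hElo ks L2 L3 L4 L5 L6 hH Jm W1 l1
          hk2 hkA hkA' hhA hEs hL hWc JN cE sE η0 η2 lab hlab hcl hlc g3 T1 T0 hi3 z0 hz0 hM0A H1
          cl2 hf key
        obtain ⟨a0, a5⟩ := S.mem_AA.1 ha
        obtain ⟨b0, b1⟩ := mem_powersetCard.1 hv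
        obtain ⟨b2, b3⟩ := subset_sdiff.1 b0
        have a1 : (S.pr (a ∪ v) : ℤ) ≡ (cc (a ∪ v)).2 [ZMOD M0] :=
          Int.natCast_modEq_iff.2 (hDD (a ∪ v) (mem_powersetCard.2 ⟨union_subset a0 b2, by
            rw [card_union_of_disjoint b3.symm, a5, b1, Nat.sub_add_cancel S.k_le]⟩)).2.2
        rw [S.pr_union b3.symm, Nat.cast_mul] at a1
        have a2 : Nat.Coprime M0 (S.pr a) := Nat.Coprime.prod_right fun i hi => by
          have b1 := mE.1 (a0 hi)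
          refine (Nat.coprime_of_lt_prime (by omega) ?_ (hEp _ b1)).symm
          exact_mod_cast (hM0A.trans_lt H1).trans_le (hElo _ b1)
        have a3 : S.pr v * y ≡ c [ZMOD M0] ↔ (cc (a ∪ v)).2 * y ≡ S.pr a * c [ZMOD M0] :=
          ⟨fun b => (a1.symm.mul_right y).trans (mul_assoc (S.pr a : ℤ) _ _ ▸ b.mul_left _),
            fun b => by
              have b1 := ((a1.mul_right y).trans b).dvd
              rw [mul_assoc, ← mul_sub] at b1
              exact Int.modEq_iff_dvd.2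
                ((Nat.isCoprime_iff_coprime.2 a2).dvd_of_dvd_mul_left b1)⟩
        simp only [a3, cl2 f hf v b2 y]) N) key
  have z1 := SPF_fin (by clear * - l A l4 η0 η2 Dge Q1 Q2 g0 g2 hB hk' k' lN; linarith only [l4, η0, η2]) hB (Dge k' hk') (Dge k' hk') Q2 Q1 (inv_pos.2 g0)
    (by rw [one_div, inv_inv]; exact g2) lN
  obtain z2 : 2 * N * (((E'.powersetCard s).image cc).card : ℝ) * √(S.Xi (1 / l ^ (4 * B)) N)
      ≤ N / l ^ A := by
    clear * - N ι cc s E' W E S l B M0 t A k' Q hγ N0 l4 z1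
    refine le_trans ?_ z1
    rw [div_inv_eq_mul, add_assoc]
    exact le_add_of_le_of_nonneg (mul_le_mul_of_nonneg_right
      (mul_le_mul_of_nonneg_left hγ (by positivity)) (Real.sqrt_nonneg _)) (by positivity)
  obtain z3 : S.es S.k ≤ l := by
    clear * - ι W E S t l hSL hL t4 t72 t6
    refine ((esym_le_exp (fun i _ => (S.nu_pos i).le) _).trans
      (Real.exp_le_exp.2 (hSL.le.trans hL))).trans (le_trans ?_ t6)
    rw [Real.exp_add, Real.exp_log (by positivity), pow_succ' t 5]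
    gcongr
  have z4 : (((E'.powersetCard s).image cc).card : ℝ) ≤ l ^ A0 * l ^ (A + 2) :=
    hγ.trans (mul_le_mul hM0A0 g1 (by positivity) (by positivity))
  subst hA
  refine le_trans (le_of_eq ?_) (fin.trans
    (NF_fin (by clear * - l A0 l4 η0 η2 N0' S y1 y2 z2 z3 z4; linarith only [l4, η0, η2]) N0' (S.es_nonneg _) z2 z4 z3 y1 y2))
  congr 1
  refine sum_congr rfl fun y hy => ?_
  obtain ⟨y1, y2⟩ := mem_Ioc.1 hy
  simp only [Sys.g1, hZ, e, cl, if_pos (hf1 y (by omega) (by omega)),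
    if_pos (hg1 (y + h) (by clear * - y h A0 B k0 hk0 X t N E k k' hk hk' M0 hh s n M W Q t4 s3 s1 w hW Q0 hEhi hEp H0 hElo l Jm W1 l1 hEs hL hWc JN mE cE sE cc lab T hlab hcl T1 T0 hi3 z0 hz0 hN40 hN10 hB ks L2 L3 L4 L5 L6 hH hk2 hkA hkA' hhA η0 η2 hDD hlc g3 y1 y2 hg1; omega) (by clear * - y h X A0 B k0 hk0 t N E k k' hk hk' M0 hh s n M W Q t4 s3 s1 w hW Q0 hEhi hEp H0 hElo l Jm W1 l1 hEs hL hWc JN mE cE sE cc lab T hlab hcl T1 T0 hi3 z0 hz0 hN40 hN10 NX hB ks L2 L3 L4 L5 L6 hH hk2 hkA hkA' hhA η0 η2 hDD hlc g3 y1 y2 hg1; omega)), ite_and]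
  rfl

end Pool.Agent.Work.MP_d018b2_nt.R
end
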