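import Pool.Agent.Work.MP_d018b2_nt.R.PCore
import Pool.Agent.Work.MP_678620_nt.TBFin

/-! Pairs of linear forms: the two final statements, with any number of small primes in one form. -/

set_option autoImplicit false
open Finset Filter Topology

namespace Pool.Agent.Work.MP_d018b2_nt.R

open Pool.Agent.Work.MP_678620_nt

theorem PB_one (A : ℕ) {c : ℝ} (hc : 0 < c) : ∃ k0 : ℕ, ∀ k1 k2 : ℕ, 1 ≤ k1 → k0 ≤ k2 →
    ∀ ε : ℝ, 0 < ε → ∀ᶠ N : ℕ in atTop, ∀ (a1 a2 : ℕ) (b1 b2 : ℤ),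
    Lin (Real.log N ^ A) a1 a2 b1 b2 → ∀ E : Finset ℕ, Eok N c E →
    |(((Ioc (0 : ℤ) N).filter fun n =>
          PE E k1 (a1 * n + b1) ∧ PE E k2 (a2 * n + b2)).card : ℝ) * Real.log N ^ 2 /
          (N * (ek E k1 * ek E k2)) - ∏' p : Nat.Primes, locF a1 a2 b1 b2 p|
      ≤ ε * (∏' p : Nat.Primes, locF a1 a2 b1 b2 p + 1) := by
  obtain ⟨k0, H⟩ := PB_core A hc
  refine ⟨k0, fun k1 k2 hk1 hk2 ε hε => ?_⟩
  obtain ⟨δ, δ0, δ1, δ2⟩ : ∃ δ : ℝ, 0 < δ ∧ δ ≤ 1 / 2 ∧ 8 * δ ≤ ε :=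
    ⟨min (ε / 8) (1 / 2), by positivity, min_le_right _ _, by linarith only [min_le_left (ε / 8) (1 / 2)]⟩
  obtain ⟨κ, κ0, hκ⟩ := TB_ev_ek k1 k2 hc
  filter_upwards [H k1 k2 hk1 hk2 δ δ0, TB_ev_sing A δ0 (by linarith only [δ0, δ1]), hκ,
    TB_tend.eventually_ge_atTop 1, TB_tend.eventually_ge_atTop (4 / δ),
    TB_tend.eventually_ge_atTop (4 / (δ * κ)), TB_ev_lin (1 / δ) 3, TB_ev_lin (1 / (δ * κ)) 5]
    with N H hS hκ l1 g1 g2 g3 g4 a1 a2 b1 b2 hL E hE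
  obtain ⟨c1, c2⟩ := hS a1 a2 b1 b2 hL
  have he := hκ E hE
  have S0 : 0 ≤ ∏ p ∈ PZ (zz N), locF a1 a2 b1 b2 p := prod_nonneg fun p _ => locF_nonneg _ _ _ _ p
  have H' := fun M h1 h2 => H M h1 h2 E hE a1 a2 b1 b2 hL
  clear H hS hκ hE hL
  generalize ∏ p ∈ PZ (zz N), locF a1 a2 b1 b2 p = S at *
  generalize ∏' p : Nat.Primes, locF a1 a2 b1 b2 p = C at *
  generalize ek E k1 * ek E k2 = e at *
  generalize Real.log N = l at *
  have l0 : 0 < l := by linarith only [δ0, δ1, l1]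
  have e0 : 0 < e := κ0.trans_le he
  rw [one_div_mul_eq_div, div_le_iff₀ δ0] at g3
  rw [one_div_mul_eq_div, div_le_iff₀ (mul_pos δ0 κ0)] at g4
  have N0 : (0 : ℝ) ≤ N := Nat.cast_nonneg N
  have hN : l ^ 3 ≤ N := g3.trans (mul_le_of_le_one_right N0 (by linarith only [δ0, δ1]))
  have C0 : 0 ≤ C := le_trans (mul_nonneg S0 (by linarith only [δ0, δ1])) c1
  refine (TB_fin1 l1 δ0 δ1 κ0 he S0 c1 c2 hN g1 g2 (TB_dyadic _ N (by positivity) (by positivity)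
    (div_pos ((pow_pos l0 3).trans_le hN) (pow_pos l0 3)) ?_ (fun M h1 h2 => ?_) N le_rfl)).trans
    (mul_le_mul_of_nonneg_right δ2 (by linarith only [δ0, δ1, C0]))
  · rw [div_mul_div_comm, ← pow_add, le_div_iff₀ (by positivity),
      show (1 + e * S / l ^ 2) * l ^ (2 + 3) = l ^ 5 + e * S * l ^ 3 by field_simp]
    have u1 := mul_le_mul_of_nonneg_left g3 (mul_nonneg e0.le S0)
    have u2 := mul_le_mul_of_nonneg_left he (mul_nonneg N0 δ0.le)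
    linarith only [g4, u1, u2]
  · have u := mul_le_mul_of_nonneg_right (H' M ((div_le_iff₀ (pow_pos l0 3)).mp h1) h2)
      (show 0 ≤ (l ^ 2)⁻¹ by positivity)
    rw [← abs_of_nonneg (show 0 ≤ (l ^ 2)⁻¹ by positivity), ← abs_mul,
      abs_of_nonneg (show 0 ≤ (l ^ 2)⁻¹ by positivity), sub_mul,
      mul_inv_cancel_right₀ (pow_pos l0 2).ne'] at u
    rw [show e * S / l ^ 2 * M = M * e * S * (l ^ 2)⁻¹ by ring]
    exact u.trans_eq (by ring)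

theorem PB_two (A : ℕ) {c : ℝ} (hc : 0 < c) : ∃ k0 : ℕ, ∀ k1 k2 : ℕ, 1 ≤ k1 → k0 ≤ k2 →
    ∀ ε : ℝ, 0 < ε → ∃ X : ℝ, ∀ x : ℝ, X ≤ x → ∀ r1 r2 : ℕ, r1 ≠ r2 → 1 ≤ r1 → 1 ≤ r2 →
    (r1 : ℝ) ≤ Real.log x ^ A → (r2 : ℝ) ≤ Real.log x ^ A → ∀ E : Finset ℕ,
    (∀ p ∈ E, p.Prime ∧ Real.exp (Real.log x ^ c) ≤ p ∧
      (p : ℝ) ≤ Real.exp (Real.log x ^ (1 / 4 : ℝ))) → 1 / 2 ≤ ∑ p ∈ E, (p : ℝ)⁻¹ →
    |(((range ⌈2 * x⌉₊).filter fun q : ℕ => x ≤ (q : ℝ) ∧ (q : ℝ) < 2 * x ∧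
          PE E k1 (r1 * q + 1) ∧ PE E k2 (r2 * q + 1)).card : ℝ)
        - x / Real.log x ^ 2 * (ek E k1 * ek E k2) * ∏' p : Nat.Primes, locF r1 r2 1 1 p|
      ≤ ε * (x / Real.log x ^ 2 * (ek E k1 * ek E k2) * ∏' p : Nat.Primes, locF r1 r2 1 1 p) := by
  obtain ⟨k0, H⟩ := PB_core A (half_pos hc)
  refine ⟨k0, fun k1 k2 hk1 hk2 ε hε => ?_⟩
  obtain ⟨δ, δ0, δ1, δ2⟩ : ∃ δ : ℝ, 0 < δ ∧ δ ≤ 1 / 10 ∧ 10 * δ ≤ ε := ⟨min (ε / 10) (1 / 10),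
    by positivity, min_le_right _ _, by linarith only [min_le_left (ε / 10) (1 / 10)]⟩
  obtain ⟨κ, κ0, hκ⟩ := TB_ev_ek k1 k2 (half_pos hc)
  obtain ⟨c0, c00, c01, hc0⟩ : ∃ c0 : ℝ, 0 < c0 ∧ c0 ≤ 1 ∧ c0 ≤ (1 / 8) ^ 9 / 2 :=
    ⟨_, by norm_num, by norm_num, le_rfl⟩
  obtain ⟨N0, hN0⟩ := eventually_atTop.mp ((H k1 k2 hk1 hk2 (δ * c0 / 2) (by positivity)).and
    ((TB_ev_sing A δ0 (by linarith only [δ1, c00, hc0])).and (hκ.and (TB_ev_lin (3 / (δ * κ * c0)) 2))))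
  refine ⟨N0 + Real.exp 2 + 1 / δ, fun x hx r1 r2 hr p1 p2 q1 q2 E hE big => ?_⟩
  have iδ : 0 < 1 / δ := one_div_pos.mpr δ0
  have n0 : (0 : ℝ) ≤ N0 := Nat.cast_nonneg _
  have ex := Real.exp_pos 2
  have x0 : 0 < x := by linarith only [hx, iδ, ex]
  have L2 : 2 ≤ Real.log x := (Real.le_log_iff_exp_le x0).mpr (by linarith only [hx, iδ])
  obtain ⟨N, hN⟩ : ∃ N, N = ⌈x⌉₊ := ⟨_, rfl⟩
  have xN : x ≤ N := hN ▸ Nat.le_ceil x
  have xN' : (N : ℝ) < x + 1 := hN ▸ Nat.ceil_lt_add_one x0.le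
  have Nx : (N : ℝ) ≤ (1 + δ) * x := by
    have a2 : 1 ≤ x * δ := (div_le_iff₀ δ0).mp (by linarith only [hx, ex])
    linarith only [xN', a2]
  obtain ⟨H, hS, hκ, g⟩ := hN0 N (by exact_mod_cast (show (N0 : ℝ) ≤ N by linarith only [hx, iδ, ex, xN]))
  have lL : Real.log x ≤ Real.log N := Real.log_le_log x0 xN
  have Ll : Real.log N ≤ (1 + δ) * Real.log x := by
    refine (Real.log_le_log (by linarith only [hx, iδ, ex, xN]) Nx).trans ?_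
    rw [Real.log_mul (by positivity) x0.ne']
    linarith only [δ0, c00, hc0, L2, Real.log_le_sub_one_of_pos (show 0 < 1 + δ by linarith only [δ0, c00, hc0]),
      le_mul_of_one_le_right δ0.le (show 1 ≤ Real.log x by linarith only [c00, hc0, L2])]
  have pw := pow_le_pow_left₀ (by linarith only [c00, hc0, L2]) lL A
  have B1 : |((1 : ℤ) : ℝ)| ≤ Real.log N ^ A := by
    rw [Int.cast_one, abs_one]; exact one_le_pow₀ (by linarith only [c00, hc0, L2, lL])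
  have hL : Lin (Real.log N ^ A) r1 r2 1 1 := ⟨p1, p2, q1.trans pw, q2.trans pw, B1, B1,
    isCoprime_one_right, isCoprime_one_right, by simpa using hr⟩
  have hE' : Eok N (c / 2) E := by
    refine ⟨fun p hp => (hE p hp).1, fun p hp => le_trans (Real.exp_le_exp.mpr ?_) (hE p hp).2.1,
      fun p hp => (hE p hp).2.2.trans (Real.exp_le_exp.mpr
        (Real.rpow_le_rpow (by linarith only [c00, hc0, L2]) lL (by norm_num))), big⟩
    have a : Real.log N ≤ Real.log x ^ (2 : ℝ) := by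
      rw [Real.rpow_two, sq]
      exact Ll.trans (mul_le_mul_of_nonneg_right (by linarith only [δ1, c00, hc0, L2]) (by linarith only [c00, hc0, L2]))
    refine (Real.rpow_le_rpow (by linarith only [c00, hc0, L2, lL]) a (half_pos hc).le).trans (le_of_eq ?_)
    rw [← Real.rpow_mul (by linarith only [c00, hc0, L2]), mul_div_cancel₀ _ two_ne_zero]
  have T := H N (le_mul_of_one_le_right (Nat.cast_nonneg N) (one_le_pow₀ (by linarith only [c00, hc0, L2, lL]))) le_rfl E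
    hE' r1 r2 1 1 hL
  obtain ⟨c1, c2⟩ := hS r1 r2 1 1 hL
  have he := hκ E hE'
  have S0 := hc0.trans (TB_Sz_ge hL (PZ (zz N)) fun _ => PZ_prime)
  obtain ⟨M, hM⟩ : ∃ M, M = ⌈2 * x⌉₊ := ⟨_, rfl⟩
  have M1 : M ≤ 2 * N := hM ▸ Nat.ceil_le.mpr (by push_cast; linarith only [xN])
  have M2 : 2 * N < M + 2 := by
    have : 2 * x ≤ M := hM ▸ Nat.le_ceil _
    exact_mod_cast (show 2 * (N : ℝ) < M + 2 by linarith only [xN', this])
  have N1 : 0 < N := by exact_mod_cast x0.trans_le xN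
  rw [TB_card_nat _ ((Ioc (N - 1 : ℤ) (M - 1)).filter fun n =>
    PE E k1 (r1 * n + 1) ∧ PE E k2 (r2 * n + 1)) (fun n => ?_)
    fun m hm => by have := mem_Ioc.mp (mem_filter.mp hm).1; omega]
  swap
  · rw [mem_filter, mem_filter, mem_range, mem_Ioc, ← Nat.ceil_le, ← Nat.lt_ceil, ← hN, ← hM]
    constructor
    · rintro ⟨u1, u2, u3, u4⟩; exact ⟨by omega, u4⟩
    · rintro ⟨u1, u4⟩; exact ⟨by omega, by omega, by omega, u4⟩
  have Sh := TB_shift (fun n => PE E k1 (r1 * n + 1) ∧ PE E k2 (r2 * n + 1)) (N - 1) (M - 1)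
    N (2 * N)
  have s1 : |((N - 1 - N : ℤ) : ℝ)| + |((M - 1 - 2 * N : ℤ) : ℝ)| ≤ 3 := by
    have : |(N - 1 - N : ℤ)| + |(M - 1 - 2 * N : ℤ)| ≤ 3 := by
      rw [abs_of_nonpos (by omega), abs_of_nonpos (by omega)]; omega
    exact_mod_cast this
  have Sh2 := mul_le_mul_of_nonneg_right (Sh.trans s1) (sq_nonneg (Real.log N))
  rw [← abs_of_nonneg (sq_nonneg (Real.log N)), ← abs_mul, sub_mul,
    abs_of_nonneg (sq_nonneg (Real.log N))] at Sh2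
  have e0 := (κ0.trans_le he).le
  refine TB_fin2 (by linarith only [c00, hc0, L2]) lL Ll x0.le xN Nx e0 c2 c1 (c00.le.trans S0) (Nat.cast_nonneg _)
    δ0.le δ1 δ2 ((abs_sub_le _ _ _).trans ((add_le_add Sh2 T).trans ?_))
  rw [div_mul_eq_mul_div, div_le_iff₀ (by positivity)] at g
  have Nn : (0 : ℝ) ≤ N := Nat.cast_nonneg N
  have u1 := mul_le_mul_of_nonneg_left (mul_le_mul he S0 c00.le e0) (mul_nonneg Nn δ0.le)
  have u2 := mul_le_mul_of_nonneg_left (add_le_add (mul_le_of_le_one_left (c00.le.trans S0) c01) S0)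
    (mul_nonneg δ0.le (mul_nonneg Nn e0))
  linarith only [g, u1, u2]

end Pool.Agent.Work.MP_d018b2_nt.R
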