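import Pool.Agent.Work.MP_d018b2_nt.R.PFin

set_option autoImplicit false

open Classical in
theorem Pool.Agent.Work.MP_d018b2_nt.R.PB_general :
    ∀ (A : ℕ) (c : ℝ), 0 < c → ∃ k₀ : ℕ, ∀ k₁ k₂ : ℕ, 1 ≤ k₁ → k₀ ≤ k₂ →
      ∀ ε : ℝ, 0 < ε → ∀ᶠ N : ℕ in Filter.atTop,
        ∀ a₁ b₁ a₂ b₂ : ℤ, 0 < a₁ → 0 < a₂ → IsCoprime a₁ b₁ → IsCoprime a₂ b₂ →
          a₁ * b₂ ≠ a₂ * b₁ →
          (a₁ : ℝ) ≤ Real.log N ^ A → (a₂ : ℝ) ≤ Real.log N ^ A →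
          |(b₁ : ℝ)| ≤ Real.log N ^ A → |(b₂ : ℝ)| ≤ Real.log N ^ A →
        ∃ C : ℝ,
          Filter.Tendsto
            (fun y : ℕ => ∏ p ∈ (Finset.range (y + 1)).filter Nat.Prime,
              (1 - (((Finset.range p).filter
                    (fun n : ℕ => (p : ℤ) ∣ (a₁ * n + b₁) * (a₂ * n + b₂))).card : ℝ) / (p : ℝ)) /
                (1 - 1 / (p : ℝ)) ^ 2)
            Filter.atTop (nhds C) ∧
          ∀ E : Finset ℕ,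
            (∀ p ∈ E, p.Prime ∧ Real.exp (Real.log N ^ c) ≤ (p : ℝ) ∧
              (p : ℝ) ≤ Real.exp (Real.log N ^ (1 / 4 : ℝ))) →
            1 / 2 ≤ ∑ p ∈ E, (p : ℝ)⁻¹ →
            |(((Finset.Icc 1 N).filter (fun n : ℕ =>
                  (∃ p : ℕ, p.Prime ∧ ∃ S ∈ E.powersetCard k₁,
                    a₁ * n + b₁ = (p : ℤ) * ∏ s ∈ S, (s : ℤ)) ∧
                  (∃ p : ℕ, p.Prime ∧ ∃ S ∈ E.powersetCard k₂,
                    a₂ * n + b₂ = (p : ℤ) * ∏ s ∈ S, (s : ℤ)))).card : ℝ) * Real.log N ^ 2 /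
                ((N : ℝ) * ((∑ S ∈ E.powersetCard k₁, ∏ s ∈ S, (s : ℝ)⁻¹) *
                  ∑ S ∈ E.powersetCard k₂, ∏ s ∈ S, (s : ℝ)⁻¹)) - C|
              ≤ ε * (C + 1) := by
  intro A c hc
  obtain ⟨k₀, H⟩ := Pool.Agent.Work.MP_d018b2_nt.R.PB_one A hc
  refine ⟨k₀, fun k₁ k₂ h1 h2 ε hε => ?_⟩
  filter_upwards [H k₁ k₂ h1 h2 ε hε] with N H a₁ b₁ a₂ b₂ p1 p2 c1 c2 det q1 q2 q3 q4
  lift a₁ to ℕ using p1.le
  lift a₂ to ℕ using p2.le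
  have hL : Pool.Agent.Work.MP_678620_nt.Lin (Real.log N ^ A) a₁ a₂ b₁ b₂ :=
    ⟨by exact_mod_cast p1, by exact_mod_cast p2, by exact_mod_cast q1, by exact_mod_cast q2,
      q3, q4, c1, c2, det⟩
  refine ⟨_, Pool.Agent.Work.MP_678620_nt.TB_lim hL, fun E hE big => ?_⟩
  have T := H a₁ a₂ b₁ b₂ hL E
    ⟨fun p hp => (hE p hp).1, fun p hp => (hE p hp).2.1, fun p hp => (hE p hp).2.2, big⟩
  rw [Pool.Agent.Work.MP_678620_nt.TB_card_nat _ ((Finset.Ioc (0 : ℤ) N).filter fun n =>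
    Pool.Agent.Work.MP_678620_nt.PE E k₁ (a₁ * n + b₁) ∧
      Pool.Agent.Work.MP_678620_nt.PE E k₂ (a₂ * n + b₂)) (fun n => ?_)
    fun m hm => (Finset.mem_Ioc.mp (Finset.mem_filter.mp hm).1).1.le]
  · exact T
  · rw [Finset.mem_filter, Finset.mem_filter, Finset.mem_Icc, Finset.mem_Ioc]
    exact and_congr (by omega) Iff.rfl
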