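import Pool.Agent.Work.MP_52820d_nt.BV
import Pool.Agent.Lib.ANT.Siegel
import Pool.Agent.Lib.ANT.PNTError
import Pool.Agent.Lib.ANT.DivisorBound
import Pool.Agent.Work.MP_678620_nt.TBCount
import Pool.Agent.Work.MP_678620_nt.Bonf
import Pool.Agent.Work.MP_678620_nt.TBSum

-- merged part: Pool.Agent.Work.MP_d018b2_nt.R.PBV
section
/-! Primes in progressions on average, at a small level. -/

set_option autoImplicit false
open Finset Filter ArithmeticFunction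

namespace Pool.Agent.Work.MP_d018b2_nt.R

open Pool.Agent.Work.MP_52820d_nt Pool.Agent.Lib.ANT

/-- The primes of `(a, b]` are well distributed on average over the moduli up to `F`. -/
def BVok (a b F : ℕ) (η : ℝ) : Prop :=
  ∃ e : ℕ → ℝ, (∀ q, 0 ≤ e q) ∧ ∑ q ∈ Icc 1 F, e q ≤ η ∧
    ∀ q c : ℕ, 1 ≤ q → q ≤ F → Nat.Coprime c q → ∀ y : ℝ, |y - ((b : ℝ) - a)| ≤ 1 →
      |∑ n ∈ Ioc a b with n ≡ c [MOD q], th n - y / q.totient| ≤ e q

lemma BVok.mono {a b F : ℕ} {η η' : ℝ} (h : BVok a b F η) (h' : η ≤ η') : BVok a b F η' := by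
  obtain ⟨e, h1, h2, h3⟩ := h
  exact ⟨e, h1, h2.trans h', h3⟩

lemma BV_tot {q : ℕ} {L : ℝ} (hq : 1 ≤ q) (hL : 1 ≤ L) (h : Real.log q ≤ L) :
    ((q.totient : ℝ))⁻¹ ≤ Real.exp 76 * L * (q : ℝ)⁻¹ := by
  have q0 : (0 : ℝ) < q := by exact_mod_cast hq
  have t0 : (1 : ℝ) ≤ q.totient := by exact_mod_cast Nat.totient_pos.2 hq
  rw [← div_eq_mul_inv, le_div_iff₀ q0, mul_comm, ← div_eq_mul_inv]
  rcases lt_or_ge q 16 with c | c
  · have : (q : ℝ) ≤ 16 := by exact_mod_cast c.le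
    have a := Real.add_one_le_exp 76
    calc _ ≤ (q : ℝ) := div_le_self q0.le t0
      _ ≤ Real.exp 76 * 1 := by linarith only [this, a]
      _ ≤ _ := by gcongr
  · refine (div_totient_le_loglog q c).trans ?_
    gcongr
    have : (1 : ℝ) < q := by exact_mod_cast (by omega : 1 < q)
    linarith [Real.log_le_sub_one_of_pos (Real.log_pos this)]

lemma BV_harm (F : ℕ) : ∑ r ∈ Icc 1 F, (r : ℝ)⁻¹ ≤ 1 + Real.log F := by
  have := harmonic_le_one_add_log F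
  rw [harmonic_eq_sum_Icc] at this
  push_cast at this
  exact this

lemma BV_swap (F : ℕ) (g : ℕ → ℝ) (hg : ∀ f, 0 ≤ g f) :
    ∑ q ∈ Icc 1 F, (∑ f ∈ q.divisors with 1 < f, g f) * (q : ℝ)⁻¹
      ≤ (∑ f ∈ Icc 2 F, g f * (f : ℝ)⁻¹) * (1 + Real.log F) := by
  refine le_trans ?_ (mul_le_mul_of_nonneg_left (BV_harm F)
    (sum_nonneg fun f _ => mul_nonneg (hg f) (by positivity)))
  simp only [sum_mul]
  simp only [mul_sum]
  rw [sum_sigma', ← sum_product']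
  refine le_trans (le_of_eq ?_) (sum_le_sum_of_subset_of_nonneg
    (s := (Icc 2 F ×ˢ Icc 1 F).filter fun x => x.1 * x.2 ≤ F) (filter_subset _ _)
    fun x _ _ => mul_nonneg (mul_nonneg (hg _) (by positivity)) (by positivity))
  refine sum_bij' (fun x _ => (x.2, x.1 / x.2)) (fun x _ => ⟨x.1 * x.2, x.1⟩) ?_ ?_ ?_ ?_ ?_
  · rintro ⟨q, f⟩ h
    simp only [mem_sigma, mem_Icc, mem_filter, Nat.mem_divisors, mem_product] at h ⊢
    obtain ⟨⟨h1, h2⟩, ⟨⟨r, rfl⟩, h4⟩, h5⟩ := h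
    rw [Nat.mul_div_cancel_left _ (by omega)]
    have r0 : 0 < r := Nat.pos_of_ne_zero fun e => h4 (by simp [e])
    exact ⟨⟨⟨h5, (Nat.le_mul_of_pos_right _ r0).trans h2⟩, r0,
      (Nat.le_mul_of_pos_left _ (by omega)).trans h2⟩, h2⟩
  · rintro ⟨f, r⟩ h
    simp only [mem_sigma, mem_Icc, mem_filter, Nat.mem_divisors, mem_product] at h ⊢
    obtain ⟨⟨⟨h1, h2⟩, h3, h4⟩, h5⟩ := h
    have : 0 < f * r := Nat.mul_pos (by omega) h3
    exact ⟨⟨this, h5⟩, ⟨dvd_mul_right _ _, this.ne'⟩, h1⟩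
  · rintro ⟨q, f⟩ h
    simp only [mem_sigma, mem_Icc, mem_filter, Nat.mem_divisors] at h
    simp only [Nat.mul_div_cancel' h.2.1.1]
  · rintro ⟨f, r⟩ h
    simp only [mem_Icc, mem_filter, mem_product] at h
    simp only [Nat.mul_div_cancel_left _ (show 0 < f by omega)]
  · rintro ⟨q, f⟩ h
    simp only [mem_sigma, mem_Icc, mem_filter, Nat.mem_divisors] at h
    obtain ⟨-, ⟨⟨r, rfl⟩, -⟩, h5⟩ := h
    simp only [Nat.mul_div_cancel_left _ (show 0 < f by omega), Nat.cast_mul, mul_inv, mul_assoc]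

lemma BV_Ps {x b F Q : ℕ} {η : ℝ} (hF : F ^ 7 ≤ x) (hx : x ≤ b) (hQ : 0 < Q) (η0 : 0 ≤ η)
    (hSW : ∀ f : ℕ, 1 < f → f ≤ Q → ∀ χ : DirichletCharacter ℂ f, χ.IsPrimitive →
      ‖∑ n ∈ range (x + 1), χ n * vonMangoldt n‖ ≤ η) :
    ∑ f ∈ Icc 2 F, Ps x f * (f : ℝ)⁻¹ ≤ Q * η + 70 * b * (1 + Real.log b) ^ 4 / Q := by
  classical
  have hQ' : (0 : ℝ) < Q := by exact_mod_cast hQ
  rw [← sum_filter_add_sum_filter_not _ (· ≤ Q)]
  refine add_le_add ?_ ?_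
  · refine (sum_le_card_nsmul _ _ η fun f hf => ?_).trans ?_
    · simp only [mem_filter, mem_Icc] at hf
      have f0 : (0 : ℝ) < f := by exact_mod_cast (by omega : 0 < f)
      rw [← div_eq_mul_inv, div_le_iff₀ f0]
      refine (sum_le_card_nsmul _ _ _ fun χ hχ => hSW f hf.1.1 hf.2 χ (mem_filter.1 hχ).2).trans ?_
      rw [nsmul_eq_mul, mul_comm]
      gcongr
      exact card_primitive_le f (by omega)
    · rw [nsmul_eq_mul]
      gcongr
      refine (card_le_card (t := Icc 1 Q) fun f hf => ?_).trans (by simp)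
      simp only [mem_filter, mem_Icc] at hf ⊢; omega
  · calc _ ≤ ∑ f ∈ Icc 2 F with ¬ f ≤ Q, Ps x f * (Q : ℝ)⁻¹ :=
          sum_le_sum fun f hf => mul_le_mul_of_nonneg_left (inv_anti₀ hQ'
            (by exact_mod_cast (not_le.1 (mem_filter.1 hf).2).le)) (Ps_nonneg _ _)
      _ ≤ ∑ f ∈ Icc 2 F, Ps x f * (Q : ℝ)⁻¹ := sum_le_sum_of_subset_of_nonneg
          (filter_subset _ _) fun _ _ _ => mul_nonneg (Ps_nonneg _ _) (by positivity)
      _ ≤ _ := by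
          rw [← sum_mul, div_eq_mul_inv]
          refine mul_le_mul_of_nonneg_right ((mean_value F x hF).trans ?_) (by positivity)
          have := Real.log_natCast_nonneg x
          have h : Real.log x ≤ Real.log b := Lib.LargeSieve.log_nat_mono hx
          generalize Real.log x = u at *
          gcongr

lemma BV_theta {a b : ℕ} {η : ℝ} (hab : a ≤ b) (hb : 1 ≤ b)
    (h : ∀ x ≤ b, |∑ n ∈ Icc 1 x, vonMangoldt n - (x : ℝ)| ≤ η) :
    |∑ n ∈ Ioc a b, th n - ((b : ℝ) - a)| ≤ 2 * η + 2 * √b * Real.log b := by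
  have h1 : ∑ n ∈ Ioc a b with ¬ n.Prime, vonMangoldt n ≤ 2 * √b * Real.log b := by
    refine le_trans ?_ (Chebyshev.psi_sub_theta_le (x := b) (by exact_mod_cast hb))
    rw [Chebyshev.psi_sub_theta_eq_sum_not_prime, Nat.floor_natCast]
    exact sum_le_sum_of_subset_of_nonneg (filter_subset_filter _ (Ioc_subset_Ioc_left (Nat.zero_le a)))
      fun _ _ _ => vonMangoldt_nonneg
  have h0 : 0 ≤ ∑ n ∈ Ioc a b with ¬ n.Prime, vonMangoldt n := sum_nonneg fun _ _ => vonMangoldt_nonneg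
  have e : ∑ n ∈ Ioc a b, th n = ∑ n ∈ Icc 1 b, vonMangoldt n - ∑ n ∈ Icc 1 a, vonMangoldt n
      - ∑ n ∈ Ioc a b with ¬ n.Prime, vonMangoldt n := by
    have e1 : ∑ n ∈ Icc 1 b, vonMangoldt n = ∑ n ∈ Icc 1 a, vonMangoldt n +
        ∑ n ∈ Ioc a b, vonMangoldt n := (sum_Ioc_consecutive _ (Nat.zero_le a) hab).symm
    rw [e1, add_sub_cancel_left, sum_filter, ← sum_sub_distrib]
    refine sum_congr rfl fun n _ => ?_
    by_cases k : n.Prime
    · simp [th, k, vonMangoldt_apply_prime k]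
    · simp [th, k]
  have a1 := abs_le.1 (h a hab)
  have a2 := abs_le.1 (h b le_rfl)
  rw [e, abs_le]
  constructor <;> linarith only [h1, a1, a2, h0, a1.1, a1.2, a2.1, a2.2]

lemma BV_num {L b s F Q P1 P2 P3 : ℝ} {C : ℕ} (hL : 2 * (Real.exp 76 * 5000) ≤ L) (b0 : 0 ≤ b)
    (Q1 : L ^ (C + 7) ≤ Q) (Q2 : Q ≤ 2 * L ^ (C + 7)) (hs : 1 ≤ s) (hF : F * F ≤ s)
    (F0 : 0 ≤ F) (sb : s * s = b) (hs2 : L ^ (2 * (C + 4)) ≤ s)
    (h1 : P1 ≤ Q * (b / L ^ (2 * C + 10)) + 70 * b * (1 + L) ^ 4 / Q)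
    (h2 : P2 ≤ Q * (b / L ^ (2 * C + 10)) + 70 * b * (1 + L) ^ 4 / Q)
    (h3 : P3 ≤ 2 * (b / L ^ (2 * C + 10)) + 2 * s * L + 1) :
    Real.exp 76 * L * ((P1 + P2 + F * (2 * s * L) + P3) * (1 + L)) ≤ b / L ^ C := by
  have e0 := Real.add_one_le_exp 76
  have l1 : 1 ≤ L := by linarith only [hL, e0]
  have l0 : 0 < L := by linarith only [hL, e0]
  have a1 : Q * (b / L ^ (2 * C + 10)) ≤ 2 * (b / L ^ (C + 3)) := by
    calc _ ≤ 2 * L ^ (C + 7) * (b / L ^ (2 * C + 10)) := by gcongr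
      _ = _ := by field_simp; ring
  have a2 : 70 * b * (1 + L) ^ 4 / Q ≤ 1120 * (b / L ^ (C + 3)) := by
    calc _ ≤ 70 * b * (L + L) ^ 4 / L ^ (C + 7) := by gcongr
      _ = _ := by field_simp; ring
  have a3 : b / L ^ (2 * C + 10) ≤ b / L ^ (C + 3) :=
    div_le_div_of_nonneg_left b0 (by positivity) (pow_le_pow_right₀ l1 (by omega))
  have a4 : F * L ^ (C + 4) ≤ s := by
    refine (mul_self_le_mul_self_iff (by positivity) (by linarith only [hs])).2 ?_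
    calc _ = F * F * L ^ (2 * (C + 4)) := by ring
      _ ≤ s * s := by gcongr
  have a5 : L ^ (C + 4) ≤ s := (pow_le_pow_right₀ l1 (by omega)).trans hs2
  have a6 : F * (2 * s * L) ≤ 2 * (b / L ^ (C + 3)) := by
    rw [← sb, ← mul_div_assoc, le_div_iff₀ (by positivity)]
    calc _ = 2 * (s * (F * L ^ (C + 4))) := by ring
      _ ≤ _ := by gcongr
  have a7 : s * L ≤ b / L ^ (C + 3) := by
    rw [← sb, le_div_iff₀ (by positivity)]
    calc _ = s * L ^ (C + 4) := by ring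
      _ ≤ _ := by gcongr
  have a8 : 1 ≤ s * L := one_le_mul_of_one_le_of_one_le hs l1
  have a9 : 0 ≤ b / L ^ (C + 3) := by positivity
  calc _ ≤ Real.exp 76 * L * ((5000 * (b / L ^ (C + 3))) * (L + L)) := by
        gcongr
        linarith only [h1, h2, h3, a1, a2, a3, a6, a7, a8]
    _ = 2 * (Real.exp 76 * 5000) * (b / L ^ (C + 1)) := by field_simp; ring
    _ ≤ L * (b / L ^ (C + 1)) := by gcongr
    _ = _ := by field_simp; ring

theorem bv_ok (C : ℕ) : ∀ᶠ b : ℕ in atTop, ∀ a F : ℕ, a ≤ b → F ^ 7 ≤ a →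
    BVok a b F (b / Real.log b ^ C) := by
  filter_upwards [siegel_walfisz (2 * C + 10), pnt_error (2 * C + 10),
    tendsto_log_nat.eventually_ge_atTop (2 * (Real.exp 76 * 5000)),
    PNTError.eventually_pow_log_le 1 one_pos (4 * (C + 4)), eventually_ge_atTop 1]
    with b h1 h2 hL h4 hb a F hab hF
  have e0 := Real.add_one_le_exp 76
  have l1 : 2 ≤ Real.log b := by linarith only [hL, e0]
  have b1 : (1 : ℝ) ≤ b := by exact_mod_cast hb
  have Fa : F ≤ a := (Nat.le_self_pow (by norm_num) F).trans hF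
  have lF : Real.log F ≤ Real.log b := Lib.LargeSieve.log_nat_mono (Fa.trans hab)
  obtain ⟨Q, Q1, Q2⟩ : ∃ Q : ℕ, Real.log b ^ (C + 7) ≤ Q ∧ (Q : ℝ) ≤ 2 * Real.log b ^ (C + 7) :=
    ⟨⌈Real.log b ^ (C + 7)⌉₊, Nat.le_ceil _, by
      have := Nat.ceil_lt_add_one (show 0 ≤ Real.log b ^ (C + 7) by positivity)
      linarith only [this, hL, e0, one_le_pow₀ (n := C + 7) (show 1 ≤ Real.log b by linarith only [hL, e0])]⟩
  have Q0 : 0 < Q := by exact_mod_cast (show (0 : ℝ) < Q from lt_of_lt_of_le (by positivity) Q1)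
  have Q3 : (Q : ℝ) ≤ Real.log b ^ (2 * C + 10) := by
    refine Q2.trans ?_
    calc _ ≤ Real.log b * Real.log b ^ (C + 7) := by gcongr
      _ = Real.log b ^ (C + 8) := by ring
      _ ≤ _ := pow_le_pow_right₀ (by linarith only [hL, e0]) (by omega)
  have sw : ∀ x ≤ b, F ^ 7 ≤ x → ∑ f ∈ Icc 2 F, Ps x f * (f : ℝ)⁻¹ ≤
      Q * (b / Real.log b ^ (2 * C + 10)) + 70 * b * (1 + Real.log b) ^ 4 / Q := fun x hx hx' =>
    BV_Ps hx' hx Q0 (by positivity) fun f f1 f2 χ hχ => by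
      have : NeZero f := ⟨by omega⟩
      exact h1 f χ (ne_one_of_isPrimitive f1 hχ) (le_trans (by exact_mod_cast f2) Q3) _ (by omega)
  have th1 := BV_theta hab hb h2
  refine ⟨fun q => (∑ f ∈ q.divisors with 1 < f, Psi a b f +
    (|∑ n ∈ Ioc a b, th n - ((b : ℝ) - a)| + 1)) / q.totient, fun q => div_nonneg (add_nonneg
      (sum_nonneg fun _ _ => Psi_nonneg _ _ _) (by positivity)) (by positivity), ?_,
    fun q c q1 q2 hc y hy => ?_⟩
  · have s0 : 0 ≤ 2 * √b * Real.log b := by positivity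
    have p1 : ∑ f ∈ Icc 2 F, Psi a b f * (f : ℝ)⁻¹ ≤ ∑ f ∈ Icc 2 F, Ps a f * (f : ℝ)⁻¹ +
        ∑ f ∈ Icc 2 F, Ps b f * (f : ℝ)⁻¹ + F * (2 * √b * Real.log b) := by
      have : ∑ _f ∈ Icc 2 F, 2 * √b * Real.log b ≤ F * (2 * √b * Real.log b) := by
        rw [sum_const, nsmul_eq_mul]
        exact mul_le_mul_of_nonneg_right (by simp) s0
      refine le_trans ?_ (add_le_add_right this _)
      rw [← sum_add_distrib, ← sum_add_distrib]
      refine sum_le_sum fun f hf => ?_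
      have f0 : 0 < f := by have := (mem_Icc.1 hf).1; omega
      have f1 : (f : ℝ) ≠ 0 := by exact_mod_cast f0.ne'
      refine (mul_le_mul_of_nonneg_right (Psi_le hab hb f0) (by positivity)).trans (le_of_eq ?_)
      field_simp
    have p2 := BV_swap F (Psi a b) (Psi_nonneg a b)
    have p3 := BV_harm F
    have p0 : 0 ≤ ∑ f ∈ Icc 2 F, Psi a b f * (f : ℝ)⁻¹ :=
      sum_nonneg fun f _ => mul_nonneg (Psi_nonneg _ _ _) (by positivity)
    refine le_trans ?_ (BV_num (F := F) (s := √b) hL (by positivity) Q1 Q2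
      (Real.one_le_sqrt.2 b1) ?_ (by positivity) (Real.mul_self_sqrt (by positivity)) ?_
      (sw a hab hF) (sw b le_rfl (hF.trans hab)) (add_le_add_left th1 1))
    · calc _ ≤ ∑ q ∈ Icc 1 F, Real.exp 76 * Real.log b * ((∑ f ∈ q.divisors with 1 < f, Psi a b f)
            * (q : ℝ)⁻¹ + (|∑ n ∈ Ioc a b, th n - ((b : ℝ) - a)| + 1) * (q : ℝ)⁻¹) := by
            refine sum_le_sum fun q hq => ?_
            have := BV_tot (mem_Icc.1 hq).1 (by linarith only [hL, e0] : 1 ≤ Real.log b)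
              ((Lib.LargeSieve.log_nat_mono (mem_Icc.1 hq).2).trans lF)
            rw [div_eq_mul_inv, ← add_mul, mul_left_comm]
            exact mul_le_mul_of_nonneg_left this (add_nonneg
              (sum_nonneg fun _ _ => Psi_nonneg _ _ _) (by positivity))
        _ ≤ _ := by
            rw [← mul_sum, sum_add_distrib, ← mul_sum, add_mul _ (_ + (1 : ℝ)) (1 + Real.log b)]
            refine mul_le_mul_of_nonneg_left (add_le_add (p2.trans ?_) ?_) (by positivity)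
            · exact mul_le_mul p1 (by linarith only [lF]) (by linarith only [Real.log_natCast_nonneg F])
                (p0.trans p1)
            · exact mul_le_mul_of_nonneg_left (by linarith only [lF, p3]) (by positivity)
    · refine Real.le_sqrt_of_sq_le ?_
      rcases Nat.eq_zero_or_pos F with rfl | F0
      · simp
      have : F ^ 4 ≤ b := (Nat.pow_le_pow_right F0 (by norm_num)).trans (hF.trans hab)
      calc _ = ((F ^ 4 : ℕ) : ℝ) := by push_cast; ring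
        _ ≤ _ := by exact_mod_cast this
    · refine Real.le_sqrt_of_sq_le ?_
      rw [← pow_mul, show 2 * (C + 4) * 2 = 4 * (C + 4) by ring]
      simpa using h4
  · have t0 : (0 : ℝ) < q.totient := by exact_mod_cast Nat.totient_pos.2 q1
    have := th_AP q1 hc (q2.trans Fa) b
    beta_reduce
    rw [add_div]
    refine (abs_sub_le _ _ _).trans (add_le_add this ?_)
    rw [← sub_div, abs_div, abs_of_pos t0]
    gcongr
    rw [abs_sub_comm] at hy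
    exact (abs_sub_le _ _ _).trans (add_le_add_right hy _)

end Pool.Agent.Work.MP_d018b2_nt.R
end

-- merged part: Pool.Agent.Work.MP_d018b2_nt.R.PTheta
section
/-! The prime cofactors of one form, with divisibility conditions on the other form. -/

set_option autoImplicit false
open Finset

namespace Pool.Agent.Work.MP_d018b2_nt.R

open Pool.Agent.Work.MP_678620_nt Pool.Agent.Work.MP_52820d_nt

noncomputable section

/-- The logarithm of the cofactor `u / d` when this is a prime. -/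
def mu (d : ℕ) (u : ℤ) : ℝ := if (d : ℤ) ∣ u then th (u / d).toNat else 0

/-- The local density. -/
def rho (a : ℕ) (w : ℤ) (p : ℕ) : ℝ :=
  if (p : ℤ) ∣ w then 0 else if p ∣ a then (p : ℝ)⁻¹ else ((p : ℝ) - 1)⁻¹

end

lemma th_nonneg (n : ℕ) : 0 ≤ th n := by
  unfold th; split_ifs; exacts [Real.log_natCast_nonneg _, le_rfl]

lemma mu_nonneg (d : ℕ) (u : ℤ) : 0 ≤ mu d u := by
  unfold mu; split_ifs; exacts [th_nonneg _, le_rfl]

lemma rho_bd (a : ℕ) (w : ℤ) {p : ℕ} (hp : p.Prime) :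
    0 ≤ rho a w p ∧ rho a w p ≤ 1 ∧ rho a w p ≤ 2 * (p : ℝ)⁻¹ := by
  have p2 : (2 : ℝ) ≤ p := by exact_mod_cast hp.two_le
  have i0 : (0 : ℝ) ≤ (p : ℝ)⁻¹ := by positivity
  unfold rho
  split_ifs
  · exact ⟨le_rfl, zero_le_one, by positivity⟩
  · exact ⟨i0, inv_le_one_of_one_le₀ (by linarith), by linarith⟩
  · refine ⟨inv_nonneg.2 (by linarith), inv_le_one_of_one_le₀ (by linarith), ?_⟩
    rw [← div_eq_mul_inv, ← one_div, div_le_div_iff₀ (by linarith) (by linarith)]; linarith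

lemma tot_mul (a : ℕ) (U : Finset ℕ) (hU : ∀ p ∈ U, p.Prime) :
    ((a * ∏ p ∈ U, p).totient : ℝ) =
      a.totient * ∏ p ∈ U, (if p ∣ a then (p : ℝ) else (p : ℝ) - 1) := by
  induction U using Finset.induction_on with
  | empty => simp
  | insert p U hp ih =>
    have pp := hU p (mem_insert_self _ _)
    have ih' := ih fun q hq => hU q (mem_insert_of_mem hq)
    rw [prod_insert hp, prod_insert hp, mul_left_comm, mul_left_comm (a.totient : ℝ), ← ih']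
    split_ifs with h
    · rw [Nat.totient_mul_of_prime_of_dvd pp (h.mul_right _), Nat.cast_mul]
    · rw [Nat.totient_mul_of_prime_of_not_dvd pp, Nat.cast_mul, Nat.cast_sub pp.one_le, Nat.cast_one]
      intro k
      rcases (Nat.Prime.dvd_mul pp).1 k with k | k
      · exact h k
      · obtain ⟨q, hq, k⟩ := (Prime.dvd_finsetProd_iff pp.prime _).1 k
        exact hp ((Nat.prime_dvd_prime_iff_eq pp (hU q (mem_insert_of_mem hq))).1 k ▸ hq)

lemma PT_range {a1 d a b N : ℕ} {b1 α n m : ℤ} (h1 : 0 < a1) (hd : 0 < d)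
    (ha : (a : ℤ) = (a1 * α + b1) / d) (hb : (b : ℤ) = (a1 * (α + N) + b1) / d)
    (e : d * m = a1 * n + b1) : n ∈ Ioc α (α + N) ↔ (a : ℤ) < m ∧ m ≤ b := by
  have p1 : (0 : ℤ) < a1 := by exact_mod_cast h1
  have p2 : (0 : ℤ) < d := by exact_mod_cast hd
  rw [mem_Ioc, ha, hb, Int.ediv_lt_iff_lt_mul p2, Int.le_ediv_iff_mul_le p2, mul_comm m, e,
    add_lt_add_iff_right, add_le_add_iff_right, mul_lt_mul_iff_right₀ p1, mul_le_mul_iff_right₀ p1]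

lemma PT_bad {B : ℝ} {a1 a2 d a b N p : ℕ} {b1 b2 α n : ℤ} (h : Lin B a1 a2 b1 b2) (hd : 0 < d)
    (ha : (a : ℤ) = (a1 * α + b1) / d) (hb : (b : ℤ) = (a1 * (α + N) + b1) / d)
    (hp : p.Prime) (hpa : p ≤ a) (hΔ : p ∣ d → ¬ (p : ℤ) ∣ a1 * b2 - a2 * b1)
    (hw : (p : ℤ) ∣ a2 * (a1 * b2 - a2 * b1) * d) (hn : n ∈ Ioc α (α + N))
    (h2 : (p : ℤ) ∣ a2 * n + b2) : mu d (a1 * n + b1) = 0 := by
  have pp := Nat.prime_iff_prime_int.1 hp
  unfold mu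
  split_ifs with k
  swap
  · rfl
  obtain ⟨m, e⟩ := k
  have m1 := ((PT_range h.a1_pos hd ha hb e.symm).1 hn).1
  rw [e, Int.mul_ediv_cancel_left _ (by exact_mod_cast hd.ne')]
  refine if_neg fun hm => ?_
  have c1 : ¬ (p : ℤ) ∣ a2 := fun k =>
    pp.not_isUnit (h.cop2.isUnit_of_dvd' k ((dvd_add_right (k.mul_right _)).1 h2))
  have c2 : ¬ (p : ℤ) ∣ d := fun k =>
    TB_not_both (hΔ (Int.natCast_dvd_natCast.1 k)) n (e ▸ k.mul_right m) h2
  have c3 : (p : ℤ) ∣ a1 * b2 - a2 * b1 :=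
    (pp.dvd_or_dvd ((pp.dvd_or_dvd hw).resolve_right c2)).resolve_left c1
  have c4 : (p : ℤ) ∣ a2 * (d * m) := by
    have := (h2.mul_left a1).sub c3
    rwa [show (a1 : ℤ) * (a2 * n + b2) - (a1 * b2 - a2 * b1) = a2 * (a1 * n + b1) by ring, e] at this
  have c5 := (pp.dvd_or_dvd ((pp.dvd_or_dvd c4).resolve_left c1)).resolve_left c2
  lift m to ℕ using by omega
  rw [Int.toNat_natCast] at hm
  have := (Nat.prime_dvd_prime_iff_eq hp hm).1 (Int.natCast_dvd_natCast.1 c5)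
  omega

lemma PT_good {B : ℝ} {a1 a2 d a b N : ℕ} {b1 b2 α : ℤ} (h : Lin B a1 a2 b1 b2) (hd : 0 < d)
    (hda : Nat.Coprime d a1) (ha : (a : ℤ) = (a1 * α + b1) / d)
    (hb : (b : ℤ) = (a1 * (α + N) + b1) / d) {U : Finset ℕ} (hU : ∀ p ∈ U, p.Prime ∧
      ¬ (p : ℤ) ∣ a2 * (a1 * b2 - a2 * b1) * d) :
    ∃ c : ℕ, Nat.Coprime c (a1 * ∏ p ∈ U, p) ∧
      ∑ n ∈ Ioc α (α + N) with ∀ p ∈ U, (p : ℤ) ∣ a2 * n + b2, mu d (a1 * n + b1) =
        ∑ m ∈ Ioc a b with m ≡ c [MOD a1 * ∏ p ∈ U, p], th m := by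
  obtain ⟨t, ht⟩ : ∃ t, t = ∏ p ∈ U, p := ⟨_, rfl⟩
  have t0 : 0 < t := ht ▸ prod_pos fun p hp => (hU p hp).1.pos
  have p1 : (0 : ℤ) < a1 := by exact_mod_cast h.a1_pos
  have p2 : (0 : ℤ) < d := by exact_mod_cast hd
  have dv : ∀ u : ℤ, (∀ p ∈ U, (p : ℤ) ∣ u) ↔ (t : ℤ) ∣ u := fun u => by
    rw [ht, Nat.cast_prod]
    exact ⟨fun k => Finset.prod_dvd_of_coprime (fun p hp q hq e => Nat.isCoprime_iff_coprime.2
      ((Nat.coprime_primes (hU p hp).1 (hU q hq).1).2 e)) k,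
      fun k p hp => (dvd_prod_of_mem _ hp).trans k⟩
  have cp : ∀ u : ℤ, (∀ p ∈ U, ¬ (p : ℤ) ∣ u) → IsCoprime (t : ℤ) u := fun u hu => by
    rw [ht, Nat.cast_prod]
    exact IsCoprime.prod_left fun p hp =>
      ((Nat.prime_iff_prime_int.1 (hU p hp).1).irreducible.coprime_iff_not_dvd).2 (hu p hp)
  have c0 := cp _ fun p hp => (hU p hp).2
  have c1 : IsCoprime (t : ℤ) a2 := c0.of_mul_right_left.of_mul_right_left
  have c2 : IsCoprime (t : ℤ) (a1 * b2 - a2 * b1) := c0.of_mul_right_left.of_mul_right_right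
  have c3 : IsCoprime (t : ℤ) d := c0.of_mul_right_right
  have c4 : IsCoprime (d : ℤ) a1 := Nat.isCoprime_iff_coprime.2 hda
  obtain ⟨n0, c, e1, e2⟩ : ∃ n0 c : ℤ, d * c = a1 * n0 + b1 ∧ (t : ℤ) ∣ a2 * n0 + b2 := by
    obtain ⟨x, y, e⟩ := c4
    obtain ⟨u, v, f⟩ := c1.mul_right c3
    exact ⟨-b1 * y - d * v * (a2 * (-b1 * y) + b2), b1 * x - a1 * v * (a2 * (-b1 * y) + b2),
      by linear_combination b1 * e, u * (a2 * (-b1 * y) + b2),
      by linear_combination -(a2 * (-b1 * y) + b2) * f⟩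
  have q0 : (0 : ℤ) < a1 * t := mul_pos p1 (by exact_mod_cast t0)
  have cc : (((c % (a1 * t)).toNat : ℕ) : ℤ) ≡ c [ZMOD (a1 * t : ℕ)] := by
    rw [Int.toNat_of_nonneg (Int.emod_nonneg _ q0.ne')]
    exact Int.mod_modEq _ _
  have md : ∀ m : ℕ, m ≡ (c % (a1 * t)).toNat [MOD a1 * t] ↔ (a1 * t : ℤ) ∣ m - c := fun m => by
    rw [← Int.natCast_modEq_iff, ← Nat.cast_mul, ← Int.modEq_iff_dvd]
    exact ⟨fun k => (k.trans cc).symm, fun k => k.symm.trans cc.symm⟩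
  rw [← ht]
  refine ⟨(c % (a1 * t)).toNat, ?_, ?_⟩
  · rw [← Nat.isCoprime_iff_coprime]
    obtain ⟨s, hs⟩ := cc.symm.dvd
    rw [eq_add_of_sub_eq hs, add_comm]
    refine IsCoprime.add_mul_left_left ?_ s
    rw [Nat.cast_mul]
    refine IsCoprime.mul_right (IsCoprime.of_mul_left_right (x := (d : ℤ)) ?_) ?_
    · rw [e1, add_comm]; exact h.cop1.symm.add_mul_left_left n0
    · obtain ⟨r, hr⟩ := e2
      refine IsCoprime.of_mul_left_right (x := -(a2 * d : ℤ)) ?_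
      rw [show -(a2 * d : ℤ) * c = (a1 * b2 - a2 * b1) + t * (-(a1 * r)) by
        linear_combination -a2 * e1 - a1 * hr]
      exact c2.symm.add_mul_left_left _
  · simp only [dv, mu]
    rw [← sum_filter, filter_filter]
    refine sum_bij (fun n _ => ((a1 * n + b1) / d).toNat) (fun n hn => ?_) (fun n hn n' hn' k => ?_)
      (fun m hm => ?_) fun _ _ => rfl
    · obtain ⟨n1, n2, m, e⟩ := mem_filter.1 hn
      obtain ⟨m1, m2⟩ := (PT_range h.a1_pos hd ha hb e.symm).1 n1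
      rw [e, Int.mul_ediv_cancel_left _ p2.ne']
      lift m to ℕ using by omega
      rw [Int.toNat_natCast, mem_filter, mem_Ioc, md]
      refine ⟨⟨by exact_mod_cast m1, by exact_mod_cast m2⟩, ?_⟩
      have f1 : (t : ℤ) ∣ n - n0 := c1.dvd_of_dvd_mul_left (by
        rw [show (a2 : ℤ) * (n - n0) = a2 * n + b2 - (a2 * n0 + b2) by ring]; exact n2.sub e2)
      have f2 : (d : ℤ) ∣ n - n0 := c4.dvd_of_dvd_mul_left ⟨m - c, by linear_combination e + e1⟩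
      obtain ⟨s, hs⟩ := c3.mul_dvd f1 f2
      exact ⟨s, mul_left_cancel₀ p2.ne' (by linear_combination -e - e1 + a1 * hs)⟩
    · obtain ⟨n1, -, m, e⟩ := mem_filter.1 hn
      obtain ⟨n2, -, m', e'⟩ := mem_filter.1 hn'
      have m1 := ((PT_range h.a1_pos hd ha hb e.symm).1 n1).1
      have m2 := ((PT_range h.a1_pos hd ha hb e'.symm).1 n2).1
      rw [e, e', Int.mul_ediv_cancel_left _ p2.ne', Int.mul_ediv_cancel_left _ p2.ne'] at k
      have : m = m' := by omega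
      exact mul_left_cancel₀ p1.ne' (by linear_combination e - e' + d * this)
    · rw [mem_filter, mem_Ioc, md] at hm
      obtain ⟨⟨m1, m2⟩, s, hs⟩ := hm
      have e : (d : ℤ) * m = a1 * (n0 + d * t * s) + b1 := by linear_combination e1 + d * hs
      refine ⟨n0 + d * t * s, mem_filter.2 ⟨(PT_range h.a1_pos hd ha hb e).2
        ⟨by exact_mod_cast m1, by exact_mod_cast m2⟩, ?_, m, e.symm⟩, ?_⟩
      · rw [show (a2 : ℤ) * (n0 + d * t * s) + b2 = a2 * n0 + b2 + t * (a2 * d * s) by ring]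
        exact e2.add (dvd_mul_right _ _)
      · rw [← e, Int.mul_ediv_cancel_left _ p2.ne', Int.toNat_natCast]

lemma PT_len {a1 d a b N : ℕ} {b1 α : ℤ} (hd : 0 < d)
    (ha : (a : ℤ) = (a1 * α + b1) / d) (hb : (b : ℤ) = (a1 * (α + N) + b1) / d) :
    |(a1 * N / d : ℝ) - ((b : ℝ) - a)| ≤ 1 := by
  have p2 : (0 : ℤ) < d := by exact_mod_cast hd
  have d0 : (0 : ℝ) < d := by exact_mod_cast hd
  have a1' := Int.emod_add_mul_ediv (a1 * α + b1) d
  have a2' := Int.emod_add_mul_ediv (a1 * (α + N) + b1) d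
  have b1' := Int.emod_nonneg (a1 * α + b1) p2.ne'
  have b2' := Int.emod_nonneg (a1 * (α + N) + b1) p2.ne'
  have c1 := Int.emod_lt_of_pos (a1 * α + b1) p2
  have c2 := Int.emod_lt_of_pos (a1 * (α + N) + b1) p2
  rw [← ha] at a1'
  rw [← hb] at a2'
  have : |(a1 * N : ℤ) - d * (b - a)| ≤ d := abs_le.2 ⟨by linarith only [a1', a2', b2', c1], by linarith only [a1', a2', b1', c2]⟩
  have f : |(a1 * N : ℝ) - d * (b - a)| ≤ d := by exact_mod_cast this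
  rw [show (a1 * N / d : ℝ) - ((b : ℝ) - a) = (a1 * N - d * (b - a)) / d by field_simp, abs_div,
    abs_of_pos d0, div_le_one d0]
  exact f

theorem PT_theta {B : ℝ} {a1 a2 d a b N F : ℕ} {b1 b2 α : ℤ} (h : Lin B a1 a2 b1 b2) (hd : 0 < d)
    (hda : Nat.Coprime d a1) (hΔ : ∀ p : ℕ, p.Prime → p ∣ d → ¬ (p : ℤ) ∣ a1 * b2 - a2 * b1)
    (ha : (a : ℤ) = (a1 * α + b1) / d) (hb : (b : ℤ) = (a1 * (α + N) + b1) / d) {e : ℕ → ℝ}
    (e0 : ∀ q, 0 ≤ e q) (he : ∀ q c : ℕ, 1 ≤ q → q ≤ F → Nat.Coprime c q → ∀ y : ℝ,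
      |y - ((b : ℝ) - a)| ≤ 1 → |∑ n ∈ Ioc a b with n ≡ c [MOD q], th n - y / q.totient| ≤ e q)
    {U : Finset ℕ} (hU : ∀ p ∈ U, p.Prime ∧ p ≤ a) (hF : a1 * ∏ p ∈ U, p ≤ F) :
    |∑ n ∈ Ioc α (α + N) with ∀ p ∈ U, (p : ℤ) ∣ a2 * n + b2, mu d (a1 * n + b1)
      - a1 * N / d / a1.totient * ∏ p ∈ U, rho a1 (a2 * (a1 * b2 - a2 * b1) * d) p|
      ≤ e (a1 * ∏ p ∈ U, p) := by
  by_cases c : ∃ p ∈ U, (p : ℤ) ∣ a2 * (a1 * b2 - a2 * b1) * d
  · obtain ⟨p, hp, c⟩ := c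
    rw [sum_eq_zero, prod_eq_zero (f := rho _ _) hp (if_pos c)]
    · simpa using e0 _
    · intro n hn
      rw [mem_filter] at hn
      exact PT_bad h hd ha hb (hU p hp).1 (hU p hp).2 (hΔ p (hU p hp).1) c hn.1 (hn.2 p hp)
  · push Not at c
    obtain ⟨c', c1, c2⟩ := PT_good h hd hda ha hb fun p hp => ⟨(hU p hp).1, c p hp⟩
    have := he _ c' (Nat.mul_pos h.a1_pos (prod_pos fun p hp => (hU p hp).1.pos)) hF c1 _
      (PT_len hd ha hb)
    rw [tot_mul _ _ fun p hp => (hU p hp).1, ← div_div, div_eq_mul_inv _ (∏ _ ∈ _, _),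
      ← prod_inv_distrib] at this
    rw [c2, prod_congr (f := rho _ _) rfl fun p hp => if_neg (c p hp)]
    simpa only [apply_ite (fun x : ℝ => x⁻¹)] using this

end Pool.Agent.Work.MP_d018b2_nt.R
end

-- merged part: Pool.Agent.Work.MP_d018b2_nt.R.PLoc
section
/-! The local densities of the prime cofactors. -/

set_option autoImplicit false
open Finset

namespace Pool.Agent.Work.MP_d018b2_nt.R

open Pool.Agent.Work.MP_678620_nt

lemma PL_noroot {p : ℕ} (hp : p.Prime) {a b : ℤ} (h : IsCoprime a b) (k : (p : ℤ) ∣ a) :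
    ((range p).filter fun n : ℕ => (p : ℤ) ∣ a * n + b) = ∅ :=
  filter_eq_empty_iff.mpr fun _ _ k' => (Nat.prime_iff_prime_int.mp hp).not_isUnit
    (h.isUnit_of_dvd' k ((dvd_add_right (k.mul_right _)).mp k'))

lemma PL_loc {B : ℝ} {a1 a2 : ℕ} {b1 b2 : ℤ} (h : Lin B a1 a2 b1 b2) {p : ℕ} (hp : p.Prime) :
    1 - (om a1 a2 b1 b2 p : ℝ) / p =
      (1 - rho a1 (a2 * (a1 * b2 - a2 * b1)) p) * if p ∣ a1 then 1 else 1 - (p : ℝ)⁻¹ := by
  have pp := Nat.prime_iff_prime_int.1 hp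
  have p2 : (2 : ℝ) ≤ p := by exact_mod_cast hp.two_le
  rw [om_eq _ _ _ _ hp, rho]
  simp only [pp.dvd_mul, ← Int.natCast_dvd_natCast]
  by_cases c1 : (p : ℤ) ∣ a1 <;> by_cases c2 : (p : ℤ) ∣ a2
  · rw [PL_noroot hp h.cop1 c1, PL_noroot hp h.cop2 c2, if_pos (Or.inl c2), if_pos c1]; simp
  · have c3 : ¬ (p : ℤ) ∣ a1 * b2 - a2 * b1 := fun k => pp.not_isUnit (h.cop1.isUnit_of_dvd' c1
      ((pp.dvd_or_dvd ((dvd_sub_right (c1.mul_right b2)).1 k)).resolve_left c2))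
    rw [PL_noroot hp h.cop1 c1, empty_union, TB_root hp c2, if_neg (not_or.2 ⟨c2, c3⟩), if_pos c1,
      if_pos c1]
    simp
  · rw [PL_noroot hp h.cop2 c2, union_empty, TB_root hp c1, if_pos (Or.inl c2), if_neg c1]; simp
  · by_cases c3 : (p : ℤ) ∣ a1 * b2 - a2 * b1
    · rw [union_eq_left.2, TB_root hp c1, if_pos (Or.inr c3), if_neg c1]
      · simp
      · intro n hn
        rw [mem_filter] at hn ⊢
        refine ⟨hn.1, (pp.dvd_or_dvd ?_).resolve_left c2⟩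
        have := (hn.2.mul_left a1).sub c3
        rwa [show (a1 : ℤ) * (a2 * n + b2) - (a1 * b2 - a2 * b1) = a2 * (a1 * n + b1) by ring] at this
    · rw [card_union_of_disjoint, TB_root hp c1, TB_root hp c2,
        if_neg (not_or.2 ⟨c2, c3⟩), if_neg c1, if_neg c1]
      · have : (p : ℝ) - 1 ≠ 0 := by linarith
        field_simp
        push_cast
        ring
      · exact disjoint_left.mpr fun n k1 k2 =>
          TB_not_both c3 n (mem_filter.mp k1).2 (mem_filter.mp k2).2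

lemma PL_glob {B z : ℝ} {a1 a2 : ℕ} {b1 b2 : ℤ} (h : Lin B a1 a2 b1 b2) (hz : (a1 : ℝ) ≤ z) :
    (Vz z)⁻¹ * ∏ p ∈ PZ z, (1 - (om a1 a2 b1 b2 p : ℝ) / p) =
      a1 / a1.totient * ∏ p ∈ PZ z, (1 - rho a1 (a2 * (a1 * b2 - a2 * b1)) p) ∧
    (a1 : ℝ) / a1.totient ≤ (Vz z)⁻¹ := by
  have a0 : (0 : ℝ) < a1 := by exact_mod_cast h.a1_pos
  have e1 : (PZ z).filter (· ∣ a1) = a1.primeFactors := by
    ext p
    rw [mem_filter, mem_PZ (a0.le.trans hz), Nat.mem_primeFactors]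
    exact ⟨fun k => ⟨k.1.1, k.2, h.a1_pos.ne'⟩, fun k => ⟨⟨k.1, le_trans
      (by exact_mod_cast Nat.le_of_dvd h.a1_pos k.2.1) hz⟩, k.2.1⟩⟩
  have e2 : (a1.totient : ℝ) = a1 * ∏ p ∈ a1.primeFactors, (1 - (p : ℝ)⁻¹) := by
    have := congrArg (Rat.cast : ℚ → ℝ) (Nat.totient_eq_mul_prod_factors a1)
    push_cast at this
    exact this
  have e3 : Vz z = (∏ p ∈ a1.primeFactors, (1 - (p : ℝ)⁻¹)) *
      ∏ p ∈ (PZ z).filter (¬ · ∣ a1), (1 - (p : ℝ)⁻¹) := by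
    rw [← e1, prod_filter_mul_prod_filter_not]; rfl
  have f0 : ∀ p : ℕ, p.Prime → 0 < 1 - (p : ℝ)⁻¹ := fun p hp =>
    sub_pos.2 (inv_lt_one_of_one_lt₀ (by exact_mod_cast hp.one_lt))
  have g1 := prod_pos fun p (hp : p ∈ a1.primeFactors) => f0 p (Nat.prime_of_mem_primeFactors hp)
  have g2 := prod_pos fun p (hp : p ∈ (PZ z).filter (¬ · ∣ a1)) => f0 p (PZ_prime (mem_filter.1 hp).1)
  have g3 := prod_le_one (fun p (hp : p ∈ (PZ z).filter (¬ · ∣ a1)) =>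
    (f0 p (PZ_prime (mem_filter.1 hp).1)).le) fun p _ => sub_le_self _ (by positivity)
  rw [prod_congr rfl fun p hp => PL_loc h (PZ_prime hp), prod_mul_distrib, prod_ite, prod_const_one,
    e2, e3]
  generalize ∏ p ∈ a1.primeFactors, (1 - (p : ℝ)⁻¹) = u at *
  generalize ∏ p ∈ (PZ z).filter (¬ · ∣ a1), (1 - (p : ℝ)⁻¹) = v at *
  refine ⟨by field_simp, ?_⟩
  rw [div_mul_cancel_left₀ a0.ne']
  exact inv_anti₀ (mul_pos g1 g2) (mul_le_of_le_one_right g1.le g3)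

lemma PL_prod {P S1 S2 : Finset ℕ} {ρ ρ0 : ℕ → ℝ} {H0 : ℝ} (h0 : 0 < H0) (h1 : S1 ⊆ P) (h2 : S2 ⊆ P)
    (r0 : ∀ p ∈ P, 0 ≤ ρ0 p ∧ ρ0 p ≤ 1 ∧ ρ0 p ≤ 2 * (p : ℝ)⁻¹) (r1 : ∀ p ∈ S1, ρ p = 0)
    (r2 : ∀ p ∈ P, p ∉ S1 → ρ p = ρ0 p) (r3 : ∀ p ∈ S1 ∪ S2, H0 ≤ p)
    (r4 : ∀ p ∈ S2, ρ0 p * (1 - (p : ℝ)⁻¹) = (p : ℝ)⁻¹) :
    ∏ p ∈ S2, ρ p ≤ 2 ^ S2.card * ∏ p ∈ S2, (p : ℝ)⁻¹ ∧
    |(∏ p ∈ S2, ρ p) * ∏ p ∈ P \ S2, (1 - ρ p) - (∏ p ∈ S2, (p : ℝ)⁻¹) * ∏ p ∈ P, (1 - ρ0 p)|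
      ≤ (∏ p ∈ S2, (p : ℝ)⁻¹) * (2 ^ S2.card * (S2.card / H0) + 2 * (S1.card + S2.card) / H0 +
        if Disjoint S1 S2 then 0 else 1) := by
  have i0 : 0 ≤ ∏ p ∈ S2, (p : ℝ)⁻¹ := by positivity
  have W : ∀ T ⊆ P, 0 ≤ ∏ p ∈ T, (1 - ρ0 p) ∧ ∏ p ∈ T, (1 - ρ0 p) ≤ 1 := fun T hT =>
    ⟨prod_nonneg fun p hp => sub_nonneg.2 (r0 p (hT hp)).2.1, prod_le_one
      (fun p hp => sub_nonneg.2 (r0 p (hT hp)).2.1) fun p hp => sub_le_self _ (r0 p (hT hp)).1⟩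
  have t1 : 0 ≤ (2 : ℝ) ^ S2.card * (S2.card / H0) := by positivity
  have t2 : 0 ≤ 2 * ((S1.card : ℝ) + S2.card) / H0 := by positivity
  split_ifs with hd
  swap
  · obtain ⟨p, p1, p2⟩ := not_disjoint_iff.mp hd
    rw [prod_eq_zero p2 (r1 p p1), zero_mul, zero_sub, abs_neg,
      abs_of_nonneg (mul_nonneg i0 (W P le_rfl).1)]
    exact ⟨by positivity, mul_le_mul_of_nonneg_left (by linarith only [t1, t2, (W P le_rfl).2]) i0⟩
  have hU := union_subset h1 h2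
  have e1 : ∏ p ∈ S2, ρ p = ∏ p ∈ S2, ρ0 p :=
    prod_congr rfl fun p hp => r2 p (h2 hp) (disjoint_right.1 hd hp)
  have e2 : ∏ p ∈ P \ S2, (1 - ρ p) = ∏ p ∈ P \ (S1 ∪ S2), (1 - ρ0 p) := by
    rw [← prod_subset (sdiff_subset_sdiff le_rfl subset_union_right : P \ (S1 ∪ S2) ⊆ P \ S2)]
    · exact prod_congr rfl fun p hp => by
        rw [r2 p (mem_sdiff.1 hp).1 fun k => (mem_sdiff.1 hp).2 (mem_union_left _ k)]
    · intro p p1 p2
      rw [r1 p (by simp only [mem_sdiff, mem_union] at p1 p2; tauto), sub_zero]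
  have e3 : (∏ p ∈ S2, ρ0 p) * ∏ p ∈ S2, (1 - (p : ℝ)⁻¹) = ∏ p ∈ S2, (p : ℝ)⁻¹ := by
    rw [← prod_mul_distrib]; exact prod_congr rfl r4
  have b1 : ∏ p ∈ S2, ρ0 p ≤ 2 ^ S2.card * ∏ p ∈ S2, (p : ℝ)⁻¹ := by
    rw [← prod_const, ← prod_mul_distrib]
    exact prod_le_prod (fun p hp => (r0 p (h2 hp)).1) fun p hp => (r0 p (h2 hp)).2.2
  have b0 : 0 ≤ ∏ p ∈ S2, ρ0 p := prod_nonneg fun p hp => (r0 p (h2 hp)).1
  have q1 : ∀ p : ℕ, (p : ℝ)⁻¹ ≤ 1 := fun p => Nat.cast_inv_le_one p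
  have b2 : 1 - S2.card / H0 ≤ ∏ p ∈ S2, (1 - (p : ℝ)⁻¹) := by
    refine le_trans ?_ (TB_one_sub_sum _ _ (fun _ _ => by positivity) fun p _ => q1 p)
    have := sum_le_card_nsmul S2 (fun p => (p : ℝ)⁻¹) H0⁻¹ fun p hp =>
      inv_anti₀ h0 (r3 p (mem_union_right _ hp))
    rw [nsmul_eq_mul, ← div_eq_mul_inv] at this
    linarith only [this]
  have b3 : ∏ p ∈ S2, (1 - (p : ℝ)⁻¹) ≤ 1 :=
    prod_le_one (fun p _ => sub_nonneg.2 (q1 p)) fun p _ => sub_le_self _ (by positivity)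
  have b4 : 1 - 2 * ((S1.card : ℝ) + S2.card) / H0 ≤ ∏ p ∈ S1 ∪ S2, (1 - ρ0 p) := by
    refine le_trans ?_ (TB_one_sub_sum _ _ (fun p hp => (r0 p (hU hp)).1) fun p hp =>
      (r0 p (hU hp)).2.1)
    have := sum_le_card_nsmul (S1 ∪ S2) ρ0 (2 * H0⁻¹) fun p hp => (r0 p (hU hp)).2.2.trans
      (mul_le_mul_of_nonneg_left (inv_anti₀ h0 (r3 p hp)) zero_le_two)
    rw [card_union_of_disjoint hd, nsmul_eq_mul] at this
    push_cast at this
    rw [div_eq_mul_inv]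
    linarith only [this]
  obtain ⟨w1, w2⟩ := W (P \ (S1 ∪ S2)) sdiff_subset
  have w3 := (W _ hU).2
  rw [e1, e2, ← prod_sdiff hU]
  refine ⟨b1, ?_⟩
  generalize ∏ p ∈ P \ (S1 ∪ S2), (1 - ρ0 p) = W' at *
  generalize ∏ p ∈ S1 ∪ S2, (1 - ρ0 p) = β at *
  generalize ∏ p ∈ S2, (1 - (p : ℝ)⁻¹) = α at *
  generalize ∏ p ∈ S2, ρ0 p = r at *
  generalize ∏ p ∈ S2, (p : ℝ)⁻¹ = i at *
  have d1 : r * (1 - α) ≤ 2 ^ S2.card * i * (S2.card / H0) :=
    mul_le_mul b1 (by linarith only [b2]) (by linarith) (by positivity)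
  have d2 := mul_nonneg b0 (sub_nonneg.2 b3)
  have d3 := mul_le_of_le_one_right d2 w2
  have d4 := mul_nonneg d2 w1
  have d5 := mul_nonneg i0 (sub_nonneg.2 w3)
  have d6 := mul_le_of_le_one_right d5 w2
  have d7 := mul_nonneg d5 w1
  have d8 := mul_le_mul_of_nonneg_left (show 1 - β ≤ 2 * ((S1.card : ℝ) + S2.card) / H0 by linarith only [b4]) i0
  rw [show r * W' - i * (W' * β) = r * (1 - α) * W' + i * (1 - β) * W' by rw [← e3]; ring,
    abs_of_nonneg (by linarith only [d4, d7])]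
  linarith only [d1, d3, d6, d8]

end Pool.Agent.Work.MP_d018b2_nt.R
end

-- merged part: Pool.Agent.Work.MP_d018b2_nt.R.PWB
section
/-! Bonferroni inequalities for a weighted set. -/

set_option autoImplicit false
open Finset

namespace Pool.Agent.Work.MP_d018b2_nt.R

open Pool.Agent.Work.MP_678620_nt

lemma wb_pt (D : ℕ → Prop) [DecidablePred D] {P S : Finset ℕ} (hS : S ⊆ P) (J : ℕ) :
    |(if ∀ p ∈ P, (D p ↔ p ∈ S) then (1 : ℝ) else 0) - ∑ T ∈ (P \ S).powerset with T.card ≤ J,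
        (-1 : ℝ) ^ T.card * (if ∀ p ∈ S ∪ T, D p then 1 else 0)|
      ≤ ∑ T ∈ (P \ S).powersetCard (J + 1), (if ∀ p ∈ S ∪ T, D p then (1 : ℝ) else 0) := by
  by_cases a : ∀ p ∈ S, D p
  · have e : ∀ T ⊆ P \ S, (∀ p ∈ S ∪ T, D p) ↔ T ⊆ (P \ S).filter D := fun T hT => by
      rw [forall_mem_union, and_iff_right a]
      exact ⟨fun h p hp => mem_filter.2 ⟨hT hp, h p hp⟩, fun h p hp => (mem_filter.1 (h hp)).2⟩
    have e1 : (∀ p ∈ P, (D p ↔ p ∈ S)) ↔ (P \ S).filter D = ∅ := by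
      rw [filter_eq_empty_iff]
      exact ⟨fun h p hp k => (mem_sdiff.1 hp).2 ((h p (mem_sdiff.1 hp).1).1 k),
        fun h p hp => ⟨fun k => by_contra fun k' => h (mem_sdiff.2 ⟨hp, k'⟩) k, a p⟩⟩
    have h := bonf_set ((P \ S).filter D) J
    have e2 : ∑ T ∈ (P \ S).powerset with T.card ≤ J,
        (-1 : ℝ) ^ T.card * (if ∀ p ∈ S ∪ T, D p then 1 else 0) =
        ∑ T ∈ ((P \ S).filter D).powerset with T.card ≤ J, (-1 : ℝ) ^ T.card := by
      simp only [mul_ite, mul_one, mul_zero]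
      rw [← sum_filter]
      refine sum_congr ?_ fun _ _ => rfl
      ext T
      simp only [mem_filter, mem_powerset]
      exact ⟨fun h => ⟨(e T h.1.1).1 h.2, h.1.2⟩, fun h => ⟨⟨h.1.trans (filter_subset _ _), h.2⟩,
        (e T (h.1.trans (filter_subset _ _))).2 h.1⟩⟩
    have e3 : ∑ T ∈ (P \ S).powersetCard (J + 1), (if ∀ p ∈ S ∪ T, D p then (1 : ℝ) else 0) =
        (((P \ S).filter D).powersetCard (J + 1)).card := by
      rw [sum_boole]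
      congr 2
      ext T
      simp only [mem_filter, mem_powersetCard]
      exact ⟨fun h => ⟨(e T h.1.1).1 h.2, h.1.2⟩, fun h => ⟨⟨h.1.trans (filter_subset _ _), h.2⟩,
        (e T (h.1.trans (filter_subset _ _))).2 h.1⟩⟩
    rw [e2, e3, if_congr e1 rfl rfl]
    exact h
  · have e : ∀ T, ¬ ∀ p ∈ S ∪ T, D p := fun T h => a fun p hp => h p (mem_union_left _ hp)
    rw [if_neg fun h => a fun p hp => (h p (hS hp)).2 hp]
    simp only [if_neg (e _)]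
    simp

lemma abs_neg_one_pow_mul (n : ℕ) (x : ℝ) : |(-1 : ℝ) ^ n * x| = |x| := by
  rw [abs_mul, abs_pow, abs_neg, abs_one, one_pow, one_mul]

theorem wbonf {ι : Type*} (I : Finset ι) (μ : ι → ℝ) (hμ : ∀ n ∈ I, 0 ≤ μ n) (D : ι → ℕ → Prop)
    [∀ n, DecidablePred (D n)] {P S : Finset ℕ} (hS : S ⊆ P) {ρ : ℕ → ℝ} (ρ0 : ∀ p ∈ P, 0 ≤ ρ p)
    (ρ1 : ∀ p ∈ P, ρ p ≤ 1) {Y x : ℝ} (Y0 : 0 ≤ Y) (hx : ∑ p ∈ P, ρ p ≤ x) (J : ℕ)
    (R : Finset ℕ → ℝ) (hR : ∀ T ⊆ P \ S, T.card ≤ J + 1 →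
      |∑ n ∈ I with ∀ p ∈ S ∪ T, D n p, μ n - Y * ∏ p ∈ S ∪ T, ρ p| ≤ R (S ∪ T)) :
    |∑ n ∈ I with ∀ p ∈ P, (D n p ↔ p ∈ S), μ n - Y * (∏ p ∈ S, ρ p) * ∏ p ∈ P \ S, (1 - ρ p)|
      ≤ 2 * (Y * ∏ p ∈ S, ρ p) * (x ^ (J + 1) / (J + 1).factorial)
        + ∑ T ∈ (P \ S).powerset with T.card ≤ J + 1, R (S ∪ T) := by
  have g0 : ∀ p ∈ P \ S, 0 ≤ ρ p := fun p hp => ρ0 p (mem_sdiff.1 hp).1
  have y0 : 0 ≤ Y * ∏ p ∈ S, ρ p := mul_nonneg Y0 (prod_nonneg fun p hp => ρ0 p (hS hp))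
  have hR' : ∀ T ⊆ P \ S, T.card ≤ J + 1 → |∑ n ∈ I, μ n * (if ∀ p ∈ S ∪ T, D n p then 1 else 0)
      - (Y * ∏ p ∈ S, ρ p) * ∏ p ∈ T, ρ p| ≤ R (S ∪ T) := fun T hT hc => by
    have := hR T hT hc
    rw [prod_union (disjoint_of_subset_right hT disjoint_sdiff), ← mul_assoc, sum_filter] at this
    simpa only [mul_ite, mul_one, mul_zero] using this
  have a1 := (abs_sum_le_sum_abs _ I).trans (sum_le_sum fun n hn => (abs_mul _ _).trans_le
    ((mul_le_mul_of_nonneg_left (wb_pt (D n) hS J) (abs_nonneg (μ n))).trans_eq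
      (by rw [abs_of_nonneg (hμ n hn)])))
  simp only [mul_sub, sum_sub_distrib, mul_sum] at a1
  rw [sum_comm (s := I), sum_comm (s := I)] at a1
  have a2 := (abs_sum_le_sum_abs _ _).trans (sum_le_sum (s := (P \ S).powerset.filter
    fun T => T.card ≤ J) fun T hT => (abs_neg_one_pow_mul T.card _).trans_le
      (hR' T (mem_powerset.1 (mem_filter.1 hT).1) (Nat.le_succ_of_le (mem_filter.1 hT).2)))
  have a3 := sum_le_sum (s := (P \ S).powersetCard (J + 1)) fun T hT => (abs_le.1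
    (hR' T (mem_powersetCard.1 hT).1 (mem_powersetCard.1 hT).2.le)).2
  have a4 := mul_le_mul_of_nonneg_left (bonf_prod (P \ S) g0 (fun p hp => ρ1 p (mem_sdiff.1 hp).1) J)
    y0
  have a5 : esym (P \ S) ρ (J + 1) ≤ x ^ (J + 1) / (J + 1).factorial := by
    refine (esym_le_pow g0 _).trans ?_
    have := sum_nonneg g0
    gcongr
    exact (sum_le_sum_of_subset_of_nonneg sdiff_subset fun p hp _ => ρ0 p hp).trans hx
  have a6 := mul_le_mul_of_nonneg_left a5 y0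
  have a7 : ∑ T ∈ (P \ S).powerset with T.card ≤ J + 1, R (S ∪ T) =
      ∑ T ∈ (P \ S).powerset with T.card ≤ J, R (S ∪ T) +
        ∑ T ∈ (P \ S).powersetCard (J + 1), R (S ∪ T) := by
    rw [← sum_union]
    · refine sum_congr ?_ fun _ _ => rfl
      ext T
      simp only [mem_filter, mem_powerset, mem_union, mem_powersetCard, ← and_or_left]
      exact and_congr_right fun _ => by omega
    · exact disjoint_left.2 fun T h1 h2 => by
        have := (mem_filter.1 h1).2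
        have := (mem_powersetCard.1 h2).2
        omega
  rw [← abs_of_nonneg y0, ← abs_mul, abs_of_nonneg y0, ← sum_powerset_le_card, mul_sub,
    mul_sum] at a4
  rw [sum_sub_distrib, ← mul_sum] at a3
  simp only [mul_sub, sum_sub_distrib, mul_sum] at a2
  rw [sum_filter, a7]
  simp only [mul_ite, mul_one, mul_zero, mul_left_comm ((-1 : ℝ) ^ _)] at a1 a2 a3 a4
  rw [← esym] at a3
  simp only [mul_comm (μ _)] at a1
  rw [abs_le] at *
  constructor <;> linarith only [a4, a6, a2, a3, a1, a1.1, a1.2, a2.1, a2.2, a4.1, a4.2]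

lemma wb_mult {E P : Finset ℕ} (hE : E ⊆ P) (k J : ℕ) (R : Finset ℕ → ℝ) (R0 : ∀ U, 0 ≤ R U) :
    ∑ S ∈ E.powersetCard k, ∑ T ∈ (P \ S).powerset with T.card ≤ J, R (S ∪ T)
      ≤ 2 ^ (k + J) * ∑ U ∈ P.powerset with U.card ≤ k + J, R U := by
  rw [sum_sigma', ← sum_fiberwise_of_maps_to (t := P.powerset.filter fun U => U.card ≤ k + J)
    (g := fun x : (Σ _ : Finset ℕ, Finset ℕ) => x.1 ∪ x.2), mul_sum]
  · refine sum_le_sum fun U hU => ?_
    rw [sum_congr rfl (g := fun _ => R U) fun x hx => by rw [(mem_filter.1 hx).2], sum_const,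
      nsmul_eq_mul]
    refine mul_le_mul_of_nonneg_right ?_ (R0 U)
    have h1 := card_le_card_of_injOn (s := (((E.powersetCard k).sigma fun S =>
        (P \ S).powerset.filter fun T => T.card ≤ J).filter fun x => x.1 ∪ x.2 = U))
      (t := U.powerset) (fun x => x.1) (fun x hx => by
        rw [mem_coe, mem_filter] at hx
        exact mem_coe.2 (mem_powerset.2 (hx.2 ▸ subset_union_left))) (by
        rintro ⟨S, T⟩ hx ⟨S', T'⟩ hy h
        simp only [coe_filter, mem_sigma, mem_filter, mem_powerset, Set.mem_ofPred_eq] at hx hy h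
        subst h
        congr 1
        rw [← union_sdiff_cancel_left (disjoint_of_subset_right hx.1.2.1 disjoint_sdiff), hx.2,
          ← hy.2, union_sdiff_cancel_left (disjoint_of_subset_right hy.1.2.1 disjoint_sdiff)])
    rw [card_powerset] at h1
    exact_mod_cast h1.trans (Nat.pow_le_pow_right two_pos (mem_filter.1 hU).2)
  · rintro ⟨S, T⟩ hx
    simp only [mem_sigma, mem_filter, mem_powerset, mem_powersetCard] at hx ⊢
    exact ⟨union_subset (hx.1.1.trans hE) (hx.2.1.trans sdiff_subset),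
      (card_union_le _ _).trans (by omega)⟩

end Pool.Agent.Work.MP_d018b2_nt.R
end

-- merged part: Pool.Agent.Work.MP_d018b2_nt.R.PCount
section
/-! Prime cofactors of the first form against the sieve model of the second form. -/

set_option autoImplicit false
open Finset

namespace Pool.Agent.Work.MP_d018b2_nt.R

open Pool.Agent.Work.MP_678620_nt Pool.Agent.Work.MP_52820d_nt

lemma PC_dvd {S : Finset ℕ} (hS : ∀ q ∈ S, q.Prime) {p : ℕ} (hp : p.Prime) :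
    p ∣ ∏ q ∈ S, q ↔ p ∈ S := by
  refine ⟨fun h => ?_, fun h => dvd_prod_of_mem _ h⟩
  obtain ⟨q, hq, h⟩ := (Prime.dvd_finsetProd_iff hp.prime _).1 h
  rwa [(Nat.prime_dvd_prime_iff_eq hp (hS q hq)).1 h]

lemma PC_lev {z : ℝ} (hz : 1 ≤ z) {a K F : ℕ} (hF : a * z ^ K ≤ F) {U : Finset ℕ} (hU : U ⊆ PZ z)
    (hK : U.card ≤ K) : a * ∏ p ∈ U, p ≤ F := by
  have : ∏ p ∈ U, (p : ℝ) ≤ z ^ K := by
    refine le_trans ?_ (pow_le_pow_right₀ hz hK)
    rw [← prod_const]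
    exact prod_le_prod (fun _ _ => Nat.cast_nonneg _) fun p hp =>
      ((mem_PZ (by linarith)).1 (hU hp)).2
  have h := (mul_le_mul_of_nonneg_left this (Nat.cast_nonneg a)).trans hF
  rwa [← Nat.cast_prod, ← Nat.cast_mul, Nat.cast_le] at h

lemma PC_err {z : ℝ} (hz : 1 ≤ z) {a K F : ℕ} (ha : 0 < a) (hF : a * z ^ K ≤ F) {e : ℕ → ℝ}
    (e0 : ∀ q, 0 ≤ e q) :
    ∑ U ∈ (PZ z).powerset with U.card ≤ K, e (a * ∏ p ∈ U, p) ≤ ∑ q ∈ Icc 1 F, e q := by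
  rw [← sum_image (g := fun U : Finset ℕ => a * ∏ p ∈ U, p)]
  · refine sum_le_sum_of_subset_of_nonneg (fun q hq => ?_) fun _ _ _ => e0 _
    obtain ⟨U, hU, rfl⟩ := mem_image.1 hq
    rw [mem_filter, mem_powerset] at hU
    exact mem_Icc.2 ⟨Nat.mul_pos ha (prod_pos fun p hp => (PZ_prime (hU.1 hp)).pos),
      PC_lev hz hF hU.1 hU.2⟩
  · intro U hU U' hU' h
    rw [mem_coe, mem_filter, mem_powerset] at hU hU'
    rw [← Nat.primeFactors_prod fun p hp => PZ_prime (hU.1 hp), Nat.eq_of_mul_eq_mul_left ha h,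
      Nat.primeFactors_prod fun p hp => PZ_prime (hU'.1 hp)]

lemma PC_split {z : ℝ} {E : Finset ℕ} (hE : E ⊆ PZ z) (k : ℕ) (I : Finset ℤ) (u : ℤ → ℤ)
    (g : ℤ → ℝ) : ∑ n ∈ I with RE z E k (u n), g n = ∑ S ∈ E.powersetCard k,
      ∑ n ∈ I with ∀ p ∈ PZ z, ((p : ℤ) ∣ u n ↔ p ∈ S), g n := by
  rw [← sum_fiberwise_of_maps_to (t := E.powersetCard k)
    (g := fun n : ℤ => E.filter fun p : ℕ => (p : ℤ) ∣ u n) fun n hn =>
      mem_powersetCard.mpr ⟨filter_subset _ _, (mem_filter.1 hn).2.1⟩]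
  refine sum_congr rfl fun T hT => ?_
  obtain ⟨t1, t2⟩ := mem_powersetCard.1 hT
  rw [filter_filter]
  refine sum_congr (filter_congr fun n _ => ?_) fun _ _ => rfl
  constructor
  · rintro ⟨r, rfl⟩ p hp
    exact ⟨fun d => mem_filter.mpr ⟨r.2 p hp d, d⟩, fun d => (mem_filter.mp d).2⟩
  · intro r
    have : (E.filter fun p : ℕ => (p : ℤ) ∣ u n) = T := by
      ext p
      rw [mem_filter]
      exact ⟨fun d => (r p (hE d.1)).mp d.2, fun d => ⟨t1 d, (r p (hE (t1 d))).mpr d⟩⟩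
    exact ⟨⟨by rw [wE, this, t2], fun p hp d => t1 ((r p hp).mp d)⟩, this⟩

lemma PC_one {B z H0 x η : ℝ} {E S1 : Finset ℕ} {a1 a2 k1 k2 a b N F : ℕ} {b1 b2 α : ℤ}
    (h : Lin B a1 a2 b1 b2) (hz : 1 ≤ z) (h0 : 0 < H0)
    (hE : ∀ p ∈ E, p ∈ PZ z ∧ 2 * B ^ 2 < p ∧ H0 ≤ p) (hS1 : S1 ∈ E.powersetCard k1)
    (hx : 2 * ∑ p ∈ PZ z, (p : ℝ)⁻¹ ≤ x) (J : ℕ) (hF : a1 * z ^ (k2 + (J + 1)) ≤ F)
    (ha : (a : ℤ) = (a1 * α + b1) / (∏ q ∈ S1, q : ℕ))
    (hb : (b : ℤ) = (a1 * (α + N) + b1) / (∏ q ∈ S1, q : ℕ)) (za : z ≤ a) (hBV : BVok a b F η) :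
    |∑ n ∈ Ioc α (α + N) with RE z E k2 (a2 * n + b2), mu (∏ q ∈ S1, q) (a1 * n + b1)
      - N * (a1 / a1.totient) * (∏ p ∈ S1, (p : ℝ)⁻¹) * ek E k2 *
        ∏ p ∈ PZ z, (1 - rho a1 (a2 * (a1 * b2 - a2 * b1)) p)|
      ≤ N * (a1 / a1.totient) * ∑ S2 ∈ E.powersetCard k2,
          (∏ p ∈ S1, (p : ℝ)⁻¹) * (∏ p ∈ S2, (p : ℝ)⁻¹) * (2 ^ k2 * (k2 / H0) + 2 * (k1 + k2) / H0
            + 2 ^ k2 * (2 * (x ^ (J + 1) / (J + 1).factorial)) + if Disjoint S1 S2 then 0 else 1)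
        + 2 ^ (k2 + (J + 1)) * η := by
  obtain ⟨e, e0, e1, e2⟩ := hBV
  obtain ⟨s1, c1⟩ := mem_powersetCard.mp hS1
  have EP : E ⊆ PZ z := fun p hp => (hE p hp).1
  have pS : ∀ q ∈ S1, q.Prime := fun q hq => PZ_prime (EP (s1 hq))
  have d0 : 0 < ∏ q ∈ S1, q := prod_pos fun q hq => (pS q hq).pos
  have hda : Nat.Coprime (∏ q ∈ S1, q) a1 := Nat.Coprime.prod_left fun q hq =>
    Nat.coprime_of_lt_prime h.a1_pos.ne' (h.big (hE q (s1 hq)).2.1).1 (pS q hq)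
  have x0 : 0 ≤ x := le_trans (by positivity) hx
  have eY : (a1 * N / (∏ q ∈ S1, q : ℕ) / a1.totient : ℝ) =
      N * (a1 / a1.totient) * ∏ p ∈ S1, (p : ℝ)⁻¹ := by
    rw [Nat.cast_prod, prod_inv_distrib]; ring
  have Y0 : 0 ≤ N * (a1 / a1.totient) * ∏ p ∈ S1, (p : ℝ)⁻¹ := by positivity
  have b3 := mul_le_mul_of_nonneg_left ((PC_err hz h.a1_pos hF e0).trans e1)
    (show (0 : ℝ) ≤ 2 ^ (k2 + (J + 1)) by positivity)
  refine le_trans ?_ (add_le_add_right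
    ((wb_mult EP k2 (J + 1) (fun U => e (a1 * ∏ p ∈ U, p)) fun _ => e0 _).trans b3) _)
  rw [PC_split EP, ek, esym, mul_sum, sum_mul, ← sum_sub_distrib, mul_sum, ← sum_add_distrib]
  refine (abs_sum_le_sum_abs _ _).trans (sum_le_sum fun S2 hS2 => ?_)
  obtain ⟨s2, c2⟩ := mem_powersetCard.mp hS2
  have w1 := wbonf (Ioc α (α + N)) (fun n => mu (∏ q ∈ S1, q) (a1 * n + b1))
    (fun _ _ => mu_nonneg _ _) (fun n p => (p : ℤ) ∣ a2 * n + b2) (s2.trans EP)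
    (ρ := rho a1 (a2 * (a1 * b2 - a2 * b1) * (∏ q ∈ S1, q : ℕ)))
    (fun p hp => (rho_bd _ _ (PZ_prime hp)).1) (fun p hp => (rho_bd _ _ (PZ_prime hp)).2.1) Y0
    (x := x) (le_trans (by
      rw [mul_sum]; exact sum_le_sum fun p hp => (rho_bd _ _ (PZ_prime hp)).2.2) hx) J
    (fun U => e (a1 * ∏ p ∈ U, p)) fun T hT hc => by
      have hU := union_subset (s2.trans EP) (hT.trans sdiff_subset)
      rw [← eY]
      exact PT_theta h d0 hda (fun p hp k => (h.big (hE p (s1 ((PC_dvd pS hp).1 k))).2.1).2.2)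
        ha hb e0 e2 (fun p hp => ⟨PZ_prime (hU hp), by
          exact_mod_cast ((mem_PZ (by linarith only [hz])).1 (hU hp)).2.trans za⟩)
        (PC_lev hz hF hU ((card_union_le _ _).trans (by omega)))
  have b8 := PL_prod (ρ := rho a1 (a2 * (a1 * b2 - a2 * b1) * (∏ q ∈ S1, q : ℕ)))
    (ρ0 := rho a1 (a2 * (a1 * b2 - a2 * b1))) h0 (s1.trans EP) (s2.trans EP)
    (fun p hp => rho_bd _ _ (PZ_prime hp))
    (fun p hp => if_pos ((Int.natCast_dvd_natCast.2 (dvd_prod_of_mem _ hp)).mul_left _))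
    (fun p hp k => if_congr (((Nat.prime_iff_prime_int.1 (PZ_prime hp)).dvd_mul).trans
      (or_iff_left fun k' => k ((PC_dvd pS (PZ_prime hp)).1 (Int.natCast_dvd_natCast.1 k'))))
      rfl rfl)
    (fun p hp => (hE p (union_subset s1 s2 hp)).2.2) fun p hp => by
      obtain ⟨u1, u2, u3⟩ := h.big (hE p (s2 hp)).2.1
      have pp := PZ_prime (EP (s2 hp))
      have p2 : (2 : ℝ) ≤ p := by exact_mod_cast pp.two_le
      rw [rho, if_neg fun k => ((Nat.prime_iff_prime_int.1 pp).dvd_or_dvd k).elim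
        (TB_nd h.a2_pos u2) u3, if_neg fun k => absurd (Nat.le_of_dvd h.a1_pos k) (by omega)]
      have : (p : ℝ) - 1 ≠ 0 := by linarith only [p2]
      field_simp
  rw [c1, c2] at b8
  obtain ⟨b4, b5⟩ := b8
  have b6 := mul_le_mul_of_nonneg_left b5 Y0
  have b7 := mul_le_mul_of_nonneg_right (mul_le_mul_of_nonneg_left b4 Y0)
    (show 0 ≤ 2 * (x ^ (J + 1) / (J + 1).factorial) by positivity)
  rw [← abs_of_nonneg Y0, ← abs_mul, abs_of_nonneg Y0] at b6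
  rw [abs_le] at *
  constructor <;> linarith only [w1, b6, b7, w1.1, w1.2, b6.1, b6.2]

theorem PC_count {B z H0 x η : ℝ} {E : Finset ℕ} {a1 a2 : ℕ} (k1 k2 : ℕ) {b1 b2 : ℤ}
    (h : Lin B a1 a2 b1 b2) (hz : 1 ≤ z) (h0 : 0 < H0) (haz : (a1 : ℝ) ≤ z) (η0 : 0 ≤ η)
    (hE : ∀ p ∈ E, p ∈ PZ z ∧ 2 * B ^ 2 < p ∧ H0 ≤ p)
    (hx : 2 * ∑ p ∈ PZ z, (p : ℝ)⁻¹ ≤ x) (J F : ℕ) (hF : a1 * z ^ (k2 + (J + 1)) ≤ F) (α : ℤ)
    (N : ℕ) (hBV : ∀ S ∈ E.powersetCard k1, ∃ a b : ℕ, (a : ℤ) = (a1 * α + b1) / (∏ q ∈ S, q : ℕ) ∧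
      (b : ℤ) = (a1 * (α + N) + b1) / (∏ q ∈ S, q : ℕ) ∧ z ≤ a ∧
        BVok a b F (η * ∏ p ∈ S, (p : ℝ)⁻¹)) :
    |∑ n ∈ Ioc α (α + N) with RE z E k2 (a2 * n + b2),
        ∑ S ∈ E.powersetCard k1, mu (∏ q ∈ S, q) (a1 * n + b1)
      - N * (ek E k1 * ek E k2) * ((Vz z)⁻¹ * ∏ p ∈ PZ z, (1 - (om a1 a2 b1 b2 p : ℝ) / p))|
      ≤ N * (Vz z)⁻¹ * Real.exp (∑ q ∈ E, (q : ℝ)⁻¹) ^ 2 *
          (2 ^ k2 * (3 * (k1 + k2) / H0 + 2 * (x ^ (J + 1) / (J + 1).factorial)))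
        + 2 ^ (k2 + (J + 1)) * η * Real.exp (∑ q ∈ E, (q : ℝ)⁻¹) := by
  have x0 : 0 ≤ x := le_trans (by positivity) hx
  obtain ⟨g1, g2⟩ := PL_glob h haz
  have a := (abs_sum_le_sum_abs _ _).trans (sum_le_sum (s := E.powersetCard k1) fun S hS => by
    obtain ⟨a, b, u1, u2, u3, u4⟩ := hBV S hS
    exact PC_one (k2 := k2) h hz h0 hE hS hx J hF u1 u2 u3 u4)
  have m : ek E k1 * ek E k2 = ∑ S1 ∈ E.powersetCard k1, ∑ S2 ∈ E.powersetCard k2,
      (∏ p ∈ S1, (p : ℝ)⁻¹) * ∏ p ∈ S2, (p : ℝ)⁻¹ := by rw [ek, ek, esym, esym, sum_mul_sum]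
  have m0 : ek E k1 ≤ Real.exp (∑ q ∈ E, (q : ℝ)⁻¹) := esym_le_exp (fun _ _ => by positivity) k1
  have m1 : ek E k1 * ek E k2 ≤ Real.exp (∑ q ∈ E, (q : ℝ)⁻¹) ^ 2 := by
    rw [sq]
    exact mul_le_mul m0 (esym_le_exp (fun _ _ => by positivity) k2) (ek_nonneg _ _)
      (Real.exp_pos _).le
  have m2 := TB_overlap h0 (fun p hp => (hE p hp).2.2) k1 k2
  have f : ∀ ν c i : ℝ, ν * (c + i) = c * ν + ν * i := fun _ _ _ => by ring
  rw [sum_sub_distrib, sum_comm, ← sum_mul, ← sum_mul, ← mul_sum] at a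
  simp only [f _ (_ + _ + _ : ℝ), sum_add_distrib, ← mul_sum] at a
  simp only [mul_sum (E.powersetCard k2), ← m] at a
  rw [g1]
  refine le_trans (le_of_eq ?_) (a.trans ?_)
  · congr 2
    rw [ek, esym]; ring
  have v0 := (inv_pos.mpr (Vz_pos z)).le
  have w : (1 : ℝ) ≤ 2 ^ k2 := one_le_pow₀ one_le_two
  set t := x ^ (J + 1) / ((J + 1).factorial : ℝ) with ht
  have t0 : 0 ≤ t := by positivity
  have k1' : 0 ≤ (k1 : ℝ) / H0 := by positivity
  have k2' : 0 ≤ (k2 : ℝ) / H0 := by positivity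
  rw [mul_assoc, mul_assoc (N * (Vz z)⁻¹), mul_assoc (N : ℝ) (Vz z)⁻¹, mul_assoc _ η]
  refine add_le_add (mul_le_mul_of_nonneg_left (mul_le_mul g2 ?_ ?_ v0) (Nat.cast_nonneg N))
    (mul_le_mul_of_nonneg_left (mul_le_mul_of_nonneg_left m0 η0) (by positivity))
  · refine (add_le_add (mul_le_mul_of_nonneg_left m1 (by positivity)) m2).trans ?_
    rw [mul_comm, ← mul_add]
    refine mul_le_mul_of_nonneg_left ?_ (by positivity)
    have u1 := mul_le_mul_of_nonneg_right w k1'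
    have u2 := mul_le_mul_of_nonneg_right w k2'
    rw [mul_div_assoc, mul_div_assoc, add_div]
    linarith only [u1, u2]
  · exact add_nonneg (mul_nonneg (by positivity) (mul_nonneg (ek_nonneg _ _) (ek_nonneg _ _)))
      (sum_nonneg fun _ _ => sum_nonneg fun _ _ => by split_ifs <;> positivity)

end Pool.Agent.Work.MP_d018b2_nt.R
end

-- merged part: Pool.Agent.Work.MP_d018b2_nt.R.PSum
section
/-! From the correlation to the counts. -/

set_option autoImplicit false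
open Finset

namespace Pool.Agent.Work.MP_d018b2_nt.R

open Pool.Agent.Work.MP_678620_nt Pool.Agent.Work.MP_52820d_nt

lemma mu_eq {d p : ℕ} (hd : d ≠ 0) : mu d (d * p : ℕ) = th p := by
  rw [mu, Nat.cast_mul, if_pos (dvd_mul_right _ _),
    Int.mul_ediv_cancel_left _ (by exact_mod_cast hd), Int.toNat_natCast]

lemma mu_ne {d n : ℕ} (hn : n ≠ 0) (h : mu d n ≠ 0) : ∃ p : ℕ, p.Prime ∧ d * p = n := by
  have k : d ∣ n := Int.natCast_dvd_natCast.1 (by_contra fun k => h (if_neg k))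
  obtain ⟨p, rfl⟩ := k
  rw [mu_eq (left_ne_zero_of_mul hn)] at h
  exact ⟨p, by_contra fun k => h (if_neg k), rfl⟩

lemma mu_sum {z l δ h1 : ℝ} {E : Finset ℕ} {k : ℕ} {u : ℤ} (z0 : 0 < z)
    (hE : ∀ p ∈ E, p.Prime ∧ (p : ℝ) ≤ z ∧ Real.log p ≤ h1) (hu : 0 < u)
    (hlo : (1 - δ) * l + k * h1 ≤ Real.log u) (hhi : Real.log u ≤ (1 + δ) * l)
    (hz : Real.log z < (1 - δ) * l) :
    (PE E k u → |∑ S ∈ E.powersetCard k, mu (∏ q ∈ S, q) u - l| ≤ δ * l) ∧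
      (¬ PE E k u → ∑ S ∈ E.powersetCard k, mu (∏ q ∈ S, q) u = 0) := by
  lift u to ℕ using hu.le with n
  have hn : n ≠ 0 := by rintro rfl; simp at hu
  have hE2 : ∀ p ∈ E, p.Prime ∧ (p : ℝ) ≤ z := fun p hp => ⟨(hE p hp).1, (hE p hp).2.1⟩
  have hE3 : ∀ p ∈ E, p.Prime ∧ Real.log p ≤ h1 := fun p hp => ⟨(hE p hp).1, (hE p hp).2.2⟩
  rw [Int.cast_natCast] at hlo hhi
  have big : ∀ S ∈ E.powersetCard k, ∀ t : ℕ, (∏ q ∈ S, q) * t = n → z < t ∧
      |Real.log t - l| ≤ δ * l := fun S hS t e => by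
    have t1 : t ≠ 0 := fun h => hn (by rw [← e, h, mul_zero])
    obtain ⟨b1, b2⟩ := TB_log_cof hE3 hS hn e
    refine ⟨(Real.log_lt_log_iff z0 (by exact_mod_cast Nat.pos_of_ne_zero t1)).mp (by linarith only [hz, hlo, b1]),
      abs_le.mpr ⟨by linarith, by linarith⟩⟩
  constructor
  · rintro ⟨p, hp, S, hS, e⟩
    have e' : (∏ q ∈ S, q) * p = n := by
      refine Int.natCast_inj.mp ?_
      rw [e, mul_comm]; push_cast; rfl
    obtain ⟨b1, b2⟩ := big S hS p e'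
    rw [sum_eq_single_of_mem S hS fun T hT hne => by_contra fun k => hne ?_]
    · rw [← e', mu_eq (left_ne_zero_of_mul (e' ▸ hn)), th, if_pos hp]
      exact b2
    · obtain ⟨p', hp', f⟩ := mu_ne hn k
      have c1 := (TB_K2 z0.le hE2 hn hS hp b1 e').2
      have c2 := (TB_K2 z0.le hE2 hn hT hp' (big T hT p' f).1 f).2
      rw [← c2, c1, ← e'] at f
      rw [← Nat.primeFactors_prod fun q hq => (hE q ((mem_powersetCard.1 hT).1 hq)).1,
        Nat.eq_of_mul_eq_mul_right hp.pos f,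
        Nat.primeFactors_prod fun q hq => (hE q ((mem_powersetCard.1 hS).1 hq)).1]
  · refine fun h => sum_eq_zero fun S hS => by_contra fun k => h ?_
    obtain ⟨p, hp, f⟩ := mu_ne hn k
    refine ⟨p, hp, S, hS, ?_⟩
    rw [← f, mul_comm]; push_cast; rfl

lemma PB_pair {l δ v g G1 G2 F1 F2 : ℝ} {P1 P2 R1 R2 Q1 Q2 : Prop} [Decidable P1] [Decidable P2]
    [Decidable R2] [Decidable Q1] [Decidable Q2] (δ0 : 0 ≤ δ) (δ1 : δ ≤ 1 / 2)
    (v0 : 0 ≤ v) (vl : v ≤ l) (hg : (P1 → |g - l| ≤ δ * l) ∧ (¬ P1 → g = 0))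
    (h1 : 0 ≤ G1 ∧ G1 ≤ (1 + δ) * l ∧ 0 ≤ F1 ∧ F1 ≤ v ∧ (¬ Q1 → (P1 → |G1 - l| ≤ δ * l) ∧
      (¬ P1 → G1 = 0) ∧ (R1 → F1 = v) ∧ (¬ R1 → F1 = 0)))
    (h2 : 0 ≤ G2 ∧ G2 ≤ (1 + δ) * l ∧ 0 ≤ F2 ∧ F2 ≤ v ∧ (¬ Q2 → (P2 → |G2 - l| ≤ δ * l) ∧
      (¬ P2 → G2 = 0) ∧ (R2 → F2 = v) ∧ (¬ R2 → F2 = 0))) :
    |l ^ 2 * (if P1 ∧ P2 then 1 else 0) - v * (if R2 then g else 0) - (G1 * G2 - G1 * F2)|
      ≤ 3 * δ * l ^ 2 * (if P1 ∧ P2 then 1 else 0) + 4 * δ * v * (if R2 then g else 0) +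
        6 * l ^ 2 * ((if Q1 then 1 else 0) + (if Q2 then 1 else 0)) := by
  obtain ⟨a1, a2, -, -, a5⟩ := h1
  obtain ⟨b1, b2, b3, b4, b5⟩ := h2
  have l0 : 0 ≤ l := v0.trans vl
  have l2 := sq_nonneg l
  have dl := mul_le_mul_of_nonneg_right δ1 l0
  have g0 : 0 ≤ g ∧ g ≤ 2 * l := by
    by_cases p : P1
    · have := abs_le.1 (hg.1 p); constructor <;> linarith only [v0, vl, dl, this]
    · rw [hg.2 p]; constructor <;> linarith only [v0, vl]
  have g1 : 0 ≤ (if R2 then g else 0) ∧ (if R2 then g else 0) ≤ 2 * l := by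
    split_ifs
    · exact g0
    · constructor <;> linarith only [v0, vl]
  have g2 := mul_nonneg (show 0 ≤ 4 * δ * v by positivity) g1.1
  by_cases q : Q1 ∨ Q2
  · have c1 : (1 : ℝ) ≤ (if Q1 then 1 else 0) + (if Q2 then 1 else 0) := by
      rcases q with q | q <;> rw [if_pos q] <;> split_ifs <;> norm_num
    have c2 : 0 ≤ 3 * δ * l ^ 2 * (if P1 ∧ P2 then 1 else 0) := by
      split_ifs <;> positivity
    have c3 := mul_le_mul (show G1 ≤ 2 * l by linarith only [v0, vl, a2, dl]) (show G2 ≤ 2 * l by linarith) b1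
      (by linarith)
    have c4 := mul_le_mul (show G1 ≤ 2 * l by linarith only [v0, vl, a2, dl]) (b4.trans vl) b3 (by linarith)
    have c5 := mul_le_mul vl g1.2 g1.1 l0
    have c6 := mul_nonneg a1 b1
    have c7 := mul_nonneg a1 b3
    have c8 := mul_le_mul_of_nonneg_left c1 (show 0 ≤ 6 * l ^ 2 by positivity)
    have c9 := mul_nonneg v0 g1.1
    generalize (if R2 then g else 0) = y at *
    refine le_trans ?_ (add_le_add (add_le_add c2 g2) c8)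
    split_ifs <;> rw [abs_le] <;> constructor <;> linarith only [l2, c3, c7, c5, c4, c6, c9]
  · obtain ⟨q1, q2⟩ := not_or.mp q
    obtain ⟨c1, c2, -, -⟩ := a5 q1
    obtain ⟨d1, d2, d3, d4⟩ := b5 q2
    have e1 : |v * (if R2 then g else 0) - G1 * F2| ≤ 4 * δ * v * (if R2 then g else 0) := by
      split_ifs with r
      · rw [d3 r, mul_comm G1, ← mul_sub, abs_mul, abs_of_nonneg v0, mul_comm (4 * δ), mul_assoc]
        refine mul_le_mul_of_nonneg_left ?_ v0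
        by_cases p : P1
        · have u1 := abs_le.1 (hg.1 p)
          have u2 := abs_le.1 (c1 p)
          have u3 := mul_le_mul_of_nonneg_left (show l ≤ 2 * g by linarith only [dl, u1]) δ0
          rw [abs_le]; constructor <;> linarith only [a2, u1, u3, u2]
        · rw [hg.2 p, c2 p]; simp
      · rw [d4 r]; simp
    have e2 : |l ^ 2 * (if P1 ∧ P2 then 1 else 0) - G1 * G2| ≤
        3 * δ * l ^ 2 * (if P1 ∧ P2 then 1 else 0) := by
      split_ifs with h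
      · rw [show l ^ 2 * 1 - G1 * G2 = -(l * (G1 - l) + l * (G2 - l) + (G1 - l) * (G2 - l)) by ring,
          abs_neg]
        refine (abs_add_three _ _ _).trans ?_
        rw [abs_mul, abs_mul, abs_mul, abs_of_nonneg l0]
        have x1 := mul_le_mul_of_nonneg_left (c1 h.1) l0
        have x2 := mul_le_mul_of_nonneg_left (d1 h.2) l0
        have x3 := mul_le_mul (c1 h.1) ((d1 h.2).trans (show δ * l ≤ l by linarith only [v0, vl, dl])) (abs_nonneg _)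
          (mul_nonneg δ0 l0)
        linarith only [x1, x2, x3]
      · have : G1 * G2 = 0 := by
          rcases not_and_or.mp h with h | h
          · rw [c2 h]; ring
          · rw [d2 h]; ring
        rw [this]; simp
    rw [if_neg q1, if_neg q2]
    rw [abs_le] at *
    constructor <;> linarith only [e1, e2, e1.1, e1.2, e2.1, e2.2]

lemma PB_sum {z l δ h1 η : ℝ} {E : Finset ℕ} {k1 k2 N a1 a2 : ℕ} {b1 b2 : ℤ} (δ0 : 0 ≤ δ)
    (δ1 : δ ≤ 1 / 2) (vl : (Vz z)⁻¹ ≤ l) (p1 : 0 < a1) (p2 : 0 < a2) (z1 : (a1 : ℝ) ≤ z)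
    (z2 : (a2 : ℝ) ≤ z)
    (hE : ∀ p ∈ E, p.Prime ∧ a1 < p ∧ a2 < p ∧ (p : ℝ) ≤ z ∧ Real.log p ≤ h1)
    (hz : Real.log z < (1 - δ) * l)
    (hu : ∀ n ∈ Ioc (N + -b1 / a1 : ℤ) (N + -b1 / a1 + N),
      (0 < a1 * n + b1 ∧ (1 - δ) * l + k1 * h1 ≤ Real.log (a1 * n + b1 : ℤ) ∧
        Real.log (a1 * n + b1 : ℤ) ≤ (1 + δ) * l) ∧
      0 < a2 * n + b2 ∧ (1 - δ) * l + k2 * h1 ≤ Real.log (a2 * n + b2 : ℤ) ∧
        Real.log (a2 * n + b2 : ℤ) ≤ (1 + δ) * l)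
    (H : ‖∑ m ∈ Ioc ((a1 * a2 * N : ℕ) : ℤ) (2 * (a1 * a2 * N : ℕ)),
      (if wE E m = k1 ∧ m ≡ a2 * b1 [ZMOD (a1 * a2 : ℕ)] then conv (bE a2 E) (gam z 1 w1) m else 0) *
        (if wE E (m + (a1 * b2 - a2 * b1)) = k2 then
          conv (bE a1 E) (gam z 1 w1) (m + (a1 * b2 - a2 * b1))
            - conv (bE a1 E) (flat z 1 w1) (m + (a1 * b2 - a2 * b1)) else 0)‖ ≤ η) :
    |l ^ 2 * (((Ioc (N + -b1 / a1 : ℤ) (N + -b1 / a1 + N)).filter fun n =>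
          PE E k1 (a1 * n + b1) ∧ PE E k2 (a2 * n + b2)).card : ℝ)
        - (Vz z)⁻¹ * ∑ n ∈ Ioc (N + -b1 / a1 : ℤ) (N + -b1 / a1 + N) with RE z E k2 (a2 * n + b2),
          ∑ S ∈ E.powersetCard k1, mu (∏ q ∈ S, q) (a1 * n + b1)|
      ≤ 3 * δ * l ^ 2 * ((Ioc (N + -b1 / a1 : ℤ) (N + -b1 / a1 + N)).filter fun n =>
          PE E k1 (a1 * n + b1) ∧ PE E k2 (a2 * n + b2)).card
        + 4 * δ * (Vz z)⁻¹ * ∑ n ∈ Ioc (N + -b1 / a1 : ℤ) (N + -b1 / a1 + N) with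
          RE z E k2 (a2 * n + b2), ∑ S ∈ E.powersetCard k1, mu (∏ q ∈ S, q) (a1 * n + b1)
        + 6 * l ^ 2 * (((Ioc (N + -b1 / a1 : ℤ) (N + -b1 / a1 + N)).filter fun n =>
            SqE E (a1 * n + b1)).card + ((Ioc (N + -b1 / a1 : ℤ) (N + -b1 / a1 + N)).filter fun n =>
            SqE E (a2 * n + b2)).card) + η := by
  set I := Ioc (N + -b1 / a1 : ℤ) (N + -b1 / a1 + N) with hI
  have A1 := fun n (hn : n ∈ I) => TB_single (k := k1) p2 z2
    (fun p hp => ⟨(hE p hp).1, (hE p hp).2.2.1, (hE p hp).2.2.2⟩) (hu n hn).1.1 (hu n hn).1.2.1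
    (hu n hn).1.2.2 hz
  have A2 := fun n (hn : n ∈ I) => TB_single (k := k2) p1 z1
    (fun p hp => ⟨(hE p hp).1, (hE p hp).2.1, (hE p hp).2.2.2⟩) (hu n hn).2.1 (hu n hn).2.2.1
    (hu n hn).2.2.2 hz
  have A3 := fun n (hn : n ∈ I) => mu_sum (k := k1) (lt_of_lt_of_le (by exact_mod_cast p1) z1)
    (fun p hp => ⟨(hE p hp).1, (hE p hp).2.2.2⟩) (hu n hn).1.1 (hu n hn).1.2.1 (hu n hn).1.2.2 hz
  choose! G1 F1 e1 e2 e3 using A1
  choose! G2 F2 f1 f2 f3 using A2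
  have e : ∀ m : ℤ, ∀ (x w : Prop) [Decidable x] [Decidable w] (t s : ℂ),
      (if x ∧ w then t else 0) * s = if w then (if x then t else 0) * s else 0 := by
    intro _ x w _ _ t s
    by_cases c1 : x <;> by_cases c3 : w <;> simp [c1, c3]
  rw [sum_congr rfl fun m _ => e m _ _ _ _, TB_reindex N b1 p1 p2, ← hI,
    sum_congr rfl (g := fun n => ((G1 n * G2 n - G1 n * F2 n : ℝ) : ℂ)), ← Complex.ofReal_sum,
    Complex.norm_real, Real.norm_eq_abs] at H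
  swap
  · intro n hn
    have t : (a2 * (a1 * n + b1) + (a1 * b2 - a2 * b1) : ℤ) = a1 * (a2 * n + b2) := by ring
    push_cast
    rw [t, ← e1 n hn, ← f1 n hn, ← f2 n hn, ← mul_sub]
    by_cases c2 : wE E (a1 * (a2 * n + b2)) = k2 <;> simp [c2]
  have B := (abs_sum_le_sum_abs _ I).trans (sum_le_sum fun n hn =>
    PB_pair δ0 δ1 (inv_pos.mpr (Vz_pos z)).le vl (A3 n hn) (e3 n hn) (f3 n hn))
  simp only [sum_sub_distrib, sum_add_distrib, ← mul_sum, sum_boole] at B H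
  rw [← sum_filter] at B
  rw [abs_le] at *
  constructor <;> linarith only [B, H, B.1, B.2, H.1, H.2]

lemma PB_arith {a a' r M D δ : ℝ} (δ0 : 0 ≤ δ) (δ1 : δ ≤ 1 / 6) (D0 : 0 ≤ D)
    (h1 : |a' - r| ≤ 3 * δ * a' + 4 * δ * r + 4 * D) (h2 : |r - M| ≤ 4 * D) (h3 : |a - a'| ≤ D)
    (a0 : 0 ≤ a') (M0 : 0 ≤ M) : |a - M| ≤ 14 * δ * M + 23 * D := by
  rw [abs_le] at *
  have b0 := mul_le_mul_of_nonneg_left (show r ≤ M + 4 * D by linarith only [h2]) δ0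
  have b1 := mul_le_mul_of_nonneg_right δ1 a0
  have b4 := mul_le_mul_of_nonneg_right δ1 D0
  have b5 := mul_le_mul_of_nonneg_right δ1 M0
  have b2 : a' ≤ 10 / 3 * M + 22 * D := by linarith only [D0, h1, h2, b0, b1, b4, b5]
  have b3 := mul_le_mul_of_nonneg_left b2 δ0
  constructor <;> linarith only [D0, h1, h2, h3, b0, b4, b3]

end Pool.Agent.Work.MP_d018b2_nt.R
end
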