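import Pool.Agent.Work.MP_d018b2_nt.R.SPInt1

-- merged part: Pool.Agent.Work.MP_d018b2_nt.R.SPInt4
section
-- merged part: Pool.Agent.Work.MP_d018b2_nt.R.SPJav
section
/-! The major arc kernel and averaging over its support. -/

set_option autoImplicit false
open Finset Pool.Agent.Lib.LargeSieve

namespace Pool.Agent.Work.MP_d018b2_nt.R

open Pool.Agent.Work.MP_678620_nt

namespace Sys

variable {ι : Type} [Fintype ι] [DecidableEq ι] (S : Sys ι)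

lemma card_FF_le : S.FF.card ≤ S.Q ^ 2 := by
  refine card_image_le.trans ((card_filter_le _ _).trans ?_)
  simp [sq]

lemma den_le {θ : ℚ} (hθ : θ ∈ S.FF) : θ.den ≤ S.Q := by
  obtain ⟨x, hx, rfl⟩ := mem_image.1 hθ
  obtain ⟨hx1, -⟩ := mem_filter.1 hx
  obtain ⟨h1, h2⟩ := mem_Icc.1 (mem_product.1 hx1).1
  have h3 := Rat.den_dvd (x.2 : ℤ) (x.1 : ℤ)
  rw [Rat.divInt_eq_div, Int.cast_natCast, Int.cast_natCast] at h3
  have h4 : ((x.2 : ℚ) / x.1).den ∣ x.1 := Int.natCast_dvd_natCast.1 h3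
  exact (Nat.le_of_dvd h1 h4).trans h2

lemma norm_kap_le (a : Finset ι) {j : ℤ} (hj : j ∈ S.JJ a) :
    ‖S.kap a j‖ ≤ (S.Q : ℝ) ^ 2 / S.Hk a := by
  obtain ⟨h1, h2⟩ := mem_Ioo.1 hj
  have h3 : |j| < S.Hk a := abs_lt.2 ⟨h1, h2⟩
  have h4 : |(j : ℝ)| < S.Hk a := by exact_mod_cast h3
  have h5 : (0 : ℝ) < S.Hk a := (abs_nonneg _).trans_lt h4
  refine (norm_sum_le _ _).trans ((sum_le_card_nsmul _ _ ((S.Hk a : ℝ)⁻¹) fun θ _ => ?_).trans ?_)
  · rw [norm_mul, norm_ee, one_mul, Complex.norm_real, Real.norm_eq_abs,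
      abs_of_nonneg (div_nonneg (by linarith) (by positivity)), div_le_iff₀ (by positivity)]
    have : (S.Hk a : ℝ)⁻¹ * (S.Hk a : ℝ) ^ 2 = S.Hk a := by field_simp
    rw [this]
    linarith only [abs_nonneg (j : ℝ)]
  · rw [nsmul_eq_mul, div_eq_mul_inv]
    have : (S.FF.card : ℝ) ≤ (S.Q : ℝ) ^ 2 := by exact_mod_cast S.card_FF_le
    gcongr

lemma sum_norm_kap_le (a : Finset ι) : ∑ j ∈ S.JJ a, ‖S.kap a j‖ ≤ 2 * (S.Q : ℝ) ^ 2 := by
  refine (sum_le_card_nsmul _ _ _ fun j hj => S.norm_kap_le a hj).trans ?_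
  have h1 : (S.JJ a).card ≤ 2 * S.Hk a := by
    rw [JJ, Int.card_Ioo]
    omega
  have h2 : ((S.JJ a).card : ℝ) ≤ 2 * S.Hk a := by exact_mod_cast h1
  rw [nsmul_eq_mul]
  rcases Nat.eq_zero_or_pos (S.Hk a) with h | h
  · simp [h]
  · have h3 : (0 : ℝ) < S.Hk a := by exact_mod_cast h
    calc ((S.JJ a).card : ℝ) * ((S.Q : ℝ) ^ 2 / S.Hk a)
        ≤ (2 * S.Hk a) * ((S.Q : ℝ) ^ 2 / S.Hk a) := by gcongr
      _ = _ := by field_simp

lemma kap_neg (a : Finset ι) (j : ℤ) : S.kap a (-j) = (starRingEnd ℂ) (S.kap a j) := by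
  simp only [kap, map_sum, map_mul, conj_ee, Complex.conj_ofReal, Int.cast_neg, abs_neg, mul_neg]

lemma Jav_T {r : ℕ} {a v : Finset ι} (hv : v ∈ S.VV r a) :
    S.T ≤ S.pr a * S.pr v ∧ S.pr a * S.pr v ≤ 2 * S.T := by
  obtain ⟨-, h2, -, h4⟩ := S.mem_VV.1 hv
  rw [← S.pr_union h2]
  exact ⟨S.DD_lo _ h4, S.DD_hi _ h4⟩

lemma Jav_lt (a : Finset ι) : S.T < S.pr a * S.Q ^ 2 * (S.Hk a + 1) :=
  Nat.lt_mul_div_succ _ (Nat.mul_pos (S.pr_pos a) (pow_pos (by have := S.Q_ge; omega) 2))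

lemma Jav_pr_lt {r : ℕ} {a v : Finset ι} (hv : v ∈ S.VV r a) :
    S.pr v < 2 * S.Q ^ 2 * (S.Hk a + 1) := by
  have h1 := (S.Jav_T hv).2
  have h2 := S.Jav_lt a
  refine Nat.lt_of_mul_lt_mul_left (a := S.pr a) ?_
  calc S.pr a * S.pr v ≤ 2 * S.T := h1
    _ < 2 * (S.pr a * S.Q ^ 2 * (S.Hk a + 1)) := by omega
    _ = _ := by ring

lemma Hk_le {r : ℕ} {a v : Finset ι} (hv : v ∈ S.VV r a) : S.Hk a ≤ S.pr v := by
  obtain ⟨h1, -⟩ := S.Jav_T hv
  refine Nat.div_le_of_le_mul (h1.trans ?_)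
  have : 1 ≤ S.Q ^ 2 := Nat.one_le_pow _ _ (by have := S.Q_ge; omega)
  calc S.pr a * S.pr v = S.pr a * 1 * S.pr v := by ring
    _ ≤ _ := by gcongr

lemma Hk_mul_le (a : Finset ι) : S.pr a * S.Q ^ 2 * S.Hk a ≤ S.T := by
  exact Nat.mul_div_le _ _

lemma Q4_le_Hk {r : ℕ} (hr : 1 ≤ r) {a v : Finset ι} (hv : v ∈ S.VV r a) :
    (S.Q : ℝ) ^ 4 ≤ S.Hk a := by
  obtain ⟨h1, -, h3, -⟩ := S.mem_VV.1 hv
  have h4 := S.H0_pow_le_pr h1
  have h5 := S.H0_big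
  have h6 : S.H0 ≤ S.H0 ^ v.card := le_self_pow₀ (by linarith only [h5]) (by omega)
  have h7 : (S.pr v : ℝ) < 2 * (S.Q : ℝ) ^ 2 * (S.Hk a + 1) := by exact_mod_cast S.Jav_pr_lt hv
  have h8 := S.mono_le_H0 (a := 0) (b := 0) (c := 6) (d := 1) (by norm_num) (by norm_num)
    (by norm_num) (by norm_num)
  have h9 := S.big
  have hQ : (2 : ℝ) ≤ S.Q := by exact_mod_cast S.Q_ge
  simp only [pow_zero, one_mul, pow_one] at h8
  have h10 : 100 * (S.Q : ℝ) ^ 6 ≤ S.H0 := by nlinarith only [h9, h8, h5, pow_pos (by linarith : (0 : ℝ) < S.Q) 6]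
  have hQ4 : (1 : ℝ) ≤ (S.Q : ℝ) ^ 4 := one_le_pow₀ (by linarith)
  have hQ2 : (0 : ℝ) < (S.Q : ℝ) ^ 2 := by positivity
  by_contra h
  push Not at h
  have h12 : 2 * (S.Q : ℝ) ^ 2 * (S.Hk a + 1) ≤ 2 * (S.Q : ℝ) ^ 2 * (2 * (S.Q : ℝ) ^ 4) :=
    mul_le_mul_of_nonneg_left (by linarith only [hQ4, h]) (by positivity)
  have h13 : 2 * (S.Q : ℝ) ^ 2 * (2 * (S.Q : ℝ) ^ 4) = 4 * (S.Q : ℝ) ^ 6 := by ring
  have h14 : (0 : ℝ) < (S.Q : ℝ) ^ 6 := by positivity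
  linarith only [h4, h5, h6, h7, h10, h12]

lemma one_le_Hk {r : ℕ} (hr : 1 ≤ r) {a v : Finset ι} (hv : v ∈ S.VV r a) :
    (1 : ℝ) ≤ S.Hk a := by
  have hQ : (2 : ℝ) ≤ S.Q := by exact_mod_cast S.Q_ge
  exact (one_le_pow₀ (by linarith)).trans (S.Q4_le_Hk hr hv)

lemma Jav_one {r : ℕ} (hr : 1 ≤ r) {a v : Finset ι} (hv : v ∈ S.VV r a) : 1 ≤ S.Hk a := by
  exact_mod_cast S.one_le_Hk hr hv

lemma T_le_Hk {r : ℕ} (hr : 1 ≤ r) {a v : Finset ι} (hv : v ∈ S.VV r a) :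
    S.T ≤ 2 * (S.pr a * S.Q ^ 2 * S.Hk a) := by
  have h1 := S.Jav_lt a
  have h2 := S.Jav_one hr hv
  calc S.T ≤ S.pr a * S.Q ^ 2 * (S.Hk a + 1) := h1.le
    _ ≤ S.pr a * S.Q ^ 2 * (2 * S.Hk a) := by gcongr; omega
    _ = _ := by ring

lemma pr_le_Hk {r : ℕ} (hr : 1 ≤ r) {a v : Finset ι} (hv : v ∈ S.VV r a) :
    S.pr v ≤ 4 * S.Q ^ 2 * S.Hk a := by
  have h1 := S.Jav_pr_lt hv
  have h2 := S.Jav_one hr hv
  calc S.pr v ≤ 2 * S.Q ^ 2 * (S.Hk a + 1) := h1.le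
    _ ≤ 2 * S.Q ^ 2 * (2 * S.Hk a) := by gcongr; omega
    _ = _ := by ring

lemma card_VV_le {r : ℕ} (hr : 1 ≤ r) (a : Finset ι) : (S.VV r a).card ≤ 4 * S.Q ^ 2 * S.Hk a := by
  have h := card_le_card_of_injOn (s := S.VV r a) (t := Icc 1 (4 * S.Q ^ 2 * S.Hk a)) S.pr
    (fun v hv => mem_coe.2 (mem_Icc.2 ⟨S.pr_pos v, S.pr_le_Hk hr (mem_coe.1 hv)⟩))
    (fun v hv w hw h => S.pr_inj (S.mem_VV.1 (mem_coe.1 hv)).1 (S.mem_VV.1 (mem_coe.1 hw)).1 h)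
  simpa using h

/-- On a range of at most `pr v` consecutive `j`, the coordinates in `v` determine `j`. -/
lemma coord_inj {v : Finset ι} {t : ℤ} (ht : IsCoprime (S.pr v : ℤ) t) {j j' : ℤ}
    (hj : |j - j'| < S.pr v) (h : ∀ p ∈ v, ((t * j : ℤ) : S.G) p = ((t * j' : ℤ) : S.G) p) :
    j = j' := by
  have h1 : (∏ p ∈ v, (S.m p : ℤ)) ∣ t * (j' - j) := by
    refine Finset.prod_dvd_of_coprime (fun p _ q _ hpq => ?_) fun p hp => ?_
    · exact Nat.isCoprime_iff_coprime.2 (S.cop p q hpq)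
    · have h2 := h p hp
      rw [S.cast_apply, S.cast_apply, ZMod.intCast_eq_intCast_iff_dvd_sub] at h2
      rwa [mul_sub]
  have h2 : (S.pr v : ℤ) ∣ t * (j' - j) := by
    rw [pr]
    push_cast
    exact h1
  have h3 := Int.eq_zero_of_abs_lt_dvd (ht.dvd_of_dvd_mul_left h2) (by rwa [abs_sub_comm])
  omega

lemma coprime_jp {r : ℕ} {a v : Finset ι} (hv : v ∈ S.VV r a) :
    IsCoprime (S.pr v : ℤ) (S.jp a) := by
  obtain ⟨h1, h2, -, -⟩ := S.mem_VV.1 hv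
  exact IsCoprime.mul_right (Nat.isCoprime_iff_coprime.2 (S.coprime_pr h2).symm)
    (S.coprime_pr_h h1)

lemma Jav_two {r : ℕ} {a v : Finset ι} (hv : v ∈ S.VV r a) {t : ℤ}
    (ht : IsCoprime (S.pr v : ℤ) t) (c : S.G) :
    ((S.JJ a).filter fun j => ∀ i ∈ v, c i = ((t * j : ℤ) : S.G) i).card ≤ 2 := by
  have hH : (S.Hk a : ℤ) ≤ S.pr v := by exact_mod_cast S.Hk_le hv
  rw [← card_filter_add_card_filter_not (fun j : ℤ => j < 0)]
  refine add_le_add (b := 1) (d := 1) (card_le_one.2 fun j hj j' hj' => ?_)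
    (card_le_one.2 fun j hj j' hj' => ?_)
  all_goals
    simp only [mem_filter, JJ, mem_Ioo] at hj hj'
    refine S.coord_inj ht (abs_lt.2 ⟨by omega, by omega⟩) fun p hp => ?_
    rw [← hj.1.2 p hp, ← hj'.1.2 p hp]

lemma card_JJ_sub {r : ℕ} {a v : Finset ι} (hv : v ∈ S.VV r a) (x : S.G) :
    ((S.JJ a).filter fun j => v ⊆ S.Zs (x + ((S.jp a * j : ℤ) : S.G))).card ≤ 2 := by
  refine le_trans (card_le_card fun j hj => ?_) (S.Jav_two hv (S.coprime_jp hv) (-x))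
  obtain ⟨h1, h2⟩ := mem_filter.1 hj
  refine mem_filter.2 ⟨h1, fun i hi => ?_⟩
  have h3 := (S.mem_Zs.1 (h2 hi)).2
  rw [Pi.add_apply] at h3
  rw [Pi.neg_apply]
  exact neg_eq_of_add_eq_zero_right h3

theorem jav {r : ℕ} (hr : 1 ≤ r) {a v : Finset ι} (hv : v ∈ S.VV r a) {t : ℤ}
    (ht : IsCoprime (S.pr v : ℤ) t) {Φ : S.G → ℝ} (h0 : ∀ c, 0 ≤ Φ c) (hΦ : S.Indep vᶜ Φ) :
    ∑ j ∈ S.JJ a, ‖S.kap a j‖ * Φ ((t * j : ℤ) : S.G)
      ≤ 8 * (S.Q : ℝ) ^ 4 * ((Fintype.card S.G : ℝ)⁻¹ * ∑ c, Φ c) := by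
  have hN : (0 : ℝ) < Fintype.card S.G := by exact_mod_cast Fintype.card_pos
  have hH : (0 : ℝ) < S.Hk a := by exact_mod_cast S.Jav_one hr hv
  have hV : (S.pr v : ℝ) ≤ 4 * (S.Q : ℝ) ^ 2 * S.Hk a := by exact_mod_cast S.pr_le_Hk hr hv
  have h1 : ∀ j : ℤ, (Fintype.card S.G : ℝ) * Φ ((t * j : ℤ) : S.G) =
      S.pr v * ∑ c : S.G, if ∀ i ∈ v, c i = ((t * j : ℤ) : S.G) i then Φ c else 0 := by
    intro j
    have h2 := S.sum_piecewise v ((t * j : ℤ) : S.G) Φ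
    rw [nsmul_eq_mul] at h2
    rw [← h2, sum_congr rfl fun ξ _ => hΦ (v.piecewise ((t * j : ℤ) : S.G) ξ) ((t * j : ℤ) : S.G)
      fun i hi => piecewise_eq_of_mem _ _ _ (by simpa using hi)]
    simp
  have h2 : ∑ j ∈ S.JJ a, ∑ c : S.G,
      (if ∀ i ∈ v, c i = ((t * j : ℤ) : S.G) i then Φ c else 0) ≤ 2 * ∑ c, Φ c := by
    rw [sum_comm, mul_sum]
    refine sum_le_sum fun c _ => ?_
    rw [← sum_filter, sum_const, nsmul_eq_mul]
    have : (((S.JJ a).filter fun j => ∀ i ∈ v, c i = ((t * j : ℤ) : S.G) i).card : ℝ) ≤ 2 := by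
      exact_mod_cast S.Jav_two hv ht c
    exact mul_le_mul_of_nonneg_right this (h0 c)
  have h3 : (Fintype.card S.G : ℝ) * ∑ j ∈ S.JJ a, Φ ((t * j : ℤ) : S.G)
      ≤ S.pr v * (2 * ∑ c, Φ c) := by
    rw [mul_sum, sum_congr rfl fun j _ => h1 j, ← mul_sum]
    exact mul_le_mul_of_nonneg_left h2 (Nat.cast_nonneg _)
  have h4 : 0 ≤ ∑ c, Φ c := sum_nonneg fun c _ => h0 c
  have h5 : ∑ j ∈ S.JJ a, Φ ((t * j : ℤ) : S.G)
      ≤ (4 * (S.Q : ℝ) ^ 2 * S.Hk a) * (2 * ∑ c, Φ c) / Fintype.card S.G := by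
    rw [le_div_iff₀ hN, mul_comm]
    exact h3.trans (mul_le_mul_of_nonneg_right hV (by positivity))
  calc ∑ j ∈ S.JJ a, ‖S.kap a j‖ * Φ ((t * j : ℤ) : S.G)
      ≤ ∑ j ∈ S.JJ a, ((S.Q : ℝ) ^ 2 / S.Hk a) * Φ ((t * j : ℤ) : S.G) :=
        sum_le_sum fun j hj => mul_le_mul_of_nonneg_right (S.norm_kap_le a hj) (h0 _)
    _ = ((S.Q : ℝ) ^ 2 / S.Hk a) * ∑ j ∈ S.JJ a, Φ ((t * j : ℤ) : S.G) := by rw [mul_sum]
    _ ≤ ((S.Q : ℝ) ^ 2 / S.Hk a) *
        ((4 * (S.Q : ℝ) ^ 2 * S.Hk a) * (2 * ∑ c, Φ c) / Fintype.card S.G) := by gcongr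
    _ = _ := by field_simp; ring

end Sys

end Pool.Agent.Work.MP_d018b2_nt.R
end

-- merged part: Pool.Agent.Work.MP_d018b2_nt.R.SPForm
section
/-! The operator `X`: its form and its symmetry. -/

set_option autoImplicit false
open Finset Pool.Agent.Lib.LargeSieve

namespace Pool.Agent.Work.MP_d018b2_nt.R

open Pool.Agent.Work.MP_678620_nt

namespace Sys

variable {ι : Type} [Fintype ι] [DecidableEq ι] (S : Sys ι)

lemma SPForm_one {I : Finset ℤ} {e0 : ℤ} (h : e0 ∈ I) (P : ℤ → Prop) [DecidablePred P]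
    (F : ℤ → ℂ) : ∑ e ∈ I, (if e = e0 ∧ P e then F e else 0) = if P e0 then F e0 else 0 := by
  simp only [ite_and]
  rw [sum_ite_eq' I e0 fun e => if P e then F e else 0, if_pos h]

lemma SPForm_jp_sub {d d' : Finset ι} (hd : d ∈ S.DD) (hd' : d' ∈ S.DD) :
    |S.jp d' - S.jp d| ≤ S.T * |S.h| := by
  have a1 : (S.T : ℤ) ≤ S.pr d := by exact_mod_cast S.DD_lo d hd
  have a2 : (S.pr d : ℤ) ≤ 2 * S.T := by exact_mod_cast S.DD_hi d hd
  have a3 : (S.T : ℤ) ≤ S.pr d' := by exact_mod_cast S.DD_lo d' hd'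
  have a4 : (S.pr d' : ℤ) ≤ 2 * S.T := by exact_mod_cast S.DD_hi d' hd'
  rw [jp, jp, ← sub_mul, abs_mul]
  exact mul_le_mul_of_nonneg_right (abs_le.mpr ⟨by linarith, by linarith⟩) (abs_nonneg _)

lemma SPForm_jp_mul (a : Finset ι) {j : ℤ} (hj : j ∈ S.JJ a) : |S.jp a * j| ≤ S.T * |S.h| := by
  have a1 : (S.pr a : ℤ) * S.Hk a ≤ S.T := by
    have := S.Hk_mul_le a
    have q : 1 ≤ S.Q ^ 2 := Nat.one_le_pow _ _ (by have := S.Q_ge; omega)
    have : S.pr a * S.Hk a ≤ S.T :=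
      (Nat.mul_le_mul_right _ (Nat.le_mul_of_pos_right _ q)).trans this
    exact_mod_cast this
  have a2 : |j| ≤ S.Hk a := by
    rw [JJ, mem_Ioo] at hj
    exact abs_le.mpr ⟨hj.1.le, hj.2.le⟩
  rw [jp, mul_right_comm, abs_mul, abs_mul, Nat.abs_cast]
  exact mul_le_mul_of_nonneg_right
    ((mul_le_mul_of_nonneg_left a2 (Nat.cast_nonneg _)).trans a1) (abs_nonneg _)

lemma SPForm_mem {e : ℤ} (h : |e| ≤ 2 * (S.T * |S.h|)) : e ∈ Icc (-(S.R : ℤ)) S.R := by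
  have : (S.R : ℤ) = 2 * (S.T * |S.h|) := by
    rw [R]
    push_cast
    ring
  rw [mem_Icc, this]
  exact abs_le.mp h

lemma SPForm_T (r : ℕ) (g f : S.G → ℂ) :
    ∑ ξ : S.G, ∑ e ∈ Icc (-(S.R : ℤ)) S.R,
      (starRingEnd ℂ) (g ξ) * (S.KT r ξ e * f (ξ + (e : S.G))) = S.TT r g f := by
  simp only [KT, TT, sum_mul, mul_sum, ite_mul, mul_ite, one_mul, zero_mul, mul_zero]
  rw [sum_congr rfl fun ξ _ => sum_comm, sum_comm]
  conv_rhs => rw [sum_comm]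
  refine sum_congr rfl fun d hd => ?_
  rw [sum_congr rfl fun ξ _ => sum_comm, sum_comm]
  conv_rhs => rw [sum_comm]
  refine sum_congr rfl fun d' hd' => ?_
  have m : S.jp d' - S.jp d ∈ Icc (-(S.R : ℤ)) S.R := by
    refine S.SPForm_mem ((S.SPForm_jp_sub hd hd').trans ?_)
    have : (0 : ℤ) ≤ S.T * |S.h| := by positivity
    linarith
  rw [← S.sum_add_right _ (S.jp d : S.G)]
  refine sum_congr rfl fun x _ => ?_
  rw [SPForm_one m, add_sub_cancel_right]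
  refine if_congr (by tauto) ?_ rfl
  congr 2
  push_cast
  ring

lemma SPForm_S (r : ℕ) (g f : S.G → ℂ) :
    ∑ ξ : S.G, ∑ e ∈ Icc (-(S.R : ℤ)) S.R,
      (starRingEnd ℂ) (g ξ) * (S.KS r ξ e * f (ξ + (e : S.G))) = S.SS r g f := by
  simp only [KS, SS, St, sum_mul, mul_sum, ite_mul, mul_ite, zero_mul, mul_zero]
  rw [sum_congr rfl fun ξ _ => sum_comm, sum_comm]
  refine sum_congr rfl fun a _ => ?_
  rw [sum_congr rfl fun ξ _ => sum_comm, sum_comm]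
  refine sum_congr rfl fun v hv => ?_
  rw [sum_congr rfl fun ξ _ => sum_comm, sum_comm]
  refine sum_congr rfl fun v' hv' => ?_
  by_cases hd : Disjoint v v'
  swap
  · simp [hd]
  simp only [hd, true_and, if_true]
  rw [sum_congr rfl fun ξ _ => sum_comm, sum_comm]
  refine sum_congr rfl fun j hj => ?_
  have m : S.jp a * j + S.jp (a ∪ v') - S.jp (a ∪ v) ∈ Icc (-(S.R : ℤ)) S.R := by
    refine S.SPForm_mem ?_
    have a1 := S.SPForm_jp_sub (S.mem_VV.mp hv).2.2.2 (S.mem_VV.mp hv').2.2.2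
    have a2 := S.SPForm_jp_mul a hj
    rw [add_sub_assoc]
    exact (abs_add_le _ _).trans (by linarith)
  rw [← S.sum_add_right _ (S.jp (a ∪ v) : S.G)]
  refine sum_congr rfl fun x _ => ?_
  have e : x + (S.jp (a ∪ v) : S.G) + ((S.jp a * j + S.jp (a ∪ v') - S.jp (a ∪ v) : ℤ) : S.G) =
      x + ((S.jp a * j : ℤ) : S.G) + (S.jp (a ∪ v') : S.G) := by
    push_cast
    ring
  rw [SPForm_one m, e]
  refine if_congr (and_congr (S.sub_Zs_add (fun p hp => S.jp_apply' hp) _)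
    (S.sub_Zs_add (fun p hp => S.jp_apply' hp) _)) (by ring) rfl

lemma SPForm_KT (r : ℕ) (ξ : S.G) (e : ℤ) :
    S.KT r (ξ + (e : S.G)) (-e) = (starRingEnd ℂ) (S.KT r ξ e) := by
  simp only [KT, map_sum, apply_ite (starRingEnd ℂ), map_one, map_zero]
  rw [sum_comm]
  refine sum_congr rfl fun d hd => sum_congr rfl fun d' hd' => if_congr ?_ rfl rfl
  rw [card_sdiff_comm ((S.DD_card d' hd').trans (S.DD_card d hd).symm)]
  by_cases h : e = S.jp d' - S.jp d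
  · have e1 : ξ + (e : S.G) - (S.jp d' : S.G) = ξ - (S.jp d : S.G) := by
      rw [h]
      push_cast
      ring
    have e2 : -e = S.jp d - S.jp d' := by rw [h, neg_sub]
    rw [e1]
    tauto
  · have e2 : ¬ -e = S.jp d - S.jp d' := fun k => h (by linarith)
    tauto

lemma SPForm_KS (r : ℕ) (ξ : S.G) (e : ℤ) :
    S.KS r (ξ + (e : S.G)) (-e) = (starRingEnd ℂ) (S.KS r ξ e) := by
  simp only [KS, map_sum, apply_ite (starRingEnd ℂ), map_zero, ← kap_neg]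
  refine sum_congr rfl fun a _ => ?_
  rw [sum_comm]
  refine sum_congr rfl fun v _ => sum_congr rfl fun v' _ => ?_
  have sym : ∀ j ∈ S.JJ a, -j ∈ S.JJ a := fun j hj => by
    rw [JJ, mem_Ioo] at hj ⊢
    omega
  refine sum_nbij' (fun j => -j) (fun j => -j) sym sym (fun j _ => neg_neg j)
    (fun j _ => neg_neg j) fun j _ => ?_
  have e1 : ξ + (e : S.G) + ((-e : ℤ) : S.G) = ξ := by
    push_cast
    ring
  have e2 : -e = S.jp a * j + S.jp (a ∪ v) - S.jp (a ∪ v') ↔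
      e = S.jp a * -j + S.jp (a ∪ v') - S.jp (a ∪ v) :=
    ⟨fun k => by linarith, fun k => by linarith⟩
  rw [e1, neg_neg]
  refine if_congr ?_ rfl rfl
  rw [e2, disjoint_comm]
  tauto

theorem form_X {g f : S.G → ℂ} (hg : S.Supp g) (hf : S.Supp f) :
    S.ip g (S.Xop S.Kk f)
      = ∑ r ∈ Icc S.k S.k, (S.TT r g f - (S.piC (S.k - r) : ℂ) * S.SS r g f) := by
  have key : ∀ (ξ : S.G) (e : ℤ), (starRingEnd ℂ) (g ξ) * (S.Kk ξ e * f (ξ + (e : S.G))) =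
      ∑ r ∈ Icc S.k S.k, ((starRingEnd ℂ) (g ξ) * (S.KT r ξ e * f (ξ + (e : S.G))) -
        (S.piC (S.k - r) : ℂ) * ((starRingEnd ℂ) (g ξ) * (S.KS r ξ e * f (ξ + (e : S.G))))) := by
    intro ξ e
    by_cases h1 : g ξ = 0
    · simp [h1]
    by_cases h2 : f (ξ + (e : S.G)) = 0
    · simp [h2]
    rw [Kk, if_pos ⟨hg _ h1, hf _ h2⟩, sum_mul, mul_sum]
    exact sum_congr rfl fun r _ => by ring
  simp only [ip, Xop, mul_sum, key]
  rw [sum_congr rfl fun ξ _ => sum_comm, sum_comm]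
  refine sum_congr rfl fun r _ => ?_
  rw [← S.SPForm_T, ← S.SPForm_S]
  simp only [sum_sub_distrib, mul_sum]

theorem Kk_herm (ξ : S.G) (e : ℤ) :
    S.Kk (ξ + (e : S.G)) (-e) = (starRingEnd ℂ) (S.Kk ξ e) := by
  have e1 : ξ + (e : S.G) + ((-e : ℤ) : S.G) = ξ := by
    push_cast
    ring
  rw [Kk, Kk, e1, apply_ite (starRingEnd ℂ), map_zero, map_sum]
  refine if_congr and_comm (sum_congr rfl fun r _ => ?_) rfl
  rw [S.SPForm_KT, S.SPForm_KS, map_sub, map_mul, Complex.conj_ofReal]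

lemma Kk_supp {ξ : S.G} {e : ℤ} (h : S.Kk ξ e ≠ 0) : S.Cg ξ ∧ S.Cg (ξ + (e : S.G)) := by
  by_contra k
  exact h (if_neg k)

end Sys

end Pool.Agent.Work.MP_d018b2_nt.R
end

-- merged part: Pool.Agent.Work.MP_d018b2_nt.R.SPRepK
section
/-! The kernel is a combination of boxes. -/

set_option autoImplicit false
open Finset Pool.Agent.Lib.LargeSieve

namespace Pool.Agent.Work.MP_d018b2_nt.R

open Pool.Agent.Work.MP_678620_nt

namespace Sys

variable {ι : Type} [Fintype ι] [DecidableEq ι] (S : Sys ι)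

lemma repK_two_le : (2 : ℝ) ≤ S.H1 := by
  have h1 := S.H0_big
  have h2 := S.H01
  have h3 : (2 : ℝ) ≤ 10 ^ 40 := by norm_num
  linarith

lemma repK_one_le : (1 : ℝ) ≤ S.H1 := by
  have := S.repK_two_le
  linarith

lemma repK_pow_le {a b : ℕ} (h : a ≤ b) : S.H1 ^ a ≤ S.H1 ^ b :=
  pow_le_pow_right₀ S.repK_one_le h

lemma repK_card_pc {B : Finset ι} (hB : B ⊆ S.E) (j : ℕ) :
    ((B.powersetCard j).card : ℝ) ≤ S.H1 ^ j := by
  rw [card_powersetCard]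
  have h1 : (B.card.choose j : ℝ) ≤ (B.card : ℝ) ^ j := by
    exact_mod_cast Nat.choose_le_pow B.card j
  have h2 : (B.card : ℝ) ≤ S.H1 :=
    le_trans (by exact_mod_cast card_le_card hB) S.card_E_le
  exact h1.trans (pow_le_pow_left₀ (Nat.cast_nonneg _) h2 j)

lemma repK_card_DD : (S.DD.card : ℝ) ≤ S.H1 ^ S.s := by
  refine le_trans ?_ (S.repK_card_pc (subset_refl S.E) S.s)
  have : S.DD ⊆ S.E.powersetCard S.s := fun d hd =>
    mem_powersetCard.2 ⟨S.DD_sub d hd, S.DD_card d hd⟩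
  exact_mod_cast card_le_card this

lemma repK_card_VV (r : ℕ) (a : Finset ι) : ((S.VV r a).card : ℝ) ≤ S.H1 ^ r := by
  refine le_trans ?_ (S.repK_card_pc (B := S.E \ a) sdiff_subset r)
  have : S.VV r a ⊆ (S.E \ a).powersetCard r := filter_subset _ _
  exact_mod_cast card_le_card this

lemma repK_Q_le : (S.Q : ℝ) ≤ S.H1 := by
  have h := S.mono_le_H0 (a := 0) (b := 0) (c := 1) (d := 0) (by norm_num) (by norm_num)
    (by norm_num) (by norm_num)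
  simp only [pow_zero, pow_one, one_mul, mul_one] at h
  exact h.trans S.H01

lemma repK_Λ_le : S.Λ ≤ S.H1 := by
  have h := S.mono_le_H0 (a := 0) (b := 0) (c := 0) (d := 1) (by norm_num) (by norm_num)
    (by norm_num) (by norm_num)
  simp only [pow_zero, pow_one, one_mul] at h
  exact h.trans S.H01

/-- A sum with a uniform bound on the masses. -/
lemma repK_sum {α : Type*} (s : Finset α) {F : Finset ι} {K1 K2 : ℕ} {B C : ℝ}
    {φ : α → S.G → ℂ} (hB : 0 ≤ B) (hC : (s.card : ℝ) ≤ C)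
    (h : ∀ i ∈ s, S.Rep F K1 K2 B (φ i)) :
    S.Rep F K1 K2 (C * B) fun ξ => ∑ i ∈ s, φ i ξ := by
  refine Rep.mono (Rep.sum S s (B := fun _ => B) h) ?_
  rw [sum_const, nsmul_eq_mul]
  exact mul_le_mul_of_nonneg_right hC hB

theorem rep_Cg : S.Rep ∅ (2 * S.s) 1 (S.H1 ^ (2 * S.s)) fun ξ => if S.Cg ξ then 1 else 0 := by
  have hk := S.k'_le
  have h := ((S.rep_class (S.s + S.k') S.good).weaken (subset_refl _)
    (show S.s + S.k' ≤ 2 * S.s by omega) (le_refl 1)).mono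
    (S.repK_pow_le (show S.s + S.k' ≤ 2 * S.s by omega))
  refine h.congr fun ξ => ?_
  by_cases hc : S.Cg ξ
  · rw [if_pos hc, if_pos (show _ ∧ _ from hc)]
  · rw [if_neg hc, if_neg (show ¬ (_ ∧ _) from hc)]

lemma repK_KT (r : ℕ) (e : ℤ) :
    S.Rep ∅ (4 * S.s) 1 (S.H1 ^ (4 * S.s)) fun ξ => S.KT r ξ e := by
  classical
  have hk := S.k_le
  have h0 : (0 : ℝ) ≤ S.H1 := le_trans zero_le_one S.repK_one_le
  have key : ∀ d ∈ S.DD, ∀ d' ∈ S.DD, S.Rep ∅ (4 * S.s) 1 (S.H1 ^ (2 * S.s)) fun ξ =>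
      if e = S.jp d' - S.jp d ∧ (d \ d').card = r ∧
        (S.Zs (ξ - (S.jp d : S.G))).card = S.s + S.k ∧
        d ⊆ S.Zs (ξ - (S.jp d : S.G)) ∧ d' ⊆ S.Zs (ξ - (S.jp d : S.G)) then (1 : ℂ) else 0 := by
    intro d _ d' _
    have h := (((S.rep_class (S.s + S.k)
      (fun Z => (e = S.jp d' - S.jp d ∧ (d \ d').card = r) ∧ d ⊆ Z ∧ d' ⊆ Z)).tr
      (-(S.jp d : S.G))).weaken (subset_refl _)
      (show S.s + S.k ≤ 4 * S.s by omega) (le_refl 1)).mono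
      (S.repK_pow_le (show S.s + S.k ≤ 2 * S.s by omega))
    refine h.congr fun ξ => ?_
    simp only [← sub_eq_add_neg]
    refine if_congr ?_ rfl rfl
    tauto
  have h := S.repK_sum S.DD (by positivity) S.repK_card_DD fun d hd =>
    S.repK_sum S.DD (by positivity) S.repK_card_DD fun d' hd' => key d hd d' hd'
  refine (h.mono (le_of_eq ?_)).congr fun ξ => rfl
  ring

lemma repK_KS {r : ℕ} (hr : r ≤ S.s) (e : ℤ) :
    S.Rep ∅ (4 * S.s) 1 (S.H1 ^ (4 * S.s)) fun ξ => S.KS r ξ e := by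
  classical
  have hs : 2 ≤ S.s := S.s_ge
  have h0 : (0 : ℝ) ≤ S.H1 := le_trans zero_le_one S.repK_one_le
  have key : ∀ a ∈ S.AA r, ∀ v ∈ S.VV r a, ∀ v' ∈ S.VV r a, ∀ j ∈ S.JJ a,
      S.Rep ∅ (4 * S.s) 1 ‖S.kap a j‖ fun ξ =>
      if Disjoint v v' ∧ e = S.jp a * j + S.jp (a ∪ v') - S.jp (a ∪ v) ∧ a ∪ v ⊆ S.Zs ξ ∧
        a ∪ v' ⊆ S.Zs (ξ + (e : S.G)) then S.kap a j else 0 := by
    intro a _ v hv v' hv' j _
    have hd := (S.mem_VV.1 hv).2.2.2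
    have hd' := (S.mem_VV.1 hv').2.2.2
    by_cases hc : Disjoint v v' ∧ e = S.jp a * j + S.jp (a ∪ v') - S.jp (a ∪ v)
    · have h1 := S.rep_sub (S.DD_sub _ hd)
      have h2 := (S.rep_sub (S.DD_sub _ hd')).tr (e : S.G)
      rw [S.DD_card _ hd] at h1
      rw [S.DD_card _ hd'] at h2
      have h := (((h1.mul h2).smul (S.kap a j)).weaken (subset_refl _)
        (show S.s + S.s ≤ 4 * S.s by omega) (show 0 + 0 ≤ 1 by omega)).mono
        (show ‖S.kap a j‖ * (1 * 1) ≤ ‖S.kap a j‖ by simp)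
      refine h.congr fun ξ => ?_
      by_cases ha : a ∪ v ⊆ S.Zs ξ
      · by_cases hb : a ∪ v' ⊆ S.Zs (ξ + (e : S.G))
        · rw [if_pos ha, if_pos hb, if_pos ⟨hc.1, hc.2, ha, hb⟩]; ring
        · rw [if_neg hb, mul_zero, mul_zero, if_neg (fun h => hb h.2.2.2)]
      · rw [if_neg ha, zero_mul, mul_zero, if_neg (fun h => ha h.2.2.1)]
    · refine (Rep.mono Rep.zero (norm_nonneg _)).congr fun ξ => ?_
      rw [if_neg (fun h => hc ⟨h.1, h.2.1⟩)]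
  have key2 : ∀ a ∈ S.AA r, ∀ v ∈ S.VV r a, ∀ v' ∈ S.VV r a,
      S.Rep ∅ (4 * S.s) 1 (S.H1 ^ 3) fun ξ => ∑ j ∈ S.JJ a,
      if Disjoint v v' ∧ e = S.jp a * j + S.jp (a ∪ v') - S.jp (a ∪ v) ∧ a ∪ v ⊆ S.Zs ξ ∧
        a ∪ v' ⊆ S.Zs (ξ + (e : S.G)) then S.kap a j else 0 := by
    intro a ha v hv v' hv'
    refine (Rep.sum S (S.JJ a) (key a ha v hv v' hv')).mono ((S.sum_norm_kap_le a).trans ?_)
    have h1 : (S.Q : ℝ) ^ 2 ≤ S.H1 ^ 2 := pow_le_pow_left₀ (Nat.cast_nonneg _) S.repK_Q_le 2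
    have h2 := S.repK_two_le
    calc 2 * (S.Q : ℝ) ^ 2 ≤ S.H1 * S.H1 ^ 2 := mul_le_mul h2 h1 (by positivity) h0
      _ = S.H1 ^ 3 := by ring
  have h := S.repK_sum (S.AA r) (by positivity) (S.repK_card_pc (subset_refl S.E) (S.s - r))
    fun a ha => S.repK_sum (S.VV r a) (by positivity) (S.repK_card_VV r a) fun v hv =>
      S.repK_sum (S.VV r a) (by positivity) (S.repK_card_VV r a) fun v' hv' =>
        key2 a ha v hv v' hv'
  refine (h.mono ?_).congr fun ξ => rfl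
  rw [← pow_add, ← pow_add, ← pow_add]
  exact S.repK_pow_le (by omega)

theorem rep_Kk (e : ℤ) : S.Rep ∅ (8 * S.s) 3 (S.H1 ^ (10 * S.s)) fun ξ => S.Kk ξ e := by
  have hs : 2 ≤ S.s := S.s_ge
  have h0 : (0 : ℝ) ≤ S.H1 := le_trans zero_le_one S.repK_one_le
  have key : ∀ r ∈ Icc S.k S.k, S.Rep ∅ (4 * S.s) 1 (S.H1 ^ (4 * S.s + 1)) fun ξ =>
      S.KT r ξ e - (S.piC (S.k - r) : ℂ) * S.KS r ξ e := by
    intro r hr
    have hrs : r ≤ S.s := (mem_Icc.1 hr).2.trans S.k_le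
    have h := (S.repK_KT r e).add ((S.repK_KS hrs e).smul (-(S.piC (S.k - r) : ℂ)))
    refine (h.mono ?_).congr fun ξ => by ring
    have h1 : ‖-(S.piC (S.k - r) : ℂ)‖ ≤ 1 := by
      rw [norm_neg, Complex.norm_real, Real.norm_of_nonneg (S.piC_nonneg _)]
      exact S.piC_le_one _
    have h2 := S.repK_two_le
    have h3 : (0 : ℝ) ≤ S.H1 ^ (4 * S.s) := by positivity
    rw [pow_succ]
    nlinarith only [h1, h3, h2, mul_le_mul_of_nonneg_right h1 h3, mul_le_mul_of_nonneg_left h2 h3]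
  have hc : ((Icc S.k S.k).card : ℝ) ≤ S.H1 := by
    refine le_trans ?_ (S.k_le_Λ.trans S.repK_Λ_le)
    rw [Nat.card_Icc]
    exact_mod_cast (show S.k + 1 - S.k ≤ S.k by have := S.k_ge; omega)
  have h1 := S.repK_sum (Icc S.k S.k) (by positivity) hc key
  have h := ((S.rep_Cg.mul (S.rep_Cg.tr (e : S.G))).mul h1).weaken (subset_refl _)
    (show 2 * S.s + 2 * S.s + 4 * S.s ≤ 8 * S.s by omega) (show 1 + 1 + 1 ≤ 3 by omega)
  refine (h.mono ?_).congr fun ξ => ?_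
  · rw [← pow_succ', ← pow_add, ← pow_add]
    exact S.repK_pow_le (by omega)
  · unfold Kk
    by_cases ha : S.Cg ξ
    · by_cases hb : S.Cg (ξ + (e : S.G))
      · rw [if_pos ha, if_pos hb, if_pos ⟨ha, hb⟩]; ring
      · rw [if_neg hb, mul_zero, zero_mul, if_neg (fun h => hb h.2)]
    · rw [if_neg ha, zero_mul, zero_mul, if_neg (fun h => ha h.1)]

end Sys

end Pool.Agent.Work.MP_d018b2_nt.R
end

-- merged part: Pool.Agent.Work.MP_d018b2_nt.R.SPPos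
section
/-! The positive form. -/

set_option autoImplicit false
open Finset Pool.Agent.Lib.LargeSieve

namespace Pool.Agent.Work.MP_d018b2_nt.R

open Pool.Agent.Work.MP_678620_nt

namespace SPPosAux

/-- Grouping a double sum by the difference of the indices. -/
lemma fejer (H : ℕ) (Φ : ℤ → ℂ) :
    ∑ i ∈ range H, ∑ i' ∈ range H, Φ ((i' : ℤ) - i)
      = ∑ j ∈ Ioo (-(H : ℤ)) H, ((((H : ℝ) - |(j : ℝ)| : ℝ)) : ℂ) * Φ j := by
  have h1 : ∀ i ∈ range H, ∑ i' ∈ range H, Φ ((i' : ℤ) - i)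
      = ∑ j ∈ Ioo (-(H : ℤ)) H, if 0 ≤ (i : ℤ) + j ∧ (i : ℤ) + j < H then Φ j else 0 := by
    intro i hi
    rw [← sum_filter]
    have hi' := mem_range.1 hi
    refine sum_bij (fun i' _ => (i' : ℤ) - i) ?_ ?_ ?_ ?_
    · intro a ha
      have := mem_range.1 ha
      simp only [mem_filter, mem_Ioo]
      omega
    · intro a _ b _ h
      have h' : (a : ℤ) - i = (b : ℤ) - i := h
      omega
    · intro j hj
      simp only [mem_filter, mem_Ioo] at hj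
      refine ⟨((i : ℤ) + j).toNat, mem_range.2 (by omega), ?_⟩
      show ((((i : ℤ) + j).toNat : ℕ) : ℤ) - i = j
      omega
    · intro a _; rfl
  rw [sum_congr rfl h1, sum_comm]
  refine sum_congr rfl fun j hj => ?_
  rw [← sum_filter, sum_const, nsmul_eq_mul]
  congr 1
  have hj' := mem_Ioo.1 hj
  have h2 : ((range H).filter fun i : ℕ => 0 ≤ (i : ℤ) + j ∧ (i : ℤ) + j < H)
      = Ico (-j).toNat (H - j.toNat) := by
    ext i
    simp only [mem_filter, mem_range, mem_Ico]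
    omega
  rw [h2, Nat.card_Ico]
  have h3 : ((H - j.toNat - (-j).toNat : ℕ) : ℤ) = (H : ℤ) - |j| := by
    rcases abs_cases j with h | h <;> omega
  have h4 : ((H - j.toNat - (-j).toNat : ℕ) : ℝ) = (H : ℝ) - |(j : ℝ)| := by
    have := congrArg (fun z : ℤ => (z : ℝ)) h3
    simpa using this
  rw [← h4]
  simp

lemma conj_ee (x : ℝ) : (starRingEnd ℂ) (ee x) = ee (-x) := by
  unfold ee
  rw [← Complex.exp_conj]
  congr 1
  simp only [map_mul, Complex.conj_I, Complex.conj_ofReal]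
  push_cast
  ring

lemma normsq (z : ℂ) : ((‖z‖ ^ 2 : ℝ) : ℂ) = (starRingEnd ℂ) z * z := by
  rw [← Complex.normSq_eq_norm_sq, Complex.normSq_eq_conj_mul_self]

end SPPosAux

namespace Sys

variable {ι : Type} [Fintype ι] [DecidableEq ι] (S : Sys ι)

/-- The autocorrelation of `Ps`. -/
noncomputable def posA (r : ℕ) (a : Finset ι) (g : S.G → ℂ) (j : ℤ) : ℂ :=
  ∑ x : S.G, if a ⊆ S.Zs x then
    (starRingEnd ℂ) (S.Ps r a g x) * S.Ps r a g (x + ((S.jp a * j : ℤ) : S.G)) else 0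

lemma pos_sub_Zs (a : Finset ι) (j : ℤ) (x : S.G) :
    a ⊆ S.Zs (x + ((S.jp a * j : ℤ) : S.G)) ↔ a ⊆ S.Zs x :=
  S.sub_Zs_add (fun _ hp => S.jp_apply hp j) x

lemma pos_sum_St (r : ℕ) (a : Finset ι) (g : S.G → ℂ) :
    ∑ v ∈ S.VV r a, ∑ v' ∈ S.VV r a, S.St a v v' g g
      = ∑ j ∈ S.JJ a, S.kap a j * S.posA r a g j := by
  unfold St
  rw [sum_congr rfl fun v _ => sum_comm, sum_comm]
  refine sum_congr rfl fun j _ => ?_
  simp only [← mul_sum]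
  congr 1
  unfold posA
  rw [sum_congr rfl fun v _ => sum_comm, sum_comm]
  refine sum_congr rfl fun x _ => ?_
  by_cases ha : a ⊆ S.Zs x
  · rw [if_pos ha]
    unfold Ps
    rw [map_sum, sum_mul_sum]
    refine sum_congr rfl fun v _ => sum_congr rfl fun v' _ => ?_
    have ha' := (S.pos_sub_Zs a j x).2 ha
    simp only [union_subset_iff, ha, ha', true_and]
    by_cases h1 : v ⊆ S.Zs x <;> by_cases h2 : v' ⊆ S.Zs (x + ((S.jp a * j : ℤ) : S.G)) <;>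
      simp only [h1, h2, if_true, if_false, and_self, and_true, and_false, map_zero, zero_mul,
        mul_zero, false_and]
  · rw [if_neg ha]
    refine sum_eq_zero fun v _ => sum_eq_zero fun v' _ => if_neg fun h => ha ?_
    exact (union_subset_iff.1 h.1).1

lemma pos_shift (r : ℕ) (a : Finset ι) (g : S.G → ℂ) (i i' : ℤ) :
    (∑ x : S.G, if a ⊆ S.Zs x then
      (starRingEnd ℂ) (S.Ps r a g (x + ((S.jp a * i : ℤ) : S.G))) *
        S.Ps r a g (x + ((S.jp a * i' : ℤ) : S.G)) else 0) = S.posA r a g (i' - i) := by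
  unfold posA
  rw [← S.sum_add_right (fun x : S.G => if a ⊆ S.Zs x then
    (starRingEnd ℂ) (S.Ps r a g x) * S.Ps r a g (x + ((S.jp a * (i' - i) : ℤ) : S.G)) else 0)
    ((S.jp a * i : ℤ) : S.G)]
  refine sum_congr rfl fun x _ => ?_
  have e : x + ((S.jp a * i : ℤ) : S.G) + ((S.jp a * (i' - i) : ℤ) : S.G)
      = x + ((S.jp a * i' : ℤ) : S.G) := by
    push_cast; ring
  simp only [S.pos_sub_Zs, e]

lemma pos_one (r : ℕ) (a : Finset ι) (g : S.G → ℂ) (θ : ℝ) :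
    (((∑ x : S.G, if a ⊆ S.Zs x then
      ‖((S.Hk a : ℂ))⁻¹ * ∑ i ∈ range (S.Hk a),
        S.Ps r a g (x + ((S.jp a * i : ℤ) : S.G)) * ee (θ * i)‖ ^ 2 else 0 : ℝ)) : ℂ)
      = ∑ j ∈ S.JJ a, ee (θ * j) * (((((S.Hk a : ℝ) - |(j : ℝ)|) / (S.Hk a : ℝ) ^ 2 : ℝ)) : ℂ)
          * S.posA r a g j := by
  have h1 : ∀ x : S.G, (((if a ⊆ S.Zs x then
      ‖((S.Hk a : ℂ))⁻¹ * ∑ i ∈ range (S.Hk a),
        S.Ps r a g (x + ((S.jp a * i : ℤ) : S.G)) * ee (θ * i)‖ ^ 2 else 0 : ℝ)) : ℂ)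
      = ∑ i ∈ range (S.Hk a), ∑ i' ∈ range (S.Hk a),
          ((S.Hk a : ℂ) ^ 2)⁻¹ * ee (θ * (((i' : ℤ) - i : ℤ) : ℝ)) * if a ⊆ S.Zs x then
            (starRingEnd ℂ) (S.Ps r a g (x + ((S.jp a * i : ℤ) : S.G))) *
              S.Ps r a g (x + ((S.jp a * i' : ℤ) : S.G)) else 0 := by
    intro x
    by_cases ha : a ⊆ S.Zs x
    · simp only [if_pos ha]
      rw [SPPosAux.normsq, map_mul, map_sum, mul_mul_mul_comm, sum_mul_sum, mul_sum]
      refine sum_congr rfl fun i _ => ?_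
      rw [mul_sum]
      refine sum_congr rfl fun i' _ => ?_
      have e : θ * (((i' : ℤ) - i : ℤ) : ℝ) = -(θ * i) + θ * i' := by push_cast; ring
      rw [map_mul, SPPosAux.conj_ee, e, ee_add, map_inv₀, Complex.conj_natCast]
      ring
    · simp only [if_neg ha]
      simp
  rw [Complex.ofReal_sum, sum_congr rfl fun x _ => h1 x, sum_comm,
    sum_congr rfl fun i _ => sum_comm]
  simp only [← mul_sum, S.pos_shift]
  rw [SPPosAux.fejer (S.Hk a) fun j : ℤ =>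
    ((S.Hk a : ℂ) ^ 2)⁻¹ * ee (θ * (j : ℝ)) * S.posA r a g j]
  refine sum_congr rfl fun j _ => ?_
  push_cast
  ring

theorem SS_add_OV (r : ℕ) (g : S.G → ℂ) : S.SS r g g + S.OV r g g = (S.Pos r g : ℂ) := by
  unfold SS OV Pos
  rw [← sum_add_distrib, Complex.ofReal_sum]
  refine sum_congr rfl fun a _ => ?_
  have h1 : (∑ v ∈ S.VV r a, ∑ v' ∈ S.VV r a, if Disjoint v v' then S.St a v v' g g else 0)
      + (∑ v ∈ S.VV r a, ∑ v' ∈ S.VV r a, if Disjoint v v' then 0 else S.St a v v' g g)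
      = ∑ v ∈ S.VV r a, ∑ v' ∈ S.VV r a, S.St a v v' g g := by
    rw [← sum_add_distrib]
    refine sum_congr rfl fun v _ => ?_
    rw [← sum_add_distrib]
    refine sum_congr rfl fun v' _ => ?_
    split_ifs <;> simp
  rw [h1, S.pos_sum_St, Complex.ofReal_sum, sum_congr rfl fun (θ : ℚ) _ => S.pos_one r a g (θ : ℝ),
    sum_comm]
  refine sum_congr rfl fun j _ => ?_
  unfold kap
  rw [sum_mul]

/-- One half of the bound for `St`. -/
noncomputable def posU (a v v' : Finset ι) (g : S.G → ℂ) : ℝ :=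
  ∑ j ∈ S.JJ a, ‖S.kap a j‖ * ∑ x : S.G,
    if a ∪ v ⊆ S.Zs x ∧ a ∪ v' ⊆ S.Zs (x + ((S.jp a * j : ℤ) : S.G)) then
      ‖g (x + (S.jp (a ∪ v) : S.G))‖ ^ 2 else 0

lemma posU_symm (a v v' : Finset ι) (g : S.G → ℂ) :
    (∑ j ∈ S.JJ a, ‖S.kap a j‖ * ∑ x : S.G,
      if a ∪ v ⊆ S.Zs x ∧ a ∪ v' ⊆ S.Zs (x + ((S.jp a * j : ℤ) : S.G)) then
        ‖g (x + ((S.jp a * j : ℤ) : S.G) + (S.jp (a ∪ v') : S.G))‖ ^ 2 else 0)
      = S.posU a v' v g := by
  unfold posU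
  refine sum_bij' (fun j _ => -j) (fun j _ => -j) ?_ ?_ ?_ ?_ ?_
  · intro j hj
    simp only [JJ, mem_Ioo] at hj ⊢
    omega
  · intro j hj
    simp only [JJ, mem_Ioo] at hj ⊢
    omega
  · intro j _; simp
  · intro j _; simp
  · intro j _
    rw [S.kap_neg, Complex.norm_conj]
    congr 1
    rw [← S.sum_add_right (fun x : S.G =>
      if a ∪ v' ⊆ S.Zs x ∧ a ∪ v ⊆ S.Zs (x + ((S.jp a * -j : ℤ) : S.G)) then
        ‖g (x + (S.jp (a ∪ v') : S.G))‖ ^ 2 else 0) ((S.jp a * j : ℤ) : S.G)]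
    refine sum_congr rfl fun x _ => ?_
    have e : x + ((S.jp a * j : ℤ) : S.G) + ((S.jp a * -j : ℤ) : S.G) = x := by
      push_cast; ring
    simp only [e, and_comm]

lemma norm_St_le (a v v' : Finset ι) (g : S.G → ℂ) :
    ‖S.St a v v' g g‖ ≤ (S.posU a v v' g + S.posU a v' v g) / 2 := by
  rw [← S.posU_symm a v v' g]
  unfold St posU
  rw [← sum_add_distrib, sum_div]
  refine (norm_sum_le _ _).trans (sum_le_sum fun j _ => ?_)
  rw [norm_mul, ← mul_add, mul_div_assoc]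
  refine mul_le_mul_of_nonneg_left ?_ (norm_nonneg _)
  rw [← sum_add_distrib, sum_div]
  refine (norm_sum_le _ _).trans (sum_le_sum fun x _ => ?_)
  split_ifs
  · rw [norm_mul, Complex.norm_conj]
    nlinarith only [sq_nonneg (‖g (x + (S.jp (a ∪ v) : S.G))‖
      - ‖g (x + ((S.jp a * j : ℤ) : S.G) + (S.jp (a ∪ v') : S.G))‖)]
  · simp

lemma pos_card_mem {r : ℕ} (hr2 : 1 ≤ r) (a : Finset ι) {p : ι} (hp : p ∈ S.E) :
    ((((S.VV r a).filter fun v' => p ∈ v').card : ℕ) : ℝ)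
      ≤ 4 * (S.Q : ℝ) ^ 2 * S.Hk a / S.H0 := by
  have hH : (0 : ℝ) < S.H0 := lt_of_lt_of_le (by positivity) S.H0_big
  have hm := S.m_pos p
  have h1 : ((S.VV r a).filter fun v' => p ∈ v').card
      ≤ (Icc 1 (4 * S.Q ^ 2 * S.Hk a / S.m p)).card := by
    refine card_le_card_of_injOn (fun v' => S.pr v' / S.m p) ?_ ?_
    · intro v' hv'
      have hv'' := mem_filter.1 (mem_coe.1 hv')
      have hd := (S.m_dvd_pr hp).2 hv''.2
      have hle := S.pr_le_Hk hr2 hv''.1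
      refine mem_coe.2 (mem_Icc.2 ⟨?_, Nat.div_le_div_right hle⟩)
      exact Nat.div_pos (Nat.le_of_dvd (S.pr_pos _) hd) hm
    · intro v hv v' hv' h
      have h1 := mem_filter.1 (mem_coe.1 hv)
      have h2 := mem_filter.1 (mem_coe.1 hv')
      have hd1 := (S.m_dvd_pr hp).2 h1.2
      have hd2 := (S.m_dvd_pr hp).2 h2.2
      refine S.pr_inj (S.mem_VV.1 h1.1).1 (S.mem_VV.1 h2.1).1 ?_
      have h' : S.pr v / S.m p = S.pr v' / S.m p := h
      rw [← Nat.div_mul_cancel hd1, ← Nat.div_mul_cancel hd2, h']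
  rw [Nat.card_Icc, Nat.add_sub_cancel] at h1
  calc ((((S.VV r a).filter fun v' => p ∈ v').card : ℕ) : ℝ)
      ≤ ((4 * S.Q ^ 2 * S.Hk a / S.m p : ℕ) : ℝ) := by exact_mod_cast h1
    _ ≤ ((4 * S.Q ^ 2 * S.Hk a : ℕ) : ℝ) / S.m p := Nat.cast_div_le
    _ ≤ 4 * (S.Q : ℝ) ^ 2 * S.Hk a / S.H0 := by
      push_cast
      exact div_le_div_of_nonneg_left (by positivity) hH (S.lo p hp)

lemma pos_card_overlap {r : ℕ} (hr2 : 1 ≤ r) (hr : r ≤ S.k) {a v : Finset ι}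
    (hv : v ∈ S.VV r a) :
    ((((S.VV r a).filter fun v' => ¬ Disjoint v v').card : ℕ) : ℝ)
      ≤ S.Λ * (4 * (S.Q : ℝ) ^ 2 * S.Hk a / S.H0) := by
  have hH : (0 : ℝ) < S.H0 := lt_of_lt_of_le (by positivity) S.H0_big
  have hv' := S.mem_VV.1 hv
  have h1 : ((S.VV r a).filter fun v' => ¬ Disjoint v v')
      ⊆ v.biUnion fun p => (S.VV r a).filter fun v' => p ∈ v' := by
    intro v' h
    obtain ⟨h1, h2⟩ := mem_filter.1 h
    obtain ⟨p, hp, hp'⟩ := not_disjoint_iff.1 h2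
    exact mem_biUnion.2 ⟨p, hp, mem_filter.2 ⟨h1, hp'⟩⟩
  have h2 := (card_le_card h1).trans card_biUnion_le
  calc ((((S.VV r a).filter fun v' => ¬ Disjoint v v').card : ℕ) : ℝ)
      ≤ ∑ p ∈ v, ((((S.VV r a).filter fun v' => p ∈ v').card : ℕ) : ℝ) := by exact_mod_cast h2
    _ ≤ ∑ _p ∈ v, 4 * (S.Q : ℝ) ^ 2 * S.Hk a / S.H0 :=
      sum_le_sum fun p hp => S.pos_card_mem hr2 a (hv'.1 hp)
    _ = r * (4 * (S.Q : ℝ) ^ 2 * S.Hk a / S.H0) := by rw [sum_const, nsmul_eq_mul, hv'.2.2.1]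
    _ ≤ S.Λ * (4 * (S.Q : ℝ) ^ 2 * S.Hk a / S.H0) := by
      refine mul_le_mul_of_nonneg_right ?_ (by positivity)
      exact le_trans (by exact_mod_cast hr) S.k_le_Λ

lemma posU_le {r : ℕ} {a v v' : Finset ι} (hv' : v' ∈ S.VV r a) (g : S.G → ℂ) :
    S.posU a v v' g ≤ 2 * ((S.Q : ℝ) ^ 2 / S.Hk a) *
      ∑ y : S.G, if a ∪ v ⊆ S.Zs y then ‖g y‖ ^ 2 else 0 := by
  unfold posU
  rw [← S.sum_add_right (fun y : S.G => if a ∪ v ⊆ S.Zs y then ‖g y‖ ^ 2 else 0)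
    (S.jp (a ∪ v) : S.G), mul_sum]
  simp only [mul_sum]
  rw [sum_comm]
  refine sum_le_sum fun x _ => ?_
  have hz : a ∪ v ⊆ S.Zs (x + (S.jp (a ∪ v) : S.G)) ↔ a ∪ v ⊆ S.Zs x :=
    S.sub_Zs_add (fun _ hp => S.jp_apply' hp) x
  by_cases h : a ∪ v ⊆ S.Zs x
  · rw [if_pos (hz.2 h)]
    have hc : ((((S.JJ a).filter fun j => v' ⊆ S.Zs (x + ((S.jp a * j : ℤ) : S.G))).card : ℕ) : ℝ)
        ≤ 2 := by exact_mod_cast S.card_JJ_sub hv' x
    calc ∑ j ∈ S.JJ a, ‖S.kap a j‖ *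
          (if a ∪ v ⊆ S.Zs x ∧ a ∪ v' ⊆ S.Zs (x + ((S.jp a * j : ℤ) : S.G)) then
            ‖g (x + (S.jp (a ∪ v) : S.G))‖ ^ 2 else 0)
        ≤ ∑ j ∈ S.JJ a, if v' ⊆ S.Zs (x + ((S.jp a * j : ℤ) : S.G)) then
            (S.Q : ℝ) ^ 2 / S.Hk a * ‖g (x + (S.jp (a ∪ v) : S.G))‖ ^ 2 else 0 := by
          refine sum_le_sum fun j hj => ?_
          by_cases h2 : a ∪ v' ⊆ S.Zs (x + ((S.jp a * j : ℤ) : S.G))
          · rw [if_pos ⟨h, h2⟩, if_pos (union_subset_iff.1 h2).2]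
            exact mul_le_mul_of_nonneg_right (S.norm_kap_le a hj) (by positivity)
          · rw [if_neg fun h' => h2 h'.2, mul_zero]
            split_ifs <;> positivity
      _ = ((((S.JJ a).filter fun j => v' ⊆ S.Zs (x + ((S.jp a * j : ℤ) : S.G))).card : ℕ) : ℝ) *
            ((S.Q : ℝ) ^ 2 / S.Hk a * ‖g (x + (S.jp (a ∪ v) : S.G))‖ ^ 2) := by
          rw [← sum_filter, sum_const, nsmul_eq_mul]
      _ ≤ 2 * ((S.Q : ℝ) ^ 2 / S.Hk a) * ‖g (x + (S.jp (a ∪ v) : S.G))‖ ^ 2 := by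
          rw [mul_assoc]
          exact mul_le_mul_of_nonneg_right hc (by positivity)
  · rw [if_neg fun h' => h (hz.1 h'), mul_zero]
    refine le_of_eq (sum_eq_zero fun j _ => ?_)
    rw [if_neg fun h' => h h'.1, mul_zero]

lemma pos_sumU {r : ℕ} (hr2 : 1 ≤ r) (hr : r ≤ S.k) {a v : Finset ι} (hv : v ∈ S.VV r a)
    (g : S.G → ℂ) :
    (∑ v' ∈ S.VV r a, if Disjoint v v' then 0 else S.posU a v v' g)
      ≤ 8 * (S.Q : ℝ) ^ 4 * S.Λ / S.H0 *
        ∑ y : S.G, if a ∪ v ⊆ S.Zs y then ‖g y‖ ^ 2 else 0 := by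
  have hH : (0 : ℝ) < S.H0 := lt_of_lt_of_le (by positivity) S.H0_big
  have hK : (0 : ℝ) < S.Hk a := lt_of_lt_of_le one_pos (S.one_le_Hk hr2 hv)
  set W : ℝ := ∑ y : S.G, if a ∪ v ⊆ S.Zs y then ‖g y‖ ^ 2 else 0 with hW
  have hW0 : 0 ≤ W := sum_nonneg fun y _ => by split_ifs <;> positivity
  calc (∑ v' ∈ S.VV r a, if Disjoint v v' then 0 else S.posU a v v' g)
      ≤ ∑ v' ∈ S.VV r a, if ¬ Disjoint v v' then 2 * ((S.Q : ℝ) ^ 2 / S.Hk a) * W else 0 := by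
        refine sum_le_sum fun v' hv' => ?_
        by_cases h : Disjoint v v'
        · simp [h]
        · rw [if_neg h, if_pos h]
          exact S.posU_le hv' g
    _ = ((((S.VV r a).filter fun v' => ¬ Disjoint v v').card : ℕ) : ℝ) *
          (2 * ((S.Q : ℝ) ^ 2 / S.Hk a) * W) := by
        rw [← sum_filter, sum_const, nsmul_eq_mul]
    _ ≤ S.Λ * (4 * (S.Q : ℝ) ^ 2 * S.Hk a / S.H0) * (2 * ((S.Q : ℝ) ^ 2 / S.Hk a) * W) :=
        mul_le_mul_of_nonneg_right (S.pos_card_overlap hr2 hr hv) (by positivity)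
    _ = 8 * (S.Q : ℝ) ^ 4 * S.Λ / S.H0 * W := by
        field_simp
        ring

lemma pos_sumD {g : S.G → ℂ} (hg : S.Supp g) :
    (∑ d ∈ S.DD, ∑ y : S.G, if d ⊆ S.Zs y then ‖g y‖ ^ 2 else 0) ≤ S.D' * S.nn g := by
  unfold nn
  rw [sum_comm, mul_sum]
  refine sum_le_sum fun y _ => ?_
  rw [← sum_filter, sum_const, nsmul_eq_mul]
  by_cases h : g y = 0
  · simp [h]
  · refine mul_le_mul_of_nonneg_right ?_ (by positivity)
    exact_mod_cast S.card_DD_sub (hg y h).1.le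

theorem OV_le {r : ℕ} (hr2 : 1 ≤ r) (hr : r ≤ S.k) {g : S.G → ℂ} (hg : S.Supp g) :
    ‖S.OV r g g‖ ≤ 8 * (S.Q : ℝ) ^ 4 * S.Λ / S.H0 * S.D * S.D' * S.nn g := by
  have hH : (0 : ℝ) < S.H0 := lt_of_lt_of_le (by positivity) S.H0_big
  have hΛ : (0 : ℝ) < S.Λ := lt_of_lt_of_le (by norm_num) S.big
  have h1 : ∀ a ∈ S.AA r,
      ‖∑ v ∈ S.VV r a, ∑ v' ∈ S.VV r a, if Disjoint v v' then 0 else S.St a v v' g g‖
        ≤ ∑ v ∈ S.VV r a, ∑ v' ∈ S.VV r a, if Disjoint v v' then 0 else S.posU a v v' g := by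
    intro a _
    have hs : (∑ v ∈ S.VV r a, ∑ v' ∈ S.VV r a, if Disjoint v v' then 0 else S.posU a v' v g)
        = ∑ v ∈ S.VV r a, ∑ v' ∈ S.VV r a, if Disjoint v v' then 0 else S.posU a v v' g := by
      rw [sum_comm]
      refine sum_congr rfl fun v _ => sum_congr rfl fun v' _ => ?_
      simp only [disjoint_comm (a := v')]
    calc ‖∑ v ∈ S.VV r a, ∑ v' ∈ S.VV r a, if Disjoint v v' then 0 else S.St a v v' g g‖
        ≤ ∑ v ∈ S.VV r a, ∑ v' ∈ S.VV r a, ((if Disjoint v v' then 0 else S.posU a v v' g)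
            + if Disjoint v v' then 0 else S.posU a v' v g) / 2 := by
          refine (norm_sum_le _ _).trans (sum_le_sum fun v _ => ?_)
          refine (norm_sum_le _ _).trans (sum_le_sum fun v' _ => ?_)
          split_ifs
          · simp
          · exact S.norm_St_le a v v' g
      _ = _ := by
          simp only [← sum_div, sum_add_distrib]
          rw [hs]; ring
  unfold OV
  calc ‖∑ a ∈ S.AA r, ∑ v ∈ S.VV r a, ∑ v' ∈ S.VV r a,
          if Disjoint v v' then 0 else S.St a v v' g g‖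
      ≤ ∑ a ∈ S.AA r, ∑ v ∈ S.VV r a, 8 * (S.Q : ℝ) ^ 4 * S.Λ / S.H0 *
          ∑ y : S.G, if a ∪ v ⊆ S.Zs y then ‖g y‖ ^ 2 else 0 := by
        refine (norm_sum_le _ _).trans (sum_le_sum fun a ha => (h1 a ha).trans ?_)
        exact sum_le_sum fun v hv => S.pos_sumU hr2 hr hv g
    _ = 8 * (S.Q : ℝ) ^ 4 * S.Λ / S.H0 * ∑ a ∈ S.AA r, ∑ v ∈ S.VV r a,
          ∑ y : S.G, if a ∪ v ⊆ S.Zs y then ‖g y‖ ^ 2 else 0 := by
        simp only [← mul_sum]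
    _ ≤ 8 * (S.Q : ℝ) ^ 4 * S.Λ / S.H0 * (S.D * (S.D' * S.nn g)) := by
        refine mul_le_mul_of_nonneg_left ?_ (by positivity)
        refine (S.sum_AV_le hr (Φ := fun d => ∑ y : S.G, if d ⊆ S.Zs y then ‖g y‖ ^ 2 else 0)
          fun d _ => sum_nonneg fun y _ => by split_ifs <;> positivity).trans ?_
        exact mul_le_mul_of_nonneg_left (S.pos_sumD hg) (by positivity)
    _ = _ := by ring

end Sys

end Pool.Agent.Work.MP_d018b2_nt.R
end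

-- merged part: Pool.Agent.Work.MP_d018b2_nt.R.SPInt4A
section
/-! Short sums of divisor-type functions, and the splitting by labels. -/

set_option autoImplicit false
open Finset Pool.Agent.Lib.LargeSieve

namespace Pool.Agent.Work.MP_d018b2_nt.R

open Pool.Agent.Work.MP_678620_nt

namespace Int4

/-- A short exponential sum along a progression. -/
noncomputable def sh (h : ℤ) (H : ℕ) (θ : ℚ) (Ψ : ℤ → ℂ) (m : ℤ) : ℂ :=
  ∑ i ∈ range H, Ψ (m + h * i) * ee (θ * i)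

/-- A sum over divisors from a given family. -/
noncomputable def dv {α : Type*} (h : ℤ) (s : Finset α) (u : α → ℕ) (c : α → ℤ → ℂ) (M : ℤ) : ℂ :=
  ∑ v ∈ s, if (u v : ℤ) ∣ M then c v (M / u v + h) else 0

lemma hit_once {u H : ℕ} {h : ℤ} (hc : IsCoprime (u : ℤ) h) (hH : H ≤ u) (m : ℤ) :
    ((range H).filter fun i : ℕ => (u : ℤ) ∣ m + h * i).card ≤ 1 := by
  rw [Finset.card_le_one]
  intro i hi j hj
  simp only [mem_filter, mem_range] at hi hj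
  have h1 : (u : ℤ) ∣ h * ((i : ℤ) - j) := by
    have := dvd_sub hi.2 hj.2
    rwa [show m + h * (i : ℤ) - (m + h * j) = h * ((i : ℤ) - j) by ring] at this
  have h2 : (u : ℤ) ∣ (i : ℤ) - j := hc.dvd_of_dvd_mul_left h1
  have h3 := Int.eq_zero_of_abs_lt_dvd h2 (by rw [abs_lt]; constructor <;> omega)
  omega

lemma norm_sh_le (h : ℤ) (H : ℕ) (θ : ℚ) (Ψ : ℤ → ℂ) (m : ℤ) :
    ‖sh h H θ Ψ m‖ ≤ ∑ i ∈ range H, ‖Ψ (m + h * i)‖ := by
  refine (norm_sum_le _ _).trans (le_of_eq ?_)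
  refine sum_congr rfl fun i _ => ?_
  rw [norm_mul, norm_ee, mul_one]

lemma norm_dv_le {α : Type*} (h : ℤ) (s : Finset α) (u : α → ℕ) (c : α → ℤ → ℂ) (M : ℤ) :
    ‖dv h s u c M‖ ≤ ∑ v ∈ s, if (u v : ℤ) ∣ M then ‖c v (M / u v + h)‖ else 0 := by
  refine (norm_sum_le _ _).trans (le_of_eq ?_)
  refine sum_congr rfl fun v _ => ?_
  split_ifs <;> simp

lemma sh_congr {h : ℤ} {H : ℕ} (θ : ℚ) {Ψ Ψ' : ℤ → ℂ} {m : ℤ}
    (he : ∀ i ∈ range H, Ψ (m + h * i) = Ψ' (m + h * i)) : sh h H θ Ψ m = sh h H θ Ψ' m :=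
  sum_congr rfl fun i hi => by rw [he i hi]

lemma norm_sh_dv_le {α : Type*} {h : ℤ} {H : ℕ} (θ : ℚ) {s : Finset α} {u : α → ℕ}
    {c : α → ℤ → ℂ} (hu : ∀ v ∈ s, IsCoprime (u v : ℤ) h ∧ H ≤ u v)
    (hc : ∀ v ∈ s, ∀ n, ‖c v n‖ ≤ 1) (m : ℤ) : ‖sh h H θ (dv h s u c) m‖ ≤ s.card := by
  refine (norm_sh_le _ _ _ _ _).trans ?_
  calc ∑ i ∈ range H, ‖dv h s u c (m + h * i)‖
      ≤ ∑ i ∈ range H, ∑ v ∈ s, if (u v : ℤ) ∣ m + h * (i : ℕ) then (1 : ℝ) else 0 := by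
        refine sum_le_sum fun i _ => (norm_dv_le _ _ _ _ _).trans (sum_le_sum fun v hv => ?_)
        split_ifs
        · exact hc v hv _
        · exact le_rfl
    _ = ∑ v ∈ s, (((range H).filter fun i : ℕ => (u v : ℤ) ∣ m + h * i).card : ℝ) := by
        rw [sum_comm]
        refine sum_congr rfl fun v _ => ?_
        rw [sum_boole]
    _ ≤ ∑ _v ∈ s, (1 : ℝ) := by
        refine sum_le_sum fun v hv => ?_
        exact_mod_cast hit_once (hu v hv).1 (hu v hv).2 m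
    _ = s.card := by simp

lemma sum_norm_sh_dv_le {α : Type*} {h : ℤ} {H : ℕ} (θ : ℚ) {s : Finset α} {u : α → ℕ}
    {c : α → ℤ → ℂ} (M : Finset ℤ) (B : α → Finset ℤ)
    (hc : ∀ v ∈ s, ∀ m ∈ M, ∀ i ∈ range H, (u v : ℤ) ∣ m + h * i →
      ‖c v ((m + h * i) / u v + h)‖ ≤ if (m + h * i) / u v + h ∈ B v then 1 else 0) :
    ∑ m ∈ M, ‖sh h H θ (dv h s u c) m‖ ≤ H * ∑ v ∈ s, ((B v).card : ℝ) := by
  calc ∑ m ∈ M, ‖sh h H θ (dv h s u c) m‖
      ≤ ∑ m ∈ M, ∑ i ∈ range H, ∑ v ∈ s,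
          if (u v : ℤ) ∣ m + h * (i : ℕ) ∧ (m + h * (i : ℕ)) / u v + h ∈ B v then (1 : ℝ) else 0 := by
        refine sum_le_sum fun m hm => (norm_sh_le _ _ _ _ _).trans (sum_le_sum fun i hi => ?_)
        refine (norm_dv_le _ _ _ _ _).trans (sum_le_sum fun v hv => ?_)
        by_cases hd : (u v : ℤ) ∣ m + h * i
        · simp only [hd, if_true, true_and]
          exact hc v hv m hm i hi hd
        · simp [hd]
    _ = ∑ i ∈ range H, ∑ v ∈ s, ((M.filter fun m =>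
          (u v : ℤ) ∣ m + h * (i : ℕ) ∧ (m + h * (i : ℕ)) / u v + h ∈ B v).card : ℝ) := by
        rw [sum_comm]
        refine sum_congr rfl fun i _ => ?_
        rw [sum_comm]
        refine sum_congr rfl fun v _ => ?_
        rw [sum_boole]
    _ ≤ ∑ _i ∈ range H, ∑ v ∈ s, ((B v).card : ℝ) := by
        refine sum_le_sum fun i _ => sum_le_sum fun v _ => ?_
        have : (M.filter fun m =>
            (u v : ℤ) ∣ m + h * (i : ℕ) ∧ (m + h * (i : ℕ)) / u v + h ∈ B v).card ≤ (B v).card := by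
          refine card_le_card_of_injOn (fun m => (m + h * (i : ℕ)) / u v + h) ?_ ?_
          · intro m hm
            exact (mem_filter.1 (mem_coe.1 hm)).2.2
          · intro m hm m' hm' he
            have h1 := (mem_filter.1 (mem_coe.1 hm)).2.1
            have h2 := (mem_filter.1 (mem_coe.1 hm')).2.1
            have he' : (m + h * (i : ℕ)) / u v = (m' + h * (i : ℕ)) / u v := by
              simpa using he
            have e1 := Int.mul_ediv_cancel' h1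
            have e2 := Int.mul_ediv_cancel' h2
            rw [he', e2] at e1
            linarith only [e1]
        exact_mod_cast this
    _ = H * ∑ v ∈ s, ((B v).card : ℝ) := by simp

/-- The integers `m` with `A * m` in `Ioc lo hi`. -/
noncomputable def Iv (A : ℕ) (lo hi : ℤ) : Finset ℤ := Ioc (lo / A) (hi / A)

lemma mem_Iv {A : ℕ} (hA : 0 < A) {lo hi m : ℤ} : m ∈ Iv A lo hi ↔ lo < A * m ∧ A * m ≤ hi := by
  have hA' : (0 : ℤ) < A := by exact_mod_cast hA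
  rw [Iv, mem_Ioc, Int.ediv_lt_iff_lt_mul hA', Int.le_ediv_iff_mul_le hA', mul_comm m]

lemma card_Iv_le {A : ℕ} (hA : 0 < A) {lo hi : ℤ} (h : lo ≤ hi) :
    ((Iv A lo hi).card : ℝ) ≤ ((hi - lo : ℤ) : ℝ) / A + 1 := by
  have hA' : (0 : ℤ) < A := by exact_mod_cast hA
  have hAr : (0 : ℝ) < A := by exact_mod_cast hA
  have h1 : lo / A ≤ hi / A := Int.ediv_le_ediv hA' h
  have h2 : ((Iv A lo hi).card : ℤ) = hi / A - lo / A := by
    rw [Iv, Int.card_Ioc, Int.toNat_of_nonneg (by omega)]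
  have h3 : hi / A * A ≤ hi := Int.ediv_mul_le hi hA'.ne'
  have h4 : lo < (lo / A + 1) * A := Int.lt_ediv_add_one_mul_self lo hA'
  have h5 : ((Iv A lo hi).card : ℤ) * A ≤ hi - lo + A := by
    rw [h2]; nlinarith only [h3, h4]
  have h6 : ((Iv A lo hi).card : ℝ) * A ≤ ((hi - lo : ℤ) : ℝ) + A := by exact_mod_cast h5
  rw [div_add_one hAr.ne', le_div_iff₀ hAr]
  exact h6

lemma sum_dvd_eq {β : Type*} [AddCommMonoid β] {A : ℕ} (hA : 0 < A) (lo hi : ℤ) (f : ℤ → β) :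
    ∑ x ∈ Ioc lo hi, (if (A : ℤ) ∣ x then f x else 0) = ∑ m ∈ Iv A lo hi, f (A * m) := by
  have hA' : (A : ℤ) ≠ 0 := by exact_mod_cast hA.ne'
  rw [← sum_filter]
  symm
  refine sum_bij (fun m _ => (A : ℤ) * m) ?_ ?_ ?_ ?_
  · intro m hm
    rw [mem_Iv hA] at hm
    exact mem_filter.2 ⟨mem_Ioc.2 hm, dvd_mul_right _ _⟩
  · intro m _ m' _ he
    exact mul_left_cancel₀ hA' he
  · intro x hx
    obtain ⟨hx1, m, rfl⟩ := mem_filter.1 hx
    exact ⟨m, (mem_Iv hA).2 (mem_Ioc.1 hx1), rfl⟩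
  · intro m _
    rfl

variable {ι : Type} [Fintype ι] [DecidableEq ι] (S : Sys ι)

/-- The primes outside `a` with label `l`. -/
def Il (a : Finset ι) (l : ℕ) : Finset ι := (S.E \ a).filter fun p => S.lab p = l

/-- The cofactors for the label `l`. -/
def Wl (r : ℕ) (a : Finset ι) (l : ℕ) : Finset (Finset ι) :=
  ((S.E \ a).powersetCard (r - 1)).filter fun w =>
    ∃ p0 ∈ Il S a l, p0 ∉ w ∧ insert p0 (a ∪ w) ∈ S.DD

/-- The pairs in which the prime divides the cofactor. -/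
def PW (r : ℕ) (a : Finset ι) : Finset (Σ _ : ι, Finset ι) :=
  (S.E \ a).sigma fun p => (Wl S r a (S.lab p)).filter fun w => p ∈ w

lemma mem_Il {a : Finset ι} {l : ℕ} {p : ι} : p ∈ Il S a l ↔ p ∈ S.E ∧ p ∉ a ∧ S.lab p = l := by
  simp [Il, and_assoc]

lemma mem_Wl {r : ℕ} {a : Finset ι} {l : ℕ} {w : Finset ι} :
    w ∈ Wl S r a l ↔ w ⊆ S.E ∧ Disjoint a w ∧ w.card = r - 1 ∧
      ∃ p0 ∈ Il S a l, p0 ∉ w ∧ insert p0 (a ∪ w) ∈ S.DD := by
  rw [Wl, mem_filter, mem_powersetCard, subset_sdiff, disjoint_comm]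
  tauto

lemma sum_mem_VV {r : ℕ} (a : Finset ι) {p : ι} (hp : p ∈ S.E \ a) (hr : 1 ≤ r) (f : ℕ → ℂ) :
    ∑ v ∈ (S.VV r a).filter (fun v => p ∈ v), f (S.pr v)
      = ∑ w ∈ (Wl S r a (S.lab p)).filter (fun w => p ∉ w), f (S.m p * S.pr w) := by
  obtain ⟨hpE, hpa⟩ := mem_sdiff.1 hp
  symm
  refine sum_bij (fun w _ => insert p w) ?_ ?_ ?_ ?_
  · intro w hw
    obtain ⟨hw, hpw⟩ := mem_filter.1 hw
    obtain ⟨h1, h2, h3, p0, hp0, h4, h5⟩ := (mem_Wl S).1 hw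
    obtain ⟨h6, h7, h8⟩ := (mem_Il S).1 hp0
    refine mem_filter.2 ⟨S.mem_VV.2 ⟨insert_subset hpE h1, ?_, ?_, ?_⟩, mem_insert_self _ _⟩
    · exact disjoint_insert_right.2 ⟨hpa, h2⟩
    · rw [card_insert_of_notMem hpw, h3]; omega
    · rw [union_insert]
      exact S.lab_DD (a ∪ w) p0 h6 p hpE (by simp [h7, h4]) (by simp [hpa, hpw]) h8 h5
  · intro w hw w' hw' he
    have h1 := (mem_filter.1 hw).2
    have h2 := (mem_filter.1 hw').2
    rw [← erase_insert h1, ← erase_insert h2]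
    exact congrArg (fun v => erase v p) he
  · intro v hv
    obtain ⟨hv, hpv⟩ := mem_filter.1 hv
    obtain ⟨h1, h2, h3, h4⟩ := S.mem_VV.1 hv
    refine ⟨v.erase p, mem_filter.2 ⟨(mem_Wl S).2 ⟨(erase_subset _ _).trans h1,
      h2.mono_right (erase_subset _ _), by rw [card_erase_of_mem hpv, h3], p,
      (mem_Il S).2 ⟨hpE, hpa, rfl⟩, notMem_erase _ _, ?_⟩, notMem_erase _ _⟩, insert_erase hpv⟩
    rw [← union_insert, insert_erase hpv]
    exact h4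
  · intro w hw
    rw [S.pr_insert (mem_filter.1 hw).2]

/-- Splitting off one prime and grouping by labels. -/
lemma label_split {r : ℕ} (a : Finset ι) (hr : 1 ≤ r) (f : ℕ → ℂ) :
    (r : ℂ) * ∑ v ∈ S.VV r a, f (S.pr v)
      = ∑ l ∈ S.E.image S.lab, ∑ p ∈ Il S a l, ∑ w ∈ Wl S r a l, f (S.m p * S.pr w)
        - ∑ x ∈ PW S r a, f (S.m x.1 * S.pr x.2) := by
  have h1 : (r : ℂ) * ∑ v ∈ S.VV r a, f (S.pr v)
      = ∑ p ∈ S.E \ a, ∑ v ∈ (S.VV r a).filter (fun v => p ∈ v), f (S.pr v) := by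
    simp only [sum_filter]
    rw [sum_comm, mul_sum]
    refine sum_congr rfl fun v hv => ?_
    obtain ⟨h1, h2, h3, -⟩ := S.mem_VV.1 hv
    rw [← sum_filter, sum_const, nsmul_eq_mul]
    have : (S.E \ a).filter (fun p => p ∈ v) = v := by
      ext p
      simp only [mem_filter, mem_sdiff]
      exact ⟨fun h => h.2, fun h => ⟨⟨h1 h, fun ha => disjoint_left.1 h2 ha h⟩, h⟩⟩
    rw [this, h3]
  have h2 : ∑ l ∈ S.E.image S.lab, ∑ p ∈ Il S a l, ∑ w ∈ Wl S r a l, f (S.m p * S.pr w)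
      = ∑ p ∈ S.E \ a, ∑ w ∈ Wl S r a (S.lab p), f (S.m p * S.pr w) := by
    rw [← sum_fiberwise_of_maps_to (s := S.E \ a) (t := S.E.image S.lab) (g := S.lab)
      (fun p hp => mem_image_of_mem _ (mem_sdiff.1 hp).1)]
    refine sum_congr rfl fun l _ => sum_congr rfl fun p hp => ?_
    rw [((mem_Il S).1 hp).2.2]
  rw [h1, h2, PW, sum_sigma, ← sum_sub_distrib]
  refine sum_congr rfl fun p hp => ?_
  rw [sum_mem_VV S a hp hr f, eq_sub_iff_add_eq, add_comm]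
  exact sum_filter_add_sum_filter_not _ _ _

lemma size_pw {r : ℕ} {a : Finset ι} {l : ℕ} {p : ι} (hp : p ∈ Il S a l) {w : Finset ι}
    (hw : w ∈ Wl S r a l) :
    S.T ≤ S.pr a * (2 * (S.m p * S.pr w)) ∧ S.pr a * (S.m p * S.pr w) ≤ 4 * S.T := by
  obtain ⟨h1, h2, h3, p0, hp0, h4, h5⟩ := (mem_Wl S).1 hw
  obtain ⟨h6, h7, h8⟩ := (mem_Il S).1 hp0
  obtain ⟨h9, -, h10⟩ := (mem_Il S).1 hp
  have e : S.pr (insert p0 (a ∪ w)) = S.m p0 * (S.pr a * S.pr w) := by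
    rw [S.pr_insert (by simp [h7, h4]), S.pr_union h2]
  have lo : S.T ≤ S.m p0 * (S.pr a * S.pr w) := e ▸ S.DD_lo _ h5
  have hi : S.m p0 * (S.pr a * S.pr w) ≤ 2 * S.T := e ▸ S.DD_hi _ h5
  have c1 := S.lab_close p h9 p0 h6 (h10.trans h8.symm)
  have c2 := S.lab_close p0 h6 p h9 (h8.trans h10.symm)
  constructor
  · calc S.T ≤ S.m p0 * (S.pr a * S.pr w) := lo
      _ ≤ 2 * S.m p * (S.pr a * S.pr w) := Nat.mul_le_mul_right _ c2
      _ = _ := by ring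
  · calc S.pr a * (S.m p * S.pr w) = S.m p * (S.pr a * S.pr w) := by ring
      _ ≤ 2 * S.m p0 * (S.pr a * S.pr w) := Nat.mul_le_mul_right _ c1
      _ = 2 * (S.m p0 * (S.pr a * S.pr w)) := by ring
      _ ≤ 4 * S.T := by omega

lemma QH_le_J (a : Finset ι) : S.Q ^ 2 * S.Hk a ≤ S.T / S.pr a := by
  rw [Nat.le_div_iff_mul_le (S.pr_pos a)]
  have := S.Hk_mul_le a
  nlinarith only [this]

lemma four_H_le_J (a : Finset ι) : 4 * S.Hk a ≤ S.T / S.pr a := by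
  refine le_trans (Nat.mul_le_mul_right _ ?_) (QH_le_J S a)
  have := S.Q_ge
  nlinarith only [this]

lemma size_J {r : ℕ} {a : Finset ι} (hH : 1 ≤ S.Hk a) {l : ℕ} {p : ι} (hp : p ∈ Il S a l)
    {w : Finset ι} (hw : w ∈ Wl S r a l) :
    S.T / S.pr a ≤ 2 * (S.m p * S.pr w) ∧ S.m p * S.pr w ≤ 5 * (S.T / S.pr a) := by
  obtain ⟨h1, h2⟩ := size_pw S hp hw
  refine ⟨Nat.div_le_of_le_mul h1, ?_⟩
  have h3 := four_H_le_J S a
  have h4 : S.T < S.pr a * (S.T / S.pr a + 1) := Nat.lt_mul_div_succ _ (S.pr_pos a)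
  have h5 : S.pr a * (S.m p * S.pr w) < S.pr a * (4 * (S.T / S.pr a + 1)) := by nlinarith only [h2, h4]
  have h6 := lt_of_mul_lt_mul_left h5 (Nat.zero_le _)
  omega

lemma card_PW_le {r : ℕ} {a : Finset ι} (hH : 1 ≤ S.Hk a) :
    ((PW S r a).card : ℝ) ≤ 5 * (S.T / S.pr a : ℕ) * S.Λ / S.H0 := by
  have hH0 : 0 < S.H0 := lt_of_lt_of_le (by norm_num) S.H0_big
  set J : ℕ := S.T / S.pr a with hJ
  rw [PW, card_sigma]
  push_cast
  calc ∑ p ∈ S.E \ a, (((Wl S r a (S.lab p)).filter fun w => p ∈ w).card : ℝ)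
      ≤ ∑ p ∈ S.E \ a, 5 * J * S.H0⁻¹ * S.nu p := by
        refine sum_le_sum fun p hp => ?_
        obtain ⟨hpE, hpa⟩ := mem_sdiff.1 hp
        have hm := S.m_pos p
        have h1 : ((Wl S r a (S.lab p)).filter fun w => p ∈ w).card
            ≤ (Icc 1 (5 * J / (S.m p * S.m p))).card := by
          refine card_le_card_of_injOn (fun w => S.pr w / S.m p) ?_ ?_
          · intro w hw
            obtain ⟨hw, hpw⟩ := mem_filter.1 (mem_coe.1 hw)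
            obtain ⟨t, ht⟩ := (S.m_dvd_pr hpE).2 hpw
            have h2 := (size_J S hH ((mem_Il S).2 ⟨hpE, hpa, rfl⟩) hw).2
            have h3 := S.pr_pos w
            simp only [coe_Icc, Set.mem_Icc]
            rw [ht, Nat.mul_div_cancel_left _ hm, Nat.le_div_iff_mul_le (Nat.mul_pos hm hm)]
            rw [ht] at h2 h3
            refine ⟨Nat.pos_of_mul_pos_left h3, ?_⟩
            calc t * (S.m p * S.m p) = S.m p * (S.m p * t) := by ring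
              _ ≤ _ := h2
          · intro w hw w' hw' he
            obtain ⟨hw, hpw⟩ := mem_filter.1 (mem_coe.1 hw)
            obtain ⟨hw', hpw'⟩ := mem_filter.1 (mem_coe.1 hw')
            refine S.pr_inj ((mem_Wl S).1 hw).1 ((mem_Wl S).1 hw').1 ?_
            rw [← Nat.mul_div_cancel' ((S.m_dvd_pr hpE).2 hpw),
              ← Nat.mul_div_cancel' ((S.m_dvd_pr hpE).2 hpw')]
            exact congrArg (fun t => S.m p * t) he
        rw [Nat.card_Icc, Nat.add_sub_cancel] at h1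
        have h2 : ((5 * J / (S.m p * S.m p) : ℕ) : ℝ) ≤ 5 * J * S.nu p * S.nu p := by
          refine Nat.cast_div_le.trans (le_of_eq ?_)
          simp only [Sys.nu]
          push_cast
          rw [div_eq_mul_inv, mul_inv, mul_assoc, mul_assoc, mul_assoc]
        have h3 := S.nu_le hpE
        have h4 := S.nu_pos p
        calc _ ≤ ((5 * J / (S.m p * S.m p) : ℕ) : ℝ) := by exact_mod_cast h1
          _ ≤ 5 * J * S.nu p * S.nu p := h2
          _ ≤ 5 * J * S.H0⁻¹ * S.nu p := by gcongr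
    _ ≤ ∑ p ∈ S.E, 5 * J * S.H0⁻¹ * S.nu p := by
        refine sum_le_sum_of_subset_of_nonneg sdiff_subset fun p _ _ => ?_
        have := S.nu_pos p
        positivity
    _ = 5 * J * S.H0⁻¹ * S.L := by rw [← mul_sum]; rfl
    _ ≤ 5 * J * S.H0⁻¹ * S.Λ := by
        have := S.L_le
        gcongr
    _ = 5 * J * S.Λ / S.H0 := by rw [div_eq_mul_inv]; ring

lemma PW_ok {r : ℕ} {a : Finset ι} (hH : 1 ≤ S.Hk a) {x : Σ _ : ι, Finset ι} (hx : x ∈ PW S r a) :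
    IsCoprime ((S.m x.1 * S.pr x.2 : ℕ) : ℤ) S.h ∧ S.Hk a ≤ S.m x.1 * S.pr x.2 := by
  obtain ⟨hp, hw⟩ := mem_sigma.1 hx
  obtain ⟨hpE, hpa⟩ := mem_sdiff.1 hp
  obtain ⟨hw, -⟩ := mem_filter.1 hw
  have h1 := (size_J S hH ((mem_Il S).2 ⟨hpE, hpa, rfl⟩) hw).1
  have h2 := four_H_le_J S a
  refine ⟨?_, by omega⟩
  have h3 := S.coprime_pr_h (singleton_subset_iff.2 hpE)
  have h4 := S.coprime_pr_h ((mem_Wl S).1 hw).1
  rw [Sys.pr, prod_singleton] at h3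
  push_cast
  exact h3.mul_left h4

/-- The bound for one label. -/
lemma label_le {r : ℕ} (hr2 : 1 ≤ r) {a v : Finset ι} (hv : v ∈ S.VV r a) {N : ℕ} {c : ℤ → ℂ}
    {ε : ℝ} (hε : 0 ≤ ε) {Jm : ℕ} (hJ : S.T ≤ Jm) (hMR : MRB N c S.h (S.H0 / 2) S.H1 S.Q Jm ε) {θ : ℚ}
    (hθ : θ ∈ S.FF) (l : ℕ) {M : Finset ℤ}
    (hM : M ⊆ Icc ((S.T / S.pr a * N / 2 : ℕ) : ℤ) (5 * (S.T / S.pr a) * N : ℕ)) :
    ∑ m ∈ M, ‖sh S.h (S.Hk a) θ (fun y => ∑ p ∈ Il S a l, ∑ w ∈ Wl S r a l,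
        if ((S.m p * S.pr w : ℕ) : ℤ) ∣ y then c (y / (S.m p * S.pr w : ℕ) + S.h) else 0) m‖ ^ 2
      ≤ ε * (S.Hk a : ℝ) ^ 2 * (S.T / S.pr a : ℕ) * N := by
  have hH0 : (5 : ℝ) ≤ S.H0 := le_trans (by norm_num) S.H0_big
  have hH : 1 ≤ S.Hk a := S.Jav_one hr2 hv
  rcases (Wl S r a l).eq_empty_or_nonempty with h0 | ⟨w0, hw0⟩
  · simp only [h0, sh, sum_empty, sum_const_zero, zero_mul, norm_zero]
    simp only [ne_eq, OfNat.ofNat_ne_zero, not_false_eq_true, zero_pow, sum_const_zero]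
    positivity
  obtain ⟨hw1, -, hw3, p0, hp0, -, hw4⟩ := (mem_Wl S).1 hw0
  obtain ⟨P, hP0, hP1, hPJ, hPI⟩ : ∃ P : ℝ, S.H0 / 2 ≤ P ∧ P ≤ S.H1 ∧
      P ≤ (S.T / S.pr a : ℕ) ∧ ∀ p ∈ Il S a l, P ≤ S.m p ∧ (S.m p : ℝ) ≤ 2 * P := by
    rcases Nat.lt_or_ge 1 r with hr | hr
    · obtain ⟨q, hq, hmin⟩ := exists_min_image (Il S a l) S.m ⟨p0, hp0⟩
      obtain ⟨hqE, -, hql⟩ := (mem_Il S).1 hq
      have hqJ : (S.m q : ℝ) ≤ (S.T / S.pr a : ℕ) := by
        have h1 := (size_J S hH hq hw0).2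
        have h2 := S.H0_pow_le_pr hw1
        have h3 : S.H0 ≤ S.H0 ^ w0.card := le_self_pow₀ (by linarith only [hH0]) (by omega)
        have h4 : 5 ≤ S.pr w0 := by
          have : (5 : ℝ) ≤ S.pr w0 := by linarith only [hH0, h2, h3]
          exact_mod_cast this
        have h5 : S.m q ≤ S.T / S.pr a := by nlinarith only [h1, h4]
        exact_mod_cast h5
      refine ⟨S.m q, by linarith only [hH0, S.lo q hqE], S.hi q hqE, hqJ, fun p hp => ?_⟩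
      obtain ⟨hpE, -, hpl⟩ := (mem_Il S).1 hp
      exact ⟨by exact_mod_cast hmin p hp,
        by exact_mod_cast S.lab_close p hpE q hqE (hpl.trans hql.symm)⟩
    · have hw5 : w0 = ∅ := card_eq_zero.1 (by omega)
      rw [hw5, union_empty] at hw4
      obtain ⟨h6, h7, h8⟩ := (mem_Il S).1 hp0
      have hA := S.pr_pos a
      have hJ4 : 4 ≤ S.T / S.pr a := by
        have := four_H_le_J S a
        omega
      have key : ∀ p ∈ Il S a l, S.T / S.pr a ≤ S.m p ∧ S.m p ≤ 2 * (S.T / S.pr a) := by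
        intro p hp
        obtain ⟨h9, h10, h11⟩ := (mem_Il S).1 hp
        have hd := S.lab_DD a p0 h6 p h9 h7 h10 (h8.trans h11.symm) hw4
        have lo : S.T ≤ S.pr (insert p a) := S.DD_lo _ hd
        have hi : 2 * S.pr (insert p a) ≤ 3 * S.T := S.DD_hi' _ hd
        rw [S.pr_insert h10] at lo hi
        refine ⟨Nat.div_le_of_le_mul (by rwa [mul_comm]), ?_⟩
        have h4 : S.T < S.pr a * (S.T / S.pr a + 1) := Nat.lt_mul_div_succ _ hA
        have h5 : S.pr a * (2 * S.m p) < S.pr a * (3 * (S.T / S.pr a + 1)) := by nlinarith only [hi, h4]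
        have h12 := lt_of_mul_lt_mul_left h5 (Nat.zero_le _)
        omega
      have k0 := key p0 hp0
      have k1 : ((S.T / S.pr a : ℕ) : ℝ) ≤ S.m p0 := by exact_mod_cast k0.1
      have k2 : (S.m p0 : ℝ) ≤ 2 * (S.T / S.pr a : ℕ) := by exact_mod_cast k0.2
      refine ⟨(S.T / S.pr a : ℕ), by linarith only [k2, S.lo p0 h6], k1.trans (S.hi p0 h6), le_rfl,
        fun p hp => ⟨by exact_mod_cast (key p hp).1, by exact_mod_cast (key p hp).2⟩⟩
  have key := hMR P ((Il S a l).image S.m) ((Wl S r a l).image S.pr) (S.T / S.pr a) (S.Hk a) θ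
    hP0 hP1 ?_ ?_ hPJ ((Nat.div_le_self _ _).trans hJ) ?_ ?_ (S.den_le hθ)
  · refine le_trans ?_ key
    refine le_trans (le_of_eq ?_) (sum_le_sum_of_subset_of_nonneg hM fun _ _ _ => by positivity)
    refine sum_congr rfl fun m _ => ?_
    congr 2
    refine sum_congr rfl fun i _ => ?_
    congr 1
    rw [sum_image fun p hp p' _ he => S.m_inj ((mem_Il S).1 hp).1 he]
    refine sum_congr rfl fun p _ => ?_
    rw [sum_image fun w hw w' hw' he => S.pr_inj ((mem_Wl S).1 hw).1 ((mem_Wl S).1 hw').1 he]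
  · intro n hn
    obtain ⟨p, hp, rfl⟩ := mem_image.1 hn
    exact ⟨S.prime p ((mem_Il S).1 hp).1, hPI p hp⟩
  · intro n hn n' hn'
    obtain ⟨p, hp, rfl⟩ := mem_image.1 hn
    obtain ⟨w, hw, rfl⟩ := mem_image.1 hn'
    exact size_J S hH hp hw
  · refine Nat.div_le_of_le_mul ?_
    calc S.T ≤ 2 * (S.pr a * S.Q ^ 2 * S.Hk a) := S.T_le_Hk hr2 hv
      _ = _ := by ring
  · have := four_H_le_J S a
    omega

end Int4

end Pool.Agent.Work.MP_d018b2_nt.R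
end

-- merged part: Pool.Agent.Work.MP_d018b2_nt.R.SPInt4
section
/-! The positive form on the integers. -/

set_option autoImplicit false
open Finset Pool.Agent.Lib.LargeSieve

namespace Pool.Agent.Work.MP_d018b2_nt.R

open Pool.Agent.Work.MP_678620_nt

namespace Int4

variable {ι : Type} [Fintype ι] [DecidableEq ι] (S : Sys ι)

/-- The test function with its cut-off. -/
noncomputable def GI (N : ℕ) (g : ℤ → ℂ) (y : ℤ) : ℂ :=
  if y ∈ Ioc (((S.T * N : ℕ) : ℤ) - S.R) (((2 * S.T * N : ℕ) : ℤ) + S.R) then S.Gt g y else 0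

open Classical in
/-- The exceptional set of `d`. -/
noncomputable def Bx (N : ℕ) (d : Finset ι) : Finset ℤ :=
  (Icc (1 : ℤ) (3 * N)).filter fun n => (∃ p ∈ d, (S.m p : ℤ) ∣ n) ∨
    ((S.Zi (S.pr d * n)).card = S.s + S.k' ∧ ¬ S.good (S.Zi (S.pr d * n)))

lemma Ex_eq (N : ℕ) : S.Ex N = ∑ d ∈ S.DD, (Bx S N d).card := by
  unfold Sys.Ex Bx
  refine sum_congr rfl fun d _ => ?_
  congr

lemma R_cast : (S.R : ℤ) = 2 * S.T * |S.h| := by
  rw [Sys.R]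
  push_cast
  rfl

lemma jp_i_le {a : Finset ι} {i : ℕ} (hi : i ∈ range (S.Hk a)) : |S.jp a * i| ≤ S.R := by
  have h1 := S.Hk_mul_le a
  have h2 := mem_range.1 hi
  have h3 : 1 ≤ S.Q ^ 2 := Nat.one_le_pow _ _ (by have := S.Q_ge; omega)
  have h4 : S.pr a * i ≤ 2 * S.T := by
    calc S.pr a * i ≤ S.pr a * S.Hk a := Nat.mul_le_mul_left _ h2.le
      _ = S.pr a * 1 * S.Hk a := by ring
      _ ≤ S.pr a * S.Q ^ 2 * S.Hk a := by gcongr
      _ ≤ 2 * S.T := by omega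
  have h5 : (S.pr a : ℤ) * i ≤ 2 * S.T := by exact_mod_cast h4
  rw [R_cast, Sys.jp, show (S.pr a : ℤ) * S.h * i = (S.pr a * i) * S.h by ring, abs_mul,
    abs_of_nonneg (by positivity : (0 : ℤ) ≤ S.pr a * i)]
  exact mul_le_mul_of_nonneg_right h5 (abs_nonneg _)

lemma jp_DD_le {d : Finset ι} (hd : d ∈ S.DD) : |S.jp d| ≤ S.R := by
  have h4 : S.pr d ≤ 2 * S.T := S.DD_hi d hd
  have h5 : (S.pr d : ℤ) ≤ 2 * S.T := by exact_mod_cast h4
  rw [R_cast, Sys.jp, abs_mul, abs_of_nonneg (by positivity : (0 : ℤ) ≤ S.pr d)]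
  exact mul_le_mul_of_nonneg_right h5 (abs_nonneg _)

lemma five_R_le {N : ℕ} (hN : 10 * S.h.natAbs ≤ N) : 5 * (S.R : ℤ) ≤ (S.T * N : ℕ) := by
  have : 5 * S.R ≤ S.T * N := by
    calc 5 * S.R = S.T * (10 * S.h.natAbs) := by rw [Sys.R]; ring
      _ ≤ S.T * N := Nat.mul_le_mul_left _ hN
  exact_mod_cast this

lemma two_TN (N : ℕ) : ((2 * S.T * N : ℕ) : ℤ) = 2 * ((S.T * N : ℕ) : ℤ) := by
  push_cast
  ring

/-- The point at which the test function is evaluated. -/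
lemma point_eq {r : ℕ} {a v : Finset ι} (hv : v ∈ S.VV r a) {m : ℤ} {i : ℕ}
    (hd : (S.pr v : ℤ) ∣ m + S.h * i) :
    (S.pr (a ∪ v) : ℤ) * ((m + S.h * i) / S.pr v + S.h)
      = S.pr a * m + S.jp a * i + S.jp (a ∪ v) := by
  obtain ⟨-, h2, -, -⟩ := S.mem_VV.1 hv
  obtain ⟨t, ht⟩ := hd
  have h0 : (S.pr v : ℤ) ≠ 0 := by exact_mod_cast (S.pr_pos v).ne'
  rw [ht, Int.mul_ediv_cancel_left _ h0, Sys.jp, Sys.jp, S.pr_union h2]
  push_cast
  linear_combination (-(S.pr a : ℤ)) * ht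

/-- Reduction to the integers. -/
lemma red_int {r : ℕ} {a : Finset ι} (ha : a ∈ S.AA r) {N : ℕ} (hN : 10 * S.h.natAbs ≤ N) {i0 : ι}
    (hW : 10 * (S.T * N) < S.m i0) (g : ℤ → ℂ) (θ : ℚ) :
    (∑ x : S.G, if a ⊆ S.Zs x then ‖((S.Hk a : ℂ))⁻¹ * ∑ i ∈ range (S.Hk a),
        S.Ps r a (S.GX N g) (x + ((S.jp a * i : ℤ) : S.G)) * ee (θ * i)‖ ^ 2 else 0)
      = ∑ m ∈ Iv (S.pr a) ((S.T * N : ℕ) - 3 * S.R) (2 * (S.T * N : ℕ) + 3 * S.R),
        ‖((S.Hk a : ℂ))⁻¹ * sh S.h (S.Hk a) θ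
          (dv S.h (S.VV r a) S.pr fun v n => GI S N g (S.pr (a ∪ v) * n)) m‖ ^ 2 := by
  have haE := (S.mem_AA.1 ha).1
  have h5 := five_R_le S hN
  have h2 := two_TN S N
  have hW' : 10 * ((S.T * N : ℕ) : ℤ) < S.m i0 := by exact_mod_cast hW
  have hR0 : (0 : ℤ) ≤ S.R := by positivity
  rw [S.sum_eq_sum_int (i0 := i0) (lo := (S.T * N : ℕ) - 3 * S.R)
    (hi := 2 * (S.T * N : ℕ) + 3 * S.R) (by omega)]
  · refine (sum_congr rfl fun y _ => if_congr (S.sub_Zi haE) rfl rfl).trans ?_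
    rw [sum_dvd_eq (S.pr_pos a)]
    refine sum_congr rfl fun m hm => ?_
    rw [mem_Iv (S.pr_pos a)] at hm
    congr 3
    refine sum_congr rfl fun i hi => ?_
    congr 1
    refine sum_congr rfl fun v hv => ?_
    obtain ⟨h6, h7, -, h8⟩ := S.mem_VV.1 hv
    have hc : v ⊆ S.Zs (((S.pr a * m : ℤ) : S.G) + ((S.jp a * i : ℤ) : S.G))
        ↔ (S.pr v : ℤ) ∣ m + S.h * i := by
      rw [← Int.cast_add]
      refine (S.sub_Zi h6).trans ?_
      rw [Sys.jp, show (S.pr a : ℤ) * m + S.pr a * S.h * i = S.pr a * (m + S.h * i) by ring]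
      exact ⟨fun h => (Nat.isCoprime_iff_coprime.2 (S.coprime_pr h7).symm).dvd_of_dvd_mul_left h,
        fun h => h.mul_left _⟩
    refine if_ctx_congr hc (fun hd => ?_) fun _ => rfl
    beta_reduce
    rw [point_eq S hv hd, ← Int.cast_add, ← Int.cast_add]
    have j1 := abs_le.1 (jp_i_le S hi)
    have j2 := abs_le.1 (jp_DD_le S h8)
    exact S.ext_cast (i0 := i0) _ (by rw [abs_lt]; constructor <;> omega)
      (by rw [abs_lt]; constructor <;> omega)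
  · intro ξ hξ
    have h6 : ∑ i ∈ range (S.Hk a),
        S.Ps r a (S.GX N g) (ξ + ((S.jp a * i : ℤ) : S.G)) * ee (θ * i) ≠ 0 := by
      intro h0
      apply hξ
      rw [h0]
      simp
    obtain ⟨i, hi, h7⟩ := exists_ne_zero_of_sum_ne_zero h6
    obtain ⟨v, hv, h8⟩ := exists_ne_zero_of_sum_ne_zero (left_ne_zero_of_mul h7)
    have h9 : S.GX N g (ξ + ((S.jp a * i : ℤ) : S.G) + (S.jp (a ∪ v) : S.G)) ≠ 0 := by
      intro h0
      apply h8
      rw [h0]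
      simp
    obtain ⟨y, hy, he, -⟩ := S.ext_ne_zero h9
    have j1 := abs_le.1 (jp_i_le S hi)
    have j2 := abs_le.1 (jp_DD_le S (S.mem_VV.1 hv).2.2.2)
    rw [mem_Ioc] at hy
    refine ⟨y - S.jp a * i - S.jp (a ∪ v), mem_Ioc.2 ⟨by omega, by omega⟩, ?_⟩
    rw [Int.cast_sub, Int.cast_sub, he]
    abel

lemma norm_Gt_le {g : ℤ → ℂ} (hg1 : ∀ y, ‖g y‖ ≤ 1) (y : ℤ) : ‖S.Gt g y‖ ≤ 1 := by
  unfold Sys.Gt
  split_ifs
  · exact hg1 y
  · simp

lemma norm_GI_le (N : ℕ) {g : ℤ → ℂ} (hg1 : ∀ y, ‖g y‖ ≤ 1) (y : ℤ) : ‖GI S N g y‖ ≤ 1 := by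
  unfold GI
  split_ifs
  · exact norm_Gt_le S hg1 y
  · simp

lemma delta_le {g : ℤ → ℂ} (hg1 : ∀ y, ‖g y‖ ≤ 1) {d : Finset ι} {n : ℤ}
    (hg : g (S.pr d * n) = g n) :
    ‖S.Gt g (S.pr d * n) - (if (S.Zi n).card = S.k' then g n else 0)‖ ≤ 1 := by
  unfold Sys.Gt
  rw [hg]
  split_ifs <;> simp [hg1]

lemma delta_le' {g : ℤ → ℂ} (hg1 : ∀ y, ‖g y‖ ≤ 1) {d : Finset ι} (hd : d ∈ S.DD) {n : ℤ}
    (hg : g (S.pr d * n) = g n) {N : ℕ} (hn : n ∈ Icc (1 : ℤ) (3 * N)) :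
    ‖S.Gt g (S.pr d * n) - (if (S.Zi n).card = S.k' then g n else 0)‖
      ≤ if n ∈ Bx S N d then 1 else 0 := by
  by_cases hB : n ∈ Bx S N d
  · rw [if_pos hB]
    exact delta_le S hg1 hg
  rw [if_neg hB]
  simp only [Bx, mem_filter, hn, true_and, not_or, not_exists, not_and, not_not] at hB
  obtain ⟨h1, h2⟩ := hB
  have h3 : Disjoint d (S.Zi n) := disjoint_left.2 fun p hp hp' => h1 p hp (S.mem_Zi.1 hp').2
  have h4 : (S.Zi (S.pr d * n)).card = S.s + (S.Zi n).card := by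
    rw [S.Zi_mul (S.DD_sub d hd), card_union_of_disjoint h3, S.DD_card d hd]
  have h5 : S.Cg ((S.pr d * n : ℤ) : S.G) ↔ (S.Zi n).card = S.k' := by
    constructor
    · intro h
      have : (S.Zi (S.pr d * n)).card = S.s + S.k' := h.1
      omega
    · intro h
      have : (S.Zi (S.pr d * n)).card = S.s + S.k' := by omega
      exact ⟨this, h2 this⟩
  unfold Sys.Gt
  rw [hg, if_congr h5 rfl rfl, sub_self, norm_zero]

lemma sh_add (h : ℤ) (H : ℕ) (θ : ℚ) (Ψ Ψ' : ℤ → ℂ) (m : ℤ) :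
    sh h H θ (fun y => Ψ y + Ψ' y) m = sh h H θ Ψ m + sh h H θ Ψ' m := by
  simp only [sh, add_mul, sum_add_distrib]

lemma sq_three {x a b c : ℝ} (hx : 0 ≤ x) (h : x ≤ a + b + c) :
    x ^ 2 ≤ 3 * (a ^ 2 + b ^ 2 + c ^ 2) := by
  have h1 : x ^ 2 ≤ (a + b + c) ^ 2 := pow_le_pow_left₀ hx h 2
  nlinarith only [h1, sq_nonneg (a - b), sq_nonneg (b - c), sq_nonneg (a - c)]

/-- The main term is bounded by the pieces with one label and the overlapping pairs. -/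
lemma main_split {r : ℕ} (hr : 1 ≤ r) (a : Finset ι) (c : ℤ → ℂ) (θ : ℚ) (m : ℤ) :
    ‖sh S.h (S.Hk a) θ (dv S.h (S.VV r a) S.pr fun _ => c) m‖
      ≤ ‖∑ l ∈ S.E.image S.lab, sh S.h (S.Hk a) θ (fun y => ∑ p ∈ Il S a l, ∑ w ∈ Wl S r a l,
          if ((S.m p * S.pr w : ℕ) : ℤ) ∣ y then c (y / (S.m p * S.pr w : ℕ) + S.h) else 0) m‖
        + ‖sh S.h (S.Hk a) θ (dv S.h (PW S r a) (fun x => S.m x.1 * S.pr x.2) fun _ => c) m‖ := by
  have h1 : (r : ℂ) * sh S.h (S.Hk a) θ (dv S.h (S.VV r a) S.pr fun _ => c) m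
      = ∑ l ∈ S.E.image S.lab, sh S.h (S.Hk a) θ (fun y => ∑ p ∈ Il S a l, ∑ w ∈ Wl S r a l,
          if ((S.m p * S.pr w : ℕ) : ℤ) ∣ y then c (y / (S.m p * S.pr w : ℕ) + S.h) else 0) m
        - sh S.h (S.Hk a) θ (dv S.h (PW S r a) (fun x => S.m x.1 * S.pr x.2) fun _ => c) m := by
    unfold sh
    rw [sum_comm, ← sum_sub_distrib, mul_sum]
    refine sum_congr rfl fun i _ => ?_
    rw [← sum_mul, ← sub_mul, ← mul_assoc]
    congr 1
    exact label_split S a hr fun u => if (u : ℤ) ∣ m + S.h * i then c ((m + S.h * i) / u + S.h)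
      else 0
  refine le_trans ?_ (norm_sub_le _ _)
  rw [← h1, norm_mul, Complex.norm_natCast]
  have : (1 : ℝ) ≤ r := by exact_mod_cast hr
  exact le_mul_of_one_le_left (norm_nonneg _) this

/-- The inner range. -/
lemma inner_le {r : ℕ} (hr2 : 1 ≤ r) {a v0 : Finset ι} (hv0 : v0 ∈ S.VV r a) {N : ℕ}
    (hN : 10 * S.h.natAbs ≤ N) {g : ℤ → ℂ} (hg1 : ∀ y, ‖g y‖ ≤ 1)
    (hg : ∀ d ∈ S.DD, ∀ n : ℤ, g (S.pr d * n) = g n) {ε : ℝ} (hε : 0 ≤ ε) {Jm : ℕ} (hJ : S.T ≤ Jm)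
    (hMR : MRB N (fun n => if (S.Zi n).card = S.k' then g n else 0) S.h (S.H0 / 2) S.H1 S.Q Jm ε)
    {θ : ℚ} (hθ : θ ∈ S.FF) :
    ∑ m ∈ Iv (S.pr a) ((S.T * N : ℕ) + S.R) (2 * (S.T * N : ℕ) - S.R),
        ‖sh S.h (S.Hk a) θ
          (dv S.h (S.VV r a) S.pr fun v n => GI S N g (S.pr (a ∪ v) * n)) m‖ ^ 2
      ≤ (S.Hk a : ℝ) ^ 2 * (S.T * S.iv a * (3 * S.Λ ^ 2 * ε * N + N / S.H0)
        + 12 * (S.Q : ℝ) ^ 2 * ∑ v ∈ S.VV r a, ((Bx S N (a ∪ v)).card : ℝ)) := by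
  set c : ℤ → ℂ := fun n => if (S.Zi n).card = S.k' then g n else 0 with hc
  set M := Iv (S.pr a) ((S.T * N : ℕ) + S.R) (2 * (S.T * N : ℕ) - S.R) with hM
  set J : ℕ := S.T / S.pr a with hJd
  have hH0 : (5 : ℝ) ≤ S.H0 := le_trans (by norm_num) S.H0_big
  have hHr : (1 : ℝ) ≤ S.Hk a := S.one_le_Hk hr2 hv0
  have hH : 1 ≤ S.Hk a := by exact_mod_cast hHr
  have hA := S.pr_pos a
  have hAr : (0 : ℝ) < S.pr a := by exact_mod_cast hA
  have h5 := five_R_le S hN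
  have h2 := two_TN S N
  have hR0 : (0 : ℤ) ≤ S.R := by positivity
  have hN1 : 1 ≤ N := by
    have := Int.natAbs_pos.2 S.h_ne
    omega
  have hJ4 : 4 ≤ J := by
    have := four_H_le_J S a
    omega
  have hJt : (J : ℝ) ≤ S.T * S.iv a := by
    rw [Sys.iv, ← div_eq_mul_inv]
    exact Nat.cast_div_le
  have hΛ := S.big
  have hc1 : ∀ n, ‖c n‖ ≤ 1 := fun n => by
    simp only [hc]
    split_ifs
    · exact hg1 n
    · simp
  have hMsub : M ⊆ Icc ((J * N / 2 : ℕ) : ℤ) (5 * J * N : ℕ) := by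
    intro m hm
    rw [hM, mem_Iv hA] at hm
    have e1 : S.pr a * J ≤ S.T := Nat.mul_div_le _ _
    have e2 : S.T < S.pr a * (J + 1) := Nat.lt_mul_div_succ _ hA
    have e3 : S.pr a * (J * N / 2) ≤ S.T * N := by
      calc S.pr a * (J * N / 2) ≤ S.pr a * (J * N) := Nat.mul_le_mul_left _ (Nat.div_le_self _ _)
        _ = S.pr a * J * N := by ring
        _ ≤ S.T * N := Nat.mul_le_mul_right _ e1
    have e4 : 2 * (S.T * N) ≤ S.pr a * (5 * J * N) := by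
      calc 2 * (S.T * N) ≤ 2 * (S.pr a * (J + 1) * N) := by gcongr
        _ = S.pr a * (2 * (J + 1) * N) := by ring
        _ ≤ S.pr a * (5 * J * N) := by
          refine Nat.mul_le_mul_left _ (Nat.mul_le_mul_right _ ?_)
          omega
    have e5 : (S.pr a : ℤ) * ((J * N / 2 : ℕ) : ℤ) ≤ (S.T * N : ℕ) := by exact_mod_cast e3
    have e6 : 2 * ((S.T * N : ℕ) : ℤ) ≤ (S.pr a : ℤ) * ((5 * J * N : ℕ) : ℤ) := by
      exact_mod_cast e4
    have hAz : (0 : ℤ) < S.pr a := by exact_mod_cast hA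
    exact mem_Icc.2 ⟨le_of_mul_le_mul_left (by omega) hAz, le_of_mul_le_mul_left (by omega) hAz⟩
  have hcard : (M.card : ℝ) ≤ 2 * (S.T * S.iv a) * N := by
    refine (card_Iv_le hA (by omega)).trans ?_
    have e1 : ((2 * ((S.T * N : ℕ) : ℤ) - S.R - ((S.T * N : ℕ) + S.R) : ℤ) : ℝ) ≤ S.T * N := by
      have : 2 * ((S.T * N : ℕ) : ℤ) - S.R - ((S.T * N : ℕ) + S.R) ≤ (S.T * N : ℕ) := by omega
      exact_mod_cast this
    have e2 : (4 : ℝ) ≤ J := by exact_mod_cast hJ4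
    have e3 : (1 : ℝ) ≤ N := by exact_mod_cast hN1
    have e4 : ((2 * ((S.T * N : ℕ) : ℤ) - S.R - ((S.T * N : ℕ) + S.R) : ℤ) : ℝ) / S.pr a
        ≤ S.T * S.iv a * N := by
      rw [Sys.iv, div_eq_mul_inv]
      calc _ ≤ (S.T * N) * (S.pr a : ℝ)⁻¹ := by gcongr
        _ = _ := by ring
    nlinarith only [e3, e4, hJt, e2]
  -- the three pieces
  set X : ℤ → ℝ := fun m => ‖∑ l ∈ S.E.image S.lab, sh S.h (S.Hk a) θ
    (fun y => ∑ p ∈ Il S a l, ∑ w ∈ Wl S r a l,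
      if ((S.m p * S.pr w : ℕ) : ℤ) ∣ y then c (y / (S.m p * S.pr w : ℕ) + S.h) else 0) m‖ with hX
  set Y : ℤ → ℝ := fun m =>
    ‖sh S.h (S.Hk a) θ (dv S.h (PW S r a) (fun x => S.m x.1 * S.pr x.2) fun _ => c) m‖ with hY
  set Z : ℤ → ℝ := fun m => ‖sh S.h (S.Hk a) θ
    (dv S.h (S.VV r a) S.pr fun v n => S.Gt g (S.pr (a ∪ v) * n) - c n) m‖ with hZ
  have hpt : ∀ m ∈ M, ∀ i ∈ range (S.Hk a), ∀ v ∈ S.VV r a, (S.pr v : ℤ) ∣ m + S.h * i →
      (S.pr (a ∪ v) : ℤ) * ((m + S.h * i) / S.pr v + S.h)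
        ∈ Ioc (((S.T * N : ℕ) : ℤ) - S.R) (((2 * S.T * N : ℕ) : ℤ) + S.R) := by
    intro m hm i hi v hv hd
    rw [hM, mem_Iv hA] at hm
    have j1 := abs_le.1 (jp_i_le S hi)
    have j2 := abs_le.1 (jp_DD_le S (S.mem_VV.1 hv).2.2.2)
    rw [point_eq S hv hd]
    exact mem_Ioc.2 ⟨by omega, by omega⟩
  have hsplit : ∀ m ∈ M, ‖sh S.h (S.Hk a) θ
      (dv S.h (S.VV r a) S.pr fun v n => GI S N g (S.pr (a ∪ v) * n)) m‖ ≤ X m + Y m + Z m := by
    intro m hm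
    have e : sh S.h (S.Hk a) θ (dv S.h (S.VV r a) S.pr fun v n => GI S N g (S.pr (a ∪ v) * n)) m
        = sh S.h (S.Hk a) θ (dv S.h (S.VV r a) S.pr fun _ => c) m + sh S.h (S.Hk a) θ
          (dv S.h (S.VV r a) S.pr fun v n => S.Gt g (S.pr (a ∪ v) * n) - c n) m := by
      rw [← sh_add]
      refine sh_congr θ fun i hi => ?_
      unfold dv
      rw [← sum_add_distrib]
      refine sum_congr rfl fun v hv => ?_
      split_ifs with hd
      · unfold GI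
        beta_reduce
        rw [if_pos (hpt m hm i hi v hv hd)]
        ring
      · simp
    rw [e]
    refine (norm_add_le _ _).trans ?_
    exact add_le_add (main_split S (by omega) a c θ m) le_rfl
  have hXs : ∑ m ∈ M, X m ^ 2 ≤ (S.Hk a : ℝ) ^ 2 * (S.T * S.iv a * (S.Λ ^ 2 * ε * N)) := by
    have hL := S.lab_le
    calc ∑ m ∈ M, X m ^ 2 ≤ ∑ m ∈ M, ((S.E.image S.lab).card : ℝ) * ∑ l ∈ S.E.image S.lab,
          ‖sh S.h (S.Hk a) θ (fun y => ∑ p ∈ Il S a l, ∑ w ∈ Wl S r a l,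
            if ((S.m p * S.pr w : ℕ) : ℤ) ∣ y then c (y / (S.m p * S.pr w : ℕ) + S.h) else 0)
            m‖ ^ 2 := sum_le_sum fun m _ => norm_sq_sum_le _ _
      _ ≤ ((S.E.image S.lab).card : ℝ) * ∑ _l ∈ S.E.image S.lab,
          ε * (S.Hk a : ℝ) ^ 2 * J * N := by
        rw [← mul_sum, sum_comm]
        exact mul_le_mul_of_nonneg_left
          (sum_le_sum fun l _ => label_le S hr2 hv0 hε hJ hMR hθ l hMsub) (by positivity)
      _ = ((S.E.image S.lab).card : ℝ) ^ 2 * (ε * (S.Hk a : ℝ) ^ 2 * J * N) := by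
        rw [sum_const, nsmul_eq_mul]
        ring
      _ ≤ S.Λ ^ 2 * (ε * (S.Hk a : ℝ) ^ 2 * (S.T * S.iv a) * N) := by gcongr
      _ = _ := by ring
  have hYs : ∑ m ∈ M, Y m ^ 2 ≤ (S.Hk a : ℝ) ^ 2 * (S.T * S.iv a * (N / S.H0 / 3)) := by
    have e1 : (J : ℝ) ≤ 2 * (S.Q : ℝ) ^ 2 * S.Hk a := by
      have : J ≤ 2 * S.Q ^ 2 * S.Hk a := by
        refine Nat.div_le_of_le_mul ?_
        calc S.T ≤ 2 * (S.pr a * S.Q ^ 2 * S.Hk a) := S.T_le_Hk hr2 hv0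
          _ = _ := by ring
      exact_mod_cast this
    have e2 : ∀ m, Y m ≤ 10 * (S.Q : ℝ) ^ 2 * S.Hk a * S.Λ / S.H0 := fun m => by
      refine (norm_sh_dv_le θ (fun x hx => PW_ok S hH hx) (fun _ _ => hc1) m).trans ?_
      refine (card_PW_le S hH).trans ?_
      calc 5 * (J : ℝ) * S.Λ / S.H0 ≤ 5 * (2 * (S.Q : ℝ) ^ 2 * S.Hk a) * S.Λ / S.H0 := by gcongr
        _ = _ := by ring
    have e3 : 600 * ((S.Q : ℝ) ^ 4 * S.Λ ^ 2) ≤ S.H0 := by
      have e4 := S.mono_le_H0 (a := 0) (b := 0) (c := 4) (d := 4) (by norm_num) (by norm_num)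
        (by norm_num) (by norm_num)
      have e5 : (600 : ℝ) ≤ S.Λ ^ 2 := by nlinarith only [hΛ]
      calc 600 * ((S.Q : ℝ) ^ 4 * S.Λ ^ 2) ≤ S.Λ ^ 2 * ((S.Q : ℝ) ^ 4 * S.Λ ^ 2) := by gcongr
        _ = _ := by ring
        _ ≤ S.H0 := e4
    have hiv := (S.iv_pos a).le
    have hH0' : 0 < S.H0 := by linarith only [hH0]
    calc ∑ m ∈ M, Y m ^ 2 ≤ ∑ _m ∈ M, (10 * (S.Q : ℝ) ^ 2 * S.Hk a * S.Λ / S.H0) ^ 2 :=
          sum_le_sum fun m _ => pow_le_pow_left₀ (norm_nonneg _) (e2 m) 2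
      _ = M.card * (10 * (S.Q : ℝ) ^ 2 * S.Hk a * S.Λ / S.H0) ^ 2 := by
        rw [sum_const, nsmul_eq_mul]
      _ ≤ 2 * (S.T * S.iv a) * N * (10 * (S.Q : ℝ) ^ 2 * S.Hk a * S.Λ / S.H0) ^ 2 := by gcongr
      _ = (S.Hk a : ℝ) ^ 2 * (S.T * S.iv a * (N / S.H0 / 3))
          * (600 * ((S.Q : ℝ) ^ 4 * S.Λ ^ 2) / S.H0) := by
        field_simp
        ring
      _ ≤ _ := mul_le_of_le_one_right (by positivity) ((div_le_one hH0').2 e3)
  have hZs : ∑ m ∈ M, Z m ^ 2 ≤ (S.Hk a : ℝ) ^ 2 *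
      (4 * (S.Q : ℝ) ^ 2 * ∑ v ∈ S.VV r a, ((Bx S N (a ∪ v)).card : ℝ)) := by
    have e1 : ∀ m, Z m ≤ 4 * (S.Q : ℝ) ^ 2 * S.Hk a := fun m => by
      refine (norm_sh_dv_le θ (fun v hv => ⟨S.coprime_pr_h (S.mem_VV.1 hv).1, S.Hk_le hv⟩)
        (fun v hv n => delta_le S hg1 (hg _ (S.mem_VV.1 hv).2.2.2 n)) m).trans ?_
      exact_mod_cast S.card_VV_le hr2 a
    have e2 : ∑ m ∈ M, Z m ≤ S.Hk a * ∑ v ∈ S.VV r a, ((Bx S N (a ∪ v)).card : ℝ) := by
      refine sum_norm_sh_dv_le θ M (fun v => Bx S N (a ∪ v)) fun v hv m hm i hi hd => ?_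
      have hd' := (S.mem_VV.1 hv).2.2.2
      refine delta_le' S hg1 hd' (hg _ hd' _) ?_
      have e3 := mem_Ioc.1 (hpt m hm i hi v hv hd)
      generalize (m + S.h * i) / S.pr v + S.h = n at e3
      have e4 : S.T ≤ S.pr (a ∪ v) := S.DD_lo _ hd'
      have e5 : (S.T : ℤ) ≤ S.pr (a ∪ v) := by exact_mod_cast e4
      have e6 : (1 : ℤ) ≤ S.T := by exact_mod_cast S.T_pos
      have e7 : 0 < n := by
        by_contra hn
        have : (S.pr (a ∪ v) : ℤ) * n ≤ 0 :=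
          mul_nonpos_of_nonneg_of_nonpos (by positivity) (not_lt.1 hn)
        omega
      have e8 : (S.T : ℤ) * n ≤ S.T * (3 * N) := by
        have e9 : (S.T : ℤ) * n ≤ S.pr (a ∪ v) * n := mul_le_mul_of_nonneg_right e5 e7.le
        have e10 : (S.T : ℤ) * (3 * N) = 3 * ((S.T * N : ℕ) : ℤ) := by
          push_cast
          ring
        omega
      exact mem_Icc.2 ⟨e7, le_of_mul_le_mul_left e8 (by omega)⟩
    calc ∑ m ∈ M, Z m ^ 2 ≤ ∑ m ∈ M, 4 * (S.Q : ℝ) ^ 2 * S.Hk a * Z m := by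
          refine sum_le_sum fun m _ => ?_
          rw [sq]
          exact mul_le_mul_of_nonneg_right (e1 m) (norm_nonneg _)
      _ ≤ 4 * (S.Q : ℝ) ^ 2 * S.Hk a * (S.Hk a * ∑ v ∈ S.VV r a, ((Bx S N (a ∪ v)).card : ℝ)) := by
          rw [← mul_sum]
          gcongr
      _ = _ := by ring
  calc _ ≤ ∑ m ∈ M, 3 * (X m ^ 2 + Y m ^ 2 + Z m ^ 2) :=
        sum_le_sum fun m hm => sq_three (norm_nonneg _) (hsplit m hm)
    _ = 3 * (∑ m ∈ M, X m ^ 2 + ∑ m ∈ M, Y m ^ 2 + ∑ m ∈ M, Z m ^ 2) := by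
        rw [← mul_sum, sum_add_distrib, sum_add_distrib]
    _ ≤ _ := by nlinarith only [hXs, hYs, hZs]

lemma sum_Ioc_int (f : ℤ → ℝ) {a b c : ℤ} (h1 : a ≤ b) (h2 : b ≤ c) :
    ∑ m ∈ Ioc a b, f m + ∑ m ∈ Ioc b c, f m = ∑ m ∈ Ioc a c, f m := by
  rw [← sum_union (Ioc_disjoint_Ioc_of_le le_rfl), Ioc_union_Ioc_eq_Ioc h1 h2]

/-- The bound for fixed `a` and `θ`. -/
lemma one_le {r : ℕ} (hr2 : 1 ≤ r) {a : Finset ι} {N : ℕ}
    (hN : 10 * S.h.natAbs ≤ N) {g : ℤ → ℂ} (hg1 : ∀ y, ‖g y‖ ≤ 1)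
    (hg : ∀ d ∈ S.DD, ∀ n : ℤ, g (S.pr d * n) = g n) {ε : ℝ} (hε : 0 ≤ ε) {Jm : ℕ} (hJ : S.T ≤ Jm)
    (hMR : MRB N (fun n => if (S.Zi n).card = S.k' then g n else 0) S.h (S.H0 / 2) S.H1 S.Q Jm ε)
    {θ : ℚ} (hθ : θ ∈ S.FF) :
    ∑ m ∈ Iv (S.pr a) ((S.T * N : ℕ) - 3 * S.R) (2 * (S.T * N : ℕ) + 3 * S.R),
        ‖((S.Hk a : ℂ))⁻¹ * sh S.h (S.Hk a) θ
          (dv S.h (S.VV r a) S.pr fun v n => GI S N g (S.pr (a ∪ v) * n)) m‖ ^ 2
      ≤ S.T * S.iv a * (3 * S.Λ ^ 2 * ε * N + N / S.H0 + 400 * S.Λ * (S.Q : ℝ) ^ 4)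
        + 12 * (S.Q : ℝ) ^ 2 * ∑ v ∈ S.VV r a, ((Bx S N (a ∪ v)).card : ℝ) := by
  have hH0 : (5 : ℝ) ≤ S.H0 := le_trans (by norm_num) S.H0_big
  have hΛ := S.big
  have hiv := (S.iv_pos a).le
  rcases (S.VV r a).eq_empty_or_nonempty with h0 | ⟨v0, hv0⟩
  · simp only [h0, sh, dv, sum_empty, zero_mul, sum_const_zero, mul_zero, norm_zero]
    simp only [ne_eq, OfNat.ofNat_ne_zero, not_false_eq_true, zero_pow, sum_const_zero]
    positivity
  set Ψ := dv S.h (S.VV r a) S.pr fun v n => GI S N g (S.pr (a ∪ v) * n) with hΨ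
  have hHr : (1 : ℝ) ≤ S.Hk a := S.one_le_Hk hr2 hv0
  have hH : 1 ≤ S.Hk a := by exact_mod_cast hHr
  have hA := S.pr_pos a
  have h5 := five_R_le S hN
  have hR0 : (0 : ℤ) ≤ S.R := by positivity
  have ht : (4 : ℝ) ≤ S.T * S.iv a := by
    have e1 : 4 ≤ S.T / S.pr a := by
      have := four_H_le_J S a
      omega
    have e2 : (4 : ℝ) ≤ (S.T / S.pr a : ℕ) := by exact_mod_cast e1
    rw [Sys.iv, ← div_eq_mul_inv]
    exact e2.trans Nat.cast_div_le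
  have hsq : ∀ m, ‖((S.Hk a : ℂ))⁻¹ * sh S.h (S.Hk a) θ Ψ m‖ ^ 2
      = ((S.Hk a : ℝ) ^ 2)⁻¹ * ‖sh S.h (S.Hk a) θ Ψ m‖ ^ 2 := fun m => by
    rw [norm_mul, norm_inv, Complex.norm_natCast, mul_pow, inv_pow]
  have htriv : ∀ m, ‖sh S.h (S.Hk a) θ Ψ m‖ ^ 2 ≤ (4 * (S.Q : ℝ) ^ 2 * S.Hk a) ^ 2 := fun m => by
    refine pow_le_pow_left₀ (norm_nonneg _) ?_ 2
    refine (norm_sh_dv_le θ (fun v hv => ⟨S.coprime_pr_h (S.mem_VV.1 hv).1, S.Hk_le hv⟩)
      (fun v _ n => norm_GI_le S N hg1 _) m).trans ?_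
    exact_mod_cast S.card_VV_le hr2 a
  have hedge : ∀ lo : ℤ, ∑ m ∈ Iv (S.pr a) lo (lo + 4 * S.R), ‖sh S.h (S.Hk a) θ Ψ m‖ ^ 2
      ≤ (S.Hk a : ℝ) ^ 2 * (S.T * S.iv a * (200 * S.Λ * (S.Q : ℝ) ^ 4)) := fun lo => by
    have e1 := card_Iv_le hA (lo := lo) (hi := lo + 4 * S.R) (by omega)
    have e2 : ((lo + 4 * S.R - lo : ℤ) : ℝ) / S.pr a ≤ 8 * S.Λ * (S.T * S.iv a) := by
      rw [add_sub_cancel_left, R_cast, Sys.iv, div_eq_mul_inv]
      push_cast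
      have := S.h_le
      calc 4 * (2 * (S.T : ℝ) * |(S.h : ℝ)|) * (S.pr a : ℝ)⁻¹
          ≤ 4 * (2 * (S.T : ℝ) * S.Λ) * (S.pr a : ℝ)⁻¹ := by gcongr
        _ = _ := by ring
    have e3 : ((Iv (S.pr a) lo (lo + 4 * S.R)).card : ℝ) ≤ 9 * S.Λ * (S.T * S.iv a) := by
      nlinarith only [hΛ, ht, e1, e2]
    calc _ ≤ ∑ _m ∈ Iv (S.pr a) lo (lo + 4 * S.R), (4 * (S.Q : ℝ) ^ 2 * S.Hk a) ^ 2 :=
          sum_le_sum fun m _ => htriv m
      _ = (Iv (S.pr a) lo (lo + 4 * S.R)).card * (4 * (S.Q : ℝ) ^ 2 * S.Hk a) ^ 2 := by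
          rw [sum_const, nsmul_eq_mul]
      _ ≤ 9 * S.Λ * (S.T * S.iv a) * (4 * (S.Q : ℝ) ^ 2 * S.Hk a) ^ 2 := by gcongr
      _ = (S.Hk a : ℝ) ^ 2 * (S.T * S.iv a * (144 * S.Λ * (S.Q : ℝ) ^ 4)) := by ring
      _ ≤ _ := by gcongr; norm_num
  have hin := inner_le S hr2 hv0 hN hg1 hg hε hJ hMR hθ
  have hA' : (0 : ℤ) < S.pr a := by exact_mod_cast hA
  have hsum : ∑ m ∈ Iv (S.pr a) ((S.T * N : ℕ) - 3 * S.R) (2 * (S.T * N : ℕ) + 3 * S.R),
        ‖sh S.h (S.Hk a) θ Ψ m‖ ^ 2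
      = ∑ m ∈ Iv (S.pr a) ((S.T * N : ℕ) - 3 * S.R) ((S.T * N : ℕ) - 3 * S.R + 4 * S.R),
          ‖sh S.h (S.Hk a) θ Ψ m‖ ^ 2
        + ∑ m ∈ Iv (S.pr a) ((S.T * N : ℕ) + S.R) (2 * (S.T * N : ℕ) - S.R),
          ‖sh S.h (S.Hk a) θ Ψ m‖ ^ 2
        + ∑ m ∈ Iv (S.pr a) (2 * (S.T * N : ℕ) - S.R) (2 * (S.T * N : ℕ) - S.R + 4 * S.R),
          ‖sh S.h (S.Hk a) θ Ψ m‖ ^ 2 := by
    rw [show ((S.T * N : ℕ) : ℤ) - 3 * S.R + 4 * S.R = (S.T * N : ℕ) + S.R by ring,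
      show 2 * ((S.T * N : ℕ) : ℤ) - S.R + 4 * S.R = 2 * (S.T * N : ℕ) + 3 * S.R by ring]
    unfold Iv
    rw [sum_Ioc_int, sum_Ioc_int] <;> exact Int.ediv_le_ediv hA' (by omega)
  simp only [hsq]
  rw [← mul_sum, hsum, inv_mul_le_iff₀ (by positivity)]
  have e1 := hedge ((S.T * N : ℕ) - 3 * S.R)
  have e2 := hedge (2 * (S.T * N : ℕ) - S.R)
  nlinarith only [hin, e1, e2]

end Int4

namespace Sys

variable {ι : Type} [Fintype ι] [DecidableEq ι] (S : Sys ι)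

theorem Pos_GX_le {r : ℕ} (hr2 : 1 ≤ r) (hr : r ≤ S.k) {N : ℕ} (hN : 10 * S.h.natAbs ≤ N) {i0 : ι}
    (hW : 10 * (S.T * N) < S.m i0) {g : ℤ → ℂ} (hg1 : ∀ y, ‖g y‖ ≤ 1)
    (hg : ∀ d ∈ S.DD, ∀ n : ℤ, g (S.pr d * n) = g n) {ε : ℝ} (hε : 0 ≤ ε) {Jm : ℕ} (hJ : S.T ≤ Jm)
    (hMR : MRB N (fun n => if (S.Zi n).card = S.k' then g n else 0) S.h (S.H0 / 2) S.H1 S.Q Jm ε) :
    S.Pos r (S.GX N g) ≤ (S.Q : ℝ) ^ 2 * S.T * S.es (S.s - r) *
        (3 * S.Λ ^ 2 * ε * N + N / S.H0 + 400 * S.Λ * (S.Q : ℝ) ^ 4)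
      + 12 * (S.Q : ℝ) ^ 4 * S.D * S.Ex N := by
  have hH0 : (5 : ℝ) ≤ S.H0 := le_trans (by norm_num) S.H0_big
  have hΛ := S.big
  set B : ℝ := 3 * S.Λ ^ 2 * ε * N + N / S.H0 + 400 * S.Λ * (S.Q : ℝ) ^ 4 with hB
  have hB0 : 0 ≤ B := by positivity
  have hF : (S.FF.card : ℝ) ≤ (S.Q : ℝ) ^ 2 := by exact_mod_cast S.card_FF_le
  have hEx : ∑ a ∈ S.AA r, ∑ v ∈ S.VV r a, ((Int4.Bx S N (a ∪ v)).card : ℝ) ≤ S.D * S.Ex N := by
    rw [Int4.Ex_eq]
    push_cast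
    exact S.sum_AV_le hr (Φ := fun d => ((Int4.Bx S N d).card : ℝ)) fun _ _ => Nat.cast_nonneg _
  calc S.Pos r (S.GX N g) ≤ ∑ a ∈ S.AA r, (S.Q : ℝ) ^ 2 * (S.T * S.iv a * B
        + 12 * (S.Q : ℝ) ^ 2 * ∑ v ∈ S.VV r a, ((Int4.Bx S N (a ∪ v)).card : ℝ)) := by
        refine sum_le_sum fun a ha => ?_
        have hiv := (S.iv_pos a).le
        calc _ ≤ ∑ _θ ∈ S.FF, (S.T * S.iv a * B
            + 12 * (S.Q : ℝ) ^ 2 * ∑ v ∈ S.VV r a, ((Int4.Bx S N (a ∪ v)).card : ℝ)) := by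
              refine sum_le_sum fun θ hθ => ?_
              rw [Int4.red_int S ha hN hW]
              exact Int4.one_le S hr2 hN hg1 hg hε hJ hMR hθ
          _ ≤ _ := by
              rw [sum_const, nsmul_eq_mul]
              refine mul_le_mul_of_nonneg_right hF (add_nonneg (by positivity) ?_)
              exact mul_nonneg (by positivity) (sum_nonneg fun _ _ => Nat.cast_nonneg _)
    _ = (S.Q : ℝ) ^ 2 * S.T * S.es (S.s - r) * B + 12 * (S.Q : ℝ) ^ 4 *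
          ∑ a ∈ S.AA r, ∑ v ∈ S.VV r a, ((Int4.Bx S N (a ∪ v)).card : ℝ) := by
        rw [show S.es (S.s - r) = ∑ a ∈ S.AA r, S.iv a from S.es_eq _, mul_sum, mul_sum, sum_mul,
          ← sum_add_distrib]
        refine sum_congr rfl fun a _ => ?_
        ring
    _ ≤ _ := by
        rw [mul_assoc (12 * (S.Q : ℝ) ^ 4)]
        exact add_le_add le_rfl (mul_le_mul_of_nonneg_left hEx (by positivity))

end Sys

end Pool.Agent.Work.MP_d018b2_nt.R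
end
end

-- merged part: Pool.Agent.Work.MP_d018b2_nt.R.SPIII
section
-- merged part: Pool.Agent.Work.MP_d018b2_nt.R.SPLemA
section
/-! Sums over the dilation sets, and the use of goodness. -/

set_option autoImplicit false
open Finset Pool.Agent.Lib.LargeSieve

namespace Pool.Agent.Work.MP_d018b2_nt.R

open Pool.Agent.Work.MP_678620_nt

namespace Sys

variable {ι : Type} [Fintype ι] [DecidableEq ι] (S : Sys ι)

lemma lemA_key {d : Finset ι} (hd : d ⊆ S.E) (Φ : S.G → ℝ) :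
    S.iv d * ∑ ξ, Φ (S.rs d ξ + (S.jp d : S.G)) = ∑ y, if d ⊆ S.Zs y then Φ y else 0 := by
  have h1 := S.sum_rs hd fun ξ => Φ (ξ + (S.jp d : S.G))
  have h2 := S.sum_add_right (fun y => if d ⊆ S.Zs y then Φ y else 0) (S.jp d : S.G)
  simp only [S.sub_Zs_add fun p hp => S.jp_apply' hp] at h2
  have h0 : (S.pr d : ℝ) ≠ 0 := by exact_mod_cast (S.pr_pos d).ne'
  rw [h1, h2, nsmul_eq_mul, iv, ← mul_assoc, inv_mul_cancel₀ h0, one_mul]

lemma lemA_count {D0 : Finset (Finset ι)} (hD : D0 ⊆ S.DD) {Φ : S.G → ℝ} (h0 : ∀ y, 0 ≤ Φ y)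
    {B : ℕ} (hB : ∀ y, Φ y ≠ 0 → (D0.filter fun d => d ⊆ S.Zs y).card ≤ B) :
    ∑ d ∈ D0, S.iv d * ∑ ξ, Φ (S.rs d ξ + (S.jp d : S.G)) ≤ B * ∑ y, Φ y := by
  rw [sum_congr rfl fun d hd => S.lemA_key (S.DD_sub d (hD hd)) Φ, sum_comm, mul_sum]
  refine sum_le_sum fun y _ => ?_
  rw [← sum_filter, sum_const, nsmul_eq_mul]
  by_cases hy : Φ y = 0
  · rw [hy, mul_zero, mul_zero]
  · exact mul_le_mul_of_nonneg_right (by exact_mod_cast hB y hy) (h0 y)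

lemma lemA_erase (y : S.G) (p : ι) (c : ZMod (S.m p)) :
    (S.Zs (Function.update y p c)).erase p = (S.Zs y).erase p := by
  ext q
  simp only [mem_erase, S.mem_Zs]
  refine and_congr_right fun hq => ?_
  rw [Function.update_of_ne hq]

lemma lemA_cg {f : S.G → ℂ} (hf : S.Supp f) {p : ι} {y : S.G} {c : ZMod (S.m p)}
    (h : ‖f (Function.update y p c) - S.av {p} f y‖ ^ 2 ≠ 0) :
    ∃ c0, S.Cg (Function.update y p c0) := by
  by_contra hc
  have h0 : ∀ c0, f (Function.update y p c0) = 0 := fun c0 => by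
    by_contra hne
    exact hc ⟨c0, hf _ hne⟩
  apply h
  rw [S.av_single, h0]
  simp [h0]

lemma lemA_cg' {f : S.G → ℂ} (hf : S.Supp f) {p : ι} {y : S.G}
    (h : ‖f y - S.av {p} f y‖ ^ 2 ≠ 0) : ∃ c0, S.Cg (Function.update y p c0) :=
  S.lemA_cg hf (c := y p) (by rwa [Function.update_eq_self])

lemma lemA_sub {y : S.G} {p : ι} (c : ZMod (S.m p)) {d : Finset ι} (hp : p ∉ d)
    (hd : d ⊆ S.Zs y) : d ⊆ (S.Zs (Function.update y p c)).erase p := by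
  rw [S.lemA_erase]
  exact subset_erase.mpr ⟨hd, hp⟩

lemma indep_Fd (d : Finset ι) (f : S.G → ℂ) : S.Indep d (S.Fd d f) := by
  intro ξ η h
  have : S.rs d ξ = S.rs d η := by
    funext i
    unfold rs
    split_ifs with hi
    · rfl
    · exact h i hi
  unfold Fd
  rw [this]

lemma indep_Wa (r : ℕ) (a : Finset ι) (f : S.G → ℂ) : S.Indep a (S.Wa r a f) := by
  intro ξ η h
  unfold Wa
  exact sum_congr rfl fun v _ => by
    rw [(S.indep_Fd (a ∪ v) f).mono subset_union_left ξ η h]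

lemma lemA_av {d : Finset ι} {p : ι} (hp : p ∉ d) (f : S.G → ℂ) :
    S.av {p} (S.Fd d f) = S.Fd d (S.av {p} f) := by
  have h1 := S.av_piecewise (v := {p}) (w := d) (disjoint_singleton_left.mpr hp)
    (fun ξ => f (ξ + (S.jp d : S.G))) 0
  rw [S.av_tr] at h1
  unfold Fd
  simp only [S.rs_eq]
  exact h1

lemma sum_nn_Fd {f : S.G → ℂ} (hf : S.Supp f) :
    ∑ d ∈ S.DD, S.iv d * S.nn (S.Fd d f) ≤ S.D' * S.nn f := by
  refine S.lemA_count (Φ := fun y => ‖f y‖ ^ 2) subset_rfl (fun y => by positivity) fun y hy => ?_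
  have : f y ≠ 0 := fun h => hy (by simp [h])
  exact S.card_DD_sub (hf y this).1.le

lemma lemA_split (p : ι) (Ψ : Finset ι → ℝ) (h : ∀ d ∈ S.DD, p ∈ d → Ψ d = 0) :
    ∑ d ∈ S.DD, Ψ d = ∑ d ∈ S.DD.filter fun d => p ∉ d, Ψ d := by
  rw [sum_filter]
  refine sum_congr rfl fun d hd => ?_
  split_ifs with hp
  · exact h d hd hp
  · rfl

lemma sum_inf_Fd {f : S.G → ℂ} (hf : S.Supp f) :
    ∑ d ∈ S.DD, S.iv d * S.inf (S.Fd d f) ≤ S.D' * S.inf f := by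
  unfold inf
  simp only [mul_sum]
  rw [sum_comm]
  refine sum_le_sum fun p _ => ?_
  rw [S.lemA_split p]
  · refine le_trans (le_of_eq (sum_congr rfl fun d hd => ?_))
      (S.lemA_count (Φ := fun y => ‖f y - S.av {p} f y‖ ^ 2) (filter_subset _ _)
        (fun y => by positivity) fun y hy => ?_)
    · rw [S.lemA_av (mem_filter.mp hd).2]; rfl
    · obtain ⟨c0, hc⟩ := S.lemA_cg' hf hy
      refine le_trans (card_le_card fun d hd => ?_) (S.card_DD_sub hc.1.le)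
      simp only [mem_filter] at hd ⊢
      exact ⟨hd.1.1, (S.lemA_sub c0 hd.1.2 hd.2).trans (erase_subset _ _)⟩
  · intro d _ hp
    rw [S.av_of_indep ((S.indep_Fd d f).mono (singleton_subset_iff.mpr hp))]
    simp [nn]

lemma lemA_Wa {r : ℕ} (hr : r ≤ S.k) {N : (S.G → ℂ) → ℝ} (h0 : ∀ g, 0 ≤ N g) {f : S.G → ℂ}
    (hw : ∀ a, N (S.Wa r a f) ≤
      (∑ v ∈ S.VV r a, S.iv v) * ∑ v ∈ S.VV r a, S.iv v * N (S.Fd (a ∪ v) f))
    (hF : ∑ d ∈ S.DD, S.iv d * N (S.Fd d f) ≤ S.D' * N f) :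
    ∑ a ∈ S.AA r, S.iv a * N (S.Wa r a f) ≤ S.Λ * S.D * S.D' * N f := by
  have hΛ : 0 ≤ S.Λ := by linarith [S.big]
  calc ∑ a ∈ S.AA r, S.iv a * N (S.Wa r a f)
      ≤ ∑ a ∈ S.AA r, S.Λ * ∑ v ∈ S.VV r a, S.iv (a ∪ v) * N (S.Fd (a ∪ v) f) := by
        refine sum_le_sum fun a _ => ?_
        have e : ∑ v ∈ S.VV r a, S.iv (a ∪ v) * N (S.Fd (a ∪ v) f)
            = S.iv a * ∑ v ∈ S.VV r a, S.iv v * N (S.Fd (a ∪ v) f) := by
          rw [mul_sum]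
          exact sum_congr rfl fun v hv => by rw [S.iv_union (S.mem_VV.mp hv).2.1, mul_assoc]
        rw [e, mul_left_comm]
        refine mul_le_mul_of_nonneg_left ((hw a).trans ?_) (S.iv_pos a).le
        exact mul_le_mul_of_nonneg_right (S.sum_iv_VV_le r a)
          (sum_nonneg fun v _ => mul_nonneg (S.iv_pos v).le (h0 _))
    _ ≤ S.Λ * (S.D * (S.D' * N f)) := by
        rw [← mul_sum]
        refine mul_le_mul_of_nonneg_left ?_ hΛ
        exact (S.sum_AV_le hr (Φ := fun d => S.iv d * N (S.Fd d f))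
          fun d _ => mul_nonneg (S.iv_pos d).le (h0 _)).trans
          (mul_le_mul_of_nonneg_left hF (Nat.cast_nonneg _))
    _ = _ := by ring

lemma sum_nn_Wa {r : ℕ} (hr : r ≤ S.k) {f : S.G → ℂ} (hf : S.Supp f) :
    ∑ a ∈ S.AA r, S.iv a * S.nn (S.Wa r a f) ≤ S.Λ * S.D * S.D' * S.nn f :=
  S.lemA_Wa hr S.nn_nonneg
    (fun a => S.nn_wsum (S.VV r a) (fun v _ => (S.iv_pos v).le) fun v => S.Fd (a ∪ v) f)
    (S.sum_nn_Fd hf)

lemma sum_inf_Wa {r : ℕ} (hr : r ≤ S.k) {f : S.G → ℂ} (hf : S.Supp f) :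
    ∑ a ∈ S.AA r, S.iv a * S.inf (S.Wa r a f) ≤ S.Λ * S.D * S.D' * S.inf f :=
  S.lemA_Wa hr S.inf_nonneg
    (fun a => S.inf_wsum (S.VV r a) (fun v _ => (S.iv_pos v).le) fun v => S.Fd (a ∪ v) f)
    (S.sum_inf_Fd hf)

lemma lemA_rs {d : Finset ι} {p : ι} (hp : p ∉ d) (ξ : S.G) :
    S.rs d (S.rs {p} ξ) + (S.jp d : S.G)
      = Function.update (S.rs d ξ + (S.jp d : S.G)) p (S.jp d : ZMod (S.m p)) := by
  funext i
  by_cases hi : i = p
  · subst hi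
    simp [rs, hp]
  · rw [Function.update_of_ne hi]
    simp [rs, hi]

lemma lemA_one {f : S.G → ℂ} (hf : S.Supp f) {p : ι} (hp : p ∈ S.E) :
    ∑ d ∈ S.DD.filter fun d => p ∉ d, S.iv d * ∑ ξ,
      ‖f (Function.update (S.rs d ξ + (S.jp d : S.G)) p (S.jp d : ZMod (S.m p)))
        - S.av {p} f (S.rs d ξ + (S.jp d : S.G))‖ ^ 2
      ≤ 2 * (S.m p * S.nn fun ξ => f ξ - S.av {p} f ξ) := by
  rw [← S.sum_update, mul_sum, ← sum_fiberwise (S.DD.filter fun d => p ∉ d)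
    fun d => (S.jp d : ZMod (S.m p))]
  refine sum_le_sum fun c _ => ?_
  refine le_trans (le_of_eq (sum_congr rfl fun d hd => ?_))
    (S.lemA_count (Φ := fun y => ‖f (Function.update y p c) - S.av {p} f y‖ ^ 2) (B := 2)
      ((filter_subset _ _).trans (filter_subset _ _)) (fun y => by positivity) fun y hy => ?_)
  · rw [(mem_filter.mp hd).2]
  · obtain ⟨c0, hc⟩ := S.lemA_cg hf hy
    have : Fact (S.m p).Prime := ⟨S.prime p hp⟩
    have hh : (S.h : ZMod (S.m p)) ≠ 0 := fun h =>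
      S.not_dvd_h hp ((ZMod.intCast_zmod_eq_zero_iff_dvd _ _).mp h)
    refine le_trans (card_le_card fun d hd => ?_) (hc.2 p hp (c / (S.h : ZMod (S.m p))))
    simp only [mem_filter] at hd ⊢
    refine ⟨hd.1.1.1, S.lemA_sub c0 hd.1.1.2 hd.2, ?_⟩
    rw [eq_div_iff hh, ← hd.1.2, jp]
    push_cast
    rfl

lemma lemA_two {f : S.G → ℂ} (hf : S.Supp f) {p : ι} (hp : p ∈ S.E) :
    ∑ d ∈ S.DD.filter fun d => p ∉ d, S.iv d * ∑ ξ,
      ‖f (S.rs d ξ + (S.jp d : S.G)) - S.av {p} f (S.rs d ξ + (S.jp d : S.G))‖ ^ 2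
      ≤ 2 * (S.m p * S.nn fun ξ => f ξ - S.av {p} f ξ) := by
  have := S.lemA_count (D0 := S.DD.filter fun d => p ∉ d)
    (Φ := fun y => ‖f y - S.av {p} f y‖ ^ 2) (B := 2 * S.m p) (filter_subset _ _)
    (fun y => by positivity) fun y hy => ?_
  · rw [Nat.cast_mul, mul_assoc] at this
    exact this
  · obtain ⟨c0, hc⟩ := S.lemA_cg' hf hy
    have h2 := card_le_mul_card_image_of_maps_to
      (s := (S.DD.filter fun d => p ∉ d).filter fun d => d ⊆ S.Zs y)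
      (t := (univ : Finset (ZMod (S.m p)))) (f := fun d => (S.pr d : ZMod (S.m p)))
      (fun _ _ => mem_univ _) 2 fun c _ => by
        refine le_trans (card_le_card fun d hd => ?_) (hc.2 p hp c)
        simp only [mem_filter] at hd ⊢
        exact ⟨hd.1.1.1, S.lemA_sub c0 hd.1.1.2 hd.1.2, hd.2⟩
    rwa [card_univ, ZMod.card] at h2

theorem lemA {f : S.G → ℂ} (hf : S.Supp f) :
    ∑ d ∈ S.DD, S.iv d * S.devB (S.Fd d f) ≤ 8 * S.inf f := by
  unfold devB inf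
  simp only [mul_sum]
  rw [sum_comm]
  refine sum_le_sum fun p hp => ?_
  rw [S.lemA_split p]
  · have h1 := S.lemA_one hf hp
    have h2 := S.lemA_two hf hp
    have hm : (S.m p : ℝ) ≠ 0 := by exact_mod_cast (S.m_pos p).ne'
    set V := S.nn fun ξ => f ξ - S.av {p} f ξ with hV
    have e : 8 * V = S.nu p * (2 * (2 * (S.m p * V)) + 2 * (2 * (S.m p * V))) := by
      unfold nu; field_simp; ring
    rw [e]
    refine le_trans ?_ (mul_le_mul_of_nonneg_left (add_le_add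
      (mul_le_mul_of_nonneg_left h1 zero_le_two) (mul_le_mul_of_nonneg_left h2 zero_le_two))
      (S.nu_pos p).le)
    rw [mul_sum, mul_sum, ← sum_add_distrib, mul_sum]
    refine sum_le_sum fun d hd => ?_
    rw [mul_left_comm, mul_left_comm 2, mul_left_comm 2, ← mul_add]
    refine mul_le_mul_of_nonneg_left (mul_le_mul_of_nonneg_left ?_ (S.iv_pos d).le) (S.nu_pos p).le
    rw [mul_sum, mul_sum, ← sum_add_distrib]
    refine sum_le_sum fun ξ _ => ?_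
    simp only [Fd]
    rw [S.lemA_rs (mem_filter.mp hd).2]
    have := norm_add_sq_le
      (f (Function.update (S.rs d ξ + (S.jp d : S.G)) p (S.jp d : ZMod (S.m p)))
        - S.av {p} f (S.rs d ξ + (S.jp d : S.G)))
      (-(f (S.rs d ξ + (S.jp d : S.G)) - S.av {p} f (S.rs d ξ + (S.jp d : S.G))))
    rw [norm_neg, ← sub_eq_add_neg, sub_sub_sub_cancel_right] at this
    exact this
  · intro d _ hpd
    simp [nn, ((S.indep_Fd d f).mono (singleton_subset_iff.mpr hpd)).rs]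

end Sys

end Pool.Agent.Work.MP_d018b2_nt.R
end

-- merged part: Pool.Agent.Work.MP_d018b2_nt.R.SPLemB
section
/-! The decoupling inequality. -/

set_option autoImplicit false
open Finset Pool.Agent.Lib.LargeSieve

namespace Pool.Agent.Work.MP_d018b2_nt.R

open Pool.Agent.Work.MP_678620_nt

namespace Sys

variable {ι : Type} [Fintype ι] [DecidableEq ι] (S : Sys ι)

/-- The law of the zero set inside `A`. -/
noncomputable def LemB_W (A z : Finset ι) : ℝ := (∏ p ∈ z, S.nu p) * ∏ p ∈ A \ z, (1 - S.nu p)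

lemma LemB_nonneg (A z : Finset ι) : 0 ≤ S.LemB_W A z :=
  mul_nonneg (prod_nonneg fun p _ => (S.nu_pos p).le) (prod_nonneg fun p _ =>
    sub_nonneg.2 (inv_le_one_of_one_le₀ (Nat.one_le_cast.2 (S.m_pos p))))

lemma LemB_rec {p : ι} {A : Finset ι} (hp : p ∉ A) (F : Finset ι → ℝ) :
    ∑ z ∈ (insert p A).powerset, S.LemB_W (insert p A) z * F z =
      ∑ z ∈ A.powerset, S.LemB_W A z * ((1 - S.nu p) * F z + S.nu p * F (insert p z)) := by
  rw [sum_powerset_insert hp, ← sum_add_distrib]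
  refine sum_congr rfl fun z hz => ?_
  have h1 : p ∉ z := fun h => hp (mem_powerset.1 hz h)
  simp only [LemB_W]
  rw [insert_sdiff_of_notMem _ h1, prod_insert fun h => hp (mem_sdiff.1 h).1, prod_insert h1,
    insert_sdiff_insert, sdiff_insert_of_notMem hp]
  ring

lemma LemB_rs (p : ι) (z : Finset ι) (ξ : S.G) :
    S.rs (insert p z) ξ = S.rs {p} (S.rs z ξ) := by
  funext i
  by_cases h : i = p <;> simp [rs, h]

lemma LemB_sum {A : Finset ι} (hA : A ⊆ S.E) : ∀ Ψ : S.G → ℝ, (∀ ξ, 0 ≤ Ψ ξ) →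
    ∑ z ∈ A.powerset, S.LemB_W A z *
      ∑ ξ : S.G, (if ∀ q ∈ A, ξ q ≠ 0 then Ψ (S.rs z ξ) else 0) ≤ ∑ ξ, Ψ ξ := by
  induction A using Finset.induction_on with
  | empty =>
    intro Ψ _
    have h : ∀ ξ, S.rs ∅ ξ = ξ := fun ξ => funext fun i => by simp [rs]
    simp [LemB_W, h]
  | insert p A hp ih =>
    intro Ψ hΨ
    have hE := hA (mem_insert_self p A)
    have h0 := (S.nu_pos p).le
    have h1 : S.nu p ≤ 1 := inv_le_one_of_one_le₀ (Nat.one_le_cast.2 (S.m_pos p))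
    rw [S.LemB_rec hp]
    refine le_trans (le_of_eq (sum_congr rfl fun z hz => ?_)) ((ih ((subset_insert p A).trans hA)
      (fun η => if η p ≠ 0 then (1 - S.nu p) * Ψ η + S.nu p * Ψ (S.rs {p} η) else 0)
      fun η => ?_).trans ?_)
    · have h2 : p ∉ z := fun h => hp (mem_powerset.1 hz h)
      rw [mul_sum, mul_sum, ← sum_add_distrib]
      refine congrArg _ (sum_congr rfl fun ξ _ => ?_)
      have h3 : S.rs z ξ p = ξ p := if_neg h2
      simp only [forall_mem_insert, LemB_rs, h3]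
      by_cases h5 : ∀ q ∈ A, ξ q ≠ 0
      · by_cases h4 : ξ p ≠ 0
        · rw [if_pos ⟨h4, h5⟩, if_pos ⟨h4, h5⟩, if_pos h5, if_pos h4]
        · simp [h4]
      · simp [h5]
    · split_ifs
      exacts [add_nonneg (mul_nonneg (sub_nonneg.2 h1) (hΨ _)) (mul_nonneg h0 (hΨ _)), le_rfl]
    · have h2 : ∑ η, S.nu p * Ψ (S.rs {p} η) = ∑ η : S.G, if η p = 0 then Ψ η else 0 := by
        rw [← mul_sum, S.sum_rs (singleton_subset_iff.2 hE), nsmul_eq_mul, pr, prod_singleton, nu,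
          inv_mul_cancel_left₀ (Nat.cast_ne_zero.2 (S.m_pos p).ne')]
        simp [mem_Zs, hE]
      calc _ ≤ ∑ η : S.G, ((if η p = 0 then 0 else Ψ η) + S.nu p * Ψ (S.rs {p} η)) := by
            refine sum_le_sum fun η _ => ?_
            have h3 := mul_nonneg h0 (hΨ η)
            have h4 := mul_nonneg h0 (hΨ (S.rs {p} η))
            by_cases h : η p = 0 <;> simp only [h, ne_eq, not_true, not_false_iff, if_true,
              if_false] <;> linarith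
        _ = _ := by
            rw [sum_add_distrib, h2, ← sum_add_distrib]
            exact sum_congr rfl fun η _ => by split_ifs <;> simp

lemma LemB_sum' {A : Finset ι} (hA : A ⊆ S.E) {Ψ : S.G → ℝ} (hΨ : ∀ ξ, 0 ≤ Ψ ξ) :
    ∑ z ∈ A.powerset, S.LemB_W A z * ∑ ξ ∈ S.Gx, Ψ (S.rs z ξ) ≤ ∑ ξ, Ψ ξ := by
  refine le_trans (sum_le_sum fun z _ => mul_le_mul_of_nonneg_left ?_ (S.LemB_nonneg A z))
    (S.LemB_sum hA Ψ hΨ)
  rw [← sum_filter]
  exact sum_le_sum_of_subset_of_nonneg (monotone_filter_right _ fun ξ _ h q hq => h q (hA hq))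
    fun ξ _ _ => hΨ _

lemma LemB_ind (Φ : S.G → ℂ) {A : Finset ι} (hA : A ⊆ S.E) :
    ∑ z ∈ A.powerset, S.LemB_W A z * ∑ ξ ∈ S.Gx, ‖Φ (S.rs z ξ) - Φ ξ‖ ^ 2 ≤
      2 * Real.exp (∑ p ∈ A, S.nu p) *
        ∑ p ∈ A, S.nu p * S.nn fun ξ => Φ (S.rs {p} ξ) - Φ ξ := by
  induction A using Finset.induction_on with
  | empty =>
    have h : ∀ ξ, S.rs ∅ ξ = ξ := fun ξ => funext fun i => by simp [rs]
    simp [h]
  | insert p A hp ih =>
    have hA' := (subset_insert p A).trans hA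
    have h0 := (S.nu_pos p).le
    have h1 := S.LemB_sum' hA' (Ψ := fun ξ => ‖Φ (S.rs {p} ξ) - Φ ξ‖ ^ 2) fun _ => sq_nonneg _
    have h2 := ih hA'
    rw [S.LemB_rec hp, sum_insert hp, sum_insert hp, Real.exp_add]
    have h3 : ∀ z ∈ A.powerset, S.LemB_W A z *
        ((1 - S.nu p) * ∑ ξ ∈ S.Gx, ‖Φ (S.rs z ξ) - Φ ξ‖ ^ 2 +
          S.nu p * ∑ ξ ∈ S.Gx, ‖Φ (S.rs (insert p z) ξ) - Φ ξ‖ ^ 2) ≤
        (1 + S.nu p) * (S.LemB_W A z * ∑ ξ ∈ S.Gx, ‖Φ (S.rs z ξ) - Φ ξ‖ ^ 2) + 2 * S.nu p *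
          (S.LemB_W A z * ∑ ξ ∈ S.Gx, ‖Φ (S.rs {p} (S.rs z ξ)) - Φ (S.rs z ξ)‖ ^ 2) := by
      intro z _
      have h4 : ∑ ξ ∈ S.Gx, ‖Φ (S.rs (insert p z) ξ) - Φ ξ‖ ^ 2 ≤
          2 * ∑ ξ ∈ S.Gx, ‖Φ (S.rs {p} (S.rs z ξ)) - Φ (S.rs z ξ)‖ ^ 2 +
            2 * ∑ ξ ∈ S.Gx, ‖Φ (S.rs z ξ) - Φ ξ‖ ^ 2 := by
        rw [mul_sum, mul_sum, ← sum_add_distrib]
        refine sum_le_sum fun ξ _ => le_trans (le_of_eq ?_) (norm_add_sq_le _ _)
        rw [LemB_rs, sub_add_sub_cancel]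
      linarith [mul_le_mul_of_nonneg_left h4 (mul_nonneg (S.LemB_nonneg A z) h0)]
    refine (sum_le_sum h3).trans ?_
    rw [sum_add_distrib, ← mul_sum, ← mul_sum]
    have h5 : 1 + S.nu p ≤ Real.exp (S.nu p) := by linarith [Real.add_one_le_exp (S.nu p)]
    have h6 : 1 ≤ Real.exp (S.nu p) * Real.exp (∑ q ∈ A, S.nu q) :=
      one_le_mul_of_one_le_of_one_le (Real.one_le_exp h0)
        (Real.one_le_exp (sum_nonneg fun q _ => (S.nu_pos q).le))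
    have h7 := mul_le_mul h5 h2 (sum_nonneg fun z _ => mul_nonneg (S.LemB_nonneg A z)
      (sum_nonneg fun _ _ => sq_nonneg _)) (Real.exp_pos _).le
    have h8 := mul_le_mul_of_nonneg_left h1 h0
    have h9 := mul_le_mul_of_nonneg_right h6
      (mul_nonneg h0 (S.nn_nonneg fun ξ => Φ (S.rs {p} ξ) - Φ ξ))
    simp only [nn] at h7 h9 ⊢
    linarith

theorem lemB (Φ : S.G → ℂ) : S.dev Φ ≤ 2 * S.Λ ^ 3 * S.devB Φ := by
  have h0 : 0 ≤ S.devB Φ := sum_nonneg fun p _ => mul_nonneg (S.nu_pos p).le (S.nn_nonneg _)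
  have h1 := (S.LemB_ind Φ subset_rfl).trans
    (mul_le_mul_of_nonneg_right (mul_le_mul_of_nonneg_left S.exp_L zero_le_two) h0)
  refine (mul_le_mul S.vp_inv_le h1 (sum_nonneg fun z _ => mul_nonneg (S.Pz_nonneg z)
    (sum_nonneg fun _ _ => sq_nonneg _)) (sq_nonneg _)).trans_eq ?_
  unfold devB
  ring

lemma dev_nonneg (Φ : S.G → ℂ) : 0 ≤ S.dev Φ :=
  mul_nonneg (inv_nonneg.2 S.vp_pos.le) (sum_nonneg fun z _ => mul_nonneg (S.Pz_nonneg z)
    (sum_nonneg fun _ _ => sq_nonneg _))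

lemma Err_nonneg (f : S.G → ℂ) : 0 ≤ S.Err f :=
  sum_nonneg fun d _ => mul_nonneg (S.iv_pos d).le (S.dev_nonneg _)

theorem Err_le {f : S.G → ℂ} (hf : S.Supp f) : S.Err f ≤ 16 * S.Λ ^ 3 * S.inf f := by
  have h0 : 0 ≤ 2 * S.Λ ^ 3 := by have := S.big; positivity
  calc S.Err f ≤ ∑ d ∈ S.DD, 2 * S.Λ ^ 3 * (S.iv d * S.devB (S.Fd d f)) :=
        sum_le_sum fun d _ => by
          linarith [mul_le_mul_of_nonneg_left (S.lemB (S.Fd d f)) (S.iv_pos d).le]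
    _ ≤ 2 * S.Λ ^ 3 * (8 * S.inf f) := by
        rw [← mul_sum]
        exact mul_le_mul_of_nonneg_left (S.lemA hf) h0
    _ = _ := by ring

end Sys

end Pool.Agent.Work.MP_d018b2_nt.R
end

-- merged part: Pool.Agent.Work.MP_d018b2_nt.R.SPI1
section
/-! Decoupling the zero set in the two-step form. -/

set_option autoImplicit false
open Finset Pool.Agent.Lib.LargeSieve

namespace Pool.Agent.Work.MP_d018b2_nt.R

open Pool.Agent.Work.MP_678620_nt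

namespace Sys

variable {ι : Type} [Fintype ι] [DecidableEq ι] (S : Sys ι)

/-- The form at a frozen zero set. -/
noncomputable def I1B (r : ℕ) (z : Finset ι) (a b : Finset ι → ℂ) : ℂ :=
  ∑ d ∈ S.DD, ∑ d' ∈ S.DD,
    if d ⊆ z ∧ d' ⊆ z ∧ (d \ d').card = r then (starRingEnd ℂ) (a d) * b d' else 0

/-- The sum over the divisors inside `z`. -/
noncomputable def I1N (z : Finset ι) (φ : Finset ι → ℝ) : ℝ :=
  ∑ d ∈ S.DD, if d ⊆ z then φ d else 0

/-- The averaged sum. -/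
noncomputable def I1E (Φ : Finset ι → Finset ι → S.G → ℝ) : ℝ :=
  ∑ d ∈ S.DD, S.iv d * (S.vp⁻¹ * ∑ z ∈ S.E.powerset, S.Pz z * ∑ ξ ∈ S.Gx, Φ d z ξ)

lemma I1N_nonneg (z : Finset ι) (a : Finset ι → ℂ) : 0 ≤ S.I1N z fun d => ‖a d‖ ^ 2 :=
  sum_nonneg fun _ _ => by split_ifs <;> positivity

lemma I1_l1 {z : Finset ι} (hz : z.card ≤ S.s + S.k) (a : Finset ι → ℂ) :
    S.I1N z (fun d => ‖a d‖) ≤ √S.D * √(S.I1N z fun d => ‖a d‖ ^ 2) := by
  rw [← Real.sqrt_mul (Nat.cast_nonneg _)]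
  refine Real.le_sqrt_of_sq_le ?_
  simp only [I1N, ← sum_filter]
  refine sq_sum_le_card_mul_sum_sq.trans (mul_le_mul_of_nonneg_right ?_ (by positivity))
  exact_mod_cast S.card_DD_sub hz

lemma I1B_le (r : ℕ) {z : Finset ι} (hz : z.card ≤ S.s + S.k) (a b : Finset ι → ℂ) :
    ‖S.I1B r z a b‖ ≤
      S.D * (√(S.I1N z fun d => ‖a d‖ ^ 2) * √(S.I1N z fun d => ‖b d‖ ^ 2)) := by
  have h1 : ‖S.I1B r z a b‖ ≤ S.I1N z (fun d => ‖a d‖) * S.I1N z fun d => ‖b d‖ := by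
    rw [I1N, I1N, sum_mul_sum]
    refine norm_sum_le_of_le _ fun d _ => norm_sum_le_of_le _ fun d' _ => ?_
    by_cases h : d ⊆ z ∧ d' ⊆ z ∧ (d \ d').card = r
    · rw [if_pos h, if_pos h.1, if_pos h.2.1, norm_mul, Complex.norm_conj]
    · rw [if_neg h, norm_zero]
      split_ifs <;> positivity
  refine h1.trans ((mul_le_mul (S.I1_l1 hz a) (S.I1_l1 hz b) (sum_nonneg fun _ _ => by
    split_ifs <;> positivity) (by positivity)).trans_eq ?_)
  rw [mul_mul_mul_comm, Real.mul_self_sqrt (Nat.cast_nonneg _)]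

lemma I1B_sub (r : ℕ) (z : Finset ι) (a b a' b' : Finset ι → ℂ) :
    S.I1B r z a b - S.I1B r z a' b' =
      S.I1B r z (fun d => a d - a' d) b + S.I1B r z a' fun d => b d - b' d := by
  simp only [I1B, ← sum_sub_distrib, ← sum_add_distrib]
  refine sum_congr rfl fun d _ => sum_congr rfl fun d' _ => ?_
  split_ifs
  · rw [map_sub]
    ring
  · simp

lemma I1_rs {f : S.G → ℂ} (d z : Finset ι) (ξ : S.G) :
    S.Fd d f (S.rs (z ∪ d) ξ) = S.Fd d f (S.rs z ξ) :=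
  S.indep_Fd d f _ _ fun i hi => by simp [rs, hi]

lemma I1E_rs {f : S.G → ℂ} (hf : S.Supp f) :
    S.I1E (fun d z ξ => ‖S.Fd d f (S.rs z ξ)‖ ^ 2) ≤ S.D' * S.nn f := by
  refine le_of_eq_of_le (sum_congr rfl fun d _ => ?_) (S.sum_nn_Fd hf)
  rw [nn, S.coupling]
  rfl

lemma I1E_id {f : S.G → ℂ} (hf : S.Supp f) :
    S.I1E (fun d _ ξ => ‖S.Fd d f ξ‖ ^ 2) ≤ S.Λ ^ 2 * (S.D' * S.nn f) := by
  refine le_trans ?_ (mul_le_mul_of_nonneg_left (S.sum_nn_Fd hf) (sq_nonneg _))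
  rw [mul_sum]
  refine sum_le_sum fun d _ => ?_
  rw [← sum_mul, S.sum_Pz, one_mul, mul_left_comm (S.Λ ^ 2)]
  exact mul_le_mul_of_nonneg_left (mul_le_mul S.vp_inv_le (sum_le_univ_sum_of_nonneg
    fun _ => by positivity) (by positivity) (sq_nonneg _)) (S.iv_pos d).le

lemma I1_step (r : ℕ) {g f : S.G → ℂ} (hg : S.Supp g) (hf : S.Supp f) {α : Type} (I : Finset α)
    (w : α → ℝ) (z y : α → Finset ι) (ξ : α → S.G) (hw : ∀ i ∈ I, 0 ≤ w i)
    (hz : ∀ i ∈ I, (z i).card ≤ S.s + S.k)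
    (hX : ∀ Φ : Finset ι → Finset ι → S.G → ℝ, (∀ d z ξ, 0 ≤ Φ d z ξ) →
      (∀ d z ξ, Φ d (z ∪ d) ξ = Φ d z ξ) →
      ∑ i ∈ I, w i * S.I1N (z i) (fun d => Φ d (y i) (ξ i)) ≤ S.I1E Φ) :
    ‖∑ i ∈ I, w i • S.I1B r (z i) (fun d => S.Fd d g (S.rs (y i) (ξ i)))
        (fun d => S.Fd d f (S.rs (y i) (ξ i))) -
      ∑ i ∈ I, w i • S.I1B r (z i) (fun d => S.Fd d g (ξ i)) (fun d => S.Fd d f (ξ i))‖ ≤
      S.D * S.Λ * √S.D' * (√(S.Err g) * √(S.nn f) + √(S.nn g) * √(S.Err f)) := by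
  have hΛ : 1 ≤ S.Λ := by linarith [S.big]
  have e : ∀ u : S.G → ℂ, ∑ i ∈ I, w i * S.I1N (z i)
      (fun d => ‖S.Fd d u (S.rs (y i) (ξ i)) - S.Fd d u (ξ i)‖ ^ 2) ≤ S.Err u := fun u =>
    hX (fun d z ξ => ‖S.Fd d u (S.rs z ξ) - S.Fd d u ξ‖ ^ 2) (fun _ _ _ => by positivity)
      fun d z ξ => by rw [S.I1_rs]
  have h2 := (hX (fun d z ξ => ‖S.Fd d f (S.rs z ξ)‖ ^ 2) (fun _ _ _ => by positivity)
    fun d z ξ => by rw [S.I1_rs]).trans (S.I1E_rs hf)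
  have h3 := (hX (fun d _ ξ => ‖S.Fd d g ξ‖ ^ 2) (fun _ _ _ => by positivity)
    fun _ _ _ => rfl).trans (S.I1E_id hg)
  have c1 := (cs_sqrt I hw (fun i _ => S.I1N_nonneg (z i) _) fun i _ => S.I1N_nonneg (z i) _).trans
    (mul_le_mul (Real.sqrt_le_sqrt (e g)) (Real.sqrt_le_sqrt h2) (by positivity) (by positivity))
  have c2 := (cs_sqrt I hw (fun i _ => S.I1N_nonneg (z i) _) fun i _ => S.I1N_nonneg (z i) _).trans
    (mul_le_mul (Real.sqrt_le_sqrt h3) (Real.sqrt_le_sqrt (e f)) (by positivity) (by positivity))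
  rw [Real.sqrt_mul (Nat.cast_nonneg _)] at c1
  rw [Real.sqrt_mul (sq_nonneg _), Real.sqrt_sq (by linarith),
    Real.sqrt_mul (Nat.cast_nonneg _)] at c2
  have c3 := mul_le_mul_of_nonneg_left (add_le_add c1 c2) (Nat.cast_nonneg (α := ℝ) S.D)
  rw [← sum_add_distrib, mul_sum] at c3
  rw [← sum_sub_distrib]
  refine (norm_sum_le_of_le _ fun i hi => ?_).trans (c3.trans ?_)
  · rw [← smul_sub, norm_smul, Real.norm_of_nonneg (hw i hi), I1B_sub, ← mul_add, mul_left_comm,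
      mul_add (S.D : ℝ)]
    exact mul_le_mul_of_nonneg_left ((norm_add_le _ _).trans (add_le_add
      (S.I1B_le r (hz i hi) _ _) (S.I1B_le r (hz i hi) _ _))) (hw i hi)
  · have c4 : 0 ≤ S.D * √S.D' * (√(S.Err g) * √(S.nn f)) := by positivity
    clear * - ι S g f hΛ c4
    nlinarith [mul_le_mul_of_nonneg_left hΛ c4]

lemma I1_X1 (Φ : Finset ι → Finset ι → S.G → ℝ) (h0 : ∀ d z ξ, 0 ≤ Φ d z ξ)
    (h1 : ∀ d z ξ, Φ d (z ∪ d) ξ = Φ d z ξ) (n : ℕ) :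
    ∑ i ∈ S.E.powersetCard n ×ˢ S.Gx, S.vp⁻¹ * S.Pz i.1 * S.I1N i.1 (fun d => Φ d i.1 i.2) ≤
      S.I1E Φ := by
  have hv := (inv_pos.2 S.vp_pos).le
  simp only [I1N, mul_sum]
  rw [sum_comm]
  refine sum_le_sum fun d hd => ?_
  rw [mul_left_comm, ← S.Pz_cond (S.DD_sub d hd) (fun z => ∑ ξ ∈ S.Gx, Φ d z ξ)
    (fun z => by simp only [h1]), sum_product, mul_sum]
  refine (sum_le_sum fun z _ => le_of_eq ?_).trans (sum_le_sum_of_subset_of_nonneg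
    (fun z hz => mem_powerset.2 (mem_powersetCard.1 hz).1) fun z _ _ => ?_)
  · split_ifs
    · rw [← mul_assoc, mul_sum]
    · simp
  · refine mul_nonneg hv (mul_nonneg (S.Pz_nonneg z) ?_)
    split_ifs
    · exact sum_nonneg fun ξ _ => h0 _ _ _
    · exact le_rfl

lemma I1_X2 (Φ : Finset ι → Finset ι → S.G → ℝ) (h0 : ∀ d z ξ, 0 ≤ Φ d z ξ) (n : ℕ) :
    ∑ i ∈ S.E.powersetCard n ×ˢ S.E.powerset ×ˢ S.Gx,
      S.Pz i.1 * (S.vp⁻¹ * S.Pz i.2.1) * S.I1N i.1 (fun d => Φ d i.2.1 i.2.2) ≤ S.I1E Φ := by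
  have hv := (inv_pos.2 S.vp_pos).le
  simp only [I1N, mul_sum]
  rw [sum_comm]
  refine sum_le_sum fun d hd => le_of_eq_of_le ?_ (mul_le_mul_of_nonneg_right
    (S.Pz_class_le (S.DD_sub d hd) n) (mul_nonneg hv (sum_nonneg fun z _ =>
      mul_nonneg (S.Pz_nonneg z) (sum_nonneg fun ξ _ => h0 _ _ _))))
  rw [sum_product, sum_mul]
  refine sum_congr rfl fun z _ => ?_
  rw [sum_product]
  split_ifs
  · simp only [mul_sum, mul_assoc]
  · simp

theorem TT_sub_MD (r : ℕ) {g f : S.G → ℂ} (hg : S.Supp g) (hf : S.Supp f) :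
    ‖S.TT r g f - S.MD r g f‖ ≤ 2 * S.D * S.Λ * √S.D' *
      (√(S.Err g) * √(S.nn f) + √(S.nn g) * √(S.Err f)) := by
  have hv := (inv_pos.2 S.vp_pos).le
  have s1 := S.I1_step r hg hf (S.E.powersetCard (S.s + S.k) ×ˢ S.Gx)
    (fun i => S.vp⁻¹ * S.Pz i.1) Prod.fst Prod.fst Prod.snd
    (fun i _ => mul_nonneg hv (S.Pz_nonneg _))
    (fun i hi => (mem_powersetCard.1 (mem_product.1 hi).1).2.le) fun Φ h0 h1 => S.I1_X1 Φ h0 h1 _
  have s2 := S.I1_step r hg hf (S.E.powersetCard (S.s + S.k) ×ˢ S.E.powerset ×ˢ S.Gx)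
    (fun i => S.Pz i.1 * (S.vp⁻¹ * S.Pz i.2.1)) Prod.fst (fun i => i.2.1) (fun i => i.2.2)
    (fun i _ => mul_nonneg (S.Pz_nonneg _) (mul_nonneg hv (S.Pz_nonneg _)))
    (fun i hi => (mem_powersetCard.1 (mem_product.1 hi).1).2.le) fun Φ h0 _ => S.I1_X2 Φ h0 _
  have hrs : ∀ (u : S.G → ℂ) (x : S.G) (d : Finset ι), d ⊆ S.Zs x →
      S.Fd d u x = u (x + (S.jp d : S.G)) := fun u x d h => by
    have : S.rs d x = x := funext fun i => by
      by_cases hi : i ∈ d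
      · rw [rs, if_pos hi, (S.mem_Zs.1 (h hi)).2]
      · rw [rs, if_neg hi]
    rw [Fd, this]
  have e1 : S.TT r g f = ∑ i ∈ S.E.powersetCard (S.s + S.k) ×ˢ S.Gx, (S.vp⁻¹ * S.Pz i.1) •
      S.I1B r i.1 (fun d => S.Fd d g (S.rs i.1 i.2)) fun d => S.Fd d f (S.rs i.1 i.2) := by
    have := S.coupling_class (S.s + S.k)
      fun z x => S.I1B r z (fun d => S.Fd d g x) fun d => S.Fd d f x
    simp only [smul_sum, smul_smul] at this
    rw [sum_product, ← this]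
    refine sum_congr rfl fun x _ => ?_
    by_cases h : (S.Zs x).card = S.s + S.k
    · rw [if_pos h]
      refine sum_congr rfl fun d _ => sum_congr rfl fun d' _ => ?_
      simp only [h, true_and]
      split_ifs with h'
      · rw [hrs g x d h'.1, hrs f x d' h'.2.1]
      · rfl
    · simp [h]
  have e2 : S.MD r g f = ∑ i ∈ S.E.powersetCard (S.s + S.k) ×ˢ S.E.powerset ×ˢ S.Gx,
      (S.Pz i.1 * (S.vp⁻¹ * S.Pz i.2.1)) • S.I1B r i.1 (fun d => S.Fd d g (S.rs i.2.1 i.2.2))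
        fun d => S.Fd d f (S.rs i.2.1 i.2.2) := by
    clear * - ι S r g f
    rw [sum_product]
    refine sum_congr rfl fun z _ => ?_
    have := S.coupling fun x => S.I1B r z (fun d => S.Fd d g x) fun d => S.Fd d f x
    simp only [smul_sum, smul_smul] at this
    simp only [← smul_smul (S.Pz z), ← smul_sum]
    rw [sum_product, ← this, Complex.real_smul]
    congr 1
    simp only [I1B]
    refine Eq.trans (sum_congr rfl fun d _ => ?_) sum_comm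
    refine Eq.trans (sum_congr rfl fun d' _ => ?_) sum_comm
    split_ifs
    · rfl
    · simp
  have e3 : ∑ i ∈ S.E.powersetCard (S.s + S.k) ×ˢ S.E.powerset ×ˢ S.Gx,
      (S.Pz i.1 * (S.vp⁻¹ * S.Pz i.2.1)) • S.I1B r i.1 (fun d => S.Fd d g i.2.2)
        (fun d => S.Fd d f i.2.2) = ∑ i ∈ S.E.powersetCard (S.s + S.k) ×ˢ S.Gx,
      (S.vp⁻¹ * S.Pz i.1) • S.I1B r i.1 (fun d => S.Fd d g i.2) fun d => S.Fd d f i.2 := by
    rw [sum_product, sum_product]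
    refine sum_congr rfl fun z _ => ?_
    rw [sum_product_right]
    refine sum_congr rfl fun ξ _ => ?_
    simp only [← sum_smul, ← mul_sum]
    rw [S.sum_Pz, mul_one, mul_comm]
  rw [← e1] at s1
  rw [← e2, e3, norm_sub_rev] at s2
  linarith [norm_sub_le_norm_sub_add_norm_sub (S.TT r g f) _ (S.MD r g f) |>.trans
    (add_le_add s1 s2)]

end Sys

end Pool.Agent.Work.MP_d018b2_nt.R
end

-- merged part: Pool.Agent.Work.MP_d018b2_nt.R.SPKer
section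
/-! The multiplier of the major arc kernel. -/

set_option autoImplicit false
open Finset Pool.Agent.Lib.LargeSieve

namespace Pool.Agent.Work.MP_d018b2_nt.R

open Pool.Agent.Work.MP_678620_nt

/-- The Fejer kernel. -/
noncomputable def kerFej (H : ℕ) (x : ℝ) : ℝ := ‖(H : ℂ)⁻¹ * ∑ i ∈ range H, ee (i * x)‖ ^ 2

lemma ker_fiber_card (H : ℕ) {j : ℤ} (hj : j ∈ Ioo (-(H : ℤ)) H) :
    (((range H ×ˢ range H).filter fun p : ℕ × ℕ => (p.1 : ℤ) - p.2 = j).card : ℝ)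
      = H - |(j : ℝ)| := by
  rw [mem_Ioo] at hj
  have h1 : ((range H ×ˢ range H).filter fun p : ℕ × ℕ => (p.1 : ℤ) - p.2 = j).card
      = (range (H - j.natAbs)).card := by
    symm
    refine card_nbij' (fun k => (k + j.toNat, k + (-j).toNat)) (fun p => min p.1 p.2) ?_ ?_ ?_ ?_
    · intro k hk
      simp only [coe_range, Set.mem_Iio] at hk
      simp only [coe_filter, mem_product, mem_range, Set.mem_ofPred_eq]
      omega
    · intro p hp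
      simp only [coe_filter, mem_product, mem_range, Set.mem_ofPred_eq] at hp
      simp only [coe_range, Set.mem_Iio]
      omega
    · intro k hk
      simp only
      omega
    · intro p hp
      simp only [coe_filter, mem_product, mem_range, Set.mem_ofPred_eq] at hp
      ext <;> simp only <;> omega
  rw [h1, card_range, Nat.cast_sub (by omega)]
  congr 1
  rw [← Int.cast_abs, ← Int.natCast_natAbs, Int.cast_natCast]

lemma ker_fejer (H : ℕ) (x : ℝ) :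
    ∑ j ∈ Ioo (-(H : ℤ)) H, ee (x * j) * (((((H : ℝ) - |(j : ℝ)|) / (H : ℝ) ^ 2 : ℝ)) : ℂ)
      = (kerFej H x : ℂ) := by
  have h1 : (kerFej H x : ℂ) = ((H : ℂ) ^ 2)⁻¹ *
      ∑ p ∈ range H ×ˢ range H, ee (x * (((p.1 : ℤ) - p.2 : ℤ) : ℝ)) := by
    unfold kerFej
    rw [norm_mul, mul_pow, norm_inv, Complex.norm_natCast]
    push_cast
    rw [inv_pow]
    congr 1
    rw [← Complex.ofReal_pow, ← Complex.normSq_eq_norm_sq, ← Complex.mul_conj, map_sum,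
      sum_mul_sum, sum_product]
    refine sum_congr rfl fun i _ => sum_congr rfl fun i' _ => ?_
    rw [conj_ee, ← ee_add]
    congr 1
    ring
  rw [h1, ← sum_fiberwise_of_maps_to (t := Ioo (-(H : ℤ)) H)
    (g := fun p : ℕ × ℕ => (p.1 : ℤ) - p.2), mul_sum]
  · refine sum_congr rfl fun j hj => ?_
    rw [sum_congr rfl (g := fun _ => ee (x * j)), sum_const, nsmul_eq_mul]
    · rw [← ker_fiber_card H hj]
      push_cast
      ring
    · intro p hp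
      rw [(mem_filter.mp hp).2]
  · intro p hp
    simp only [mem_product, mem_range] at hp
    rw [mem_Ioo]
    omega

lemma kerFej_nonneg (H : ℕ) (x : ℝ) : 0 ≤ kerFej H x := sq_nonneg _

lemma kerFej_le_one (H : ℕ) (x : ℝ) : kerFej H x ≤ 1 := by
  unfold kerFej
  have h1 : ‖(H : ℂ)⁻¹ * ∑ i ∈ range H, ee (i * x)‖ ≤ 1 := by
    rw [norm_mul, norm_inv, Complex.norm_natCast]
    have := norm_sum_ee_le_card H x
    rcases Nat.eq_zero_or_pos H with rfl | hH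
    · simp
    · have hH' : (0 : ℝ) < H := by exact_mod_cast hH
      rw [inv_mul_le_iff₀ hH']
      linarith
  exact pow_le_one₀ (norm_nonneg _) h1

lemma kerFej_le_far (H : ℕ) {x c : ℝ} (hc : 0 < c) (hx : 1 / (2 * c) ≤ dZ x) :
    kerFej H x ≤ (c / H) ^ 2 := by
  unfold kerFej
  have h0 : 0 < dZ x := lt_of_lt_of_le (by positivity) hx
  have h1 := norm_sum_ee_le H x h0
  have h2 : 1 / (2 * dZ x) ≤ c := by
    rw [div_le_iff₀ (by positivity)] at hx ⊢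
    linarith
  refine pow_le_pow_left₀ (norm_nonneg _) ?_ 2
  rw [norm_mul, norm_inv, Complex.norm_natCast, div_eq_inv_mul]
  exact mul_le_mul_of_nonneg_left (h1.trans h2) (by positivity)

lemma ker_norm_ee_sub_one (x : ℝ) : ‖ee x - 1‖ ≤ 2 * Real.pi * |x| := by
  unfold ee
  refine (Real.norm_exp_I_mul_ofReal_sub_one_le (x := 2 * Real.pi * x)).trans (le_of_eq ?_)
  rw [Real.norm_eq_abs, abs_mul, abs_of_pos (by positivity : (0 : ℝ) < 2 * Real.pi)]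

lemma kerFej_ge_near {H : ℕ} (hH : 0 < H) {x c : ℝ} (t : ℤ) (hx : |x - t| * H ≤ c) :
    1 - 13 * c ≤ kerFej H x := by
  have hH' : (0 : ℝ) < H := by exact_mod_cast hH
  have hc : 0 ≤ c := le_trans (by positivity) hx
  have h1 : ‖(H : ℂ)⁻¹ * ∑ i ∈ range H, ee (i * x) - 1‖ ≤ 2 * Real.pi * c := by
    have e : (H : ℂ)⁻¹ * ∑ i ∈ range H, ee (i * x) - 1
        = (H : ℂ)⁻¹ * ∑ i ∈ range H, (ee (i * x) - 1) := by
      have : (H : ℂ) ≠ 0 := by exact_mod_cast hH.ne'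
      rw [sum_sub_distrib, sum_const, card_range, nsmul_eq_mul, mul_one, mul_sub,
        inv_mul_cancel₀ this]
    rw [e, norm_mul, norm_inv, Complex.norm_natCast, inv_mul_le_iff₀ hH']
    refine (norm_sum_le _ _).trans ?_
    have h2 : ∀ i ∈ range H, ‖ee (i * x) - 1‖ ≤ 2 * Real.pi * c := by
      intro i hi
      have hi' : (i : ℝ) ≤ H := by exact_mod_cast (mem_range.mp hi).le
      have e2 : ee (i * x) = ee (i * (x - t)) := by
        rw [← ee_add_int (i * (x - t)) (i * t)]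
        congr 1
        push_cast
        ring
      rw [e2]
      refine (ker_norm_ee_sub_one _).trans ?_
      refine mul_le_mul_of_nonneg_left ?_ (by positivity)
      rw [abs_mul, Nat.abs_cast]
      calc (i : ℝ) * |x - t| ≤ H * |x - t| := by gcongr
        _ ≤ c := by linarith
    refine (sum_le_sum h2).trans (le_of_eq ?_)
    rw [sum_const, card_range, nsmul_eq_mul]
  unfold kerFej
  set z := (H : ℂ)⁻¹ * ∑ i ∈ range H, ee (i * x)
  have h3 : 1 - 2 * Real.pi * c ≤ ‖z‖ := by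
    have := norm_sub_norm_le (1 : ℂ) z
    rw [norm_one, norm_sub_rev] at this
    linarith
  have h4 : Real.pi * c ≤ 3.15 * c := mul_le_mul_of_nonneg_right Real.pi_lt_d2.le hc
  clear * - c z hc h3 h4
  nlinarith [sq_nonneg (‖z‖ - 1)]

lemma ker_dZ_sub_le (x y : ℝ) : dZ (x - y) ≤ dZ x + dZ y := by
  refine (dZ_le _ (round x - round y)).trans ?_
  have e : x - y - ((round x - round y : ℤ) : ℝ) = (x - round x) - (y - round y) := by
    push_cast; ring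
  rw [e]
  exact abs_sub _ _

namespace Sys

variable {ι : Type} [Fintype ι] [DecidableEq ι] (S : Sys ι)

lemma ker_mem_FF {θ : ℚ} (hθ : θ ∈ S.FF) : 0 ≤ θ ∧ θ < 1 := by
  unfold FF at hθ
  simp only [mem_image, mem_filter, mem_product, mem_Icc, mem_range] at hθ
  obtain ⟨x, ⟨⟨⟨h1, _⟩, _⟩, h2⟩, rfl⟩ := hθ
  have h3 : (0 : ℚ) < x.1 := by exact_mod_cast h1
  refine ⟨by positivity, ?_⟩
  rw [div_lt_one h3]
  exact_mod_cast h2

lemma ker_FF_spaced {θ θ' : ℚ} (hθ : θ ∈ S.FF) (hθ' : θ' ∈ S.FF) (hne : θ ≠ θ') :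
    1 / (S.Q : ℝ) ^ 2 ≤ dZ ((θ : ℝ) - θ') := by
  have key : ∀ φ ∈ S.FF, φ.den ∈ Icc 1 S.Q ∧ φ.num.toNat < φ.den ∧
      Nat.Coprime φ.num.toNat φ.den ∧ φ = (φ.num.toNat : ℚ) / φ.den := by
    intro φ hφ
    obtain ⟨h0, h1⟩ := S.ker_mem_FF hφ
    have hn : 0 ≤ φ.num := Rat.num_nonneg.mpr h0
    have hlt : φ.num < φ.den := Rat.num_lt_denom_iff.mpr h1
    have e : φ.num.toNat = φ.num.natAbs := by omega
    refine ⟨mem_Icc.mpr ⟨φ.pos, S.den_le hφ⟩, by omega, by rw [e]; exact φ.reduced, ?_⟩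
    have : ((φ.num.toNat : ℕ) : ℚ) = (φ.num : ℚ) := by
      rw [← Int.cast_natCast, Int.toNat_of_nonneg hn]
    rw [this, Rat.num_div_den]
  obtain ⟨a1, a2, a3, a4⟩ := key θ hθ
  obtain ⟨b1, b2, b3, b4⟩ := key θ' hθ'
  have hne' : (θ.den, θ.num.toNat) ≠ (θ'.den, θ'.num.toNat) := by
    intro h
    apply hne
    rw [a4, b4, (Prod.mk.inj h).1, (Prod.mk.inj h).2]
  have h := farey_spaced a1 b1 a2 b2 a3 b3 hne'
  have e1 : (θ : ℝ) = (θ.num.toNat : ℝ) / θ.den := by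
    have := congrArg (Rat.cast : ℚ → ℝ) a4
    rwa [Rat.cast_div, Rat.cast_natCast, Rat.cast_natCast] at this
  have e2 : (θ' : ℝ) = (θ'.num.toNat : ℝ) / θ'.den := by
    have := congrArg (Rat.cast : ℚ → ℝ) b4
    rwa [Rat.cast_div, Rat.cast_natCast, Rat.cast_natCast] at this
  rw [e1, e2]
  exact_mod_cast h

lemma ker_upper {H : ℕ} (hQ4 : (S.Q : ℝ) ^ 4 ≤ H) (b : ℝ) :
    ∑ θ ∈ S.FF, kerFej H (θ + b) ≤ 1 + 1 / S.Q := by
  classical
  have hQ : (2 : ℝ) ≤ S.Q := by exact_mod_cast S.Q_ge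
  have hH0 : (0 : ℝ) < H := lt_of_lt_of_le (by positivity) hQ4
  rw [← sum_filter_add_sum_filter_not S.FF fun θ => dZ (θ + b) < 1 / (2 * (S.Q : ℝ) ^ 2)]
  refine add_le_add ?_ ?_
  · have hc : (S.FF.filter fun θ : ℚ => dZ (θ + b) < 1 / (2 * (S.Q : ℝ) ^ 2)).card ≤ 1 := by
      rw [card_le_one]
      intro θ hθ θ' hθ'
      by_contra hne
      obtain ⟨a1, a2⟩ := mem_filter.mp hθ
      obtain ⟨b1, b2⟩ := mem_filter.mp hθ'
      have h1 := S.ker_FF_spaced a1 b1 hne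
      have h2 := ker_dZ_sub_le (θ + b) (θ' + b)
      have e : (θ : ℝ) + b - (θ' + b) = θ - θ' := by ring
      rw [e] at h2
      have e2 : 1 / (S.Q : ℝ) ^ 2 = 1 / (2 * (S.Q : ℝ) ^ 2) + 1 / (2 * (S.Q : ℝ) ^ 2) := by
        field_simp; norm_num
      linarith
    refine (sum_le_card_nsmul _ _ 1 fun θ _ => kerFej_le_one _ _).trans ?_
    rw [nsmul_eq_mul, mul_one]
    exact_mod_cast hc
  · have h1 : ∀ θ ∈ S.FF.filter fun θ : ℚ => ¬ dZ (θ + b) < 1 / (2 * (S.Q : ℝ) ^ 2),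
        kerFej H (θ + b) ≤ ((S.Q : ℝ) ^ 2 / H) ^ 2 := fun θ hθ =>
      kerFej_le_far H (by positivity) (not_lt.mp (mem_filter.mp hθ).2)
    refine (sum_le_card_nsmul _ _ _ h1).trans ?_
    rw [nsmul_eq_mul]
    have h2 : ((S.FF.filter fun θ : ℚ => ¬ dZ (θ + b) < 1 / (2 * (S.Q : ℝ) ^ 2)).card : ℝ)
        ≤ (S.Q : ℝ) ^ 2 := by
      exact_mod_cast (card_filter_le _ _).trans S.card_FF_le
    have h3 : (S.Q : ℝ) ^ 2 / H ≤ 1 / (S.Q : ℝ) ^ 2 := by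
      rw [div_le_div_iff₀ hH0 (by positivity)]
      nlinarith
    calc _ ≤ (S.Q : ℝ) ^ 2 * (1 / (S.Q : ℝ) ^ 2) ^ 2 := by gcongr
      _ = 1 / (S.Q : ℝ) ^ 2 := by field_simp
      _ ≤ 1 / S.Q := by
        refine one_div_le_one_div_of_le (by positivity) ?_
        nlinarith

lemma ker_lower {a : Finset ι} (hH : 0 < S.Hk a) {α : ℝ} (hα : ¬ S.Minor a α) :
    1 - 13 / S.Q ≤ ∑ θ ∈ S.FF, kerFej (S.Hk a) (θ + α * S.jp a) := by
  unfold Minor at hα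
  push Not at hα
  obtain ⟨q, hq1, hqQ, hq⟩ := hα
  set b := α * S.jp a with hb
  set n : ℤ := -round (b * q) with hn
  have hq0 : (0 : ℤ) < q := by exact_mod_cast hq1
  have hm0 : 0 ≤ n % q := Int.emod_nonneg _ hq0.ne'
  have hm1 : n % q < q := Int.emod_lt_of_pos _ hq0
  have hmem : (((n % q).toNat : ℚ) / q) ∈ S.FF := by
    unfold FF
    refine mem_image.mpr ⟨(q, (n % q).toNat), ?_, rfl⟩
    simp only [mem_filter, mem_product, mem_Icc, mem_range]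
    omega
  refine le_trans ?_ (single_le_sum (f := fun θ : ℚ => kerFej (S.Hk a) (θ + b))
    (fun θ _ => kerFej_nonneg _ _) hmem)
  have hQ : (2 : ℝ) ≤ S.Q := by exact_mod_cast S.Q_ge
  have hqr : (1 : ℝ) ≤ q := by exact_mod_cast hq1
  have hT : (0 : ℝ) < S.T := by exact_mod_cast S.T_pos
  have hmul : (S.pr a : ℝ) * (S.Q : ℝ) ^ 2 * S.Hk a ≤ S.T := by exact_mod_cast S.Hk_mul_le a
  have h := kerFej_ge_near hH (x := ((((n % q).toNat : ℚ) / q : ℚ) : ℝ) + b) (c := 1 / S.Q)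
    (-(n / q)) ?_
  · simpa [div_eq_mul_inv] using h
  · have e0 : (((n % q).toNat : ℕ) : ℝ) = n - q * ((n / q : ℤ) : ℝ) := by
      rw [← Int.cast_natCast, Int.toNat_of_nonneg hm0, Int.emod_def]
      push_cast
      ring
    have e : ((((n % q).toNat : ℚ) / q : ℚ) : ℝ) + b - ((-(n / q) : ℤ) : ℝ)
        = (b * q - round (b * q)) / q := by
      have : (n : ℝ) = -(round (b * q) : ℝ) := by rw [hn]; push_cast; ring
      rw [Rat.cast_div, Rat.cast_natCast, Rat.cast_natCast, e0, Int.cast_neg (n / q), this]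
      field_simp
      ring
    rw [e, abs_div, Nat.abs_cast]
    have h1 : |b * q - round (b * q)| / q ≤ S.Q * S.pr a / S.T :=
      (div_le_self (abs_nonneg _) hqr).trans hq
    calc _ ≤ (S.Q : ℝ) * S.pr a / S.T * S.Hk a := by gcongr
      _ ≤ 1 / S.Q := by
        clear * - ι S a hT hQ hmul
        rw [div_mul_eq_mul_div, div_le_div_iff₀ hT (by positivity)]
        nlinarith

lemma ker_fh_Ka (a : Finset ι) (w : S.G → ℂ) (ψ : AddChar S.G ℂ) :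
    S.fh (S.Ka a w) ψ
      = ((∑ θ ∈ S.FF, kerFej (S.Hk a) (θ + S.al ψ * S.jp a) : ℝ) : ℂ) * S.fh w ψ := by
  have h := S.fh_sum (S.JJ a) (S.kap a) (fun j ξ => w (ξ + ((S.jp a * j : ℤ) : S.G))) ψ
  have e : S.Ka a w = fun ξ => ∑ j ∈ S.JJ a, S.kap a j * w (ξ + ((S.jp a * j : ℤ) : S.G)) := rfl
  rw [e, h]
  simp_rw [S.fh_tr, S.al_spec, ← mul_assoc]
  rw [← sum_mul]
  congr 1
  unfold kap
  simp_rw [sum_mul]
  rw [sum_comm, Complex.ofReal_sum]
  refine sum_congr rfl fun θ _ => ?_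
  rw [← ker_fejer]
  refine sum_congr rfl fun j _ => ?_
  rw [mul_right_comm, ← ee_add]
  congr 2
  push_cast
  ring

theorem ip_sub_Ka {r : ℕ} (hr : 1 ≤ r) {a v : Finset ι} (hv : v ∈ S.VV r a) (u w : S.G → ℂ) :
    ‖S.ip u w - S.ip u (S.Ka a w)‖ ≤ 20 / S.Q * (√(S.nn u) * √(S.nn w))
      + √(S.nn (S.Pa a u)) * √(S.nn (S.Pa a w)) := by
  classical
  have hH := S.Q4_le_Hk hr hv
  have hH0 : 0 < S.Hk a := S.Jav_one hr hv
  have hQ : (2 : ℝ) ≤ S.Q := by exact_mod_cast S.Q_ge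
  have hc : (0 : ℝ) < Fintype.card S.G := by exact_mod_cast Fintype.card_pos
  have hpt : ∀ ψ : AddChar S.G ℂ,
      ‖(starRingEnd ℂ) (S.fh u ψ) * S.fh w ψ - (starRingEnd ℂ) (S.fh u ψ) * S.fh (S.Ka a w) ψ‖
        ≤ 20 / S.Q * (‖S.fh u ψ‖ * ‖S.fh w ψ‖)
          + ‖S.fh (S.Pa a u) ψ‖ * ‖S.fh (S.Pa a w) ψ‖ := by
    clear * - ι S u w a hH hQ hH0
    intro ψ
    rw [S.ker_fh_Ka]
    set μ := ∑ θ ∈ S.FF, kerFej (S.Hk a) (θ + S.al ψ * S.jp a) with hμ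
    have e : (starRingEnd ℂ) (S.fh u ψ) * S.fh w ψ - (starRingEnd ℂ) (S.fh u ψ) * (μ * S.fh w ψ)
        = ((1 - μ : ℝ) : ℂ) * ((starRingEnd ℂ) (S.fh u ψ) * S.fh w ψ) := by
      push_cast; ring
    rw [e, norm_mul, norm_mul, Complex.norm_conj, Complex.norm_real, Real.norm_eq_abs]
    have hup : μ ≤ 1 + 1 / S.Q := S.ker_upper hH _
    have h0 : 0 ≤ μ := sum_nonneg fun θ _ => kerFej_nonneg _ _
    have hq : (0 : ℝ) < 1 / S.Q := by positivity
    have e20 : (20 : ℝ) / S.Q = 20 * (1 / S.Q) := by ring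
    have hp : 0 ≤ ‖S.fh u ψ‖ * ‖S.fh w ψ‖ := by positivity
    unfold Pa
    rw [S.fh_proj, S.fh_proj]
    by_cases hm : S.Minor a (S.al ψ)
    · rw [if_pos hm, if_pos hm]
      have : |1 - μ| ≤ 20 / S.Q + 1 := by
        rw [abs_le]; constructor <;> linarith
      nlinarith
    · rw [if_neg hm, if_neg hm, norm_zero, mul_zero, add_zero]
      have hlo : 1 - 13 / S.Q ≤ μ := S.ker_lower hH0 hm
      have e13 : (13 : ℝ) / S.Q = 13 * (1 / S.Q) := by ring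
      have : |1 - μ| ≤ 20 / S.Q := by
        rw [abs_le]; constructor <;> linarith
      exact mul_le_mul_of_nonneg_right this hp
  have hcs : ∀ f g : S.G → ℂ, ∑ ψ : AddChar S.G ℂ, ‖S.fh f ψ‖ * ‖S.fh g ψ‖
      ≤ Fintype.card S.G * (√(S.nn f) * √(S.nn g)) := by
    intro f g
    refine (Real.sum_mul_le_sqrt_mul_sqrt _ _ _).trans (le_of_eq ?_)
    rw [← S.parseval, ← S.parseval, Real.sqrt_mul hc.le, Real.sqrt_mul hc.le]
    have := Real.mul_self_sqrt hc.le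
    calc _ = (√(Fintype.card S.G : ℝ) * √(Fintype.card S.G : ℝ)) * (√(S.nn f) * √(S.nn g)) := by
          ring
      _ = _ := by rw [this]
  refine le_of_mul_le_mul_left ?_ hc
  have e : (Fintype.card S.G : ℝ) * ‖S.ip u w - S.ip u (S.Ka a w)‖
      = ‖(Fintype.card S.G : ℂ) * S.ip u w - (Fintype.card S.G : ℂ) * S.ip u (S.Ka a w)‖ := by
    rw [← mul_sub, norm_mul, Complex.norm_natCast]
  rw [e, S.parseval_ip, S.parseval_ip, ← sum_sub_distrib]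
  refine (norm_sum_le _ _).trans ((sum_le_sum fun ψ _ => hpt ψ).trans ?_)
  rw [sum_add_distrib, ← mul_sum, mul_add]
  refine add_le_add ?_ (hcs _ _)
  rw [mul_left_comm]
  exact mul_le_mul_of_nonneg_left (hcs _ _) (by positivity)

end Sys

end Pool.Agent.Work.MP_d018b2_nt.R
end

-- merged part: Pool.Agent.Work.MP_d018b2_nt.R.SPDual
section
/-! Duality and Parseval for the minor arc part. -/

set_option autoImplicit false
open Finset Pool.Agent.Lib.LargeSieve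

namespace Pool.Agent.Work.MP_d018b2_nt.R

open Pool.Agent.Work.MP_678620_nt

namespace Sys

variable {ι : Type} [Fintype ι] [DecidableEq ι] (S : Sys ι)

lemma dual_one {a v : Finset ι} (hE : a ∪ v ⊆ S.E) (hav : Disjoint a v) {w : S.G → ℂ}
    (hw : S.Indep a w) (f : S.G → ℂ) :
    (S.iv a : ℂ) * ((S.iv v : ℂ) * S.ip w (S.Fd (a ∪ v) f)) = ∑ y, (starRingEnd ℂ)
      (if a ∪ v ⊆ S.Zs y then S.av v w (y - (S.jp (a ∪ v) : S.G)) else 0) * f y := by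
  have hU : S.Indep (a ∪ v) (S.av v w) := (hw.av v).union (S.indep_av v w)
  have h1 : S.ip w (S.Fd (a ∪ v) f) = S.ip (S.av v w) (S.Fd (a ∪ v) f) := by
    rw [S.ip_av, S.av_of_indep ((S.indep_Fd (a ∪ v) f).mono subset_union_right)]
  have h2 : S.ip (S.av v w) (S.Fd (a ∪ v) f) = ∑ ξ, (fun η => (starRingEnd ℂ) (S.av v w η) *
      f (η + (S.jp (a ∪ v) : S.G))) (S.rs (a ∪ v) ξ) :=
    sum_congr rfl fun ξ _ => by simp only [hU.rs, Fd]
  have h3 : (S.iv a : ℂ) * (S.iv v : ℂ) * (S.pr (a ∪ v) : ℂ) = 1 := by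
    have h4 : (S.pr (a ∪ v) : ℂ) ≠ 0 := by exact_mod_cast (S.pr_pos _).ne'
    rw [← Complex.ofReal_mul, ← S.iv_union hav, iv]
    push_cast
    exact inv_mul_cancel₀ h4
  rw [h1, h2.trans (S.sum_rs hE fun η => (starRingEnd ℂ) (S.av v w η) *
      f (η + (S.jp (a ∪ v) : S.G))), nsmul_eq_mul, ← mul_assoc, ← mul_assoc, h3, one_mul,
    ← S.sum_add_right (fun y => (starRingEnd ℂ)
      (if a ∪ v ⊆ S.Zs y then S.av v w (y - (S.jp (a ∪ v) : S.G)) else 0) * f y)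
      (S.jp (a ∪ v) : S.G)]
  refine sum_congr rfl fun ξ _ => ?_
  simp only [S.sub_Zs_add (fun p hp => S.jp_apply' hp) ξ, add_sub_cancel_right]
  split_ifs <;> simp

theorem dual {r : ℕ} {u : Finset ι → S.G → ℂ} (hu : ∀ a ∈ S.AA r, S.Indep a (u a))
    (f : S.G → ℂ) :
    ∑ a ∈ S.AA r, (S.iv a : ℂ) * S.ip (u a) (S.Wa r a f) = S.ip (S.YY r u) f := by
  have h1 : S.ip (S.YY r u) f = ∑ a ∈ S.AA r, ∑ v ∈ S.VV r a, ∑ y, (starRingEnd ℂ)
      (if a ∪ v ⊆ S.Zs y then S.av v (u a) (y - (S.jp (a ∪ v) : S.G)) else 0) * f y := by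
    simp only [ip, YY, map_sum, sum_mul]
    rw [sum_comm]
    exact sum_congr rfl fun a _ => sum_comm
  rw [h1]
  refine sum_congr rfl fun a ha => ?_
  have h2 : S.ip (u a) (S.Wa r a f) =
      ∑ v ∈ S.VV r a, (S.iv v : ℂ) * S.ip (u a) (S.Fd (a ∪ v) f) := by
    simp only [ip, Wa, mul_sum]
    rw [sum_comm]
    exact sum_congr rfl fun v _ => sum_congr rfl fun ξ _ => by ring
  rw [h2, mul_sum]
  refine sum_congr rfl fun v hv => ?_
  obtain ⟨-, h4, -, h5⟩ := S.mem_VV.1 hv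
  exact S.dual_one (S.DD_sub _ h5) h4 (hu a ha) f

lemma fh_YZ {r : ℕ} (hr : r ≤ S.s) (u : Finset ι → S.G → ℂ) (z : Finset ι) (ψ : AddChar S.G ℂ) :
    S.fh (S.YZ r u z) ψ = ∑ d ∈ S.DD,
      if d ⊆ z then S.yd r (fun a => S.fh (u a) ψ) (S.supp ψ) (S.al ψ) d else 0 := by
  have h1 : S.YZ r u z = fun ξ => ∑ a ∈ S.AA r, (1 : ℂ) * (fun ξ => ∑ v ∈ S.VV r a,
      (if a ∪ v ⊆ z then (1 : ℂ) else 0) *
        (fun ξ => S.av v (u a) (ξ + ((-S.jp (a ∪ v) : ℤ) : S.G))) ξ) ξ := by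
    funext ξ
    simp only [YZ, one_mul, ite_mul, zero_mul, Int.cast_neg, sub_eq_add_neg]
  rw [h1, S.fh_sum]
  simp only [S.fh_sum, one_mul, S.fh_tr, S.al_spec]
  rw [S.sum_AV hr]
  refine sum_congr rfl fun d hd => ?_
  have h2 : ∀ a ∈ d.powersetCard (S.s - r), a ∪ d \ a = d := fun a ha =>
    union_sdiff_of_subset (mem_powersetCard.1 ha).1
  have h3 : ∀ a : Finset ι, d \ a ⊆ S.E := fun a => sdiff_subset.trans (S.DD_sub d hd)
  rw [sum_congr rfl fun a ha => by rw [h2 a ha, S.fh_av (h3 a)]]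
  split_ifs
  · rw [yd, sum_mul]
    refine sum_congr rfl fun a _ => ?_
    rw [one_mul, mul_comm, Int.cast_neg, mul_neg]
  · simp

theorem pars_YZ {r : ℕ} (hr : r ≤ S.s) (u : Finset ι → S.G → ℂ) :
    (Fintype.card S.G : ℝ) * ∑ z ∈ S.E.powersetCard (S.s + S.k'), S.Pz z * S.nn (S.YZ r u z)
      = ∑ ψ : AddChar S.G ℂ, S.Qf (S.yd r (fun a => S.fh (u a) ψ) (S.supp ψ) (S.al ψ)) := by
  simp only [Qf]
  rw [sum_comm, mul_sum]
  refine sum_congr rfl fun z _ => ?_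
  rw [mul_left_comm, S.parseval, mul_sum]
  exact sum_congr rfl fun ψ _ => by rw [S.fh_YZ hr]

end Sys

end Pool.Agent.Work.MP_d018b2_nt.R
end

-- merged part: Pool.Agent.Work.MP_d018b2_nt.R.SPDec
section
/-! Decoupling the zero set in the dual function. -/

set_option autoImplicit false
open Finset Pool.Agent.Lib.LargeSieve

namespace Pool.Agent.Work.MP_d018b2_nt.R

open Pool.Agent.Work.MP_678620_nt

lemma dec_class_card (N : Finset ℕ) {m : ℕ} (hm : 0 < m) {X : ℝ} (hX : 0 ≤ X)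
    (h1 : ∀ n ∈ N, X ≤ n ∧ (n : ℝ) ≤ 2 * X) (h2 : ∀ n ∈ N, ∀ n' ∈ N, n ≡ n' [MOD m]) :
    (N.card : ℝ) ≤ X / m + 1 := by
  have hm' : (0 : ℝ) < m := by exact_mod_cast hm
  rcases N.eq_empty_or_nonempty with rfl | hne
  · simp only [card_empty, Nat.cast_zero]
    positivity
  set n0 := N.min' hne with hn0
  have h0 : n0 ∈ N := N.min'_mem hne
  have e : ∀ n ∈ N, n = n0 + m * ((n - n0) / m) := by
    intro n hn
    have hle : n0 ≤ n := N.min'_le n hn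
    rw [Nat.mul_div_cancel' ((Nat.modEq_iff_dvd' hle).1 (h2 n0 h0 n hn))]
    omega
  have hc : N.card ≤ (range (⌊X / m⌋₊ + 1)).card := by
    refine card_le_card_of_injOn (fun n => (n - n0) / m) (fun n hn => ?_) fun n hn n' hn' h => ?_
    · have hn' : n ∈ N := hn
      refine mem_coe.2 (mem_range.2 (Nat.lt_succ_of_le (Nat.le_floor ?_)))
      rw [le_div_iff₀ hm']
      have e' : (n : ℝ) = n0 + m * (((n - n0) / m : ℕ) : ℝ) := by exact_mod_cast e n hn'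
      linarith [(h1 n hn').2, (h1 n0 h0).1]
    · have h' : (n - n0) / m = (n' - n0) / m := h
      exact (e n hn).trans (h' ▸ (e n' hn').symm)
  rw [card_range] at hc
  have h3 : (N.card : ℝ) ≤ ⌊X / m⌋₊ + 1 := by exact_mod_cast hc
  linarith [Nat.floor_le (div_nonneg hX hm'.le)]

namespace Sys

variable {ι : Type} [Fintype ι] [DecidableEq ι] (S : Sys ι)

lemma dec_class {r : ℕ} (hr1 : 1 ≤ r) {a : Finset ι} {p : ι} (hp : p ∈ S.E) (hpa : p ∉ a)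
    (c : ZMod (S.m p)) :
    ∑ v ∈ (S.VV r a).filter (fun v => (-(S.jp (a ∪ v) : S.G)) p = c), S.iv v ≤ 3 / S.H0 := by
  set V := (S.VV r a).filter (fun v => (-(S.jp (a ∪ v) : S.G)) p = c) with hV
  have hH : (1 : ℝ) ≤ S.H0 := le_trans (by norm_num) S.H0_big
  have hH0 : 0 < S.H0 := by linarith
  rcases V.eq_empty_or_nonempty with h0 | ⟨v0, hv0⟩
  · rw [h0, sum_empty]
    positivity
  have hA : (0 : ℝ) < S.pr a := by exact_mod_cast S.pr_pos a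
  have hT : (0 : ℝ) < S.T := by exact_mod_cast S.T_pos
  set X : ℝ := S.T / S.pr a with hX
  have hX0 : 0 < X := div_pos hT hA
  have hb : ∀ v ∈ V, X ≤ S.pr v ∧ (S.pr v : ℝ) ≤ 2 * X := by
    intro v hv
    obtain ⟨-, h2, -, h4⟩ := S.mem_VV.1 (mem_filter.1 hv).1
    have h5 : S.T ≤ S.pr a * S.pr v := S.pr_union h2 ▸ S.DD_lo _ h4
    have h6 : S.pr a * S.pr v ≤ 2 * S.T := S.pr_union h2 ▸ S.DD_hi _ h4
    have h7 : (S.T : ℝ) ≤ S.pr a * S.pr v := by exact_mod_cast h5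
    have h8 : (S.pr a : ℝ) * S.pr v ≤ 2 * S.T := by exact_mod_cast h6
    rw [hX, div_le_iff₀ hA, ← mul_div_assoc, le_div_iff₀ hA]
    constructor <;> linarith
  have hcard : (V.card : ℝ) ≤ X / S.m p + 1 := by
    rw [← card_image_of_injOn (f := S.pr) fun v hv v' hv' h =>
      S.pr_inj (S.mem_VV.1 (mem_filter.1 hv).1).1 (S.mem_VV.1 (mem_filter.1 hv').1).1 h]
    refine dec_class_card _ (S.m_pos p) hX0.le (fun n hn => ?_) fun n hn n' hn' => ?_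
    · obtain ⟨v, hv, rfl⟩ := mem_image.1 hn
      exact hb v hv
    · obtain ⟨v, hv, rfl⟩ := mem_image.1 hn
      obtain ⟨v', hv', rfl⟩ := mem_image.1 hn'
      obtain ⟨h1, h2⟩ := mem_filter.1 hv
      obtain ⟨h1', h2'⟩ := mem_filter.1 hv'
      have h3 : ((S.jp (a ∪ v) : ℤ) : ZMod (S.m p)) = (S.jp (a ∪ v') : ℤ) :=
        neg_injective (h2.trans h2'.symm)
      rw [ZMod.intCast_eq_intCast_iff_dvd_sub, S.jp_union (S.mem_VV.1 h1).2.1,
        S.jp_union (S.mem_VV.1 h1').2.1, ← mul_sub] at h3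
      have hpr : Prime (S.m p : ℤ) := Nat.prime_iff_prime_int.1 (S.prime p hp)
      rw [Nat.modEq_iff_dvd]
      refine (hpr.dvd_or_dvd h3).resolve_left fun h4 => ?_
      rcases hpr.dvd_or_dvd h4 with h5 | h5
      · exact hpa ((S.m_dvd_pr hp).1 (by exact_mod_cast h5))
      · exact S.not_dvd_h hp h5
  have h1 : ∑ v ∈ V, S.iv v ≤ V.card * X⁻¹ := by
    rw [← nsmul_eq_mul]
    exact sum_le_card_nsmul _ _ _ fun v hv => inv_anti₀ hX0 (hb v hv).1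
  have hm : (0 : ℝ) < S.m p := by exact_mod_cast S.m_pos p
  have h2 : (X / S.m p + 1) * X⁻¹ = S.nu p + X⁻¹ := by
    unfold nu
    field_simp
  have h3 : X⁻¹ ≤ 2 / S.H0 := by
    obtain ⟨h4, -, h5, -⟩ := S.mem_VV.1 (mem_filter.1 hv0).1
    have h6 := S.H0_pow_le_pr h4
    have h7 : S.H0 ≤ S.H0 ^ v0.card := le_self_pow₀ hH (by omega)
    rw [inv_eq_one_div, div_le_div_iff₀ hX0 hH0]
    linarith [(hb v0 hv0).2]
  have h4 := S.nu_le hp
  have h5 := mul_le_mul_of_nonneg_right hcard (inv_pos.2 hX0).le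
  have h6 : 3 / S.H0 = S.H0⁻¹ + 2 / S.H0 := by ring
  linarith

/-- One term of the dual function. -/
noncomputable def decU (u : S.G → ℂ) (a v : Finset ι) (ξ : S.G) : ℂ :=
  S.av v u (ξ - (S.jp (a ∪ v) : S.G))

lemma decU_eq (u : S.G → ℂ) (a v : Finset ι) :
    S.decU u a v = fun ξ => S.av v u (ξ + -(S.jp (a ∪ v) : S.G)) := by
  funext ξ
  rw [decU, sub_eq_add_neg]

lemma decU_indep {u : S.G → ℂ} {a : Finset ι} (hu : S.Indep a u) (v : Finset ι) :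
    S.Indep (a ∪ v) (S.decU u a v) := by
  rw [decU_eq]
  exact ((hu.av v).union (S.indep_av v u)).tr _

lemma dec_one (u : S.G → ℂ) {v : Finset ι} {p : ι} (hp : p ∉ v) (c : S.G) :
    S.nn (fun ξ => S.av v u (S.rs {p} ξ + c) - S.av v u (ξ + c))
      ≤ 2 * S.nn (fun ξ => u (Function.update ξ p (c p)) - S.av {p} u ξ)
        + 2 * S.nn fun ξ => u ξ - S.av {p} u ξ := by
  have e : ∀ ξ : S.G, S.rs {p} ξ + c = ({p} : Finset ι).piecewise c (ξ + c) := by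
    intro ξ
    funext i
    by_cases hi : i ∈ ({p} : Finset ι)
    · simp [rs, hi]
    · simp [rs, hi]
  simp only [e]
  rw [S.nn_tr (fun ξ => S.av v u (({p} : Finset ι).piecewise c ξ) - S.av v u ξ) c]
  have h1 := S.nn_av_le v fun ξ => u (({p} : Finset ι).piecewise c ξ) - S.av {p} u ξ
  have h2 := S.nn_av_le v fun ξ => u ξ - S.av {p} u ξ
  rw [S.av_sub, S.av_piecewise (disjoint_singleton_right.2 hp)] at h1
  rw [S.av_sub] at h2
  simp only [piecewise_singleton] at h1 ⊢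
  refine le_trans ?_ (add_le_add (mul_le_mul_of_nonneg_left h1 zero_le_two)
    (mul_le_mul_of_nonneg_left h2 zero_le_two))
  unfold nn
  rw [mul_sum, mul_sum, ← sum_add_distrib]
  refine sum_le_sum fun ξ _ => ?_
  have h3 := norm_add_sq_le (S.av v u (Function.update ξ p (c p)) - S.av v (S.av {p} u) ξ)
    (-(S.av v u ξ - S.av v (S.av {p} u) ξ))
  rw [norm_neg] at h3
  refine le_trans (le_of_eq ?_) h3
  congr 2
  ring

lemma dec_devB {r : ℕ} (hr1 : 1 ≤ r) {a : Finset ι} {u : S.G → ℂ} (hu : S.Indep a u) :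
    ∑ v ∈ S.VV r a, S.iv v * S.devB (S.decU u a v) ≤ 3 * S.Λ / S.H0 * S.inf u := by
  have hH0 : 0 < S.H0 := lt_of_lt_of_le (by norm_num) S.H0_big
  unfold devB inf
  simp only [mul_sum]
  rw [sum_comm]
  refine sum_le_sum fun p hp => ?_
  set Va : ℝ := S.nn fun ξ => u ξ - S.av {p} u ξ with hVa
  have hVa0 : 0 ≤ Va := S.nn_nonneg _
  have hΛ := S.big
  have hz : ∀ v, p ∈ a ∪ v →
      (S.nn fun ξ => S.decU u a v (S.rs {p} ξ) - S.decU u a v ξ) = 0 := by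
    intro v hv
    have h := (S.decU_indep hu v).mono (singleton_subset_iff.2 hv)
    simp [h.rs, nn]
  by_cases hpa : p ∈ a
  · rw [sum_eq_zero fun v _ => by rw [hz v (mem_union_left _ hpa), mul_zero, mul_zero]]
    positivity
  set W : ZMod (S.m p) → ℝ := fun c => S.nn fun ξ => u (Function.update ξ p c) - S.av {p} u ξ
    with hW
  have hW0 : ∀ c, 0 ≤ W c := fun c => S.nn_nonneg _
  have h1 : ∑ v ∈ S.VV r a, S.iv v * (S.nu p *
      S.nn fun ξ => S.decU u a v (S.rs {p} ξ) - S.decU u a v ξ) ≤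
      ∑ v ∈ S.VV r a, (2 * S.nu p * (S.iv v * W ((-(S.jp (a ∪ v) : S.G)) p)) +
        2 * S.nu p * Va * S.iv v) := by
    clear * - ι S p u a W Va r hz hW0 hVa0
    refine sum_le_sum fun v _ => ?_
    have hi := S.iv_pos v
    have hn := S.nu_pos p
    by_cases hv : p ∈ v
    · rw [hz v (mem_union_right _ hv), mul_zero, mul_zero]
      have := hW0 ((-(S.jp (a ∪ v) : S.G)) p)
      positivity
    · have h := S.dec_one u hv (-(S.jp (a ∪ v) : S.G))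
      rw [decU_eq]
      refine (mul_le_mul_of_nonneg_left (mul_le_mul_of_nonneg_left h hn.le) hi.le).trans_eq ?_
      ring
  rw [sum_add_distrib, ← mul_sum, ← mul_sum] at h1
  have h2 : ∑ v ∈ S.VV r a, S.iv v * W ((-(S.jp (a ∪ v) : S.G)) p) ≤ 3 / S.H0 * (S.m p * Va) := by
    rw [hVa, ← S.sum_update p u, mul_sum,
      ← sum_fiberwise (S.VV r a) fun v => (-(S.jp (a ∪ v) : S.G)) p]
    refine sum_le_sum fun c _ => ?_
    rw [sum_congr rfl fun v hv => by rw [(mem_filter.1 hv).2], ← sum_mul]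
    exact mul_le_mul_of_nonneg_right (S.dec_class hr1 hp hpa c) (hW0 c)
  have hm : (0 : ℝ) < S.m p := by exact_mod_cast S.m_pos p
  have h3 : 2 * S.nu p * (3 / S.H0 * (S.m p * Va)) = 6 * (S.H0⁻¹ * Va) := by
    unfold nu
    field_simp
    ring
  have h4 := mul_le_mul_of_nonneg_left h2 (mul_pos two_pos (S.nu_pos p)).le
  have h5 : 2 * S.nu p * Va * ∑ v ∈ S.VV r a, S.iv v ≤ 2 * S.H0⁻¹ * Va * S.Λ :=
    mul_le_mul (mul_le_mul_of_nonneg_right (mul_le_mul_of_nonneg_left (S.nu_le hp) zero_le_two) hVa0)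
      (S.sum_iv_VV_le r a) (sum_nonneg fun v _ => (S.iv_pos v).le) (by positivity)
  have h6 : 0 ≤ S.H0⁻¹ * Va := by positivity
  have h7 : 3 * S.Λ / S.H0 * Va = 3 * S.Λ * (S.H0⁻¹ * Va) := by ring
  rw [h7]
  clear * - ι S r a p u Va W h1 h3 h4 h5 h6 hΛ
  nlinarith

lemma dec_pairs {r : ℕ} (hr : r ≤ S.k) {z : Finset ι} (hz : z.card = S.s + S.k')
    (x : Finset ι → Finset ι → ℂ) :
    ‖∑ a ∈ S.AA r, ∑ v ∈ S.VV r a, if a ∪ v ⊆ z then x a v else 0‖ ^ 2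
      ≤ S.D * S.D' * ∑ a ∈ S.AA r, ∑ v ∈ S.VV r a, if a ∪ v ⊆ z then ‖x a v‖ ^ 2 else 0 := by
  have h := norm_sq_wsum ((S.AA r).sigma (S.VV r))
    (w := fun q => if q.1 ∪ q.2 ⊆ z then (1 : ℝ) else 0)
    (fun q _ => by positivity) fun q => x q.1 q.2
  simp only [sum_sigma] at h
  have h1 : ∑ a ∈ S.AA r, ∑ v ∈ S.VV r a, (if a ∪ v ⊆ z then (1 : ℝ) else 0) ≤ S.D * S.D' := by
    refine (S.sum_AV_le hr (Φ := fun d => if d ⊆ z then (1 : ℝ) else 0)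
      fun d _ => by positivity).trans (mul_le_mul_of_nonneg_left ?_ (Nat.cast_nonneg _))
    rw [sum_boole]
    exact_mod_cast S.card_DD_sub hz.le
  have e1 : ∀ a v, (((if a ∪ v ⊆ z then (1 : ℝ) else 0 : ℝ) : ℂ)) * x a v =
      if a ∪ v ⊆ z then x a v else 0 := fun a v => by split_ifs <;> simp
  simp only [e1, ite_mul, one_mul, zero_mul] at h
  exact h.trans (mul_le_mul_of_nonneg_right h1
    (sum_nonneg fun a _ => sum_nonneg fun v _ => by positivity))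

theorem dec_YY {r : ℕ} (hr1 : 1 ≤ r) (hr : r ≤ S.k) {u : Finset ι → S.G → ℂ}
    (hu : ∀ a ∈ S.AA r, S.Indep a (u a)) :
    ∑ y, (if (S.Zs y).card = S.s + S.k' then ‖S.YY r u y‖ ^ 2 else 0)
      ≤ 2 * S.Λ ^ 2 * ∑ z ∈ S.E.powersetCard (S.s + S.k'), S.Pz z * S.nn (S.YZ r u z)
        + 12 * S.Λ ^ 4 / S.H0 * S.D * S.D' * ∑ a ∈ S.AA r, S.iv a * S.inf (u a) := by
  set Ψ : Finset ι → Finset ι → Finset ι → ℝ := fun a v z =>
    ∑ ξ ∈ S.Gx, ‖S.decU (u a) a v (S.rs z ξ) - S.decU (u a) a v ξ‖ ^ 2 with hΨ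
  have hΨ0 : ∀ a v z, 0 ≤ Ψ a v z := fun a v z => sum_nonneg fun ξ _ => by positivity
  have hvp : 0 < S.vp⁻¹ := inv_pos.2 S.vp_pos
  have hDD : (0 : ℝ) ≤ S.D * S.D' := by positivity
  have hΛ : 0 < S.Λ := lt_of_lt_of_le (by norm_num) S.big
  have e0 := S.coupling_class (S.s + S.k') fun z x => ‖S.YZ r u z x‖ ^ 2
  simp only [smul_eq_mul] at e0
  have h1 : ∀ z ∈ S.E.powersetCard (S.s + S.k'), ∑ ξ ∈ S.Gx, ‖S.YZ r u z (S.rs z ξ)‖ ^ 2 ≤
      2 * S.nn (S.YZ r u z) + 2 * (S.D * S.D') *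
        ∑ a ∈ S.AA r, ∑ v ∈ S.VV r a, if a ∪ v ⊆ z then Ψ a v z else 0 := by
    clear * - ι S r u hr Ψ
    intro z hz
    have h2 : ∀ ξ : S.G, ‖S.YZ r u z (S.rs z ξ)‖ ^ 2 ≤ 2 * ‖S.YZ r u z ξ‖ ^ 2 +
        2 * (S.D * S.D') * ∑ a ∈ S.AA r, ∑ v ∈ S.VV r a, if a ∪ v ⊆ z then
          ‖S.decU (u a) a v (S.rs z ξ) - S.decU (u a) a v ξ‖ ^ 2 else 0 := by
      intro ξ
      have h3 := S.dec_pairs hr (mem_powersetCard.1 hz).2
        fun a v => S.decU (u a) a v (S.rs z ξ) - S.decU (u a) a v ξ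
      have h4 := norm_add_sq_le (S.YZ r u z ξ) (∑ a ∈ S.AA r, ∑ v ∈ S.VV r a,
        if a ∪ v ⊆ z then S.decU (u a) a v (S.rs z ξ) - S.decU (u a) a v ξ else 0)
      have e : S.YZ r u z ξ + (∑ a ∈ S.AA r, ∑ v ∈ S.VV r a,
          if a ∪ v ⊆ z then S.decU (u a) a v (S.rs z ξ) - S.decU (u a) a v ξ else 0) =
          S.YZ r u z (S.rs z ξ) := by
        unfold YZ decU
        simp only [← sum_add_distrib]
        refine sum_congr rfl fun a _ => sum_congr rfl fun v _ => ?_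
        split_ifs <;> ring
      rw [e] at h4
      linarith
    refine (sum_le_sum fun ξ _ => h2 ξ).trans ?_
    rw [sum_add_distrib, ← mul_sum, ← mul_sum]
    refine add_le_add (mul_le_mul_of_nonneg_left
      (sum_le_sum_of_subset_of_nonneg (subset_univ _) fun ξ _ _ => by positivity) zero_le_two)
      (le_of_eq ?_)
    congr 1
    rw [sum_comm]
    refine sum_congr rfl fun a _ => ?_
    rw [sum_comm]
    refine sum_congr rfl fun v _ => ?_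
    split_ifs
    · rfl
    · simp
  have h2 : S.vp⁻¹ * ∑ z ∈ S.E.powersetCard (S.s + S.k'), S.Pz z *
      ∑ a ∈ S.AA r, ∑ v ∈ S.VV r a, (if a ∪ v ⊆ z then Ψ a v z else 0) ≤
      6 * S.Λ ^ 4 / S.H0 * ∑ a ∈ S.AA r, S.iv a * S.inf (u a) := by
    clear * - ι S r Ψ hΨ0 u hvp hu hr1 hΛ
    have h3 : ∑ z ∈ S.E.powersetCard (S.s + S.k'), S.Pz z *
        ∑ a ∈ S.AA r, ∑ v ∈ S.VV r a, (if a ∪ v ⊆ z then Ψ a v z else 0) ≤
        ∑ z ∈ S.E.powerset, S.Pz z *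
          ∑ a ∈ S.AA r, ∑ v ∈ S.VV r a, (if a ∪ v ⊆ z then Ψ a v z else 0) :=
      sum_le_sum_of_subset_of_nonneg (fun z hz => mem_powerset.2 (mem_powersetCard.1 hz).1)
        fun z _ _ => mul_nonneg (S.Pz_nonneg z) (sum_nonneg fun a _ => sum_nonneg fun v _ => by
          have := hΨ0 a v z
          positivity)
    refine (mul_le_mul_of_nonneg_left h3 hvp.le).trans ?_
    simp only [mul_sum (S.AA r)]
    rw [sum_comm, mul_sum]
    refine sum_le_sum fun a ha => ?_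
    simp only [mul_sum (S.VV r a)]
    rw [sum_comm, mul_sum]
    have h4 : ∀ v ∈ S.VV r a, S.vp⁻¹ * ∑ z ∈ S.E.powerset, S.Pz z *
        (if a ∪ v ⊆ z then Ψ a v z else 0) ≤
        2 * S.Λ ^ 3 * S.iv a * (S.iv v * S.devB (S.decU (u a) a v)) := by
      intro v hv
      obtain ⟨-, h5, -, h6⟩ := S.mem_VV.1 hv
      rw [S.Pz_cond (S.DD_sub _ h6) (Ψ a v) fun z => ?_, mul_left_comm, S.iv_union h5]
      · refine (mul_le_mul_of_nonneg_left (S.lemB (S.decU (u a) a v))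
          (mul_pos (S.iv_pos a) (S.iv_pos v)).le).trans_eq ?_
        ring
      · refine sum_congr rfl fun ξ _ => ?_
        rw [S.decU_indep (hu a ha) v (S.rs (z ∪ (a ∪ v)) ξ) (S.rs z ξ) fun i hi => ?_]
        have : i ∈ z ∪ (a ∪ v) ↔ i ∈ z := by rw [mem_union, or_iff_left hi]
        simp only [rs, this]
    refine (sum_le_sum h4).trans ?_
    rw [← mul_sum]
    refine (mul_le_mul_of_nonneg_left (S.dec_devB hr1 (hu a ha))
      (by have := S.iv_pos a; positivity)).trans_eq ?_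
    ring
  have h3 : S.vp⁻¹ * ∑ z ∈ S.E.powersetCard (S.s + S.k'), S.Pz z * S.nn (S.YZ r u z) ≤
      S.Λ ^ 2 * ∑ z ∈ S.E.powersetCard (S.s + S.k'), S.Pz z * S.nn (S.YZ r u z) :=
    mul_le_mul_of_nonneg_right S.vp_inv_le
      (sum_nonneg fun z _ => mul_nonneg (S.Pz_nonneg z) (S.nn_nonneg _))
  have h4 := mul_le_mul_of_nonneg_left (sum_le_sum fun z hz =>
    mul_le_mul_of_nonneg_left (h1 z hz) (S.Pz_nonneg z)) hvp.le
  have h5 := mul_le_mul_of_nonneg_left h2 hDD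
  have e1 : ∑ z ∈ S.E.powersetCard (S.s + S.k'), S.Pz z * (2 * S.nn (S.YZ r u z) +
      2 * (S.D * S.D') * ∑ a ∈ S.AA r, ∑ v ∈ S.VV r a, if a ∪ v ⊆ z then Ψ a v z else 0) =
      2 * (∑ z ∈ S.E.powersetCard (S.s + S.k'), S.Pz z * S.nn (S.YZ r u z)) +
      2 * (S.D * S.D') * ∑ z ∈ S.E.powersetCard (S.s + S.k'), S.Pz z *
        ∑ a ∈ S.AA r, ∑ v ∈ S.VV r a, (if a ∪ v ⊆ z then Ψ a v z else 0) := by
    rw [mul_sum, mul_sum, ← sum_add_distrib]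
    exact sum_congr rfl fun z _ => by ring
  rw [e1, ← e0] at h4
  refine le_trans (le_of_eq rfl) (h4.trans ?_)
  have e2 : 12 * S.Λ ^ 4 / S.H0 * S.D * S.D' * ∑ a ∈ S.AA r, S.iv a * S.inf (u a) =
      2 * (S.D * S.D' * (6 * S.Λ ^ 4 / S.H0 * ∑ a ∈ S.AA r, S.iv a * S.inf (u a))) := by ring
  rw [e2]
  clear * - ι S r u Ψ h3 h5
  linarith

end Sys

end Pool.Agent.Work.MP_d018b2_nt.R
end

-- merged part: Pool.Agent.Work.MP_d018b2_nt.R.SPTII
section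
/-! The type II estimate. -/

set_option autoImplicit false
open Finset Pool.Agent.Lib.LargeSieve

namespace Pool.Agent.Work.MP_d018b2_nt.R

open Pool.Agent.Work.MP_678620_nt

lemma TII_dZ_nat_mul (n : ℕ) (x : ℝ) : dZ (n * x) ≤ n * dZ x := by
  refine (dZ_le _ (n * round x)).trans (le_of_eq ?_)
  unfold dZ
  push_cast
  rw [← mul_sub, abs_mul, Nat.abs_cast]

lemma TII_spaced {β : ℝ} {r : ℚ} (hr : |β - r| ≤ 1 / (r.den : ℝ) ^ 2) {k : ℤ} (hk0 : k ≠ 0)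
    (hk : 2 * |k| ≤ r.den) : 1 / ((2 * r.den : ℕ) : ℝ) ≤ dZ (β * k) := by
  have hq : (0 : ℝ) < r.den := by exact_mod_cast r.den_pos
  have hne : k * r.num - round (β * k) * r.den ≠ 0 := by
    intro h
    have h1 : (r.den : ℤ) ∣ k * r.num := ⟨round (β * k), by linarith⟩
    have h2 : IsCoprime (r.den : ℤ) r.num := by
      rw [Int.isCoprime_iff_gcd_eq_one, Int.gcd_comm]
      exact r.reduced
    have h3 := Int.le_of_dvd (abs_pos.2 hk0) ((dvd_abs _ _).2 (h2.dvd_of_dvd_mul_right h1))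
    have h4 := abs_pos.2 hk0
    omega
  have h1 : (1 : ℝ) ≤ |((k * r.num - round (β * k) * r.den : ℤ) : ℝ)| := by
    exact_mod_cast Int.one_le_abs hne
  have h2 : (k : ℝ) * r - round (β * k) = ((k * r.num - round (β * k) * r.den : ℤ) : ℝ) / r.den := by
    rw [Rat.cast_def]
    push_cast
    field_simp
  have h3 : 1 / (r.den : ℝ) ≤ |(k : ℝ) * r - round (β * k)| := by
    rw [h2, abs_div, abs_of_pos hq]
    gcongr
  have hk' : 2 * |(k : ℝ)| ≤ r.den := by exact_mod_cast hk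
  have h4 : |(k : ℝ) * (β - r)| ≤ 1 / (2 * r.den) := by
    clear * - k β r hk' hr
    rw [abs_mul]
    calc |(k : ℝ)| * |β - r| ≤ (r.den / 2) * (1 / (r.den : ℝ) ^ 2) := by
          gcongr
          linarith
      _ = 1 / (2 * r.den) := by field_simp
  have h5 : (k : ℝ) * r - round (β * k) = (β * k - round (β * k)) - k * (β - r) := by ring
  have h6 := abs_sub (β * k - round (β * k)) ((k : ℝ) * (β - r))
  rw [← h5] at h6
  have h7 : 1 / (r.den : ℝ) = 1 / (2 * r.den) + 1 / (2 * r.den) := by field_simp; ring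
  unfold dZ
  push_cast
  linarith

theorem typeII_int {β Jc P : ℝ} {Q : ℕ} (hQ : 1 ≤ Q) (hJ : (Q : ℝ) ≤ Jc) (hP : 0 ≤ P)
    (hβ : ∀ q : ℕ, 1 ≤ q → q ≤ Q → Q / Jc < dZ (β * q)) {α : Type*} (I : Finset α) (n : α → ℕ)
    (hn : Set.InjOn n I) (hI : ∀ p ∈ I, P ≤ n p ∧ (n p : ℝ) ≤ 2 * P) (x : α → ℂ) (N2 : ℕ) :
    ∑ w ∈ range N2, ‖∑ p ∈ I, x p * ee (w * (β * n p))‖ ^ 2
      ≤ (2 * P * N2 / Q + N2 + (4 * P + 2 * Jc / Q) * (1 + Real.log (2 * Jc)))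
        * ∑ p ∈ I, ‖x p‖ ^ 2 := by
  classical
  have hQ' : (0 : ℝ) < Q := by exact_mod_cast hQ
  have hQ1 : (1 : ℝ) ≤ Q := by exact_mod_cast hQ
  have hJ0 : 0 < Jc := by linarith
  have hn0 : 0 < ⌊Jc / Q⌋₊ := Nat.floor_pos.2 (by rw [le_div_iff₀ hQ']; linarith)
  obtain ⟨r, hr1, hr2⟩ := Real.exists_rat_abs_sub_le_and_den_le β hn0
  have hq : (0 : ℝ) < r.den := by exact_mod_cast r.den_pos
  have hr2' : (r.den : ℝ) ≤ ⌊Jc / Q⌋₊ := by exact_mod_cast hr2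
  have hqJ : (r.den : ℝ) ≤ Jc / Q := hr2'.trans (Nat.floor_le (by positivity))
  have hQq : (Q : ℝ) ≤ r.den := by
    clear * - Q r Jc β hβ hr1 hn0 hJ0 hQ' hq
    by_contra hc
    push Not at hc
    have h1 := hβ r.den r.den_pos (by exact_mod_cast hc.le)
    have h2 := dZ_le (β * r.den) r.num
    have h3 : β * r.den - r.num = (β - r) * r.den := by
      rw [Rat.cast_def]
      field_simp
    rw [h3, abs_mul, abs_of_pos hq] at h2
    have h4 : |β - r| * r.den ≤ 1 / (⌊Jc / Q⌋₊ + 1) := by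
      calc |β - r| * r.den ≤ 1 / ((⌊Jc / Q⌋₊ + 1) * r.den) * r.den := by gcongr
        _ = 1 / (⌊Jc / Q⌋₊ + 1) := by field_simp
    have h5 : 1 / ((⌊Jc / Q⌋₊ : ℝ) + 1) ≤ Q / Jc := by
      rw [← one_div_div Jc Q]
      exact one_div_le_one_div_of_le (div_pos hJ0 hQ') (Nat.lt_floor_add_one _).le
    linarith
  have hr3 : |β - r| ≤ 1 / (r.den : ℝ) ^ 2 := by
    clear * - β r Jc Q hr1 hr2'
    refine hr1.trans (one_div_le_one_div_of_le (by positivity) ?_)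
    rw [sq]
    gcongr
    linarith
  set b : α → ℕ := fun p => (n p - ⌈P⌉₊) / (r.den / 2 + 1) with hb
  set B : ℕ := ⌊2 * P / r.den⌋₊ + 1 with hB
  have hmaps : ∀ p ∈ I, b p ∈ range B := by
    clear * - α I B b P r hB n hI Jc Q hq hP
    intro p hp
    rw [mem_range, hB, Nat.lt_succ_iff]
    refine Nat.le_floor ?_
    have h1 : ⌈P⌉₊ ≤ n p := Nat.ceil_le.2 (hI p hp).1
    have h2 : ((n p - ⌈P⌉₊ : ℕ) : ℝ) ≤ P := by
      rw [Nat.cast_sub h1]
      linarith [Nat.le_ceil P, (hI p hp).2]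
    have h3 : (r.den : ℝ) ≤ 2 * ((r.den / 2 + 1 : ℕ) : ℝ) := by
      have : r.den ≤ 2 * (r.den / 2 + 1) := by omega
      exact_mod_cast this
    refine Nat.cast_div_le.trans ?_
    rw [div_le_div_iff₀ (by positivity) hq]
    calc ((n p - ⌈P⌉₊ : ℕ) : ℝ) * r.den ≤ P * (2 * ((r.den / 2 + 1 : ℕ) : ℝ)) := by gcongr
      _ = _ := by ring
  have hblock : ∀ t, ∑ w ∈ range N2, ‖∑ p ∈ I.filter (fun p => b p = t),
      x p * ee (w * (β * n p))‖ ^ 2 ≤ (N2 + (2 * r.den : ℕ) * HH (2 * r.den)) *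
        ∑ p ∈ I.filter (fun p => b p = t), ‖x p‖ ^ 2 := by
    clear * - α b I β n r Jc P Q hI hn hr3 N2 x
    intro t
    refine largeSieve_dual _ (fun p => β * n p) (2 * r.den) (by have := r.den_pos; omega) ?_ N2 x
    intro p hp p' hp' hne
    rw [mem_filter] at hp hp'
    have h1 : ⌈P⌉₊ ≤ n p := Nat.ceil_le.2 (hI p hp.1).1
    have h2 : ⌈P⌉₊ ≤ n p' := Nat.ceil_le.2 (hI p' hp'.1).1
    have h3 : n p ≠ n p' := fun h => hne (hn hp.1 hp'.1 h)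
    have h4 : (n p - ⌈P⌉₊) / (r.den / 2 + 1) = (n p' - ⌈P⌉₊) / (r.den / 2 + 1) :=
      hp.2.trans hp'.2.symm
    have h5 := Nat.div_add_mod (n p - ⌈P⌉₊) (r.den / 2 + 1)
    have h6 := Nat.div_add_mod (n p' - ⌈P⌉₊) (r.den / 2 + 1)
    have h7 := Nat.mod_lt (n p - ⌈P⌉₊) (show 0 < r.den / 2 + 1 by omega)
    have h8 := Nat.mod_lt (n p' - ⌈P⌉₊) (show 0 < r.den / 2 + 1 by omega)
    rw [h4] at h5
    have h9 := TII_spaced hr3 (k := (n p : ℤ) - n p') (by omega) (by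
      generalize (r.den / 2 + 1) * ((n p' - ⌈P⌉₊) / (r.den / 2 + 1)) = u at h5 h6
      rcases abs_cases ((n p : ℤ) - n p') with h | h <;> omega)
    refine h9.trans (le_of_eq ?_)
    congr 1
    push_cast
    ring
  have hH : HH (2 * r.den) ≤ 1 + Real.log (2 * Jc) := by
    clear * - r Jc Q hJ0 hQ1 hqJ
    refine (HH_le _).trans ?_
    have h1 : Jc / Q ≤ Jc := div_le_self hJ0.le hQ1
    push_cast
    gcongr
    linarith
  have hH0 := HH_nonneg (2 * r.den)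
  have hX : 0 ≤ ∑ p ∈ I, ‖x p‖ ^ 2 := sum_nonneg fun _ _ => by positivity
  calc ∑ w ∈ range N2, ‖∑ p ∈ I, x p * ee (w * (β * n p))‖ ^ 2
      ≤ ∑ w ∈ range N2, (B : ℝ) * ∑ t ∈ range B, ‖∑ p ∈ I.filter (fun p => b p = t),
          x p * ee (w * (β * n p))‖ ^ 2 := by
        refine sum_le_sum fun w _ => ?_
        rw [← sum_fiberwise_of_maps_to hmaps]
        simpa using norm_sq_sum_le (range B) fun t => ∑ p ∈ I.filter (fun p => b p = t),
          x p * ee (w * (β * n p))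
    _ = (B : ℝ) * ∑ t ∈ range B, ∑ w ∈ range N2, ‖∑ p ∈ I.filter (fun p => b p = t),
          x p * ee (w * (β * n p))‖ ^ 2 := by rw [← mul_sum, sum_comm]
    _ ≤ (B : ℝ) * ∑ t ∈ range B, (N2 + (2 * r.den : ℕ) * HH (2 * r.den)) *
        ∑ p ∈ I.filter (fun p => b p = t), ‖x p‖ ^ 2 := by
        gcongr with t _
        exact hblock t
    _ = (B * (N2 + (2 * r.den : ℕ) * HH (2 * r.den))) * ∑ p ∈ I, ‖x p‖ ^ 2 := by
        rw [← mul_sum, sum_fiberwise_of_maps_to hmaps, mul_assoc]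
    _ ≤ _ := by
        clear * - α I x B N2 r P Q Jc hB hP hH0 hQ hQq hqJ hH hJ0 hX
        refine mul_le_mul_of_nonneg_right ?_ hX
        have h1 : (B : ℝ) ≤ 2 * P / r.den + 1 := by
          rw [hB]
          push_cast
          linarith [Nat.floor_le (show 0 ≤ 2 * P / r.den by positivity)]
        calc (B : ℝ) * (N2 + (2 * r.den : ℕ) * HH (2 * r.den))
            ≤ (2 * P / r.den + 1) * (N2 + (2 * r.den : ℕ) * HH (2 * r.den)) := by gcongr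
          _ = 2 * P * N2 / r.den + N2 + (4 * P + 2 * r.den) * HH (2 * r.den) := by
              push_cast
              field_simp
              ring
          _ ≤ 2 * P * N2 / Q + N2 + (4 * P + 2 * (Jc / Q)) * (1 + Real.log (2 * Jc)) := by gcongr
          _ = _ := by ring

namespace Sys

variable {ι : Type} [Fintype ι] [DecidableEq ι] (S : Sys ι)

variable {S} in
lemma Minor.mono {a c : Finset ι} {α : ℝ} (h : S.Minor a α) (hc : c ⊆ a) : S.Minor c α := by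
  intro q hq1 hq2
  have h1 := h q hq1 hq2
  have hd : Disjoint c (a \ c) := disjoint_sdiff
  have hu : c ∪ (a \ c) = a := union_sdiff_of_subset hc
  have h2 := S.jp_union hd
  have h3 := S.pr_union hd
  rw [hu] at h2 h3
  have h4 := TII_dZ_nat_mul (S.pr (a \ c)) (α * S.jp c * q)
  have h5 : α * S.jp a * q = S.pr (a \ c) * (α * S.jp c * q) := by
    rw [h2]
    push_cast
    ring
  have h6 : (S.Q : ℝ) * S.pr a / S.T = S.pr (a \ c) * ((S.Q : ℝ) * S.pr c / S.T) := by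
    rw [h3]
    push_cast
    ring
  rw [h5, h6] at h1
  exact lt_of_mul_lt_mul_left (h1.trans_le h4) (Nat.cast_nonneg _)

lemma TII_QL : (S.Q : ℝ) * S.Λ ≤ S.H0 := by
  simpa using S.mono_le_H0 (a := 0) (b := 0) (c := 1) (d := 1) (by norm_num) (by norm_num)
    (by norm_num) (by norm_num)

/-- The main part for one label. -/
lemma TII_main {c : Finset ι} {α : ℝ} (hα : S.Minor c α) {I : Finset ι} (hI : I ⊆ S.E) {P : ℝ}
    (hP0 : S.H0 ≤ P) (hP : ∀ p ∈ I, P ≤ S.m p ∧ (S.m p : ℝ) ≤ 2 * P) {M : Finset (Finset ι)}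
    (hM : ∀ w ∈ M, w ⊆ S.E ∧ S.H0 ≤ S.pr w ∧ (S.T : ℝ) / S.pr c ≤ 2 * P * S.pr w ∧
      P * S.pr w ≤ 2 * ((S.T : ℝ) / S.pr c)) (x : ι → ℂ) :
    ∑ w ∈ M, S.iv w * ‖∑ p ∈ I, (S.nu p : ℂ) * x p * ee (S.pr w * (-(α * S.jp c) * S.m p))‖ ^ 2
      ≤ 5 * S.Λ / S.Q * ∑ p ∈ I, S.nu p * ‖x p‖ ^ 2 := by
  have hΛ := S.big
  have hH := S.H0_big
  have hQL := S.TII_QL
  have hQ1 : (2 : ℝ) ≤ S.Q := by exact_mod_cast S.Q_ge
  have hX : 0 ≤ ∑ p ∈ I, S.nu p * ‖x p‖ ^ 2 :=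
    sum_nonneg fun p _ => mul_nonneg (S.nu_pos p).le (by positivity)
  rcases M.eq_empty_or_nonempty with rfl | ⟨w0, hw0⟩
  · rw [sum_empty]
    positivity
  obtain ⟨Jc, hJc⟩ : ∃ Jc : ℝ, Jc = (S.T : ℝ) / S.pr c := ⟨_, rfl⟩
  have hT : (1 : ℝ) ≤ S.T := by exact_mod_cast S.T_pos
  have hc1 : (1 : ℝ) ≤ S.pr c := by exact_mod_cast S.pr_pos c
  have hJT : Jc ≤ S.T := by rw [hJc]; exact div_le_self (by linarith) hc1
  rw [← hJc] at hM
  have hH0 : 0 < S.H0 := lt_of_lt_of_le (by positivity) hH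
  have hPp : 0 < P := by linarith
  have hPJ : P * S.H0 ≤ 2 * Jc := le_trans (by gcongr; exact (hM w0 hw0).2.1) (hM w0 hw0).2.2.2
  have hQH : (S.Q : ℝ) ≤ S.H0 := by clear * - ι S hH hQL hΛ; nlinarith
  have hH2 : (2 : ℝ) ≤ S.H0 := le_trans (by norm_num) hH
  have hPJ' : P ≤ Jc := by clear * - P Jc ι S hP0 hH hPJ; nlinarith
  have hJ0 : 0 < Jc := by linarith
  have hint := typeII_int (β := -(α * S.jp c)) (Jc := Jc) (P := P) (Q := S.Q)
    (by have := S.Q_ge; omega) (by linarith) hPp.le (fun q hq1 hq2 => by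
      have h1 := hα q hq1 hq2
      rw [neg_mul, dZ_neg, hJc, div_div_eq_mul_div]
      exact h1) I S.m (fun p hp p' _ h => S.m_inj (hI hp) h) hP (fun p => (S.nu p : ℂ) * x p)
    (⌊2 * Jc / P⌋₊ + 1)
  have hN2 : ((⌊2 * Jc / P⌋₊ + 1 : ℕ) : ℝ) ≤ 3 * Jc / P := by
    clear * - Jc P hJ0 hPp hPJ'
    push_cast
    have h1 := Nat.floor_le (show 0 ≤ 2 * Jc / P by positivity)
    have h2 : 1 ≤ Jc / P := by rw [le_div_iff₀ hPp]; linarith
    have h3 : 3 * Jc / P = 2 * Jc / P + Jc / P := by ring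
    linarith
  set N2 := ⌊2 * Jc / P⌋₊ + 1 with hN2d
  have hy : ∑ p ∈ I, ‖(S.nu p : ℂ) * x p‖ ^ 2 ≤ P⁻¹ * ∑ p ∈ I, S.nu p * ‖x p‖ ^ 2 := by
    rw [mul_sum]
    refine sum_le_sum fun p hp => ?_
    have h1 : S.nu p ≤ P⁻¹ := inv_anti₀ hPp (hP p hp).1
    have h2 := S.nu_pos p
    rw [norm_mul, Complex.norm_real, Real.norm_of_nonneg h2.le, mul_pow, sq, mul_assoc]
    gcongr
  have hlog : 1 + Real.log (2 * Jc) ≤ S.Λ := by
    clear * - Jc ι S hJ0 hJT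
    refine le_trans ?_ S.logT
    gcongr
    linarith
  have hlog0 : 0 ≤ 1 + Real.log (2 * Jc) := by
    clear * - Jc ι S P hP0 hH hPJ'
    have := Real.log_nonneg (show 1 ≤ 2 * Jc by linarith)
    linarith
  calc _ ≤ ∑ w ∈ M, 2 * P / Jc *
        ‖∑ p ∈ I, (S.nu p : ℂ) * x p * ee (S.pr w * (-(α * S.jp c) * S.m p))‖ ^ 2 := by
        clear * - ι S I x α c P Jc M hJ0 hM
        refine sum_le_sum fun w hw => mul_le_mul_of_nonneg_right ?_ (by positivity)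
        have h1 : (0 : ℝ) < S.pr w := by exact_mod_cast S.pr_pos w
        rw [iv, inv_eq_one_div, div_le_div_iff₀ h1 hJ0]
        linarith [(hM w hw).2.2.1]
    _ ≤ 2 * P / Jc * ∑ t ∈ range N2,
        ‖∑ p ∈ I, (S.nu p : ℂ) * x p * ee (t * (-(α * S.jp c) * S.m p))‖ ^ 2 := by
        clear * - ι M P Jc I S x α c N2 hM hN2d hPp hJ0
        rw [← mul_sum]
        refine mul_le_mul_of_nonneg_left ?_ (by positivity)
        rw [← sum_image (s := M) (g := S.pr) (f := fun t : ℕ =>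
          ‖∑ p ∈ I, (S.nu p : ℂ) * x p * ee (t * (-(α * S.jp c) * S.m p))‖ ^ 2)
          fun w hw w' hw' h => S.pr_inj (hM w hw).1 (hM w' hw').1 h]
        refine sum_le_sum_of_subset_of_nonneg (fun t ht => ?_) fun _ _ _ => by positivity
        obtain ⟨w, hw, rfl⟩ := mem_image.1 ht
        rw [mem_range, hN2d, Nat.lt_succ_iff]
        refine Nat.le_floor ?_
        rw [le_div_iff₀ hPp]
        linarith [(hM w hw).2.2.2]
    _ ≤ 2 * P / Jc * ((2 * P * (3 * Jc / P) / S.Q + 3 * Jc / P + (4 * P + 2 * Jc / S.Q) * S.Λ) *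
        (P⁻¹ * ∑ p ∈ I, S.nu p * ‖x p‖ ^ 2)) := by
        clear * - P Jc N2 ι I S x α c hint hN2 hPp hQ1 hlog hJ0 hy hΛ
        refine mul_le_mul_of_nonneg_left (hint.trans ?_) (by positivity)
        gcongr
    _ = (12 / S.Q + 6 / P + 8 * (P * S.Λ / Jc) + 4 * S.Λ / S.Q) *
        ∑ p ∈ I, S.nu p * ‖x p‖ ^ 2 := by
        clear * - P Jc ι S I x hQ1 hPp hJ0
        field_simp
        ring
    _ ≤ _ := by
        clear * - ι I S x P Jc hQ1 hP0 hQH hJ0 hQL hPJ hH hΛ hX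
        refine mul_le_mul_of_nonneg_right ?_ hX
        have h1 : 6 / P ≤ 6 / S.Q := by gcongr; linarith
        have h2 : P * S.Λ / Jc ≤ 2 / S.Q := by
          rw [div_le_div_iff₀ hJ0 (by linarith)]
          nlinarith
        have h3 : 34 / (S.Q : ℝ) ≤ S.Λ / S.Q := by gcongr; linarith
        have h4 : 34 / (S.Q : ℝ) = 12 / S.Q + 6 / S.Q + 8 * (2 / S.Q) := by ring
        have h5 : 5 * S.Λ / S.Q = S.Λ / S.Q + 4 * S.Λ / S.Q := by ring
        linarith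

/-- One label. -/
lemma TII_label {c : Finset ι} {α : ℝ} (hα : S.Minor c α) {j : ℕ} (hj : 1 ≤ j) (x : ι → ℂ)
    (l : ℕ) :
    ∑ w ∈ (S.E \ c).powersetCard j, S.iv w * ‖∑ p ∈ (S.E \ (c ∪ w)).filter (fun p => S.lab p = l),
        if insert p (c ∪ w) ∈ S.DD then
          (S.nu p : ℂ) * x p * ee (-(α * S.jp (insert p (c ∪ w)))) else 0‖ ^ 2
      ≤ 12 * S.Λ / S.Q * ∑ p ∈ (S.E \ c).filter (fun p => S.lab p = l), S.nu p * ‖x p‖ ^ 2 := by
  have hΛ := S.big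
  have hH := S.H0_big
  have hQL := S.TII_QL
  have hQ1 : (2 : ℝ) ≤ S.Q := by exact_mod_cast S.Q_ge
  have hH0 : 0 < S.H0 := lt_of_lt_of_le (by positivity) hH
  set I := (S.E \ c).filter (fun p => S.lab p = l) with hId
  have hIE : I ⊆ S.E := (filter_subset _ _).trans sdiff_subset
  have hmemI : ∀ p, p ∈ I ↔ (p ∈ S.E ∧ p ∉ c) ∧ S.lab p = l := fun p => by
    rw [hId, mem_filter, mem_sdiff]
  have hX : 0 ≤ ∑ p ∈ I, S.nu p * ‖x p‖ ^ 2 :=
    sum_nonneg fun p _ => mul_nonneg (S.nu_pos p).le (by positivity)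
  have hset : ∀ w, (S.E \ (c ∪ w)).filter (fun p => S.lab p = l) = I \ w := by
    intro w
    ext p
    simp only [mem_filter, mem_sdiff, mem_union, hmemI]
    tauto
  simp_rw [hset]
  set M := ((S.E \ c).powersetCard j).filter
    (fun w => ∃ p0 ∈ I, p0 ∉ w ∧ insert p0 (c ∪ w) ∈ S.DD) with hMd
  have hzero : ∑ w ∈ (S.E \ c).powersetCard j, S.iv w * ‖∑ p ∈ I \ w,
      if insert p (c ∪ w) ∈ S.DD then
        (S.nu p : ℂ) * x p * ee (-(α * S.jp (insert p (c ∪ w)))) else 0‖ ^ 2 =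
      ∑ w ∈ M, S.iv w * ‖∑ p ∈ I \ w, if insert p (c ∪ w) ∈ S.DD then
        (S.nu p : ℂ) * x p * ee (-(α * S.jp (insert p (c ∪ w)))) else 0‖ ^ 2 := by
    refine (sum_subset (filter_subset _ _) fun w hw hw' => ?_).symm
    rw [sum_eq_zero, norm_zero, zero_pow two_ne_zero, mul_zero]
    intro p hp
    rw [mem_sdiff] at hp
    exact if_neg fun h => hw' (mem_filter.2 ⟨hw, p, hp.1, hp.2, h⟩)
  rw [hzero]
  rcases M.eq_empty_or_nonempty with hM0 | ⟨w0, hw0⟩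
  · rw [hM0, sum_empty]
    positivity
  obtain ⟨p1, hp1, hmin⟩ := exists_min_image I S.m (by
    obtain ⟨p0, hp0, -⟩ := (mem_filter.1 hw0).2
    exact ⟨p0, hp0⟩)
  have hP : ∀ p ∈ I, (S.m p1 : ℝ) ≤ S.m p ∧ (S.m p : ℝ) ≤ 2 * S.m p1 := fun p hp =>
    ⟨by exact_mod_cast hmin p hp, by
      exact_mod_cast S.lab_close p (hIE hp) p1 (hIE hp1)
        (((hmemI p).1 hp).2.trans ((hmemI p1).1 hp1).2.symm)⟩
  have hMw : ∀ w ∈ M, w ⊆ S.E ∧ Disjoint c w ∧ w.card = j := fun w hw => by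
    have h1 := mem_powersetCard.1 (mem_filter.1 hw).1
    exact ⟨h1.1.trans sdiff_subset, disjoint_sdiff.mono_right h1.1, h1.2⟩
  have hpr : ∀ w ∈ M, ∀ p ∈ I, p ∉ w → S.pr (insert p (c ∪ w)) = S.m p * (S.pr c * S.pr w) := by
    intro w hw p hp hpw
    rw [S.pr_insert (by simp [hpw, ((hmemI p).1 hp).1.2]), S.pr_union (hMw w hw).2.1]
  have hjs : (j : ℝ) ≤ S.Λ := by
    obtain ⟨p0, -, -, h0⟩ := (mem_filter.1 hw0).2
    have h1 := card_le_card (subset_union_right.trans (subset_insert p0 (c ∪ w0)))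
    rw [S.DD_card _ h0, (hMw w0 hw0).2.2] at h1
    exact le_trans (by exact_mod_cast h1) S.s_le
  have hmain := S.TII_main hα hIE (S.lo p1 (hIE hp1)) hP (M := M) (fun w hw => by
    clear * - ι I w S c p1 j hw hpr hP hMw hH hj hw0 x
    obtain ⟨p0, hp0, hp0w, h0⟩ := (mem_filter.1 hw).2
    have h1 : S.T ≤ S.pr (insert p0 (c ∪ w)) := S.DD_lo _ h0
    have h2 : S.pr (insert p0 (c ∪ w)) ≤ 2 * S.T := S.DD_hi _ h0
    rw [hpr w hw p0 hp0 hp0w] at h1 h2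
    have h1' : (S.T : ℝ) ≤ S.m p0 * (S.pr c * S.pr w) := by exact_mod_cast h1
    have h2' : (S.m p0 : ℝ) * (S.pr c * S.pr w) ≤ 2 * S.T := by exact_mod_cast h2
    have hc0 : (0 : ℝ) < S.pr c := by exact_mod_cast S.pr_pos c
    have hw0 : (0 : ℝ) < S.pr w := by exact_mod_cast S.pr_pos w
    have h3 := hP p0 hp0
    refine ⟨(hMw w hw).1, ?_, ?_, ?_⟩
    · refine le_trans ?_ (S.H0_pow_le_pr (hMw w hw).1)
      rw [(hMw w hw).2.2]
      exact le_self_pow₀ (le_trans (by norm_num) hH) (by omega)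
    · rw [div_le_iff₀ hc0]
      calc (S.T : ℝ) ≤ S.m p0 * (S.pr c * S.pr w) := h1'
        _ ≤ 2 * S.m p1 * (S.pr c * S.pr w) := by gcongr; exact h3.2
        _ = _ := by ring
    · rw [← mul_div_assoc, le_div_iff₀ hc0]
      calc (S.m p1 : ℝ) * S.pr w * S.pr c = S.m p1 * (S.pr c * S.pr w) := by ring
        _ ≤ S.m p0 * (S.pr c * S.pr w) := mul_le_mul_of_nonneg_right h3.1 (by positivity)
        _ ≤ _ := h2') x
  have hterm : ∀ w ∈ M, ‖∑ p ∈ I \ w, if insert p (c ∪ w) ∈ S.DD then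
        (S.nu p : ℂ) * x p * ee (-(α * S.jp (insert p (c ∪ w)))) else 0‖ ^ 2 ≤
      2 * ‖∑ p ∈ I, (S.nu p : ℂ) * x p * ee (S.pr w * (-(α * S.jp c) * S.m p))‖ ^ 2 +
        2 * (S.Λ / S.H0 * ∑ p ∈ I, S.nu p * ‖x p‖ ^ 2) := by
    clear * - ι M I S c x α j hIE l hmemI hpr hMw hjs hH hΛ
    intro w hw
    obtain ⟨p0, hp0, hp0w, h0⟩ := (mem_filter.1 hw).2
    have h1 : (∑ p ∈ I \ w, if insert p (c ∪ w) ∈ S.DD then
        (S.nu p : ℂ) * x p * ee (-(α * S.jp (insert p (c ∪ w)))) else 0) =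
        ∑ p ∈ I \ w, (S.nu p : ℂ) * x p * ee (S.pr w * (-(α * S.jp c) * S.m p)) := by
      refine sum_congr rfl fun p hp => ?_
      rw [mem_sdiff] at hp
      rw [if_pos (S.lab_DD _ p0 (hIE hp0) p (hIE hp.1) (by simp [hp0w, ((hmemI p0).1 hp0).1.2])
        (by simp [hp.2, ((hmemI p).1 hp.1).1.2])
        (((hmemI p0).1 hp0).2.trans ((hmemI p).1 hp.1).2.symm) h0)]
      congr 2
      rw [jp, jp, hpr w hw p hp.1 hp.2]
      push_cast
      ring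
    have h2 := sum_inter_add_sum_sdiff I w
      fun p => (S.nu p : ℂ) * x p * ee (S.pr w * (-(α * S.jp c) * S.m p))
    have h3 := norm_sq_wsum (I ∩ w) (w := S.nu) (fun p _ => (S.nu_pos p).le)
      fun p => x p * ee (S.pr w * (-(α * S.jp c) * S.m p))
    simp only [norm_mul, norm_ee, mul_one, ← mul_assoc] at h3
    have h4 : ∑ p ∈ I ∩ w, S.nu p ≤ S.Λ / S.H0 := by
      calc ∑ p ∈ I ∩ w, S.nu p ≤ ∑ _p ∈ I ∩ w, S.H0⁻¹ :=
            sum_le_sum fun p hp => S.nu_le (hIE (mem_inter.1 hp).1)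
        _ = (I ∩ w).card * S.H0⁻¹ := by rw [sum_const, nsmul_eq_mul]
        _ ≤ S.Λ * S.H0⁻¹ := by
            gcongr
            refine le_trans ?_ hjs
            rw [← (hMw w hw).2.2]
            exact_mod_cast card_le_card inter_subset_right
        _ = _ := by rw [div_eq_mul_inv]
    have h5 : ∑ p ∈ I ∩ w, S.nu p * ‖x p‖ ^ 2 ≤ ∑ p ∈ I, S.nu p * ‖x p‖ ^ 2 :=
      sum_le_sum_of_subset_of_nonneg inter_subset_left
        fun p _ _ => mul_nonneg (S.nu_pos p).le (by positivity)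
    have h6 : 0 ≤ ∑ p ∈ I ∩ w, S.nu p * ‖x p‖ ^ 2 :=
      sum_nonneg fun p _ => mul_nonneg (S.nu_pos p).le (by positivity)
    have h7 := h3.trans (mul_le_mul h4 h5 h6 (by positivity))
    rw [h1, eq_sub_of_add_eq' h2, sub_eq_add_neg]
    refine (norm_add_sq_le _ _).trans ?_
    rw [norm_neg]
    simp only [← mul_assoc] at h7 ⊢
    linarith
  have hiv : ∑ w ∈ M, S.iv w ≤ S.Λ :=
    le_trans (sum_le_sum_of_subset_of_nonneg (filter_subset _ _) fun w _ _ => (S.iv_pos w).le)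
      (S.sum_iv_le sdiff_subset j)
  calc _ ≤ ∑ w ∈ M, S.iv w *
        (2 * ‖∑ p ∈ I, (S.nu p : ℂ) * x p * ee (S.pr w * (-(α * S.jp c) * S.m p))‖ ^ 2 +
          2 * (S.Λ / S.H0 * ∑ p ∈ I, S.nu p * ‖x p‖ ^ 2)) :=
        sum_le_sum fun w hw => mul_le_mul_of_nonneg_left (hterm w hw) (S.iv_pos w).le
    _ = 2 * ∑ w ∈ M, S.iv w *
          ‖∑ p ∈ I, (S.nu p : ℂ) * x p * ee (S.pr w * (-(α * S.jp c) * S.m p))‖ ^ 2 +
        (∑ w ∈ M, S.iv w) * (2 * (S.Λ / S.H0 * ∑ p ∈ I, S.nu p * ‖x p‖ ^ 2)) := by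
        rw [mul_sum M, sum_mul M, ← sum_add_distrib]
        exact sum_congr rfl fun w _ => by ring
    _ ≤ 2 * (5 * S.Λ / S.Q * ∑ p ∈ I, S.nu p * ‖x p‖ ^ 2) +
        S.Λ * (2 * (1 / S.Q * ∑ p ∈ I, S.nu p * ‖x p‖ ^ 2)) := by
        clear * - ι S hH0 hQ1 hQL M I x α c hmain hiv hX hΛ hH
        have h1 : S.Λ / S.H0 ≤ 1 / S.Q := by
          rw [div_le_div_iff₀ hH0 (by linarith)]
          linarith
        gcongr
    _ = _ := by ring

theorem typeII {c : Finset ι} (hc : c ⊆ S.E) {α : ℝ} (hα : S.Minor c α) {j : ℕ} (hj : 1 ≤ j)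
    (x : ι → ℂ) :
    ∑ w ∈ (S.E \ c).powersetCard j, S.iv w * ‖∑ p ∈ S.E \ (c ∪ w),
        if insert p (c ∪ w) ∈ S.DD then
          (S.nu p : ℂ) * x p * ee (-(α * S.jp (insert p (c ∪ w)))) else 0‖ ^ 2
      ≤ S.Λ ^ 3 / S.Q * ∑ p ∈ S.E \ c, S.nu p * ‖x p‖ ^ 2 := by
  have hΛ := S.big
  have hQ1 : (2 : ℝ) ≤ S.Q := by exact_mod_cast S.Q_ge
  have hX : 0 ≤ ∑ p ∈ S.E \ c, S.nu p * ‖x p‖ ^ 2 :=
    sum_nonneg fun p _ => mul_nonneg (S.nu_pos p).le (by positivity)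
  calc _ ≤ ∑ w ∈ (S.E \ c).powersetCard j, S.iv w * (S.Λ * ∑ l ∈ S.E.image S.lab,
        ‖∑ p ∈ (S.E \ (c ∪ w)).filter (fun p => S.lab p = l), if insert p (c ∪ w) ∈ S.DD then
          (S.nu p : ℂ) * x p * ee (-(α * S.jp (insert p (c ∪ w)))) else 0‖ ^ 2) := by
        refine sum_le_sum fun w _ => mul_le_mul_of_nonneg_left ?_ (S.iv_pos w).le
        rw [← sum_fiberwise_of_maps_to (t := S.E.image S.lab) (g := S.lab)
          fun p hp => mem_image_of_mem _ (mem_sdiff.1 hp).1]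
        exact (norm_sq_sum_le _ _).trans
          (mul_le_mul_of_nonneg_right S.lab_le (sum_nonneg fun _ _ => by positivity))
    _ = S.Λ * ∑ l ∈ S.E.image S.lab, ∑ w ∈ (S.E \ c).powersetCard j, S.iv w *
        ‖∑ p ∈ (S.E \ (c ∪ w)).filter (fun p => S.lab p = l), if insert p (c ∪ w) ∈ S.DD then
          (S.nu p : ℂ) * x p * ee (-(α * S.jp (insert p (c ∪ w)))) else 0‖ ^ 2 := by
        rw [sum_comm, mul_sum]
        refine sum_congr rfl fun w _ => ?_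
        rw [← mul_sum]
        ring
    _ ≤ S.Λ * ∑ l ∈ S.E.image S.lab, 12 * S.Λ / S.Q *
        ∑ p ∈ (S.E \ c).filter (fun p => S.lab p = l), S.nu p * ‖x p‖ ^ 2 :=
        mul_le_mul_of_nonneg_left (sum_le_sum fun l _ => S.TII_label hα hj x l) (by linarith)
    _ = 12 * S.Λ ^ 2 / S.Q * ∑ p ∈ S.E \ c, S.nu p * ‖x p‖ ^ 2 := by
        rw [← mul_sum, sum_fiberwise_of_maps_to (t := S.E.image S.lab) (g := S.lab)
          fun p hp => mem_image_of_mem _ (mem_sdiff.1 hp).1]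
        ring
    _ ≤ _ := by
        clear * - ι S hΛ c x hQ1 hX
        have h1 : 12 * S.Λ ^ 2 ≤ S.Λ ^ 3 := by nlinarith [sq_nonneg S.Λ]
        gcongr

end Sys

end Pool.Agent.Work.MP_d018b2_nt.R
end

-- merged part: Pool.Agent.Work.MP_d018b2_nt.R.SPYd
section
/-! Norms of the coefficients at one frequency. -/

set_option autoImplicit false
open Finset Pool.Agent.Lib.LargeSieve

namespace Pool.Agent.Work.MP_d018b2_nt.R

open Pool.Agent.Work.MP_678620_nt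

lemma SPYd_reidx {ι β : Type*} [DecidableEq ι] [AddCommMonoid β] (E : Finset ι) (t j : ℕ)
    (Φ : Finset ι → Finset ι → β) :
    ∑ e ∈ E.powersetCard (t + j), ∑ a ∈ e.powersetCard t, Φ a (e \ a)
      = ∑ a ∈ E.powersetCard t, ∑ v ∈ (E \ a).powersetCard j, Φ a v := by
  rw [sum_sigma', sum_sigma']
  refine sum_nbij' (fun x => ⟨x.2, x.1 \ x.2⟩) (fun x => ⟨x.1 ∪ x.2, x.1⟩) ?_ ?_ ?_ ?_ ?_
  · rintro ⟨e, a⟩ h
    simp only [mem_sigma, mem_powersetCard] at h ⊢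
    obtain ⟨⟨h1, h2⟩, h3, h4⟩ := h
    refine ⟨⟨h3.trans h1, h4⟩, sdiff_subset_sdiff h1 Subset.rfl, ?_⟩
    rw [card_sdiff_of_subset h3]
    omega
  · rintro ⟨a, v⟩ h
    simp only [mem_sigma, mem_powersetCard] at h ⊢
    obtain ⟨⟨h1, h2⟩, h3, h4⟩ := h
    rw [subset_sdiff] at h3
    refine ⟨⟨union_subset h1 h3.1, ?_⟩, subset_union_left, h2⟩
    rw [card_union_of_disjoint h3.2.symm, h2, h4]
  · rintro ⟨e, a⟩ h
    simp only [mem_sigma, mem_powersetCard] at h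
    simp only [union_sdiff_of_subset h.2.1]
  · rintro ⟨a, v⟩ h
    simp only [mem_sigma, mem_powersetCard, subset_sdiff] at h
    simp only [union_sdiff_cancel_left h.2.1.2.symm]
  · rintro ⟨e, a⟩ _
    rfl

lemma SPYd_split {ι : Type*} [DecidableEq ι] {e : Finset ι} {p : ι} (hp : p ∉ e) (t : ℕ)
    (F : Finset ι → ℂ) :
    ∑ a ∈ (insert p e).powersetCard (t + 1), F a
      = ∑ a ∈ e.powersetCard (t + 1), F a + ∑ c ∈ e.powersetCard t, F (insert p c) := by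
  rw [powersetCard_succ_insert hp, sum_union, sum_image]
  · intro a ha b hb h
    have h1 : p ∉ a := fun h => hp ((mem_powersetCard.1 ha).1 h)
    have h2 : p ∉ b := fun h => hp ((mem_powersetCard.1 hb).1 h)
    rw [← erase_insert h1, ← erase_insert h2, h]
  · rw [disjoint_left]
    intro a ha hb
    obtain ⟨c, -, rfl⟩ := mem_image.1 hb
    exact hp ((mem_powersetCard.1 ha).1 (mem_insert_self _ _))

namespace Sys

variable {ι : Type} [Fintype ι] [DecidableEq ι] (S : Sys ι)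

lemma SPYd_iv {a e : Finset ι} (h : a ⊆ e) : S.iv e = S.iv a * S.iv (e \ a) := by
  rw [← S.iv_union disjoint_sdiff, union_sdiff_of_subset h]

theorem ny_yd {r : ℕ} (hr : r ≤ S.k) (w : Finset ι → ℂ) (B : Finset ι) (α : ℝ) :
    S.ny (S.yd r w B α) ≤ S.D * S.Λ * ∑ a ∈ S.AA r, S.iv a * ‖w a‖ ^ 2 := by
  have hrs : r ≤ S.s := hr.trans S.k_le
  have h1 : S.ny (S.yd r w B α) ≤ S.D * ∑ d ∈ S.DD, ∑ a ∈ d.powersetCard (S.s - r),
      S.iv a * ‖w a‖ ^ 2 * S.iv (d \ a) := by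
    rw [ny, mul_sum]
    refine sum_le_sum fun d hd => ?_
    have h2 : ‖S.yd r w B α d‖ ^ 2 ≤ S.D * ∑ a ∈ d.powersetCard (S.s - r), ‖w a‖ ^ 2 := by
      rw [yd, norm_mul, norm_ee, mul_one]
      refine (norm_sq_sum_le _ _).trans (mul_le_mul ?_ (sum_le_sum fun a _ => ?_)
        (sum_nonneg fun _ _ => by positivity) (by positivity))
      · rw [card_powersetCard, S.DD_card d hd, Nat.choose_symm hrs]
        exact_mod_cast S.choose_le_D hr
      · split_ifs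
        · exact le_rfl
        · simp
    refine (mul_le_mul_of_nonneg_left h2 (S.iv_pos d).le).trans (le_of_eq ?_)
    rw [mul_left_comm, mul_sum]
    congr 1
    refine sum_congr rfl fun a ha => ?_
    rw [S.SPYd_iv (mem_powersetCard.1 ha).1]
    ring
  rw [← S.sum_AV hrs fun a v => S.iv a * ‖w a‖ ^ 2 * S.iv v] at h1
  refine h1.trans ?_
  rw [mul_assoc]
  refine mul_le_mul_of_nonneg_left ?_ (by positivity)
  rw [mul_sum]
  refine sum_le_sum fun a _ => ?_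
  rw [← mul_sum, mul_comm S.Λ]
  exact mul_le_mul_of_nonneg_left (S.sum_iv_VV_le r a)
    (mul_nonneg (S.iv_pos a).le (by positivity))

/-- The bilinear sum of the type II estimate. -/
noncomputable def SPYd_G (α : ℝ) (x : ι → ℂ) (e : Finset ι) : ℂ :=
  ∑ p ∈ S.E \ e, if insert p e ∈ S.DD then
    (S.nu p : ℂ) * x p * ee (-(α * S.jp (insert p e))) else 0

lemma SPYd_Λ : 0 ≤ S.Λ ^ 3 / S.Q := by
  have := S.big
  positivity

lemma SPYd_B1 {t j : ℕ} (hj : 1 ≤ j) (hD : (t + j).choose t ≤ S.D) {w : Finset ι → ℂ}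
    (B : Finset ι) {α : ℝ} (hw : ∀ a ∈ S.E.powersetCard t, w a ≠ 0 → S.Minor a α) :
    ∑ e ∈ S.E.powersetCard (t + j), S.iv e * ‖∑ a ∈ e.powersetCard t,
        (if Disjoint (e \ a) B then w a else 0) *
          S.SPYd_G α (fun p => if p ∈ B then 0 else 1) e‖ ^ 2
      ≤ S.D * (S.Λ ^ 3 / S.Q * S.Λ) * ∑ a ∈ S.E.powersetCard t, S.iv a * ‖w a‖ ^ 2 := by
  have h1 : ∑ e ∈ S.E.powersetCard (t + j), S.iv e * ‖∑ a ∈ e.powersetCard t,
        (if Disjoint (e \ a) B then w a else 0) *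
          S.SPYd_G α (fun p => if p ∈ B then 0 else 1) e‖ ^ 2 ≤
      S.D * ∑ e ∈ S.E.powersetCard (t + j), ∑ a ∈ e.powersetCard t, S.iv a * ‖w a‖ ^ 2 *
        (S.iv (e \ a) * ‖S.SPYd_G α (fun p => if p ∈ B then 0 else 1) (a ∪ (e \ a))‖ ^ 2) := by
    rw [mul_sum]
    refine sum_le_sum fun e he => ?_
    have h2 : ‖∑ a ∈ e.powersetCard t, (if Disjoint (e \ a) B then w a else 0) *
          S.SPYd_G α (fun p => if p ∈ B then 0 else 1) e‖ ^ 2 ≤ S.D * ∑ a ∈ e.powersetCard t,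
          ‖w a‖ ^ 2 * ‖S.SPYd_G α (fun p => if p ∈ B then 0 else 1) e‖ ^ 2 := by
      refine (norm_sq_sum_le _ _).trans (mul_le_mul ?_ (sum_le_sum fun a _ => ?_)
        (sum_nonneg fun _ _ => by positivity) (by positivity))
      · rw [card_powersetCard, (mem_powersetCard.1 he).2]
        exact_mod_cast hD
      · split_ifs
        · rw [norm_mul, mul_pow]
        · rw [zero_mul, norm_zero, zero_pow two_ne_zero]
          positivity
    refine (mul_le_mul_of_nonneg_left h2 (S.iv_pos e).le).trans (le_of_eq ?_)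
    rw [mul_left_comm, mul_sum]
    congr 1
    refine sum_congr rfl fun a ha => ?_
    rw [S.SPYd_iv (mem_powersetCard.1 ha).1, union_sdiff_of_subset (mem_powersetCard.1 ha).1]
    ring
  rw [SPYd_reidx S.E t j fun a v => S.iv a * ‖w a‖ ^ 2 *
    (S.iv v * ‖S.SPYd_G α (fun p => if p ∈ B then 0 else 1) (a ∪ v)‖ ^ 2)] at h1
  refine h1.trans ?_
  rw [mul_assoc]
  refine mul_le_mul_of_nonneg_left ?_ (by positivity)
  rw [mul_sum]
  refine sum_le_sum fun a ha => ?_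
  rw [← mul_sum, mul_comm (S.Λ ^ 3 / S.Q * S.Λ)]
  by_cases h0 : w a = 0
  · simp [h0]
  refine mul_le_mul_of_nonneg_left ?_ (mul_nonneg (S.iv_pos a).le (by positivity))
  refine (S.typeII (mem_powersetCard.1 ha).1 (hw a ha h0) hj _).trans
    (mul_le_mul_of_nonneg_left ?_ S.SPYd_Λ)
  refine le_trans ?_ S.L_le
  refine le_trans (sum_le_sum fun p _ => ?_)
    (sum_le_sum_of_subset_of_nonneg sdiff_subset fun p _ _ => (S.nu_pos p).le)
  split_ifs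
  · simpa using (S.nu_pos p).le
  · simp

lemma SPYd_B2 {t j : ℕ} (hj : 1 ≤ j) (hD : (t + j).choose t ≤ S.D) (ht : t + 1 ≤ S.s)
    {w : Finset ι → ℂ} (B : Finset ι) {α : ℝ}
    (hw : ∀ a ∈ S.E.powersetCard (t + 1), w a ≠ 0 → S.Minor a α) :
    ∑ e ∈ S.E.powersetCard (t + j), S.iv e * ‖∑ c ∈ e.powersetCard t,
        (if Disjoint (e \ c) B then 1 else 0) * S.SPYd_G α (fun p => w (insert p c)) e‖ ^ 2
      ≤ S.D * (S.Λ ^ 3 / S.Q * S.Λ) * ∑ a ∈ S.E.powersetCard (t + 1), S.iv a * ‖w a‖ ^ 2 := by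
  have h1 : ∑ e ∈ S.E.powersetCard (t + j), S.iv e * ‖∑ c ∈ e.powersetCard t,
        (if Disjoint (e \ c) B then 1 else 0) * S.SPYd_G α (fun p => w (insert p c)) e‖ ^ 2 ≤
      S.D * ∑ e ∈ S.E.powersetCard (t + j), ∑ c ∈ e.powersetCard t, S.iv c *
        (S.iv (e \ c) * ‖S.SPYd_G α (fun p => w (insert p c)) (c ∪ (e \ c))‖ ^ 2) := by
    rw [mul_sum]
    refine sum_le_sum fun e he => ?_
    have h2 : ‖∑ c ∈ e.powersetCard t, (if Disjoint (e \ c) B then 1 else 0) *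
          S.SPYd_G α (fun p => w (insert p c)) e‖ ^ 2 ≤ S.D * ∑ c ∈ e.powersetCard t,
          ‖S.SPYd_G α (fun p => w (insert p c)) e‖ ^ 2 := by
      refine (norm_sq_sum_le _ _).trans (mul_le_mul ?_ (sum_le_sum fun a _ => ?_)
        (sum_nonneg fun _ _ => by positivity) (by positivity))
      · rw [card_powersetCard, (mem_powersetCard.1 he).2]
        exact_mod_cast hD
      · split_ifs
        · rw [one_mul]
        · rw [zero_mul, norm_zero, zero_pow two_ne_zero]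
          positivity
    refine (mul_le_mul_of_nonneg_left h2 (S.iv_pos e).le).trans (le_of_eq ?_)
    rw [mul_left_comm, mul_sum]
    congr 1
    refine sum_congr rfl fun a ha => ?_
    rw [S.SPYd_iv (mem_powersetCard.1 ha).1, union_sdiff_of_subset (mem_powersetCard.1 ha).1]
    ring
  rw [SPYd_reidx S.E t j fun c v => S.iv c *
    (S.iv v * ‖S.SPYd_G α (fun p => w (insert p c)) (c ∪ v)‖ ^ 2)] at h1
  have h3 : ∑ c ∈ S.E.powersetCard t, ∑ v ∈ (S.E \ c).powersetCard j, S.iv c *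
      (S.iv v * ‖S.SPYd_G α (fun p => w (insert p c)) (c ∪ v)‖ ^ 2) ≤
      S.Λ ^ 3 / S.Q * ∑ c ∈ S.E.powersetCard t, ∑ v ∈ (S.E \ c).powersetCard 1,
        S.iv (c ∪ v) * ‖w (c ∪ v)‖ ^ 2 := by
    clear * - ι t S j α w hw hj
    rw [mul_sum]
    refine sum_le_sum fun c hc => ?_
    obtain ⟨hcE, hct⟩ := mem_powersetCard.1 hc
    have h4 : ∑ v ∈ (S.E \ c).powersetCard 1, S.iv (c ∪ v) * ‖w (c ∪ v)‖ ^ 2 =
        S.iv c * ∑ p ∈ S.E \ c, S.nu p * ‖w (insert p c)‖ ^ 2 := by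
      rw [powersetCard_one, sum_map, mul_sum]
      refine sum_congr rfl fun p hp => ?_
      have h5 : c ∪ {p} = insert p c := by rw [union_comm]; rfl
      change S.iv (c ∪ {p}) * ‖w (c ∪ {p})‖ ^ 2 = _
      rw [h5, S.iv_insert (mem_sdiff.1 hp).2]
      ring
    rw [h4, ← mul_sum, mul_left_comm]
    refine mul_le_mul_of_nonneg_left ?_ (S.iv_pos c).le
    by_cases h0 : ∀ p ∈ S.E \ c, w (insert p c) = 0
    · refine le_trans (le_of_eq (sum_eq_zero fun v _ => ?_)) (mul_nonneg S.SPYd_Λ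
        (sum_nonneg fun p _ => mul_nonneg (S.nu_pos p).le (by positivity)))
      have : S.SPYd_G α (fun p => w (insert p c)) (c ∪ v) = 0 := by
        refine sum_eq_zero fun p hp => ?_
        have := h0 p (sdiff_subset_sdiff Subset.rfl subset_union_left hp)
        simp [this]
      simp [this]
    · push Not at h0
      obtain ⟨p, hp, hp0⟩ := h0
      obtain ⟨hp1, hp2⟩ := mem_sdiff.1 hp
      have h5 := hw (insert p c) (mem_powersetCard.2
        ⟨insert_subset hp1 hcE, by rw [card_insert_of_notMem hp2, hct]⟩) hp0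
      exact S.typeII hcE (h5.mono (subset_insert _ _)) hj _
  rw [← SPYd_reidx S.E t 1 fun c v => S.iv (c ∪ v) * ‖w (c ∪ v)‖ ^ 2] at h3
  refine h1.trans ?_
  rw [mul_assoc]
  refine mul_le_mul_of_nonneg_left (h3.trans ?_) (by positivity)
  rw [mul_assoc]
  refine mul_le_mul_of_nonneg_left ?_ S.SPYd_Λ
  rw [mul_sum]
  refine sum_le_sum fun a ha => ?_
  rw [sum_congr rfl (g := fun _ => S.iv a * ‖w a‖ ^ 2) fun c hc => by
    rw [union_sdiff_of_subset (mem_powersetCard.1 hc).1], sum_const, card_powersetCard,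
    (mem_powersetCard.1 ha).2, Nat.choose_succ_self_right, nsmul_eq_mul]
  refine mul_le_mul_of_nonneg_right (le_trans ?_ S.s_le)
    (mul_nonneg (S.iv_pos a).le (by positivity))
  exact_mod_cast ht

lemma SPYd_one {e : Finset ι} (t : ℕ) (w : Finset ι → ℂ) (B : Finset ι) (α : ℝ) :
    (∑ p ∈ S.E \ e, if insert p e ∈ S.DD then (S.nu p : ℂ) * ((∑ a ∈ e.powersetCard t,
      if Disjoint (insert p e \ a) B then w a else 0) * ee (-(α * S.jp (insert p e)))) else 0) =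
    ∑ a ∈ e.powersetCard t, (if Disjoint (e \ a) B then w a else 0) *
      S.SPYd_G α (fun p => if p ∈ B then 0 else 1) e := by
  simp only [SPYd_G, mul_sum]
  rw [sum_comm]
  refine sum_congr rfl fun p hp => ?_
  by_cases hd : insert p e ∈ S.DD
  · simp only [if_pos hd, sum_mul, mul_sum]
    refine sum_congr rfl fun a ha => ?_
    have h1 : p ∉ a := fun h => (mem_sdiff.1 hp).2 ((mem_powersetCard.1 ha).1 h)
    rw [insert_sdiff_of_notMem _ h1]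
    by_cases h2 : p ∈ B <;> by_cases h3 : Disjoint (e \ a) B <;> simp [h2, h3]
    ring
  · simp [hd]

lemma SPYd_two {e : Finset ι} (t : ℕ) (w : Finset ι → ℂ) (B : Finset ι) (α : ℝ) :
    (∑ p ∈ S.E \ e, if insert p e ∈ S.DD then (S.nu p : ℂ) * ((∑ c ∈ e.powersetCard t,
      if Disjoint (insert p e \ insert p c) B then w (insert p c) else 0) *
        ee (-(α * S.jp (insert p e)))) else 0) =
    ∑ c ∈ e.powersetCard t, (if Disjoint (e \ c) B then 1 else 0) *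
      S.SPYd_G α (fun p => w (insert p c)) e := by
  simp only [SPYd_G, mul_sum]
  rw [sum_comm]
  refine sum_congr rfl fun p hp => ?_
  by_cases hd : insert p e ∈ S.DD
  · simp only [if_pos hd, sum_mul, mul_sum]
    refine sum_congr rfl fun c hc => ?_
    have h1 : insert p e \ insert p c = e \ c := by
      rw [insert_sdiff_insert, sdiff_insert_of_notMem (mem_sdiff.1 hp).2]
    rw [h1]
    by_cases h3 : Disjoint (e \ c) B <;> simp [h3]
    ring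
  · simp [hd]

theorem nB_yd {r : ℕ} (hr2 : 2 ≤ r) (hr : r ≤ S.k) {w : Finset ι → ℂ} (B : Finset ι) {α : ℝ}
    (hw : ∀ a ∈ S.AA r, w a ≠ 0 → S.Minor a α) :
    S.nB (S.yd r w B α) ≤ 4 * S.D * S.Λ ^ 4 / S.Q * ∑ a ∈ S.AA r, S.iv a * ‖w a‖ ^ 2 := by
  have hrs : r ≤ S.s := hr.trans S.k_le
  have hD := S.choose_le_D hr
  have hK : 4 * S.D * S.Λ ^ 4 / S.Q = 4 * (S.D * (S.Λ ^ 3 / S.Q * S.Λ)) := by ring
  have hK0 : 0 ≤ S.D * (S.Λ ^ 3 / S.Q * S.Λ) := by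
    have := S.big
    have := S.SPYd_Λ
    positivity
  have hS : 0 ≤ ∑ a ∈ S.AA r, S.iv a * ‖w a‖ ^ 2 :=
    sum_nonneg fun a _ => mul_nonneg (S.iv_pos a).le (by positivity)
  have hKS := mul_nonneg hK0 hS
  have e1 : S.s - r + (r - 1) = S.s - 1 := by omega
  have b1 := S.SPYd_B1 (t := S.s - r) (j := r - 1) (by omega) (by
    refine le_trans (Nat.choose_le_choose _ (by omega : S.s - r + (r - 1) ≤ S.s)) ?_
    rwa [Nat.choose_symm hrs]) B hw
  rw [e1] at b1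
  rw [hK, nB]
  unfold AA at hw hS hKS ⊢
  simp only [yd]
  rcases Nat.eq_zero_or_pos (S.s - r) with h0 | h0
  · refine le_trans (le_of_eq (sum_congr rfl fun e _ => ?_)) (b1.trans (by clear * - ι S r w hKS b1 h0; linarith))
    rw [← S.SPYd_one]
    simp only [h0, powersetCard_zero]
  · obtain ⟨t, ht⟩ : ∃ t, S.s - r = t + 1 := ⟨S.s - r - 1, by omega⟩
    have e2 : t + r = S.s - 1 := by omega
    rw [ht] at hw b1 hKS ⊢
    have b2 := S.SPYd_B2 (t := t) (j := r) (by omega) (by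
      rw [Nat.choose_symm_add]
      exact le_trans (Nat.choose_le_choose _ (by omega : t + r ≤ S.s)) hD) (by omega) B hw
    rw [e2] at b2
    refine le_trans (sum_le_sum fun e _ => ?_) (le_trans (le_of_eq sum_add_distrib)
      (le_trans (add_le_add (le_of_eq (mul_sum _ _ _).symm) (le_of_eq (mul_sum _ _ _).symm))
        (le_trans (add_le_add (mul_le_mul_of_nonneg_left b1 zero_le_two)
          (mul_le_mul_of_nonneg_left b2 zero_le_two)) (le_of_eq (by ring)))))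
    rw [mul_left_comm 2, mul_left_comm 2, ← mul_add]
    refine mul_le_mul_of_nonneg_left (le_trans (le_of_eq ?_) (norm_add_sq_le _ _))
      (S.iv_pos e).le
    rw [← S.SPYd_one, ← S.SPYd_two, ← sum_add_distrib]
    congr 2
    refine sum_congr rfl fun p hp => ?_
    rw [SPYd_split (mem_sdiff.1 hp).2]
    split_ifs
    · ring
    · simp

end Sys

end Pool.Agent.Work.MP_d018b2_nt.R
end

-- merged part: Pool.Agent.Work.MP_d018b2_nt.R.SPQ1
section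
/-! The quadratic form at a minor frequency when only one prime is free. -/

set_option autoImplicit false
open Finset Pool.Agent.Lib.LargeSieve

namespace Pool.Agent.Work.MP_d018b2_nt.R

open Pool.Agent.Work.MP_678620_nt

lemma sqrt_mul_sqrt_le {A B A' B' C : ℝ} (hA : A ≤ A') (hB : B ≤ B') (hA0 : 0 ≤ A') (hC : 0 ≤ C)
    (h : A' * B' ≤ C ^ 2) : √A * √B ≤ C := by
  refine (mul_le_mul (Real.sqrt_le_sqrt hA) (Real.sqrt_le_sqrt hB) (Real.sqrt_nonneg _)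
    (Real.sqrt_nonneg _)).trans ?_
  rw [← Real.sqrt_mul hA0]
  exact Real.sqrt_le_iff.2 ⟨hC, h⟩

namespace Sys

variable {ι : Type} [Fintype ι] [DecidableEq ι] (S : Sys ι)

lemma norm_G_le (α : ℝ) (B e : Finset ι) :
    ‖S.SPYd_G α (fun p => if p ∈ B then 0 else 1) e‖ ≤ S.Λ := by
  refine le_trans ?_ S.L_le
  refine (norm_sum_le _ _).trans (le_trans (sum_le_sum fun p _ => ?_)
    (sum_le_sum_of_subset_of_nonneg sdiff_subset fun p _ _ => (S.nu_pos p).le))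
  have := (S.nu_pos p).le
  by_cases h1 : insert p e ∈ S.DD <;> by_cases h2 : p ∈ B <;>
    simp [h1, h2, norm_ee, this, abs_of_nonneg this]

lemma one_B11 {t : ℕ} (ht : t + 1 ≤ S.s) {w : Finset ι → ℂ} (B : Finset ι) {α : ℝ}
    (hw : ∀ a ∈ S.E.powersetCard (t + 1), w a ≠ 0 → S.Minor a α) :
    ∑ c ∈ S.E.powersetCard t, S.iv c * ‖S.qBF (S.E.powersetCard (t + 1))
        (fun e => w e * S.SPYd_G α (fun p => if p ∈ B then 0 else 1) e) c‖ ^ 2
      ≤ S.Λ ^ 3 / S.Q * S.Λ * S.Λ * ∑ a ∈ S.E.powersetCard (t + 1), S.iv a * ‖w a‖ ^ 2 := by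
  set G := S.SPYd_G α (fun p => if p ∈ B then 0 else 1) with hG
  have hΛ := S.q_Λ_pos
  have h3 : ∑ c ∈ S.E.powersetCard t, S.iv c * ‖S.qBF (S.E.powersetCard (t + 1))
        (fun e => w e * G e) c‖ ^ 2 ≤
      S.Λ ^ 3 / S.Q * S.Λ * ∑ c ∈ S.E.powersetCard t, ∑ v ∈ (S.E \ c).powersetCard 1,
        S.iv (c ∪ v) * ‖w (c ∪ v)‖ ^ 2 := by
    clear * - ι t S w G hΛ α hw B
    rw [mul_sum]
    refine sum_le_sum fun c hc => ?_
    obtain ⟨hcE, hct⟩ := mem_powersetCard.1 hc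
    have h5 : ∀ p, c ∪ {p} = insert p c := fun p => by rw [union_comm]; rfl
    have h4 : ∑ v ∈ (S.E \ c).powersetCard 1, S.iv (c ∪ v) * ‖w (c ∪ v)‖ ^ 2 =
        S.iv c * ∑ p ∈ S.E \ c, S.nu p * ‖w (insert p c)‖ ^ 2 := by
      rw [powersetCard_one, sum_map, mul_sum]
      refine sum_congr rfl fun p hp => ?_
      change S.iv (c ∪ {p}) * ‖w (c ∪ {p})‖ ^ 2 = _
      rw [h5, S.iv_insert (mem_sdiff.1 hp).2]
      ring
    rw [h4, mul_left_comm]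
    refine mul_le_mul_of_nonneg_left ?_ (S.iv_pos c).le
    have hmem : ∀ p ∈ S.E \ c, insert p c ∈ S.E.powersetCard (t + 1) := fun p hp =>
      mem_powersetCard.2 ⟨insert_subset (mem_sdiff.1 hp).1 hcE, by
        rw [card_insert_of_notMem (mem_sdiff.1 hp).2, hct]⟩
    have hq : S.qBF (S.E.powersetCard (t + 1)) (fun e => w e * G e) c
        = ∑ p ∈ S.E \ c, (S.nu p : ℂ) * (w (insert p c) * G (insert p c)) :=
      sum_congr rfl fun p hp => if_pos (hmem p hp)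
    rw [hq]
    have hX : 0 ≤ ∑ p ∈ S.E \ c, S.nu p * ‖w (insert p c)‖ ^ 2 :=
      sum_nonneg fun p _ => mul_nonneg (S.nu_pos p).le (by positivity)
    by_cases h0 : ∀ p ∈ S.E \ c, w (insert p c) = 0
    · rw [sum_eq_zero fun p hp => by rw [h0 p hp, zero_mul, mul_zero]]
      simp only [norm_zero, ne_eq, OfNat.ofNat_ne_zero, not_false_eq_true, zero_pow]
      have := S.SPYd_Λ
      positivity
    push Not at h0
    obtain ⟨p0, hp0, hp1⟩ := h0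
    have hm : S.Minor c α := (hw _ (hmem p0 hp0) hp1).mono (subset_insert _ _)
    have hT := S.typeII hcE hm (j := 1) le_rfl (fun p => if p ∈ B then 0 else 1)
    have hT1 : ∑ p ∈ S.E \ c, S.nu p * ‖G (insert p c)‖ ^ 2 ≤ S.Λ ^ 3 / S.Q * S.Λ := by
      refine le_trans (le_of_eq ?_) (hT.trans (mul_le_mul_of_nonneg_left ?_ S.SPYd_Λ))
      · rw [powersetCard_one, sum_map]
        refine sum_congr rfl fun p _ => ?_
        change _ = S.iv {p} * ‖G (c ∪ {p})‖ ^ 2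
        rw [h5, S.iv_eq, prod_singleton]
      · refine le_trans ?_ S.L_le
        refine le_trans (sum_le_sum fun p _ => ?_)
          (sum_le_sum_of_subset_of_nonneg sdiff_subset fun p _ _ => (S.nu_pos p).le)
        split_ifs
        · simpa using (S.nu_pos p).le
        · simp
    have hcs := cs_sqrt (S.E \ c) (w := S.nu) (A := fun p => ‖w (insert p c)‖ ^ 2)
      (B := fun p => ‖G (insert p c)‖ ^ 2) (fun p _ => (S.nu_pos p).le)
      (fun _ _ => by positivity) fun _ _ => by positivity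
    have hn : ‖∑ p ∈ S.E \ c, (S.nu p : ℂ) * (w (insert p c) * G (insert p c))‖
        ≤ √(∑ p ∈ S.E \ c, S.nu p * ‖w (insert p c)‖ ^ 2)
          * √(∑ p ∈ S.E \ c, S.nu p * ‖G (insert p c)‖ ^ 2) := by
      refine (norm_sum_le _ _).trans (le_trans (le_of_eq (sum_congr rfl fun p _ => ?_)) hcs)
      rw [norm_mul, norm_mul, Complex.norm_real, Real.norm_of_nonneg (S.nu_pos p).le,
        Real.sqrt_sq (norm_nonneg _), Real.sqrt_sq (norm_nonneg _)]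
    have hY : 0 ≤ ∑ p ∈ S.E \ c, S.nu p * ‖G (insert p c)‖ ^ 2 :=
      sum_nonneg fun p _ => mul_nonneg (S.nu_pos p).le (by positivity)
    refine (pow_le_pow_left₀ (norm_nonneg _) hn 2).trans ?_
    rw [mul_pow, Real.sq_sqrt hX, Real.sq_sqrt hY, mul_comm]
    exact mul_le_mul_of_nonneg_right hT1 hX
  rw [← SPYd_reidx S.E t 1 fun c v => S.iv (c ∪ v) * ‖w (c ∪ v)‖ ^ 2] at h3
  refine h3.trans ?_
  rw [mul_assoc (S.Λ ^ 3 / S.Q * S.Λ)]
  refine mul_le_mul_of_nonneg_left ?_ (mul_nonneg S.SPYd_Λ hΛ.le)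
  rw [mul_sum]
  refine sum_le_sum fun a ha => ?_
  rw [sum_congr rfl (g := fun _ => S.iv a * ‖w a‖ ^ 2) fun c hc => by
    rw [union_sdiff_of_subset (mem_powersetCard.1 hc).1], sum_const, card_powersetCard,
    (mem_powersetCard.1 ha).2, Nat.choose_succ_self_right, nsmul_eq_mul]
  refine mul_le_mul_of_nonneg_right (le_trans ?_ S.s_le)
    (mul_nonneg (S.iv_pos a).le (by positivity))
  exact_mod_cast ht

lemma one_split {t : ℕ} (ht : S.s = t + 2) (w : Finset ι → ℂ) (B : Finset ι) (α : ℝ)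
    {e : Finset ι} (he : e.card = t + 1) :
    S.qB (S.yd 1 w B α) e = w e * S.SPYd_G α (fun p => if p ∈ B then 0 else 1) e
      + ∑ c ∈ e.powersetCard t, (if Disjoint (e \ c) B then 1 else 0) *
        S.SPYd_G α (fun p => w (insert p c)) e := by
  have h1 := S.SPYd_one (e := e) (t + 1) w B α
  have h2 : e.powersetCard (t + 1) = {e} := by rw [← he, powersetCard_self]
  rw [h2, sum_singleton (f := fun a => (if Disjoint (e \ a) B then w a else 0) *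
    S.SPYd_G α (fun p => if p ∈ B then 0 else 1) e), if_pos (by simp), ← h2] at h1
  rw [← h1, ← S.SPYd_two, ← sum_add_distrib]
  refine sum_congr rfl fun p hp => ?_
  simp only [yd]
  rw [show S.s - 1 = t + 1 by omega, SPYd_split (mem_sdiff.1 hp).2]
  split_ifs
  · ring
  · simp

theorem Qf_yd_one {w : Finset ι → ℂ} (B : Finset ι) {α : ℝ}
    (hw : ∀ a ∈ S.AA 1, w a ≠ 0 → S.Minor a α) :
    S.Qf (S.yd 1 w B α) ≤ 2 * S.Λ ^ 5 * (S.D * S.D' * (1 / S.D' + 1 / √S.Q)) *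
      ∑ a ∈ S.AA 1, S.iv a * ‖w a‖ ^ 2 := by
  obtain ⟨t, ht⟩ : ∃ t, S.s = t + 2 := ⟨S.s - 2, by have := S.s_ge; omega⟩
  have hs1 : S.s - 1 = t + 1 := by omega
  have h1 := S.ny_yd S.k_ge w B α
  have h3 := S.Qf_le' (S.yd 1 w B α)
  unfold AA at hw h1 ⊢
  rw [hs1] at hw h1 ⊢
  set y := S.yd 1 w B α with hy
  set G := S.SPYd_G α (fun p => if p ∈ B then 0 else 1) with hG
  set B2 : Finset ι → ℂ := fun e => ∑ c ∈ e.powersetCard t,
    (if Disjoint (e \ c) B then 1 else 0) * S.SPYd_G α (fun p => w (insert p c)) e with hB2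
  have hΛ0 := S.q_Λ_pos
  have hΛ : (1 : ℝ) ≤ S.Λ := le_trans (by norm_num) S.big
  have hH := S.q_H0_pos
  have n2 : ∑ e ∈ S.E.powersetCard (t + 1), S.iv e * ‖B2 e‖ ^ 2 ≤ _ :=
    S.SPYd_B2 (t := t) (j := 1) le_rfl (by
      refine le_trans ?_ (S.choose_le_D S.k_ge)
      rw [Nat.choose_succ_self_right, Nat.choose_one_right]
      omega) (by omega) B hw
  have n11 := S.one_B11 (t := t) (by omega) B hw
  have n1 : ∑ e ∈ S.E.powersetCard (t + 1), S.iv e * ‖w e * G e‖ ^ 2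
      ≤ S.Λ ^ 2 * ∑ a ∈ S.E.powersetCard (t + 1), S.iv a * ‖w a‖ ^ 2 := by
    rw [mul_sum]
    refine sum_le_sum fun e _ => ?_
    rw [norm_mul, mul_pow, ← mul_assoc, mul_comm]
    exact mul_le_mul_of_nonneg_right (pow_le_pow_left₀ (norm_nonneg _) (S.norm_G_le α B e) 2)
      (mul_nonneg (S.iv_pos e).le (by positivity))
  have hW : 0 ≤ ∑ a ∈ S.E.powersetCard (t + 1), S.iv a * ‖w a‖ ^ 2 :=
    sum_nonneg fun a _ => mul_nonneg (S.iv_pos a).le (sq_nonneg _)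
  generalize ∑ a ∈ S.E.powersetCard (t + 1), S.iv a * ‖w a‖ ^ 2 = W at h1 n2 n11 n1 hW ⊢
  have hD : (1 : ℝ) ≤ S.D := by exact_mod_cast S.one_le_D
  have hD' : (1 : ℝ) ≤ S.D' := by exact_mod_cast S.one_le_D'
  have hQ : (0 : ℝ) < S.Q := by
    have := S.Q_ge
    exact_mod_cast (by omega : 0 < S.Q)
  have hq : 0 < √(S.Q : ℝ) := Real.sqrt_pos.2 hQ
  have hqq : √(S.Q : ℝ) ^ 2 = S.Q := Real.sq_sqrt hQ.le
  have hA : 0 ≤ (S.D : ℝ) * S.Λ * W := by positivity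
  set U : ℝ := S.D * S.Λ ^ 3 / √S.Q * W with hU
  have hU0 : 0 ≤ U := by positivity
  have hU2 : U ^ 2 = (S.D : ℝ) ^ 2 * W ^ 2 / S.Q * S.Λ ^ 6 := by
    rw [hU, mul_pow, div_pow, hqq]; ring
  have m2 := sqrt_mul_sqrt_le h1 n2 hA hU0 (by
    rw [hU2]
    calc _ = (S.D : ℝ) ^ 2 * W ^ 2 / S.Q * S.Λ ^ 5 := by ring
      _ ≤ _ := mul_le_mul_of_nonneg_left (pow_le_pow_right₀ hΛ (by norm_num)) (by positivity))
  have m11 := sqrt_mul_sqrt_le h1 n11 hA hU0 (by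
    clear * - ι S W U hU2 hD hQ hΛ0
    rw [hU2]
    calc _ = (S.D : ℝ) * 1 * (W ^ 2 / S.Q * S.Λ ^ 6) := by ring
      _ ≤ (S.D : ℝ) * S.D * (W ^ 2 / S.Q * S.Λ ^ 6) := by gcongr
      _ = _ := by ring)
  have m1 := sqrt_mul_sqrt_le h1 n1 hA (C := S.D * S.Λ ^ 2 * W) (by positivity) (by
    clear * - ι S W hD hΛ hΛ0
    calc _ = (S.D : ℝ) * 1 * (1 * (S.Λ ^ 3 * W ^ 2)) := by ring
      _ ≤ (S.D : ℝ) * S.D * (S.Λ * (S.Λ ^ 3 * W ^ 2)) := by gcongr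
      _ = _ := by ring)
  have hch : ∀ {n r : ℕ}, n ≤ S.s → r ≤ S.k' → (n.choose (S.s - r) : ℝ) ≤ S.D' := by
    intro n r hn hr
    refine le_trans ?_ (S.q_choose hr)
    exact_mod_cast Nat.choose_le_choose _ hn
  have hone : ∀ r ∈ Icc 1 S.k', ∑ b ∈ S.DD, S.iv b * ‖y b‖ * S.qS y (r - 1) b
      ≤ 2 * (S.D' * S.Λ * U) + S.s / S.H0 * (S.D' * S.Λ * (S.D * S.Λ ^ 2 * W))
        + if r = 1 then S.Λ * S.Λ * (S.D * S.Λ ^ 2 * W) else 0 := by
    clear * - ι S y U W t w G B2 hs1 B α hy ht hch m2 hD' hΛ0 hΛ m1 hD hQ hW hH m11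
    intro r hr
    obtain ⟨hr1, hr2⟩ := mem_Icc.1 hr
    have hrs := hr2.trans S.k'_le
    have a0 : ∀ b, S.qS y (r - 1) b
        ≤ ‖∑ e ∈ S.E.powersetCard (t + 1), (S.qG (r - 1) b e : ℂ) * (w e * G e)‖
          + ∑ e ∈ S.E.powersetCard (t + 1), S.qG (r - 1) b e * ‖B2 e‖ := fun b => by
      refine le_trans (le_of_eq ?_) ((norm_add_le _ _).trans
        (add_le_add le_rfl (S.norm_qG_le _ B2 (r - 1) b)))
      rw [qS, hs1, ← sum_add_distrib]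
      congr 1
      refine sum_congr rfl fun e he => ?_
      rw [hy, S.one_split ht w B α (mem_powersetCard.1 he).2, mul_add]
    have a1 := S.q_schur S.q_DD_sub (Subset.refl (S.E.powersetCard (t + 1))) (r := r - 1) (r' := r)
      (by omega) (A := S.D') (by rw [show t + 1 - (r - 1) = S.s - r by omega]; exact hch le_rfl hr2)
      (hch (by omega) hr2) y B2
    have a2 : S.D' * S.Λ * (√(S.ny y) * √(∑ e ∈ S.E.powersetCard (t + 1), S.iv e * ‖B2 e‖ ^ 2))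
        ≤ S.D' * S.Λ * U := mul_le_mul_of_nonneg_left m2 (by positivity)
    have a3 : ∑ b ∈ S.DD, S.iv b * ‖y b‖ *
        ‖∑ e ∈ S.E.powersetCard (t + 1), (S.qG (r - 1) b e : ℂ) * (w e * G e)‖
        ≤ S.D' * S.Λ * U + S.s / S.H0 * (S.D' * S.Λ * (S.D * S.Λ ^ 2 * W))
          + if r = 1 then S.Λ * S.Λ * (S.D * S.Λ ^ 2 * W) else 0 := by
      split_ifs with h
      · have b1 := S.q_schur S.q_DD_sub (Subset.refl (S.E.powersetCard (t + 1))) (r := r - 1)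
          (r' := r) (by omega) (A := S.Λ) (by
            rw [show t + 1 - (r - 1) = t + 1 by omega, ht, Nat.choose_succ_self_right, ← ht]
            exact S.s_le) (by
            rw [show S.s - r = t + 1 by omega, Nat.choose_self]
            simpa using hΛ) y fun e => w e * G e
        have b2 : S.Λ * S.Λ * (√(S.ny y) *
            √(∑ e ∈ S.E.powersetCard (t + 1), S.iv e * ‖w e * G e‖ ^ 2))
            ≤ S.Λ * S.Λ * (S.D * S.Λ ^ 2 * W) := mul_le_mul_of_nonneg_left m1 (by positivity)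
        refine le_trans (sum_le_sum fun b _ => mul_le_mul_of_nonneg_left
          (S.norm_qG_le _ _ (r - 1) b) (mul_nonneg (S.iv_pos b).le (norm_nonneg _)))
          ((b1.trans b2).trans (le_add_of_nonneg_left (by positivity)))
      · have b1 := S.q_schur S.q_DD_sub (Subset.refl (S.E.powersetCard t)) (r := r - 1 - 1)
          (r' := r) (by omega) (A := S.D')
          (by rw [show t - (r - 1 - 1) = S.s - r by omega]; exact hch le_rfl hr2)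
          (hch (by omega) hr2) y (S.qBF (S.E.powersetCard (t + 1)) fun e => w e * G e)
        have b2 := S.q_schur S.q_DD_sub (Subset.refl (S.E.powersetCard (t + 1))) (r := r - 1 - 1)
          (r' := r - 1) (by omega) (A := S.D')
          (by rw [show t + 1 - (r - 1 - 1) = S.s - (r - 1) by omega]; exact hch le_rfl (by omega))
          (hch (by omega) (by omega)) y fun e => w e * G e
        have b3 := b1.trans (mul_le_mul_of_nonneg_left m11 (by positivity))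
        have b4 := b2.trans (mul_le_mul_of_nonneg_left m1 (by positivity))
        have b5 : ((t + 1 : ℕ) : ℝ) / S.H0 ≤ S.s / S.H0 := by
          refine div_le_div_of_nonneg_right ?_ hH.le
          exact_mod_cast (by omega : t + 1 ≤ S.s)
        have b6 := mul_le_mul b5 b4 (sum_nonneg fun b _ => mul_nonneg
          (mul_nonneg (S.iv_pos b).le (norm_nonneg _)) (sum_nonneg fun e _ =>
            mul_nonneg (S.qG_nonneg _ _ _) (norm_nonneg _))) (by positivity)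
        rw [add_zero]
        refine le_trans ?_ (add_le_add b3 b6)
        rw [mul_sum, ← sum_add_distrib]
        refine sum_le_sum fun b _ => ?_
        rw [mul_left_comm, ← mul_add]
        refine mul_le_mul_of_nonneg_left ?_ (mul_nonneg (S.iv_pos b).le (norm_nonneg _))
        refine (S.q_shellF (Subset.refl _) _ (by omega) b).trans (add_le_add ?_ le_rfl)
        exact S.norm_qG_le _ _ _ _
    refine le_trans (sum_le_sum fun b _ => mul_le_mul_of_nonneg_left (a0 b)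
      (mul_nonneg (S.iv_pos b).le (norm_nonneg _))) ?_
    simp only [mul_add, sum_add_distrib]
    have a4 := a1.trans a2
    linarith
  have h4 := sum_le_sum hone
  rw [sum_add_distrib, sum_ite_eq', if_pos (mem_Icc.2 ⟨le_rfl, S.k'_ge⟩), sum_const, Nat.card_Icc,
    add_tsub_cancel_right, nsmul_eq_mul] at h4
  have hk := S.k'_le_Λ
  have hs := S.s_le
  have h5 : (S.k' : ℝ) * (2 * (S.D' * S.Λ * U) + S.s / S.H0 * (S.D' * S.Λ * (S.D * S.Λ ^ 2 * W)))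
      ≤ S.Λ * (2 * (S.D' * S.Λ * U)) + S.D * W := by
    clear * - ι S U W hk hD' hΛ0 hD hQ hW hs hH
    rw [mul_add]
    refine add_le_add (mul_le_mul_of_nonneg_right hk (by positivity)) ?_
    have hm := S.mono_le_H0 (a := 0) (b := 1) (c := 0) (d := 5) (by norm_num) (by norm_num)
      (by norm_num) (by norm_num)
    have : (S.k' : ℝ) * S.s * (S.D' * S.Λ ^ 3) ≤ S.H0 := by
      calc _ ≤ S.Λ * S.Λ * (S.D' * S.Λ ^ 3) := by gcongr
        _ = _ := by ring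
        _ ≤ _ := hm
    calc _ = ((S.k' : ℝ) * S.s * (S.D' * S.Λ ^ 3) / S.H0) * (S.D * W) := by ring
      _ ≤ 1 * (S.D * W) := mul_le_mul_of_nonneg_right ((div_le_one hH).2 this) (by positivity)
      _ = _ := one_mul _
  have e : 2 * S.Λ ^ 5 * (S.D * S.D' * (1 / S.D' + 1 / √S.Q)) * W
      = 2 * S.Λ ^ 5 * (S.D * W) + S.Λ * (2 * (S.D' * S.Λ * U)) := by
    clear * - ι S W U hU hQ hD' hD hΛ0
    rw [hU]
    field_simp
  have h6 : 2 * S.Λ + 1 + S.Λ ^ 4 ≤ 2 * S.Λ ^ 5 := by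
    clear * - ι S hΛ hΛ0
    have b := S.big
    have c1 : S.Λ ≤ S.Λ ^ 4 := le_self_pow₀ hΛ (by norm_num)
    have c2 : 100 * S.Λ ^ 4 ≤ S.Λ ^ 5 := by
      rw [pow_succ' S.Λ 4]
      exact mul_le_mul_of_nonneg_right b (by positivity)
    linarith
  have h7 := mul_le_mul_of_nonneg_right h6 (show (0 : ℝ) ≤ S.D * W by positivity)
  rw [e]
  clear * - ι S y W U h3 h1 h4 h5 h7
  nlinarith

end Sys

end Pool.Agent.Work.MP_d018b2_nt.R
end

-- merged part: Pool.Agent.Work.MP_d018b2_nt.R.SPIII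
section
/-! The minor arc part is small. -/

set_option autoImplicit false
open Finset Pool.Agent.Lib.LargeSieve

namespace Pool.Agent.Work.MP_d018b2_nt.R

open Pool.Agent.Work.MP_678620_nt

/-- Solving a quadratic inequality. -/
lemma le_of_sq_le_lin {N a b t : ℝ} (ha : 0 ≤ a) (hb : 0 ≤ b) (ht : 0 ≤ t)
    (h : N ^ 2 ≤ (a * N + b ^ 2 * t) * t) : N ≤ (a + b) * t := by
  by_contra hc
  rw [not_le] at hc
  have h1 : 0 ≤ a * t := mul_nonneg ha ht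
  have h2 : 0 ≤ b * t := mul_nonneg hb ht
  have hN : 0 < N := by nlinarith
  have h3 : b * t ≤ N := by nlinarith
  have h4 : (a + b) * t * N < N * N := mul_lt_mul_of_pos_right hc hN
  have h5 : b * t * (b * t) ≤ b * t * N := mul_le_mul_of_nonneg_left h3 h2
  nlinarith

namespace Sys

variable {ι : Type} [Fintype ι] [DecidableEq ι] (S : Sys ι)

lemma one_le_Λ3 : 1 ≤ S.Λ := le_trans (by norm_num) S.big

lemma N2_nonneg (r : ℕ) (f : S.G → ℂ) : 0 ≤ S.N2 r f :=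
  sum_nonneg fun a _ => mul_nonneg (S.iv_pos a).le (S.nn_nonneg _)

lemma indep_PW {r : ℕ} (f : S.G → ℂ) : ∀ a ∈ S.AA r, S.Indep a (S.Pa a (S.Wa r a f)) :=
  fun a ha => S.indep_proj _ (S.mem_AA.1 ha).1 (S.indep_Wa r a f)

/-- The minor arc norm as an inner product with the dual function. -/
lemma N2_eq_ip (r : ℕ) (f : S.G → ℂ) :
    (S.N2 r f : ℂ) = S.ip (S.YY r fun a => S.Pa a (S.Wa r a f)) f := by
  rw [← S.dual (S.indep_PW f) f, N2, Complex.ofReal_sum]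
  refine sum_congr rfl fun a _ => ?_
  rw [Complex.ofReal_mul]
  congr 1
  exact (S.ip_proj _ _).symm

/-- Only the class of `f` matters in an inner product with `f`. -/
lemma norm_ip_sq_le {f : S.G → ℂ} (hf : S.Supp f) (Y : S.G → ℂ) :
    ‖S.ip Y f‖ ^ 2 ≤
      (∑ y, if (S.Zs y).card = S.s + S.k' then ‖Y y‖ ^ 2 else 0) * S.nn f := by
  have e1 : S.ip Y f = S.ip (fun y => if (S.Zs y).card = S.s + S.k' then Y y else 0) f := by
    unfold ip
    refine sum_congr rfl fun y _ => ?_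
    by_cases hy : (S.Zs y).card = S.s + S.k'
    · simp only [if_pos hy]
    · have h0 : f y = 0 := by
        by_contra h
        exact hy (hf y h).1
      rw [h0, mul_zero, mul_zero]
  have e2 : S.nn (fun y => if (S.Zs y).card = S.s + S.k' then Y y else 0)
      = ∑ y, if (S.Zs y).card = S.s + S.k' then ‖Y y‖ ^ 2 else 0 := by
    unfold nn
    refine sum_congr rfl fun y _ => ?_
    by_cases hy : (S.Zs y).card = S.s + S.k'
    · simp only [if_pos hy]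
    · simp only [if_neg hy, norm_zero, zero_pow two_ne_zero]
  rw [e1, ← e2]
  refine (pow_le_pow_left₀ (norm_nonneg _) (S.norm_ip_le _ f) 2).trans_eq ?_
  rw [mul_pow, Real.sq_sqrt (S.nn_nonneg _), Real.sq_sqrt (S.nn_nonneg _)]

/-- The quadratic form at a minor frequency. -/
lemma Qf_yd_le {r : ℕ} (hr2 : 1 ≤ r) (hr : r ≤ S.k) {w : Finset ι → ℂ} (B : Finset ι) {α : ℝ}
    (hw : ∀ a ∈ S.AA r, w a ≠ 0 → S.Minor a α) :
    S.Qf (S.yd r w B α) ≤ 2 * S.Λ ^ 5 * (S.D * S.D' * (1 / S.D' + 1 / √S.Q)) *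
      ∑ a ∈ S.AA r, S.iv a * ‖w a‖ ^ 2 := by
  rcases Nat.eq_or_lt_of_le hr2 with rfl | hr2
  · exact S.Qf_yd_one B hw
  have h1 := S.ny_yd hr w B α
  have h2 := S.nB_yd hr2 hr B hw
  have h3 := S.Qf_le (S.yd r w B α)
  have hW : 0 ≤ ∑ a ∈ S.AA r, S.iv a * ‖w a‖ ^ 2 :=
    sum_nonneg fun a _ => mul_nonneg (S.iv_pos a).le (sq_nonneg _)
  generalize ∑ a ∈ S.AA r, S.iv a * ‖w a‖ ^ 2 = W at h1 h2 hW ⊢
  have hΛ := S.one_le_Λ3
  have hΛ0 : 0 ≤ S.Λ := zero_le_one.trans hΛ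
  have hD : (0 : ℝ) ≤ S.D := Nat.cast_nonneg _
  have hD' : (0 : ℝ) < S.D' := by exact_mod_cast S.one_le_D'
  have hQ : (0 : ℝ) < S.Q := by
    have := S.Q_ge
    exact_mod_cast (by omega : 0 < S.Q)
  have hq : 0 < √(S.Q : ℝ) := Real.sqrt_pos.2 hQ
  have hqq : √(S.Q : ℝ) ^ 2 = S.Q := Real.sq_sqrt hQ.le
  have hA : 0 ≤ (S.D : ℝ) * S.Λ * W := by positivity
  have h4 : √(S.ny (S.yd r w B α)) * √(S.nB (S.yd r w B α))
      ≤ 2 * S.D * S.Λ ^ 3 / √S.Q * W := by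
    clear * - ι S r w B α W h1 h2 hA hΛ hQ hW hqq
    refine (mul_le_mul (Real.sqrt_le_sqrt h1) (Real.sqrt_le_sqrt h2) (Real.sqrt_nonneg _)
      (Real.sqrt_nonneg _)).trans ?_
    rw [← Real.sqrt_mul hA]
    refine Real.sqrt_le_iff.2 ⟨by positivity, ?_⟩
    have e : (2 * S.D * S.Λ ^ 3 / √S.Q * W) ^ 2 = 4 * (S.D : ℝ) ^ 2 * W ^ 2 / S.Q * S.Λ ^ 6 := by
      rw [mul_pow, div_pow, hqq]; ring
    have e' : (S.D : ℝ) * S.Λ * W * (4 * S.D * S.Λ ^ 4 / S.Q * W)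
        = 4 * (S.D : ℝ) ^ 2 * W ^ 2 / S.Q * S.Λ ^ 5 := by ring
    rw [e, e']
    exact mul_le_mul_of_nonneg_left (pow_le_pow_right₀ hΛ (by norm_num)) (by positivity)
  have h5 : S.Λ ^ 2 * S.D' * (√(S.ny (S.yd r w B α)) * √(S.nB (S.yd r w B α)))
      ≤ S.Λ ^ 2 * S.D' * (2 * S.D * S.Λ ^ 3 / √S.Q * W) :=
    mul_le_mul_of_nonneg_left h4 (by positivity)
  have h6 : (S.D : ℝ) * S.Λ * W ≤ S.D * S.Λ ^ 5 * W :=
    mul_le_mul_of_nonneg_right
      (mul_le_mul_of_nonneg_left (le_self_pow₀ hΛ (by norm_num)) hD) hW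
  have e : 2 * S.Λ ^ 5 * (S.D * S.D' * (1 / S.D' + 1 / √S.Q)) * W
      = 2 * (S.D * S.Λ ^ 5 * W) + S.Λ ^ 2 * S.D' * (2 * S.D * S.Λ ^ 3 / √S.Q * W) := by
    clear * - ι S W hQ hD' hΛ
    field_simp
  rw [e]
  clear * - ι S r w B α W h3 h1 h5 h6
  linarith

/-- The dual function with frozen zero set is small on average. -/
lemma sum_YZ_le {r : ℕ} (hr2 : 1 ≤ r) (hr : r ≤ S.k) (f : S.G → ℂ) :
    ∑ z ∈ S.E.powersetCard (S.s + S.k'),
        S.Pz z * S.nn (S.YZ r (fun a => S.Pa a (S.Wa r a f)) z)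
      ≤ 2 * S.Λ ^ 5 * (S.D * S.D' * (1 / S.D' + 1 / √S.Q)) * S.N2 r f := by
  have hc : (0 : ℝ) < Fintype.card S.G := by exact_mod_cast Fintype.card_pos
  refine le_of_mul_le_mul_left ?_ hc
  rw [S.pars_YZ (hr.trans S.k_le)]
  have hb : ∀ ψ : AddChar S.G ℂ,
      S.Qf (S.yd r (fun a => S.fh (S.Pa a (S.Wa r a f)) ψ) (S.supp ψ) (S.al ψ))
        ≤ 2 * S.Λ ^ 5 * (S.D * S.D' * (1 / S.D' + 1 / √S.Q)) *
          ∑ a ∈ S.AA r, S.iv a * ‖S.fh (S.Pa a (S.Wa r a f)) ψ‖ ^ 2 := by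
    intro ψ
    refine S.Qf_yd_le hr2 hr _ fun a _ ha => ?_
    by_contra hm
    apply ha
    unfold Pa
    rw [S.fh_proj, if_neg hm]
  refine (sum_le_sum fun ψ _ => hb ψ).trans_eq ?_
  have e : ∑ ψ : AddChar S.G ℂ, ∑ a ∈ S.AA r, S.iv a * ‖S.fh (S.Pa a (S.Wa r a f)) ψ‖ ^ 2
      = Fintype.card S.G * S.N2 r f := by
    rw [sum_comm, N2, mul_sum]
    refine sum_congr rfl fun a _ => ?_
    rw [← mul_sum, ← S.parseval, mul_left_comm]
  rw [← mul_sum, e, mul_left_comm]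

/-- The influences of the projected averages. -/
lemma sum_inf_PW {r : ℕ} (hr : r ≤ S.k) {M : ℝ} (hM : 1 ≤ M) (hMΛ : M ≤ S.Λ)
    {f : S.G → ℂ} (hf : S.Supp f) :
    ∑ a ∈ S.AA r, S.iv a * S.inf (S.Pa a (S.Wa r a f)) ≤ S.Λ ^ 2 * S.D * S.D' * S.tn M f := by
  have hM0 : 0 < M := zero_lt_one.trans_le hM
  have hΛ0 : 0 ≤ S.Λ := zero_le_one.trans S.one_le_Λ3
  have ht : 0 ≤ S.tn M f := (S.nn_nonneg f).trans (S.nn_le_tn hM0 f)
  have h1 : ∑ a ∈ S.AA r, S.iv a * S.inf (S.Pa a (S.Wa r a f))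
      ≤ ∑ a ∈ S.AA r, S.iv a * S.inf (S.Wa r a f) :=
    sum_le_sum fun a _ => mul_le_mul_of_nonneg_left (S.inf_proj_le _ _) (S.iv_pos a).le
  have h2 : S.inf f ≤ S.Λ * S.tn M f :=
    (S.inf_le_tn hM0 f).trans (mul_le_mul_of_nonneg_right hMΛ ht)
  refine h1.trans ((S.sum_inf_Wa hr hf).trans ?_)
  refine (mul_le_mul_of_nonneg_left h2 (by positivity)).trans_eq ?_
  ring

theorem N2_le {r : ℕ} (hr2 : 1 ≤ r) (hr : r ≤ S.k) {M : ℝ} (hM : 1 ≤ M) (hMΛ : M ≤ S.Λ)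
    {f : S.G → ℂ} (hf : S.Supp f) :
    S.N2 r f ≤ S.Λ ^ 8 * S.D * S.D' * (1 / S.D' + 1 / √S.Q) * S.tn M f := by
  have hM0 : 0 < M := zero_lt_one.trans_le hM
  have hΛ := S.big
  have hΛ0 : 0 < S.Λ := lt_of_lt_of_le (by norm_num) hΛ
  have hD : (0 : ℝ) ≤ S.D := Nat.cast_nonneg _
  have hD' : (0 : ℝ) < S.D' := by exact_mod_cast S.one_le_D'
  have hH : 0 < S.H0 := lt_of_lt_of_le (by positivity) S.H0_big
  have hN := S.N2_nonneg r f
  have hnn := S.nn_nonneg f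
  have hnt := S.nn_le_tn hM0 f
  have ht : 0 ≤ S.tn M f := hnn.trans hnt
  have h1 := S.norm_ip_sq_le hf (S.YY r fun a => S.Pa a (S.Wa r a f))
  rw [← S.N2_eq_ip, Complex.norm_real, Real.norm_of_nonneg hN] at h1
  have h2 := S.dec_YY hr2 hr (S.indep_PW (r := r) f)
  have h3 := S.sum_YZ_le hr2 hr f
  have h4 := S.sum_inf_PW hr hM hMΛ hf
  have hX : (S.D : ℝ) ≤ S.D * S.D' * (1 / S.D' + 1 / √S.Q) := by
    clear * - ι S hD'
    have e : (S.D : ℝ) * S.D' * (1 / S.D' + 1 / √S.Q) = S.D + S.D * S.D' * (1 / √S.Q) := by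
      field_simp
    rw [e]
    exact le_add_of_nonneg_right (by positivity)
  have e0 : S.Λ ^ 8 * S.D * S.D' * (1 / S.D' + 1 / √S.Q)
      = S.Λ ^ 8 * (S.D * S.D' * (1 / S.D' + 1 / √S.Q)) := by ring
  rw [e0]
  generalize (S.D : ℝ) * S.D' * (1 / S.D' + 1 / √S.Q) = X at h3 hX ⊢
  have hX0 : 0 ≤ X := hD.trans hX
  have h5 : 12 * S.Λ ^ 6 * (S.D' : ℝ) ^ 2 ≤ S.H0 := by
    clear * - ι S hΛ hD'
    have h := S.mono_le_H0 (a := 0) (b := 2) (c := 0) (d := 7) (by norm_num) (by norm_num)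
      (by norm_num) (by norm_num)
    refine le_trans ?_ h
    have h12 : 12 * (S.Λ ^ 6 * (S.D' : ℝ) ^ 2) ≤ S.Λ * (S.Λ ^ 6 * (S.D' : ℝ) ^ 2) :=
      mul_le_mul_of_nonneg_right (by linarith) (by positivity)
    calc 12 * S.Λ ^ 6 * (S.D' : ℝ) ^ 2 = 12 * (S.Λ ^ 6 * (S.D' : ℝ) ^ 2) := by ring
      _ ≤ S.Λ * (S.Λ ^ 6 * (S.D' : ℝ) ^ 2) := h12
      _ = _ := by ring
  have h6 : 12 * S.Λ ^ 4 / S.H0 * S.D * S.D' *
      ∑ a ∈ S.AA r, S.iv a * S.inf (S.Pa a (S.Wa r a f)) ≤ (S.D : ℝ) ^ 2 * S.tn M f := by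
    clear * - ι S r f M h4 hΛ hH hD' ht h5
    refine (mul_le_mul_of_nonneg_left h4 (by positivity)).trans ?_
    have e : 12 * S.Λ ^ 4 / S.H0 * S.D * S.D' * (S.Λ ^ 2 * S.D * S.D' * S.tn M f)
        = 12 * S.Λ ^ 6 * (S.D' : ℝ) ^ 2 / S.H0 * ((S.D : ℝ) ^ 2 * S.tn M f) := by ring
    rw [e]
    exact mul_le_of_le_one_left (by positivity) ((div_le_one hH).2 h5)
  have h7 : 2 * S.Λ ^ 2 * ∑ z ∈ S.E.powersetCard (S.s + S.k'),
      S.Pz z * S.nn (S.YZ r (fun a => S.Pa a (S.Wa r a f)) z) ≤ 4 * S.Λ ^ 7 * X * S.N2 r f := by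
    refine (mul_le_mul_of_nonneg_left h3 (by positivity)).trans_eq ?_
    ring
  have h8 : S.N2 r f ^ 2 ≤ (4 * S.Λ ^ 7 * X * S.N2 r f + (S.D : ℝ) ^ 2 * S.tn M f) * S.tn M f :=
    h1.trans (mul_le_mul (h2.trans (add_le_add h7 h6)) hnt hnn (by clear * - ι S X r f M hΛ hX0 hN ht h1 h2 h6 h7 hnn hnt; positivity))
  refine (le_of_sq_le_lin (by positivity) hD ht h8).trans (mul_le_mul_of_nonneg_right ?_ ht)
  have h9 : (1 : ℝ) ≤ S.Λ ^ 7 := one_le_pow₀ (by linarith)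
  have h10 : 5 * S.Λ ^ 7 ≤ S.Λ * S.Λ ^ 7 := mul_le_mul_of_nonneg_right (by linarith) (by positivity)
  have h11 : (4 * S.Λ ^ 7 + 1) * X ≤ S.Λ ^ 8 * X := by
    clear * - X ι S h9 h10 hX0
    refine mul_le_mul_of_nonneg_right ?_ hX0
    calc 4 * S.Λ ^ 7 + 1 ≤ S.Λ * S.Λ ^ 7 := by linarith
      _ = S.Λ ^ 8 := by ring
  linarith

lemma ip_Wa_sub {r : ℕ} (hr2 : 1 ≤ r) (a : Finset ι) (g w : S.G → ℂ) :
    ‖S.ip (S.Wa r a g) w - S.ip (S.Wa r a g) (S.Ka a w)‖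
      ≤ 20 / S.Q * (√(S.nn (S.Wa r a g)) * √(S.nn w))
        + √(S.nn (S.Pa a (S.Wa r a g))) * √(S.nn (S.Pa a w)) := by
  rcases (S.VV r a).eq_empty_or_nonempty with h | ⟨v, hv⟩
  · have h0 : ∀ u : S.G → ℂ, S.ip (S.Wa r a g) u = 0 := by
      intro u
      unfold ip Wa
      rw [h]
      simp
    rw [h0, h0, sub_zero, norm_zero]
    positivity
  · exact S.ip_sub_Ka hr2 hv _ _

theorem MW_sub_MK {r : ℕ} (hr2 : 1 ≤ r) (hr : r ≤ S.k) {g f : S.G → ℂ} (hg : S.Supp g)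
    (hf : S.Supp f) :
    ‖S.MW r g f - S.MK r g f‖ ≤ 20 / S.Q * (S.Λ * S.D * S.D') * (√(S.nn g) * √(S.nn f))
      + √(S.N2 r g) * √(S.N2 r f) := by
  have hΛ0 : 0 ≤ S.Λ := zero_le_one.trans S.one_le_Λ3
  have hiv : ∀ a ∈ S.AA r, 0 ≤ S.iv a := fun a _ => (S.iv_pos a).le
  have hC : (0 : ℝ) ≤ S.Λ * S.D * S.D' := by positivity
  have h1 : ‖S.MW r g f - S.MK r g f‖ ≤ ∑ a ∈ S.AA r, S.iv a *
      (20 / S.Q * (√(S.nn (S.Wa r a g)) * √(S.nn (S.Wa r a f)))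
        + √(S.nn (S.Pa a (S.Wa r a g))) * √(S.nn (S.Pa a (S.Wa r a f)))) := by
    rw [MW, MK, ← sum_sub_distrib]
    refine (norm_sum_le _ _).trans (sum_le_sum fun a ha => ?_)
    rw [← mul_sub, norm_mul, Complex.norm_real, Real.norm_of_nonneg (hiv a ha)]
    exact mul_le_mul_of_nonneg_left (S.ip_Wa_sub hr2 a g _) (hiv a ha)
  have h2 := cs_sqrt (S.AA r) (A := fun a => S.nn (S.Wa r a g))
    (B := fun a => S.nn (S.Wa r a f)) hiv (fun _ _ => S.nn_nonneg _) fun _ _ => S.nn_nonneg _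
  have h3 := cs_sqrt (S.AA r) (A := fun a => S.nn (S.Pa a (S.Wa r a g)))
    (B := fun a => S.nn (S.Pa a (S.Wa r a f))) hiv (fun _ _ => S.nn_nonneg _)
    fun _ _ => S.nn_nonneg _
  have h4 : √(∑ a ∈ S.AA r, S.iv a * S.nn (S.Wa r a g)) *
      √(∑ a ∈ S.AA r, S.iv a * S.nn (S.Wa r a f))
        ≤ S.Λ * S.D * S.D' * (√(S.nn g) * √(S.nn f)) := by
    refine (mul_le_mul (Real.sqrt_le_sqrt (S.sum_nn_Wa hr hg))
      (Real.sqrt_le_sqrt (S.sum_nn_Wa hr hf)) (Real.sqrt_nonneg _) (Real.sqrt_nonneg _)).trans_eq ?_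
    rw [Real.sqrt_mul hC, Real.sqrt_mul hC, mul_mul_mul_comm, Real.mul_self_sqrt hC]
  have h5 : (0 : ℝ) ≤ 20 / S.Q := by positivity
  refine h1.trans ?_
  have e : ∑ a ∈ S.AA r, S.iv a *
      (20 / S.Q * (√(S.nn (S.Wa r a g)) * √(S.nn (S.Wa r a f)))
        + √(S.nn (S.Pa a (S.Wa r a g))) * √(S.nn (S.Pa a (S.Wa r a f))))
      = 20 / S.Q * ∑ a ∈ S.AA r, S.iv a * (√(S.nn (S.Wa r a g)) * √(S.nn (S.Wa r a f)))
        + ∑ a ∈ S.AA r, S.iv a *
          (√(S.nn (S.Pa a (S.Wa r a g))) * √(S.nn (S.Pa a (S.Wa r a f)))) := by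
    rw [mul_sum, ← sum_add_distrib]
    exact sum_congr rfl fun a _ => by ring
  rw [e, mul_assoc]
  exact add_le_add (mul_le_mul_of_nonneg_left (h2.trans h4) h5) h3

end Sys

end Pool.Agent.Work.MP_d018b2_nt.R
end
end
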